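import Pool.Agent.NUCR.PlatA
import Pool.Agent.NUP1.Defs

/-!
# Branches of the logarithm of the row pair factor (module B3 of board/CR, helper78)

`Fr u = - sin (u + 3l)^2 / (sin u sin (u - 2l))`.  `lgA` is its logarithm for `0 < Re u < 2 l` (offsets in `(-1, 1)`), `lgL`, `lgR` are
its logarithms for `-3 l < Re u < 0` (offsets in `(1, 4)`) that vanish at `- i oo`, `+ i oo`; `lgL = lgR + 2 pi i`.
-/

set_option autoImplicit false

open MeasureTheory Set Filter Topology Complex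

namespace NUCR

open NUMF

noncomputable section

/-- logarithm of the sine -/
def ls (z : ℂ) : ℂ := Complex.log (Complex.sin z)

lemma sin_re (z : ℂ) : (Complex.sin z).re = Real.sin z.re * Real.cosh z.im := by
  rw [Complex.sin_eq]
  simp [← Complex.ofReal_sin, ← Complex.ofReal_cos, ← Complex.ofReal_cosh, ← Complex.ofReal_sinh]

lemma sin_im (z : ℂ) : (Complex.sin z).im = Real.cos z.re * Real.sinh z.im := by
  rw [Complex.sin_eq]
  simp [← Complex.ofReal_sin, ← Complex.ofReal_cos, ← Complex.ofReal_cosh, ← Complex.ofReal_sinh]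

lemma cos_re (z : ℂ) : (Complex.cos z).re = Real.cos z.re * Real.cosh z.im := by
  rw [Complex.cos_eq]
  simp [← Complex.ofReal_sin, ← Complex.ofReal_cos, ← Complex.ofReal_cosh, ← Complex.ofReal_sinh]

lemma cos_im (z : ℂ) : (Complex.cos z).im = -(Real.sin z.re * Real.sinh z.im) := by
  rw [Complex.cos_eq]
  simp [← Complex.ofReal_sin, ← Complex.ofReal_cos, ← Complex.ofReal_cosh, ← Complex.ofReal_sinh]

lemma sin_re_pos {z : ℂ} (h0 : 0 < z.re) (h1 : z.re < Real.pi) : 0 < (Complex.sin z).re := by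
  rw [sin_re]
  exact mul_pos (Real.sin_pos_of_pos_of_lt_pi h0 h1) (Real.cosh_pos _)

lemma sin_slit {z : ℂ} (h0 : 0 < z.re) (h1 : z.re < Real.pi) : Complex.sin z ∈ slitPlane :=
  Or.inl (sin_re_pos h0 h1)

lemma sin_ne {z : ℂ} (h0 : 0 < z.re) (h1 : z.re < Real.pi) : Complex.sin z ≠ 0 := slitPlane_ne_zero (sin_slit h0 h1)

lemma exp_ls {z : ℂ} (h0 : 0 < z.re) (h1 : z.re < Real.pi) : Complex.exp (ls z) = Complex.sin z :=
  Complex.exp_log (sin_ne h0 h1)

lemma hasDerivAt_ls {z : ℂ} (h0 : 0 < z.re) (h1 : z.re < Real.pi) :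
    HasDerivAt ls (Complex.cos z / Complex.sin z) z :=
  (Complex.hasDerivAt_sin z).clog (sin_slit h0 h1)

lemma ls_conj {z : ℂ} (h0 : 0 < z.re) (h1 : z.re < Real.pi) :
    ls ((starRingEnd ℂ) z) = (starRingEnd ℂ) (ls z) := by
  unfold ls
  rw [Complex.sin_conj, Complex.log_conj]
  intro h
  have h2 := sin_re_pos h0 h1
  rw [Complex.arg_eq_pi_iff] at h
  linarith [h.1]

/-- `Re cot` -/
lemma cot_re {z : ℂ} (h0 : 0 < z.re) (h1 : z.re < Real.pi) : (Complex.cos z / Complex.sin z).re =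
    Real.sin (2 * z.re) / (Real.cosh (2 * z.im) - Real.cos (2 * z.re)) := by
  have hs := Real.sin_pos_of_pos_of_lt_pi h0 h1
  have hn : Complex.normSq (Complex.sin z) = (Real.cosh (2 * z.im) - Real.cos (2 * z.re)) / 2 := by
    rw [Complex.normSq_apply, sin_re, sin_im, Real.cosh_two_mul, Real.cos_two_mul]
    have e1 := Real.cosh_sq z.im
    have e2 := Real.sin_sq_add_cos_sq z.re
    have e3 : Real.sin z.re ^ 2 = 1 - Real.cos z.re ^ 2 := by linarith
    have e4 : Real.cosh z.im ^ 2 = 1 + Real.sinh z.im ^ 2 := by linarith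
    calc Real.sin z.re * Real.cosh z.im * (Real.sin z.re * Real.cosh z.im) +
        Real.cos z.re * Real.sinh z.im * (Real.cos z.re * Real.sinh z.im) =
        Real.sin z.re ^ 2 * Real.cosh z.im ^ 2 + Real.cos z.re ^ 2 * Real.sinh z.im ^ 2 := by ring
      _ = _ := by
        rw [e3, e4]
        ring
  have hpos : 0 < Complex.normSq (Complex.sin z) := Complex.normSq_pos.2 (sin_ne h0 h1)
  have e1 := Real.cosh_sq z.im
  have num : (Complex.cos z).re * (Complex.sin z).re + (Complex.cos z).im * (Complex.sin z).im =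
      Real.sin z.re * Real.cos z.re := by
    rw [cos_re, cos_im, sin_re, sin_im]
    linear_combination (Real.sin z.re * Real.cos z.re) * e1
  rw [Complex.div_re, ← add_div, num, hn]
  rw [hn] at hpos
  have h5 : Real.cosh (2 * z.im) - Real.cos (2 * z.re) ≠ 0 := by linarith
  rw [Real.sin_two_mul]
  field_simp

/-! ### the asymptotics of `ls` -/

lemma one_sub_re {a x : ℝ} (h0 : 0 < a) (h1 : a < Real.pi) (hx : 0 ≤ x) :
    0 < (1 - Complex.exp ((-(2 * x) : ℝ) + (2 * a : ℝ) * I)).re := by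
  rw [Complex.sub_re, Complex.one_re, Complex.exp_re]
  have e1 : (((-(2 * x) : ℝ) : ℂ) + ((2 * a : ℝ) : ℂ) * I).re = -(2 * x) := by simp
  have e2 : (((-(2 * x) : ℝ) : ℂ) + ((2 * a : ℝ) : ℂ) * I).im = 2 * a := by simp
  rw [e1, e2]
  have h2 : Real.cos (2 * a) < 1 := by
    have h3 := Real.sin_pos_of_pos_of_lt_pi h0 h1
    rw [Real.cos_two_mul]
    have h4 := Real.sin_sq_add_cos_sq a
    nlinarith [sq_nonneg (Real.sin a)]
  have h3 : Real.exp (-(2 * x)) ≤ 1 := by
    rw [Real.exp_le_one_iff]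
    linarith
  have h4 := Real.exp_pos (-(2 * x))
  rcases le_or_gt (Real.cos (2 * a)) 0 with h | h
  · nlinarith
  · nlinarith

lemma ls_eq {a x : ℝ} (h0 : 0 < a) (h1 : a < Real.pi) (hx : 0 ≤ x) :
    ls (a + x * I) = ((x - Real.log 2 : ℝ) + (Real.pi / 2 - a : ℝ) * I) +
      Complex.log (1 - Complex.exp ((-(2 * x) : ℝ) + (2 * a : ℝ) * I)) := by
  have hre := one_sub_re h0 h1 hx
  set W := 1 - Complex.exp ((-(2 * x) : ℝ) + (2 * a : ℝ) * I) with hW
  have hW0 : W ≠ 0 := by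
    intro h
    rw [h] at hre
    simp at hre
  have harg : |Complex.arg W| < Real.pi / 2 := Complex.abs_arg_lt_pi_div_two_iff.2 (Or.inl hre)
  rw [abs_lt] at harg
  have key : Complex.exp (((x - Real.log 2 : ℝ) + (Real.pi / 2 - a : ℝ) * I) + Complex.log W) =
      Complex.sin (a + x * I) := by
    rw [Complex.exp_add, Complex.exp_log hW0, hW, mul_sub, mul_one, ← Complex.exp_add]
    have e1 : ((x - Real.log 2 : ℝ) : ℂ) + ((Real.pi / 2 - a : ℝ) : ℂ) * I =
        -(Real.log 2 : ℝ) + ((Real.pi / 2 : ℂ) * I + -((a + x * I) * I)) := by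
      push_cast
      linear_combination (x : ℂ) * Complex.I_sq
    have e2 : ((x - Real.log 2 : ℝ) : ℂ) + ((Real.pi / 2 - a : ℝ) : ℂ) * I +
        (((-(2 * x) : ℝ) : ℂ) + ((2 * a : ℝ) : ℂ) * I) =
        -(Real.log 2 : ℝ) + ((Real.pi / 2 : ℂ) * I + (a + x * I) * I) := by
      push_cast
      linear_combination -(x : ℂ) * Complex.I_sq
    have e3 : Complex.exp (-(Real.log 2 : ℝ)) = 1 / 2 := by
      rw [← Complex.ofReal_neg, ← Complex.ofReal_exp, Real.exp_neg, Real.exp_log two_pos]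
      norm_num
    have e4 : Complex.exp ((Real.pi / 2 : ℂ) * I) = I := by
      rw [show (Real.pi / 2 : ℂ) = ((Real.pi / 2 : ℝ) : ℂ) by push_cast; rfl, Complex.exp_mul_I,
        ← Complex.ofReal_cos, ← Complex.ofReal_sin, Real.cos_pi_div_two, Real.sin_pi_div_two]
      simp
    rw [e2, e1, Complex.exp_add, Complex.exp_add, e3, e4, Complex.exp_add, Complex.exp_add, e3, e4,
      Complex.sin]
    rw [show -((a : ℂ) + x * I) * I = -((a + x * I) * I) by ring]
    ring
  unfold ls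
  rw [← key, Complex.log_exp]
  · rw [Complex.add_im, Complex.log_im]
    have e : (((x - Real.log 2 : ℝ) : ℂ) + ((Real.pi / 2 - a : ℝ) : ℂ) * I).im = Real.pi / 2 - a := by
      rw [Complex.add_im, Complex.ofReal_im, Complex.im_ofReal_mul, Complex.I_im, mul_one, zero_add]
    rw [e]
    linarith [harg.1]
  · rw [Complex.add_im, Complex.log_im]
    have e : (((x - Real.log 2 : ℝ) : ℂ) + ((Real.pi / 2 - a : ℝ) : ℂ) * I).im = Real.pi / 2 - a := by
      rw [Complex.add_im, Complex.ofReal_im, Complex.im_ofReal_mul, Complex.I_im, mul_one, zero_add]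
    rw [e]
    linarith [harg.2]

/-- the main part of `ls` at `a + i x`, `s = +-1` the sign of `x` -/
def lm (a x s : ℝ) : ℂ := ((s * x - Real.log 2 : ℝ) : ℂ) + ((s * (Real.pi / 2 - a) : ℝ) : ℂ) * I

lemma ls_asym {a : ℝ} (h0 : 0 < a) (h1 : a < Real.pi) : ∃ C : ℝ, 0 < C ∧ (∀ x : ℝ, 0 ≤ x →
    ‖ls (a + x * I) - lm a x 1‖ ≤ C * Real.exp (-2 * x)) ∧ ∀ x : ℝ, x ≤ 0 →
    ‖ls (a + x * I) - lm a x (-1)‖ ≤ C * Real.exp (2 * x) := by
  have hcont : ContinuousOn (fun x : ℝ => Complex.log (1 - Complex.exp ((-(2 * x) : ℝ) + (2 * a : ℝ) * I)))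
      (Icc 0 1) := by
    refine ContinuousOn.clog (Continuous.continuousOn (by fun_prop)) fun x hx => ?_
    exact Or.inl (one_sub_re h0 h1 hx.1)
  obtain ⟨M, hM⟩ := isCompact_Icc.exists_bound_of_continuousOn hcont
  have hM0 : 0 ≤ M := (norm_nonneg _).trans (hM 0 ⟨le_rfl, zero_le_one⟩)
  have hpos : ∀ x : ℝ, 0 ≤ x → ‖ls (a + x * I) - lm a x 1‖ ≤ (M * Real.exp 2 + 3 / 2) * Real.exp (-2 * x) := by
    intro x hx
    have e : ls (a + x * I) - lm a x 1 = Complex.log (1 - Complex.exp ((-(2 * x) : ℝ) + (2 * a : ℝ) * I)) := by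
      rw [ls_eq h0 h1 hx]
      unfold lm
      rw [one_mul, one_mul]
      ring
    rw [e]
    rcases le_or_gt x 1 with hx1 | hx1
    · refine (hM x ⟨hx, hx1⟩).trans ?_
      have h2 : 1 ≤ Real.exp 2 * Real.exp (-2 * x) := by
        rw [← Real.exp_add]
        exact Real.one_le_exp (by linarith)
      have h3 := Real.exp_pos (-2 * x)
      nlinarith
    · have hn : ‖-Complex.exp ((-(2 * x) : ℝ) + (2 * a : ℝ) * I)‖ = Real.exp (-2 * x) := by
        rw [norm_neg, Complex.norm_exp]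
        congr 1
        simp
      have h2 : Real.exp (-2 * x) ≤ 1 / 2 := by
        have h3 : Real.exp (-2 * x) ≤ Real.exp (-1) := Real.exp_le_exp.2 (by linarith)
        have h4 : Real.exp (-1) ≤ 1 / 2 := by
          rw [Real.exp_neg]
          have := Real.add_one_le_exp 1
          rw [inv_le_comm₀ (Real.exp_pos _) (by norm_num)]
          linarith
        exact h3.trans h4
      have h5 := Complex.norm_log_one_add_half_le_self (z := -Complex.exp ((-(2 * x) : ℝ) + (2 * a : ℝ) * I))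
        (by rw [hn]; exact h2)
      rw [← sub_eq_add_neg] at h5
      rw [hn] at h5
      refine h5.trans ?_
      have h3 := Real.exp_pos (-2 * x)
      have h4 := Real.exp_pos 2
      have h6 : 0 ≤ M * Real.exp 2 * Real.exp (-2 * x) := by positivity
      linarith
  refine ⟨M * Real.exp 2 + 3 / 2, by positivity, hpos, ?_⟩
  intro x hx
  have h2 := hpos (-x) (by linarith)
  have e1 : (a : ℂ) + ((-x : ℝ) : ℂ) * I = (starRingEnd ℂ) (a + x * I) := by
    simp
  have e2 : lm a (-x) 1 = (starRingEnd ℂ) (lm a x (-1)) := by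
    unfold lm
    rw [map_add, map_mul, Complex.conj_ofReal, Complex.conj_ofReal, Complex.conj_I]
    push_cast
    ring
  have hz0 : 0 < ((a : ℂ) + x * I).re := by simpa using h0
  have hz1 : ((a : ℂ) + x * I).re < Real.pi := by simpa using h1
  rw [e1, ls_conj hz0 hz1, e2, ← map_sub, Complex.norm_conj] at h2
  refine h2.trans (le_of_eq ?_)
  congr 2
  ring

/-! ### the branches -/

/-- the row pair factor -/
def Fr (u : ℂ) : ℂ := -(Complex.sin (u + 3 * l) ^ 2) / (Complex.sin u * Complex.sin (u - 2 * l))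

/-- the logarithm for `0 < Re u < 2 l` -/
def lgA (u : ℂ) : ℂ := 2 * ls (u + 3 * l) - ls u - ls (2 * l - u)

/-- the logarithm for `-3 l < Re u < 0` that vanishes at `- i oo` -/
def lgL (u : ℂ) : ℂ := 2 * ls (u + 3 * l) - ls (-u) - ls (2 * l - u) + Real.pi * I

/-- the logarithm for `-3 l < Re u < 0` that vanishes at `+ i oo` -/
def lgR (u : ℂ) : ℂ := lgL u - 2 * Real.pi * I

lemma eight_l : 8 * l = Real.pi := by
  unfold l
  ring

lemma re_add3 (u : ℂ) : (u + 3 * (l : ℂ)).re = u.re + 3 * l := by simp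

lemma re_neg' (u : ℂ) : (-u).re = -u.re := by simp

lemma re_sub2 (u : ℂ) : (2 * (l : ℂ) - u).re = 2 * l - u.re := by simp

lemma exp_lgA {u : ℂ} (h0 : 0 < u.re) (h1 : u.re < 2 * l) : Complex.exp (lgA u) = Fr u := by
  have hl := l_pos
  have e8 := eight_l
  have a1 : 0 < (u + 3 * (l : ℂ)).re ∧ (u + 3 * (l : ℂ)).re < Real.pi := by rw [re_add3]; constructor <;> linarith
  have a2 : 0 < u.re ∧ u.re < Real.pi := ⟨h0, by linarith⟩
  have a3 : 0 < (2 * (l : ℂ) - u).re ∧ (2 * (l : ℂ) - u).re < Real.pi := by rw [re_sub2]; constructor <;> linarith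
  unfold lgA Fr
  rw [Complex.exp_sub, Complex.exp_sub, two_mul, Complex.exp_add, exp_ls a1.1 a1.2, exp_ls a2.1 a2.2, exp_ls a3.1 a3.2]
  have e : Complex.sin (u - 2 * l) = -Complex.sin (2 * l - u) := by
    rw [← Complex.sin_neg]
    congr 1
    ring
  rw [e]
  have n2 := sin_ne a2.1 a2.2
  have n3 := sin_ne a3.1 a3.2
  field_simp

lemma exp_lgL {u : ℂ} (h0 : -3 * l < u.re) (h1 : u.re < 0) : Complex.exp (lgL u) = Fr u := by
  have hl := l_pos
  have e8 := eight_l
  have a1 : 0 < (u + 3 * (l : ℂ)).re ∧ (u + 3 * (l : ℂ)).re < Real.pi := by rw [re_add3]; constructor <;> linarith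
  have a2 : 0 < (-u).re ∧ (-u).re < Real.pi := by rw [re_neg']; constructor <;> linarith
  have a3 : 0 < (2 * (l : ℂ) - u).re ∧ (2 * (l : ℂ) - u).re < Real.pi := by rw [re_sub2]; constructor <;> linarith
  unfold lgL Fr
  rw [Complex.exp_add, Complex.exp_sub, Complex.exp_sub, two_mul, Complex.exp_add, exp_ls a1.1 a1.2, exp_ls a2.1 a2.2,
    exp_ls a3.1 a3.2, Complex.exp_pi_mul_I]
  have e : Complex.sin (u - 2 * l) = -Complex.sin (2 * l - u) := by
    rw [← Complex.sin_neg]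
    congr 1
    ring
  have e2 : Complex.sin u = -Complex.sin (-u) := by
    rw [Complex.sin_neg, neg_neg]
  have n2 := sin_ne a2.1 a2.2
  have n3 := sin_ne a3.1 a3.2
  rw [e, e2]
  field_simp

lemma exp_lgR {u : ℂ} (h0 : -3 * l < u.re) (h1 : u.re < 0) : Complex.exp (lgR u) = Fr u := by
  unfold lgR
  rw [Complex.exp_sub, exp_lgL h0 h1, Complex.exp_two_pi_mul_I, div_one]

/-- powers -/
lemma pow_lg {f : ℂ} {u : ℂ} (h : Complex.exp f = Fr u) (J : ℕ) : Complex.exp (J * f) = Fr u ^ J := by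
  rw [Complex.exp_nat_mul, h]

/-- the row factor of `m` rows of each species (at `0`) -/
lemma row_pow (u : ℂ) (m : ℕ) : (1 / Complex.sin u) ^ m * (1 / Complex.sin (u - 2 * l)) ^ m *
    (Complex.sin (u + 3 * l) ^ 2) ^ m = (-1) ^ m * Fr u ^ m := by
  rw [← mul_pow, ← mul_pow, ← mul_pow]
  congr 1
  unfold Fr
  rw [one_div, one_div, ← mul_inv, div_eq_mul_inv]
  ring

/-! ### on the lines -/

/-- the point at offset `j` and height `t` -/
def pt (j t : ℝ) : ℂ := (((1 - j) * l : ℝ) : ℂ) + t * I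

lemma pt_re (j t : ℝ) : (pt j t).re = (1 - j) * l := by simp [pt]

lemma pt3 (j t : ℝ) : pt j t + 3 * (l : ℂ) = (((4 - j) * l : ℝ) : ℂ) + (t : ℂ) * I := by
  unfold pt
  push_cast
  ring

lemma ptn (j t : ℝ) : -pt j t = (((j - 1) * l : ℝ) : ℂ) + ((-t : ℝ) : ℂ) * I := by
  unfold pt
  push_cast
  ring

lemma pt2 (j t : ℝ) : 2 * (l : ℂ) - pt j t = (((j + 1) * l : ℝ) : ℂ) + ((-t : ℝ) : ℂ) * I := by
  unfold pt
  push_cast
  ring

lemma l_mem {a : ℝ} (h0 : 0 < a) (h8 : a < 8) : 0 < a * l ∧ a * l < Real.pi := by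
  have hl := l_pos
  have e8 := eight_l
  constructor
  · positivity
  · nlinarith

/-- **the left branch vanishes at `- i oo`** -/
theorem lgL_bound {j : ℝ} (h1 : 1 < j) (h4 : j < 4) : ∃ C : ℝ, 0 < C ∧ (∀ t : ℝ, t ≤ 0 →
    ‖lgL (pt j t)‖ ≤ C * Real.exp (-2 * |t|)) ∧ ∀ t : ℝ, 0 ≤ t → ‖lgR (pt j t)‖ ≤ C * Real.exp (-2 * |t|) := by
  obtain ⟨a0, a1⟩ := l_mem (a := 4 - j) (by linarith) (by linarith)
  obtain ⟨b0, b1⟩ := l_mem (a := j - 1) (by linarith) (by linarith)
  obtain ⟨c0, c1⟩ := l_mem (a := j + 1) (by linarith) (by linarith)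
  obtain ⟨C1, hC1, p1, n1⟩ := ls_asym a0 a1
  obtain ⟨C2, hC2, p2, n2⟩ := ls_asym b0 b1
  obtain ⟨C3, hC3, p3, n3⟩ := ls_asym c0 c1
  have e8 := eight_l
  have e8c : 8 * (l : ℂ) = Real.pi := by
    rw [← e8]
    push_cast
    ring
  refine ⟨2 * C1 + C2 + C3, by positivity, ?_, ?_⟩
  · intro t ht
    have q1 := n1 t ht
    have q2 := p2 (-t) (by linarith)
    have q3 := p3 (-t) (by linarith)
    rw [abs_of_nonpos ht]
    have e : lgL (pt j t) = 2 * (ls ((((4 - j) * l : ℝ) : ℂ) + (t : ℂ) * I) - lm ((4 - j) * l) t (-1)) -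
        (ls ((((j - 1) * l : ℝ) : ℂ) + ((-t : ℝ) : ℂ) * I) - lm ((j - 1) * l) (-t) 1) -
        (ls ((((j + 1) * l : ℝ) : ℂ) + ((-t : ℝ) : ℂ) * I) - lm ((j + 1) * l) (-t) 1) := by
      unfold lgL
      rw [pt3, ptn, pt2]
      unfold lm
      push_cast
      linear_combination I * e8c
    rw [e]
    have x1 : Real.exp (2 * t) = Real.exp (-2 * -t) := by
      congr 1
      ring
    rw [x1] at q1
    refine (norm_sub_le _ _).trans ?_
    refine (add_le_add (norm_sub_le _ _) le_rfl).trans ?_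
    rw [norm_mul, Complex.norm_ofNat]
    nlinarith
  · intro t ht
    have q1 := p1 t ht
    have q2 := n2 (-t) (by linarith)
    have q3 := n3 (-t) (by linarith)
    rw [abs_of_nonneg ht]
    have e : lgR (pt j t) = 2 * (ls ((((4 - j) * l : ℝ) : ℂ) + (t : ℂ) * I) - lm ((4 - j) * l) t 1) -
        (ls ((((j - 1) * l : ℝ) : ℂ) + ((-t : ℝ) : ℂ) * I) - lm ((j - 1) * l) (-t) (-1)) -
        (ls ((((j + 1) * l : ℝ) : ℂ) + ((-t : ℝ) : ℂ) * I) - lm ((j + 1) * l) (-t) (-1)) := by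
      unfold lgR lgL
      rw [pt3, ptn, pt2]
      unfold lm
      push_cast
      linear_combination (-I) * e8c
    rw [e]
    have x1 : Real.exp (2 * -t) = Real.exp (-2 * t) := by
      congr 1
      ring
    rw [x1] at q2 q3
    refine (norm_sub_le _ _).trans ?_
    refine (add_le_add (norm_sub_le _ _) le_rfl).trans ?_
    rw [norm_mul, Complex.norm_ofNat]
    nlinarith

/-- **the logarithm on the lines without winding** -/
theorem lgA_bound {j : ℝ} (h1 : -1 < j) (h4 : j < 1) : ∃ C : ℝ, 0 < C ∧ ∀ t : ℝ,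
    ‖lgA (pt j t)‖ ≤ C * Real.exp (-2 * |t|) := by
  obtain ⟨a0, a1⟩ := l_mem (a := 4 - j) (by linarith) (by linarith)
  obtain ⟨b0, b1⟩ := l_mem (a := 1 - j) (by linarith) (by linarith)
  obtain ⟨c0, c1⟩ := l_mem (a := j + 1) (by linarith) (by linarith)
  obtain ⟨C1, hC1, p1, n1⟩ := ls_asym a0 a1
  obtain ⟨C2, hC2, p2, n2⟩ := ls_asym b0 b1
  obtain ⟨C3, hC3, p3, n3⟩ := ls_asym c0 c1
  have e8 := eight_l
  have e8c : 8 * (l : ℂ) = Real.pi := by
    rw [← e8]
    push_cast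
    ring
  refine ⟨2 * C1 + C2 + C3, by positivity, ?_⟩
  intro t
  rcases le_total t 0 with ht | ht
  · have q1 := n1 t ht
    have q2 := n2 t ht
    have q3 := p3 (-t) (by linarith)
    rw [abs_of_nonpos ht]
    have e : lgA (pt j t) = 2 * (ls ((((4 - j) * l : ℝ) : ℂ) + (t : ℂ) * I) - lm ((4 - j) * l) t (-1)) -
        (ls ((((1 - j) * l : ℝ) : ℂ) + (t : ℂ) * I) - lm ((1 - j) * l) t (-1)) -
        (ls ((((j + 1) * l : ℝ) : ℂ) + ((-t : ℝ) : ℂ) * I) - lm ((j + 1) * l) (-t) 1) := by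
      unfold lgA
      rw [pt3, pt2]
      unfold lm pt
      push_cast
      linear_combination I * e8c
    rw [e]
    have x1 : Real.exp (2 * t) = Real.exp (-2 * -t) := by
      congr 1
      ring
    rw [x1] at q1 q2
    refine (norm_sub_le _ _).trans ?_
    refine (add_le_add (norm_sub_le _ _) le_rfl).trans ?_
    rw [norm_mul, Complex.norm_ofNat]
    nlinarith
  · have q1 := p1 t ht
    have q2 := p2 t ht
    have q3 := n3 (-t) (by linarith)
    rw [abs_of_nonneg ht]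
    have e : lgA (pt j t) = 2 * (ls ((((4 - j) * l : ℝ) : ℂ) + (t : ℂ) * I) - lm ((4 - j) * l) t 1) -
        (ls ((((1 - j) * l : ℝ) : ℂ) + (t : ℂ) * I) - lm ((1 - j) * l) t 1) -
        (ls ((((j + 1) * l : ℝ) : ℂ) + ((-t : ℝ) : ℂ) * I) - lm ((j + 1) * l) (-t) (-1)) := by
      unfold lgA
      rw [pt3, pt2]
      unfold lm pt
      push_cast
      linear_combination (-I) * e8c
    rw [e]
    have x1 : Real.exp (2 * -t) = Real.exp (-2 * t) := by
      congr 1
      ring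
    rw [x1] at q3
    refine (norm_sub_le _ _).trans ?_
    refine (add_le_add (norm_sub_le _ _) le_rfl).trans ?_
    rw [norm_mul, Complex.norm_ofNat]
    nlinarith

/-! ### derivatives of the arguments -/

lemma hasDerivAt_line {a t : ℝ} (h0 : 0 < a) (h1 : a < Real.pi) :
    HasDerivAt (fun t : ℝ => (ls ((a : ℂ) + (t : ℂ) * I)).im) (Real.sin (2 * a) / (Real.cosh (2 * t) - Real.cos (2 * a))) t := by
  have hz0 : 0 < ((a : ℂ) + (t : ℂ) * I).re := by simpa using h0
  have hz1 : ((a : ℂ) + (t : ℂ) * I).re < Real.pi := by simpa using h1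
  have d0 : HasDerivAt (fun t : ℝ => (a : ℂ) + (t : ℂ) * I) I t := by
    have h2 : HasDerivAt (fun t : ℝ => (t : ℂ)) 1 t := Complex.ofRealCLM.hasDerivAt
    have h3 := (h2.mul_const I).const_add (a : ℂ)
    rwa [one_mul] at h3
  have d1 := (hasDerivAt_ls hz0 hz1).comp t d0
  have d2 : HasDerivAt (fun t : ℝ => (ls ((a : ℂ) + (t : ℂ) * I)).im)
      (Complex.imCLM (Complex.cos ((a : ℂ) + (t : ℂ) * I) / Complex.sin ((a : ℂ) + (t : ℂ) * I) * I)) t :=
    Complex.imCLM.hasFDerivAt.comp_hasDerivAt t d1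
  have e : Complex.imCLM (Complex.cos ((a : ℂ) + (t : ℂ) * I) / Complex.sin ((a : ℂ) + (t : ℂ) * I) * I) =
      Real.sin (2 * a) / (Real.cosh (2 * t) - Real.cos (2 * a)) := by
    rw [Complex.imCLM_apply, Complex.mul_I_im, cot_re hz0 hz1]
    have e1 : ((a : ℂ) + (t : ℂ) * I).re = a := by simp
    have e2 : ((a : ℂ) + (t : ℂ) * I).im = t := by simp
    rw [e1, e2]
  rw [e] at d2
  exact d2

lemma hasDerivAt_line' {a t : ℝ} (h0 : 0 < a) (h1 : a < Real.pi) :
    HasDerivAt (fun t : ℝ => (ls ((a : ℂ) + ((-t : ℝ) : ℂ) * I)).im)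
      (-(Real.sin (2 * a) / (Real.cosh (2 * t) - Real.cos (2 * a)))) t := by
  have h2 := (hasDerivAt_line (t := -t) h0 h1).comp t (hasDerivAt_neg t)
  have e : Real.sin (2 * a) / (Real.cosh (2 * -t) - Real.cos (2 * a)) * -1 =
      -(Real.sin (2 * a) / (Real.cosh (2 * t) - Real.cos (2 * a))) := by
    rw [show 2 * -t = -(2 * t) by ring, Real.cosh_neg]
    ring
  rw [e] at h2
  exact h2

lemma kd_four (a t : ℝ) : kd t ((4 - a) * l) = -2 * (Real.sin (2 * (a * l)) / (Real.cosh (2 * t) - Real.cos (2 * (a * l)))) := by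
  unfold kd
  have e : 2 * ((4 - a) * l) = Real.pi - 2 * (a * l) := by
    rw [← eight_l]
    ring
  rw [e, Real.sin_pi_sub, Real.cos_pi_sub, ← sub_eq_add_neg, mul_div_assoc]

lemma kd_neg (t y : ℝ) : kd t (-y) = -kd t y := by
  unfold kd
  rw [mul_neg, Real.sin_neg, Real.cos_neg]
  ring

/-- the argument of the left branch -/
def aL (j t : ℝ) : ℝ := (lgL (pt j t)).im

/-- the argument on a line without winding -/
def aA (j t : ℝ) : ℝ := (lgA (pt j t)).im

lemma lgR_im (j t : ℝ) : (lgR (pt j t)).im = aL j t - 2 * Real.pi := by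
  unfold lgR aL
  simp

theorem hasDerivAt_aL {j : ℝ} (h1 : 1 < j) (h4 : j < 4) (t : ℝ) : HasDerivAt (aL j) (-rowd j t) t := by
  obtain ⟨a0, a1⟩ := l_mem (a := 4 - j) (by linarith) (by linarith)
  obtain ⟨b0, b1⟩ := l_mem (a := j - 1) (by linarith) (by linarith)
  obtain ⟨c0, c1⟩ := l_mem (a := j + 1) (by linarith) (by linarith)
  have d1 := hasDerivAt_line (t := t) a0 a1
  have d2 := hasDerivAt_line' (t := t) b0 b1
  have d3 := hasDerivAt_line' (t := t) c0 c1
  have key := (((d1.const_mul 2).sub d2).sub d3).add_const Real.pi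
  have e : aL j = fun t : ℝ => 2 * (ls ((((4 - j) * l : ℝ) : ℂ) + (t : ℂ) * I)).im -
      (ls ((((j - 1) * l : ℝ) : ℂ) + ((-t : ℝ) : ℂ) * I)).im -
      (ls ((((j + 1) * l : ℝ) : ℂ) + ((-t : ℝ) : ℂ) * I)).im + Real.pi := by
    funext t
    unfold aL lgL
    rw [pt3, ptn, pt2]
    simp
  rw [e]
  refine key.congr_deriv ?_
  have k1 := kd_four (4 - j) t
  have k2 := kd_four (j - 1) t
  have k3 := kd_four (j + 1) t
  rw [show 4 - (4 - j) = j by ring] at k1
  rw [show 4 - (j - 1) = 5 - j by ring] at k2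
  rw [show 4 - (j + 1) = 3 - j by ring] at k3
  unfold rowd
  rw [k1, k2, k3]
  ring

theorem hasDerivAt_aA {j : ℝ} (h1 : -1 < j) (h4 : j < 1) (t : ℝ) : HasDerivAt (aA j) (-rowd j t) t := by
  obtain ⟨a0, a1⟩ := l_mem (a := 4 - j) (by linarith) (by linarith)
  obtain ⟨b0, b1⟩ := l_mem (a := 1 - j) (by linarith) (by linarith)
  obtain ⟨c0, c1⟩ := l_mem (a := j + 1) (by linarith) (by linarith)
  have d1 := hasDerivAt_line (t := t) a0 a1
  have d2 := hasDerivAt_line (t := t) b0 b1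
  have d3 := hasDerivAt_line' (t := t) c0 c1
  have key := ((d1.const_mul 2).sub d2).sub d3
  have e : aA j = fun t : ℝ => 2 * (ls ((((4 - j) * l : ℝ) : ℂ) + (t : ℂ) * I)).im -
      (ls ((((1 - j) * l : ℝ) : ℂ) + (t : ℂ) * I)).im -
      (ls ((((j + 1) * l : ℝ) : ℂ) + ((-t : ℝ) : ℂ) * I)).im := by
    funext t
    unfold aA lgA
    rw [pt3, pt2]
    unfold pt
    simp
  rw [e]
  refine key.congr_deriv ?_
  have k1 := kd_four (4 - j) t
  have k2 := kd_four (1 - j) t
  have k3 := kd_four (j + 1) t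
  have k4 : kd t ((5 - j) * l) = -kd t ((3 + j) * l) := by
    have h5 : kd t ((5 - j) * l) = kd t (-((3 + j) * l)) := by
      unfold kd
      have e1 : 2 * ((5 - j) * l) = 2 * (-((3 + j) * l)) + 2 * Real.pi := by
        rw [← eight_l]
        ring
      rw [e1, Real.sin_add_two_pi, Real.cos_add_two_pi]
    rw [h5, kd_neg]
  rw [show 4 - (4 - j) = j by ring] at k1
  rw [show 4 - (1 - j) = 3 + j by ring] at k2
  rw [show 4 - (j + 1) = 3 - j by ring] at k3
  unfold rowd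
  rw [k4, k1, k2, k3]
  ring

end

end NUCR
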