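import Pool.Agent.NUC43.CfgS
import Pool.Agent.NUO.DispV

/-!
# Decay of the neutral potentials

`|Re (fq j + fg j) z| ≤ K exp (-2 |Re z|)`; the sum of the potentials of an object on the two species
decays like `exp (-2 |Re z - ht|)`, on the path and at the base positions.
-/

set_option autoImplicit false

open MeasureTheory Set Filter Topology

namespace NUCR

open NUMF NUO NUDispP NUDispV

noncomputable section

/-- asymptotic form of `h` -/
lemma h_asym {c t y : ℝ} (hc : 0 < c) (hc1 : 2 * c < Real.pi) (hy : |y| ≤ Real.pi / 2 - c) :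
    |NUMF.h t y - (2 * |t| - Real.log 2)| ≤ (3 + 2 / (1 - Real.cos (2 * c))) * Real.exp (-2 * |t|) := by
  have hpi := Real.pi_pos
  obtain ⟨x, hx⟩ : ∃ x : ℝ, x = Real.exp (-2 * |t|) := ⟨_, rfl⟩
  have hx0 : 0 < x := by rw [hx]; exact Real.exp_pos _
  have hx1 : x ≤ 1 := by
    rw [hx, Real.exp_le_one_iff]
    have := abs_nonneg t
    linarith
  obtain ⟨C0, hC0⟩ : ∃ C0 : ℝ, C0 = Real.cos (2 * y) := ⟨_, rfl⟩
  have h1 : -Real.cos (2 * c) ≤ C0 := by
    rw [hC0, ← Real.cos_pi_sub, ← Real.cos_abs (2 * y)]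
    refine Real.cos_le_cos_of_nonneg_of_le_pi (abs_nonneg _) (by linarith) ?_
    rw [abs_mul, abs_two]
    linarith
  have h2 : C0 ≤ 1 := by rw [hC0]; exact Real.cos_le_one _
  obtain ⟨κ, hκ⟩ : ∃ κ : ℝ, κ = 1 - Real.cos (2 * c) := ⟨_, rfl⟩
  have hκ0 : 0 < κ := by
    rw [hκ, sub_pos, ← Real.cos_zero]
    exact Real.cos_lt_cos_of_nonneg_of_le_pi le_rfl hc1.le (by linarith)
  have hκC : κ ≤ 1 + C0 := by rw [hκ]; linarith
  obtain ⟨W, hW⟩ : ∃ W : ℝ, W = 1 + 2 * C0 * x + x ^ 2 := ⟨_, rfl⟩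
  have hW1 : κ ≤ 1 → κ ≤ W := by
    intro hk
    have e1 : (1 - x) ^ 2 + 2 * x * κ ≤ W := by
      rw [hW]
      nlinarith [mul_le_mul_of_nonneg_left hκC hx0.le]
    rcases le_total (1 : ℝ) (2 * x) with h | h
    · nlinarith [sq_nonneg (1 - x)]
    · nlinarith [sq_nonneg x]
  have hWpos : 0 < W := by
    rcases le_total κ 1 with h | h
    · linarith [hW1 h]
    · have : 0 ≤ C0 := by linarith
      rw [hW]
      positivity
  have hch : Real.cosh (2 * t) = (x⁻¹ + x) / 2 := by
    rw [← Real.cosh_abs, Real.cosh_eq, abs_mul, abs_two, hx]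
    rw [show -2 * |t| = -(2 * |t|) by ring, Real.exp_neg, inv_inv]
  have e2 : NUMF.h t y = Real.log W - Real.log 2 + 2 * |t| := by
    unfold NUMF.h
    rw [hch, ← hC0]
    have e3 : (x⁻¹ + x) / 2 + C0 = W / (2 * x) := by
      rw [hW]
      field_simp
      ring
    rw [e3, Real.log_div hWpos.ne' (by positivity), Real.log_mul (by norm_num) hx0.ne', hx,
      Real.log_exp]
    ring
  rw [e2, show Real.log W - Real.log 2 + 2 * |t| - (2 * |t| - Real.log 2) = Real.log W by ring,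
    ← hκ, ← hx]
  have hK : 0 < 2 / κ := by positivity
  rw [abs_le]
  constructor
  · rcases le_total 1 W with h | h
    · have := Real.log_nonneg h
      have : 0 ≤ (3 + 2 / κ) * x := by positivity
      linarith
    · have hk1 : κ ≤ 1 := by
        by_contra hcon
        have hh : 0 < C0 := by linarith
        have : 0 < 2 * C0 * x := by positivity
        nlinarith
      have hWk := hW1 hk1
      have h3 : Real.log W⁻¹ ≤ W⁻¹ - 1 := Real.log_le_sub_one_of_pos (by positivity)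
      rw [Real.log_inv] at h3
      have h4 : W⁻¹ - 1 = (1 - W) / W := by field_simp
      have h5 : (1 - W) / W ≤ 2 * x / κ := by
        refine div_le_div₀ (by positivity) ?_ hκ0 hWk
        rw [hW]
        have : -1 ≤ C0 := by rw [hC0]; exact Real.neg_one_le_cos _
        nlinarith
      have h6 : 2 * x / κ = 2 / κ * x := by ring
      rw [h4] at h3
      nlinarith
  · have h3 : Real.log W ≤ W - 1 := Real.log_le_sub_one_of_pos hWpos
    have h4 : W - 1 ≤ 3 * x := by
      rw [hW]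
      nlinarith
    have : 0 ≤ 2 / κ * x := by positivity
    nlinarith

/-- constant of the neutral potentials -/
def Kn2 (c : ℝ) : ℝ := 6 * (3 + 2 / (1 - Real.cos (2 * c)))

lemma Kn2_nonneg {c : ℝ} : 0 ≤ Kn2 c := by
  have : 0 ≤ 1 - Real.cos (2 * c) := by linarith [Real.cos_le_one (2 * c)]
  unfold Kn2
  positivity

/-- **decay of the neutral potential** -/
theorem fsum_re {δ j b : ℝ} (h : Off δ j) (hδ1 : δ ≤ 1) (hb : b < δ * NUMF.l) {z : ℂ} (hz : |z.im| ≤ b) :
    |(fq j z + fg j z).re| ≤ Kn2 (δ * NUMF.l - b) * Real.exp (-2 * |z.re|) := by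
  have hl := NUMF.l_pos
  have hc : 0 < δ * NUMF.l - b := by linarith
  have hb0 : 0 ≤ b := (abs_nonneg _).trans hz
  have hc1 : 2 * (δ * NUMF.l - b) < Real.pi := by
    have : 8 * NUMF.l = Real.pi := by unfold NUMF.l; ring
    nlinarith
  have hz' : |z.im| < δ * NUMF.l := lt_of_le_of_lt hz hb
  have e1 : (fq j z + fg j z).re = ∑ i, ct i * NUMF.h z.re (z.im + yv j i) := by
    have e2 : fq j z + fg j z = ∑ i, (ct i : ℂ) * NUMF.F (z + yv j i * Complex.I) := by
      unfold fq fg ct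
      push_cast
      simp_rw [add_mul]
      rw [Finset.sum_add_distrib]
      ring
    rw [e2, Complex.re_sum]
    refine Finset.sum_congr rfl fun i _ => ?_
    rw [Complex.re_ofReal_mul, F_re (im_lt h hz' i), im_shift, re_shift]
  have e3 : (fq j z + fg j z).re =
      ∑ i, ct i * (NUMF.h z.re (z.im + yv j i) - (2 * |z.re| - Real.log 2)) := by
    have e4 : ∑ i, ct i * (NUMF.h z.re (z.im + yv j i) - (2 * |z.re| - Real.log 2)) =
        (∑ i, ct i * NUMF.h z.re (z.im + yv j i)) - (∑ i, ct i) * (2 * |z.re| - Real.log 2) := by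
      rw [Finset.sum_mul, ← Finset.sum_sub_distrib]
      exact Finset.sum_congr rfl fun i _ => by ring
    rw [e4, ← e1, sum_ct]
    ring
  have hy : ∀ i, |z.im + yv j i| ≤ Real.pi / 2 - (δ * NUMF.l - b) := by
    intro i
    have h1 := yv_le h i
    have h2 := abs_add_le z.im (yv j i)
    linarith
  rw [e3]
  refine (Finset.abs_sum_le_sum_abs _ _).trans ?_
  have h4 : ∀ i ∈ Finset.univ, |ct i * (NUMF.h z.re (z.im + yv j i) - (2 * |z.re| - Real.log 2))| ≤
      |ct i| * ((3 + 2 / (1 - Real.cos (2 * (δ * NUMF.l - b)))) * Real.exp (-2 * |z.re|)) := by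
    intro i _
    rw [abs_mul]
    exact mul_le_mul_of_nonneg_left (h_asym hc hc1 (hy i)) (abs_nonneg _)
  refine (Finset.sum_le_sum h4).trans (le_of_eq ?_)
  rw [← Finset.sum_mul, sum_abs_ct]
  unfold Kn2
  ring

/-- real points -/
lemma lsum_le {δ j : ℝ} (h : Off δ j) (hδ : 0 < δ) (hδ1 : δ ≤ 1) (t : ℝ) :
    |lq j t + lqg j t| ≤ Kn2 (δ * NUMF.l) * Real.exp (-2 * |t|) := by
  have hl := NUMF.l_pos
  have h0 : |((t : ℝ) : ℂ).im| ≤ 0 := by simp
  have h1 := fsum_re h hδ1 (b := 0) (by positivity) h0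
  rw [f_re h (lt_of_le_of_lt h0 (by positivity)), Complex.ofReal_re, Complex.ofReal_im, zero_div,
    sub_zero, sub_zero] at h1
  exact h1

/-- sum over a list -/
lemma abs_list_sum {α : Type*} (L : List α) (g : α → ℝ) {A : ℝ} (h : ∀ p ∈ L, |g p| ≤ A) :
    |(L.map g).sum| ≤ L.length * A := by
  induction L with
  | nil => simp
  | cons a L ih =>
    rw [List.map_cons, List.sum_cons, List.length_cons]
    push_cast
    have h1 := h a List.mem_cons_self
    have h2 := ih fun p hp => h p (List.mem_cons_of_mem _ hp)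
    have h3 := abs_add_le (g a) (L.map g).sum
    linarith

lemma len_offO {δ : ℝ} {Q : Par} (h : PG δ Q) {r : ℕ} (O : Fin r → Xo) (i : Fin r) :
    ((offO Q O i).length : ℝ) ≤ 8 := by
  refine le_trans ?_ (NUC43.wnu_sum h O i).2
  have : ∀ L : List (ℝ × ℝ), (L.length : ℝ) ≤ (L.map fun p => 1 + |wnu p.1|).sum := by
    intro L
    induction L with
    | nil => simp
    | cons a L ih =>
      rw [List.map_cons, List.sum_cons, List.length_cons]
      push_cast
      have := abs_nonneg (wnu a.1)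
      linarith
  exact this _

lemma exp_shift2 {x y : ℝ} (h : |x - y| ≤ 1) (t : ℝ) :
    Real.exp (-2 * |t - x|) ≤ Real.exp 2 * Real.exp (-2 * |t - y|) := by
  rw [← Real.exp_add, Real.exp_le_exp]
  have h1 : |t - y| ≤ |t - x| + |x - y| := abs_sub_le _ _ _
  linarith

/-- **the sum of the potentials of an object, on the path** -/
theorem fO_sum_re {δ b : ℝ} {Q : Par} (h : PG δ Q) (hb : b < δ * NUMF.l) {r : ℕ}
    (O : Fin r → Xo) (i : Fin r) {z : ℂ} (hz : |z.im| ≤ b) :
    |(fO Q O i true z + fO Q O i false z).re| ≤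
      8 * Kn2 (δ * NUMF.l - b) * Real.exp 2 * Real.exp (-2 * |z.re - ht (O i)|) := by
  have hδ1 : δ ≤ 1 := by linarith [h.δ4, h.δ0]
  rw [fO_sum]
  have e1 : (((offO Q O i).map fun p => fq p.1 (z - p.2) + fg p.1 (z - p.2)).sum).re =
      ((offO Q O i).map fun p => (fq p.1 (z - p.2) + fg p.1 (z - p.2)).re).sum := by
    induction (offO Q O i) with
    | nil => simp
    | cons a L ih => rw [List.map_cons, List.sum_cons, List.map_cons, List.sum_cons, Complex.add_re, ih]
  rw [e1]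
  have hK : 0 ≤ Kn2 (δ * NUMF.l - b) := Kn2_nonneg
  have h1 := abs_list_sum (offO Q O i) (fun p => (fq p.1 (z - p.2) + fg p.1 (z - p.2)).re)
    (A := Kn2 (δ * NUMF.l - b) * (Real.exp 2 * Real.exp (-2 * |z.re - ht (O i)|))) fun p hp => by
      obtain ⟨o1, o2⟩ := offO_off h O i p hp
      have e2 : (z - (p.2 : ℂ)).im = z.im := by simp
      have e3 : (z - (p.2 : ℂ)).re = z.re - p.2 := by simp
      have h2 := fsum_re o1 hδ1 hb (z := z - p.2) (by rw [e2]; exact hz)
      rw [e3] at h2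
      exact h2.trans (mul_le_mul_of_nonneg_left (exp_shift2 o2 z.re) hK)
  refine h1.trans ?_
  have h3 := len_offO h O i
  have h4 : 0 ≤ Kn2 (δ * NUMF.l - b) * (Real.exp 2 * Real.exp (-2 * |z.re - ht (O i)|)) := by positivity
  nlinarith

/-- one constituent, both species -/
lemma lpt_sum (s ty : Bool) (j t : ℝ) : lpt true s ty j t + lpt false s ty j t =
    if ty then (lq j t + lqg j t) + (lq (j + 1) t + lqg (j + 1) t) else lq j t + lqg j t := by
  cases s <;> cases ty <;> simp [lpt, NUDispP.lp] <;> ring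

/-- **the sum of the potentials of an object, at the base positions** -/
theorem PT_sum_le {δ : ℝ} (hδ : 0 < δ) (hδ1 : δ ≤ 1 / 2) (Q : Par) (hj : Off δ Q.jL) (he : Off δ Q.e)
    (x : Xo) (t : ℝ) : |PT true (cbase Q x) 0 t + PT false (cbase Q x) 0 t| ≤
      4 * Kn2 (δ * NUMF.l) * Real.exp (-2 * |t - ht x|) := by
  have o32 : Off δ (3 / 2) := off_of 1 (by push_cast; linarith) (by push_cast; linarith)
  have o52 : Off δ (5 / 2) := off_of 2 (by push_cast; linarith) (by push_cast; linarith)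
  have oadd : ∀ (k : ℤ), Off δ (k + Q.e) := fun k n => by
    have := he (n - k)
    push_cast at this
    rwa [show (k : ℝ) + Q.e - n = Q.e - (n - k) by ring]
  have o2 : Off δ (2 + Q.e) := by simpa using oadd 2
  have o3 : Off δ (3 + Q.e) := by simpa using oadd 3
  have hK : 0 ≤ Kn2 (δ * NUMF.l) := Kn2_nonneg
  have b1 : ∀ {j : ℝ}, Off δ j → |lq j (t - ht x) + lqg j (t - ht x)| ≤
      Kn2 (δ * NUMF.l) * Real.exp (-2 * |t - ht x|) := fun h =>
    lsum_le h hδ (by linarith) (t - ht x)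
  have hE : 0 ≤ Kn2 (δ * NUMF.l) * Real.exp (-2 * |t - ht x|) := by positivity
  obtain ⟨E, hEd⟩ : ∃ E : ℝ, E = Kn2 (δ * NUMF.l) * Real.exp (-2 * |t - ht x|) := ⟨_, rfl⟩
  rw [← hEd] at hE
  rw [show 4 * Kn2 (δ * NUMF.l) * Real.exp (-2 * |t - ht x|) = 4 * E by rw [hEd]; ring]
  have c2 : (3 : ℝ) / 2 + 1 = 5 / 2 := by norm_num
  have c1 : (2 : ℝ) + Q.e + 1 = 3 + Q.e := by ring
  have c3 : (2 : ℝ) + Q.e - 2 = Q.e := by ring
  have key : PT true (cbase Q x) 0 t + PT false (cbase Q x) 0 t =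
      ((cbase Q x).map fun p => lpt true p.1 p.2.1 (p.2.2.1 + 0) (t - p.2.2.2) +
        lpt false p.1 p.2.1 (p.2.2.1 + 0) (t - p.2.2.2)).sum := by
    unfold PT
    rw [← List.sum_map_add]
  rw [key]
  simp_rw [lpt_sum]
  have q1 := abs_le.1 (hEd ▸ b1 hj)
  have q2 := abs_le.1 (hEd ▸ b1 o32)
  have q3 := abs_le.1 (hEd ▸ b1 o52)
  have q4 := abs_le.1 (hEd ▸ b1 o2)
  have q5 := abs_le.1 (hEd ▸ b1 o3)
  have q6 := abs_le.1 (hEd ▸ b1 he)
  unfold cbase NUDispP.cl
  rcases hk : kd x with _ | _ | _ | _ | _ <;>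
    simp only [List.map_cons, List.map_nil, List.sum_cons, List.sum_nil, add_zero, if_true,
      Bool.false_eq_true, if_false, c1, c2, c3] <;> rw [abs_le] <;> constructor <;>
    linarith [q1.1, q1.2, q2.1, q2.2, q3.1, q3.2, q4.1, q4.2, q5.1, q5.2, q6.1, q6.2]

end

end NUCR
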