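import Pool.Agent.NUCR.EnB
import Pool.Agent.NUCR.FsumRe
import Pool.Agent.NUH0.DatO
import Pool.Agent.NUAct.PhiQ3

/-!
# Upper bound of the exponent of a configuration (TARGET-B)

`inB s η η1 y β T B`: the inputs of `NUH0.datO` for the number of rows `s + i y` and the tilt `β`.
`EnB`: `En ≤ ∑_i [s mfo + s slk - wcO] + En y h' + energy of the densities + β² T / (2 kap0) - β s
 + ∑_a ∫ s P B_a + ∑_a ∫ muC_a φ_a - (β / 2) ∑_a ∫ nu0 B_a + C β² + C |β| r + small`.
-/

set_option autoImplicit false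

open MeasureTheory Set Filter Topology

namespace NUCR

noncomputable section

open NUO (Kind Xo ht Par PG Off offO fq fg FO fO mfo clo cons slkK wnu)
open NUMF (P)
open NUAct (Cur Ext hd zt zd Wb Wm)
open NUKer (iD)
open NUC43 (slk tauC muC sgX sgY sgT sgS)
open NUH0 (Dat slO Inp IOk datO phiO Qr Vn FA)
open NUDispP (PT)
open NUDispV (dFB cbase)

/-! ### the row potential on the path -/

lemma row_re : ∃ A : ℝ, 0 ≤ A ∧ ∀ (y x t : ℝ), |x| ≤ NUMF.l / 2 →
    |(Complex.I * y * NUAct.vc (t + x * Complex.I)).re| ≤ A * |y| * |x| * Real.exp (-2 * |t|) := by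
  have hl := NUMF.l_pos
  obtain ⟨A, hA, hv⟩ := vd_bound (b := NUMF.l / 2) (by positivity) (by linarith)
  refine ⟨A, hA, fun y x t hx => ?_⟩
  have e1 : NUAct.vc (t : ℂ) = ((NUMF.v t : ℝ) : ℂ) := NUAct.vc_ofReal t
  have h1 : ‖NUAct.vc (t + x * Complex.I) - NUAct.vc (t : ℂ)‖ ≤
      A * Real.exp (-2 * |t|) * |x| := by
    have hf : ∀ u ∈ Set.uIcc (0 : ℝ) x, HasDerivWithinAt (fun u : ℝ => NUAct.vc (t + u * Complex.I))
        (vd (t + u * Complex.I) * Complex.I) (Set.uIcc (0 : ℝ) x) u := by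
      intro u hu
      have hu' : |((t : ℂ) + u * Complex.I).im| ≤ NUMF.l / 2 := by
        have e : ((t : ℂ) + u * Complex.I).im = u := by simp
        rw [e]
        refine le_trans ?_ hx
        rcases le_total 0 x with h | h
        · rw [Set.uIcc_of_le h] at hu
          rw [abs_of_nonneg hu.1, abs_of_nonneg h]
          exact hu.2
        · rw [Set.uIcc_of_ge h] at hu
          rw [abs_of_nonpos hu.2, abs_of_nonpos h]
          linarith [hu.1]
      have h2 := hasDerivAt_vcA (z := (t : ℂ) + u * Complex.I) (lt_of_le_of_lt hu' (by linarith))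
      have h3 : HasDerivAt (fun u : ℝ => (t : ℂ) + (u : ℂ) * Complex.I) Complex.I u := by
        have h4 : HasDerivAt (fun u : ℝ => (u : ℂ)) 1 u := Complex.ofRealCLM.hasDerivAt
        simpa using (h4.mul_const Complex.I).const_add (t : ℂ)
      exact (h2.comp_of_eq u h3 rfl).hasDerivWithinAt
    have hb : ∀ u ∈ Set.uIcc (0 : ℝ) x, ‖vd (t + u * Complex.I) * Complex.I‖ ≤
        A * Real.exp (-2 * |t|) := by
      intro u hu
      have hu' : |((t : ℂ) + u * Complex.I).im| ≤ NUMF.l / 2 := by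
        have e : ((t : ℂ) + u * Complex.I).im = u := by simp
        rw [e]
        refine le_trans ?_ hx
        rcases le_total 0 x with h | h
        · rw [Set.uIcc_of_le h] at hu
          rw [abs_of_nonneg hu.1, abs_of_nonneg h]
          exact hu.2
        · rw [Set.uIcc_of_ge h] at hu
          rw [abs_of_nonpos hu.2, abs_of_nonpos h]
          linarith [hu.1]
      have h5 := (hv _ hu').1
      have e : ((t : ℂ) + u * Complex.I).re = t := by simp
      rw [e] at h5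
      rw [norm_mul, Complex.norm_I, mul_one]
      exact h5
    have h6 := (convex_uIcc (0 : ℝ) x).norm_image_sub_le_of_norm_hasDerivWithin_le hf hb
      Set.left_mem_uIcc Set.right_mem_uIcc
    simpa using h6
  have e2 : (Complex.I * y * NUAct.vc (t + x * Complex.I)).re =
      (Complex.I * y * (NUAct.vc (t + x * Complex.I) - NUAct.vc (t : ℂ))).re := by
    rw [mul_sub, Complex.sub_re, e1]
    have : (Complex.I * (y : ℂ) * ((NUMF.v t : ℝ) : ℂ)).re = 0 := by simp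
    rw [this, sub_zero]
  rw [e2]
  refine (Complex.abs_re_le_norm _).trans ?_
  rw [norm_mul, norm_mul, Complex.norm_I, one_mul, Complex.norm_real, Real.norm_eq_abs]
  calc |y| * ‖NUAct.vc (t + x * Complex.I) - NUAct.vc (t : ℂ)‖ ≤
      |y| * (A * Real.exp (-2 * |t|) * |x|) := mul_le_mul_of_nonneg_left h1 (abs_nonneg _)
    _ = _ := by ring

/-! ### the inputs -/

/-- the inputs of TARGET-B -/
def inB (s : ℝ) (η η1 : ℝ → ℝ) (y β T : ℝ) (B : Bool → ℝ → ℝ) : Inp where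
  s := s
  η := η
  η1 := η1
  A _ z := Complex.I * y * NUAct.vc z
  B a t := B a t + -(β / 2) * chi0 T t
  ν _ t := -(β / 2) * nu0 T t

variable {s ε M b dl y β T : ℝ} {e η η1 : ℝ → ℝ} {Q : Par} {r : ℕ} {B : Bool → ℝ → ℝ}

lemma Vn_inB (hT : 0 ≤ T) (a : Bool) (t : ℝ) :
    Vn (inB s η η1 y β T B) a t = -(β / 2) * chi0 T t := by
  unfold Vn inB
  simp only
  have e : ∀ u, -(β / 2) * nu0 T u * NUMF.V (t - u) = -(β / 2) * (nu0 T u * NUMF.V (t - u)) := fun u => by
    ring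
  simp_rw [e]
  rw [integral_const_mul, nu0_V hT]

lemma phi_inB (hT : 0 ≤ T) (O : Fin r → Xo) (a : Bool) (t : ℝ) :
    phiO (inB s η η1 y β T B) Q O a t = Qr (inB s η η1 y β T B) Q O a t + dFB Q O η a t +
      (Complex.I * y * NUAct.vc (zt (iD η) t)).re + B a t := by
  unfold phiO
  rw [Vn_inB hT]
  unfold inB
  simp only
  ring

lemma zt_im' (η : ℝ → ℝ) (t : ℝ) : (zt (iD η) t).im = η t ∧ (zt (iD η) t).re = t := by
  simp [zt, iD]

/-- the vertical displacement fields of both species together are localised -/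
theorem dFB_sum_le {δ c : ℝ} (hQ : PG δ Q) (hδ1 : δ ≤ 1 / 2) (hj : Off δ Q.jL) (he : Off δ Q.e)
    (hc : c < δ * NUMF.l) (O : Fin r → Xo) (I : Inp) {t : ℝ} (hη : |I.η t| ≤ c) :
    |dFB Q O I.η true t + dFB Q O I.η false t| ≤
      (8 * Kn2 (δ * NUMF.l - c) * Real.exp 2 + 4 * Kn2 (δ * NUMF.l)) *
        ∑ i, Real.exp (-2 * |t - ht (O i)|) := by
  have h0 : |I.η t| < δ * NUMF.l := lt_of_le_of_lt hη hc
  have h1 := NUH0.FO_re I Q O hQ true h0
  have h2 := NUH0.FO_re I Q O hQ false h0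
  have hz := zt_im' I.η t
  have h3 : (FO Q O true (zt (iD I.η) t)).re + (FO Q O false (zt (iD I.η) t)).re =
      ∑ i, (fO Q O i true (zt (iD I.η) t) + fO Q O i false (zt (iD I.η) t)).re := by
    unfold FO
    rw [Complex.re_sum, Complex.re_sum, ← Finset.sum_add_distrib]
    rfl
  have e1 : dFB Q O I.η true t + dFB Q O I.η false t =
      ∑ i, ((fO Q O i true (zt (iD I.η) t) + fO Q O i false (zt (iD I.η) t)).re -
        (PT true (cbase Q (O i)) 0 t + PT false (cbase Q (O i)) 0 t)) := by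
    rw [Finset.sum_sub_distrib, ← h3, h1, h2, Finset.sum_add_distrib]
    ring
  rw [e1]
  refine (Finset.abs_sum_le_sum_abs _ _).trans ?_
  rw [Finset.mul_sum]
  refine Finset.sum_le_sum fun i _ => ?_
  have h4 := fO_sum_re hQ hc O i (z := zt (iD I.η) t) (by rw [hz.1]; exact hη)
  have h5 := PT_sum_le hQ.δ0 hδ1 Q hj he (O i) t
  rw [hz.2] at h4
  refine (abs_sub _ _).trans ((add_le_add h4 h5).trans (le_of_eq ?_))
  ring

lemma int_exp_at (x : ℝ) : Integrable (fun t : ℝ => Real.exp (-2 * |t - x|)) ∧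
    ∫ t : ℝ, Real.exp (-2 * |t - x|) = 1 := by
  refine ⟨(int_abs_exp (by norm_num : (0 : ℝ) < 2)).comp_sub_right x, ?_⟩
  rw [integral_sub_right_eq_self (fun t => Real.exp (-2 * |t|)) x, integral_exp_abs (by norm_num)]
  norm_num

/-- offsets of good parameters -/
lemma off_PG {δ : ℝ} (hQ : PG δ Q) : Off δ Q.jL ∧ Off δ Q.e := by
  have h1 := hQ.j1
  have h2 := hQ.j2
  have h3 := hQ.e1
  have h4 := hQ.e2 0
  have h5 := hQ.d0 0
  have h6 := hQ.δ0
  exact ⟨NUO.off_of 2 (by push_cast; linarith) (by push_cast; linarith),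
    NUO.off_of 0 (by push_cast; linarith) (by push_cast; linarith)⟩

/-- **the response against the remainder** -/
theorem nu_phi : ∃ K : ℝ, 1 ≤ K ∧ ∀ {s ε M b dl y β T : ℝ} {e η η1 : ℝ → ℝ} {Q : Par} {r : ℕ}
    {B : Bool → ℝ → ℝ} (O : Fin r → Xo), IOk dl ε M b e (inB s η η1 y β T B) Q r → 0 ≤ T →
    |∫ t, nu0 T t * ((phiO (inB s η η1 y β T B) Q O true t + phiO (inB s η η1 y β T B) Q O false t) -
      (B true t + B false t))| ≤ K * (r + M * ε * b + |y| * ε) := by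
  obtain ⟨C1, hC1, HC⟩ := exists_nuchi
  obtain ⟨K1, hK1, HQ⟩ := NUAct.exists_phiQ'
  obtain ⟨A, hA, HA⟩ := row_re
  have hl := NUMF.l_pos
  obtain ⟨K2, hK2⟩ : ∃ K2 : ℝ, K2 = 8 * Kn2 (1 / 8 * NUMF.l - NUMF.l / 10) * Real.exp 2 +
    4 * Kn2 (1 / 8 * NUMF.l) := ⟨_, rfl⟩
  have hK20 : 0 ≤ K2 := by
    rw [hK2]
    have := Kn2_nonneg (c := 1 / 8 * NUMF.l - NUMF.l / 10)
    have := Kn2_nonneg (c := 1 / 8 * NUMF.l)
    positivity
  have hWm := NUAct.Wm_nonneg
  have hC0 : 0 ≤ C1 := by linarith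
  refine ⟨C1 * (K2 + 4 * K1 * Wm + 2 * A) + 1, by
    have : 0 ≤ C1 * (K2 + 4 * K1 * Wm + 2 * A) := by positivity
    linarith, ?_⟩
  intro s ε M b dl y β T e η η1 Q r B O h hT
  have hs : 0 ≤ s := h.s0
  have hcur : Cur s ε M b e η := h.cur
  have hε0 := hcur.ε0
  have hM0 := hcur.M0 hs
  have hb : 0 ≤ b := h.b0
  have hder : ∀ t, HasDerivAt η (η1 t) t := h.der
  have hη : ∀ t, |η t| ≤ ε := h.eta
  have hεl : ε < NUMF.l / 10 := h.εl
  obtain ⟨Q', q1, q2, q3⟩ := HQ hs hb (h.ε1.trans (by norm_num)) hcur hder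
    (FA (inB s η η1 y β T B) Q O)
  obtain ⟨oj, oe⟩ := off_PG h.pg
  obtain ⟨w1, w2⟩ := NUAct.Wb_int hb
  -- the pointwise bound
  have key : ∀ t, ‖nu0 T t * ((phiO (inB s η η1 y β T B) Q O true t +
      phiO (inB s η η1 y β T B) Q O false t) - (B true t + B false t))‖ ≤
      C1 * (K2 * ∑ i, Real.exp (-2 * |t - ht (O i)|) + 2 * (K1 * (M * ε) * Wb b t) +
        2 * (A * |y| * ε * Real.exp (-2 * |t|))) := by
    intro t
    rw [norm_mul, Real.norm_eq_abs, Real.norm_eq_abs]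
    refine mul_le_mul (HC T hT t).1 ?_ (abs_nonneg _) hC0
    rw [phi_inB hT, phi_inB hT]
    have g1 : |dFB Q O η true t + dFB Q O η false t| ≤ K2 * ∑ i, Real.exp (-2 * |t - ht (O i)|) := by
      rw [hK2]
      exact dFB_sum_le h.pg (by norm_num) oj oe (by linarith) O (inB s η η1 y β T B)
        (t := t) ((hη t).trans hεl.le)
    have g2 : ∀ a, |Qr (inB s η η1 y β T B) Q O a t| ≤ K1 * (M * ε) * Wb b t := fun a => q2 a t
    have g3 : |(Complex.I * y * NUAct.vc (zt (iD η) t)).re| ≤ A * |y| * ε * Real.exp (-2 * |t|) := by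
      have e1 : zt (iD η) t = (t : ℂ) + (η t : ℂ) * Complex.I := rfl
      rw [e1]
      have h5 : |η t| ≤ NUMF.l / 2 := (hη t).trans (by linarith)
      refine (HA y (η t) t h5).trans ?_
      have := hη t
      gcongr
    have g4 := g2 true
    have g5 := g2 false
    rw [abs_le] at g1 g3 g4 g5 ⊢
    constructor <;> linarith [g1.1, g1.2, g3.1, g3.2, g4.1, g4.2, g5.1, g5.2]
  have i1 : Integrable fun t => K2 * ∑ i, Real.exp (-2 * |t - ht (O i)|) :=
    (integrable_finsetSum _ fun i _ => (int_exp_at (ht (O i))).1).const_mul K2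
  have i2 : Integrable fun t => 2 * (K1 * (M * ε) * Wb b t) := (w1.const_mul _).const_mul 2
  have i3 : Integrable fun t => 2 * (A * |y| * ε * Real.exp (-2 * |t|)) :=
    ((int_abs_exp (by norm_num : (0 : ℝ) < 2)).const_mul _).const_mul 2
  have i12 : Integrable fun t => K2 * ∑ i, Real.exp (-2 * |t - ht (O i)|) +
      2 * (K1 * (M * ε) * Wb b t) := i1.add i2
  have hI : Integrable fun t => C1 * (K2 * ∑ i, Real.exp (-2 * |t - ht (O i)|) +
      2 * (K1 * (M * ε) * Wb b t) + 2 * (A * |y| * ε * Real.exp (-2 * |t|))) :=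
    (i12.add i3).const_mul C1
  have h1 := norm_integral_le_of_norm_le hI (ae_of_all _ key)
  rw [Real.norm_eq_abs] at h1
  refine h1.trans ?_
  rw [integral_const_mul, integral_add i12 i3, integral_add i1 i2, integral_const_mul,
    integral_const_mul, integral_const_mul, integral_const_mul, integral_const_mul, w2,
    integral_exp_abs (by norm_num : (0 : ℝ) < 2),
    integral_finsetSum _ fun i _ => (int_exp_at (ht (O i))).1]
  simp_rw [(int_exp_at _).2]
  rw [Finset.sum_const, Finset.card_univ, Fintype.card_fin, nsmul_eq_mul, mul_one]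
  have hr : (0 : ℝ) ≤ r := Nat.cast_nonneg r
  have hy := abs_nonneg y
  have p1 : 0 ≤ M * ε * b := by positivity
  have p2 : 0 ≤ |y| * ε := by positivity
  have e9 : C1 * (K2 * r + 2 * (K1 * (M * ε) * (Wm * (2 * b))) + 2 * (A * |y| * ε * (2 / 2))) =
      C1 * (K2 * r + 4 * K1 * Wm * (M * ε * b) + 2 * A * (|y| * ε)) := by ring
  rw [e9]
  have p3 : K2 * r + 4 * K1 * Wm * (M * ε * b) + 2 * A * (|y| * ε) ≤
      (K2 + 4 * K1 * Wm + 2 * A) * (r + M * ε * b + |y| * ε) := by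
    have a1 : 0 ≤ 4 * K1 * Wm := by positivity
    have a2 : 0 ≤ K2 * (M * ε * b) := mul_nonneg hK20 p1
    have a3 : 0 ≤ K2 * (|y| * ε) := mul_nonneg hK20 p2
    have a4 : 0 ≤ 4 * K1 * Wm * r := mul_nonneg a1 hr
    have a5 : 0 ≤ 4 * K1 * Wm * (|y| * ε) := mul_nonneg a1 p2
    have a6 : 0 ≤ 2 * A * r := by positivity
    have a7 : 0 ≤ 2 * A * (M * ε * b) := by positivity
    nlinarith
  calc C1 * (K2 * r + 4 * K1 * Wm * (M * ε * b) + 2 * A * (|y| * ε)) ≤
      C1 * ((K2 + 4 * K1 * Wm + 2 * A) * (r + M * ε * b + |y| * ε)) :=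
        mul_le_mul_of_nonneg_left p3 hC0
    _ ≤ _ := by nlinarith

/-- **masses of the densities of the objects** -/
theorem exists_muC_mass {j e : ℝ} (h : NUC43.Adm j e) : ∃ D : ℝ, 0 ≤ D ∧ ∀ {r : ℕ} (O : Fin r → Xo)
    (a : Bool) (f : ℝ → ℝ) (c : ℝ), (∀ t, |f t| ≤ c) → |∫ t, muC j e O a t * f t| ≤ D * r * c := by
  have h0 : ∀ (K : Kind) (σ : Bool), 0 ≤ ∫ t, |sgS j e σ K t| := fun K σ =>
    integral_nonneg fun t => abs_nonneg _
  refine ⟨∑ K : Kind, ∑ σ : Bool, ∫ t, |sgS j e σ K t|,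
    Finset.sum_nonneg fun K _ => Finset.sum_nonneg fun σ _ => h0 K σ, ?_⟩
  intro r O a f c hf
  have hc : 0 ≤ c := (abs_nonneg _).trans (hf 0)
  have hle : ∀ (K : Kind) (σ : Bool), ∫ t, |sgS j e σ K t| ≤
      ∑ K : Kind, ∑ σ : Bool, ∫ t, |sgS j e σ K t| := by
    intro K σ
    refine le_trans ?_ (Finset.single_le_sum
      (f := fun K : Kind => ∑ σ : Bool, ∫ t, |sgS j e σ K t|)
      (fun K _ => Finset.sum_nonneg fun σ _ => h0 K σ) (Finset.mem_univ K))
    exact Finset.single_le_sum (f := fun σ : Bool => ∫ t, |sgS j e σ K t|) (fun σ _ => h0 K σ)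
      (Finset.mem_univ σ)
  have hi : ∀ i, Integrable fun t => |sgS j e (NUO.sp (O i) == a) (NUO.kd (O i)) (t - ht (O i))| :=
    fun i => ((NUC43.dnS h _ _).int.abs).comp_sub_right (ht (O i))
  have hI : Integrable fun t => (∑ i, |sgS j e (NUO.sp (O i) == a) (NUO.kd (O i)) (t - ht (O i))|) * c :=
    (integrable_finsetSum _ fun i _ => hi i).mul_const c
  have h1 := norm_integral_le_of_norm_le (f := fun t => muC j e O a t * f t) hI (ae_of_all _ fun t => by
    rw [norm_mul, Real.norm_eq_abs, Real.norm_eq_abs]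
    refine mul_le_mul ?_ (hf t) (abs_nonneg _) (Finset.sum_nonneg fun i _ => abs_nonneg _)
    exact Finset.abs_sum_le_sum_abs _ _)
  rw [Real.norm_eq_abs] at h1
  refine h1.trans ?_
  rw [integral_mul_const, integral_finsetSum _ fun i _ => hi i]
  refine mul_le_mul_of_nonneg_right ?_ hc
  calc ∑ i, ∫ t, |sgS j e (NUO.sp (O i) == a) (NUO.kd (O i)) (t - ht (O i))| ≤
      ∑ i : Fin r, ∑ K : Kind, ∑ σ : Bool, ∫ t, |sgS j e σ K t| := by
        refine Finset.sum_le_sum fun i _ => ?_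
        rw [integral_sub_right_eq_self (fun t => |sgS j e (NUO.sp (O i) == a) (NUO.kd (O i)) t|)
          (ht (O i))]
        exact hle _ _
    _ = _ := by
        rw [Finset.sum_const, Finset.card_univ, Fintype.card_fin, nsmul_eq_mul]
        ring

/-- energy of the densities of the objects -/
def enQ (Q : Par) {r : ℕ} (O : Fin r → Xo) : ℝ :=
  1 / 2 * (∫ t, tauC Q.jL Q.e O t * NUC43.lgp (tauC Q.jL Q.e O) t) +
    ∑ a : Bool, 1 / 2 * (∫ t, muC Q.jL Q.e O a t *
      ∫ u, muC Q.jL Q.e O a u * NUMF.V (t - u))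

/-- **The upper bound of the exponent of a configuration, TARGET-B.** -/
theorem EnB_le {j e0 : ℝ} (hA : NUC43.Adm j e0) : ∃ C : ℝ, 1 ≤ C ∧
    ∀ {s ε M b dl y β T : ℝ} {e η η1 : ℝ → ℝ} {Q : Par} {r : ℕ} {B : Bool → ℝ → ℝ}
      (O : Fin r → Xo), Q.jL = j → Q.e = e0 → IOk dl ε M b e (inB s η η1 y β T B) Q r →
      C * (b + 1) ^ 7 * ε ≤ 1 → 0 ≤ T →
      (datO (inB s η η1 y β T B) Q O).En ≤
        (∑ i, (s * mfo (cons Q O i) +
          s * slkK (fun t => ∫ u, P u * slk (u - t)) (NUO.kd (O i)) (ht (O i)) -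
          wcO Q O i (fun t => s * P t * η t))) + En y (hd s η η1) + enQ Q O +
        (β ^ 2 * T / (2 * kap0) - β * s) + (∑ a, ∫ t, s * P t * B a t) +
        (∑ a, ∫ t, muC Q.jL Q.e O a t * phiO (inB s η η1 y β T B) Q O a t) -
        β / 2 * (∑ a, ∫ t, nu0 T t * B a t) +
        C * ((r + |y|) * (M * ε)) + C * (b + 1) ^ 9 * M ^ 2 * ε + C * β ^ 2 +
        C * |β| * (r + s * Real.exp (-(8 / 3) * T) + M * ε * b + |y| * ε) := by
  obtain ⟨C1, hC1, H1⟩ := En_cfgB (δ := 1 / 8) (by norm_num) (by norm_num)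
  obtain ⟨K1, hK1, HK⟩ := nu_phi
  obtain ⟨D, hD, HD⟩ := exists_muC_mass hA
  obtain ⟨C2, hC2, HE⟩ := nu0_energy
  obtain ⟨C3, hC3, HP⟩ := P_chi0
  refine ⟨C1 + K1 + D + C2 + C3, by linarith, ?_⟩
  intro s ε M b dl y β T e η η1 Q r B O hj he h hsm hT
  have hs : 0 ≤ s := h.s0
  have hcur : Cur s ε M b e η := h.cur
  have hε0 := hcur.ε0
  have hM0 := hcur.M0 hs
  have hb : 0 ≤ b := h.b0
  have hder : ∀ t, HasDerivAt η (η1 t) t := h.der
  obtain ⟨I, hI⟩ : ∃ I : Inp, I = inB s η η1 y β T B := ⟨_, rfl⟩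
  have hsm' : C1 * (b + 1) ^ 7 * ε ≤ 1 := by
    refine le_trans ?_ hsm
    have h7 : 0 ≤ (b + 1) ^ 7 * ε := by positivity
    have : C1 * ((b + 1) ^ 7 * ε) ≤ (C1 + K1 + D + C2 + C3) * ((b + 1) ^ 7 * ε) :=
      mul_le_mul_of_nonneg_right (by linarith) h7
    calc _ = C1 * ((b + 1) ^ 7 * ε) := by ring
      _ ≤ _ := this
      _ = _ := by ring
  -- regularity
  have hQC : ∀ a, ContDiff ℝ 1 (Qr (inB s η η1 y β T B) Q O a) := by
    obtain ⟨K, hK, H⟩ := NUAct.exists_phiQ''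
    obtain ⟨Q', c1, q1, -, -⟩ := H hs hb (h.ε1.trans (by norm_num)) hcur hder
      (FA (inB s η η1 y β T B) Q O)
    intro a
    rw [contDiff_one_iff_deriv]
    have q1' : ∀ t, HasDerivAt (Qr (inB s η η1 y β T B) Q O a) (Q' t) t := fun t => q1 a t
    refine ⟨fun t => (q1' t).differentiableAt, ?_⟩
    rw [show deriv (Qr (inB s η η1 y β T B) Q O a) = Q' from funext fun t => (q1' t).deriv]
    exact c1
  have hφc : ∀ a, Continuous (phiO (inB s η η1 y β T B) Q O a) := fun a =>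
    (h.phi_C1 hQC a).continuous
  have hφb : ∀ a, ∃ C, ∀ t, |phiO (inB s η η1 y β T B) Q O a t| ≤ C := fun a => h.phi_bdd a
  have hBc : ∀ a, Continuous (B a) := by
    intro a
    have h1 : Continuous fun t => B a t + -(β / 2) * chi0 T t := (h.Bc a).continuous
    have h2 := h1.sub (continuous_const.mul (chi0_cont T) : Continuous fun t => -(β / 2) * chi0 T t)
    refine h2.congr fun t => ?_
    show (B a t + -(β / 2) * chi0 T t) - -(β / 2) * chi0 T t = B a t
    ring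
  have hBb : ∀ a, ∃ C, ∀ t, |B a t| ≤ C := by
    intro a
    obtain ⟨c, hc⟩ := h.Bb a
    refine ⟨c + |β / 2|, fun t => ?_⟩
    have h1 : |B a t + -(β / 2) * chi0 T t| ≤ c := hc t
    obtain ⟨x0, x1⟩ := chi0_mem hT t
    have h2 : |-(β / 2) * chi0 T t| ≤ |β / 2| := by
      rw [abs_mul, abs_neg, abs_of_nonneg x0]
      exact mul_le_of_le_one_right (abs_nonneg _) x1
    have e1 : B a t = (B a t + -(β / 2) * chi0 T t) - (-(β / 2) * chi0 T t) := by ring
    rw [e1]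
    exact (abs_sub _ _).trans (add_le_add h1 h2)
  have hPB : ∀ a, Integrable fun t => P t * B a t := by
    intro a
    obtain ⟨c, hc⟩ := hBb a
    exact NUMF.P_integrable.mul_bdd (c := c) (hBc a).aestronglyMeasurable (ae_of_all _ hc)
  have hn := (nu0_mass hT).1
  have hnB : ∀ a, Integrable fun t => nu0 T t * B a t := by
    intro a
    obtain ⟨c, hc⟩ := hBb a
    exact hn.mul_bdd (c := c) (hBc a).aestronglyMeasurable (ae_of_all _ hc)
  have hnφ : ∀ a, Integrable fun t => nu0 T t * phiO (inB s η η1 y β T B) Q O a t := by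
    intro a
    obtain ⟨c, hc⟩ := hφb a
    exact hn.mul_bdd (c := c) (hφc a).aestronglyMeasurable (ae_of_all _ hc)
  have hμφ : ∀ a, Integrable fun t => muC Q.jL Q.e O a t * phiO (inB s η η1 y β T B) Q O a t := by
    intro a
    obtain ⟨c, hc⟩ := hφb a
    exact (NUC43.dn_muC (hj ▸ he ▸ hA) O a).int.mul_bdd (c := c) (hφc a).aestronglyMeasurable
      (ae_of_all _ hc)
  have h2 := H1 s ε M b y β T e η η1 Q r O B (datO (inB s η η1 y β T B) Q O) h.pg (hj ▸ he ▸ hA) hs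
    hcur hder hb hsm' hT rfl (fun _ => rfl) (fun _ => rfl) (fun _ => rfl) rfl (fun _ => rfl)
    (fun _ _ => rfl) hPB
  have h3 := NUC43.cfg_energy (hj ▸ he ▸ hA : NUC43.Adm Q.jL Q.e) O
  have h4 : (∑ a, ∫ t, (datO (inB s η η1 y β T B) Q O).μ a t * (datO (inB s η η1 y β T B) Q O).φ a t) =
      (∑ a, ∫ t, muC Q.jL Q.e O a t * phiO (inB s η η1 y β T B) Q O a t) +
        -(β / 2) * (∑ a, ∫ t, nu0 T t * phiO (inB s η η1 y β T B) Q O a t) := by
    rw [Finset.mul_sum, ← Finset.sum_add_distrib]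
    refine Finset.sum_congr rfl fun a _ => ?_
    rw [← integral_const_mul, ← integral_add (hμφ a) ((hnφ a).const_mul _)]
    refine integral_congr_ae (ae_of_all _ fun t => ?_)
    show (muC Q.jL Q.e O a t + -(β / 2) * nu0 T t) * phiO (inB s η η1 y β T B) Q O a t = _
    ring
  have h5 := HK O h hT
  have h6 : (∫ t, nu0 T t * ((phiO (inB s η η1 y β T B) Q O true t +
      phiO (inB s η η1 y β T B) Q O false t) - (B true t + B false t))) =
      (∑ a, ∫ t, nu0 T t * phiO (inB s η η1 y β T B) Q O a t) - ∑ a, ∫ t, nu0 T t * B a t := by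
    rw [Fintype.sum_bool, Fintype.sum_bool, ← integral_add (hnφ true) (hnφ false),
      ← integral_add (hnB true) (hnB false)]
    have i1 : Integrable fun t => nu0 T t * phiO (inB s η η1 y β T B) Q O true t +
        nu0 T t * phiO (inB s η η1 y β T B) Q O false t := (hnφ true).add (hnφ false)
    have i2 : Integrable fun t => nu0 T t * B true t + nu0 T t * B false t :=
      (hnB true).add (hnB false)
    rw [← integral_sub i1 i2]
    refine integral_congr_ae (ae_of_all _ fun t => ?_)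
    simp only
    ring
  rw [h6] at h5
  have h7 : ∀ a, |∫ t, muC Q.jL Q.e O a t * chi0 T t| ≤ D * r := by
    intro a
    have := HD O a (chi0 T) 1 (fun t => by
      obtain ⟨x0, x1⟩ := chi0_mem hT t
      rw [abs_of_nonneg x0]
      exact x1)
    rw [hj, he]
    simpa using this
  obtain ⟨-, h8⟩ := HE T hT
  obtain ⟨-, -, h9, h10⟩ := HP T hT
  rw [h4, ← h3] at h2
  -- the scalar inequality
  obtain ⟨N, hN⟩ : ∃ N : ℝ, N = ∫ t, nu0 T t * chi0 T t := ⟨_, rfl⟩
  obtain ⟨Pc, hPc⟩ : ∃ Pc : ℝ, Pc = ∫ t, P t * chi0 T t := ⟨_, rfl⟩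
  obtain ⟨Φ, hΦ⟩ : ∃ Φ : ℝ, Φ = ∑ a, ∫ t, nu0 T t * phiO (inB s η η1 y β T B) Q O a t := ⟨_, rfl⟩
  obtain ⟨Bn, hBn⟩ : ∃ Bn : ℝ, Bn = ∑ a, ∫ t, nu0 T t * B a t := ⟨_, rfl⟩
  obtain ⟨X1, hX1⟩ : ∃ X1 : ℝ, X1 = ∫ t, muC Q.jL Q.e O true t * chi0 T t := ⟨_, rfl⟩
  obtain ⟨X2, hX2⟩ : ∃ X2 : ℝ, X2 = ∫ t, muC Q.jL Q.e O false t * chi0 T t := ⟨_, rfl⟩
  have e1 : (∑ a, ∫ t, muC Q.jL Q.e O a t * chi0 T t) = X1 + X2 := by
    rw [Fintype.sum_bool, hX1, hX2]
  have x1 := h7 true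
  have x2 := h7 false
  rw [← hX1] at x1
  rw [← hX2] at x2
  rw [← hN] at h8
  rw [← hPc] at h9 h10
  rw [← hΦ, ← hBn] at h5
  rw [e1, ← hN, ← hPc, ← hΦ] at h2
  rw [← hBn]
  have hr : (0 : ℝ) ≤ r := Nat.cast_nonneg r
  have hy := abs_nonneg y
  have hβ := abs_nonneg β
  have k1 : β ^ 2 / 4 * N ≤ β ^ 2 * T / (2 * kap0) + C2 * β ^ 2 := by
    have a1 := (abs_le.1 h8).2
    have a2 : β ^ 2 / 4 * (N - 2 * T / kap0) ≤ β ^ 2 / 4 * C2 :=
      mul_le_mul_of_nonneg_left a1 (by positivity)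
    have a3 : β ^ 2 / 4 * (2 * T / kap0) = β ^ 2 * T / (2 * kap0) := by
      have := kap0_pos
      field_simp
      ring
    have a4 : β ^ 2 / 4 * C2 ≤ C2 * β ^ 2 := by nlinarith [sq_nonneg β]
    rw [mul_sub, a3] at a2
    linarith
  have k2 : -(β * s * Pc) ≤ -(β * s) + |β| * (C3 * (s * Real.exp (-(8 / 3) * T))) := by
    have a1 : β * (s * (1 - Pc)) ≤ |β| * (s * (1 - Pc)) := by
      refine mul_le_mul_of_nonneg_right (le_abs_self _) ?_
      exact mul_nonneg hs (by linarith)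
    have a2 : s * (1 - Pc) ≤ C3 * (s * Real.exp (-(8 / 3) * T)) := by
      calc s * (1 - Pc) ≤ s * (C3 * Real.exp (-(8 / 3) * T)) :=
            mul_le_mul_of_nonneg_left (by linarith) hs
        _ = _ := by ring
    have a3 := mul_le_mul_of_nonneg_left a2 hβ
    nlinarith
  have k3 : -(β / 2 * (X1 + X2)) ≤ |β| * (D * r) := by
    have a1 : |β / 2 * (X1 + X2)| ≤ |β| * (D * r) := by
      rw [abs_mul, abs_div, abs_two]
      have a2 : |X1 + X2| ≤ 2 * (D * r) := (abs_add_le _ _).trans (by linarith)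
      calc |β| / 2 * |X1 + X2| ≤ |β| / 2 * (2 * (D * r)) :=
            mul_le_mul_of_nonneg_left a2 (by positivity)
        _ = _ := by ring
    linarith [(abs_le.1 a1).1]
  have k4 : -(β / 2) * Φ ≤ -(β / 2 * Bn) + |β| * (K1 * (r + M * ε * b + |y| * ε)) := by
    have a1 : |β / 2 * (Φ - Bn)| ≤ |β| * (K1 * (r + M * ε * b + |y| * ε)) := by
      rw [abs_mul, abs_div, abs_two]
      have a3 : 0 ≤ K1 * (r + M * ε * b + |y| * ε) := (abs_nonneg _).trans h5
      calc |β| / 2 * |Φ - Bn| ≤ |β| / 2 * (K1 * (r + M * ε * b + |y| * ε)) :=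
            mul_le_mul_of_nonneg_left h5 (by positivity)
        _ ≤ _ := by nlinarith
    have := (abs_le.1 a1).1
    nlinarith
  have k5 := (abs_le.1 h2).2
  have p1 : 0 ≤ M * ε := mul_nonneg hM0 hε0
  have p2 : 0 ≤ (r + |y|) * (M * ε) := by positivity
  have p3 : 0 ≤ (b + 1) ^ 9 * M ^ 2 * ε := by positivity
  have p4 : 0 ≤ s * Real.exp (-(8 / 3) * T) := by positivity
  have p5 : 0 ≤ M * ε * b := by positivity
  have p6 : 0 ≤ |y| * ε := by positivity
  have p7 : 0 ≤ β ^ 2 := sq_nonneg β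
  have z1 : C1 * ((r + |y|) * (M * ε)) ≤ (C1 + K1 + D + C2 + C3) * ((r + |y|) * (M * ε)) :=
    mul_le_mul_of_nonneg_right (by linarith) p2
  have z2 : C1 * (b + 1) ^ 9 * M ^ 2 * ε ≤ (C1 + K1 + D + C2 + C3) * (b + 1) ^ 9 * M ^ 2 * ε := by
    have := mul_le_mul_of_nonneg_right (by linarith : C1 ≤ C1 + K1 + D + C2 + C3) p3
    calc _ = C1 * ((b + 1) ^ 9 * M ^ 2 * ε) := by ring
      _ ≤ _ := this
      _ = _ := by ring
  have z3 : C2 * β ^ 2 ≤ (C1 + K1 + D + C2 + C3) * β ^ 2 :=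
    mul_le_mul_of_nonneg_right (by linarith) p7
  have z4 : |β| * (C3 * (s * Real.exp (-(8 / 3) * T))) + |β| * (D * r) +
      |β| * (K1 * (r + M * ε * b + |y| * ε)) ≤ (C1 + K1 + D + C2 + C3) * |β| *
        (r + s * Real.exp (-(8 / 3) * T) + M * ε * b + |y| * ε) := by
    have a1 : C3 * (s * Real.exp (-(8 / 3) * T)) + D * r + K1 * (r + M * ε * b + |y| * ε) ≤
        (C1 + K1 + D + C2 + C3) * (r + s * Real.exp (-(8 / 3) * T) + M * ε * b + |y| * ε) := by
      have b1 : (K1 + D) * r ≤ (C1 + K1 + D + C2 + C3) * r :=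
        mul_le_mul_of_nonneg_right (by linarith) hr
      have b2 : C3 * (s * Real.exp (-(8 / 3) * T)) ≤
          (C1 + K1 + D + C2 + C3) * (s * Real.exp (-(8 / 3) * T)) :=
        mul_le_mul_of_nonneg_right (by linarith) p4
      have b3 : K1 * (M * ε * b) ≤ (C1 + K1 + D + C2 + C3) * (M * ε * b) :=
        mul_le_mul_of_nonneg_right (by linarith) p5
      have b4 : K1 * (|y| * ε) ≤ (C1 + K1 + D + C2 + C3) * (|y| * ε) :=
        mul_le_mul_of_nonneg_right (by linarith) p6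
      linarith
    calc _ = |β| * (C3 * (s * Real.exp (-(8 / 3) * T)) + D * r + K1 * (r + M * ε * b + |y| * ε)) := by
          ring
      _ ≤ |β| * ((C1 + K1 + D + C2 + C3) *
          (r + s * Real.exp (-(8 / 3) * T) + M * ε * b + |y| * ε)) := mul_le_mul_of_nonneg_left a1 hβ
      _ = _ := by ring
  unfold enQ
  linarith

end

end NUCR
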