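import Pool.Agent.NUCR.RangesB
import Pool.Agent.NUCR.EnB2
import Pool.Agent.NUBR.Z1B
import Pool.Agent.NUO.GasG

/-!
# TARGET-B: the data of the gas (definitions and statements)

`inpB`: the inputs of `NUH0.datO`; `aB`, `cfB`: one body factor without the cutoff (tilt included),
cutoff factor; `B1ok`: the majorant of the cutoff; `DatGB`: the hypotheses `DatG` of the gas bounds,
`GDB`: the hypothesis `GD` of the sharp bound.  `NUCR/S4Bp`: `CrudeG → DatGB → CrudeB`,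
`SharpG → DatGB → GDB → SharpB`.
-/

set_option autoImplicit false

noncomputable section

open MeasureTheory Finset
open scoped ENNReal

namespace NUCR

open NUO NUH0

/-- inputs of TARGET-B: `B1` the majorant of the cutoff, `b0` the tilt with the plateau, `b' - b0` the
small constant tilt -/
def inpB (e1 J : ℝ) (m : ℕ) (s : ℂ) (ts b0 b' : ℝ) (B1 : ℝ → ℝ) : Inp :=
  inB s.re (etaB e1 J m s ts) (etaB' e1 J m s ts) s.im b0 (Tb (Real.log m))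
    (fun _ t => B1 t - (b' - b0) / 2)

/-- one body factor without the cutoff, tilt included -/
def aB (e1 J : ℝ) (m : ℕ) (s : ℂ) (ts b' : ℝ) {r : ℕ} (O : Fin r → Xo) (a : Bool) (t : ℝ) : ℝ :=
  Real.exp (NUBR.fB s (etaB e1 J m s ts) t - b' / 2) *
    ∏ i, potN (par0 (MB m)) O i a (NUO.pA (etaB e1 J m s ts) t)

/-- cutoff factor -/
def cfB (ep e1 J : ℝ) (m : ℕ) (s : ℂ) (ts t : ℝ) : ℝ :=
  ‖ph (MB m) (4 / 3 * (1 - ep)) (NUO.pA (etaB e1 J m s ts) t)‖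

/-- properties of the majorant of the cutoff -/
structure B1ok (CB : ℝ) (m : ℕ) (B1 : ℝ → ℝ) : Prop where
  c : Continuous B1
  b0 : ∀ t, 0 ≤ B1 t
  b1 : ∀ t, B1 t ≤ 1
  z : ∀ t, Real.log m ≤ |t| → B1 t = 0
  p1 : Integrable (fun t => m * NUMF.P t * B1 t)
  p2 : ∫ t, m * NUMF.P t * B1 t ≤ CB
  q1 : Integrable (fun t => B1 t ^ 2)
  q2 : ∫ t, B1 t ^ 2 ≤ CB

/-- the range of the parameters of one configuration -/
structure RgB (e1 d : ℝ) (m : ℕ) (s : ℂ) (n : ℕ) (b0 b' ts : ℝ) (r : ℕ) (O : Fin r → Xo) :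
    Prop where
  hs : InS m s
  hn : n ≤ 2 * (m + NUI.NN m)
  hb0 : 0 ≤ b0
  hb1 : b0 ≤ 17 / 10
  hbd : |b' - b0| ≤ d
  hts : Adm (DD e1 m) s.im ts
  hr : r ≤ 2 * n
  hc1 : chgO O true ≤ n
  hc2 : chgO O false ≤ n

/-- **DatGB**: the hypotheses `DatG` for TARGET-B, for all larger powers `k` and smaller `κ` -/
def DatGB : Prop :=
  ∀ ep : ℝ, 0 < ep → ep ≤ 1 / 100 → ∀ e1 : ℝ, 0 < e1 → e1 ≤ 1 / 100 → ∀ J : ℝ, 0 ≤ J →
    ∃ (k0 : ℕ) (κ0 CB : ℝ), 0 < κ0 ∧ 0 ≤ CB ∧ ∀ k ≥ k0, ∀ κ : ℝ, 0 < κ → κ ≤ κ0 →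
    ∀ ϑ : ℝ, 0 < ϑ → ∃ d : ℝ, 0 < d ∧ ∃ m0 : ℕ, ∀ m ≥ m0, ∃ B1 : ℝ → ℝ, B1ok CB m B1 ∧
      ∀ (s : ℂ) (n : ℕ) (b0 b' ts : ℝ) (r : ℕ) (O : Fin r → Xo), RgB e1 d m s n b0 b' ts r O →
        DatG ep e1 κ CB ϑ k m (inpB e1 J m s ts b0 b' B1) (par0 (MB m)) O (n - chgO O true)
          (n - chgO O false) (aB e1 J m s ts b' O true) (aB e1 J m s ts b' O false)
          (cfB ep e1 J m s ts) B1

/-- **GDB**: the hypothesis `GD` of the sharp bound for TARGET-B -/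
def GDB : Prop :=
  ∀ ep : ℝ, 0 < ep → ep ≤ 1 / 100 → ∀ e1 : ℝ, 0 < e1 → e1 ≤ 1 / 100 → ∀ J : ℝ, 0 ≤ J →
    ∃ (k0 : ℕ) (κ0 w : ℝ), 0 < κ0 ∧ 0 < w ∧ w ≤ 1 / 10 ∧ ∀ k ≥ k0, ∀ κ : ℝ, 0 < κ → κ ≤ κ0 →
    ∃ m0 : ℕ, ∀ m ≥ m0, ∀ (s : ℂ) (n : ℕ) (b0 b' ts : ℝ) (r : ℕ) (O : Fin r → Xo),
      RgB e1 1 m s n b0 b' ts r O → |s.re - n| ≤ Real.log m ^ 3 → (r : ℝ) ≤ Real.log m →
      (∀ i, |ht (O i)| ≤ Real.log m ^ 2) →
        NUS4.GD m k κ e1 w s.re (2 * Real.log m ^ 2) ((1 - e1) * Tb (Real.log m))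
          (etaB e1 J m s ts) (etaB' e1 J m s ts) (etaB e1 J m s ts) (etaB' e1 J m s ts)
          (fun t => aB e1 J m s ts b' O true t * cfB ep e1 J m s ts t)
          (fun t => aB e1 J m s ts b' O false t * cfB ep e1 J m s ts t)

/-- the one body factor is the one of the bridge, times the tilt -/
theorem aB_cfB (ep e1 J : ℝ) (m : ℕ) (s : ℂ) (ts b' : ℝ) {r : ℕ} (O : Fin r → Xo) (a : Bool)
    (t : ℝ) : aB e1 J m s ts b' O a t * cfB ep e1 J m s ts t = Real.exp (-(b' / 2)) *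
      NUBR.aG (NUBR.fB s (etaB e1 J m s ts)) (MB m) (4 / 3 * (1 - ep)) (par0 (MB m))
        (etaB e1 J m s ts) O a t := by
  unfold aB cfB NUBR.aG
  rw [sub_eq_add_neg, Real.exp_add]
  ring

end NUCR

end
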