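import Pool.Agent.NUH0.ShlO
import Pool.Agent.NUCR.EnB2
import Pool.Agent.NUBR.Z1B

/-!
# The one body factors of TARGET-B

Data `X = datO (inB s η η1 y β T (fun _ t => B1 t + c0)) P O`, tilt `e^c` per quantum,
`c ≤ c0 - β / 2` (in the application `c = - b' / 2`, `c0 = - (b' - b0) / 2`, `β = b0`):

* `shl_inB`: `Shl X (aF X c true) (aF X c false) (cfO M (4/3(1-ep)) η) B1 (CB m) (8/3(1-ep))`;
* `aF_inB`: `aF X c a t = exp (fB (s + i y) η t + c) ∏ potN`;
* `aF_aG`: with the cutoff, `= exp c · aG (fB (s + i y) η) ..` (`NUBR/Z1B`);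
* `W0_inB`: the weight `W0` in these factors;
* `Z1B_of_W0`: a bound of `∫ W0` gives the bound of `Z1g (RNB (s + i y) tc)`.
-/

set_option autoImplicit false

open MeasureTheory Set Filter Topology Complex
open scoped ENNReal

namespace NUCR

noncomputable section

open NUO NUH0 NUBR

variable {r : ℕ}

theorem slkK_nonneg {f : ℝ → ℝ} (hf : ∀ t, 0 ≤ f t) (k : Kind) (t : ℝ) : 0 ≤ slkK f k t := by
  cases k <;> simp only [slkK]
  · exact le_rfl
  · exact le_rfl
  · exact hf t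
  · have := hf t
    linarith
  · exact le_rfl

theorem slO_nonneg (O : Fin r → Xo) (a : Bool) (t : ℝ) : 0 ≤ slO O a t := by
  unfold slO
  refine Finset.sum_nonneg fun i _ => ?_
  split_ifs
  · exact slkK_nonneg NUC43.slk_nonneg _ _
  · exact le_rfl

variable {s y β T c c0 : ℝ} {η η1 B1 : ℝ → ℝ} {P : Par}

/-- the real potential dominates the majorant of the cutoff and the tilt -/
theorem pot_inB (hT : 0 ≤ T) (hβ : 0 ≤ β) (hc : c ≤ c0 - β / 2) (O : Fin r → Xo) (a : Bool)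
    (t : ℝ) : B1 t + c ≤ (datO (inB s η η1 y β T (fun _ t => B1 t + c0)) P O).E a t := by
  show B1 t + c ≤ slO O a t + ((B1 t + c0) + -(β / 2) * chi0 T t)
  have h1 := slO_nonneg O a t
  have h2 := (chi0_mem hT t).2
  nlinarith

/-- **the field `Shl`** -/
theorem shl_inB {ep C CB m Cκ : ℝ} {M : ℕ} (h1 : ep ≤ 1 / 100) (hC : 0 ≤ C) (hη : Continuous η)
    (hBc : Continuous B1) (hB0 : ∀ t, 0 ≤ B1 t)
    (hcB : ∀ t, cfO M (4 / 3 * (1 - ep)) η t ≤ Real.exp (B1 t))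
    (hcD : ∀ t, cfO M (4 / 3 * (1 - ep)) η t ≤ C * M * Real.exp (-(8 / 3 * (1 - ep)) * |t|))
    (hM : C * M ≤ CB * m) {O : Fin r → Xo} (hT : 0 ≤ T) (hβ : 0 ≤ β) (hc : c ≤ c0 - β / 2)
    (hG : Geo (datO (inB s η η1 y β T (fun _ t => B1 t + c0)) P O) Cκ) :
    Shl (datO (inB s η η1 y β T (fun _ t => B1 t + c0)) P O)
      (aF (datO (inB s η η1 y β T (fun _ t => B1 t + c0)) P O) c true)
      (aF (datO (inB s η η1 y β T (fun _ t => B1 t + c0)) P O) c false)
      (cfO M (4 / 3 * (1 - ep)) η) B1 (CB * m) (8 / 3 * (1 - ep)) := by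
  have h := shl_cut (m := M) h1 hC hη hBc hB0 hcB hcD hG (fun a t => pot_inB hT hβ hc O a t)
  have hCM : 0 ≤ C * M := by positivity
  exact { h with
    D0 := hCM.trans hM
    cD := fun t => (h.cD t).trans (mul_le_mul_of_nonneg_right hM (Real.exp_pos _).le) }

theorem zt_eq (η : ℝ → ℝ) (t : ℝ) : NUAct.zt (NUKer.iD η) t = t + (η t : ℂ) * I := rfl

theorem zd_eq (η : ℝ → ℝ) (t : ℝ) : NUAct.zd (NUKer.iD η) t = 1 + (η t : ℂ) * I := rfl

/-- the row part of the one body exponent -/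
theorem rowB_re {t : ℝ} (h : |η t| < NUMF.l) :
    s * (NUAct.vc (t + (η t : ℂ) * I)).re + (I * (y : ℂ) * NUAct.vc (t + (η t : ℂ) * I)).re =
      fB ((s : ℂ) + y * I) η t := by
  have him : |((t : ℂ) + (η t : ℂ) * I).im| < NUMF.l := by simpa using h
  unfold fB
  have e : (t : ℂ) + NUO.dA η t = t + (η t : ℂ) * I := rfl
  rw [e, ← vc_eq him]
  set w := NUAct.vc (t + (η t : ℂ) * I)
  simp only [mul_re, add_re, add_im, mul_im, ofReal_re, ofReal_im, I_re, I_im]
  ring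

/-- **the one body factor**, tilt `e^c` -/
theorem aF_inB {δ : ℝ} (hP : PG δ P) (hη : ∀ t, |η t| < δ * NUMF.l) (hηl : ∀ t, |η t| < NUMF.l)
    (B : Bool → ℝ → ℝ) (O : Fin r → Xo) (c : ℝ) (a : Bool) (t : ℝ) :
    aF (datO (inB s η η1 y β T B) P O) c a t =
      Real.exp (fB ((s : ℂ) + y * I) η t + c) * ∏ i, potN P O i a (NUO.pA η t) := by
  have h1 : ∏ i, potN P O i a (NUO.pA η t) =
      Real.exp (FO P O a (t + (η t : ℂ) * I)).re := prod_potN O hP a (hη t)
  have h2 := rowB_re (s := s) (y := y) (hηl t)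
  rw [h1, ← Real.exp_add]
  show Real.exp (s * (NUAct.vc (NUAct.zt (NUKer.iD η) t)).re +
    (FO P O a (NUAct.zt (NUKer.iD η) t) + I * (y : ℂ) * NUAct.vc (NUAct.zt (NUKer.iD η) t)).re + c) = _
  rw [zt_eq, add_re, ← h2]
  congr 1
  ring

/-- the one body factor with the cutoff -/
theorem aF_aG {δ : ℝ} (hP : PG δ P) (hη : ∀ t, |η t| < δ * NUMF.l) (hηl : ∀ t, |η t| < NUMF.l)
    (B : Bool → ℝ → ℝ) (O : Fin r → Xo) (c : ℝ) (M : ℕ) (β' : ℝ) (a : Bool) (t : ℝ) :
    aF (datO (inB s η η1 y β T B) P O) c a t * cfO M β' η t =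
      Real.exp c * aG (fB ((s : ℂ) + y * I) η) M β' P η O a t := by
  rw [aF_inB hP hη hηl]
  unfold cfO aG
  rw [Real.exp_add]
  ring

/-- **the weight of the gas on the curve**, tilt `e^c` per quantum -/
theorem W0_inB {δ : ℝ} (hP : PG δ P) (hη : ∀ t, |η t| < δ * NUMF.l) (hηl : ∀ t, |η t| < NUMF.l)
    (B : Bool → ℝ → ℝ) (O : Fin r → Xo) (c : ℝ) (M : ℕ) (β' : ℝ) {p n : ℕ} (x : NUR2.Cfg p n) :
    W0 (datO (inB s η η1 y β T B) P O) p n (aF (datO (inB s η η1 y β T B) P O) c true)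
      (aF (datO (inB s η η1 y β T B) P O) c false) (cfO M β' η) x = Real.exp c ^ (p + n) *
      NU42.WO (dA η) (dA η1) (dA η) (dA η1) (aG (fB ((s : ℂ) + y * I) η) M β' P η O true)
        (aG (fB ((s : ℂ) + y * I) η) M β' P η O false) x.1 x.2 := by
  have hD : ∀ a, (datO (inB s η η1 y β T B) P O).D a = dA η := fun a => datO_D _ P O a
  have hD1 : ∀ a, (datO (inB s η η1 y β T B) P O).D1 a = dA η1 := fun a => datO_D1 _ P O a
  have ha : ∀ a, (fun t => aF (datO (inB s η η1 y β T B) P O) c a t * cfO M β' η t) =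
      fun t => Real.exp c * aG (fB ((s : ℂ) + y * I) η) M β' P η O a t := fun a =>
    funext fun t => aF_aG hP hη hηl B O c M β' a t
  unfold W0
  rw [← NUBR.WO_smul]
  simp only [hD, hD1]
  rw [ha true, ha false]

/-- **from the gas integral to `Z1g`** -/
theorem Z1B_of_W0 {δ : ℝ} (hP : PG δ P) (hη : ∀ t, |η t| < δ * NUMF.l)
    (hηl : ∀ t, |η t| < NUMF.l) (B : Bool → ℝ → ℝ) (O : Fin r → Xo) (c : ℝ) (M : ℕ) (β' tc : ℝ)
    {p n : ℕ} {E : ℝ}
    (h : ∫⁻ x, ENNReal.ofReal (W0 (datO (inB s η η1 y β T B) P O) p n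
        (aF (datO (inB s η η1 y β T B) P O) c true) (aF (datO (inB s η η1 y β T B) P O) c false)
        (cfO M β' η) x) ≤
      ENNReal.ofReal ((p.factorial : ℝ) * n.factorial * Real.exp (NUMFC.MFs s p n + E))) :
    ENNReal.ofReal (Real.exp (c * ((p : ℝ) + n))) *
        Z1g (RNB ((s : ℂ) + y * I) tc) M β' P η η1 O p n ≤
      ENNReal.ofReal (Real.exp (NUMFC.MF s + E)) := by
  have hs : ((s : ℂ) + y * I).re = s := by simp
  simp_rw [W0_inB hP hη hηl B O c M β'] at h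
  have e1 : Real.exp (c * ((p : ℝ) + n)) = Real.exp c ^ (p + n) := by
    rw [← Real.exp_nat_mul]
    congr 1
    push_cast
    ring
  have hpos : (0 : ℝ) < Real.exp c ^ (p + n) := pow_pos (Real.exp_pos _) _
  simp_rw [ENNReal.ofReal_mul hpos.le] at h
  rw [lintegral_const_mul' _ _ ENNReal.ofReal_ne_top] at h
  have h2 : ∫⁻ x : (Fin p → ℝ) × (Fin n → ℝ), ENNReal.ofReal (NU42.WO (dA η) (dA η1) (dA η) (dA η1)
      (aG (fB ((s : ℂ) + y * I) η) M β' P η O true) (aG (fB ((s : ℂ) + y * I) η) M β' P η O false)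
      x.1 x.2) ≤ ENNReal.ofReal ((p.factorial : ℝ) * n.factorial *
        Real.exp (NUMFC.MFs ((s : ℂ) + y * I).re p n + (E - c * ((p : ℝ) + n)))) := by
    have h3 : ENNReal.ofReal (Real.exp c ^ (p + n)) ≠ 0 := by
      rw [Ne, ENNReal.ofReal_eq_zero, not_le]
      exact hpos
    have h4 := (ENNReal.mul_le_iff_le_inv h3 ENNReal.ofReal_ne_top).1 h
    refine h4.trans ?_
    rw [← ENNReal.ofReal_inv_of_pos hpos, ← ENNReal.ofReal_mul (inv_nonneg.2 hpos.le), hs]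
    refine ENNReal.ofReal_le_ofReal (le_of_eq ?_)
    rw [← e1, ← Real.exp_neg, show NUMFC.MFs s p n + (E - c * ((p : ℝ) + n)) =
      NUMFC.MFs s p n + E + -(c * ((p : ℝ) + n)) by ring, Real.exp_add (NUMFC.MFs s p n + E)]
    ring
  have h5 := Z1B_le ((s : ℂ) + y * I) tc hηl O p n h2
  rw [hs] at h5
  calc ENNReal.ofReal (Real.exp (c * ((p : ℝ) + n))) *
        Z1g (RNB ((s : ℂ) + y * I) tc) M β' P η η1 O p n ≤
      ENNReal.ofReal (Real.exp (c * ((p : ℝ) + n))) *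
        ENNReal.ofReal (Real.exp (NUMFC.MF s + (E - c * ((p : ℝ) + n)))) := by gcongr
    _ = ENNReal.ofReal (Real.exp (NUMFC.MF s + E)) := by
        rw [← ENNReal.ofReal_mul (Real.exp_pos _).le, ← Real.exp_add]
        congr 2
        ring

/-- the cutoff with `m + NN m + 1` points -/
theorem MB_le {m : ℕ} (hm : 1 ≤ m) : ((m + NUI.NN m + 1 : ℕ) : ℝ) ≤ 3 * m := by
  have hm' : (1 : ℝ) ≤ m := by exact_mod_cast hm
  have h1 : (NUI.NN m : ℝ) ≤ Real.log m ^ 2 := Nat.floor_le (sq_nonneg _)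
  have h2 : Real.log m ^ 2 ≤ m := by
    have h0 : 0 ≤ Real.log m := Real.log_nonneg hm'
    have h3 := Real.add_one_le_exp (Real.log m / 2 - 1)
    have h4 : Real.log m / 2 ≤ Real.exp (Real.log m / 2 - 1) := by linarith
    have h5 : Real.exp (Real.log m / 2 - 1) = Real.exp (Real.log m / 2) / Real.exp 1 := Real.exp_sub _ _
    have h6 : Real.exp (Real.log m / 2) ^ 2 = m := by
      rw [← Real.exp_nat_mul]
      push_cast
      rw [show 2 * (Real.log m / 2) = Real.log m by ring, Real.exp_log (by linarith)]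
    have h7 : (2 : ℝ) ≤ Real.exp 1 := by have := Real.add_one_le_exp (1 : ℝ); linarith
    have h8 : Real.log m ≤ Real.exp (Real.log m / 2) := by
      rw [h5, le_div_iff₀ (Real.exp_pos 1)] at h4
      nlinarith
    have h9 : (Real.log (m : ℝ)) ^ 2 ≤ (Real.exp (Real.log (m : ℝ) / 2)) ^ 2 := by gcongr
    rwa [h6] at h9
  push_cast
  linarith

end

end NUCR
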