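import Pool.Agent.NUCR.XiB0
import Pool.Agent.NUCR.InpB
import Pool.Agent.NUCR.ShlB
import Pool.Agent.NUS4.GDO

/-!
# TARGET-B: the data of the gas

`exists_iokB`: the hypotheses of the instance `inpB`.  `datGB : DatGB`.
-/

set_option autoImplicit false

noncomputable section

open MeasureTheory Finset Filter Topology
open scoped ENNReal

namespace NUCR

open NUO NUH0 NUStabP NUDispW

/-- the parameters -/
theorem parG_parM {m M : ℕ} (h1 : 1 ≤ m) (hM : m ≤ M) : ParG m (par0 M) where
  jL := rfl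
  e := rfl
  d0 r := (d0_pos r).le
  d1 r := by rw [par0_d, d0_mul]
  r0 r t := (rad0_pos M r t).le
  r1 r t := by
    have q1 := d0_pos r
    have q2 := l_pos0
    have q4 := log_nn m
    have q5 := log_nn M
    have hmR : (0 : ℝ) < m := by exact_mod_cast h1
    have hlog : Real.log m ≤ Real.log M := Real.log_le_log hmR (by exact_mod_cast hM)
    rw [par0_rad, par0_d]
    have h5 := rad0_le1 M r t
    rw [le_div_iff₀ (by positivity)] at h5
    have h6 := (rad0_pos M r t).le
    have h7 : 64 * ((r : ℝ) + 1) * (1 + Real.log m) ≤ 64 * ((r : ℝ) + 1) * (1 + Real.log M) := by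
      gcongr
    exact (mul_le_mul_of_nonneg_left h7 h6).trans h5

lemma chi0_contDiff (T : ℝ) : ContDiff ℝ 1 (chi0 T) := by
  rw [contDiff_one_iff_deriv]
  refine ⟨fun t => (chi0_hasDerivAt T t).differentiableAt, ?_⟩
  have : deriv (chi0 T) = fun t => bz (t + T) - bz (t - T) :=
    funext fun t => (chi0_hasDerivAt T t).deriv
  rw [this]
  exact (bz_cont.comp (continuous_id.add continuous_const)).sub
    (bz_cont.comp (continuous_id.sub continuous_const))

/-- **the hypotheses of the instance** -/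
theorem exists_iokB {e1 J : ℝ} (he : 0 < e1) (he1 : e1 ≤ 1 / 100) (hJ : 0 ≤ J) {ep : ℝ}
    (hep : 0 < ep) : ∃ m0 : ℕ, ∀ m ≥ m0,
    ∀ s : ℂ, InS m s → (m : ℝ) / 2 ≤ s.re ∧ s.re ≤ 2 * m ∧ ∀ ts, Adm (DD e1 m) s.im ts →
    ∀ (b0 b' : ℝ) (B1 : ℝ → ℝ), ContDiff ℝ 1 B1 → (∃ C, ∀ t, |B1 t| ≤ C) → ∀ r : ℕ,
    ∃ (dl ε M : ℝ) (e : ℝ → ℝ), IOk dl ε M ((1 - e1) * Tb (Real.log m)) e
      (inpB e1 J m s ts b0 b' B1) (par0 (MB m)) r ∧
      ε ≤ ep ∧ ε ≤ (m : ℝ) ^ (-(e1 / 2)) ∧ M ≤ Real.log m ^ 6 ∧
      dl ≤ 1 / (6000 * ((r : ℝ) + 1) ^ 2) + 3 * (m : ℝ) ^ (-(e1 / 2)) := by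
  obtain ⟨C, hC, m1, H1⟩ := exists_CurB0 he he1 (ep := min ep (1 / 100)) (by positivity) hJ
  obtain ⟨m2, H2⟩ := large_m (e1 := e1 / 2) (by positivity) C 1 (by linarith) one_pos
  obtain ⟨m3, hm3⟩ := log_large (C + 1)
  obtain ⟨A, hA, HA⟩ := row_re
  obtain ⟨Cn, hCn, Hn⟩ := exists_nuchi
  refine ⟨max m1 (max m2 m3), fun m hm s hs => ?_⟩
  have k1 : m1 ≤ m := (le_max_left _ _).trans hm
  have k2 : m2 ≤ m := ((le_max_left _ _).trans (le_max_right _ _)).trans hm
  have k3 : m3 ≤ m := ((le_max_right _ _).trans (le_max_right _ _)).trans hm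
  obtain ⟨g1, g2, g3⟩ := H1 m k1
  obtain ⟨f1, f2, f3, f4⟩ := H2 m k2
  have hlog := hm3 m k3
  obtain ⟨i1, i2, hr, g4⟩ := g3 s hs.1 hs.2.1 hs.2.2
  refine ⟨i1, i2, fun ts had b0 b' B1 hB1 hB1b r => ?_⟩
  obtain ⟨e, η', hcur, hd, cη, -, -⟩ := g4 ts had
  obtain ⟨ε, hε⟩ : ∃ ε : ℝ, ε = C * (Real.log m * (m : ℝ) ^ (-e1)) := ⟨_, rfl⟩
  rw [← hε] at hcur g2
  have e1' : etaB' e1 J m s ts = η' := funext fun t => (hd t).deriv
  have hmp : (0 : ℝ) < m := by exact_mod_cast f1
  have hm1 : (1 : ℝ) ≤ m := by exact_mod_cast f1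
  have hL0 : 0 ≤ Real.log m := by linarith
  have hT : Tb (Real.log m) = TB m := rfl
  have hT0 : 0 ≤ TB m := by linarith
  have hl := NUMF.l_pos
  have hl3 : 1 ≤ 3 * NUMF.l := by
    unfold NUMF.l
    have := Real.pi_gt_three
    linarith
  have hl0 : NUP1.l = NUMF.l := rfl
  have hd0 := d0_pos r
  have hd1 := d0_le r
  have hε0 := hcur.ε0
  have gε : ε ≤ 1 / 100 := g2.trans (min_le_right _ _)
  have q0 : ε ≤ (m : ℝ) ^ (-(e1 / 2)) := by
    have e2 : (m : ℝ) ^ (-e1) = (m : ℝ) ^ (-(e1 / 2)) * (m : ℝ) ^ (-(e1 / 2)) := by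
      rw [← Real.rpow_add hmp]
      congr 1
      ring
    have h0 : 0 ≤ (m : ℝ) ^ (-(e1 / 2)) := Real.rpow_nonneg hmp.le _
    calc ε = (C * (Real.log m * (m : ℝ) ^ (-(e1 / 2)))) * (m : ℝ) ^ (-(e1 / 2)) := by
          rw [hε, e2]; ring
      _ ≤ 1 * (m : ℝ) ^ (-(e1 / 2)) := mul_le_mul_of_nonneg_right f4 h0
      _ = _ := one_mul _
  have q1 : ε / NUMF.l ≤ 3 * ε := by
    rw [div_le_iff₀ hl]
    nlinarith
  have q2 : ∀ t, rad0 (MB m) r t / NUMF.l ≤ d0 r / 64 := by
    intro t
    rw [div_le_iff₀ hl]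
    refine (rad0_le (MB m) r t).trans ?_
    rw [hl0]
    have : (0 : ℝ) ≤ r := Nat.cast_nonneg r
    rw [div_le_iff₀ (by positivity)]
    have : 0 ≤ NUMF.l * d0 r := by positivity
    nlinarith
  have hηb : ∀ t, |etaB e1 J m s ts t| ≤ ε := hcur.O4.1
  have hηl : ∀ t, |etaB e1 J m s ts t| ≤ NUMF.l / 2 := fun t => by
    have := hηb t
    linarith
  have hVn : ∀ a, Vn (inpB e1 J m s ts b0 b' B1) a =
      fun t => -(b0 / 2) * chi0 (Tb (Real.log m)) t := fun a =>
    funext fun t => Vn_inB (by rw [hT]; exact hT0) a t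
  refine ⟨65 / 64 * d0 r + ε / NUMF.l, ε, C * Real.log m, e, ?_, g2.trans (min_le_left _ _), q0,
    ?_, ?_⟩
  · exact
      { s0 := by
          show 0 ≤ s.re
          linarith
        b0 := by
          rw [hT]
          nlinarith
        cur := by
          rw [hT]
          exact hcur
        der := fun t => by
          show HasDerivAt (etaB e1 J m s ts) (etaB' e1 J m s ts t) t
          rw [e1']
          exact hd t
        ε1 := by linarith
        pg := NUS4.pg_par0 (MB m)
        d1 := fun t => by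
          have := q2 t
          rw [par0_d, par0_rad]
          linarith
        d2 := by linarith
        Ae := fun a => by
          have h0 : NUAct.Ext (NUMF.l / 10) (fun _ : ℂ => (0 : ℂ)) :=
            ⟨fun z _ => differentiableAt_const _, 0, fun z _ => by simp⟩
          have h2 := ext_row (w := NUMF.l / 10) (by linarith) s.im h0
          refine (?_ : NUAct.Ext (NUMF.l / 10) (fun z => Complex.I * s.im * NUAct.vc z))
          simpa using h2
        Ab := fun a => by
          refine ⟨A * |s.im| * (NUMF.l / 2), fun t => ?_⟩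
          have h4 := HA s.im (etaB e1 J m s ts t) t (hηl t)
          have h5 : Real.exp (-2 * |t|) ≤ 1 := by
            rw [Real.exp_le_one_iff]
            have := abs_nonneg t
            linarith
          have h6 : 0 ≤ A * |s.im| * (NUMF.l / 2) := by positivity
          calc |(Complex.I * s.im * NUAct.vc (NUAct.zt (NUKer.iD (etaB e1 J m s ts)) t)).re|
              ≤ A * |s.im| * |etaB e1 J m s ts t| * Real.exp (-2 * |t|) := h4
            _ ≤ A * |s.im| * (NUMF.l / 2) * 1 := by
                refine mul_le_mul (mul_le_mul_of_nonneg_left (hηl t) (by positivity)) h5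
                  (Real.exp_pos _).le h6
            _ = _ := mul_one _
        Bc := fun a => (hB1.sub contDiff_const).add (contDiff_const.mul (chi0_contDiff _))
        Bb := fun a => by
          obtain ⟨C1, hC1⟩ := hB1b
          refine ⟨C1 + |(b' - b0) / 2| + |b0 / 2|, fun t => ?_⟩
          show |B1 t - (b' - b0) / 2 + -(b0 / 2) * chi0 (Tb (Real.log m)) t| ≤ _
          have h1 := chi0_mem (T := Tb (Real.log m)) (by rw [hT]; exact hT0) t
          have h2 : |-(b0 / 2) * chi0 (Tb (Real.log m)) t| ≤ |b0 / 2| := by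
            rw [abs_mul, abs_neg, abs_of_nonneg h1.1]
            exact mul_le_of_le_one_right (abs_nonneg _) h1.2
          have h3 := abs_add_le (B1 t - (b' - b0) / 2) (-(b0 / 2) * chi0 (Tb (Real.log m)) t)
          have h4 := abs_sub (B1 t) ((b' - b0) / 2)
          linarith [hC1 t]
        νc := fun a => continuous_const.mul (nu0_cont _)
        νi := fun a => ((nu0_mass (T := Tb (Real.log m)) (by rw [hT]; exact hT0)).1).const_mul _
        νb := fun a => by
          refine ⟨|b0 / 2| * Cn, fun t => ?_⟩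
          show |-(b0 / 2) * nu0 (Tb (Real.log m)) t| ≤ _
          rw [abs_mul, abs_neg]
          exact mul_le_mul_of_nonneg_left (Hn _ (by rw [hT]; exact hT0) t).1 (abs_nonneg _)
        Vc := fun a => by
          rw [hVn]
          exact contDiff_const.mul (chi0_contDiff _) }
  · have hL1 : 1 ≤ Real.log m := by linarith
    calc C * Real.log m ≤ Real.log m * Real.log m := mul_le_mul_of_nonneg_right (by linarith) hL0
      _ = Real.log m ^ 2 := by ring
      _ ≤ Real.log m ^ 6 := pow_le_pow_right₀ hL1 (by norm_num)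
  · have q3 : 65 / 64 * d0 r ≤ 1 / (6000 * ((r : ℝ) + 1) ^ 2) := by
      unfold d0
      rw [← mul_one_div (1 : ℝ), ← div_eq_mul_one_div]
      have : (0 : ℝ) < ((r : ℝ) + 1) ^ 2 := by positivity
      rw [mul_div_assoc', div_le_div_iff₀ (by positivity) (by positivity)]
      nlinarith
    linarith

/-- **the data of the gas of TARGET-B** -/
theorem datGB : DatGB := by
  intro ep hep hep1 e1 he he1 J hJ
  obtain ⟨C, hC1, HC⟩ := NUH0.exists_cutB hep hep1
  obtain ⟨Kg, hKg, HG⟩ := NUH0.exists_geo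
  obtain ⟨C0, hC0, Hν⟩ := nu_inB
  obtain ⟨m1, H1⟩ := exists_iokB he he1 hJ (ep := min (1 / Kg) (1 / 100 * ep)) (by positivity)
  have hK0 : 0 < Kg := by linarith
  refine ⟨6, e1 / 2, max C0 (3 * C + 3), by positivity, hC0.trans (le_max_left _ _),
    fun k hk κ hκ0 hκ ϑ hϑ => ?_⟩
  set CB : ℝ := max C0 (3 * C + 3) with hCBd
  have hCB0 : C0 ≤ CB := le_max_left _ _
  have hCB1 : 3 * C + 3 ≤ CB := le_max_right _ _
  have hCB : 0 ≤ CB := hC0.trans hCB0
  obtain ⟨d, hd0, hd1, m2, H2⟩ := xi_curB he he1 hJ hϑ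
  obtain ⟨m3, hm3⟩ := Filter.eventually_atTop.1 (NUI.NN_lt_self.and (Filter.eventually_ge_atTop 1))
  obtain ⟨m4, hm4⟩ := log_large (10 * C + 10)
  refine ⟨d, hd0, max (max m1 m2) (max m3 m4), fun m hm => ?_⟩
  have k1 : m1 ≤ m := ((le_max_left _ _).trans (le_max_left _ _)).trans hm
  have k2 : m2 ≤ m := ((le_max_right _ _).trans (le_max_left _ _)).trans hm
  have k3 : m3 ≤ m := ((le_max_left _ _).trans (le_max_right _ _)).trans hm
  have k4 : m4 ≤ m := ((le_max_right _ _).trans (le_max_right _ _)).trans hm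
  obtain ⟨hNN, hm1⟩ := hm3 m k3
  have hlogC := hm4 m k4
  have hm1R : (1 : ℝ) ≤ m := by exact_mod_cast hm1
  have hmp : (0 : ℝ) < m := by linarith
  have hlog : 1 ≤ Real.log m := by linarith
  have hMB1 : 1 ≤ MB m := by unfold MB; omega
  have hMB3 : (MB m : ℝ) ≤ 3 * m := MB_le hm1
  have hmMB : (m : ℝ) ≤ MB m := by
    have : m ≤ MB m := by unfold MB; omega
    exact_mod_cast this
  obtain ⟨B, B', b1, b2, b3, b4, -, b6, b7, b8, b9, b10, b11⟩ := HC (MB m) hMB1
  have hB1 : ContDiff ℝ 1 B := b1.of_le (by norm_num)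
  have hBc : Continuous B := hB1.continuous
  have hB'c : Continuous B' := by
    have h3 : deriv B = B' := funext fun t => (b2 t).deriv
    rw [← h3]
    exact hB1.continuous_deriv le_rfl
  have hBi2 : Integrable (fun t => B t ^ 2) := by
    refine b9.mono' (hBc.pow 2).aestronglyMeasurable (ae_of_all _ fun t => ?_)
    rw [Real.norm_eq_abs, abs_of_nonneg (sq_nonneg _)]
    linarith [sq_nonneg (B' t)]
  refine ⟨B, ?_, ?_⟩
  · refine ⟨hBc, b3, b4, fun t ht => b6 t ?_, ?_, ?_, hBi2, ?_⟩
    · refine le_trans ?_ ht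
      have h1 : Real.log (MB m) ≤ Real.log m + 2 := by
        have h3 : Real.log (MB m) ≤ Real.log (3 * m) :=
          Real.log_le_log (by positivity) hMB3
        rw [Real.log_mul (by norm_num) hmp.ne'] at h3
        have h4 : Real.log 3 ≤ 2 := by
          have := Real.log_le_sub_one_of_pos (show (0 : ℝ) < 3 by norm_num)
          linarith
        linarith
      have h2 : (2 : ℝ) ≤ 8 / 3 * (1 - ep) := by linarith
      have h5 : Real.log (MB m) / (8 / 3 * (1 - ep)) ≤ Real.log (MB m) / 2 := by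
        have : 0 ≤ Real.log (MB m) := Real.log_nonneg (by exact_mod_cast hMB1)
        exact div_le_div_of_nonneg_left this (by norm_num) h2
      linarith
    · have h1 := b7.const_mul ((m : ℝ) / MB m)
      refine h1.congr (ae_of_all _ fun t => ?_)
      have : (MB m : ℝ) ≠ 0 := by linarith
      simp only
      field_simp
    · have h1 : ∫ t, (m : ℝ) * NUMF.P t * B t ≤ ∫ t, (MB m : ℝ) * NUMF.P t * B t := by
        refine integral_mono_of_nonneg (ae_of_all _ fun t => ?_) b7 (ae_of_all _ fun t => ?_)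
        · have := NUMF.P_pos t
          have := b3 t
          show 0 ≤ (m : ℝ) * NUMF.P t * B t
          positivity
        · have h5 := NUMF.P_pos t
          have h6 := b3 t
          show (m : ℝ) * NUMF.P t * B t ≤ (MB m : ℝ) * NUMF.P t * B t
          gcongr
      linarith
    · have h1 : ∫ t, B t ^ 2 ≤ ∫ t, B t ^ 2 + B' t ^ 2 :=
        integral_mono hBi2 b9 fun t => by
          show B t ^ 2 ≤ B t ^ 2 + B' t ^ 2
          linarith [sq_nonneg (B' t)]
      linarith
  intro s n b0 b' ts r O hR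
  obtain ⟨i1, i2, i3⟩ := H1 m k1 s hR.hs
  obtain ⟨dl, ε, M, e, hI, hεg, hε, hM, hdl⟩ := i3 ts hR.hts b0 b' B hB1
    ⟨1, fun t => by rw [abs_of_nonneg (b3 t)]; exact b4 t⟩ r
  have hT0 : 0 ≤ Tb (Real.log m) := by
    unfold Tb
    positivity
  have hTW : Tb (Real.log m) ≤ TW ep e1 m := by
    unfold TW
    nlinarith
  have hn4 : n ≤ 4 * m := by
    have := hR.hn
    omega
  have hn4R : (n : ℝ) ≤ 4 * m := by exact_mod_cast hn4
  have hb02 : |b0| ≤ 2 := by
    have h1 := hR.hb0
    have h2 := hR.hb1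
    rw [abs_of_nonneg h1]
    linarith
  have hc : |(b' - b0) / 2| ≤ d := by
    rw [abs_div, abs_two]
    linarith [hR.hbd]
  have hεK : ε ≤ 1 / Kg := hεg.trans (min_le_left _ _)
  have hεp : ε ≤ 1 / 100 * ep := hεg.trans (min_le_right _ _)
  have hη : ∀ t, |etaB e1 J m s ts t| ≤ ε := hI.eta
  have hl := NUMF.l_pos
  have hl2 : 2 / 5 ≤ NUMF.l * 11 / 10 := by
    unfold NUMF.l
    have := Real.pi_gt_three
    linarith
  have hl0 : NUP1.l = NUMF.l := rfl
  have hηc : Continuous (etaB e1 J m s ts) :=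
    continuous_iff_continuousAt.2 fun t => (hI.der t).continuousAt
  have hcut := b11 (etaB e1 J m s ts) (fun t => by
    have := (abs_le.1 (hη t)).1
    rw [hl0]
    nlinarith) (fun t => by
    have := (abs_le.1 (hη t)).2
    rw [hl0]
    linarith)
  have hG := HG (O := O) hI (by
    rw [le_div_iff₀ hK0] at hεK
    linarith)
  have hin : inpB e1 J m s ts b0 b' B = inB s.re (etaB e1 J m s ts) (etaB' e1 J m s ts) s.im b0
      (Tb (Real.log m)) (fun _ t => B t + -((b' - b0) / 2)) := by
    unfold inpB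
    congr 1
  have hshl : Shl (datO (inpB e1 J m s ts b0 b' B) (par0 (MB m)) O)
      (aB e1 J m s ts b' O true) (aB e1 J m s ts b' O false) (cfB ep e1 J m s ts) B (CB * m)
      (8 / 3 * (1 - ep)) := by
    rw [hin] at hG ⊢
    have h1 := shl_inB (s := s.re) (y := s.im) (β := b0) (T := Tb (Real.log m))
      (c := -(b' / 2)) (c0 := -((b' - b0) / 2)) (η := etaB e1 J m s ts)
      (η1 := etaB' e1 J m s ts) (B1 := B) (P := par0 (MB m)) (CB := CB) (m := m) (M := MB m) hep1
      (by linarith : 0 ≤ C) hηc hBc b3 (fun t => (hcut t).1) (fun t => (hcut t).2) (by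
        calc C * (MB m : ℝ) ≤ C * (3 * m) := mul_le_mul_of_nonneg_left hMB3 (by linarith)
          _ = (3 * C) * m := by ring
          _ ≤ CB * m := mul_le_mul_of_nonneg_right (by linarith) hmp.le) (O := O) hT0 hR.hb0
      (by linarith) hG
    have h2 : ∀ a, aF (datO (inB s.re (etaB e1 J m s ts) (etaB' e1 J m s ts) s.im b0
        (Tb (Real.log m)) (fun _ t => B t + -((b' - b0) / 2))) (par0 (MB m)) O) (-(b' / 2)) a =
        aB e1 J m s ts b' O a := by
      intro a
      funext t
      rw [aF_inB (NUS4.pg_par0 (MB m)) (fun t => by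
        have := hη t
        linarith) (fun t => by
        have := hη t
        linarith), Complex.re_add_im]
      unfold aB
      rw [sub_eq_add_neg]
    rw [h2, h2] at h1
    exact h1
  exact
    { s1 := i1
      s2 := i2
      pk := by
        have : ((n - chgO O true : ℕ) : ℝ) ≤ n := by exact_mod_cast Nat.sub_le _ _
        linarith
      nk := by
        have : ((n - chgO O false : ℕ) : ℝ) ≤ n := by exact_mod_cast Nat.sub_le _ _
        linarith
      rk := by
        have h5 : (r : ℝ) ≤ 2 * n := by exact_mod_cast hR.hr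
        linarith
      par := parG_parM hm1 (by unfold MB; omega)
      ok := by
        have hk1 : (m : ℝ) ^ (-(e1 / 2)) ≤ (m : ℝ) ^ (-κ) :=
          Real.rpow_le_rpow_of_exponent_le hm1R (by linarith)
        exact ⟨dl, ε, M, e, hI, hε.trans hk1, hM.trans (pow_le_pow_right₀ hlog hk),
          hdl.trans (by linarith)⟩
      fld := hI.fld' hR.hc1 hR.hc2
      shl := hshl
      ν0 := fun a t => ((Hν (s := s.re) (y := s.im) (β := b0) (T := Tb (Real.log m))
        (T' := TW ep e1 m) (η := etaB e1 J m s ts) (η1 := etaB' e1 J m s ts)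
        (B := fun _ t => B t - (b' - b0) / 2) hT0 hTW hb02 a t).1).trans hCB0
      ν1 := fun a t ht => ((Hν (s := s.re) (y := s.im) (β := b0) (T := Tb (Real.log m))
        (T' := TW ep e1 m) (η := etaB e1 J m s ts) (η1 := etaB' e1 J m s ts)
        (B := fun _ t => B t - (b' - b0) / 2) hT0 hTW hb02 a t).2 ht).trans
          (mul_le_mul_of_nonneg_right hCB0 (Real.exp_pos _).le)
      xi := fun a => by
        have hx : xiO (inpB e1 J m s ts b0 b' B) a = fun t => (Complex.I * s.im *
            NUAct.vc (NUAct.zt (NUKer.iD (etaB e1 J m s ts)) t)).re +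
              (B t - (b' - b0) / 2) := by
          funext t
          unfold xiO inpB
          rw [Vn_inB hT0]
          show (Complex.I * s.im * NUAct.vc (NUAct.zt (NUKer.iD (etaB e1 J m s ts)) t)).re +
            (B t - (b' - b0) / 2 + -(b0 / 2) * chi0 (Tb (Real.log m)) t) -
              -(b0 / 2) * chi0 (Tb (Real.log m)) t = _
          ring
        rw [hx]
        have hiB : ∀ T, 0 ≤ T → ∫ t in (-(T + 1))..(T + 1), (B t ^ 2 + B' t ^ 2) ≤ C := by
          intro T hT
          rw [intervalIntegral.integral_of_le (by linarith)]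
          exact (setIntegral_le_integral b9 (ae_of_all _ fun t => by positivity)).trans b10
        obtain ⟨xi1, x1, x2, x3, x4⟩ := H2 m k2 s hR.hs.1 hR.hs.2.1 hR.hs.2.2 ts hR.hts
          ((b' - b0) / 2) hc 1 C B B' b2 hB'c
          (fun t => by rw [abs_of_nonneg (b3 t)]; exact b4 t) hiB
        exact ⟨xi1, x1, x2, fun t => (x3 t).trans (by linarith), fun T hT => (x4 T hT).trans
          (by linarith)⟩ }

end NUCR

end
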