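import Pool.Agent.NUCR.S4B
import Pool.Agent.NUO.AsmAlg
import Pool.Agent.NUO.Par0K

/-!
# TARGET-B: the inequality for one configuration

`perB_of`: the gas (`S4B`), the stability bound (`StabProd`) and the one body and branch factors
(`OneBB 12`) give `PerB`.
-/

set_option autoImplicit false

noncomputable section

open MeasureTheory Finset
open scoped ENNReal

namespace NUCR

open NUO NUStabP NUDirP NUDispW

/-! ### signs -/

theorem ob1g_nonneg {R : ℂ → ℝ} (hR : ∀ u, 0 ≤ R u) (M : ℕ) (β jL e : ℝ) {ρ : ℝ} (hρ : 0 ≤ ρ)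
    (x : Xo) : 0 ≤ ob1g R M β jL e ρ x := by
  have haS : 0 ≤ NUO.aS := aS_pos.le
  have hoS : ∀ w : ℂ, 0 ≤ oSg R M w := by
    intro w
    unfold oSg
    have h1 := hR w
    have h2 := hR (w - NUP1.l)
    positivity
  unfold ob1g
  rcases h : NUO.kd x with _ | _ | _ | _ | _
  · have h1 := hR (posL jL (ht x))
    simp only
    positivity
  · have h1 := hR (posT (ht x))
    have h2 := hR (posT (ht x) - NUP1.l)
    simp only
    positivity
  · exact hoS _
  · have h1 := hoS (posS e (ht x))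
    have h2 := hR (posV e ρ (ht x) (an x))
    simp only
    positivity
  · have h1 := hoS (posS e (ht x))
    have h2 := hR (posS e (ht x) + 2 * NUP1.l)
    simp only
    positivity

/-! ### the algebra of one configuration -/

/-- **the algebra of one configuration**, the one body bounds jointly for all objects -/
theorem conf_algB {r : ℕ} {x o u act' coll col : Fin r → ℝ} {PP EG B K C2 A c1 kap dr E R : ℝ}
    (W : Finset ℤ) (hC2 : 0 ≤ C2) (hkap0 : 0 ≤ kap) (hkap : kap ≤ c1 / 2)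
    (hdr : (r : ℝ) ^ 2 * dr ≤ r) (ho : ∀ i, 0 ≤ o i) (hcoll0 : ∀ i, 0 ≤ coll i)
    (hcoll : ∀ i, coll i ≤ Real.exp A * col i)
    (hstab : ∀ W : Finset ℤ, PP * Real.exp EG ≤
      Real.exp (C2 * r + C2 * r ^ 2 * dr) * (∏ i, coll i) *
        Real.exp (-(c1 * ∑ w ∈ W, (cnt x w : ℝ) ^ 2)))
    (hone : Real.exp E * ∏ i, (o i * Real.exp (u i + (2 * C2 + K + A)) * col i) ≤
      R * ∏ i, act' i) (hB : 0 ≤ B) :
    (∏ i, o i) * PP * (B * Real.exp (∑ i, u i + K * r + EG + kap * win univ x + E)) ≤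
      B * (R * ∏ i, act' i) * Real.exp (-(c1 / 2 * ∑ w ∈ W, (cnt x w : ℝ) ^ 2)) := by
  have hr : (0 : ℝ) ≤ r := Nat.cast_nonneg r
  have hc1 : 0 ≤ c1 := by linarith
  -- the windows
  set W' : Finset ℤ := W ∪ univ.image (fun i => ⌊x i⌋) with hW'
  set wn : ℝ := win univ x with hwn
  have hw1 : ∑ w ∈ W, (cnt x w : ℝ) ^ 2 ≤ ∑ w ∈ W', (cnt x w : ℝ) ^ 2 :=
    sum_le_sum_of_subset_of_nonneg subset_union_left fun _ _ _ => sq_nonneg _
  have hw2 : wn ≤ ∑ w ∈ W', (cnt x w : ℝ) ^ 2 :=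
    sum_le_sum_of_subset_of_nonneg subset_union_right fun _ _ _ => sq_nonneg _
  have hwn0 : 0 ≤ wn := win_nonneg _ _
  -- one body
  have hbody : Real.exp E * ((∏ i, o i) * Real.exp (∑ i, u i) * Real.exp (K * r + 2 * C2 * r) *
      (∏ i, coll i)) ≤ R * ∏ i, act' i := by
    have e1 : (∏ i, o i) * Real.exp (∑ i, u i) * Real.exp (K * r + 2 * C2 * r) *
        (∏ i, coll i) = ∏ i, (o i * Real.exp (u i + (2 * C2 + K)) * coll i) := by
      rw [prod_mul_distrib, prod_mul_distrib, ← Real.exp_sum, sum_add_distrib, sum_const,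
        card_univ, Fintype.card_fin, nsmul_eq_mul, Real.exp_add (∑ i, u i),
        show (r : ℝ) * (2 * C2 + K) = K * r + 2 * C2 * r by ring]
      ring
    rw [e1]
    refine le_trans (mul_le_mul_of_nonneg_left ?_ (Real.exp_pos _).le) hone
    refine prod_le_prod (fun i _ => mul_nonneg (mul_nonneg (ho i) (Real.exp_pos _).le)
      (hcoll0 i)) fun i _ => ?_
    calc o i * Real.exp (u i + (2 * C2 + K)) * coll i
        ≤ o i * Real.exp (u i + (2 * C2 + K)) * (Real.exp A * col i) :=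
          mul_le_mul_of_nonneg_left (hcoll i) (mul_nonneg (ho i) (Real.exp_pos _).le)
      _ = o i * Real.exp (u i + (2 * C2 + K + A)) * col i := by
          rw [show u i + (2 * C2 + K + A) = u i + (2 * C2 + K) + A by ring,
            Real.exp_add (u i + _)]
          ring
  -- everything
  have hS := hstab W'
  set S' : ℝ := ∑ w ∈ W', (cnt x w : ℝ) ^ 2 with hS'
  have hexp : Real.exp (C2 * r + C2 * r ^ 2 * dr) * Real.exp (-(c1 * S')) *
      Real.exp (K * r + kap * wn) ≤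
      Real.exp (K * r + 2 * C2 * r) *
        Real.exp (-(c1 / 2 * ∑ w ∈ W, (cnt x w : ℝ) ^ 2)) := by
    rw [← Real.exp_add, ← Real.exp_add, ← Real.exp_add]
    refine Real.exp_le_exp.2 ?_
    have h1 : C2 * r ^ 2 * dr ≤ C2 * r := by
      rw [mul_assoc]
      exact mul_le_mul_of_nonneg_left hdr hC2
    have h2 : c1 / 2 * ∑ w ∈ W, (cnt x w : ℝ) ^ 2 ≤ c1 / 2 * S' :=
      mul_le_mul_of_nonneg_left hw1 (by linarith)
    have h3 : c1 / 2 * wn ≤ c1 / 2 * S' := mul_le_mul_of_nonneg_left hw2 (by linarith)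
    have h4 : kap * wn ≤ c1 / 2 * wn := mul_le_mul_of_nonneg_right hkap hwn0
    linarith
  have hop : 0 ≤ ∏ i, o i := prod_nonneg fun i _ => ho i
  have hcp : 0 ≤ ∏ i, coll i := prod_nonneg fun i _ => hcoll0 i
  calc (∏ i, o i) * PP * (B * Real.exp (∑ i, u i + K * r + EG + kap * wn + E))
      = B * ((∏ i, o i) * Real.exp (∑ i, u i) * (PP * Real.exp EG) *
          Real.exp (K * r + kap * wn)) * Real.exp E := by
        rw [show ∑ i, u i + K * r + EG + kap * wn + E =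
          ∑ i, u i + EG + (K * r + kap * wn) + E by ring, Real.exp_add, Real.exp_add,
          Real.exp_add (∑ i, u i) EG]
        ring
    _ ≤ B * ((∏ i, o i) * Real.exp (∑ i, u i) * (Real.exp (C2 * r + C2 * r ^ 2 * dr) *
          (∏ i, coll i) * Real.exp (-(c1 * S'))) * Real.exp (K * r + kap * wn)) * Real.exp E := by
        refine mul_le_mul_of_nonneg_right ?_ (Real.exp_pos _).le
        refine mul_le_mul_of_nonneg_left ?_ hB
        refine mul_le_mul_of_nonneg_right ?_ (Real.exp_pos _).le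
        exact mul_le_mul_of_nonneg_left hS (mul_nonneg hop (Real.exp_pos _).le)
    _ = B * ((∏ i, o i) * Real.exp (∑ i, u i) * (∏ i, coll i) *
          (Real.exp (C2 * r + C2 * r ^ 2 * dr) * Real.exp (-(c1 * S')) *
          Real.exp (K * r + kap * wn))) * Real.exp E := by ring
    _ ≤ B * ((∏ i, o i) * Real.exp (∑ i, u i) * (∏ i, coll i) *
          (Real.exp (K * r + 2 * C2 * r) *
            Real.exp (-(c1 / 2 * ∑ w ∈ W, (cnt x w : ℝ) ^ 2)))) * Real.exp E := by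
        refine mul_le_mul_of_nonneg_right ?_ (Real.exp_pos _).le
        refine mul_le_mul_of_nonneg_left ?_ hB
        exact mul_le_mul_of_nonneg_left hexp (mul_nonneg (mul_nonneg hop (Real.exp_pos _).le) hcp)
    _ = B * (Real.exp E * ((∏ i, o i) * Real.exp (∑ i, u i) * Real.exp (K * r + 2 * C2 * r) *
          (∏ i, coll i))) * Real.exp (-(c1 / 2 * ∑ w ∈ W, (cnt x w : ℝ) ^ 2)) := by ring
    _ ≤ _ := by
        refine mul_le_mul_of_nonneg_right ?_ (Real.exp_pos _).le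
        exact mul_le_mul_of_nonneg_left hbody hB

/-! ### the parameters -/

theorem parB_par0 (M : ℕ) : ParB (par0 M) where
  j1 := by rw [par0_jL]; norm_num
  j2 := by rw [par0_jL]; norm_num
  e1 := by rw [par0_e]; norm_num
  d0 := d0_pos
  e2 := fun r => by have := d0_le r; rw [par0_e, par0_d]; linarith
  rm := rad0_meas M
  r0 := rad0_pos M
  r1 := fun r t => by
    rw [par0_rad, par0_d]
    refine (rad0_le M r t).trans ?_
    have h1 := d0_pos r
    have h2 := l_pos0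
    have h4 : (0 : ℝ) ≤ r := Nat.cast_nonneg r
    apply div_le_div_of_nonneg_left (by positivity) (by positivity)
    linarith

/-! ### the energy of the current -/

theorem kap0_val : kap0 = 9 * Real.pi ^ 2 / 32 := rfl

/-- the quadratic term of the current with the half length `DB` against the one with `T` -/
theorem quad_le {e1 : ℝ} (he1 : 0 < e1) (he : e1 ≤ 1 / 100) : ∃ m0 : ℕ, ∀ m ≥ m0, ∀ y : ℝ,
    -(Real.pi / 4 * NUI.XX c0 m) ≤ y → y ≤ 17 / 10 * NUI.XX c0 m →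
    y ^ 2 / (2 * (DD e1 m / kap0)) ≤ y ^ 2 / (2 * NUI.XX c0 m) + e1 * Real.log m + 2 := by
  obtain ⟨m0, hm0⟩ := (Real.tendsto_log_atTop.comp tendsto_natCast_atTop_atTop).eventually
    (Filter.eventually_ge_atTop (1000 : ℝ)) |>.exists_forall_of_atTop
  refine ⟨m0, fun m hm y hy1 hy2 => ?_⟩
  have hL : (1000 : ℝ) ≤ Real.log m := hm0 m hm
  have hpi := Real.pi_gt_three
  have hpi2 := Real.pi_lt_d2
  have hk := kap0_pos
  have hkv := kap0_val
  have hsq1 : (9 : ℝ) ≤ Real.pi ^ 2 := by nlinarith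
  have hk2 : 2 ≤ kap0 := by rw [hkv]; linarith
  have eX : NUI.XX c0 m = TB m / kap0 := XX_eq m
  obtain ⟨X, hX⟩ : ∃ X, X = NUI.XX c0 m := ⟨_, rfl⟩
  rw [← hX] at hy1 hy2 eX ⊢
  have eT : TB m = kap0 * X := by
    rw [eX]
    field_simp
  have hXL : X ≤ 3 / 8 * Real.log m / 2 := by
    rw [eX]
    unfold TB
    exact div_le_div_of_nonneg_left (by linarith) (by norm_num) hk2
  have hX0 : 100 ≤ X := by
    have h1 : kap0 ≤ 3 := by rw [hkv]; nlinarith
    have h2 : 3 / 8 * Real.log m / 3 ≤ X := by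
      rw [eX]
      unfold TB
      exact div_le_div_of_nonneg_left (by linarith) hk h1
    linarith
  have eD : DD e1 m / kap0 = (1 - e1) * X - 1 / kap0 := by
    unfold DD
    rw [eT]
    field_simp
  obtain ⟨Y, hY⟩ : ∃ Y, Y = DD e1 m / kap0 := ⟨_, rfl⟩
  rw [← hY] at eD ⊢
  have hk3 : 1 / kap0 ≤ 1 / 2 := one_div_le_one_div_of_le (by norm_num) hk2
  have hk4 : 0 < 1 / kap0 := by positivity
  have hY1 : 98 / 100 * X ≤ Y := by rw [eD]; nlinarith
  have hXp : 0 < X := by linarith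
  have hYp : 0 < Y := by linarith
  have hy : y ^ 2 ≤ 289 / 100 * X ^ 2 := by
    have h1 : |y| ≤ 17 / 10 * X := by
      rw [abs_le]
      refine ⟨?_, hy2⟩
      nlinarith
    have h2 := pow_le_pow_left₀ (abs_nonneg y) h1 2
    rw [sq_abs] at h2
    linarith
  have e1' : y ^ 2 / (2 * Y) - y ^ 2 / (2 * X) = y ^ 2 * (X - Y) / (2 * X * Y) := by
    field_simp
  have h3 : X - Y = e1 * X + 1 / kap0 := by rw [eD]; ring
  have h4 : y ^ 2 * (X - Y) / (2 * X * Y) ≤ 3 / 2 * (e1 * X + 1 / kap0) := by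
    rw [h3, div_le_iff₀ (by positivity)]
    have h5 : 0 ≤ e1 * X + 1 / kap0 := by positivity
    have h6 : 289 / 100 * X ^ 2 ≤ 3 / 2 * (2 * X * Y) := by nlinarith
    calc y ^ 2 * (e1 * X + 1 / kap0) ≤ 289 / 100 * X ^ 2 * (e1 * X + 1 / kap0) :=
          mul_le_mul_of_nonneg_right hy h5
      _ ≤ 3 / 2 * (2 * X * Y) * (e1 * X + 1 / kap0) := mul_le_mul_of_nonneg_right h6 h5
      _ = _ := by ring
  have h7 : 3 / 2 * (e1 * X + 1 / kap0) ≤ e1 * Real.log m + 2 := by nlinarith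
  linarith

/-! ### the theorem -/

/-- **`PerB`** from the curve, the gas, the stability bound, the one body and branch factors -/
theorem perB_of (h4 : S4B) (hS : StabProd) (h1 : OneBB 12) : PerB := by
  obtain ⟨C2, c1, hC2, hc1, hstab⟩ := hS
  obtain ⟨K, Ca, c', hK, hCa, hc', h4⟩ := h4
  obtain ⟨C, c, b, k, hC, hc, hb, hone⟩ := h1 (2 * C2 + K + (C2 * 6144 + 1) * 4)
  refine ⟨C, c, b, c1 / 2, c', Ca + 1, k, hC, hc, hb, by positivity, hc', by linarith, ?_⟩
  intro ep hep hep1 e1 he1 he11 J hJ δ hδ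
  obtain ⟨CK, C', hCK, hC', m1, hone⟩ := hone ep hep hep1 e1 he1 he11 J hJ
  obtain ⟨d, Cst, hd, hCst, m0, h4⟩ :=
    h4 (c1 / 2) (by positivity) ep hep hep1 e1 he1 he11 J hJ δ hδ
  obtain ⟨m2, hcur⟩ := curOK hep he1 he11 hJ
  obtain ⟨m3, hq⟩ := quad_le he1 he11
  refine ⟨d, C', Cst * Real.exp (CK + 2), hd, hC', by positivity, max (max m0 m1) (max (max m2 m3) 3),
    fun m hm => ⟨MB m, tB e1 m, par0 (MB m), parB_par0 _, Nat.le_succ _, ?_⟩⟩
  have hm0 : m0 ≤ m := ((le_max_left _ _).trans (le_max_left _ _)).trans hm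
  have hm1 : m1 ≤ m := ((le_max_right _ _).trans (le_max_left _ _)).trans hm
  have hm2 : m2 ≤ m := (((le_max_left _ _).trans (le_max_left _ _)).trans (le_max_right _ _)).trans hm
  have hm3 : m3 ≤ m := (((le_max_right _ _).trans (le_max_left _ _)).trans (le_max_right _ _)).trans hm
  have hm4 : 3 ≤ m := ((le_max_right _ _).trans (le_max_right _ _)).trans hm
  have hmr : (1 : ℝ) ≤ m := by exact_mod_cast (by omega : 1 ≤ m)
  have hmp : (0 : ℝ) < m := by linarith
  intro s hs n hn b0 hb0 hb1 b' hb' r hr O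
  obtain ⟨ts, had, hone⟩ := hone m hm1 s hs r O
  refine ⟨etaB e1 J m s ts, etaB' e1 J m s ts, hcur m hm2 s hs ts had, fun W => ?_⟩
  unfold Fng
  by_cases hchg : chgO O true ≤ n ∧ chgO O false ≤ n
  swap
  · rw [if_neg hchg, mul_zero]
    exact zero_le
  rw [if_pos hchg]
  obtain ⟨E1, hE1⟩ : ∃ E1, E1 = ∫ t, NUMF.P t * NUMF.v t := ⟨_, rfl⟩
  obtain ⟨IF, hIF⟩ : ∃ IF : ℝ, IF = if (r : ℝ) ≤ Real.log m then 1 else
    Real.exp (c' * Real.log m) := ⟨_, rfl⟩
  have hIF0 : 0 ≤ IF := by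
    rw [hIF]
    split_ifs
    · exact zero_le_one
    · exact (Real.exp_pos _).le
  set B : ℝ := Cst * Real.exp (E1 * s.re ^ 2) * Real.exp (c0 * b0 ^ 2 * Real.log m) *
      (m : ℝ) ^ (3 / 8 + Ca * (ep + e1) + δ) * IF with hBdef
  have hB : 0 ≤ B := by positivity
  set R : ℝ := Real.exp (-(s.im ^ 2 * E1) + s.im ^ 2 / (2 * (DD e1 m / kap0)) + CK) with hR
  have hobj0 : ∀ i, 0 ≤ ob1g (RNB s (tB e1 m)) (MB m) (4 / 3 * (1 - ep)) (par0 (MB m)).jL
      (ei (par0 (MB m)) O i) (rr (par0 (MB m)) O i) (O i) := fun i =>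
    ob1g_nonneg (RNB_nonneg s _) _ _ _ _ (rad0_pos _ _ _).le _
  have hdr : (r : ℝ) ^ 2 * (par0 (MB m)).d r ≤ r := by
    rcases Nat.eq_zero_or_pos r with h | h
    · simp [h]
    · have h1 := d0_sq r
      have h2 : (1 : ℝ) ≤ r := by exact_mod_cast h
      rw [par0_d]
      linarith
  have key := conf_algB (x := fun i => ht (O i))
    (o := fun i => ob1g (RNB s (tB e1 m)) (MB m) (4 / 3 * (1 - ep)) (par0 (MB m)).jL
      (ei (par0 (MB m)) O i) (rr (par0 (MB m)) O i) (O i))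
    (u := fun i => oneEB (par0 (MB m)) m s e1 J ts (TWB ep e1 m) O i)
    (act' := fun i => act C C' c b k (Real.log m) ep e1 J r (ht (O i)))
    (coll := fun i => collC C2 4 (par0 (MB m)) r (O i))
    (col := fun i => colK (((r : ℝ) + 1) ^ 12) (NUO.kd (O i)))
    (PP := ∏ i, ∏ j, if i < j then pairN (par0 (MB m)) O i j else 1) (EG := enC O) (B := B)
    (K := K) (C2 := C2) (A := (C2 * 6144 + 1) * 4) (c1 := c1) (kap := c1 / 2)
    (dr := (par0 (MB m)).d r) (E := En s.im (deriv (jB e1 J m s.im ts))) (R := R) W hC2.le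
    (by positivity) le_rfl hdr hobj0 (fun i => collC_nonneg hC2.le (d0_pos r) _)
    (fun i => coll_bd hC2.le (by norm_num) (d0_pos r) (d0_inv r).le _)
    (fun W => hstab (par0 (MB m)) rfl rfl r (small_par0 _ r) O W)
    (by rw [hR, hE1]; exact hone) hB
  have hobj : 0 ≤ objWg (RNB s (tB e1 m)) (MB m) (4 / 3 * (1 - ep)) (par0 (MB m)) O := by
    unfold objWg
    refine mul_nonneg (prod_nonneg fun i _ => hobj0 i) ?_
    refine prod_nonneg fun i _ => prod_nonneg fun j _ => ?_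
    split_ifs
    · exact pairN_nonneg _ _ _ _
    · exact zero_le_one
  have h5 := h4 m hm0 s hs n hn b0 hb0 hb1 b' hb' ts had r hr O hchg.1 hchg.2
  rw [← hE1, ← hIF, ← hBdef] at h5
  -- the prefactor
  have hfac : B * (R * ∏ i, act C C' c b k (Real.log m) ep e1 J r (ht (O i))) *
      Real.exp (-(c1 / 2 * ∑ w ∈ W, (cnt (fun i => ht (O i)) w : ℝ) ^ 2)) ≤
      Cst * Real.exp (CK + 2) * MFB m s b0 * (m : ℝ) ^ (3 / 8 + (Ca + 1) * (ep + e1) + δ) * IF *
        (∏ i, act C C' c b k (Real.log m) ep e1 J r (ht (O i))) *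
        Real.exp (-(c1 / 2 * ∑ w ∈ W, (cO O w : ℝ) ^ 2)) := by
    have hL0 : 0 ≤ Real.log m := Real.log_nonneg hmr
    have hact0 : 0 ≤ ∏ i, act C C' c b k (Real.log m) ep e1 J r (ht (O i)) :=
      prod_nonneg fun i _ => act_nonneg hC.le hC' hL0
    have hq1 := hq m hm3 s.im hs.2.1 hs.2.2
    have g1 : R ≤ Real.exp (-(s.im ^ 2 * (E1 - 1 / (2 * NUI.XX c0 m)))) * Real.exp (CK + 2) *
        (m : ℝ) ^ (ep + e1) := by
      rw [hR, Real.rpow_def_of_pos hmp, ← Real.exp_add, ← Real.exp_add]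
      refine Real.exp_le_exp.2 ?_
      have e2 : s.im ^ 2 * (E1 - 1 / (2 * NUI.XX c0 m)) =
          s.im ^ 2 * E1 - s.im ^ 2 / (2 * NUI.XX c0 m) := by ring
      have e3 : 0 ≤ ep * Real.log m := mul_nonneg hep.le hL0
      rw [e2]
      nlinarith
    have g2 : (m : ℝ) ^ (3 / 8 + (Ca + 1) * (ep + e1) + δ) =
        (m : ℝ) ^ (3 / 8 + Ca * (ep + e1) + δ) * (m : ℝ) ^ (ep + e1) := by
      rw [← Real.rpow_add hmp]
      congr 1
      ring
    have g3 : ∀ w, cO O w = cnt (fun i => ht (O i)) w := fun w => rfl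
    simp only [g3]
    refine mul_le_mul_of_nonneg_right ?_ (Real.exp_pos _).le
    have e4 : B * (R * ∏ i, act C C' c b k (Real.log m) ep e1 J r (ht (O i))) =
        B * R * ∏ i, act C C' c b k (Real.log m) ep e1 J r (ht (O i)) := by ring
    rw [e4]
    refine mul_le_mul_of_nonneg_right ?_ hact0
    refine (mul_le_mul_of_nonneg_left g1 hB).trans (le_of_eq ?_)
    rw [g2]
    unfold MFB
    rw [hBdef, ← hE1]
    ring
  rw [← hIF]
  calc ENNReal.ofReal (Real.exp (b' * (s.re - n))) *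
        (ENNReal.ofReal (objWg (RNB s (tB e1 m)) (MB m) (4 / 3 * (1 - ep)) (par0 (MB m)) O) *
          Z1g (RNB s (tB e1 m)) (MB m) (4 / 3 * (1 - ep)) (par0 (MB m)) (etaB e1 J m s ts)
            (etaB' e1 J m s ts) O (n - chgO O true) (n - chgO O false))
      = ENNReal.ofReal (objWg (RNB s (tB e1 m)) (MB m) (4 / 3 * (1 - ep)) (par0 (MB m)) O) *
        (ENNReal.ofReal (Real.exp (b' * (s.re - n))) *
          Z1g (RNB s (tB e1 m)) (MB m) (4 / 3 * (1 - ep)) (par0 (MB m)) (etaB e1 J m s ts)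
            (etaB' e1 J m s ts) O (n - chgO O true) (n - chgO O false)) := by ring
    _ ≤ ENNReal.ofReal (objWg (RNB s (tB e1 m)) (MB m) (4 / 3 * (1 - ep)) (par0 (MB m)) O) *
        ENNReal.ofReal (B * Real.exp (confEB (par0 (MB m)) m s e1 J ts (TWB ep e1 m) K
          (c1 / 2) O)) := mul_le_mul_right h5 _
    _ = ENNReal.ofReal (objWg (RNB s (tB e1 m)) (MB m) (4 / 3 * (1 - ep)) (par0 (MB m)) O *
        (B * Real.exp (confEB (par0 (MB m)) m s e1 J ts (TWB ep e1 m) K (c1 / 2) O))) :=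
        (ENNReal.ofReal_mul hobj).symm
    _ ≤ ENNReal.ofReal (B * (R * ∏ i, act C C' c b k (Real.log m) ep e1 J r (ht (O i))) *
      Real.exp (-(c1 / 2 * ∑ w ∈ W, (cnt (fun i => ht (O i)) w : ℝ) ^ 2))) :=
        ENNReal.ofReal_le_ofReal key
    _ ≤ _ := ENNReal.ofReal_le_ofReal hfac

end NUCR

end
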