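import Pool.Agent.NUCR.R4Bw
import Pool.Agent.NUP1S.Abs

/-!
# R4B: the representation corollary for a complex number of rows
-/

set_option autoImplicit false

noncomputable section

open Complex MeasureTheory Finset
open scoped ENNReal

namespace NUCR

open NUO NUP1 NUP1S NUP1S.Ab

/-- one configuration: line form ≤ positive gas on the curve -/
theorem FO_le_Fng {ep : ℝ} (h0 : 0 < ep) (h1 : ep ≤ 1 / 100) (M : ℕ) (tc : ℝ) {P : NUO.Par}
    (hP : ParB P) (s : ℂ) {η η' : ℝ → ℝ} (hη : CurB ep η η') (n : ℕ) {r : ℕ} (O : Fin r → Xo) :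
    FO (XBw ep M tc s) P n O ≤ Fng (RNB s tc) M (4 / 3 * (1 - ep)) P η η' n O := by
  unfold FO FF Fng
  by_cases hc : chgO O true ≤ n ∧ chgO O false ≤ n
  · rw [if_pos hc, if_pos hc]
    have hw : WW (oX (XBw ep M tc s) P O) (cons P O) = _ := WW_XBw M tc s hP O
    rw [hw]
    refine mul_le_mul_right ?_ _
    exact gasB_le h0 h1 M tc hP s hη O (by omega)
  · rw [if_neg hc]
    exact zero_le

/-- **R4B** -/
theorem r4B : R4B := by
  intro ep h0 h1 M tc P hP
  have hl := lposG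
  refine ⟨NUP1.l / 4, -(19 / 10 * NUP1.l), 3 * NUP1.l / 2, 5 / 4 * NUP1.l, -(19 / 10 * NUP1.l),
    -(11 / 10 * NUP1.l), -(33 / 20 * NUP1.l), -(NUP1.l / 2), -(9 / 10 * NUP1.l), -(NUP1.l / 2),
    lX P, lY P, par_std h0 (by linarith), by linarith, lnOk_B hP, fun s η η' hη n => ?_⟩
  have h := Zobj_le' (X := XBw ep M tc s) hP.goodP hP.rm (measurable_XBw ep M tc s)
    (κ := 2 * (4 / 3 * (1 - ep))) (by linarith) (diff_XA h0 h1 M tc s) (dec_XA h0 h1 M tc s) n
  refine h.trans (Finset.sum_le_sum fun r _ => mul_le_mul_right (lintegral_mono fun O => ?_) _)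
  exact FO_le_Fng h0 h1 M tc hP s (hη r O) n O

end NUCR

end
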