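import Pool.Agent.NUCR.GlueB
import Pool.Agent.NUCR.R4B
import Pool.Agent.NUCR.AsmB
import Pool.Agent.NUM3.Certs4

/-!
# TARGET-B: the last glue

`target_of_SO`: `S4B → OneBB 12 → NUI.Target` (representation `r4B` and stability bound plugged in).
-/

set_option autoImplicit false

noncomputable section

namespace NUCR

/-- **TARGET-B** from the bound of the gas and the one body bounds -/
theorem target_of_SO (h4 : S4B) (h1 : OneBB 12) : NUI.Target :=
  target_of r4B (perB_of h4 Pool.Agent.NUM3.stabProd h1)

end NUCR
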