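import Pool.Agent.NUO.SEval
import Pool.Agent.NUP.MF.Strip

/-!
# Derivatives of the row potential `vc` on a strip

`|vc' z|, |vc'' z| ≤ A exp (-2 |Re z|)` for `|Im z| ≤ b < l`.
-/

set_option autoImplicit false

open MeasureTheory Set Filter Topology Complex

namespace NUCR

open NUMF

noncomputable section

/-- the derivative of the row potential -/
def vd (z : ℂ) : ℂ := -(2 * (1 + r)) * (Complex.sinh (2 * z) /
  ((Complex.cosh (2 * z) + 1) * (Complex.cosh (2 * z) - r)))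

/-- its derivative -/
def vdd (z : ℂ) : ℂ := -(2 * (1 + r)) * ((2 * Complex.cosh (2 * z) *
  ((Complex.cosh (2 * z) + 1) * (Complex.cosh (2 * z) - r)) - Complex.sinh (2 * z) *
    (2 * Complex.sinh (2 * z) * (Complex.cosh (2 * z) - r) +
      (Complex.cosh (2 * z) + 1) * (2 * Complex.sinh (2 * z)))) /
  ((Complex.cosh (2 * z) + 1) * (Complex.cosh (2 * z) - r)) ^ 2)

lemma slit_ne {z : ℂ} (hz : |z.im| < l) : Complex.cosh (2 * z) + 1 ≠ 0 ∧
    Complex.cosh (2 * z) - (r : ℂ) ≠ 0 := by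
  obtain ⟨s1, s2⟩ := slit_v hz
  exact ⟨Complex.slitPlane_ne_zero s1, Complex.slitPlane_ne_zero s2⟩

lemma vd_eq {z : ℂ} (hz : |z.im| < l) : 2 * Complex.sinh (2 * z) / (Complex.cosh (2 * z) + 1) -
    2 * Complex.sinh (2 * z) / (Complex.cosh (2 * z) - r) = vd z := by
  obtain ⟨h1, h2⟩ := slit_ne hz
  unfold vd
  field_simp
  ring

lemma hasDerivAt_vcN {z : ℂ} (hz : |z.im| < l) : HasDerivAt NUMF.vc (vd z) z :=
  (NUMF.hasDerivAt_vc hz).congr_deriv (vd_eq hz)

lemma Ty_eq {y : ℝ} {z : ℂ} (h : |z.im| + |y| < Real.pi / 2) :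
    NUAct.Ty y z = 2 * Complex.sinh (2 * z) / (Complex.cosh (2 * z) + (Real.cos (2 * y) : ℝ)) := by
  have h1 : Complex.cosh (z + y * I) ≠ 0 := cosh_ne (NUAct.im_add_lt h)
  have h2 : Complex.cosh (z - y * I) ≠ 0 := cosh_ne (NUAct.im_sub_lt h)
  have e1 : 2 * (Complex.cosh (z + y * I) * Complex.cosh (z - y * I)) =
      Complex.cosh (2 * z) + (Real.cos (2 * y) : ℝ) := by
    have a1 := Complex.cosh_add (z + y * I) (z - y * I)
    have a2 := Complex.cosh_sub (z + y * I) (z - y * I)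
    rw [show z + y * I + (z - y * I) = 2 * z by ring] at a1
    rw [show z + y * I - (z - y * I) = (2 * y : ℝ) * I by push_cast; ring, Complex.cosh_mul_I] at a2
    push_cast at a2 ⊢
    rw [a1, a2]
    ring
  have e2 : Complex.sinh (z + y * I) * Complex.cosh (z - y * I) +
      Complex.cosh (z + y * I) * Complex.sinh (z - y * I) = Complex.sinh (2 * z) := by
    have a1 := Complex.sinh_add (z + y * I) (z - y * I)
    rw [show z + y * I + (z - y * I) = 2 * z by ring] at a1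
    rw [a1]
  rw [← e1, ← e2]
  unfold NUAct.Ty
  field_simp

/-- the two forms of the row potential have the same derivative -/
lemma hasDerivAt_vcA {z : ℂ} (hz : |z.im| < l) : HasDerivAt NUAct.vc (vd z) z := by
  refine (NUAct.hasDerivAt_vc hz).congr_deriv ?_
  rw [Ty_eq (NUAct.a0 hz), Ty_eq (NUAct.a3 hz), ← vd_eq hz]
  have e : Real.cos (2 * (3 * l)) = -r := by
    rw [r_eq]
    rw [show 2 * (3 * l) = Real.pi - Real.pi / 4 by unfold l; ring, Real.cos_pi_sub]
  rw [e, mul_zero, Real.cos_zero]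
  push_cast
  ring

lemma hasDerivAt_vd {z : ℂ} (hz : |z.im| < l) : HasDerivAt vd (vdd z) z := by
  obtain ⟨s1, s2⟩ := slit_ne hz
  have h0 : HasDerivAt (fun z : ℂ => 2 * z) 2 z := by
    simpa using (hasDerivAt_id z).const_mul (2 : ℂ)
  have hc := h0.ccosh
  have hs := h0.csinh
  have hd := (hc.add_const 1).mul (hc.sub_const (r : ℂ))
  have h := (hs.div hd (mul_ne_zero s1 s2)).const_mul (-(2 * (1 + (r : ℂ))))
  refine h.congr_deriv ?_
  simp only [Pi.mul_apply]
  unfold vdd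
  ring

/-- bounds -/
lemma sc_bounds {b : ℝ} (hb0 : 0 ≤ b) (hb : b < l) {z : ℂ} (hz : |z.im| ≤ b) :
    0 < Real.cos (2 * b) - r ∧ ‖Complex.sinh (2 * z)‖ ≤ Real.cosh (2 * z.re) ∧
    ‖Complex.cosh (2 * z)‖ ≤ Real.cosh (2 * z.re) ∧
    Real.cos (2 * b) * Real.cosh (2 * z.re) ≤ ‖Complex.cosh (2 * z) + 1‖ ∧
    (Real.cos (2 * b) - r) * Real.cosh (2 * z.re) ≤ ‖Complex.cosh (2 * z) - r‖ := by
  have hpi := Real.pi_pos
  have hr := r_pos
  have h1 := Real.one_le_cosh (2 * z.re)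
  have hc : r < Real.cos (2 * b) := by
    rw [r_eq]
    refine Real.cos_lt_cos_of_nonneg_of_le_pi (by linarith) (by linarith) ?_
    unfold l at hb
    linarith
  have e1 := re_two_mul z
  have e2 := im_two_mul z
  have hcb : Real.cos (2 * b) ≤ Real.cos (2 * z.im) := by
    rw [← Real.cos_abs (2 * z.im)]
    refine Real.cos_le_cos_of_nonneg_of_le_pi (abs_nonneg _) ?_ ?_
    · unfold l at hb
      linarith
    · rw [abs_mul, abs_two]
      linarith
  have hre : (Complex.cosh (2 * z)).re = Real.cosh (2 * z.re) * Real.cos (2 * z.im) := by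
    rw [re_cosh, e1, e2]
  refine ⟨by linarith, ?_, ?_, ?_, ?_⟩
  · have h2 := NUAct.norm_sinh_sq' (2 * z)
    rw [e1, e2] at h2
    refine le_of_sq_le_sq ?_ (by linarith)
    rw [h2, Real.cosh_sq]
    nlinarith [Real.sin_sq_le_one (2 * z.im)]
  · have h2 := NUAct.norm_cosh_sq' (2 * z)
    rw [e1, e2] at h2
    refine le_of_sq_le_sq ?_ (by linarith)
    rw [h2, Real.cosh_sq]
    nlinarith [Real.cos_sq_le_one (2 * z.im)]
  · refine le_trans ?_ (Complex.re_le_norm _)
    rw [Complex.add_re, Complex.one_re, hre]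
    nlinarith
  · refine le_trans ?_ (Complex.re_le_norm _)
    rw [Complex.sub_re, Complex.ofReal_re, hre]
    nlinarith

lemma cosh_ge_exp (x : ℝ) : Real.exp |x| / 2 ≤ Real.cosh x := by
  rw [← Real.cosh_abs, Real.cosh_eq]
  have := Real.exp_pos (-|x|)
  linarith

/-- **derivatives of the row potential** -/
theorem vd_bound {b : ℝ} (hb0 : 0 ≤ b) (hb : b < l) : ∃ A : ℝ, 0 ≤ A ∧ ∀ z : ℂ, |z.im| ≤ b →
    ‖vd z‖ ≤ A * Real.exp (-2 * |z.re|) ∧ ‖vdd z‖ ≤ A * Real.exp (-2 * |z.re|) := by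
  have hr := r_pos
  have hr1 := r_lt_one
  have h0 : 0 < Real.cos (2 * b) - r := (sc_bounds hb0 hb (z := 0) (by simpa using hb0)).1
  obtain ⟨c, hcd⟩ : ∃ c : ℝ, c = Real.cos (2 * b) - r := ⟨_, rfl⟩
  rw [← hcd] at h0
  refine ⟨4 * (4 / c ^ 2 + 6 * 4 / c ^ 4), by positivity, fun z hz => ?_⟩
  obtain ⟨-, b1, b2, b3, b4⟩ := sc_bounds hb0 hb hz
  rw [← hcd] at b4
  obtain ⟨C, hC⟩ : ∃ C : ℝ, C = Real.cosh (2 * z.re) := ⟨_, rfl⟩
  rw [← hC] at b1 b2 b3 b4
  have hC1 : 1 ≤ C := by rw [hC]; exact Real.one_le_cosh _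
  have hC0 : 0 < C := by linarith
  have b3' : c * C ≤ ‖Complex.cosh (2 * z) + 1‖ := by
    refine le_trans ?_ b3
    nlinarith
  obtain ⟨X, hX⟩ : ∃ X : ℝ, X = ‖Complex.cosh (2 * z) + 1‖ := ⟨_, rfl⟩
  obtain ⟨Y, hY⟩ : ∃ Y : ℝ, Y = ‖Complex.cosh (2 * z) - (r : ℂ)‖ := ⟨_, rfl⟩
  have hcC : 0 < c * C := by positivity
  have hX0 : 0 < X := by rw [hX]; linarith
  have hY0 : 0 < Y := by rw [hY]; linarith
  have hinv : 1 / C ≤ 2 * Real.exp (-2 * |z.re|) := by
    have h1 := cosh_ge_exp (2 * z.re)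
    rw [← hC, abs_mul, abs_two] at h1
    have h2 := Real.exp_pos (2 * |z.re|)
    rw [div_le_iff₀ hC0]
    have h3 : Real.exp (-2 * |z.re|) * Real.exp (2 * |z.re|) = 1 := by
      rw [← Real.exp_add]
      simp
    have h4 := Real.exp_pos (-2 * |z.re|)
    nlinarith
  have hXY : c ^ 2 * C ^ 2 ≤ X * Y := by
    calc c ^ 2 * C ^ 2 = (c * C) * (c * C) := by ring
      _ ≤ X * Y := mul_le_mul (by rw [hX]; exact b3') (by rw [hY]; exact b4) hcC.le hX0.le
  have n0 : ‖(-(2 * (1 + (r : ℂ))))‖ ≤ 4 := by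
    have : (-(2 * (1 + (r : ℂ)))) = ((-(2 * (1 + r)) : ℝ) : ℂ) := by push_cast; ring
    rw [this, Complex.norm_real, Real.norm_eq_abs, abs_le]
    constructor <;> linarith
  have hE := Real.exp_pos (-2 * |z.re|)
  have hXle : X ≤ 2 * C := by
    rw [hX]
    refine (norm_add_le _ _).trans ?_
    rw [norm_one]
    linarith
  have hYle : Y ≤ 2 * C := by
    rw [hY]
    refine (norm_sub_le _ _).trans ?_
    rw [Complex.norm_real, Real.norm_eq_abs, abs_of_pos hr]
    linarith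
  constructor
  · have n1 : ‖Complex.sinh (2 * z) / ((Complex.cosh (2 * z) + 1) * (Complex.cosh (2 * z) - r))‖ ≤
        1 / c ^ 2 * (1 / C) := by
      rw [norm_div, norm_mul, ← hX, ← hY]
      calc ‖Complex.sinh (2 * z)‖ / (X * Y) ≤ C / (c ^ 2 * C ^ 2) :=
            div_le_div₀ hC0.le b1 (by positivity) hXY
        _ = _ := by field_simp
    unfold vd
    rw [norm_mul]
    calc _ ≤ 4 * (1 / c ^ 2 * (1 / C)) := mul_le_mul n0 n1 (norm_nonneg _) (by norm_num)
      _ ≤ 4 * (1 / c ^ 2 * (2 * Real.exp (-2 * |z.re|))) := by gcongr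
      _ = 4 * (2 / c ^ 2) * Real.exp (-2 * |z.re|) := by ring
      _ ≤ _ := by
          refine mul_le_mul_of_nonneg_right ?_ hE.le
          have : 2 / c ^ 2 ≤ 4 / c ^ 2 + 6 * 4 / c ^ 4 := by
            have e1 : 2 / c ^ 2 ≤ 4 / c ^ 2 := by gcongr; norm_num
            have e2 : 0 ≤ 6 * 4 / c ^ 4 := by positivity
            linarith
          linarith
  · have n1 : ‖(2 * Complex.cosh (2 * z) *
        ((Complex.cosh (2 * z) + 1) * (Complex.cosh (2 * z) - r)) - Complex.sinh (2 * z) *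
          (2 * Complex.sinh (2 * z) * (Complex.cosh (2 * z) - r) +
            (Complex.cosh (2 * z) + 1) * (2 * Complex.sinh (2 * z)))) /
        ((Complex.cosh (2 * z) + 1) * (Complex.cosh (2 * z) - r)) ^ 2‖ ≤
        (2 / c ^ 2 + 8 / c ^ 4) * (1 / C) := by
      have e1 : (2 * Complex.cosh (2 * z) *
        ((Complex.cosh (2 * z) + 1) * (Complex.cosh (2 * z) - r)) - Complex.sinh (2 * z) *
          (2 * Complex.sinh (2 * z) * (Complex.cosh (2 * z) - r) +
            (Complex.cosh (2 * z) + 1) * (2 * Complex.sinh (2 * z)))) /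
        ((Complex.cosh (2 * z) + 1) * (Complex.cosh (2 * z) - r)) ^ 2 =
        2 * Complex.cosh (2 * z) / ((Complex.cosh (2 * z) + 1) * (Complex.cosh (2 * z) - r)) -
        Complex.sinh (2 * z) * (2 * Complex.sinh (2 * z) * (Complex.cosh (2 * z) - r) +
            (Complex.cosh (2 * z) + 1) * (2 * Complex.sinh (2 * z))) /
          ((Complex.cosh (2 * z) + 1) * (Complex.cosh (2 * z) - r)) ^ 2 := by
        have g1 : Complex.cosh (2 * z) + 1 ≠ 0 := norm_pos_iff.1 (by rw [← hX]; exact hX0)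
        have g2 : Complex.cosh (2 * z) - (r : ℂ) ≠ 0 := norm_pos_iff.1 (by rw [← hY]; exact hY0)
        field_simp
      rw [e1]
      refine (norm_sub_le _ _).trans ?_
      have m1 : ‖2 * Complex.cosh (2 * z) / ((Complex.cosh (2 * z) + 1) *
          (Complex.cosh (2 * z) - r))‖ ≤ 2 / c ^ 2 * (1 / C) := by
        rw [norm_div, norm_mul, norm_mul, ← hX, ← hY, Complex.norm_ofNat]
        calc 2 * ‖Complex.cosh (2 * z)‖ / (X * Y) ≤ 2 * C / (c ^ 2 * C ^ 2) :=
              div_le_div₀ (by positivity) (by linarith) (by positivity) hXY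
          _ = _ := by field_simp
      have m2 : ‖Complex.sinh (2 * z) * (2 * Complex.sinh (2 * z) * (Complex.cosh (2 * z) - r) +
            (Complex.cosh (2 * z) + 1) * (2 * Complex.sinh (2 * z))) /
          ((Complex.cosh (2 * z) + 1) * (Complex.cosh (2 * z) - r)) ^ 2‖ ≤
          8 / c ^ 4 * (1 / C) := by
        rw [norm_div, norm_mul, norm_pow, norm_mul, ← hX, ← hY]
        have m3 : ‖2 * Complex.sinh (2 * z) * (Complex.cosh (2 * z) - r) +
            (Complex.cosh (2 * z) + 1) * (2 * Complex.sinh (2 * z))‖ ≤ 8 * C ^ 2 := by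
          refine (norm_add_le _ _).trans ?_
          rw [norm_mul, norm_mul, norm_mul, norm_mul, ← hX, ← hY, Complex.norm_ofNat]
          have q1 : 2 * ‖Complex.sinh (2 * z)‖ * Y ≤ 2 * C * (2 * C) := by gcongr
          have q2 : X * (2 * ‖Complex.sinh (2 * z)‖) ≤ 2 * C * (2 * C) := by gcongr
          nlinarith
        calc ‖Complex.sinh (2 * z)‖ * _ / (X * Y) ^ 2 ≤ C * (8 * C ^ 2) / (c ^ 2 * C ^ 2) ^ 2 := by
              refine div_le_div₀ (by positivity) ?_ (by positivity) ?_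
              · exact mul_le_mul b1 m3 (norm_nonneg _) hC0.le
              · exact pow_le_pow_left₀ (by positivity) hXY 2
          _ = _ := by field_simp
      calc _ ≤ 2 / c ^ 2 * (1 / C) + 8 / c ^ 4 * (1 / C) := add_le_add m1 m2
        _ = _ := by ring
    unfold vdd
    rw [norm_mul]
    calc _ ≤ 4 * ((2 / c ^ 2 + 8 / c ^ 4) * (1 / C)) := mul_le_mul n0 n1 (norm_nonneg _) (by norm_num)
      _ ≤ 4 * ((2 / c ^ 2 + 8 / c ^ 4) * (2 * Real.exp (-2 * |z.re|))) := by gcongr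
      _ = 4 * (4 / c ^ 2 + 16 / c ^ 4) * Real.exp (-2 * |z.re|) := by ring
      _ ≤ _ := by
          refine mul_le_mul_of_nonneg_right ?_ hE.le
          have : 16 / c ^ 4 ≤ 6 * 4 / c ^ 4 := by gcongr; norm_num
          linarith

end

end NUCR
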