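import Pool.Agent.NUCR.InpB
import Pool.Agent.NUCR.VcD
import Pool.Agent.NUS4.GDO
import Pool.Agent.NUO.Meas

/-!
# TARGET-B: the data `GD` of the sharp bound

`gdB`: the one body factors `exp (fB - b' / 2) * prod potN * ‖ph‖` on the curve `etaB` satisfy
`NUS4.GD`, for at most `log m` objects at heights at most `(log m)^2`.
-/

set_option autoImplicit false

noncomputable section

open MeasureTheory Finset Filter Topology

namespace NUCR

open NUO

/-- growth of the row potential -/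
theorem vcN_gr {b : ℝ} (hb0 : 0 ≤ b) (hb : b < NUMF.l) : ∃ K : ℝ, 0 ≤ K ∧ ∀ z : ℂ, |z.im| ≤ b →
    ‖NUMF.vc z‖ ≤ K * (1 + |z.re|) := by
  obtain ⟨A, hA, H⟩ := vd_bound hb0 hb
  refine ⟨‖NUMF.vc 0‖ + A * (1 + b), by positivity, fun z hz => ?_⟩
  have hconv : Convex ℝ {z : ℂ | |z.im| ≤ b} := by
    have h : {z : ℂ | |z.im| ≤ b} = Complex.imLm ⁻¹' Set.Icc (-b) b := by
      ext z
      simp [abs_le]
    rw [h]
    exact (convex_Icc _ _).linear_preimage _
  have h1 := hconv.norm_image_sub_le_of_norm_hasDerivWithin_le (f := NUMF.vc) (f' := vd) (C := A)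
    (fun w hw => (hasDerivAt_vcN (lt_of_le_of_lt hw hb)).hasDerivWithinAt) (fun w hw => by
      refine (H w hw).1.trans ?_
      have : Real.exp (-2 * |w.re|) ≤ 1 := Real.exp_le_one_iff.2 (by
        have := abs_nonneg w.re
        linarith)
      calc A * Real.exp (-2 * |w.re|) ≤ A * 1 := mul_le_mul_of_nonneg_left this hA
        _ = A := mul_one A) (x := 0) (y := z)
    (show |(0 : ℂ).im| ≤ b by simpa using hb0) hz
  rw [sub_zero] at h1
  have h2 : ‖z‖ ≤ |z.re| + |z.im| := Complex.norm_le_abs_re_add_abs_im z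
  have h3 : ‖NUMF.vc z‖ ≤ ‖NUMF.vc 0‖ + ‖NUMF.vc z - NUMF.vc 0‖ := by
    calc ‖NUMF.vc z‖ = ‖NUMF.vc 0 + (NUMF.vc z - NUMF.vc 0)‖ := by rw [add_sub_cancel]
      _ ≤ _ := norm_add_le _ _
  have h4 := abs_nonneg z.re
  have h5 := norm_nonneg (NUMF.vc 0)
  have hz' : |z.im| ≤ b := hz
  calc ‖NUMF.vc z‖ ≤ ‖NUMF.vc 0‖ + A * (|z.re| + b) := by
        refine h3.trans ?_
        gcongr
        exact h1.trans (mul_le_mul_of_nonneg_left (h2.trans (by linarith)) hA)
    _ ≤ (‖NUMF.vc 0‖ + A * (1 + b)) * (1 + |z.re|) := by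
        have : 0 ≤ A * b * |z.re| := by positivity
        have : 0 ≤ ‖NUMF.vc 0‖ * |z.re| := by positivity
        nlinarith

theorem measurable_vcN : Measurable NUMF.vc := by
  have h : NUMF.vc = fun z : ℂ => Complex.log (Complex.cosh (2 * z) + 1) -
    Complex.log (Complex.cosh (2 * z) - NUMF.r) := rfl
  have h1 : Measurable fun z : ℂ => Complex.cosh (2 * z) :=
    (Complex.continuous_cosh.comp (continuous_const.mul continuous_id)).measurable
  rw [h]
  exact (h1.add_const _).clog.sub (h1.sub_const _).clog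

theorem measurable_fB (s : ℂ) {η : ℝ → ℝ} (hη : Measurable η) : Measurable (NUBR.fB s η) := by
  have h1 : Measurable fun t : ℝ => (t : ℂ) + dA η t := by
    unfold dA
    exact Complex.measurable_ofReal.add ((Complex.measurable_ofReal.comp hη).mul_const _)
  unfold NUBR.fB
  exact Complex.measurable_re.comp ((measurable_vcN.comp h1).const_mul s)

theorem measurable_pA {η : ℝ → ℝ} (hη : Measurable η) : Measurable (NUO.pA η) := by
  unfold NUO.pA NUP1.vl
  fun_prop

theorem MB_ge (m : ℕ) : m ≤ MB m := by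
  unfold MB
  omega

theorem measurable_potN_pA (M : ℕ) {r : ℕ} (O : Fin r → Xo) (i : Fin r) (a : Bool) {p : ℝ → ℂ}
    (hp : Measurable p) : Measurable fun t => potN (par0 M) O i a (p t) := by
  have hr : Measurable ((par0 M).rad r) := by
    rw [par0_rad]
    exact rad0_meas M r
  have h := measurable_potN (par0 M) hr i a
  have h2 : Measurable fun t => ((O, p t) : (Fin r → Xo) × ℂ) := measurable_const.prodMk hp
  have h3 := h.comp h2
  simp only [Function.comp_def] at h3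
  exact h3

/-- the one body factors of TARGET-B are measurable -/
theorem measurable_oneB (s : ℂ) (c : ℝ) (M : ℕ) (β : ℝ) {η : ℝ → ℝ} (hη : Measurable η) {r : ℕ}
    (O : Fin r → Xo) (a : Bool) : Measurable fun t => Real.exp (NUBR.fB s η t - c) *
      (∏ i, potN (par0 M) O i a (NUO.pA η t)) * ‖ph M β (NUO.pA η t)‖ := by
  have h1 := measurable_pA hη
  have h2 : Measurable fun t => ∏ i, potN (par0 M) O i a (NUO.pA η t) :=
    Finset.measurable_prod _ fun i _ => measurable_potN_pA M O i a h1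
  exact ((((measurable_fB s hη).sub_const c).exp).mul h2).mul ((measurable_ph M β).comp h1).norm

/-- **the field `GD` of the sharp bound for TARGET-B** -/
theorem gdB {ep e1 J κ : ℝ} (hep : 0 < ep) (hep1 : ep ≤ 1 / 100) (he : 0 < e1) (he1 : e1 ≤ 1 / 100)
    (hJ : 0 ≤ J) (hκ : 0 < κ) (hκ1 : κ < e1) (k : ℕ) (hk : 8 ≤ k) : ∃ m0 : ℕ, ∀ m ≥ m0,
    ∀ s : ℂ, InS m s → ∀ ts, Adm (DD e1 m) s.im ts → ∀ b' : ℝ, |b'| ≤ 3 →
    ∀ (r : ℕ) (O : Fin r → Xo), (r : ℝ) ≤ Real.log m → (∀ i, |ht (O i)| ≤ Real.log m ^ 2) →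
      NUS4.GD m k κ e1 (ep / 2) s.re (2 * Real.log m ^ 2) ((1 - e1) * Tb (Real.log m))
        (etaB e1 J m s ts) (etaB' e1 J m s ts) (etaB e1 J m s ts) (etaB' e1 J m s ts)
        (fun t => Real.exp (NUBR.fB s (etaB e1 J m s ts) t - b' / 2) *
          (∏ i, potN (par0 (MB m)) O i true (NUO.pA (etaB e1 J m s ts) t)) *
            ‖ph (MB m) (4 / 3 * (1 - ep)) (NUO.pA (etaB e1 J m s ts) t)‖)
        (fun t => Real.exp (NUBR.fB s (etaB e1 J m s ts) t - b' / 2) *
          (∏ i, potN (par0 (MB m)) O i false (NUO.pA (etaB e1 J m s ts) t)) *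
            ‖ph (MB m) (4 / 3 * (1 - ep)) (NUO.pA (etaB e1 J m s ts) t)‖) := by
  obtain ⟨C, hC, m1, H1⟩ := exists_CurB0 he he1 hep hJ
  obtain ⟨m2, H2⟩ := NUS4.gd_conf (ep := ep) (e1 := e1) hep hep1 he (by linarith) hκ (k - 5)
  obtain ⟨K, hK, HK⟩ := vcN_gr (b := ep / 2) (by linarith) (by
    have := Real.pi_gt_d2
    unfold NUMF.l
    linarith)
  have h1 : Filter.Tendsto (fun m : ℕ => Real.log (m : ℝ)) atTop atTop :=
    Real.tendsto_log_atTop.comp tendsto_natCast_atTop_atTop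
  have h2 := h1.eventually_ge_atTop (max (max 20 C) (6 * (1 / kap0) * K))
  have h3 : Filter.Tendsto (fun m : ℕ => Real.log (m : ℝ) / (m : ℝ) ^ (e1 - κ)) atTop (𝓝 0) :=
    ((isLittleO_log_rpow_atTop (by linarith)).tendsto_div_nhds_zero).comp
      tendsto_natCast_atTop_atTop
  have h4 := h3.eventually_lt_const (u := 1 / C) (by positivity)
  obtain ⟨m3, hm3⟩ := eventually_atTop.1 (h2.and (h4.and (eventually_ge_atTop 1)))
  refine ⟨max m1 (max m2 m3), fun m hm s hs ts had b' hb' r O hr hht => ?_⟩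
  have hmm1 : m1 ≤ m := (le_max_left _ _).trans hm
  have hmm2 : m2 ≤ m := ((le_max_left _ _).trans (le_max_right _ _)).trans hm
  have hmm3 : m3 ≤ m := ((le_max_right _ _).trans (le_max_right _ _)).trans hm
  obtain ⟨a1, a2, a3⟩ := hm3 m hmm3
  obtain ⟨L, hL⟩ : ∃ L, L = Real.log m := ⟨_, rfl⟩
  rw [← hL] at a1 a2
  have hL20 : 20 ≤ L := ((le_max_left _ _).trans (le_max_left _ _)).trans a1
  have hLC : C ≤ L := ((le_max_right _ _).trans (le_max_left _ _)).trans a1
  have hLK : 6 * (1 / kap0) * K ≤ L := (le_max_right _ _).trans a1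
  have hmp : (0 : ℝ) < m := by exact_mod_cast a3
  obtain ⟨-, -, H1⟩ := H1 m hmm1
  obtain ⟨g1, g2, -, H1⟩ := H1 s hs.1 hs.2.1 hs.2.2
  obtain ⟨e, η', hc, hd, hc', -, -⟩ := H1 ts had
  obtain ⟨η, hη⟩ : ∃ η, η = etaB e1 J m s ts := ⟨_, rfl⟩
  have hdη : ∀ t, HasDerivAt (etaB e1 J m s ts) (etaB' e1 J m s ts t) t := by
    intro t
    have : etaB' e1 J m s ts t = η' t := (hd t).deriv
    rw [this]
    exact hd t
  have hTT : Tb (Real.log m) = TB m := rfl
  have hTb : Tb (Real.log m) = 3 / 8 * L := by rw [hL]; rfl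
  have hkap := kap0_pos
  have hb1 : (1 - e1) * Tb (Real.log m) ≤ L := by
    rw [hTb]
    nlinarith
  have hb0 : 0 ≤ (1 - e1) * Tb (Real.log m) := by
    rw [hTb]
    have : 0 ≤ 1 - e1 := by linarith
    positivity
  have hmeas : Measurable (etaB e1 J m s ts) :=
    (continuous_iff_continuousAt.2 fun t => (hd t).continuousAt).measurable
  have hLk : L ^ 2 ≤ L ^ (k - 5) := pow_le_pow_right₀ (by linarith) (by omega)
  have hLk3 : L ^ 3 ≤ L ^ (k - 5) := pow_le_pow_right₀ (by linarith) (by omega)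
  have hkk : k - 5 + 5 = k := by omega
  -- the imaginary part of `s`
  have hy : |s.im| ≤ 2 * (1 / kap0) * L := by
    have h5 := hs.2.1
    have h6 := hs.2.2
    have e1' : NUI.XX c0 m = TB m / kap0 := XX_eq m
    rw [e1', ← hTT, hTb] at h5 h6
    have hpi := Real.pi_lt_d2
    have hq : 0 < L / kap0 := by positivity
    have e2 : 3 / 8 * L / kap0 = 3 / 8 * (L / kap0) := by ring
    rw [e2] at h5 h6
    have e3 : 2 * (1 / kap0) * L = 2 * (L / kap0) := by ring
    rw [e3, abs_le]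
    constructor
    · nlinarith
    · nlinarith
  -- the analytic potential
  have hA : ∀ (a : Bool) (z : ℂ), |z.re| ≤ (1 - e1) * Tb (Real.log m) + 2 → |z.im| < ep / 2 →
      DifferentiableAt ℂ (fun z => Complex.I * s.im * NUMF.vc z) z ∧
        ‖Complex.I * s.im * NUMF.vc z‖ ≤ Real.log m ^ (k - 5) := by
    intro a z hz1 hz2
    have hzl : |z.im| < NUMF.l := by
      have := Real.pi_gt_d2
      unfold NUMF.l
      linarith
    refine ⟨(NUMF.vc_diff hzl).const_mul _, ?_⟩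
    rw [← hL]
    refine le_trans ?_ hLk3
    have n1 := HK z hz2.le
    have n2 : 1 + |z.re| ≤ 3 * L := by linarith
    rw [norm_mul, norm_mul, Complex.norm_I, one_mul, Complex.norm_real, Real.norm_eq_abs]
    calc |s.im| * ‖NUMF.vc z‖ ≤ (2 * (1 / kap0) * L) * (K * (3 * L)) := by
          refine mul_le_mul hy (n1.trans (mul_le_mul_of_nonneg_left n2 hK)) (norm_nonneg _) ?_
          positivity
      _ = (6 * (1 / kap0) * K) * L ^ 2 := by ring
      _ ≤ L * L ^ 2 := mul_le_mul_of_nonneg_right hLK (by positivity)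
      _ = L ^ 3 := by ring
  -- the size of the curve
  have hε : C * (Real.log m * (m : ℝ) ^ (-e1)) ≤ (m : ℝ) ^ (-κ) := by
    have hp : (0 : ℝ) < (m : ℝ) ^ (e1 - κ) := Real.rpow_pos_of_pos hmp _
    rw [div_lt_div_iff₀ hp (by linarith), one_mul] at a2
    have e4 : (m : ℝ) ^ (-κ) = (m : ℝ) ^ (e1 - κ) * (m : ℝ) ^ (-e1) := by
      rw [← Real.rpow_add hmp]
      congr 1
      ring
    rw [e4, ← hL, ← mul_assoc, mul_comm C L]
    exact mul_le_mul_of_nonneg_right a2.le (Real.rpow_nonneg hmp.le _)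
  have hMc : C * Real.log m ≤ Real.log m ^ (k - 5) := by
    rw [← hL]
    refine le_trans ?_ hLk
    nlinarith
  have hform : ∀ (a : Bool) (t : ℝ), Real.exp (NUBR.fB s (etaB e1 J m s ts) t - b' / 2) *
          (∏ i, potN (par0 (MB m)) O i a (NUO.pA (etaB e1 J m s ts) t)) *
            ‖ph (MB m) (4 / 3 * (1 - ep)) (NUO.pA (etaB e1 J m s ts) t)‖ =
      Real.exp (s.re * (NUMF.vc ((t : ℂ) + dA (etaB e1 J m s ts) t)).re +
        (Complex.I * s.im * NUMF.vc ((t : ℂ) + dA (etaB e1 J m s ts) t)).re + -(b' / 2)) *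
          ‖ph (MB m) (4 / 3 * (1 - ep)) (NUO.pA (etaB e1 J m s ts) t)‖ *
            ∏ i, potN (par0 (MB m)) O i a (NUO.pA (etaB e1 J m s ts) t) := by
    intro a t
    have e5 : NUBR.fB s (etaB e1 J m s ts) t - b' / 2 =
        s.re * (NUMF.vc ((t : ℂ) + dA (etaB e1 J m s ts) t)).re +
        (Complex.I * s.im * NUMF.vc ((t : ℂ) + dA (etaB e1 J m s ts) t)).re + -(b' / 2) := by
      unfold NUBR.fB
      rw [Complex.mul_re, Complex.mul_re, Complex.mul_re, Complex.mul_im]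
      simp only [Complex.I_re, Complex.I_im, Complex.ofReal_re, Complex.ofReal_im]
      ring
    rw [e5]
    ring
  have hnn : ∀ (a : Bool) (t : ℝ), 0 ≤ Real.exp (NUBR.fB s (etaB e1 J m s ts) t - b' / 2) *
          (∏ i, potN (par0 (MB m)) O i a (NUO.pA (etaB e1 J m s ts) t)) *
            ‖ph (MB m) (4 / 3 * (1 - ep)) (NUO.pA (etaB e1 J m s ts) t)‖ := by
    intro a t
    have : 0 ≤ ∏ i, potN (par0 (MB m)) O i a (NUO.pA (etaB e1 J m s ts) t) :=
      Finset.prod_nonneg fun i _ => potN_nonneg _ _ _ _ _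
    positivity
  have H := H2 m hmm2 s.re (2 * Real.log m ^ 2) (-(b' / 2)) (MB m) (par0 (MB m))
    (etaB e1 J m s ts) (etaB' e1 J m s ts) (fun _ z => Complex.I * s.im * NUMF.vc z) r O
    (fun t => Real.exp (NUBR.fB s (etaB e1 J m s ts) t - b' / 2) *
          (∏ i, potN (par0 (MB m)) O i true (NUO.pA (etaB e1 J m s ts) t)) *
            ‖ph (MB m) (4 / 3 * (1 - ep)) (NUO.pA (etaB e1 J m s ts) t)‖)
    (fun t => Real.exp (NUBR.fB s (etaB e1 J m s ts) t - b' / 2) *
          (∏ i, potN (par0 (MB m)) O i false (NUO.pA (etaB e1 J m s ts) t)) *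
            ‖ph (MB m) (4 / 3 * (1 - ep)) (NUO.pA (etaB e1 J m s ts) t)‖)
    g1 g2 (MB_ge m) (NUS4.pg_par0 _) (by rw [← hL]; nlinarith) le_rfl (by rw [← hL] at *; nlinarith)
    ⟨_, _, e, hc, hε, hMc⟩ hdη hA ?_ hr hht (hnn true) (hnn false)
    (measurable_oneB s (b' / 2) (MB m) (4 / 3 * (1 - ep)) hmeas O true)
    (measurable_oneB s (b' / 2) (MB m) (4 / 3 * (1 - ep)) hmeas O false)
    (fun t _ => hform true t) (fun t _ => hform false t)
  · rw [hkk] at H
    exact H
  · rw [← hL, abs_neg, abs_div, abs_two]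
    have : L ^ 2 ≤ L ^ (k - 5) := hLk
    nlinarith

/-- **GDB** -/
theorem gDB : GDB := by
  intro ep hep hep1 e1 he he1 J hJ
  refine ⟨8, e1 / 2, ep / 2, by positivity, by positivity, by linarith, fun k hk κ hκ hκ1 => ?_⟩
  obtain ⟨m0, H⟩ := gdB hep hep1 he he1 hJ hκ (by linarith) k hk
  refine ⟨m0, fun m hm s n b0 b' ts r O hR _ hr hht => ?_⟩
  have hb : |b'| ≤ 3 := by
    have h1 := hR.hb0
    have h2 := hR.hb1
    have h3 := abs_le.1 hR.hbd
    rw [abs_le]
    constructor <;> linarith [h3.1, h3.2]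
  exact H m hm s hR.hs ts hR.hts b' hb r O hr hht

end NUCR

end
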