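import Pool.Agent.NUCR.Plat
import Pool.Agent.NUP1S.Lg

/-!
# The values of the arguments (module B3 of board/CR, helper78)

`aL j t` is in `(0, 2 pi)`, `aL j (-t) = 2 pi - aL j t`, `|aA j t| < pi`; the imaginary part of `NUP1S.lgc tc`.
-/

set_option autoImplicit false

open MeasureTheory Set Filter Topology Complex

namespace NUCR

open NUMF

noncomputable section

/-- the constant `cos 2l` -/
lemma cos_two_l_pos : 0 < Real.cos (2 * l) := by
  have e : 2 * l = Real.pi / 4 := by
    unfold l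
    ring
  rw [e, Real.cos_pi_div_four]
  positivity

lemma Fr_cos (u : ℂ) :
    Fr u = (1 + Complex.cos (2 * (u - l))) / (Complex.cos (2 * (u - l)) - Real.cos (2 * l)) := by
  have h8 : (8 : ℂ) * l = Real.pi := by
    unfold l
    push_cast
    ring
  have e1 : 2 * Complex.sin (u + 3 * l) ^ 2 = 1 + Complex.cos (2 * (u - l)) := by
    have h1 := Complex.cos_sq' (u + 3 * l)
    have h2 : Complex.cos (2 * (u + 3 * l)) = -Complex.cos (2 * (u - l)) := by
      rw [show 2 * (u + 3 * l) = 2 * (u - l) + Real.pi by rw [← h8]; ring, Complex.cos_add_pi]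
    have h3 := Complex.cos_two_mul (u + 3 * l)
    rw [h2, h1] at h3
    linear_combination h3
  have e2 : 2 * (Complex.sin u * Complex.sin (u - 2 * l)) = Real.cos (2 * l) - Complex.cos (2 * (u - l)) := by
    have h1 := Complex.cos_sub u (u - 2 * l)
    have h2 := Complex.cos_add u (u - 2 * l)
    rw [show u - (u - 2 * l) = 2 * l by ring] at h1
    rw [show u + (u - 2 * l) = 2 * (u - l) by ring] at h2
    push_cast
    rw [h1, h2]
    ring
  unfold Fr
  rw [← e1]
  have e3 : Complex.cos (2 * (u - l)) - Real.cos (2 * l) = -(2 * (Complex.sin u * Complex.sin (u - 2 * l))) := by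
    rw [e2]
    ring
  rw [e3, neg_div, mul_comm (2 : ℂ) (_ ^ 2), mul_comm (2 : ℂ) (Complex.sin u * _), div_neg,
    mul_div_mul_right _ _ two_ne_zero]

/-- `Im F` on the lines -/
lemma Fr_im_pos {j t : ℝ} (h0 : 0 < j) (h4 : j < 4) (ht : t < 0) : 0 < (Fr (pt j t)).im := by
  have hl := l_pos
  have e8 := eight_l
  rw [Fr_cos]
  have eu : 2 * (pt j t - (l : ℂ)) = (((-(2 * j * l) : ℝ) : ℂ) + ((2 * t : ℝ) : ℂ) * I) := by
    unfold pt
    push_cast
    ring
  rw [eu]
  have hs : 0 < Real.sin (2 * j * l) := by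
    refine Real.sin_pos_of_pos_of_lt_pi (by positivity) ?_
    nlinarith
  have hsh : Real.sinh (2 * t) < 0 := Real.sinh_neg_iff.2 (by linarith)
  have hc : 0 < Real.cos (2 * l) := cos_two_l_pos
  set c := Real.cos (2 * l) with hcdef
  set W := Complex.cos (((-(2 * j * l) : ℝ) : ℂ) + ((2 * t : ℝ) : ℂ) * I) with hW
  have him : W.im = Real.sin (2 * j * l) * Real.sinh (2 * t) := by
    rw [hW, cos_im]
    have e1 : (((-(2 * j * l) : ℝ) : ℂ) + ((2 * t : ℝ) : ℂ) * I).re = -(2 * j * l) := by simp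
    have e2 : (((-(2 * j * l) : ℝ) : ℂ) + ((2 * t : ℝ) : ℂ) * I).im = 2 * t := by simp
    rw [e1, e2, Real.sin_neg]
    ring
  have himn : W.im < 0 := by
    rw [him]
    exact mul_neg_of_pos_of_neg hs hsh
  have hne : W - (c : ℂ) ≠ 0 := by
    intro h
    have h2 := congrArg Complex.im h
    simp at h2
    linarith
  have hns : 0 < Complex.normSq (W - (c : ℂ)) := Complex.normSq_pos.2 hne
  rw [Complex.div_im]
  have a1 : (1 + W).im = W.im := by simp
  have a2 : (1 + W).re = 1 + W.re := by simp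
  have a3 : (W - (c : ℂ)).im = W.im := by simp
  have a4 : (W - (c : ℂ)).re = W.re - c := by simp
  rw [a1, a2, a3, a4, ← sub_div]
  refine div_pos ?_ hns
  nlinarith

/-- the argument in the middle -/
lemma Fr_im_eq {j : ℝ} (h1 : 1 < j) (h4 : j < 4) (t : ℝ) :
    (Fr (pt j t)).im = Real.exp (lgL (pt j t)).re * Real.sin (aL j t) := by
  have hl := l_pos
  rw [← exp_lgL (u := pt j t) (by rw [pt_re]; nlinarith) (by rw [pt_re]; nlinarith), Complex.exp_im]
  rfl

lemma aL_cont {j : ℝ} (h1 : 1 < j) (h4 : j < 4) : Continuous (aL j) :=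
  continuous_iff_continuousAt.2 fun t => (hasDerivAt_aL h1 h4 t).continuousAt

lemma aA_cont {j : ℝ} (h1 : -1 < j) (h4 : j < 1) : Continuous (aA j) :=
  continuous_iff_continuousAt.2 fun t => (hasDerivAt_aA h1 h4 t).continuousAt

/-- symmetry of the argument -/
theorem aL_symm {j : ℝ} (h1 : 1 < j) (h4 : j < 4) (t : ℝ) : aL j (-t) = 2 * Real.pi - aL j t := by
  have hD : ∀ t, HasDerivAt (fun t => aL j (-t) + aL j t) 0 t := by
    intro t
    have d1 := (hasDerivAt_aL h1 h4 (-t)).comp t (hasDerivAt_neg t)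
    have d2 := d1.add (hasDerivAt_aL h1 h4 t)
    refine d2.congr_deriv ?_
    rw [rowd_even]
    ring
  have hc : ∀ s, aL j (-s) + aL j s = aL j (-t) + aL j t := fun s =>
    is_const_of_deriv_eq_zero (fun t => (hD t).differentiableAt) (fun t => (hD t).deriv) s t
  have hl : Tendsto (fun s => aL j (-s) + aL j s) atTop (𝓝 (0 + 2 * Real.pi)) :=
    ((aL_bot h1 h4).comp tendsto_neg_atTop_atBot).add (aL_top h1 h4)
  have h2 : Tendsto (fun _ : ℝ => aL j (-t) + aL j t) atTop (𝓝 (0 + 2 * Real.pi)) := hl.congr hc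
  have h3 := tendsto_nhds_unique tendsto_const_nhds h2
  linarith

lemma aL_zero {j : ℝ} (h1 : 1 < j) (h4 : j < 4) : aL j 0 = Real.pi := by
  have h := aL_symm h1 h4 0
  rw [neg_zero] at h
  linarith

/-- the argument of the left branch is in `(0, pi)` below the real axis -/
theorem aL_neg {j : ℝ} (h1 : 1 < j) (h4 : j < 4) {t : ℝ} (ht : t < 0) : 0 < aL j t ∧ aL j t < Real.pi := by
  have hpi := Real.pi_pos
  have hsin : ∀ s < 0, 0 < Real.sin (aL j s) := by
    intro s hs
    have h := Fr_im_pos (j := j) (by linarith) h4 hs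
    rw [Fr_im_eq h1 h4] at h
    exact (pos_iff_pos_of_mul_pos h).1 (Real.exp_pos _)
  have hb := aL_bot h1 h4
  have hc := aL_cont h1 h4
  by_contra hcon
  rw [not_and_or, not_lt, not_lt] at hcon
  rcases hcon with h | h
  · have hs := hsin t ht
    have h5 : aL j t ≤ -Real.pi := by
      by_contra h6
      rw [not_le] at h6
      have := Real.sin_nonpos_of_nonpos_of_neg_pi_le h h6.le
      linarith
    have h7 : ∀ᶠ s in atBot, -Real.pi < aL j s := hb.eventually (lt_mem_nhds (by linarith))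
    obtain ⟨s, hs1, hs2⟩ := (h7.and (eventually_le_atBot t)).exists
    have hmem : -Real.pi ∈ Icc (aL j t) (aL j s) := ⟨h5, hs1.le⟩
    obtain ⟨r, hr, hr2⟩ := intermediate_value_Icc' hs2 hc.continuousOn hmem
    have h8 := hsin r (hr.2.trans_lt ht)
    rw [hr2, Real.sin_neg, Real.sin_pi] at h8
    linarith
  · have h7 : ∀ᶠ s in atBot, aL j s < Real.pi := hb.eventually (gt_mem_nhds hpi)
    obtain ⟨s, hs1, hs2⟩ := (h7.and (eventually_le_atBot t)).exists
    have hmem : Real.pi ∈ Icc (aL j s) (aL j t) := ⟨hs1.le, h⟩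
    obtain ⟨r, hr, hr2⟩ := intermediate_value_Icc hs2 hc.continuousOn hmem
    have h8 := hsin r (hr.2.trans_lt ht)
    rw [hr2, Real.sin_pi] at h8
    linarith

theorem aL_pos {j : ℝ} (h1 : 1 < j) (h4 : j < 4) {t : ℝ} (ht : 0 < t) : Real.pi < aL j t ∧ aL j t < 2 * Real.pi := by
  have h := aL_neg h1 h4 (t := -t) (by linarith)
  rw [aL_symm h1 h4] at h
  constructor <;> linarith [h.1, h.2]

/-- the left branch takes its argument in `(0, 2 pi)` -/
theorem aL_mem {j : ℝ} (h1 : 1 < j) (h4 : j < 4) (t : ℝ) : 0 < aL j t ∧ aL j t < 2 * Real.pi := by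
  have hpi := Real.pi_pos
  rcases lt_trichotomy t 0 with h | h | h
  · have := aL_neg h1 h4 h
    constructor <;> linarith [this.1, this.2]
  · rw [h, aL_zero h1 h4]
    constructor <;> linarith
  · have := aL_pos h1 h4 h
    constructor <;> linarith [this.1, this.2]

/-- `Re F > 0` on the strip without winding -/
lemma Fr_re_pos {u : ℂ} (h0 : 0 < u.re) (h2 : u.re < 2 * l) : 0 < (Fr u).re := by
  have hl := l_pos
  have e8 := eight_l
  have hc0p := cos_two_l_pos
  rw [Fr_cos]
  set c0 : ℝ := Real.cos (2 * l) with hc0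
  set W : ℂ := Complex.cos (2 * (u - l)) with hWd
  have hre : W.re = Real.cos (2 * (u.re - l)) * Real.cosh (2 * u.im) := by
    rw [hWd, cos_re]
    have e1 : (2 * (u - (l : ℂ))).re = 2 * (u.re - l) := by simp
    have e2 : (2 * (u - (l : ℂ))).im = 2 * u.im := by simp
    rw [e1, e2]
  have hcos : c0 < Real.cos (2 * (u.re - l)) := by
    rw [hc0, ← Real.cos_abs (2 * (u.re - l))]
    refine Real.cos_lt_cos_of_nonneg_of_le_pi (abs_nonneg _) (by linarith) ?_
    rw [abs_lt]
    constructor <;> linarith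
  have hW : c0 < W.re := by
    rw [hre]
    have h1 := Real.one_le_cosh (2 * u.im)
    nlinarith
  have hne : W - (c0 : ℂ) ≠ 0 := by
    intro h
    have h2 := congrArg Complex.re h
    simp at h2
    linarith
  have hns : 0 < Complex.normSq (W - (c0 : ℂ)) := Complex.normSq_pos.2 hne
  rw [Complex.div_re]
  have a1 : (1 + W).im = W.im := by simp
  have a2 : (1 + W).re = 1 + W.re := by simp
  have a3 : (W - (c0 : ℂ)).im = W.im := by simp
  have a4 : (W - (c0 : ℂ)).re = W.re - c0 := by simp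
  rw [a1, a2, a3, a4, ← add_div]
  refine div_pos ?_ hns
  nlinarith [mul_self_nonneg W.im]

/-- no winding: the argument stays in `(- pi / 2, pi / 2)` -/
theorem aA_mem {j : ℝ} (h1 : -1 < j) (h4 : j < 1) (t : ℝ) : |aA j t| < Real.pi / 2 := by
  have hpi := Real.pi_pos
  have hl := l_pos
  have hb := (aA_lim h1 h4).1
  have hc := aA_cont h1 h4
  have hcos : ∀ s, Real.cos (aA j s) = 0 → False := by
    intro s hs0
    have hu0 : 0 < (pt j s).re := by rw [pt_re]; nlinarith
    have hu1 : (pt j s).re < 2 * l := by rw [pt_re]; nlinarith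
    have h2 := Fr_re_pos hu0 hu1
    rw [← exp_lgA hu0 hu1, Complex.exp_re] at h2
    have e1 : Real.cos (lgA (pt j s)).im = 0 := hs0
    rw [e1, mul_zero] at h2
    exact lt_irrefl _ h2
  by_contra hcon
  rw [not_lt, le_abs] at hcon
  rcases hcon with h | h
  · have h7 : ∀ᶠ s in atBot, aA j s < Real.pi / 2 := hb.eventually (gt_mem_nhds (by linarith))
    obtain ⟨s, hs1, hs2⟩ := (h7.and (eventually_le_atBot t)).exists
    have hmem : Real.pi / 2 ∈ Icc (aA j s) (aA j t) := ⟨hs1.le, h⟩
    obtain ⟨r, hr, hr2⟩ := intermediate_value_Icc hs2 hc.continuousOn hmem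
    exact hcos r (by rw [hr2, Real.cos_pi_div_two])
  · have h7 : ∀ᶠ s in atBot, -(Real.pi / 2) < aA j s := hb.eventually (lt_mem_nhds (by linarith))
    obtain ⟨s, hs1, hs2⟩ := (h7.and (eventually_le_atBot t)).exists
    have hmem : -(Real.pi / 2) ∈ Icc (aA j t) (aA j s) := ⟨by linarith, hs1.le⟩
    obtain ⟨r, hr, hr2⟩ := intermediate_value_Icc' hs2 hc.continuousOn hmem
    exact hcos r (by rw [hr2, Real.cos_neg, Real.cos_pi_div_two])

theorem lgA_im (j t : ℝ) : (lgA (pt j t)).im = aA j t := rfl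

/-- the argument of `NUP1S.lgc tc` on the line of offset `j` -/
theorem lgc_im (j : ℝ) (tc t : ℝ) :
    (NUP1S.lgc tc (pt j t)).im = if t ≤ tc then aL j t else aL j t - 2 * Real.pi := by
  have e : (pt j t).im = t := by simp [pt]
  unfold NUP1S.lgc
  rw [e]
  split_ifs
  · rfl
  · exact lgR_im j t

end

end NUCR
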