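import Pool.Agent.NUO.OneW

/-!
# The string `St` is suppressed in the bulk (board/CR, helper78)

`norm_cutT_supp`: the cutoff factor of `St` is at most `4 exp (- M Ag (1/2) t) exp (- c (4/3 - β) M exp (-(8/3) |t|))`.
-/

set_option autoImplicit false

noncomputable section

open Complex MeasureTheory Set

namespace NUCR

open NUP1 NUO

/-! ### the ratio -/

lemma ratio_le {g g' y : ℝ} (h1 : 2 ≤ g) (h2 : g ≤ g') (hy : y ≤ 4 * (g' - g) / ((g + 2) * (g' + 2))) :
    (g - 2) / (g + 2) ≤ (g' - 2) / (g' + 2) * Real.exp (-y) := by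
  have p1 : 0 < g + 2 := by linarith
  have p2 : 0 < g' + 2 := by linarith
  set z := 4 * (g' - g) / ((g + 2) * (g' + 2)) with hz
  have hz0 : 0 ≤ z := by
    rw [hz]
    have : 0 ≤ g' - g := by linarith
    positivity
  have h3 : 1 - z ≤ Real.exp (-z) := by
    have := Real.add_one_le_exp (-z)
    linarith
  have h4 : Real.exp (-z) ≤ Real.exp (-y) := Real.exp_le_exp.2 (by linarith)
  have h5 : 0 ≤ (g' - 2) / (g' + 2) := div_nonneg (by linarith) p2.le
  have e : (g - 2) / (g + 2) ≤ (g' - 2) / (g' + 2) * (1 - z) := by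
    have e1 : (g' - 2) / (g' + 2) * (1 - z) - (g - 2) / (g + 2) = z * (4 / (g' + 2)) := by
      rw [hz]
      field_simp
      ring
    have : 0 ≤ z * (4 / (g' + 2)) := by positivity
    linarith
  exact e.trans (mul_le_mul_of_nonneg_left (h3.trans h4) h5)

lemma inv_cosh_ge (y : ℝ) : Real.exp (-|y|) ≤ 1 / Real.cosh y := by
  have h1 : Real.cosh y ≤ Real.exp |y| := by
    rw [← Real.cosh_abs, Real.cosh_eq]
    have := Real.exp_le_exp.2 (show -|y| ≤ |y| by linarith [abs_nonneg y])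
    linarith
  rw [Real.exp_neg, one_div]
  exact inv_anti₀ (Real.cosh_pos y) h1

/-! ### trigonometric bounds -/

lemma trig_b {b : ℝ} (h1 : 1 ≤ b) (h2 : b ≤ 4 / 3) : √3 / 2 ≤ Real.cos (b * l) ∧ 1 / 2 ≤ Real.cos (b * (2 * l)) ∧
    Real.sin l ≤ Real.sin (b * l) ∧ Real.cos (b * l) ≤ 1 ∧ Real.cos (b * (2 * l)) ≤ 1 := by
  have hpi := Real.pi_pos
  have hl : l = Real.pi / 8 := rfl
  refine ⟨?_, ?_, ?_, Real.cos_le_one _, Real.cos_le_one _⟩
  · rw [← Real.cos_pi_div_six]
    refine Real.cos_le_cos_of_nonneg_of_le_pi (by rw [hl]; positivity) (by linarith) ?_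
    rw [hl]
    nlinarith
  · rw [← Real.cos_pi_div_three]
    refine Real.cos_le_cos_of_nonneg_of_le_pi (by rw [hl]; positivity) (by linarith) ?_
    rw [hl]
    nlinarith
  · refine Real.sin_le_sin_of_le_of_le_pi_div_two ?_ ?_ ?_
    · rw [hl]
      linarith
    · rw [hl]
      nlinarith
    · rw [hl]
      nlinarith

lemma sqrt3_sq : √3 * √3 = 3 := Real.mul_self_sqrt (by norm_num)

lemma sqrt3_pos : 0 < √3 := Real.sqrt_pos.2 (by norm_num)

lemma sin_l_pos : 0 < Real.sin l := Real.sin_pos_of_pos_of_lt_pi l_pos (by unfold l; linarith [Real.pi_pos])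

/-- upper bound of `gq` -/
lemma gq_le {b w τ : ℝ} (h1 : 1 ≤ b) (h2 : b ≤ 4 / 3) (hw : w = 0 ∨ w = 2 * l) :
    gq w τ b + 2 ≤ 7 * Real.cosh (b * τ) := by
  obtain ⟨a1, a2, -, a4, a5⟩ := trig_b h1 h2
  have hC := Real.one_le_cosh (b * τ)
  have hB : 1 / 2 ≤ Real.cos (b * w) ∧ Real.cos (b * w) ≤ 1 := by
    rcases hw with h | h
    · rw [h, mul_zero, Real.cos_zero]
      norm_num
    · rw [h]
      exact ⟨a2, a5⟩
  have s3 := sqrt3_pos
  have s3' := sqrt3_sq
  have hA0 : 0 < Real.cos (b * l) := by linarith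
  have hB0 : 0 < Real.cos (b * w) := by linarith
  have hAB : √3 / 4 ≤ Real.cos (b * l) * Real.cos (b * w) := by nlinarith
  have hs : (1.7 : ℝ) ≤ √3 := by
    refine Real.le_sqrt_of_sq_le ?_
    norm_num
  unfold gq
  have hden : 0 < Real.cos (b * l) * Real.cos (b * w) * Real.cosh (b * τ) := by positivity
  have h5 : (Real.cosh (b * τ) ^ 2 + Real.cos (b * l) ^ 2 + Real.cos (b * w) ^ 2 - 1) /
      (Real.cos (b * l) * Real.cos (b * w) * Real.cosh (b * τ)) ≤ 5 * Real.cosh (b * τ) := by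
    rw [div_le_iff₀ hden]
    have h6 : 0 ≤ Real.cosh (b * τ) ^ 2 := sq_nonneg _
    have h7 : Real.cos (b * l) ^ 2 ≤ 1 := by nlinarith
    have h8 : Real.cos (b * w) ^ 2 ≤ 1 := by nlinarith [hB.2]
    have h9 : 1 ≤ Real.cosh (b * τ) ^ 2 := by nlinarith
    have h10 : (17 / 40 : ℝ) ≤ Real.cos (b * l) * Real.cos (b * w) := by linarith
    nlinarith
  linarith

/-- lower bound of the derivative of `gq` -/
lemma gq_deriv_ge {b w τ : ℝ} (h1 : 1 ≤ b) (h2 : b ≤ 4 / 3) (hw : w = 0 ∨ w = 2 * l) :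
    l * Real.sin l ^ 3 / 2 * Real.cosh (b * τ) ≤ ((Real.cos (b * w) * Real.cosh (b * τ) * (l * Real.sin (b * l)) *
          (Real.sinh (b * τ) ^ 2 + Real.sin (b * l) ^ 2 - Real.sin (b * w) ^ 2) +
        Real.cos (b * l) * Real.cosh (b * τ) * (w * Real.sin (b * w)) *
          (Real.sinh (b * τ) ^ 2 + Real.sin (b * w) ^ 2 - Real.sin (b * l) ^ 2) +
        Real.cos (b * l) * Real.cos (b * w) * (τ * Real.sinh (b * τ)) *
          (Real.sinh (b * τ) ^ 2 + Real.sin (b * l) ^ 2 + Real.sin (b * w) ^ 2)) /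
        (Real.cos (b * l) * Real.cos (b * w) * Real.cosh (b * τ)) ^ 2) := by
  obtain ⟨a1, a2, a3, a4, a5⟩ := trig_b h1 h2
  have hl := l_pos
  have hsl := sin_l_pos
  have hpi := Real.pi_pos
  have hC := Real.one_le_cosh (b * τ)
  have s3 := sqrt3_pos
  have s3' := sqrt3_sq
  have hA0 : 0 < Real.cos (b * l) := by linarith
  have hS : 0 ≤ τ * Real.sinh (b * τ) := by
    rcases le_total 0 τ with h | h
    · exact mul_nonneg h (Real.sinh_nonneg_iff.2 (by positivity))
    · exact mul_nonneg_of_nonpos_of_nonpos h (Real.sinh_nonpos_iff.2 (mul_nonpos_of_nonneg_of_nonpos (by linarith) h))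
  have hch := Real.cosh_sq (b * τ)
  have hsin1 := Real.sin_sq_add_cos_sq (b * l)
  have ha1 : Real.sin (b * l) ≤ 1 := Real.sin_le_one _
  have hpow : Real.sin l ^ 3 ≤ Real.sin (b * l) ^ 3 := pow_le_pow_left₀ hsl.le a3 3
  rcases hw with h | h
  · subst h
    rw [mul_zero, Real.cos_zero, Real.sin_zero]
    set A := Real.cos (b * l) with hA
    set C := Real.cosh (b * τ) with hCd
    set S := Real.sinh (b * τ) with hSd
    set a := Real.sin (b * l) with had
    have ha0 : 0 < a := by linarith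
    rw [le_div_iff₀ (by positivity)]
    have e1 : 1 * C * (l * a) * (S ^ 2 + a ^ 2 - 0 ^ 2) + A * C * (0 * 0) * (S ^ 2 + 0 ^ 2 - a ^ 2) +
        A * 1 * (τ * S) * (S ^ 2 + a ^ 2 + 0 ^ 2) = C * (l * a) * (S ^ 2 + a ^ 2) + A * (τ * S) * (S ^ 2 + a ^ 2) := by
      ring
    rw [e1]
    have h5 : 0 ≤ A * (τ * S) * (S ^ 2 + a ^ 2) := by positivity
    have h6 : a ^ 2 * C ^ 2 ≤ S ^ 2 + a ^ 2 := by
      have : a ^ 2 ≤ 1 := by nlinarith
      nlinarith [sq_nonneg S]
    have h7 : C * (l * a) * (a ^ 2 * C ^ 2) ≤ C * (l * a) * (S ^ 2 + a ^ 2) :=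
      mul_le_mul_of_nonneg_left h6 (by positivity)
    have h8 : l * Real.sin l ^ 3 / 2 * C * (A * 1 * C) ^ 2 ≤ C * (l * a) * (a ^ 2 * C ^ 2) := by
      have hA2 : A ^ 2 ≤ 1 := by nlinarith
      calc l * Real.sin l ^ 3 / 2 * C * (A * 1 * C) ^ 2 = (l * C ^ 3) * (Real.sin l ^ 3 / 2 * A ^ 2) := by ring
        _ ≤ (l * C ^ 3) * (a ^ 3 * 1) := by
            refine mul_le_mul_of_nonneg_left ?_ (by positivity)
            have : 0 ≤ Real.sin l ^ 3 := by positivity
            nlinarith [sq_nonneg A]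
        _ = C * (l * a) * (a ^ 2 * C ^ 2) := by ring
    linarith
  · subst h
    have e2 : Real.sin (b * (2 * l)) = 2 * Real.sin (b * l) * Real.cos (b * l) := by
      rw [show b * (2 * l) = 2 * (b * l) by ring, Real.sin_two_mul]
    rw [e2]
    set A := Real.cos (b * l) with hA
    set B := Real.cos (b * (2 * l)) with hB
    set C := Real.cosh (b * τ) with hCd
    set S := Real.sinh (b * τ) with hSd
    set a := Real.sin (b * l) with had
    have ha0 : 0 < a := by linarith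
    have hB0 : 0 < B := by linarith
    have hA34 : 3 / 4 ≤ A ^ 2 := by nlinarith
    rw [le_div_iff₀ (by positivity)]
    have e1 : B * C * (l * a) * (S ^ 2 + a ^ 2 - (2 * a * A) ^ 2) +
        A * C * (2 * l * (2 * a * A)) * (S ^ 2 + (2 * a * A) ^ 2 - a ^ 2) +
        A * B * (τ * S) * (S ^ 2 + a ^ 2 + (2 * a * A) ^ 2) =
        S ^ 2 * (B * C * (l * a)) + S ^ 2 * (4 * A ^ 2 * C * (l * a)) +
        C * l * a ^ 3 * ((4 * A ^ 2 - 1) * (4 * A ^ 2 - B)) +
        A * B * (τ * S) * (S ^ 2 + a ^ 2 + (2 * a * A) ^ 2) := by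
      ring
    rw [e1]
    have h5 : 0 ≤ A * B * (τ * S) * (S ^ 2 + a ^ 2 + (2 * a * A) ^ 2) := by positivity
    have h6 : 0 ≤ S ^ 2 * (B * C * (l * a)) := by positivity
    have h7 : S ^ 2 * (C * l * a ^ 3) ≤ S ^ 2 * (4 * A ^ 2 * C * (l * a)) := by
      refine mul_le_mul_of_nonneg_left ?_ (sq_nonneg _)
      have h8 : a ^ 2 ≤ 4 * A ^ 2 := by nlinarith
      calc C * l * a ^ 3 = C * l * a * a ^ 2 := by ring
        _ ≤ C * l * a * (4 * A ^ 2) := mul_le_mul_of_nonneg_left h8 (by positivity)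
        _ = 4 * A ^ 2 * C * (l * a) := by ring
    have h9 : 1 ≤ (4 * A ^ 2 - 1) * (4 * A ^ 2 - B) := by nlinarith
    have h10 : C * l * a ^ 3 * 1 ≤ C * l * a ^ 3 * ((4 * A ^ 2 - 1) * (4 * A ^ 2 - B)) :=
      mul_le_mul_of_nonneg_left h9 (by positivity)
    have h11 : l * Real.sin l ^ 3 / 2 * C * (A * B * C) ^ 2 ≤ S ^ 2 * (C * l * a ^ 3) + C * l * a ^ 3 := by
      have hAB : A ^ 2 * B ^ 2 ≤ 1 := by
        have q1 : A ^ 2 ≤ 1 := by nlinarith
        have q2 : B ^ 2 ≤ 1 := by nlinarith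
        calc A ^ 2 * B ^ 2 ≤ 1 * 1 := mul_le_mul q1 q2 (sq_nonneg _) zero_le_one
          _ = 1 := one_mul 1
      calc l * Real.sin l ^ 3 / 2 * C * (A * B * C) ^ 2 = (l * C ^ 3) * (Real.sin l ^ 3 / 2 * (A ^ 2 * B ^ 2)) := by ring
        _ ≤ (l * C ^ 3) * (a ^ 3 * 1) := by
            refine mul_le_mul_of_nonneg_left ?_ (by positivity)
            have q3 : 0 ≤ Real.sin l ^ 3 := by positivity
            have q4 : 0 ≤ A ^ 2 * B ^ 2 := by positivity
            nlinarith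
        _ = C * l * a ^ 3 * (S ^ 2 + 1) := by
            rw [← hch]
            ring
        _ = _ := by ring
    linarith

/-- the gap in the rate -/
lemma gq_gap {b w τ : ℝ} (h1 : 1 ≤ b) (h2 : b ≤ 4 / 3) (hw : w = 0 ∨ w = 2 * l) :
    l * Real.sin l ^ 3 / 2 * (4 / 3 - b) * Real.cosh (b * τ) ≤ gq w τ (4 / 3) - gq w τ b := by
  set c := l * Real.sin l ^ 3 / 2 * Real.cosh (b * τ) with hc
  have hl := l_pos
  have hsl := sin_l_pos
  have hcos : ∀ x ∈ Set.Icc b (4 / 3), 0 < Real.cos (x * l) ∧ 0 < Real.cos (x * w) := by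
    intro x hx
    obtain ⟨a1, a2, -, -, -⟩ := trig_b (h1.trans hx.1) hx.2
    have s3 := sqrt3_pos
    refine ⟨by linarith, ?_⟩
    rcases hw with h | h
    · rw [h, mul_zero, Real.cos_zero]
      exact one_pos
    · rw [h]
      linarith
  have hm : MonotoneOn (fun x => gq w τ x - c * x) (Set.Icc b (4 / 3)) := by
    apply monotoneOn_of_deriv_nonneg (convex_Icc b (4 / 3))
    · intro x hx
      exact ((gq_deriv (hcos x hx).1 (hcos x hx).2).continuousAt.sub (by fun_prop)).continuousWithinAt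
    · intro x hx
      have hx' := interior_subset hx
      exact ((gq_deriv (hcos x hx').1 (hcos x hx').2).differentiableAt.sub (by fun_prop)).differentiableWithinAt
    · intro x hx
      have hx' := interior_subset hx
      have d1 : HasDerivAt (fun x : ℝ => c * x) c x := by
        simpa using (hasDerivAt_id x).const_mul c
      have d2 := (gq_deriv (w := w) (τ := τ) (hcos x hx').1 (hcos x hx').2).sub d1
      rw [show (fun x => gq w τ x - c * x) = (gq w τ - fun x => c * x) from rfl, d2.deriv]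
      have h3 := gq_deriv_ge (τ := τ) (h1.trans hx'.1) hx'.2 hw
      have h4 : Real.cosh (b * τ) ≤ Real.cosh (x * τ) := by
        refine Real.cosh_le_cosh.2 ?_
        rw [abs_mul, abs_mul, abs_of_nonneg (by linarith : (0:ℝ) ≤ b), abs_of_nonneg (by linarith [hx'.1] : (0:ℝ) ≤ x)]
        exact mul_le_mul_of_nonneg_right hx'.1 (abs_nonneg _)
      have h5 : c ≤ l * Real.sin l ^ 3 / 2 * Real.cosh (x * τ) := by
        rw [hc]
        exact mul_le_mul_of_nonneg_left h4 (by positivity)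
      linarith
  have h6 := hm ⟨le_rfl, h2⟩ ⟨h2, le_rfl⟩ h2
  simp only at h6
  have e : l * Real.sin l ^ 3 / 2 * (4 / 3 - b) * Real.cosh (b * τ) = c * (4 / 3) - c * b := by
    rw [hc]
    ring
  linarith

/-- constant of the suppression -/
def cP : ℝ := l * Real.sin l ^ 3 / 49

lemma cP_pos : 0 < cP := by
  have := l_pos
  have := sin_l_pos
  unfold cP
  positivity

/-- **quantitative monotonicity of `|psi|` in the rate**, on the two lines of `St` -/
theorem norm_psi_gap {b : ℝ} {z : ℂ} (h1 : 1 ≤ b) (h2 : b ≤ 4 / 3)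
    (hz : z.re + l / 2 = 0 ∨ z.re + l / 2 = -l) :
    ‖psi b z‖ ≤ ‖psi (4 / 3) z‖ * Real.exp (-(cP * (4 / 3 - b) * Real.exp (-(8 / 3) * |z.im|))) := by
  have hl := l_pos
  have hsl := sin_l_pos
  have s3 := sqrt3_pos
  set w : ℝ := |2 * (z.re + l / 2)| with hw
  have hww : w = 0 ∨ w = 2 * l := by
    rcases hz with h | h
    · left
      rw [hw, h, mul_zero, abs_zero]
    · right
      rw [hw, h, mul_neg, abs_neg, abs_of_pos (by positivity)]
  have hcos : ∀ x : ℝ, 1 ≤ x → x ≤ 4 / 3 → 0 < Real.cos (x * l) ∧ 0 < Real.cos (x * (2 * (z.re + l / 2))) := by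
    intro x x1 x2
    obtain ⟨a1, a2, -, -, -⟩ := trig_b x1 x2
    refine ⟨by linarith, ?_⟩
    rcases hz with h | h
    · rw [h, mul_zero, mul_zero, Real.cos_zero]
      exact one_pos
    · rw [h, show x * (2 * -l) = -(x * (2 * l)) by ring, Real.cos_neg]
      linarith
  obtain ⟨p1, p2⟩ := hcos b h1 h2
  obtain ⟨p3, p4⟩ := hcos (4 / 3) (by norm_num) le_rfl
  obtain ⟨q1, q2⟩ := norm_psi_sq p1 p2
  obtain ⟨q3, q4⟩ := norm_psi_sq p3 p4
  have hgap := gq_gap (τ := 2 * z.im) h1 h2 hww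
  have u1 := gq_le (τ := 2 * z.im) h1 h2 hww
  have u2 := gq_le (τ := 2 * z.im) (by norm_num : (1:ℝ) ≤ 4 / 3) le_rfl hww
  rw [hw, gq_abs] at hgap u1 u2
  rw [gq_abs] at hgap
  set g := gq (2 * (z.re + l / 2)) (2 * z.im) b with hg
  set g' := gq (2 * (z.re + l / 2)) (2 * z.im) (4 / 3) with hg'
  have hC := Real.one_le_cosh (b * (2 * z.im))
  have hC' := Real.one_le_cosh (4 / 3 * (2 * z.im))
  set C := Real.cosh (b * (2 * z.im)) with hCd
  set C' := Real.cosh (4 / 3 * (2 * z.im)) with hCd'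
  have hb0 : 0 ≤ 4 / 3 - b := by linarith
  set k := l * Real.sin l ^ 3 / 2 * (4 / 3 - b) with hk
  have hk0 : 0 ≤ k := by
    rw [hk]
    positivity
  have hgg : g ≤ g' := by
    have : 0 ≤ k * C := by positivity
    linarith
  have hexp : Real.exp (-(8 / 3) * |z.im|) ≤ 1 / C' := by
    have h5 := inv_cosh_ge (4 / 3 * (2 * z.im))
    rw [abs_mul, abs_mul, abs_of_pos (by norm_num : (0:ℝ) < 4 / 3), abs_two] at h5
    rw [show -(8 / 3) * |z.im| = -(4 / 3 * (2 * |z.im|)) by ring]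
    exact h5
  have hy : 2 * (cP * (4 / 3 - b) * Real.exp (-(8 / 3) * |z.im|)) ≤ 4 * (g' - g) / ((g + 2) * (g' + 2)) := by
    have e1 : 4 * (k * C) / (7 * C * (7 * C')) ≤ 4 * (g' - g) / ((g + 2) * (g' + 2)) := by
      have q5 : 0 < g + 2 := by linarith
      have q6 : 0 < g' + 2 := by linarith
      have q7 : 0 ≤ k * C := by positivity
      have q8 : (g + 2) * (g' + 2) ≤ 7 * C * (7 * C') := mul_le_mul u1 u2 q6.le (by positivity)
      exact div_le_div₀ (by linarith) (by linarith) (by positivity) q8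
    refine le_trans ?_ e1
    have e2 : 4 * (k * C) / (7 * C * (7 * C')) = 4 * k / 49 * (1 / C') := by
      have : C ≠ 0 := by positivity
      have : C' ≠ 0 := by positivity
      field_simp
      norm_num
    rw [e2]
    have e3 : 2 * (cP * (4 / 3 - b) * Real.exp (-(8 / 3) * |z.im|)) = 4 * k / 49 * Real.exp (-(8 / 3) * |z.im|) := by
      rw [hk]
      unfold cP
      ring
    rw [e3]
    exact mul_le_mul_of_nonneg_left hexp (by positivity)
  have h6 := ratio_le q1 hgg hy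
  rw [← q2, ← q4] at h6
  set y := cP * (4 / 3 - b) * Real.exp (-(8 / 3) * |z.im|) with hyd
  have e4 : ‖psi (4 / 3) z‖ ^ 2 * Real.exp (-(2 * y)) = (‖psi (4 / 3) z‖ * Real.exp (-y)) ^ 2 := by
    rw [mul_pow, ← Real.exp_nat_mul]
    congr 2
    push_cast
    ring
  rw [e4] at h6
  exact (sq_le_sq₀ (norm_nonneg _) (by positivity)).1 h6

/-- `|psi_0|` on the line `- l / 2` against the line `- 3 l / 2`, quantitative -/
theorem norm_psi_T_gap (t : ℝ) : ‖psi (4 / 3) (posT t)‖ ≤ ‖psi (4 / 3) (posT t - l)‖ *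
    Real.exp (-(1 / 200 * Real.exp (-(8 / 3) * |t|))) := by
  have hl := l_pos
  have hpi := Real.pi_pos
  have e1 : (posT t).re + l / 2 = 0 := by
    unfold posT
    rw [NUO.vl_re]
    ring
  have e2 : (posT t - l).re + l / 2 = -l := by
    unfold posT
    rw [sub_re, NUO.vl_re, ofReal_re]
    ring
  have i1 : (posT t).im = t := NUO.vl_im _ _
  have i2 : (posT t - l).im = t := by
    rw [sub_im, i1, ofReal_im, sub_zero]
  have hcl : Real.cos (4 / 3 * l) = √3 / 2 := by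
    rw [show 4 / 3 * l = Real.pi / 6 by unfold l; ring, Real.cos_pi_div_six]
  have hk : Real.cos (4 / 3 * (2 * -l)) = 1 / 2 := by
    rw [show 4 / 3 * (2 * -l) = -(Real.pi / 3) by unfold l; ring, Real.cos_neg,
      Real.cos_pi_div_three]
  have s3 := sqrt3_pos
  have s3' := sqrt3_sq
  have s3u : √3 ≤ 1.8 := by
    rw [Real.sqrt_le_left (by norm_num)]
    norm_num
  have h1 := norm_psi_sq (β := 4 / 3) (z := posT t) (by rw [hcl]; positivity)
    (by rw [e1]; simp)
  have h2 := norm_psi_sq (β := 4 / 3) (z := posT t - l) (by rw [hcl]; positivity)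
    (by rw [e2, hk]; norm_num)
  rw [e1, i1] at h1
  rw [e2, i2] at h2
  have hC := Real.one_le_cosh (4 / 3 * (2 * t))
  set C := Real.cosh (4 / 3 * (2 * t)) with hCd
  have g1 : gq (2 * 0) (2 * t) (4 / 3) = 2 / √3 * (C + 3 / (4 * C)) := by
    unfold gq
    rw [hcl, mul_zero, mul_zero, Real.cos_zero, ← hCd]
    have : C ≠ 0 := by positivity
    have e3 : (√3 / 2) ^ 2 = 3 / 4 := by
      rw [div_pow, Real.sq_sqrt (by norm_num)]
      norm_num
    rw [e3]
    field_simp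
    ring
  have g2 : gq (2 * -l) (2 * t) (4 / 3) = 2 / √3 * (2 * C) := by
    unfold gq
    rw [hcl, hk, ← hCd]
    have : C ≠ 0 := by positivity
    have e3 : (√3 / 2) ^ 2 = 3 / 4 := by
      rw [div_pow, Real.sq_sqrt (by norm_num)]
      norm_num
    rw [e3]
    field_simp
    ring
  rw [g1] at h1
  rw [g2] at h2
  have hC0 : 0 < C := by linarith
  have hd : 1 / 4 * C ≤ 2 * C - (C + 3 / (4 * C)) := by
    have h5 : 3 / (4 * C) ≤ 3 / 4 * C := by
      rw [div_le_iff₀ (by positivity)]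
      nlinarith
    linarith
  have hgg : 2 / √3 * (C + 3 / (4 * C)) ≤ 2 / √3 * (2 * C) := by
    refine mul_le_mul_of_nonneg_left ?_ (by positivity)
    linarith
  have hexp : Real.exp (-(8 / 3) * |t|) ≤ 1 / C := by
    have h5 := inv_cosh_ge (4 / 3 * (2 * t))
    rw [abs_mul, abs_mul, abs_of_pos (by norm_num : (0:ℝ) < 4 / 3), abs_two] at h5
    rw [show -(8 / 3) * |t| = -(4 / 3 * (2 * |t|)) by ring]
    exact h5
  have hy : 2 * (1 / 200 * Real.exp (-(8 / 3) * |t|)) ≤ 4 * (2 / √3 * (2 * C) - 2 / √3 * (C + 3 / (4 * C))) /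
      ((2 / √3 * (C + 3 / (4 * C)) + 2) * (2 / √3 * (2 * C) + 2)) := by
    have q0 : 1 ≤ 2 / √3 := by
      rw [le_div_iff₀ s3]
      linarith
    have q1 : 2 / √3 ≤ 2 := by
      rw [div_le_iff₀ s3]
      have : (1:ℝ) ≤ √3 := Real.le_sqrt_of_sq_le (by norm_num)
      linarith
    set κ := 2 / √3 with hκ
    have h5 : 0 < 3 / (4 * C) := by positivity
    have q2 : κ * (C + 3 / (4 * C)) + 2 ≤ 6 * C := by
      have h6 : 3 / (4 * C) ≤ 3 / 4 * C := by
        rw [div_le_iff₀ (by positivity)]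
        nlinarith
      nlinarith
    have q3 : κ * (2 * C) + 2 ≤ 6 * C := by nlinarith
    have q4 : 1 / 4 * C ≤ κ * (2 * C) - κ * (C + 3 / (4 * C)) := by nlinarith
    have q5 : 4 * (1 / 4 * C) / (6 * C * (6 * C)) ≤ 4 * (κ * (2 * C) - κ * (C + 3 / (4 * C))) /
      ((κ * (C + 3 / (4 * C)) + 2) * (κ * (2 * C) + 2)) := by
      refine div_le_div₀ (by linarith [mul_pos (by norm_num : (0:ℝ) < 1 / 4) hC0]) (by linarith) (by positivity) ?_
      exact mul_le_mul q2 q3 (by positivity) (by positivity)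
    refine le_trans ?_ q5
    have e5 : 4 * (1 / 4 * C) / (6 * C * (6 * C)) = 1 / 36 * (1 / C) := by
      field_simp
      norm_num
    rw [e5]
    have := Real.exp_pos (-(8 / 3) * |t|)
    linarith
  have h6 := ratio_le h1.1 hgg hy
  rw [← h1.2, ← h2.2] at h6
  set y := 1 / 200 * Real.exp (-(8 / 3) * |t|) with hyd
  have e4 : ‖psi (4 / 3) (posT t - l)‖ ^ 2 * Real.exp (-(2 * y)) = (‖psi (4 / 3) (posT t - l)‖ * Real.exp (-y)) ^ 2 := by
    rw [mul_pow, ← Real.exp_nat_mul]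
    congr 2
    push_cast
    ring
  rw [e4] at h6
  exact (sq_le_sq₀ (norm_nonneg _) (by positivity)).1 h6

/-- constant of the suppression of `St` -/
def cT : ℝ := min cP (1 / 200)

lemma cT_pos : 0 < cT := lt_min cP_pos (by norm_num)

/-- **the cutoff factor of `St` is suppressed in the bulk** -/
theorem norm_cutT_supp {β : ℝ} (h1 : 1 ≤ β) (h2 : β ≤ 4 / 3) (m : ℕ) (t : ℝ) :
    ‖ph m β (posT t) * ph m β (posT t - l) - ph m (4 / 3) (posT t)‖ ≤
      4 * (Real.exp (-(m * NUMF.Ag (1 / 2) t)) *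
        Real.exp (-(cT * (4 / 3 - β) * (m * Real.exp (-(8 / 3) * |t|))))) := by
  have hl := l_pos
  have e1 : (posT t).re + l / 2 = 0 := by
    unfold posT
    rw [NUO.vl_re]
    ring
  have e2 : (posT t - l).re + l / 2 = -l := by
    unfold posT
    rw [sub_re, NUO.vl_re, ofReal_re]
    ring
  have i1 : (posT t).im = t := NUO.vl_im _ _
  have i2 : (posT t - l).im = t := by
    rw [sub_im, i1, ofReal_im, sub_zero]
  have hb0 : 0 ≤ 4 / 3 - β := by linarith
  have hb1 : 4 / 3 - β ≤ 1 := by linarith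
  set E := Real.exp (-(8 / 3) * |t|) with hE
  have hE0 : 0 < E := Real.exp_pos _
  have hcT := cT_pos
  set y := cT * (4 / 3 - β) * E with hy
  have hy0 : 0 ≤ y := by positivity
  have hle1 : ‖psi (4 / 3) (posT t - l)‖ ≤ 1 := by
    refine norm_psi_le_one (adm43 l_pos.le (by linarith [l_pos])) ?_
    rw [e2, abs_neg, abs_of_pos l_pos]
  set b := ‖psi (4 / 3) (posT t - l)‖ with hb
  have hb0' : 0 ≤ b := norm_nonneg _
  have m3 : ‖psi (4 / 3) (posT t)‖ ≤ b * Real.exp (-y) := by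
    refine (norm_psi_T_gap t).trans (mul_le_mul_of_nonneg_left (Real.exp_le_exp.2 ?_) hb0')
    have h5 : cT * (4 / 3 - β) ≤ 1 / 200 * 1 := mul_le_mul (min_le_right _ _) hb1 hb0 (by norm_num)
    nlinarith
  have m1 : ‖psi β (posT t)‖ ≤ b * Real.exp (-y) := by
    refine le_trans ?_ m3
    refine norm_psi_mono (by linarith) h2 (by unfold l; linarith [Real.pi_pos]) ?_
    rw [e1, abs_zero]
    linarith [Real.pi_pos]
  have m2 : ‖psi β (posT t - l)‖ ≤ b * Real.exp (-y) := by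
    have h5 := norm_psi_gap (z := posT t - l) h1 h2 (Or.inr e2)
    rw [i2] at h5
    refine h5.trans (mul_le_mul_of_nonneg_left (Real.exp_le_exp.2 ?_) hb0')
    have h6 : cT * (4 / 3 - β) ≤ cP * (4 / 3 - β) := mul_le_mul_of_nonneg_right (min_le_left _ _) hb0
    have h7 : cT * (4 / 3 - β) * E ≤ cP * (4 / 3 - β) * E := mul_le_mul_of_nonneg_right h6 hE0.le
    linarith
  have hq : Real.exp (-(m * NUMF.Ag (1 / 2) t)) * Real.exp (-(cT * (4 / 3 - β) * (m * E))) =
      (b * Real.exp (-y)) ^ m := by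
    rw [hb, norm_psi_T_sub, ← Real.exp_add, ← Real.exp_add, ← Real.exp_nat_mul]
    congr 1
    rw [hy]
    ring
  rw [hq]
  set q := b * Real.exp (-y) with hqd
  have hq0 : 0 ≤ q := by positivity
  have hq1 : q ≤ 1 := by
    have : Real.exp (-y) ≤ 1 := Real.exp_le_one_iff.2 (by linarith)
    have h0 := Real.exp_pos (-y)
    nlinarith
  have a1 : ‖psi β (posT t) ^ m‖ ≤ q ^ m := by
    rw [norm_pow]
    exact pow_le_pow_left₀ (norm_nonneg _) m1 m
  have a2 : ‖psi β (posT t - l) ^ m‖ ≤ q ^ m := by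
    rw [norm_pow]
    exact pow_le_pow_left₀ (norm_nonneg _) m2 m
  have a3 : ‖psi (4 / 3) (posT t) ^ m‖ ≤ q ^ m := by
    rw [norm_pow]
    exact pow_le_pow_left₀ (norm_nonneg _) m3 m
  have hqm1 : q ^ m ≤ 1 := pow_le_one₀ hq0 hq1
  have hqm0 : 0 ≤ q ^ m := pow_nonneg hq0 m
  unfold ph
  have e : (1 - psi β (posT t) ^ m) * (1 - psi β (posT t - l) ^ m) -
      (1 - psi (4 / 3) (posT t) ^ m) = psi (4 / 3) (posT t) ^ m +
        (psi β (posT t) ^ m * psi β (posT t - l) ^ m +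
          (-psi β (posT t) ^ m + -psi β (posT t - l) ^ m)) := by ring
  rw [e]
  have n1 := norm_add_le (psi (4 / 3) (posT t) ^ m) (psi β (posT t) ^ m * psi β (posT t - l) ^ m +
          (-psi β (posT t) ^ m + -psi β (posT t - l) ^ m))
  have n2 := norm_add_le (psi β (posT t) ^ m * psi β (posT t - l) ^ m)
    (-psi β (posT t) ^ m + -psi β (posT t - l) ^ m)
  have n3 := norm_add_le (-psi β (posT t) ^ m) (-psi β (posT t - l) ^ m)
  rw [norm_neg, norm_neg] at n3
  rw [norm_mul] at n2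
  have n4 : ‖psi β (posT t) ^ m‖ * ‖psi β (posT t - l) ^ m‖ ≤ q ^ m := by
    calc _ ≤ q ^ m * 1 := mul_le_mul a1 (a2.trans hqm1) (norm_nonneg _) hqm0
      _ = _ := mul_one _
  linarith

end NUCR

end
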