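import Pool.Agent.NUCR.DefB
import Pool.Agent.NUCR.LgEq
import Pool.Agent.NUCR.PsiSup
import Pool.Agent.NUO.OneAct

/-!
# One body factors of the objects for a complex number of rows (board/CR, helper78)

(i) `ob1g_RNB`: the modulus is the value at the real part times `exp (- s.im * ar)`, `ar` the sum of the imaginary parts of the
logarithms over the quanta of the object.
(ii) `ob1g_RNr`: real part against `ob1 M`, the difference is `exp ((σ - M) wmf)`, `wmf` the sum of `mf` over the quanta; bounds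
of every kind; `one_actR`.
-/

set_option autoImplicit false

noncomputable section

open Complex MeasureTheory Set

namespace NUCR

open NUP1 NUO

/-! ### (i) the split -/

/-- the region where the logarithm is defined -/
def Reg (u : ℂ) : Prop := (-(3 * l) < u.re ∧ u.re < 0) ∨ (0 < u.re ∧ u.re < 2 * l)

lemma exp_lgu {tc : ℝ} {u : ℂ} (h : Reg u) : Complex.exp (lgu tc u) = Fr u := by
  unfold lgu
  rcases h with ⟨h1, h2⟩ | ⟨h1, h2⟩
  · rw [if_neg (not_lt.2 h2.le)]
    exact NUP1S.exp_lgc tc h1 h2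
  · rw [if_pos h1]
    exact exp_lgA h1 h2

lemma norm_Fr (u : ℂ) : ‖Fr u‖ = ‖Complex.sin (u + 3 * l)‖ ^ 2 / (‖Complex.sin u‖ * ‖Complex.sin (u - 2 * l)‖) := by
  unfold Fr
  rw [norm_div, norm_neg, norm_pow, norm_mul]
  rfl

lemma RNr_Fr (σ : ℝ) (u : ℂ) : RNr σ u = 2 * Real.cos l * ‖Fr u‖ ^ σ := by
  unfold RNr
  rw [norm_Fr]

theorem RNB_eq {u : ℂ} (h : Reg u) (s : ℂ) (tc : ℝ) :
    RNB s tc u = RNr s.re u * Real.exp (-(s.im * (lgu tc u).im)) := by
  have e := exp_lgu (tc := tc) h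
  have h1 : ‖Fr u‖ = Real.exp (lgu tc u).re := by
    rw [← e, Complex.norm_exp]
  rw [RNr_Fr, h1]
  unfold RNB
  rw [Complex.norm_exp, Complex.mul_re, ← Real.exp_mul, mul_assoc (2 * Real.cos l) (Real.exp _), ← Real.exp_add]
  congr 2
  ring

/-- sum of the imaginary parts of the logarithms over the quanta of an object -/
def ar (tc jL e ρ : ℝ) (x : Xo) : ℝ :=
  match NUO.kd x with
  | .L => (lgu tc (posL jL (ht x))).im
  | .St => (lgu tc (posT (ht x))).im + (lgu tc (posT (ht x) - l)).im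
  | .S => (lgu tc (posS e (ht x))).im + (lgu tc (posS e (ht x) - l)).im
  | .Sv => (lgu tc (posS e (ht x))).im + (lgu tc (posS e (ht x) - l)).im + (lgu tc (posV e ρ (ht x) (an x))).im
  | .Svv => (lgu tc (posS e (ht x))).im + (lgu tc (posS e (ht x) - l)).im + 2 * (lgu tc (posS e (ht x) + 2 * l)).im

/-- conditions on the offsets -/
structure OffOK (jL e ρ : ℝ) : Prop where
  j1 : 1 < jL
  j4 : jL < 4
  e0 : 0 < e
  e1 : e < 1
  r0 : 0 ≤ ρ
  r1 : ρ < (1 - e) * l

lemma reg_left {j : ℝ} (h1 : 1 < j) (h4 : j < 4) (t : ℝ) : Reg (vl ((1 - j) * l) t) := by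
  have hl := l_pos
  left
  rw [NUO.vl_re]
  constructor <;> nlinarith

lemma reg_right {j : ℝ} (h1 : -1 < j) (h4 : j < 1) (t : ℝ) : Reg (vl ((1 - j) * l) t) := by
  have hl := l_pos
  right
  rw [NUO.vl_re]
  constructor <;> nlinarith

variable {jL e ρ : ℝ}

lemma reg_posL (h : OffOK jL e ρ) (t : ℝ) : Reg (posL jL t) := by
  rw [posL_eq]
  exact reg_left h.j1 h.j4 t

lemma reg_posT (t : ℝ) : Reg (posT t) ∧ Reg (posT t - l) := by
  rw [posT_eq, vl_sub_l]
  exact ⟨reg_left (by norm_num) (by norm_num) t, reg_left (by norm_num) (by norm_num) t⟩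

lemma reg_posS (h : OffOK jL e ρ) (t : ℝ) : Reg (posS e t) ∧ Reg (posS e t - l) ∧ Reg (posS e t + 2 * l) := by
  have h0 := h.e0
  have h1 := h.e1
  rw [posP_eq, posS_eq, vl_sub_l]
  exact ⟨reg_left (by linarith) (by linarith) t, reg_left (by linarith) (by linarith) t,
    reg_right (by linarith) (by linarith) t⟩

/-- offset of the satellite on the circle -/
def jV (e ρ a : ℝ) : ℝ := e - ρ * Real.cos (2 * Real.pi * a) / l

/-- height of the satellite on the circle -/
def tV (ρ t a : ℝ) : ℝ := t + ρ * Real.sin (2 * Real.pi * a)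

lemma posV_eq' (e ρ t a : ℝ) : posV e ρ t a = vl ((1 - jV e ρ a) * l) (tV ρ t a) := posV_eq

lemma jV_mem (h : OffOK jL e ρ) (a : ℝ) : -1 < jV e ρ a ∧ jV e ρ a < 1 := by
  have hl := l_pos
  have h0 := h.e0
  have h1 := h.e1
  have h2 := h.r0
  have h3 := h.r1
  have hc := abs_le.1 (Real.abs_cos_le_one (2 * Real.pi * a))
  have h4 : |ρ * Real.cos (2 * Real.pi * a) / l| < 1 - e := by
    rw [abs_div, abs_of_pos hl, div_lt_iff₀ hl, abs_mul, abs_of_nonneg h2]
    have := Real.abs_cos_le_one (2 * Real.pi * a)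
    nlinarith
  have h5 := abs_lt.1 h4
  unfold jV
  constructor <;> linarith [h5.1, h5.2]

lemma reg_posV (h : OffOK jL e ρ) (t a : ℝ) : Reg (posV e ρ t a) := by
  rw [posV_eq']
  exact reg_right (jV_mem h a).1 (jV_mem h a).2 _

/-- **(i)** the modulus of the one body weight for a complex number of rows -/
theorem ob1g_RNB (h : OffOK jL e ρ) (s : ℂ) (tc : ℝ) (M : ℕ) (β : ℝ) (x : Xo) :
    ob1g (RNB s tc) M β jL e ρ x = ob1g (RNr s.re) M β jL e ρ x * Real.exp (-(s.im * ar tc jL e ρ x)) := by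
  obtain ⟨s1, s2, s3⟩ := reg_posS h (ht x)
  obtain ⟨t1, t2⟩ := reg_posT (ht x)
  have l1 := reg_posL h (ht x)
  have v1 := reg_posV h (ht x) (an x)
  unfold ob1g ar
  generalize NUO.kd x = kk
  cases kk with
  | L =>
    simp only
    rw [RNB_eq l1]
    ring
  | St =>
    simp only
    rw [RNB_eq t1, RNB_eq t2, mul_add, neg_add, Real.exp_add]
    ring
  | S =>
    simp only [oSg]
    rw [RNB_eq s1, RNB_eq s2, mul_add, neg_add, Real.exp_add]
    ring
  | Sv =>
    simp only [oSg]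
    rw [RNB_eq s1, RNB_eq s2, RNB_eq v1, mul_add, mul_add, neg_add, neg_add, Real.exp_add, Real.exp_add]
    ring
  | Svv =>
    simp only [oSg]
    rw [RNB_eq s1, RNB_eq s2, RNB_eq s3, mul_add, mul_add, neg_add, neg_add, Real.exp_add, Real.exp_add]
    have e1 : Real.exp (-(s.im * (2 * (lgu tc (posS e (ht x) + 2 * l)).im))) =
        Real.exp (-(s.im * (lgu tc (posS e (ht x) + 2 * l)).im)) ^ 2 := by
      rw [← Real.exp_nat_mul]
      congr 1
      push_cast
      ring
    rw [e1]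
    ring

/-! ### (ii) the real part -/

lemma two_cos_l_ne : 2 * Real.cos l ≠ 0 := by
  have := cos_l_pos
  positivity

lemma fr_rf {j : ℝ} (h0 : 0 ≤ j) (h1 : j ≠ 1) (h4 : j < 4) (t : ℝ) : ‖Fr (vl ((1 - j) * l) t)‖ = Real.exp (rf j t) := by
  have h := RN_eq h0 h1 h4 1 t
  rw [norm_Fr]
  unfold RN at h
  rw [pow_one, Nat.cast_one, one_mul] at h
  exact mul_left_cancel₀ two_cos_l_ne h

lemma RNr_rf {j : ℝ} (h0 : 0 ≤ j) (h1 : j ≠ 1) (h4 : j < 4) (σ t : ℝ) (M : ℕ) :
    RNr σ (vl ((1 - j) * l) t) = RN M (vl ((1 - j) * l) t) * Real.exp ((σ - M) * rf j t) := by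
  rw [RNr_Fr, fr_rf h0 h1 h4, RN_eq h0 h1 h4, ← Real.exp_mul, mul_assoc (2 * Real.cos l) (Real.exp (M * rf j t)),
    ← Real.exp_add]
  congr 2
  ring

/-- sum of `mf` over the quanta of an object -/
def wmf (jL e ρ : ℝ) (x : Xo) : ℝ :=
  match NUO.kd x with
  | .L => NUMF.mf jL (ht x)
  | .St => NUMF.mf (3 / 2) (ht x) + NUMF.mf (3 / 2 + 1) (ht x)
  | .S => NUMF.mf (2 + e) (ht x) + NUMF.mf (2 + e + 1) (ht x)
  | .Sv => NUMF.mf (2 + e) (ht x) + NUMF.mf (2 + e + 1) (ht x) + NUMF.mf (jV e ρ (an x)) (tV ρ (ht x) (an x))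
  | .Svv => NUMF.mf (2 + e) (ht x) + NUMF.mf (2 + e + 1) (ht x) + 2 * NUMF.mf e (ht x)

theorem mfo_L (jL e ρ : ℝ) {x : Xo} (hx : NUO.kd x = .L) : mfo (parts jL e ρ x) = clo jL (ht x) := by
  have hp : parts jL e ρ x = [(sp x, false, posL jL (ht x))] := by
    unfold parts
    rw [hx]
  rw [hp]
  exact (good_quantum (sp x) jL (ht x)).val

theorem mfo_T (jL e ρ : ℝ) {x : Xo} (hx : NUO.kd x = .St) :
    mfo (parts jL e ρ x) = clo (3 / 2) (ht x) + clo (3 / 2 + 1) (ht x) := by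
  have hp : parts jL e ρ x = [(sp x, true, posT (ht x))] := by
    unfold parts
    rw [hx]
  rw [hp, posT_eq]
  exact (good_string (sp x) (3 / 2) (ht x)).val

/-- more precise conditions on the offsets: the satellite stays at offsets in `[0, 1)` -/
structure OffR (jL e ρ : ℝ) : Prop extends OffOK jL e ρ where
  r2 : ρ ≤ e * l

lemma jV_mem0 (h : OffR jL e ρ) (a : ℝ) : 0 ≤ jV e ρ a ∧ jV e ρ a < 1 := by
  have hl := l_pos
  have h2 := h.r0
  have h3 := h.r2
  refine ⟨?_, (jV_mem h.toOffOK a).2⟩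
  have hc := abs_le.1 (Real.abs_cos_le_one (2 * Real.pi * a))
  have h4 : ρ * Real.cos (2 * Real.pi * a) / l ≤ e := by
    rw [div_le_iff₀ hl]
    nlinarith [hc.2]
  unfold jV
  linarith

/-- **(ii)** the real part against the integer row number `M` -/
theorem ob1g_RNr (h : OffR jL e ρ) (σ : ℝ) (M : ℕ) (β : ℝ) (x : Xo) :
    ob1g (RNr σ) M β jL e ρ x * Real.exp (σ * mfo (parts jL e ρ x)) =
      ob1 M β jL e ρ x * Real.exp (M * mfo (parts jL e ρ x)) * Real.exp ((σ - M) * wmf jL e ρ x) := by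
  have h0 := h.e0
  have h1 := h.e1
  have hj1 := h.j1
  have hj4 := h.j4
  set t := ht x with ht'
  have qL := RNr_rf (j := jL) (by linarith) (by linarith) hj4 σ t M
  have qT1 := RNr_rf (j := 3 / 2) (by norm_num) (by norm_num) (by norm_num) σ t M
  have qT2 := RNr_rf (j := 3 / 2 + 1) (by norm_num) (by norm_num) (by norm_num) σ t M
  have qS1 := RNr_rf (j := 2 + e) (by linarith) (by linarith) (by linarith) σ t M
  have qS2 := RNr_rf (j := 2 + e + 1) (by linarith) (by linarith) (by linarith) σ t M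
  have qP := RNr_rf (j := e) h0.le h1.ne (by linarith) σ t M
  have qV := RNr_rf (j := jV e ρ (an x)) (jV_mem0 h _).1 (jV_mem0 h _).2.ne (by linarith [(jV_mem0 h (an x)).2]) σ
    (tV ρ t (an x)) M
  rw [← posL_eq] at qL
  rw [← vl_sub_l, ← posT_eq] at qT2
  rw [← posT_eq] at qT1
  rw [← vl_sub_l, ← posS_eq] at qS2
  rw [← posS_eq] at qS1
  rw [← posP_eq] at qP
  rw [← posV_eq'] at qV
  have key : ob1g (RNr σ) M β jL e ρ x = ob1 M β jL e ρ x * Real.exp ((σ - M) * (wmf jL e ρ x - mfo (parts jL e ρ x))) := by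
    rw [ob1_eq]
    unfold ob1g wmf
    rcases hk : NUO.kd x with _ | _ | _ | _ | _
    · simp only
      rw [mfo_L jL e ρ hk, ← ht', qL, mf_split]
      rw [show rf jL t + clo jL t - clo jL t = rf jL t by ring]
      ring
    · simp only
      rw [mfo_T jL e ρ hk, ← ht', qT1, qT2, mf_split, mf_split]
      rw [show rf (3 / 2) t + clo (3 / 2) t + (rf (3 / 2 + 1) t + clo (3 / 2 + 1) t) - (clo (3 / 2) t + clo (3 / 2 + 1) t) =
        rf (3 / 2) t + rf (3 / 2 + 1) t by ring, mul_add, Real.exp_add]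
      ring
    · simp only [oSg]
      rw [mfo_S jL e ρ hk, ← ht', qS1, qS2, mf_split, mf_split]
      rw [show rf (2 + e) t + clo (2 + e) t + (rf (2 + e + 1) t + clo (2 + e + 1) t) -
        (clo (2 + e) t + clo (2 + e + 1) t) = rf (2 + e) t + rf (2 + e + 1) t by ring, mul_add, Real.exp_add]
      ring
    · simp only [oSg]
      have hm := mfo_Sv jL e ρ hk
      rw [hm, ← ht', qS1, qS2, qV, mf_split, mf_split, mf_split]
      rw [show rf (2 + e) t + clo (2 + e) t + (rf (2 + e + 1) t + clo (2 + e + 1) t) +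
        (rf (jV e ρ (an x)) (tV ρ t (an x)) + clo (jV e ρ (an x)) (tV ρ t (an x))) -
        (clo (2 + e) t + clo (2 + e + 1) t + (clo (e - ρ * Real.cos (2 * Real.pi * an x) / l)
          (t + ρ * Real.sin (2 * Real.pi * an x)) + 0)) = rf (2 + e) t + rf (2 + e + 1) t +
          rf (jV e ρ (an x)) (tV ρ t (an x)) by unfold jV tV; ring, mul_add, mul_add, Real.exp_add, Real.exp_add]
      ring
    · simp only [oSg]
      rw [mfo_Svv jL e ρ hk, ← ht', qS1, qS2, qP, mf_split, mf_split, mf_split]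
      rw [show rf (2 + e) t + clo (2 + e) t + (rf (2 + e + 1) t + clo (2 + e + 1) t) + 2 * (rf e t + clo e t) -
        (clo (2 + e) t + clo (2 + e + 1) t + (clo e t + (clo e t + 0))) = rf (2 + e) t + rf (2 + e + 1) t +
          (rf e t + rf e t) by ring, mul_add, mul_add, mul_add, Real.exp_add, Real.exp_add, Real.exp_add]
      ring
  rw [key, mul_assoc, ← Real.exp_add, mul_assoc, ← Real.exp_add]
  congr 2
  ring

end NUCR

end
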