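import Pool.Agent.NUCR.OneActB
import Pool.Agent.NUCR.OneC

/-!
# One body factors at a real number of rows (board/CR, part O-c, real part)

`σ` = real number of pairs of rows, `M` = number of points of the cutoff, `M / 2 ≤ σ ≤ M + 1`.
`one_actR`: `ob1g (RNr σ) M .. * exp (σ mfo + σ slack + (5/2) (|t| - T')_+ + K0)` (times
`(r + 1)^k0` for `S`, `Sv`) is at most

* `C Phi (T / (1 - ep))` for `L`, `Svv`;
* `C Phi (T / (1 - ep)) exp (- cT (4/3 - β) M exp (-(8/3) |t|))` for `St`;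
* `C (r + L)^(k0+6) Phi T exp (- c exp ((8/3) (T - |t|)))` for `S`, `Sv`.
-/

set_option autoImplicit false

noncomputable section

open Complex MeasureTheory Set

namespace NUCR

open NUP1 NUO

theorem cut_two {m M : ℕ} (h : M ≤ 2 * m) (β t : ℝ) : cut M β t ≤ 2 * cut m β t := by
  unfold cut
  have h1 : (M : ℝ) ≤ 2 * m := by exact_mod_cast h
  have hE := Real.exp_pos (-(2 * β) * |t|)
  rcases le_total 1 (m * Real.exp (-(2 * β) * |t|)) with h2 | h2
  · rw [min_eq_left h2]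
    exact (min_le_left _ _).trans (by norm_num)
  · rw [min_eq_right h2]
    refine (min_le_right _ _).trans ?_
    nlinarith

/-! ### the sums of `mf` -/

theorem wmf_L {jL : ℝ} (h2 : 2 ≤ jL) (h3 : jL ≤ 3) (e ρ : ℝ) {x : Xo} (hx : NUO.kd x = .L) :
    wmf jL e ρ x = 0 := by
  unfold wmf
  rw [hx]
  exact NUMF.mf_neutral h2 h3 _

theorem wmf_T (jL e ρ : ℝ) {x : Xo} (hx : NUO.kd x = .St) :
    wmf jL e ρ x = NUMF.Ag (1 / 2) (ht x) := by
  unfold wmf
  rw [hx]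
  simp only
  rw [NUMF.mf_string (j := 3 / 2) (by norm_num) (by norm_num) (ht x),
    show (2 : ℝ) - 3 / 2 = 1 / 2 by norm_num]

theorem wmf_S {e : ℝ} (he0 : 0 ≤ e) (he1 : e < 1) (jL ρ : ℝ) {x : Xo} (hx : NUO.kd x = .S) :
    wmf jL e ρ x = -(2 * NUMF.Ag e (ht x)) := by
  unfold wmf
  rw [hx]
  simp only
  rw [NUMF.mf_string' (j := 2 + e) (by linarith) (by linarith) (ht x), show 2 + e - 2 = e by ring]
  ring

theorem wmf_Svv {e : ℝ} (he0 : 0 ≤ e) (he1 : e < 1) (jL ρ : ℝ) {x : Xo} (hx : NUO.kd x = .Svv) :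
    wmf jL e ρ x = 0 := by
  unfold wmf
  rw [hx]
  simp only
  rw [NUMF.mf_string' (j := 2 + e) (by linarith) (by linarith) (ht x), show 2 + e - 2 = e by ring,
    NUMF.mf_low he0 he1]
  ring

theorem wmf_Sv {e e1 ρ : ℝ} (he0 : 0 ≤ e) (he : e ≤ e1) (he1 : e1 < 1)
    (h0 : 0 < ρ) (h1 : ρ ≤ e * l) (h2 : ρ ≤ l / 2) (h3 : ρ ≤ (1 - e1) / 2 * l)
    (jL : ℝ) {x : Xo} (hx : NUO.kd x = .Sv) :
    |wmf jL e ρ x + NUMF.Ag e (ht x)| ≤ KV e1 * (ρ * Real.exp (-(8 / 3) * |ht x|)) := by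
  have hl := l_pos
  unfold wmf
  rw [hx]
  simp only
  set t := ht x with ht
  set θ : ℝ := 2 * Real.pi * an x with hθ
  set j : ℝ := e - ρ * Real.cos θ / l with hj
  set t' : ℝ := t + ρ * Real.sin θ with ht'
  have hcos := Real.abs_cos_le_one θ
  have hsin := Real.abs_sin_le_one θ
  obtain ⟨c1, c2⟩ := abs_le.1 hcos
  have hjl : j * l = e * l - ρ * Real.cos θ := by
    rw [hj]
    field_simp
  have hρc : |ρ * Real.cos θ| ≤ ρ := by
    rw [abs_mul, abs_of_pos h0]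
    exact mul_le_of_le_one_right h0.le hcos
  have hρs : |ρ * Real.sin θ| ≤ ρ := by
    rw [abs_mul, abs_of_pos h0]
    exact mul_le_of_le_one_right h0.le hsin
  obtain ⟨d1, d2⟩ := abs_le.1 hρc
  have hj0 : 0 ≤ j := by
    have : 0 ≤ j * l := by rw [hjl]; linarith
    exact nonneg_of_mul_nonneg_left this hl
  have hj1 : j * l ≤ (1 + e1) / 2 * l := by
    rw [hjl]
    nlinarith
  have hj1' : j < 1 := by
    have : j * l < 1 * l := by nlinarith
    exact lt_of_mul_lt_mul_right this hl.le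
  have hb : (1 + e1) / 2 * l < NUMF.l := by
    rw [l_eq]
    nlinarith
  have e1' : jV e ρ (an x) = j := rfl
  have e2' : tV ρ t (an x) = t' := rfl
  rw [NUMF.mf_string' (j := 2 + e) (by linarith) (by linarith) t, show 2 + e - 2 = e by ring,
    e1', e2', NUMF.mf_low hj0 hj1']
  have g6 := NUMF.Ag_lip hb (a := e) (a' := j)
    (by rw [l_eq, abs_of_nonneg (by positivity)]; nlinarith)
    (by rw [l_eq, abs_of_nonneg (by positivity)]; exact hj1) t t'
  have q1 : |t' - t| ≤ ρ := by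
    rw [ht', add_sub_cancel_left]
    exact hρs
  have q2 : |j - e| * NUMF.l ≤ ρ := by
    have : |j - e| * NUMF.l = |ρ * Real.cos θ| := by
      have e3 : (j - e) * l = -(ρ * Real.cos θ) := by
        rw [sub_mul, hjl]
        ring
      rw [l_eq, ← abs_neg (ρ * Real.cos θ), ← e3, abs_mul, abs_of_pos hl]
    rw [this]
    exact hρc
  have hK := NUMF.Kb_pos (b := (1 + e1) / 2 * l) (by
    have : 0 ≤ e1 := he0.trans he
    positivity) hb
  have q3 : |NUMF.Ag j t' - NUMF.Ag e t| ≤ KV e1 * (ρ * Real.exp (-(8 / 3) * |t|)) := by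
    refine g6.trans ?_
    have hpi := Real.pi_pos
    unfold KV
    calc 2 * Real.pi * (NUMF.Kb ((1 + e1) / 2 * l) * Real.exp (8 / 3 * |t' - t|) *
          Real.exp (-(8 / 3) * |t|)) * (|t' - t| + |j - e| * NUMF.l) ≤
        2 * Real.pi * (NUMF.Kb ((1 + e1) / 2 * l) * Real.exp (8 / 3 * l) *
          Real.exp (-(8 / 3) * |t|)) * (ρ + ρ) := by
          have : |t' - t| ≤ l := by linarith
          gcongr
      _ = _ := by ring
  refine le_trans (le_of_eq ?_) q3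
  congr 1
  ring

/-! ### kinds -/

theorem obR_L {jL β e ρ : ℝ} (hO : OffR jL e ρ) (h2 : 2 ≤ jL) (h3 : jL ≤ 5 / 2) (hβ : 0 < β)
    (hβ1 : β ≤ 4 / 3) (σ : ℝ) (M : ℕ) {x : Xo} (hx : NUO.kd x = .L) :
    ob1g (RNr σ) M β jL e ρ x * Real.exp (σ * mfo (parts jL e ρ x)) ≤
      Real.cos l / Real.pi * (4 / NUP1.kap (4 / 3) l) * cut M β (ht x) := by
  have hl := l_pos
  have hpi := Real.pi_pos
  have hcl := cos_l_pos
  rw [ob1g_RNr hO, wmf_L h2 (by linarith) e ρ hx, mul_zero, Real.exp_zero, mul_one]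
  refine (ob_L_le' h2 (by linarith) hβ hβ1 M e ρ hx).trans ?_
  have hkL := (adm43 (s := l) hl.le (by linarith)).kap_pos
  have h2 : NUP1.kap (4 / 3) l ≤ NUP1.kap (4 / 3) (|3 / 2 - jL| * l) := by
    have hab : |3 / 2 - jL| ≤ 1 := by
      rw [abs_le]
      constructor <;> linarith
    unfold kap
    refine Real.cos_le_cos_of_nonneg_of_le_pi (by positivity) ?_ ?_
    · unfold l
      linarith
    · nlinarith
  have hcut := cut_nonneg M β (ht x)
  gcongr

/-- the cutoff factor of `St` beyond the edge -/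
theorem norm_cutT_far : ∃ B : ℝ, 0 < B ∧ ∀ β : ℝ, 0 < β → β ≤ 4 / 3 → ∀ (m : ℕ) (t : ℝ),
    ‖ph m β (posT t) * ph m β (posT t - l) - ph m (4 / 3) (posT t)‖ ≤
      B * (m * Real.exp (-(2 * β) * |t|)) := by
  have hl := l_pos
  have hA2 := adm43 (s := l) l_pos.le (by linarith [l_pos])
  set B : ℝ := 2 * (4 / NUP1.kap (4 / 3) l) + 4 / NUP1.kap (4 / 3) l with hB
  have hk2 := hA2.kap_pos
  have hBp : 0 < B := by positivity
  refine ⟨B, hBp, fun β hβ0 hβ1 m t => ?_⟩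
  have hA := adm_of_le hβ0 hβ1 l_pos.le (by linarith [l_pos] : l < 3 * l / 2)
  have hk1 := hA.kap_pos
  have hk12 := kap_anti hβ0 hβ1 l_pos.le (by linarith [l_pos] : l < 3 * l / 2)
  have e1 : (posT t).re + l / 2 = 0 := by
    unfold posT
    rw [NUO.vl_re]
    ring
  have e2 : (posT t - l).re + l / 2 = -l := by
    unfold posT
    rw [sub_re, NUO.vl_re, ofReal_re]
    ring
  have i1 : (posT t).im = t := NUO.vl_im _ _
  have i2 : (posT t - l).im = t := by
    rw [sub_im, i1, ofReal_im, sub_zero]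
  have hs1 : |(posT t).re + l / 2| ≤ l := by
    rw [e1, abs_zero]
    exact l_pos.le
  have hs2 : |(posT t - l).re + l / 2| ≤ l := by
    rw [e2, abs_neg, abs_of_pos l_pos]
  have b1 := norm_ph_le_two hA hs1 m
  have b2 := norm_ph_le_exp hA hs2 m
  have b3 := norm_ph_le_exp hA2 hs1 m
  rw [i2] at b2
  rw [i1] at b3
  have hexp : Real.exp (-(2 * (4 / 3)) * |t|) ≤ Real.exp (-(2 * β) * |t|) := by
    refine Real.exp_le_exp.2 ?_
    have := abs_nonneg t
    nlinarith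
  have hm := Nat.cast_nonneg (α := ℝ) m
  set X : ℝ := m * Real.exp (-(2 * β) * |t|) with hX
  have hX0 : 0 ≤ X := by positivity
  have hX1 : (m : ℝ) * Real.exp (-(2 * (4 / 3)) * |t|) ≤ X := mul_le_mul_of_nonneg_left hexp hm
  refine (norm_sub_le _ _).trans ?_
  rw [norm_mul]
  have c0 : 4 / kap β l * X ≤ 4 / NUP1.kap (4 / 3) l * X := by gcongr
  have c1 : ‖ph m β (posT t)‖ * ‖ph m β (posT t - l)‖ ≤ 2 * (4 / NUP1.kap (4 / 3) l * X) :=
    mul_le_mul b1 (b2.trans c0) (norm_nonneg _) (by norm_num)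
  have c2 : 4 / NUP1.kap (4 / 3) l * (m * Real.exp (-(2 * (4 / 3)) * |t|)) ≤ 4 / NUP1.kap (4 / 3) l * X :=
    mul_le_mul_of_nonneg_left hX1 (by positivity)
  calc _ ≤ 2 * (4 / NUP1.kap (4 / 3) l * X) + 4 / NUP1.kap (4 / 3) l * X := by linarith
    _ = B * X := by rw [hB]; ring

theorem obR_T : ∃ C : ℝ, 0 < C ∧ ∀ ep : ℝ, 0 < ep → ep ≤ 1 / 100 → ∀ (M : ℕ) (σ : ℝ), σ ≤ M + 1 →
    0 ≤ σ → ∀ (jL e ρ : ℝ), OffR jL e ρ → ∀ (x : Xo), NUO.kd x = .St →
      ob1g (RNr σ) M (4 / 3 * (1 - ep)) jL e ρ x * Real.exp (σ * mfo (parts jL e ρ x)) ≤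
        C * (cut M (4 / 3 * (1 - ep)) (ht x) *
          Real.exp (-(cT * (4 / 3 * ep) * (M * Real.exp (-(8 / 3) * |ht x|))))) := by
  obtain ⟨K, hK, hAg⟩ := Ag_half_le
  obtain ⟨B, hB, hfar⟩ := norm_cutT_far
  have hac := aS_pos
  have hcl := cos_l_pos
  have hcT := cT_pos
  have hcT2 : cT ≤ 1 / 200 := min_le_right _ _
  refine ⟨NUO.aS * (2 * Real.cos l) ^ 2 * (4 * Real.exp K + Real.exp (2 * K) * B * Real.exp 1), by positivity,
    fun ep hep hep1 M σ hσ hσ0 jL e ρ hO x hx => ?_⟩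
  set β : ℝ := 4 / 3 * (1 - ep) with hβ
  have hβ0 : 0 < β := by rw [hβ]; linarith
  have hβ1 : β ≤ 4 / 3 := by rw [hβ]; linarith
  have hβ2 : 1 ≤ β := by rw [hβ]; linarith
  have hβ3 : 4 / 3 - β = 4 / 3 * ep := by rw [hβ]; ring
  have hob : ob1g (RNr σ) M β jL e ρ x * Real.exp (σ * mfo (parts jL e ρ x)) =
      NUO.aS * (2 * Real.cos l) ^ 2 * (Real.exp (σ * NUMF.Ag (1 / 2) (ht x)) *
        ‖ph M β (posT (ht x)) * ph M β (posT (ht x) - l) - ph M (4 / 3) (posT (ht x))‖) := by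
    rw [ob1g_RNr hO, wmf_T jL e ρ hx, ob_T_eq M β jL e ρ hx]
    have : Real.exp (σ * NUMF.Ag (1 / 2) (ht x)) = Real.exp (M * NUMF.Ag (1 / 2) (ht x)) *
        Real.exp ((σ - M) * NUMF.Ag (1 / 2) (ht x)) := by
      rw [← Real.exp_add]
      ring_nf
    rw [this]
    ring
  rw [hob, mul_assoc _ (4 * Real.exp K + _) _]
  refine mul_le_mul_of_nonneg_left ?_ (by positivity)
  set t := ht x with ht
  set E : ℝ := Real.exp (-(8 / 3) * |t|) with hE
  have hE0 : 0 < E := Real.exp_pos _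
  have hE1 : E ≤ 1 := Real.exp_le_one_iff.2 (by have := abs_nonneg t; linarith)
  have hM := Nat.cast_nonneg (α := ℝ) M
  set Y : ℝ := Real.exp (-(cT * (4 / 3 * ep) * (M * E))) with hY
  have hY0 : 0 < Y := Real.exp_pos _
  have hAg0 : 0 ≤ NUMF.Ag (1 / 2) t := by
    have := Ag_mono (a := 0) (a' := 1 / 2) le_rfl (by norm_num) (by norm_num) t
    rwa [NUMF.Ag_zero] at this
  have hAgt := hAg t
  unfold cut
  rcases le_total 1 (M * Real.exp (-(2 * β) * |t|)) with h2 | h2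
  · rw [min_eq_left h2, one_mul]
    have h3 := norm_cutT_supp hβ2 hβ1 M t
    rw [hβ3] at h3
    have h4 : Real.exp (σ * NUMF.Ag (1 / 2) t) * Real.exp (-(M * NUMF.Ag (1 / 2) t)) ≤ Real.exp K := by
      rw [← Real.exp_add]
      refine Real.exp_le_exp.2 ?_
      nlinarith
    calc Real.exp (σ * NUMF.Ag (1 / 2) t) * ‖ph M β (posT t) * ph M β (posT t - l) - ph M (4 / 3) (posT t)‖
        ≤ Real.exp (σ * NUMF.Ag (1 / 2) t) * (4 * (Real.exp (-(M * NUMF.Ag (1 / 2) t)) * Y)) :=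
          mul_le_mul_of_nonneg_left h3 (Real.exp_pos _).le
      _ = 4 * (Real.exp (σ * NUMF.Ag (1 / 2) t) * Real.exp (-(M * NUMF.Ag (1 / 2) t))) * Y := by ring
      _ ≤ 4 * Real.exp K * Y := by gcongr
      _ ≤ _ := by
          refine mul_le_mul_of_nonneg_right ?_ hY0.le
          have : 0 ≤ Real.exp (2 * K) * B * Real.exp 1 := by positivity
          linarith
  · rw [min_eq_right h2]
    have h3 := hfar β hβ0 hβ1 M t
    set X : ℝ := M * Real.exp (-(2 * β) * |t|) with hX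
    have hX0 : 0 ≤ X := by positivity
    have hX1 : M * E ≤ X := by
      refine mul_le_mul_of_nonneg_left (Real.exp_le_exp.2 ?_) hM
      have := abs_nonneg t
      nlinarith
    have n2 : Real.exp (σ * NUMF.Ag (1 / 2) t) ≤ Real.exp (2 * K) := by
      refine Real.exp_le_exp.2 ?_
      have h4 : σ * NUMF.Ag (1 / 2) t ≤ (M + 1) * (K * E) :=
        mul_le_mul hσ hAgt hAg0 (by positivity)
      have h5 : (M + 1) * (K * E) = K * (M * E) + K * E := by ring
      nlinarith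
    have hY1 : 1 ≤ Real.exp 1 * Y := by
      rw [hY, ← Real.exp_add]
      refine Real.one_le_exp ?_
      have h6 : cT * (4 / 3 * ep) ≤ 1 := by nlinarith
      have h7 : cT * (4 / 3 * ep) * (M * E) ≤ 1 * 1 :=
        mul_le_mul h6 (hX1.trans h2) (by positivity) zero_le_one
      linarith
    have hEB : 0 ≤ Real.exp (2 * K) * B * X := by positivity
    calc _ ≤ Real.exp (2 * K) * (B * X) := mul_le_mul n2 h3 (norm_nonneg _) (Real.exp_pos _).le
      _ = Real.exp (2 * K) * B * X * 1 := by ring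
      _ ≤ Real.exp (2 * K) * B * X * (Real.exp 1 * Y) := mul_le_mul_of_nonneg_left hY1 hEB
      _ = Real.exp (2 * K) * B * Real.exp 1 * (X * Y) := by ring
      _ ≤ _ := by
          refine mul_le_mul_of_nonneg_right ?_ (by positivity)
          have := Real.exp_pos K
          linarith

theorem obR_S {jL e e1 ρ : ℝ} (hO : OffR jL e ρ) (he : e ≤ e1) (he1 : e1 < 1) (σ : ℝ) (M : ℕ) (β : ℝ)
    {x : Xo} (hx : NUO.kd x = .S) :
    ob1g (RNr σ) M β jL e ρ x * Real.exp (σ * mfo (parts jL e ρ x)) ≤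
      NUO.aS * (2 * Real.cos l) ^ 2 * (4 / NUP1.kap (4 / 3) ((1 / 2 + e1) * l)) * cut M (4 / 3) (ht x) *
        Real.exp (-(2 * σ * NUMF.Ag e (ht x))) := by
  have he0 := hO.e0.le
  rw [ob1g_RNr hO, wmf_S he0 (he.trans_lt he1) jL ρ hx]
  refine (mul_le_mul_of_nonneg_right (ob_S_le he0 he he1 M β jL ρ hx) (Real.exp_pos _).le).trans
    (le_of_eq ?_)
  rw [mul_assoc _ (Real.exp _) (Real.exp _), ← Real.exp_add]
  congr 2
  ring

theorem obR_Svv {jL β e e1 ρ : ℝ} (hO : OffR jL e ρ) (hA : NUP1.Adm β (3 * l / 2)) (he : e ≤ e1) (he1 : e1 < 1)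
    (σ : ℝ) (M : ℕ) {x : Xo} (hx : NUO.kd x = .Svv) :
    ob1g (RNr σ) M β jL e ρ x * Real.exp (σ * mfo (parts jL e ρ x)) ≤
      NUO.aS * (2 * Real.cos l) ^ 2 * (4 / NUP1.kap (4 / 3) ((1 / 2 + e1) * l)) *
        (4 * Real.cos l ^ 2 * (4 * Real.cos l / Real.sin (5 * l) ^ 2) ^ 2) *
        cut M (4 / 3) (ht x) := by
  have he0 := hO.e0.le
  rw [ob1g_RNr hO, wmf_Svv he0 (he.trans_lt he1) jL ρ hx, mul_zero, Real.exp_zero, mul_one]
  exact ob_Svv_le hA he0 he he1 M jL ρ hx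

theorem obR_Sv {jL β e e1 ρ : ℝ} (hO : OffR jL e ρ) (hA : NUP1.Adm β (3 * l / 2)) (he : e ≤ e1) (he1 : e1 < 1)
    (h0 : 0 < ρ) (h2 : ρ ≤ l / 2) (h3 : ρ ≤ (1 - e1) / 2 * l)
    {M : ℕ} {σ : ℝ} (hs : |σ - M| ≤ M) {x : Xo} (hx : NUO.kd x = .Sv) :
    ob1g (RNr σ) M β jL e ρ x * Real.exp (σ * mfo (parts jL e ρ x)) ≤
      CV e1 / ρ * cut M (4 / 3) (ht x) * Real.exp (-(σ * NUMF.Ag e (ht x)) +
        KV e1 * (2 * (M * ρ * Real.exp (-(8 / 3) * |ht x|)))) := by
  have he0 := hO.e0.le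
  have hw := wmf_Sv he0 he he1 h0 hO.r2 h2 h3 jL hx
  have hCV := CV_pos (he0.trans he) he1
  have hcut := cut_nonneg M (4 / 3) (ht x)
  rw [ob1g_RNr hO]
  refine (mul_le_mul_of_nonneg_right (ob_Sv_le hA he he1 h0 hO.r2 h2 h3 M jL hx)
    (Real.exp_pos _).le).trans ?_
  rw [mul_assoc _ (Real.exp _) (Real.exp _), ← Real.exp_add]
  refine mul_le_mul_of_nonneg_left (Real.exp_le_exp.2 ?_) (by positivity)
  set w := wmf jL e ρ x
  set A := NUMF.Ag e (ht x)
  have q : (σ - M) * (w + A) ≤ |σ - M| * |w + A| := by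
    rw [← abs_mul]
    exact le_abs_self _
  have q2 : |σ - M| * |w + A| ≤ M * (KV e1 * (ρ * Real.exp (-(8 / 3) * |ht x|))) :=
    mul_le_mul hs hw (abs_nonneg _) (Nat.cast_nonneg _)
  nlinarith

/-! ### the activity -/

theorem flat_zK {C₀ C K0 : ℝ} (hC₀ : 0 ≤ C₀) (hC : 2 * C₀ * Real.exp K0 ≤ C) {m M : ℕ} (hm : 1 ≤ m)
    (hM : M ≤ 2 * m) {ep T' t o a Y : ℝ} (h1 : ep ≤ 1 / 100) (hY : 0 ≤ Y)
    (hT : Tb (Real.log m) / (1 - ep) ≤ T')
    (ho : o * Real.exp a ≤ C₀ * (cut M (4 / 3 * (1 - ep)) t * Y)) :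
    o * Real.exp (a + 0 + exc T' t + K0) ≤ C * Phi 1 (1 / 10) (Tb (Real.log m) / (1 - ep)) t * Y := by
  have q1 := cut_exc hm (t := t) h1 hT
  have q2 := cut_two hM (4 / 3 * (1 - ep)) t
  have hPh := Phi_nonneg (C' := 1) (b := 1 / 10) (T := Tb (Real.log m) / (1 - ep)) (t := t)
    zero_le_one
  have hX := Real.exp_pos (exc T' t)
  have hK := Real.exp_pos K0
  have hc := cut_nonneg m (4 / 3 * (1 - ep)) t
  have hC' : 0 ≤ C := le_trans (by positivity) hC
  rw [add_zero, Real.exp_add, Real.exp_add]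
  calc o * (Real.exp a * Real.exp (exc T' t) * Real.exp K0) =
      (o * Real.exp a) * (Real.exp (exc T' t) * Real.exp K0) := by ring
    _ ≤ (C₀ * (cut M (4 / 3 * (1 - ep)) t * Y)) * (Real.exp (exc T' t) * Real.exp K0) :=
        mul_le_mul_of_nonneg_right ho (by positivity)
    _ ≤ (C₀ * (2 * cut m (4 / 3 * (1 - ep)) t * Y)) * (Real.exp (exc T' t) * Real.exp K0) := by
        gcongr
    _ = 2 * C₀ * Real.exp K0 * (cut m (4 / 3 * (1 - ep)) t * Real.exp (exc T' t)) * Y := by ring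
    _ ≤ _ := by gcongr

theorem supp_zK {C₀ C K0 κ : ℝ} (hC₀ : 0 ≤ C₀) (hC : 2 * C₀ * Real.exp K0 ≤ C) (hκ : 0 ≤ κ) {m M : ℕ}
    (hm : 1 ≤ m) (hM : M ≤ 2 * m) {T' t o a b : ℝ}
    (hT : Tb (Real.log m) ≤ T') {X : ℝ} {k : ℕ} {r : ℕ} (hL : 1 ≤ Real.log m)
    (ho : o * Real.exp (a + b) * X ≤ C₀ * ((r : ℝ) + Real.log m) ^ k * (cut M (4 / 3) t *
      Real.exp (-(κ * (m * NUMF.P t))))) :
    o * Real.exp (a + b + exc T' t + K0) * X ≤ C * (((r : ℝ) + Real.log m) ^ k *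
      Phi 1 (1 / 10) (Tb (Real.log m)) t *
        Real.exp (-(7 / 10 * κ * Real.exp (8 / 3 * (Tb (Real.log m) - |t|))))) := by
  have q1 := cut_exc' hm (t := t) hT
  have q2 := cut_two hM (4 / 3) t
  have q3 := dens_ge hm t
  have hPh2 := Phi_nonneg (C' := 1) (b := 1 / 10) (T := Tb (Real.log m)) (t := t) zero_le_one
  have hC' : 0 ≤ C := le_trans (by positivity) hC
  have hrL : 0 ≤ (r : ℝ) + Real.log m := by positivity
  have hc := cut_nonneg m (4 / 3) t
  have q4 : Real.exp (-(κ * (m * NUMF.P t))) ≤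
      Real.exp (-(7 / 10 * κ * Real.exp (8 / 3 * (Tb (Real.log m) - |t|)))) := by
    refine Real.exp_le_exp.2 ?_
    nlinarith
  rw [Real.exp_add (a + b + exc T' t), Real.exp_add (a + b)]
  calc o * (Real.exp (a + b) * Real.exp (exc T' t) * Real.exp K0) * X =
      (o * Real.exp (a + b) * X) * (Real.exp (exc T' t) * Real.exp K0) := by ring
    _ ≤ (C₀ * ((r : ℝ) + Real.log m) ^ k * (cut M (4 / 3) t *
          Real.exp (-(κ * (m * NUMF.P t))))) * (Real.exp (exc T' t) * Real.exp K0) :=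
        mul_le_mul_of_nonneg_right ho (by positivity)
    _ ≤ (C₀ * ((r : ℝ) + Real.log m) ^ k * (2 * cut m (4 / 3) t *
          Real.exp (-(κ * (m * NUMF.P t))))) * (Real.exp (exc T' t) * Real.exp K0) := by
        gcongr
    _ = 2 * C₀ * Real.exp K0 * (((r : ℝ) + Real.log m) ^ k * (cut m (4 / 3) t *
          Real.exp (exc T' t)) * Real.exp (-(κ * (m * NUMF.P t)))) := by ring
    _ ≤ _ := by gcongr

theorem offR_of {P : Par} {m : ℕ} {K1 : ℝ} (h : ParOK P m K1) {r : ℕ} (O : Fin r → Xo) (i : Fin r) :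
    OffR P.jL (ei P O i) (rr P O i) := by
  have hl := l_pos
  obtain ⟨ee0, ee1⟩ := ei_bd h O i
  have h1 := h.r1 r (ht (O i))
  have h0 := h.r0 r (ht (O i))
  have hj1 := h.j1
  have hj2 := h.j2
  have h2 : rr P O i = P.rad r (ht (O i)) := rfl
  refine ⟨⟨by linarith, by linarith, by linarith, by linarith, by rw [h2]; exact h0.le, ?_⟩, ?_⟩
  · rw [h2]
    nlinarith
  · rw [h2]
    nlinarith

/-- **the real part** -/
theorem one_actR {κ : ℝ} (hκ : 0 < κ) (k0 : ℕ) : OneRP κ k0 := by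
  intro K0 K1 hK1
  obtain ⟨CT, hCT, hT⟩ := obR_T
  have hl := l_pos
  have hpi := Real.pi_pos
  have hcl := cos_l_pos
  have hac := aS_pos
  -- the constants of the kinds
  set e1' : ℝ := 31 / 100 with he1'
  have hkS := (adm43 (s := (1 / 2 + e1') * l) (by positivity) (by rw [he1']; nlinarith)).kap_pos
  set CS : ℝ := NUO.aS * (2 * Real.cos l) ^ 2 * (4 / NUP1.kap (4 / 3) ((1 / 2 + e1') * l)) with hCS
  have hCS0 : 0 < CS := by positivity
  set CF : ℝ := CS * (4 * Real.cos l ^ 2 * (4 * Real.cos l / Real.sin (5 * l) ^ 2) ^ 2) with hCF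
  have hCF0 : 0 ≤ CF := by positivity
  set CVV : ℝ := CV e1' * K1 * Real.exp (KV e1' * (40 / 7)) * (1 + 1 / (κ / 8)) * 2 with hCVV
  have hCV0 := CV_pos (e1 := e1') (by norm_num) (by norm_num)
  have hKV0 := KV_pos (e1 := e1') (by norm_num) (by norm_num)
  have hCVV0 : 0 ≤ CVV := by positivity
  have hkL := (adm43 (s := l) hl.le (by linarith)).kap_pos
  set CL : ℝ := Real.cos l / Real.pi * (4 / NUP1.kap (4 / 3) l) with hCL
  have hCL0 : 0 < CL := by positivity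
  set C : ℝ := 2 * (CT + CS + CF + CVV + CL) * Real.exp K0 with hC
  have hC0 : 0 < C := by positivity
  have hE0 := Real.exp_pos K0
  refine ⟨C, 7 / 10 * (κ / 8), hC0, by positivity, fun m hm P hP slk hslk ep hep hep1 M hM1 hM2
    σ hσ1 hσ2 T' hT' r O i => ?_⟩
  have hL := log_ge_one hm
  have hm1 : 1 ≤ m := by omega
  have hTb : 0 < Tb (Real.log m) := by
    unfold Tb
    linarith
  have hTT : Tb (Real.log m) ≤ T' := by
    refine le_trans ?_ hT'
    rw [le_div_iff₀ (by linarith)]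
    nlinarith
  obtain ⟨ee0, ee1⟩ := ei_bd hP O i
  have hO := offR_of hP O i
  have hr0 : (0 : ℝ) ≤ r := Nat.cast_nonneg r
  have hrL : (r : ℝ) + 1 ≤ r + Real.log m := by linarith
  have hβ0 : 0 < 4 / 3 * (1 - ep) := by linarith
  have hβ1 : 4 / 3 * (1 - ep) ≤ 4 / 3 := by linarith
  have hA := adm_ep hep (by linarith)
  have hP0 := NUMF.P_pos (ht (O i))
  have hmP : 0 ≤ m * NUMF.P (ht (O i)) := by positivity
  have hmP' : (0 : ℝ) ≤ m := Nat.cast_nonneg m
  have hMm : (m : ℝ) ≤ M := by exact_mod_cast hM1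
  have hM2m : (M : ℝ) ≤ 2 * m := by exact_mod_cast hM2
  have hm3 : (3 : ℝ) ≤ m := by exact_mod_cast hm
  have hσ0 : 0 ≤ σ := by linarith
  have hσM : |σ - M| ≤ M := by
    rw [abs_le]
    constructor <;> linarith
  have hAg := Ag_mono (a := 1 / 4) (a' := ei P O i) (by norm_num) ee0 (by linarith) (ht (O i))
  have hs := hslk (ht (O i))
  have hcutβ : cut M (4 / 3) (ht (O i)) ≤ cut M (4 / 3 * (1 - ep)) (ht (O i)) := cut_anti M hβ1 _
  unfold cons
  generalize hk : NUO.kd (O i) = kk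
  cases kk with
  | L =>
    simp only [slkK, zK, colK, mul_zero, mul_one]
    have h1 := obR_L hO hP.j1 hP.j2 hβ0 hβ1 σ M hk
    have h4 := flat_zK (C := C) (K0 := K0) hCL0.le (by
      rw [hC]
      gcongr
      linarith [hCT.le, hCS0.le, hCF0, hCVV0]) hm1 hM2 hep1 zero_le_one hT'
      (h1.trans (le_of_eq (by rw [mul_one])))
    rw [mul_one] at h4
    exact h4
  | St =>
    simp only [slkK, zK, colK, mul_zero, mul_one]
    have h1 := hT ep hep hep1 M σ hσ2 hσ0 P.jL (ei P O i) (rr P O i) hO (O i) hk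
    exact flat_zK (C := C) (K0 := K0) hCT.le (by
      rw [hC]
      gcongr
      linarith [hCL0.le, hCS0.le, hCF0, hCVV0]) hm1 hM2 hep1 (Real.exp_pos _).le hT' h1
  | Svv =>
    simp only [slkK, zK, colK, mul_zero, mul_one]
    have h1 := obR_Svv hO hA ee1 (by norm_num : (31 / 100 : ℝ) < 1) σ M hk
    have h4 := flat_zK (C := C) (K0 := K0) (Y := 1) hCF0 (by
      rw [hC]
      gcongr
      linarith [hCL0.le, hCS0.le, hCT.le, hCVV0]) hm1 hM2 hep1 zero_le_one hT'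
      (h1.trans (by rw [mul_one]; exact mul_le_mul_of_nonneg_left hcutβ hCF0))
    rw [mul_one] at h4
    exact h4
  | S =>
    simp only [slkK, zK, colK]
    have h1 := obR_S hO ee1 (by norm_num : (31 / 100 : ℝ) < 1) σ M (4 / 3 * (1 - ep)) hk
    refine supp_zK (C₀ := CS) (κ := κ / 8) hCS0.le (by
      rw [hC]
      gcongr
      linarith [hCL0.le, hCT.le, hCF0, hCVV0]) (by positivity) hm1 hM2 hTT hL ?_
    rw [Real.exp_add]
    set t := ht (O i) with ht'
    have hcut := cut_nonneg M (4 / 3) t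
    have h5 : Real.exp (-(2 * σ * NUMF.Ag (ei P O i) t)) * Real.exp (σ * slk t) ≤
        Real.exp (-(κ / 8 * (m * NUMF.P t))) := by
      rw [← Real.exp_add]
      refine Real.exp_le_exp.2 ?_
      have h6 : σ * (slk t + κ * NUMF.P t) ≤ σ * (2 * NUMF.Ag (ei P O i) t) :=
        mul_le_mul_of_nonneg_left (by linarith) hσ0
      have h7 : κ * NUMF.P t * (m / 2) ≤ κ * NUMF.P t * σ :=
        mul_le_mul_of_nonneg_left (by linarith) (by positivity)
      have h8 : 0 ≤ κ * NUMF.P t * m := by positivity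
      nlinarith
    have h7 : ((r : ℝ) + 1) ^ k0 ≤ ((r : ℝ) + Real.log m) ^ (k0 + 6) :=
      (pow_le_pow_left₀ (by linarith) hrL k0).trans
        (pow_le_pow_right₀ (by linarith) (by omega))
    calc ob1g (RNr σ) M (4 / 3 * (1 - ep)) P.jL (ei P O i) (rr P O i) (O i) *
          (Real.exp (σ * mfo (parts P.jL (ei P O i) (rr P O i) (O i))) * Real.exp (σ * slk t)) *
          ((r : ℝ) + 1) ^ k0 =
        (ob1g (RNr σ) M (4 / 3 * (1 - ep)) P.jL (ei P O i) (rr P O i) (O i) *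
          Real.exp (σ * mfo (parts P.jL (ei P O i) (rr P O i) (O i)))) * Real.exp (σ * slk t) *
          ((r : ℝ) + 1) ^ k0 := by ring
      _ ≤ (CS * cut M (4 / 3) t * Real.exp (-(2 * σ * NUMF.Ag (ei P O i) t))) *
          Real.exp (σ * slk t) * ((r : ℝ) + 1) ^ k0 := by gcongr
      _ = CS * ((r : ℝ) + 1) ^ k0 * (cut M (4 / 3) t *
          (Real.exp (-(2 * σ * NUMF.Ag (ei P O i) t)) * Real.exp (σ * slk t))) := by ring
      _ ≤ _ := by gcongr
  | Sv =>
    simp only [slkK, zK, colK]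
    set ρ := rr P O i with hρ
    set t := ht (O i) with ht'
    have hρ0 : 0 < ρ := hP.r0 r t
    have hρ1 : ρ ≤ l / 20 := hP.r1 r t
    have hρ2 : ρ * (1 + m * NUMF.P t) ≤ 1 := hP.r2 r t
    have hρ3 : 1 / ρ ≤ K1 * ((r : ℝ) + 1) ^ 5 * (1 + Real.log m) * (1 + m * NUMF.P t) := hP.r3 r t
    have h1 := obR_Sv hO hA ee1 (by norm_num : (31 / 100 : ℝ) < 1) hρ0
      (by linarith) (by nlinarith) hσM hk
    refine supp_zK (C₀ := CVV) (κ := κ / 8) hCVV0 (by
      rw [hC]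
      gcongr
      linarith [hCL0.le, hCT.le, hCF0, hCS0.le]) (by positivity) hm1 hM2 hTT hL ?_
    rw [Real.exp_add]
    have hcut := cut_nonneg M (4 / 3) t
    have hy := one_add_mul_exp (κ := κ / 8) (by positivity) hmP
    have hKV : KV (31 / 100) * (2 * (M * ρ * Real.exp (-(8 / 3) * |t|))) ≤ KV e1' * (40 / 7) := by
      refine mul_le_mul_of_nonneg_left ?_ hKV0.le
      have h8 := seven_tenths_le_P t
      have h9 : M * ρ * Real.exp (-(8 / 3) * |t|) ≤ 2 * m * ρ * (10 / 7 * NUMF.P t) :=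
        mul_le_mul (mul_le_mul_of_nonneg_right hM2m hρ0.le) (by linarith) (Real.exp_pos _).le
          (by positivity)
      nlinarith
    have h5 : Real.exp (-(σ * NUMF.Ag (ei P O i) t) + KV (31 / 100) *
        (2 * (M * ρ * Real.exp (-(8 / 3) * |t|)))) * Real.exp (σ * (slk t / 2)) ≤
        Real.exp (KV e1' * (40 / 7)) * (Real.exp (-(κ / 8 * (m * NUMF.P t))) *
          Real.exp (-(κ / 8 * (m * NUMF.P t)))) := by
      rw [← Real.exp_add, ← Real.exp_add, ← Real.exp_add]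
      refine Real.exp_le_exp.2 ?_
      have h6 : σ * (slk t + κ * NUMF.P t) ≤ σ * (2 * NUMF.Ag (ei P O i) t) :=
        mul_le_mul_of_nonneg_left (by linarith) hσ0
      have h7 : κ * NUMF.P t * (m / 2) ≤ κ * NUMF.P t * σ :=
        mul_le_mul_of_nonneg_left (by linarith) (by positivity)
      nlinarith
    have h7 : ((r : ℝ) + 1) ^ 5 * (1 + Real.log m) * ((r : ℝ) + 1) ^ k0 ≤
        2 * ((r : ℝ) + Real.log m) ^ (k0 + 6) := by
      have h8 : 1 + Real.log m ≤ 2 * ((r : ℝ) + Real.log m) := by linarith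
      have h9 : ((r : ℝ) + 1) ^ (5 + k0) ≤ ((r : ℝ) + Real.log m) ^ (5 + k0) :=
        pow_le_pow_left₀ (by linarith) hrL _
      calc ((r : ℝ) + 1) ^ 5 * (1 + Real.log m) * ((r : ℝ) + 1) ^ k0 =
          ((r : ℝ) + 1) ^ (5 + k0) * (1 + Real.log m) := by ring
        _ ≤ ((r : ℝ) + Real.log m) ^ (5 + k0) * (2 * ((r : ℝ) + Real.log m)) := by
          gcongr
        _ = _ := by ring
    calc ob1g (RNr σ) M (4 / 3 * (1 - ep)) P.jL (ei P O i) ρ (O i) *
          (Real.exp (σ * mfo (parts P.jL (ei P O i) ρ (O i))) * Real.exp (σ * (slk t / 2))) *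
          ((r : ℝ) + 1) ^ k0 =
        (ob1g (RNr σ) M (4 / 3 * (1 - ep)) P.jL (ei P O i) ρ (O i) *
          Real.exp (σ * mfo (parts P.jL (ei P O i) ρ (O i)))) * Real.exp (σ * (slk t / 2)) *
          ((r : ℝ) + 1) ^ k0 := by ring
      _ ≤ (CV (31 / 100) / ρ * cut M (4 / 3) t * Real.exp (-(σ * NUMF.Ag (ei P O i) t) +
          KV (31 / 100) * (2 * (M * ρ * Real.exp (-(8 / 3) * |t|))))) *
          Real.exp (σ * (slk t / 2)) * ((r : ℝ) + 1) ^ k0 := by gcongr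
      _ = CV e1' * (1 / ρ) * ((r : ℝ) + 1) ^ k0 * (cut M (4 / 3) t *
          (Real.exp (-(σ * NUMF.Ag (ei P O i) t) +
          KV (31 / 100) * (2 * (M * ρ * Real.exp (-(8 / 3) * |t|)))) *
          Real.exp (σ * (slk t / 2)))) := by
          rw [he1']
          ring
      _ ≤ CV e1' * (K1 * ((r : ℝ) + 1) ^ 5 * (1 + Real.log m) * (1 + m * NUMF.P t)) * ((r : ℝ) + 1) ^ k0 *
          (cut M (4 / 3) t * (Real.exp (KV e1' * (40 / 7)) *
            (Real.exp (-(κ / 8 * (m * NUMF.P t))) * Real.exp (-(κ / 8 * (m * NUMF.P t)))))) := by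
          gcongr
      _ = CV e1' * K1 * Real.exp (KV e1' * (40 / 7)) *
          ((1 + m * NUMF.P t) * Real.exp (-(κ / 8 * (m * NUMF.P t)))) *
          (((r : ℝ) + 1) ^ 5 * (1 + Real.log m) * ((r : ℝ) + 1) ^ k0) *
          (cut M (4 / 3) t * Real.exp (-(κ / 8 * (m * NUMF.P t)))) := by ring
      _ ≤ CV e1' * K1 * Real.exp (KV e1' * (40 / 7)) * (1 + 1 / (κ / 8)) *
          (2 * ((r : ℝ) + Real.log m) ^ (k0 + 6)) *
          (cut M (4 / 3) t * Real.exp (-(κ / 8 * (m * NUMF.P t)))) := by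
          gcongr
      _ = _ := by rw [hCVV]; ring

end NUCR

end
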