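import Pool.Agent.NUCR.ConfX
import Pool.Agent.NUI.Assem
import Pool.Agent.NUCUR.A
import Pool.Agent.NUAct.Cur

/-!
# The curve of the B-layer (board/CR, CurB; helper73): everything without `DefB`

`T = (3/8) log m`, `D + 1 = (1 - e₁) T`, `X = chi e₁ (t / T)` (slow plateau), current
`j = jtX D y ts K X` (`y = Im s`), displacement `η = j / (Re s · P)`.
-/

set_option autoImplicit false

open MeasureTheory Set Filter Topology

namespace NUCR

open NUMF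

noncomputable section

/-- half length -/
def TB (m : ℕ) : ℝ := 3 / 8 * Real.log m

/-- half length of the profile -/
def DD (e1 : ℝ) (m : ℕ) : ℝ := (1 - e1) * TB m - 1

/-- the slow plateau -/
def XB (e1 : ℝ) (m : ℕ) (t : ℝ) : ℝ := NUCUR.cur e1 (TB m) 1 t

/-- the current -/
def jB (e1 K : ℝ) (m : ℕ) (y ts : ℝ) : ℝ → ℝ := jtX (DD e1 m) y ts K (XB e1 m)

/-- the displacement -/
def etaB (e1 K : ℝ) (m : ℕ) (s : ℂ) (ts t : ℝ) : ℝ := jB e1 K m s.im ts t / (s.re * P t)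

theorem XX_eq (m : ℕ) : NUI.XX (2 / (3 * Real.pi ^ 2)) m = TB m / kap0 := by
  unfold NUI.XX TB kap0
  have := Real.pi_pos
  field_simp
  ring

theorem rng_of_InS {e1 : ℝ} (he : e1 ≤ 1 / 100) {m : ℕ} (hT : 20 ≤ TB m) {s : ℂ}
    (h1 : -(Real.pi / 4 * NUI.XX (2 / (3 * Real.pi ^ 2)) m) ≤ s.im)
    (h2 : s.im ≤ 17 / 10 * NUI.XX (2 / (3 * Real.pi ^ 2)) m) : Rng (DD e1 m) s.im := by
  rw [XX_eq] at h1 h2
  have hk := kap0_pos
  have h3 := Real.pi_gt_d2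
  have h4 := Real.pi_lt_d2
  have hq : 0 < TB m / kap0 := by positivity
  have hD : DD e1 m / kap0 = (1 - e1) * (TB m / kap0) - 1 / kap0 := by
    unfold DD
    field_simp
  have h5 : 1 / kap0 ≤ 1 / 20 * (TB m / kap0) := by
    rw [div_eq_mul_inv 1 kap0, one_mul, div_eq_mul_inv (TB m) kap0]
    have : 0 < kap0⁻¹ := by positivity
    nlinarith
  have h6 : 94 / 100 * (TB m / kap0) ≤ DD e1 m / kap0 := by
    rw [hD]
    nlinarith
  constructor
  · refine h2.trans ?_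
    have : 5 / 8 * 3.14 * (94 / 100 * (TB m / kap0)) ≤ 5 / 8 * Real.pi * (DD e1 m / kap0) := by
      gcongr
    norm_num at this
    linarith
  · refine le_trans ?_ h1
    have h7 : 3 / 8 * Real.pi * (94 / 100 * (TB m / kap0)) ≤ 3 / 8 * Real.pi * (DD e1 m / kap0) := by
      gcongr
    have h8 : Real.pi / 4 * (TB m / kap0) ≤ 3 / 8 * Real.pi * (94 / 100 * (TB m / kap0)) := by
      have : 0 < Real.pi * (TB m / kap0) := by positivity
      nlinarith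
    linarith

/-- all derivatives of the slow plateau -/
theorem XB_DB (n : ℕ) {e1 : ℝ} (he : 0 < e1) : ∃ C : ℝ, 0 ≤ C ∧ ∀ m : ℕ, 1 ≤ TB m → DB n C (XB e1 m) := by
  choose C hC0 hC using fun k => NUCUR.cur_bound (e := e1) he k
  refine ⟨∑ k ∈ Finset.range (n + 1), C k, Finset.sum_nonneg fun k _ => hC0 k, fun m hT => ⟨?_, ?_⟩⟩
  · exact NUCUR.cur_contDiff (n := (n : ℕ∞))
  · intro k hk t
    refine (hC k (TB m) 1 (by linarith) zero_le_one t).trans ?_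
    have h1 : C k ≤ ∑ k ∈ Finset.range (n + 1), C k :=
      Finset.single_le_sum (fun k _ => hC0 k) (Finset.mem_range.2 (by omega))
    rw [mul_one]
    exact (div_le_self (hC0 k) (one_le_pow₀ hT)).trans h1

/-- the slow plateau -/
theorem slow_XB {e1 : ℝ} (he : 0 < e1) : ∃ C : ℝ, 0 ≤ C ∧ ∀ m : ℕ, 0 < TB m →
    Slow (DD e1 m) ((1 - 2 * e1) * TB m) (C / TB m) (XB e1 m) := by
  obtain ⟨C, hC0, hC⟩ := NUCUR.cur_bound (e := e1) he 1
  refine ⟨C, hC0, fun m hT => ⟨?_, fun t => NUCUR.cur_nonneg zero_le_one t,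
    fun t => NUCUR.cur_le zero_le_one t, fun t ht => NUCUR.cur_eq he hT ht,
    fun t ht => NUCUR.cur_zero he hT ?_, fun t => ?_⟩⟩
  · exact NUCUR.cur_contDiff (n := (1 : ℕ∞))
  · unfold DD at ht
    linarith
  · have := hC (TB m) 1 hT zero_le_one t
    rw [iteratedDeriv_one, pow_one, mul_one] at this
    exact this

/-- the hypotheses of `conf_total3` on the plateau -/
theorem slow_ok {e1 : ℝ} (he : 0 < e1) (he1 : e1 ≤ 1 / 100) : ∃ C0 : ℝ, 0 ≤ C0 ∧ ∀ K M' : ℝ, 0 ≤ K → 0 ≤ M' →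
    ∃ m0 : ℕ, ∀ m ≥ m0, ∃ lam : ℝ, Slow (DD e1 m) ((1 - 2 * e1) * TB m) lam (XB e1 m) ∧
      K * lam * M' ≤ 1 ∧ K * lam ≤ 1 ∧ lam * (DD e1 m + 1 - (1 - 2 * e1) * TB m) ≤ C0 ∧
      0 ≤ (1 - 2 * e1) * TB m ∧ (1 - 2 * e1) * TB m ≤ DD e1 m + 1 ∧ 4 ≤ DD e1 m := by
  obtain ⟨C, hC, H⟩ := slow_XB he
  refine ⟨C, hC, fun K M' hK hM => ?_⟩
  have h1 : Tendsto (fun m : ℕ => TB m) atTop atTop :=
    (Real.tendsto_log_atTop.comp tendsto_natCast_atTop_atTop).const_mul_atTop (by norm_num)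
  obtain ⟨m0, hm0⟩ := eventually_atTop.1 (h1.eventually_ge_atTop (20 + K * C * M' + K * C))
  refine ⟨m0, fun m hm => ?_⟩
  have hT := hm0 m hm
  have q1 : 0 ≤ K * C * M' := by positivity
  have q2 : 0 ≤ K * C := by positivity
  have hT0 : 0 < TB m := by linarith
  refine ⟨C / TB m, H m hT0, ?_, ?_, ?_, by nlinarith, by unfold DD; nlinarith, by unfold DD; nlinarith⟩
  · rw [mul_div_assoc', div_mul_eq_mul_div, div_le_one hT0]
    linarith
  · rw [mul_div_assoc', div_le_one hT0]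
    linarith
  · have e : DD e1 m + 1 - (1 - 2 * e1) * TB m = e1 * TB m := by
      unfold DD
      ring
    rw [e, div_mul_eq_mul_div, div_le_iff₀ hT0]
    have : e1 * TB m ≤ 1 * TB m := mul_le_mul_of_nonneg_right (by linarith) hT0.le
    calc C * (e1 * TB m) ≤ C * (1 * TB m) := mul_le_mul_of_nonneg_left this hC
      _ = C * TB m := by ring

/-- from `NUAct.Cur` to the conditions on the curve -/
theorem curB_of_cur0 {s ε M b ep : ℝ} {e η : ℝ → ℝ} (h : NUAct.Cur s ε M b e η)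
    (hε : ε ≤ ep * (Real.pi / 8) / 4) {η' : ℝ → ℝ} (h1 : ∀ t, HasDerivAt η (η' t) t) :
    Continuous η' ∧ (∀ t, |η t| ≤ ep * (Real.pi / 8) / 4) ∧ ∃ B, ∀ t, |η' t| ≤ B := by
  obtain ⟨h0, f', hf, h3⟩ := h.O4
  obtain rfl : f' = η' := funext fun x => (hf x).unique (h1 x)
  exact ⟨h3.cont, fun t => (h0 t).trans hε, ⟨ε, h3.le⟩⟩

/-- smallness for large `m` -/
theorem large_m {e1 : ℝ} (he : 0 < e1) (C ep : ℝ) (hC : 0 ≤ C) (hep : 0 < ep) :
    ∃ m0 : ℕ, ∀ m ≥ m0, 1 ≤ m ∧ 20 ≤ TB m ∧ Real.log m ^ 2 + 1 / 2 ≤ m / 2 ∧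
      C * (Real.log m * (m : ℝ) ^ (-e1)) ≤ ep := by
  have h1 : Tendsto (fun m : ℕ => Real.log (m : ℝ)) atTop atTop :=
    Real.tendsto_log_atTop.comp tendsto_natCast_atTop_atTop
  have h2 : ∀ᶠ m : ℕ in atTop, (160 / 3 : ℝ) ≤ Real.log m := h1.eventually_ge_atTop _
  have h3 : Tendsto (fun m : ℕ => Real.log (m : ℝ) ^ 2 / (m : ℝ)) atTop (𝓝 0) :=
    ((Real.isLittleO_pow_log_id_atTop (n := 2)).tendsto_div_nhds_zero).comp tendsto_natCast_atTop_atTop
  have h4 : ∀ᶠ m : ℕ in atTop, Real.log (m : ℝ) ^ 2 / (m : ℝ) < 1 / 4 :=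
    h3.eventually_lt_const (by norm_num)
  have h5 : Tendsto (fun m : ℕ => Real.log (m : ℝ) / (m : ℝ) ^ e1) atTop (𝓝 0) :=
    ((isLittleO_log_rpow_atTop he).tendsto_div_nhds_zero).comp tendsto_natCast_atTop_atTop
  have h6 : ∀ᶠ m : ℕ in atTop, Real.log (m : ℝ) / (m : ℝ) ^ e1 < ep / (C + 1) :=
    h5.eventually_lt_const (by positivity)
  have h7 : ∀ᶠ m : ℕ in atTop, 2 ≤ m := eventually_ge_atTop 2
  obtain ⟨m0, hm0⟩ := eventually_atTop.1 (h2.and (h4.and (h6.and h7)))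
  refine ⟨m0, fun m hm => ?_⟩
  obtain ⟨a1, a2, a3, a4⟩ := hm0 m hm
  have hm2 : (2 : ℝ) ≤ m := by exact_mod_cast a4
  have hmp : (0 : ℝ) < m := by linarith
  refine ⟨by omega, ?_, ?_, ?_⟩
  · unfold TB
    linarith
  · rw [div_lt_iff₀ hmp] at a2
    linarith
  · have e : Real.log (m : ℝ) * (m : ℝ) ^ (-e1) = Real.log (m : ℝ) / (m : ℝ) ^ e1 := by
      rw [Real.rpow_neg hmp.le, div_eq_mul_inv]
    rw [e]
    have h8 : 0 ≤ Real.log (m : ℝ) / (m : ℝ) ^ e1 := by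
      have : 0 ≤ Real.log (m : ℝ) := by linarith
      positivity
    rw [lt_div_iff₀ (by positivity)] at a3
    nlinarith

lemma cur_mono {s ε M b ε' M' : ℝ} {e η : ℝ → ℝ} (h : NUAct.Cur s ε M b e η) (h1 : ε ≤ ε')
    (h2 : M ≤ M') : NUAct.Cur s ε' M' b e η :=
  ⟨h.oc, fun t => (h.le t).trans h1, fun t => (h.mass t).trans h2, h.supp⟩

set_option maxHeartbeats 1000000 in
/-- **the curve of the B-layer**: for `m ≥ m₀`, every `s` in the strip and every admissible apex -/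
theorem exists_CurB0 {e1 ep K : ℝ} (he : 0 < e1) (he1 : e1 ≤ 1 / 100) (hep : 0 < ep) (hK : 0 ≤ K) :
    ∃ C : ℝ, 1 ≤ C ∧ ∃ m0 : ℕ, ∀ m ≥ m0, 20 ≤ TB m ∧ C * (Real.log m * (m : ℝ) ^ (-e1)) ≤ ep ∧
      ∀ s : ℂ, |s.re - m| ≤ NUI.NN m + 1 / 2 →
        -(Real.pi / 4 * NUI.XX (2 / (3 * Real.pi ^ 2)) m) ≤ s.im →
        s.im ≤ 17 / 10 * NUI.XX (2 / (3 * Real.pi ^ 2)) m → (m : ℝ) / 2 ≤ s.re ∧ s.re ≤ 2 * m ∧ Rng (DD e1 m) s.im ∧
        ∀ ts, Adm (DD e1 m) s.im ts → ∃ e η' : ℝ → ℝ,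
          NUAct.Cur s.re (C * (Real.log m * (m : ℝ) ^ (-e1))) (C * Real.log m) ((1 - e1) * TB m) e
            (etaB e1 K m s ts) ∧
          (∀ t, HasDerivAt (etaB e1 K m s ts) (η' t) t) ∧ Continuous η' ∧
          (∀ t, |etaB e1 K m s ts t| ≤ ep * (Real.pi / 8) / 4) ∧ ∃ B, ∀ t, |η' t| ≤ B := by
  obtain ⟨C0, hC0, H0⟩ := NUAct.exists_cur
  obtain ⟨C1, hC1, H1⟩ := jtX_DB 4
  obtain ⟨C2, hC2, H2⟩ := XB_DB 4 he
  obtain ⟨C3, hC3, H3⟩ := slow_XB he
  have hB := Bη_pos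
  have hpi := Real.pi_pos
  have hsq := sq3_pos
  obtain ⟨Q, hQ⟩ : ∃ Q, Q = C1 * Bη + K * C2 + 1 := ⟨_, rfl⟩
  have hQ1 : 1 ≤ Q := by
    have : 0 ≤ C1 * Bη := by positivity
    have : 0 ≤ K * C2 := by positivity
    linarith
  obtain ⟨C, hC⟩ : ∃ C, C = C0 * Q * (1 + √3 * Real.pi / 2) := ⟨_, rfl⟩
  have hC0Q : 1 ≤ C0 * Q := by nlinarith
  have hCge : C0 * Q ≤ C := by
    rw [hC]
    have : 0 ≤ √3 * Real.pi / 2 := by positivity
    nlinarith
  obtain ⟨l0, hl0⟩ : ∃ l0, l0 = min ep (ep * (Real.pi / 8) / 4) := ⟨_, rfl⟩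
  have hl0p : 0 < l0 := by rw [hl0]; positivity
  obtain ⟨m0, hm0⟩ := large_m he C l0 (by linarith) hl0p
  refine ⟨C, by linarith, m0, fun m hm => ?_⟩
  obtain ⟨a1, a2, a3, a4⟩ := hm0 m hm
  have hmp : (0 : ℝ) < m := by exact_mod_cast (by omega : 0 < m)
  have hL : 1 ≤ Real.log m := by
    unfold TB at a2
    linarith
  have hL2 : TB m ≤ Real.log m := by
    unfold TB
    linarith
  have hTp : 0 < TB m := by linarith
  refine ⟨a2, a4.trans (by rw [hl0]; exact min_le_left _ _), fun s hs hsi1 hsi2 => ?_⟩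
  have hs1 : |s.re - m| ≤ m / 2 := by
    refine hs.trans (le_trans ?_ a3)
    have : (NUI.NN m : ℝ) ≤ Real.log m ^ 2 := Nat.floor_le (by positivity)
    linarith
  rw [abs_le] at hs1
  have hr := rng_of_InS he1 a2 hsi1 hsi2
  refine ⟨by linarith, by linarith, hr, fun ts had => ?_⟩
  have hs0 : 0 < s.re := by linarith
  have hD4 : 4 ≤ DD e1 m := by
    unfold DD
    nlinarith
  have hDT : DD e1 m ≤ TB m := by
    unfold DD
    nlinarith
  have hy := hr.abs (by linarith : 0 ≤ DD e1 m)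
  -- derivatives of the current
  have hDB : DB 4 (Q * Real.log m) (jB e1 K m s.im ts) := by
    refine (H1 (DD e1 m) 0 0 s.im ts K C2 (XB e1 m) (by linarith) had hK (H2 m (by linarith))).mono ?_
    have h1 : C1 * |s.im| ≤ C1 * (Bη * Real.log m) := by
      refine mul_le_mul_of_nonneg_left (hy.trans ?_) hC1
      exact mul_le_mul_of_nonneg_left (hDT.trans hL2) hB.le
    have h2 : K * C2 ≤ K * C2 * Real.log m := le_mul_of_one_le_right (by positivity) hL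
    rw [hQ]
    nlinarith
  have hb0 : 0 ≤ (1 - e1) * TB m := by nlinarith
  obtain ⟨e, he2⟩ := H0 s.re (Q * Real.log m) ((1 - e1) * TB m) hs0 hb0 (jB e1 K m s.im ts) hDB.1
    hDB.2 (fun t ht => jtX_zero hD4 had (H3 m hTp) (by unfold DD; linarith))
  -- the size of the displacement
  have hε : C0 * (Q * Real.log m) / (s.re * P ((1 - e1) * TB m)) ≤
      C * (Real.log m * (m : ℝ) ^ (-e1)) := by
    have hP := le_P ((1 - e1) * TB m)
    rw [abs_of_nonneg hb0] at hP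
    have e1' : Real.exp (-(8 / 3) * ((1 - e1) * TB m)) = (m : ℝ)⁻¹ * (m : ℝ) ^ e1 := by
      have e2 : (m : ℝ)⁻¹ = Real.exp (-Real.log m) := by rw [Real.exp_neg, Real.exp_log hmp]
      rw [Real.rpow_def_of_pos hmp, e2, ← Real.exp_add]
      congr 1
      unfold TB
      ring
    rw [e1'] at hP
    have hPp := P_pos ((1 - e1) * TB m)
    have hme : 0 < (m : ℝ) ^ e1 := Real.rpow_pos_of_pos hmp _
    have h2 : 2 / (√3 * Real.pi) * (m : ℝ) ^ e1 ≤ s.re * P ((1 - e1) * TB m) := by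
      calc 2 / (√3 * Real.pi) * (m : ℝ) ^ e1 =
            (m : ℝ) / 2 * (4 / (√3 * Real.pi) * ((m : ℝ)⁻¹ * (m : ℝ) ^ e1)) := by
            field_simp
            norm_num
        _ ≤ s.re * P ((1 - e1) * TB m) := by
            refine mul_le_mul (by linarith) hP (by positivity) hs0.le
    rw [div_le_iff₀ (by positivity), Real.rpow_neg hmp.le]
    have h3 : C0 * Q * (√3 * Real.pi / 2) ≤ C := by
      rw [hC]
      have : 0 ≤ C0 * Q := by linarith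
      nlinarith
    have hL0 : 0 ≤ Real.log m := by linarith
    have hCp : 0 ≤ C := by linarith
    calc C0 * (Q * Real.log m) = C0 * Q * (√3 * Real.pi / 2) *
          (Real.log m * ((m : ℝ) ^ e1)⁻¹) * (2 / (√3 * Real.pi) * (m : ℝ) ^ e1) := by
          field_simp
      _ ≤ C * (Real.log m * ((m : ℝ) ^ e1)⁻¹) * (s.re * P ((1 - e1) * TB m)) := by
          gcongr
  have hM : C0 * (Q * Real.log m) ≤ C * Real.log m := by
    rw [← mul_assoc]
    exact mul_le_mul_of_nonneg_right hCge (by linarith)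
  have hcur : NUAct.Cur s.re (C * (Real.log m * (m : ℝ) ^ (-e1))) (C * Real.log m)
      ((1 - e1) * TB m) e (etaB e1 K m s ts) := cur_mono he2 hε hM
  obtain ⟨η', hη'⟩ := hcur.exists_deriv
  exact ⟨e, η', hcur, hη', curB_of_cur0 hcur (a4.trans (by rw [hl0]; exact min_le_right _ _)) hη'⟩

end

end NUCR
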