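import Pool.Agent.NUCR.DefB
import Pool.Agent.NUCR.CurB0
import Pool.Agent.NUO.OneAct
import Pool.Agent.NUO.StabC
import Pool.Agent.NUO.Par0
import Pool.Agent.NUO.SlackN
import Pool.Agent.NUO.PotG

/-!
# TARGET-B: the gas in the presence of the objects, complex number of rows (statement)

* `DD`, `XB`, `jB`, `etaB` (CurB0): the current `Jt + J X - y Nc` with the apex at `ts`, the curve;
* `curOK`: the curve satisfies `CurB`;
* `S4B`: the positive gas on the curve for every admissible apex `ts`;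
* `OneBB`: the one body factors and the branch factors of a configuration, for one apex `ts`.

`NUCR/AsmB`: `S4B → StabProd → OneBB 12 → PerB`.
-/

set_option autoImplicit false

noncomputable section

open MeasureTheory Finset
open scoped ENNReal

namespace NUCR

open NUO NUStabP NUDispW

/-- its derivative -/
def etaB' (e1 J : ℝ) (m : ℕ) (s : ℂ) (ts t : ℝ) : ℝ := deriv (etaB e1 J m s ts) t

/-- number of points of the cutoff -/
def MB (m : ℕ) : ℕ := m + NUI.NN m + 1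

/-- height of the cut of the logarithm -/
def tB (e1 : ℝ) (m : ℕ) : ℝ := DD e1 m / 4

/-- integral of the current against the densities of the quanta of the object `i` -/
def wB (e1 J : ℝ) (m : ℕ) (y ts : ℝ) (P : Par) {r : ℕ} (O : Fin r → Xo) (i : Fin r) : ℝ :=
  ((offO P O i).map fun p => ∫ x, kapd p.1 x * jB e1 J m y ts (p.2 - x)).sum

/-- the exponent of an object: mean field, slack, current, far factor -/
def oneEB (P : Par) (m : ℕ) (s : ℂ) (e1 J ts T' : ℝ) {r : ℕ} (O : Fin r → Xo) (i : Fin r) : ℝ :=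
  s.re * mfo (cons P O i) + s.re * slkK NUSlk.slk (NUO.kd (O i)) (ht (O i)) -
    wB e1 J m s.im ts P O i + exc T' (ht (O i))

/-- end of the windows: `(1 + 2 e1 + 2 ep) T` -/
def TWB (ep e1 : ℝ) (m : ℕ) : ℝ := (1 + 2 * e1 + 2 * ep) * Tb (Real.log m)

/-- the exponent of a configuration: one body exponents, `K` per object, energy of the densities,
`kap` times the window energy, energy of the current -/
def confEB (P : Par) (m : ℕ) (s : ℂ) (e1 J ts T' K kap : ℝ) {r : ℕ} (O : Fin r → Xo) : ℝ :=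
  ∑ i, oneEB P m s e1 J ts T' O i + K * r + enC O + kap * win univ (fun i => ht (O i)) +
    En s.im (deriv (jB e1 J m s.im ts))

/-- the curve is admissible -/
theorem curOK {ep : ℝ} (hep : 0 < ep) {e1 : ℝ} (he1 : 0 < e1) (he2 : e1 ≤ 1 / 100) {J : ℝ}
    (hJ : 0 ≤ J) : ∃ m0 : ℕ, ∀ m ≥ m0, ∀ s : ℂ, InS m s → ∀ ts, Adm (DD e1 m) s.im ts →
    CurB ep (etaB e1 J m s ts) (etaB' e1 J m s ts) := by
  obtain ⟨C, -, m0, h⟩ := exists_CurB0 he1 he2 hep hJ
  refine ⟨m0, fun m hm s hs ts had => ?_⟩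
  obtain ⟨-, -, h⟩ := h m hm
  obtain ⟨-, -, -, h⟩ := h s hs.1 hs.2.1 hs.2.2
  obtain ⟨e, η', -, h1, h2, h3, h4⟩ := h ts had
  have e1' : etaB' e1 J m s ts = η' := funext fun t => (h1 t).deriv
  rw [e1']
  exact ⟨h1, h2, h3, h4⟩

/-- **S4B**: the gas in the presence of the objects, complex number of rows, any apex -/
def S4B : Prop :=
  ∃ K Ca c' : ℝ, 0 ≤ K ∧ 0 ≤ Ca ∧ 0 ≤ c' ∧ ∀ kap : ℝ, 0 < kap →
    ∀ ep : ℝ, 0 < ep → ep ≤ 1 / 100 → ∀ e1 : ℝ, 0 < e1 → e1 ≤ 1 / 100 → ∀ J : ℝ, 0 ≤ J →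
    ∀ δ : ℝ, 0 < δ → ∃ d Cst : ℝ, 0 < d ∧ 0 ≤ Cst ∧ ∃ m0 : ℕ, ∀ m ≥ m0,
      ∀ s : ℂ, InS m s → ∀ n ≤ 2 * (m + NUI.NN m), ∀ b0 : ℝ, 0 ≤ b0 → b0 ≤ 17 / 10 →
      ∀ b' : ℝ, b' = b0 + d ∨ b' = b0 - d → ∀ ts, Adm (DD e1 m) s.im ts →
      ∀ r ≤ 2 * n, ∀ O : Fin r → Xo, chgO O true ≤ n → chgO O false ≤ n →
        ENNReal.ofReal (Real.exp (b' * (s.re - n))) *
          Z1g (RNB s (tB e1 m)) (MB m) (4 / 3 * (1 - ep)) (par0 (MB m)) (etaB e1 J m s ts)
            (etaB' e1 J m s ts) O (n - chgO O true) (n - chgO O false) ≤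
          ENNReal.ofReal (Cst * Real.exp ((∫ t, NUMF.P t * NUMF.v t) * s.re ^ 2) *
            Real.exp (c0 * b0 ^ 2 * Real.log m) * (m : ℝ) ^ (3 / 8 + Ca * (ep + e1) + δ) *
            (if (r : ℝ) ≤ Real.log m then 1 else Real.exp (c' * Real.log m)) *
            Real.exp (confEB (par0 (MB m)) m s e1 J ts (TWB ep e1 m) K kap O))

/-- **OneBB**: one body factors and branch factors of a configuration (`k0`: power of `r + 1` lost in
the collisions of the strings), for one apex `ts` which depends on the configuration -/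
def OneBB (k0 : ℕ) : Prop :=
  ∀ K0 : ℝ, ∃ (C c b : ℝ) (k : ℕ), 0 < C ∧ 0 < c ∧ 0 < b ∧
    ∀ ep : ℝ, 0 < ep → ep ≤ 1 / 100 → ∀ e1 : ℝ, 0 < e1 → e1 ≤ 1 / 100 → ∀ J : ℝ, 0 ≤ J →
    ∃ CK C' : ℝ, 0 ≤ CK ∧ 0 ≤ C' ∧ ∃ m0 : ℕ, ∀ m ≥ m0, ∀ s : ℂ, InS m s →
      ∀ (r : ℕ) (O : Fin r → Xo), ∃ ts, Adm (DD e1 m) s.im ts ∧
        Real.exp (En s.im (deriv (jB e1 J m s.im ts))) *
          ∏ i, (ob1g (RNB s (tB e1 m)) (MB m) (4 / 3 * (1 - ep)) (par0 (MB m)).jL
              (ei (par0 (MB m)) O i) (rr (par0 (MB m)) O i) (O i) *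
            Real.exp (oneEB (par0 (MB m)) m s e1 J ts (TWB ep e1 m) O i + K0) *
            colK (((r : ℝ) + 1) ^ k0) (NUO.kd (O i))) ≤
        Real.exp (-(s.im ^ 2 * ∫ t, NUMF.P t * NUMF.v t) + s.im ^ 2 / (2 * (DD e1 m / kap0)) +
          CK) * ∏ i, act C C' c b k (Real.log m) ep e1 J r (ht (O i))

end NUCR

end
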