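import Pool.Agent.NUCR.OneActB
import Pool.Agent.NUCR.OneR
import Pool.Agent.NUCR.S4B
import Pool.Agent.NUO.Par0K

/-!
# `OneBB` from the real part (board/CR, helper78)
-/

set_option autoImplicit false

noncomputable section

open MeasureTheory Set Filter Topology

namespace NUCR

open NUO

lemma parOK_mono {m M : ℕ} (h1 : m ≤ M) (h2 : M ≤ 2 * m) (hm : 1 ≤ m) : ParOK (par0 M) m (4 * K1c) where
  j1 := (parOK_par0 M).j1
  j2 := (parOK_par0 M).j2
  e0 := (parOK_par0 M).e0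
  d0 := (parOK_par0 M).d0
  e1 := (parOK_par0 M).e1
  r0 := (parOK_par0 M).r0
  r1 := (parOK_par0 M).r1
  r2 := fun r t => by
    refine le_trans (mul_le_mul_of_nonneg_left ?_ ((parOK_par0 M).r0 r t).le) ((parOK_par0 M).r2 r t)
    have h3 := NUMF.P_pos t
    have h4 : (m : ℝ) ≤ M := by exact_mod_cast h1
    nlinarith
  r3 := fun r t => by
    refine ((parOK_par0 M).r3 r t).trans ?_
    have hK := K1c_nonneg
    have h3 := NUMF.P_pos t
    have hm0 : (1 : ℝ) ≤ m := by exact_mod_cast hm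
    have hM0 : (0 : ℝ) < M := by
      have : (m : ℝ) ≤ M := by exact_mod_cast h1
      linarith
    have h4 : (M : ℝ) ≤ 2 * m := by exact_mod_cast h2
    have h5 : Real.log M ≤ 1 + Real.log m := by
      calc Real.log M ≤ Real.log (2 * m) := Real.log_le_log hM0 h4
        _ = Real.log 2 + Real.log m := Real.log_mul two_ne_zero (by positivity)
        _ ≤ _ := by
          have := Real.log_two_lt_d9
          linarith
    have h6 : 0 ≤ Real.log m := Real.log_nonneg hm0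
    have h7 : 0 ≤ Real.log M := Real.log_nonneg (hm0.trans (by exact_mod_cast h1))
    have a1 : 1 + Real.log M ≤ 2 * (1 + Real.log m) := by linarith
    have a2 : 1 + M * NUMF.P t ≤ 2 * (1 + m * NUMF.P t) := by nlinarith
    calc K1c * ((r : ℝ) + 1) ^ 5 * (1 + Real.log M) * (1 + M * NUMF.P t) ≤
        K1c * ((r : ℝ) + 1) ^ 5 * (2 * (1 + Real.log m)) * (2 * (1 + m * NUMF.P t)) := by
          gcongr
      _ = _ := by ring

lemma pg_par0 (M : ℕ) : PG (1 / 16) (par0 M) where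
  δ0 := by norm_num
  j1 := by rw [par0_jL]; norm_num
  j2 := by rw [par0_jL]; norm_num
  e1 := by rw [par0_e]; norm_num
  d0 := fun r => (d0_pos r).le
  e2 := fun r => by
    have := d0_le r
    rw [par0_e, par0_d]
    linarith
  r0 := fun r t => (rad0_pos M r t).le
  r1 := fun r t => by
    have h1 := rad0_le_l M r t
    have h2 := NUP1.l_pos
    rw [par0_rad, l_eq]
    linarith

lemma large_B : ∃ m0 : ℕ, ∀ m ≥ m0, 3 ≤ m ∧ m ≤ MB m ∧ MB m ≤ 2 * m ∧
    ∀ σ : ℝ, |σ - m| ≤ NUI.NN m + 1 / 2 → (MB m : ℝ) / 2 ≤ σ ∧ σ ≤ MB m + 1 := by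
  have h3 : Tendsto (fun m : ℕ => Real.log (m : ℝ) ^ 2 / (m : ℝ)) atTop (𝓝 0) :=
    ((Real.isLittleO_pow_log_id_atTop (n := 2)).tendsto_div_nhds_zero).comp tendsto_natCast_atTop_atTop
  have h4 : ∀ᶠ m : ℕ in atTop, Real.log (m : ℝ) ^ 2 / (m : ℝ) < 1 / 8 :=
    h3.eventually_lt_const (by norm_num)
  obtain ⟨m1, hm1⟩ := eventually_atTop.1 h4
  refine ⟨m1 + 8, fun m hm => ?_⟩
  have h5 := hm1 m (by omega)
  have h8 : (8 : ℝ) ≤ m := by exact_mod_cast (by omega : 8 ≤ m)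
  rw [div_lt_iff₀ (by linarith)] at h5
  have h6 := NUI.NN_le m
  have e : ((MB m : ℕ) : ℝ) = m + NUI.NN m + 1 := by unfold MB; push_cast; ring
  have h0 : (0 : ℝ) ≤ NUI.NN m := Nat.cast_nonneg _
  refine ⟨by omega, by unfold MB; omega, ?_, fun σ hσ => ?_⟩
  · have : ((MB m : ℕ) : ℝ) ≤ 2 * m := by
      rw [e]
      linarith
    exact_mod_cast this
  · obtain ⟨q1, q2⟩ := abs_le.1 hσ
    rw [e]
    constructor <;> linarith

/-- **`OneBB` from the real part** -/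
theorem oneBB_of {k0 : ℕ} (hR : OneRP (1 / 50) k0) : OneBB k0 := by
  intro K0
  have hK := K1c_nonneg
  obtain ⟨C, c, hC, hc, H⟩ := oneB_gen hR (δ := 1 / 16) (by norm_num) (by norm_num) K0 (4 * K1c) (by positivity)
  refine ⟨C, c, 1 / 10, k0 + 6, hC, hc, by norm_num, fun ep hep hep1 e1 he1 he2 J hJ => ?_⟩
  obtain ⟨CK, hCK, m0, H2⟩ := H ep hep hep1 e1 he1 he2 J hJ
  obtain ⟨m1, hm1⟩ := large_B
  refine ⟨CK, 1, hCK, zero_le_one, m0 + m1, fun m hm s hs r O => ?_⟩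
  obtain ⟨b1, b2, b3, b4⟩ := hm1 m (by omega)
  obtain ⟨b5, b6⟩ := b4 s.re hs.1
  have hm' : (1 : ℝ) ≤ m := by exact_mod_cast (by omega : 1 ≤ m)
  have hTb : 0 ≤ Tb (Real.log m) := by
    have := Real.log_nonneg hm'
    unfold Tb
    positivity
  have hTW : Tb (Real.log m) / (1 - ep) ≤ TWB ep e1 m := by
    unfold TWB
    rw [div_le_iff₀ (by linarith)]
    have h1 : 1 ≤ (1 + 2 * e1 + 2 * ep) * (1 - ep) := by nlinarith
    calc Tb (Real.log m) = 1 * Tb (Real.log m) := (one_mul _).symm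
      _ ≤ ((1 + 2 * e1 + 2 * ep) * (1 - ep)) * Tb (Real.log m) :=
          mul_le_mul_of_nonneg_right h1 hTb
      _ = _ := by ring
  obtain ⟨ts, had, h⟩ := H2 m (by omega) (MB m) b2 b3 s hs b5 b6 (par0 (MB m)) (parOK_mono b2 b3 (by omega))
    (pg_par0 _) NUSlk.slk NUSlk.slk_le (TWB ep e1 m) hTW r O
  exact ⟨ts, had, h⟩

/-- **`OneBB`, every `k0`** -/
theorem oneBB (k0 : ℕ) : OneBB k0 := oneBB_of (one_actR (by norm_num) k0)

end NUCR

end
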