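import Pool.Agent.NUCR.InpB
import Pool.Agent.NUH0.DatN
import Pool.Agent.NUH0.KerN
import Pool.Agent.NUC43.SlkC

/-!
# TARGET-B: the gas in the presence of the objects

`crudeB_of : CrudeG → DatGB → CrudeB`, `sharpB_of : SharpG → DatGB → GDB → SharpB`,
`s4B_proof`: the two together give `S4B`.
-/

set_option autoImplicit false

noncomputable section

open MeasureTheory Finset
open scoped ENNReal

namespace NUCR

open NUO NUH0 NUStabP NUDispW

/-! ### identities -/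

theorem enQ_par0 (M : ℕ) {r : ℕ} (O : Fin r → Xo) : enQ (par0 M) O = enC O := rfl

theorem slk_int_eq : (fun t : ℝ => ∫ u, NUMF.P u * NUC43.slk (u - t)) = NUSlk.slk := by
  funext t
  unfold NUSlk.slk
  congr 1
  funext u
  rw [NUC43.slk_psiS, ← NUSlk.psiS_neg (u - t), neg_sub]

theorem jB_eq {e1 J : ℝ} {m : ℕ} {s : ℂ} {ts : ℝ} (hs : 0 < s.re) :
    (fun t => s.re * NUMF.P t * etaB e1 J m s ts t) = jB e1 J m s.im ts := by
  funext t
  unfold etaB
  have h1 := NUMF.P_pos t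
  field_simp

theorem wcO_wB {e1 J : ℝ} {m : ℕ} {s : ℂ} {ts : ℝ} (hs : 0 < s.re) (P : Par) {r : ℕ}
    (O : Fin r → Xo) (i : Fin r) :
    wcO P O i (fun t => s.re * NUMF.P t * etaB e1 J m s ts t) = wB e1 J m s.im ts P O i := by
  rw [jB_eq hs]
  rfl

theorem hd_jB {e1 J : ℝ} {m : ℕ} {s : ℂ} {ts : ℝ} (hs : 0 < s.re)
    (h : ∀ t, HasDerivAt (etaB e1 J m s ts) (etaB' e1 J m s ts t) t) :
    NUAct.hd s.re (etaB e1 J m s ts) (etaB' e1 J m s ts) = deriv (jB e1 J m s.im ts) := by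
  funext t
  have h1 := NUAct.hasDerivAt_hd s.re h t
  rw [jB_eq hs] at h1
  exact h1.deriv.symm

theorem chg_le2 (a : Bool) (x : Xo) : chg a x ≤ 2 := by
  unfold chg
  split <;> split_ifs <;> norm_num

theorem chgO_le2 (a : Bool) {r : ℕ} (O : Fin r → Xo) : (chgO O a : ℝ) ≤ 2 * r := by
  have h : chgO O a ≤ 2 * r := by
    unfold chgO
    calc ∑ i, chg a (O i) ≤ ∑ _i : Fin r, 2 := sum_le_sum fun i _ => chg_le2 a (O i)
      _ = 2 * r := by rw [sum_const, card_univ, Fintype.card_fin, smul_eq_mul, mul_comm]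
  exact_mod_cast h

theorem sum_exc (T' : ℝ) {r : ℕ} (O : Fin r → Xo) :
    ∑ i, exc T' (ht (O i)) = 5 / 2 * excS T' O := by
  unfold exc excS
  rw [mul_sum]

/-- the radii are small -/
theorem sum_rr_le {m : ℕ} (hm : 1 ≤ m) {P : Par} (h : ParG m P) {r : ℕ} (O : Fin r → Xo) :
    ∑ i, rr P O i ≤ 1 := by
  have hL : 0 ≤ Real.log m := Real.log_natCast_nonneg m
  have hr : (0 : ℝ) ≤ r := Nat.cast_nonneg r
  have hl : NUP1.l < 1 := by
    unfold NUP1.l
    have := Real.pi_lt_four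
    linarith
  have hl0 := NUP1.l_pos
  have hi : ∀ i, rr P O i ≤ 1 / ((r : ℝ) + 1) := by
    intro i
    have h1 := h.r1 r (ht (O i))
    have h2 := h.r0 r (ht (O i))
    have h3 := h.d1 r
    have h4 := h.d0 r
    have h5 : P.d r ≤ 1 := by nlinarith
    unfold rr
    rw [le_div_iff₀ (by linarith)]
    have h6 : P.rad r (ht (O i)) * (((r : ℝ) + 1)) ≤
        P.rad r (ht (O i)) * (64 * ((r : ℝ) + 1) * (1 + Real.log m)) := by
      refine mul_le_mul_of_nonneg_left ?_ h2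
      nlinarith
    nlinarith
  calc ∑ i, rr P O i ≤ ∑ _i : Fin r, 1 / ((r : ℝ) + 1) := sum_le_sum fun i _ => hi i
    _ = r / ((r : ℝ) + 1) := by
        rw [sum_const, card_univ, Fintype.card_fin, nsmul_eq_mul]
        ring
    _ ≤ 1 := by
        rw [div_le_one (by linarith)]
        linarith

/-- the extra part of the remainder -/
theorem wO_inpB {e1 J : ℝ} {m : ℕ} {s : ℂ} {ts b0 b' : ℝ} {B1 : ℝ → ℝ} (a : Bool) (t : ℝ) :
    wO (inpB e1 J m s ts b0 b' B1) a t =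
      (Complex.I * s.im * NUAct.vc (NUAct.zt (NUKer.iD (etaB e1 J m s ts)) t)).re + B1 t -
        (b' - b0) / 2 := by
  have hT : 0 ≤ Tb (Real.log m) := by
    unfold Tb
    have := Real.log_natCast_nonneg m
    positivity
  unfold wO inpB
  rw [Vn_inB hT]
  unfold inB
  simp only
  ring

theorem int_B1 {CB : ℝ} {m : ℕ} {B1 : ℝ → ℝ} (hm : 1 ≤ m) (h : B1ok CB m B1) {x : ℝ} (hx : 0 < x) :
    Integrable B1 ∧ ∫ t, B1 t ≤ 2 * Real.log m * x + CB / (4 * x) := by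
  have hL : 0 ≤ Real.log m := Real.log_natCast_nonneg m
  set L := Real.log m with hLd
  have hcs : HasCompactSupport B1 := by
    refine HasCompactSupport.intro (isCompact_Icc (a := -L) (b := L)) fun t ht => ?_
    refine h.z t ?_
    rw [Set.mem_Icc, not_and_or] at ht
    rcases ht with ht | ht
    · push Not at ht
      rw [abs_of_neg (by linarith)]
      linarith
    · push Not at ht
      exact ht.le.trans (le_abs_self t)
  have hi : Integrable B1 := h.c.integrable_of_hasCompactSupport hcs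
  refine ⟨hi, ?_⟩
  have hind : Integrable ((Set.Icc (-L) L).indicator fun _ : ℝ => x) :=
    (integrable_indicator_iff measurableSet_Icc).2 (by
      rw [integrableOn_const_iff]
      right
      exact measure_Icc_lt_top)
  have h2 : ∀ t, B1 t ≤ (Set.Icc (-L) L).indicator (fun _ => x) t + B1 t ^ 2 / (4 * x) := by
    intro t
    by_cases ht : t ∈ Set.Icc (-L) L
    · rw [Set.indicator_of_mem ht]
      have : 0 ≤ (B1 t - 2 * x) ^ 2 / (4 * x) := by positivity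
      have e : (B1 t - 2 * x) ^ 2 / (4 * x) = x + B1 t ^ 2 / (4 * x) - B1 t := by
        field_simp
        ring
      linarith
    · have h3 : B1 t = 0 := by
        refine h.z t ?_
        rw [Set.mem_Icc, not_and_or] at ht
        rcases ht with ht | ht
        · push Not at ht
          rw [abs_of_neg (by linarith)]
          linarith
        · push Not at ht
          exact ht.le.trans (le_abs_self t)
      rw [Set.indicator_of_notMem ht, h3]
      simp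
  calc ∫ t, B1 t ≤ ∫ t, ((Set.Icc (-L) L).indicator (fun _ => x) t + B1 t ^ 2 / (4 * x)) :=
        integral_mono hi (hind.add (h.q1.div_const _)) h2
    _ = (∫ t, (Set.Icc (-L) L).indicator (fun _ => x) t) + (∫ t, B1 t ^ 2 / (4 * x)) :=
        integral_add hind (h.q1.div_const _)
    _ = 2 * L * x + (∫ t, B1 t ^ 2) / (4 * x) := by
        rw [integral_indicator measurableSet_Icc, setIntegral_const, integral_div,
          Real.volume_real_Icc_of_le (by linarith), smul_eq_mul]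
        ring
    _ ≤ _ := by
        have := h.q2
        gcongr

/-! ### the exponent -/

theorem abs_im_le {m : ℕ} {s : ℂ} (hs : InS m s) : |s.im| ≤ Real.log m := by
  have hL : 0 ≤ Real.log m := Real.log_natCast_nonneg m
  have hpi := Real.pi_gt_three
  have hX : NUI.XX c0 m = 4 / (3 * Real.pi ^ 2) * Real.log m := by
    have h1 := XX_eq m
    have e : NUI.XX c0 m = NUI.XX (2 / (3 * Real.pi ^ 2)) m := rfl
    rw [e, h1]
    unfold TB kap0
    field_simp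
    ring
  have hX1 : NUI.XX c0 m ≤ Real.log m / 6 := by
    rw [hX]
    have h1 : 4 / (3 * Real.pi ^ 2) ≤ 1 / 6 := by
      rw [div_le_div_iff₀ (by positivity) (by norm_num)]
      nlinarith
    nlinarith
  have hX0 : 0 ≤ NUI.XX c0 m := by
    rw [hX]
    positivity
  have hpi4 := Real.pi_lt_four
  rw [abs_le]
  constructor
  · have := hs.2.1
    nlinarith
  · have := hs.2.2
    linarith

/-- the numbers of the data -/
structure NumB (C0 A K1 kap : ℝ) (k m : ℕ) (κ : ℝ) : Prop where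
  n1 : 1 ≤ Real.log m
  a1 : C0 * (2 * Real.log m) ^ 7 * (m : ℝ) ^ (-κ) ≤ 1
  a2 : Real.log m ^ k * (m : ℝ) ^ (-κ) ≤ 1
  a3 : C0 * (Real.log m ^ (k + 1) * (m : ℝ) ^ (-κ)) ≤ 1
  a4 : C0 * (2 * Real.log m) ^ 9 * Real.log m ^ (2 * k) * (m : ℝ) ^ (-κ) ≤ 1
  a5 : Real.log m ^ (k + 1) * (m : ℝ) ^ (-κ) ≤ 1
  a6 : Real.log m * (m : ℝ) ^ (-κ) ≤ 1
  a7 : A * Real.log m * (m : ℝ) ^ (-κ) ≤ 1
  a8 : 6 * K1 * (m : ℝ) ^ (-κ) ≤ kap

theorem exists_numB (C0 A K1 : ℝ) {kap : ℝ} (hkap : 0 < kap) (k : ℕ) {κ : ℝ} (hκ : 0 < κ) :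
    ∃ m0 : ℕ, ∀ m ≥ m0, NumB C0 A K1 kap k m κ := by
  obtain ⟨n0, h0⟩ := log_large 1
  obtain ⟨n1, h1⟩ := polylog_small (C0 * 2 ^ 7) 7 hκ one_pos
  obtain ⟨n2, h2⟩ := polylog_small 1 k hκ one_pos
  obtain ⟨n3, h3⟩ := polylog_small C0 (k + 1) hκ one_pos
  obtain ⟨n4, h4⟩ := polylog_small (C0 * 2 ^ 9) (9 + 2 * k) hκ one_pos
  obtain ⟨n5, h5⟩ := polylog_small 1 (k + 1) hκ one_pos
  obtain ⟨n6, h6⟩ := polylog_small 1 1 hκ one_pos
  obtain ⟨n7, h7⟩ := polylog_small A 1 hκ one_pos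
  obtain ⟨n8, h8⟩ := polylog_small (6 * K1) 0 hκ hkap
  refine ⟨max n0 (max n1 (max n2 (max n3 (max n4 (max n5 (max n6 (max n7 n8))))))), fun m hm => ?_⟩
  simp only [ge_iff_le, max_le_iff] at hm
  obtain ⟨g0, g1, g2, g3, g4, g5, g6, g7, g8⟩ := hm
  have h1 := h1 m g1
  have h2 := h2 m g2
  have h3 := h3 m g3
  have h4 := h4 m g4
  have h5 := h5 m g5
  have h6 := h6 m g6
  have h7 := h7 m g7
  have h8 := h8 m g8
  refine ⟨h0 m g0, ?_, ?_, ?_, ?_, ?_, ?_, ?_, ?_⟩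
  · rw [mul_pow, ← mul_assoc]
    exact h1
  · rwa [one_mul] at h2
  · rwa [← mul_assoc]
  · rw [mul_pow]
    calc C0 * (2 ^ 9 * Real.log m ^ 9) * Real.log m ^ (2 * k) * (m : ℝ) ^ (-κ) =
        C0 * 2 ^ 9 * Real.log m ^ (9 + 2 * k) * (m : ℝ) ^ (-κ) := by
          rw [pow_add]
          ring
      _ ≤ 1 := h4
  · rwa [one_mul] at h5
  · rwa [one_mul, pow_one] at h6
  · rwa [pow_one] at h7
  · rwa [pow_zero, mul_one] at h8

/-- the real potentials against the sea -/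
theorem sea_B1 {CB : ℝ} {m : ℕ} (hm : 1 ≤ m) {B1 : ℝ → ℝ} (hB1 : B1ok CB m B1) {σ c : ℝ}
    (h2 : σ ≤ 2 * m) : (∑ _a : Bool, ∫ t, σ * NUMF.P t * (B1 t - c / 2)) ≤
      4 * CB - c * σ := by
  have hmp : (0 : ℝ) < m := by exact_mod_cast hm
  have hiPB : Integrable fun t => NUMF.P t * B1 t := by
    have h1 := hB1.p1.const_mul ((m : ℝ)⁻¹)
    refine h1.congr (ae_of_all _ fun t => ?_)
    show (m : ℝ)⁻¹ * ((m : ℝ) * NUMF.P t * B1 t) = _
    field_simp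
  have h1 : ∫ t, σ * NUMF.P t * (B1 t - c / 2) =
      σ * (∫ t, NUMF.P t * B1 t) - σ * (c / 2) := by
    have e1' : ∀ t, σ * NUMF.P t * (B1 t - c / 2) =
        σ * (NUMF.P t * B1 t) - σ * (c / 2) * NUMF.P t := fun t => by ring
    simp_rw [e1']
    rw [integral_sub (hiPB.const_mul _) (NUMF.P_integrable.const_mul _), integral_const_mul,
      integral_const_mul, NUMF.integral_P, mul_one]
  have h2' : (m : ℝ) * (∫ t, NUMF.P t * B1 t) ≤ CB := by
    rw [← integral_const_mul]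
    refine le_trans (le_of_eq ?_) hB1.p2
    congr 1
    funext t
    ring
  have h3 : 0 ≤ ∫ t, NUMF.P t * B1 t :=
    integral_nonneg fun t => mul_nonneg (NUMF.P_pos t).le (hB1.b0 t)
  have h4 : σ * (∫ t, NUMF.P t * B1 t) ≤ 2 * CB := by
    calc σ * (∫ t, NUMF.P t * B1 t) ≤ 2 * m * (∫ t, NUMF.P t * B1 t) :=
          mul_le_mul_of_nonneg_right h2 h3
      _ = 2 * (m * (∫ t, NUMF.P t * B1 t)) := by ring
      _ ≤ 2 * CB := by linarith
  rw [sum_const, card_univ, Fintype.card_bool, nsmul_eq_mul, h1]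
  push_cast
  linarith

/-- the plateau against the real potentials -/
theorem plat_B1 {CB : ℝ} (hCB : 0 ≤ CB) {m : ℕ} (hm : 1 ≤ m) {B1 : ℝ → ℝ} (hB1 : B1ok CB m B1)
    {C2 : ℝ} (hC2 : 1 ≤ C2) {T : ℝ} (hT : T = 3 / 8 * Real.log m) (hν : ∀ t, |nu0 T t| ≤ C2)
    {δ : ℝ} (hδ : 0 < δ) {b0 c : ℝ} (hb0 : 0 ≤ b0) (hb1 : b0 ≤ 2) (hc : c ≤ δ / 4) :
    -(b0 / 2 * (∑ _a : Bool, ∫ t, nu0 T t * (B1 t - c / 2))) ≤
      δ * Real.log m + 4 * C2 ^ 2 * CB / δ := by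
  obtain ⟨L, hL⟩ : ∃ L, L = Real.log m := ⟨_, rfl⟩
  have hL0 : 0 ≤ L := by rw [hL]; exact Real.log_natCast_nonneg m
  have hC2p : 0 < C2 := by linarith
  obtain ⟨hi, hB⟩ := int_B1 hm hB1 (x := δ / (8 * C2)) (by positivity)
  rw [← hL] at hB hT ⊢
  have hT0 : 0 ≤ T := by rw [hT]; positivity
  obtain ⟨hn1, hn2⟩ := nu0_mass hT0
  have hi2 : Integrable fun t => nu0 T t * B1 t :=
    hi.bdd_mul (c := C2) (nu0_cont T).aestronglyMeasurable (ae_of_all _ fun t => by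
      rw [Real.norm_eq_abs]
      exact hν t)
  have h1 : ∫ t, nu0 T t * (B1 t - c / 2) = (∫ t, nu0 T t * B1 t) - c / 2 * (2 * T / kap0) := by
    have e1' : ∀ t, nu0 T t * (B1 t - c / 2) = nu0 T t * B1 t - c / 2 * nu0 T t := fun t => by ring
    simp_rw [e1']
    rw [integral_sub hi2 (hn1.const_mul _), integral_const_mul, hn2]
  obtain ⟨Y, hY⟩ : ∃ Y, Y = ∫ t, nu0 T t * B1 t := ⟨_, rfl⟩
  have h2 : |Y| ≤ δ * L / 4 + 2 * C2 ^ 2 * CB / δ := by
    have e2 : C2 * (2 * L * (δ / (8 * C2)) + CB / (4 * (δ / (8 * C2)))) =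
        δ * L / 4 + 2 * C2 ^ 2 * CB / δ := by
      field_simp
      ring
    rw [← e2, hY]
    calc |∫ t, nu0 T t * B1 t| ≤ ∫ t, |nu0 T t * B1 t| := abs_integral_le_integral_abs
      _ ≤ ∫ t, C2 * B1 t := by
          refine integral_mono hi2.abs (hi.const_mul _) fun t => ?_
          show |nu0 T t * B1 t| ≤ C2 * B1 t
          rw [abs_mul, abs_of_nonneg (hB1.b0 t)]
          exact mul_le_mul_of_nonneg_right (hν t) (hB1.b0 t)
      _ = C2 * ∫ t, B1 t := integral_const_mul _ _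
      _ ≤ _ := mul_le_mul_of_nonneg_left hB hC2p.le
  have h3 := (abs_le.1 h2).1
  have hk : (1 : ℝ) ≤ kap0 := by
    unfold kap0
    have := Real.pi_gt_three
    nlinarith
  have hδL : 0 ≤ δ * L := by positivity
  have hZ : 0 ≤ 2 * C2 ^ 2 * CB / δ := by positivity
  obtain ⟨Z, hZd⟩ : ∃ Z, Z = 2 * C2 ^ 2 * CB / δ := ⟨_, rfl⟩
  rw [← hZd] at h3 hZ
  have e4 : 4 * C2 ^ 2 * CB / δ = 2 * Z := by rw [hZd]; ring
  obtain ⟨V, hV⟩ : ∃ V, V = T / kap0 := ⟨_, rfl⟩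
  have hV0 : 0 ≤ V := by rw [hV]; positivity
  have hV1 : V ≤ 3 / 8 * L := by rw [hV, ← hT]; exact div_le_self hT0 hk
  have h4 : b0 * c * V ≤ δ * L / 4 := by
    have h7 : b0 * c ≤ b0 * (δ / 4) := mul_le_mul_of_nonneg_left hc hb0
    have h8 : b0 * (δ / 4) ≤ 2 * (δ / 4) := mul_le_mul_of_nonneg_right hb1 (by positivity)
    calc b0 * c * V ≤ (2 * (δ / 4)) * V := mul_le_mul_of_nonneg_right (h7.trans h8) hV0
      _ ≤ (2 * (δ / 4)) * (3 / 8 * L) := mul_le_mul_of_nonneg_left hV1 (by positivity)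
      _ = 3 / 16 * (δ * L) := by ring
      _ ≤ δ * L / 4 := by linarith
  have h11 : b0 * (-Y) ≤ 2 * (δ * L / 4 + Z) := by
    have h12 : -Y ≤ δ * L / 4 + Z := by linarith
    have h13 : 0 ≤ δ * L / 4 + Z := by positivity
    calc b0 * (-Y) ≤ b0 * (δ * L / 4 + Z) := mul_le_mul_of_nonneg_left h12 hb0
      _ ≤ 2 * (δ * L / 4 + Z) := mul_le_mul_of_nonneg_right hb1 h13
  rw [sum_const, card_univ, Fintype.card_bool, nsmul_eq_mul, h1, ← hY, e4]
  push_cast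
  have e3 : -(b0 / 2 * (2 * (Y - c / 2 * (2 * T / kap0)))) = b0 * (-Y) + b0 * c * V := by
    rw [hV]
    ring
  rw [e3]
  linarith

/-- the extra remainder is bounded -/
theorem wO_le {A : ℝ} (hA : 0 ≤ A) (HR : ∀ (y x t : ℝ), |x| ≤ NUMF.l / 2 →
    |(Complex.I * y * NUAct.vc (t + x * Complex.I)).re| ≤ A * |y| * |x| * Real.exp (-2 * |t|))
    {CB e1 J : ℝ} {m : ℕ} {s : ℂ} {ts b0 b' : ℝ} {B1 : ℝ → ℝ} {P : Par} {r : ℕ}
    (hB1 : B1ok CB m B1) (hbd : |b' - b0| ≤ 1) {dl ε M b : ℝ} {e : ℝ → ℝ}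
    (hok : IOk dl ε M b e (inpB e1 J m s ts b0 b' B1) P r) (h7 : A * |s.im| * ε ≤ 1) (a : Bool)
    (t : ℝ) : |wO (inpB e1 J m s ts b0 b' B1) a t| ≤ 3 := by
  rw [wO_inpB]
  have h1 : NUAct.zt (NUKer.iD (etaB e1 J m s ts)) t =
      (t : ℂ) + (etaB e1 J m s ts t : ℂ) * Complex.I := rfl
  have h3 : |etaB e1 J m s ts t| ≤ ε := hok.eta t
  have hl := NUMF.l_pos
  have h4 := HR s.im (etaB e1 J m s ts t) t (h3.trans (by
    have := hok.εl
    linarith))
  rw [h1]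
  have h6 : Real.exp (-2 * |t|) ≤ 1 := Real.exp_le_one_iff.2 (by
    have := abs_nonneg t
    linarith)
  have hε0 : 0 ≤ ε := hok.cur.ε0
  have h5 : A * |s.im| * |etaB e1 J m s ts t| * Real.exp (-2 * |t|) ≤ 1 := by
    calc A * |s.im| * |etaB e1 J m s ts t| * Real.exp (-2 * |t|) ≤ A * |s.im| * ε * 1 := by
          gcongr
      _ ≤ 1 := by rw [mul_one]; exact h7
  have h7 := abs_le.1 (h4.trans h5)
  have h8 := hB1.b0 t
  have h9 := hB1.b1 t
  have h10 := abs_le.1 hbd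
  rw [abs_le]
  constructor <;> linarith [h7.1, h7.2, h10.1, h10.2]

/-- `dl` times the windows -/
theorem dl_win {K1 kap mk dl w : ℝ} {r : ℕ} (hK1 : 0 ≤ K1) (hw0 : 0 ≤ w) (hw1 : w ≤ (r : ℝ) ^ 2)
    (hdl : dl ≤ 1 / (6000 * ((r : ℝ) + 1) ^ 2) + 3 * mk) (h8 : 6 * K1 * mk ≤ kap) :
    K1 * (dl * w) ≤ K1 / 2 + kap / 2 * w := by
  have hr0 : (0 : ℝ) ≤ r := Nat.cast_nonneg r
  have h1 : dl * w ≤ (1 / (6000 * ((r : ℝ) + 1) ^ 2) + 3 * mk) * w :=
    mul_le_mul_of_nonneg_right hdl hw0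
  have h2 : 1 / (6000 * ((r : ℝ) + 1) ^ 2) * w ≤ 1 / 2 := by
    have h3 : (r : ℝ) ^ 2 ≤ ((r : ℝ) + 1) ^ 2 := by nlinarith
    calc 1 / (6000 * ((r : ℝ) + 1) ^ 2) * w ≤
        1 / (6000 * ((r : ℝ) + 1) ^ 2) * ((r : ℝ) + 1) ^ 2 := by
          refine mul_le_mul_of_nonneg_left (hw1.trans h3) (by positivity)
      _ = 1 / 6000 := by field_simp
      _ ≤ 1 / 2 := by norm_num
  have h4 : K1 * (3 * mk * w) ≤ kap / 2 * w := by
    calc K1 * (3 * mk * w) = (6 * K1 * mk) / 2 * w := by ring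
      _ ≤ _ := by gcongr
  have h6 : K1 * (dl * w) ≤ K1 * (1 / (6000 * ((r : ℝ) + 1) ^ 2) * w) + K1 * (3 * mk * w) := by
    rw [← mul_add]
    refine mul_le_mul_of_nonneg_left (h1.trans (le_of_eq (by ring))) hK1
  have h7 := mul_le_mul_of_nonneg_left h2 hK1
  linarith

/-- the small terms of `EnB_le` -/
theorem small_B {C0 A K1 kap κ : ℝ} {k m : ℕ} (hC0 : 1 ≤ C0) (hm : 3 ≤ m)
    (hN : NumB C0 A K1 kap k m κ) {r : ℕ} {ε M b y σ b0 T : ℝ} (hε0 : 0 ≤ ε) (hM0 : 0 ≤ M)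
    (hε : ε ≤ (m : ℝ) ^ (-κ)) (hM : M ≤ Real.log m ^ k) (hb00 : 0 ≤ b)
    (hbL : b + 1 ≤ 2 * Real.log m) (hbL' : b ≤ Real.log m) (hy : |y| ≤ Real.log m)
    (hT : T = 3 / 8 * Real.log m) (hs0 : 0 ≤ σ) (hs2 : σ ≤ 2 * m) (hb0 : 0 ≤ b0) (hb1 : b0 ≤ 2) :
    C0 * (b + 1) ^ 7 * ε ≤ 1 ∧ M * ε ≤ 1 ∧
    C0 * ((r + |y|) * (M * ε)) + C0 * (b + 1) ^ 9 * M ^ 2 * ε + C0 * b0 ^ 2 +
      C0 * |b0| * (r + σ * Real.exp (-(8 / 3) * T) + M * ε * b + |y| * ε) ≤
      3 * C0 * r + 2 + 12 * C0 := by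
  have hmp : (0 : ℝ) < m := by
    have : 0 < m := by omega
    exact_mod_cast this
  obtain ⟨mk, hmk⟩ : ∃ mk, mk = (m : ℝ) ^ (-κ) := ⟨_, rfl⟩
  obtain ⟨L, hL⟩ : ∃ L, L = Real.log m := ⟨_, rfl⟩
  obtain ⟨n1, a1, a2, a3, a4, a5, a6, a7, a8⟩ := hN
  have h1 : Real.exp (-(8 / 3) * T) = (m : ℝ)⁻¹ := by
    rw [hT, show -(8 / 3) * (3 / 8 * Real.log m) = -Real.log m by ring, Real.exp_neg,
      Real.exp_log hmp]
  rw [← hmk] at hε a1 a2 a3 a4 a5 a6 a7 a8
  rw [← hL] at hM hbL hbL' hy n1 a1 a2 a3 a4 a5 a6 a7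
  have hmk0 : 0 ≤ mk := by rw [hmk]; exact Real.rpow_nonneg hmp.le _
  have hr0 : (0 : ℝ) ≤ r := Nat.cast_nonneg r
  have hMε : M * ε ≤ L ^ k * mk := mul_le_mul hM hε hε0 (by positivity)
  have hMε0 : 0 ≤ M * ε := mul_nonneg hM0 hε0
  have hMε1 : M * ε ≤ 1 := hMε.trans a2
  have t7 : C0 * (b + 1) ^ 7 * ε ≤ 1 := by
    calc C0 * (b + 1) ^ 7 * ε ≤ C0 * (2 * L) ^ 7 * mk := by gcongr
      _ ≤ 1 := a1
  have t8 : C0 * ((r + |y|) * (M * ε)) ≤ C0 * r + 1 := by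
    have h1 : (r + |y|) * (M * ε) ≤ r * 1 + L * (L ^ k * mk) := by
      rw [add_mul]
      gcongr
    calc C0 * ((r + |y|) * (M * ε)) ≤ C0 * (r * 1 + L * (L ^ k * mk)) := by gcongr
      _ = C0 * r + C0 * (L ^ (k + 1) * mk) := by ring
      _ ≤ _ := by linarith
  have t9 : C0 * (b + 1) ^ 9 * M ^ 2 * ε ≤ 1 := by
    calc C0 * (b + 1) ^ 9 * M ^ 2 * ε ≤ C0 * (2 * L) ^ 9 * (L ^ k) ^ 2 * mk := by gcongr
      _ = C0 * (2 * L) ^ 9 * L ^ (2 * k) * mk := by rw [← pow_mul, mul_comm k 2]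
      _ ≤ 1 := a4
  have t10 : C0 * b0 ^ 2 ≤ 4 * C0 := by
    have : b0 ^ 2 ≤ 4 := by nlinarith
    nlinarith
  have t11 : C0 * |b0| * (r + σ * Real.exp (-(8 / 3) * T) + M * ε * b + |y| * ε) ≤
      2 * C0 * r + 8 * C0 := by
    have h2 : σ * Real.exp (-(8 / 3) * T) ≤ 2 := by
      rw [h1, ← div_eq_mul_inv, div_le_iff₀ hmp]
      exact hs2
    have h3 : M * ε * b ≤ 1 := by
      calc M * ε * b ≤ (L ^ k * mk) * L := by gcongr
        _ = L ^ (k + 1) * mk := by ring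
        _ ≤ 1 := a5
    have h4 : |y| * ε ≤ 1 := by
      calc |y| * ε ≤ L * mk := by gcongr
        _ ≤ 1 := a6
    rw [abs_of_nonneg hb0]
    have h5 : 0 ≤ σ * Real.exp (-(8 / 3) * T) := by positivity
    have h6 : 0 ≤ M * ε * b := by positivity
    have h7 : 0 ≤ |y| * ε := by positivity
    calc C0 * b0 * (r + σ * Real.exp (-(8 / 3) * T) + M * ε * b + |y| * ε) ≤
        C0 * 2 * (r + 2 + 1 + 1) := by
          refine mul_le_mul (mul_le_mul_of_nonneg_left (by linarith) (by linarith)) (by linarith)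
            (by positivity) (by positivity)
      _ = _ := by ring
  exact ⟨t7, hMε1, by linarith⟩

/-- the exponent in a closed form -/
theorem confEB_eq (P : Par) (m : ℕ) (s : ℂ) (e1 J ts T' K kap : ℝ) {r : ℕ} (O : Fin r → Xo) :
    confEB P m s e1 J ts T' K kap O =
      ∑ i, (s.re * mfo (cons P O i) + s.re * slkK NUSlk.slk (NUO.kd (O i)) (ht (O i)) -
        wB e1 J m s.im ts P O i) + 5 / 2 * excS T' O + K * r + enC O +
      kap * win univ (fun i => ht (O i)) + En s.im (deriv (jB e1 J m s.im ts)) := by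
  unfold confEB oneEB
  rw [← sum_exc, ← sum_add_distrib]

/-- **the exponent of a configuration of TARGET-B** -/
theorem en_inpB : ∃ K0 : ℝ, 0 ≤ K0 ∧ ∀ kap : ℝ, 0 < kap → ∀ ep e1 J δ CB κ : ℝ, 0 < ep →
    ep ≤ 1 / 100 → 0 < e1 → e1 ≤ 1 / 100 → 0 < δ → 0 ≤ CB → 0 < κ → ∀ k : ℕ,
    ∃ d Cf : ℝ, 0 < d ∧ ∃ m0 : ℕ, ∀ m ≥ m0, ∀ B1, B1ok CB m B1 →
    ∀ (s : ℂ) (n : ℕ) (b0 b' ts : ℝ) (r : ℕ) (O : Fin r → Xo), RgB e1 d m s n b0 b' ts r O →
    ∀ (ϑ : ℝ) (p q : ℕ) (aX aY cf B : ℝ → ℝ),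
    DatG ep e1 κ CB ϑ k m (inpB e1 J m s ts b0 b' B1) (par0 (MB m)) O p q aX aY cf B →
      b' * (s.re - n) + b' / 2 * (((n : ℝ) - chgO O true) + ((n : ℝ) - chgO O false)) +
        (datO (inpB e1 J m s ts b0 b' B1) (par0 (MB m)) O).En + 12 / 5 * excS (TW ep e1 m) O ≤
      Cf + c0 * b0 ^ 2 * Real.log m + δ * Real.log m +
        (confEB (par0 (MB m)) m s e1 J ts (TWB ep e1 m) K0 kap O -
          1 / 10 * excS (TWB ep e1 m) O) := by
  obtain ⟨C0, hC0, HE⟩ := EnB_le NUC43.adm0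
  obtain ⟨K1, hK1, HM⟩ := exists_muphi NUC43.adm0
  obtain ⟨C2, hC2, HN⟩ := exists_nuchi
  obtain ⟨A, hA, HR⟩ := row_re
  refine ⟨2 + 10 * K1 + 3 * C0, by positivity, ?_⟩
  intro kap hkap ep e1 J δ CB κ hep hep' he1 he1' hδ hCB hκ k
  obtain ⟨m1, hm1⟩ := exists_numB C0 A K1 hkap k hκ
  refine ⟨min 1 (δ / 4), 4 * CB + K1 + 4 * C2 ^ 2 * CB / δ + 2 + 12 * C0, by positivity,
    max m1 3, ?_⟩
  intro m hm B1 hB1 s n b0 b' ts r O hR ϑ p q aX aY cf B hD
  have hmm1 : m1 ≤ m := (le_max_left _ _).trans hm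
  have hm3 : 3 ≤ m := (le_max_right _ _).trans hm
  have hN := hm1 m hmm1
  have hmp : (0 : ℝ) < m := by
    have : 0 < m := by omega
    exact_mod_cast this
  have hL1 := hN.n1
  have hy := abs_im_le hR.hs
  have hr0 : (0 : ℝ) ≤ r := Nat.cast_nonneg r
  have hs1 : (m : ℝ) / 2 ≤ s.re := hD.s1
  have hs2 : s.re ≤ 2 * m := hD.s2
  have hs0 : 0 < s.re := by linarith
  have hb0 := hR.hb0
  have hb1 := hR.hb1
  have hbd1 : |b' - b0| ≤ 1 := hR.hbd.trans (min_le_left _ _)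
  have hbd2 : |b' - b0| ≤ δ / 4 := hR.hbd.trans (min_le_right _ _)
  have hbd1' := abs_le.1 hbd1
  have hbd2' := abs_le.1 hbd2
  obtain ⟨dl, ε, M, e, hok, hε, hM, hdl⟩ := hD.ok
  have hder : ∀ t, HasDerivAt (etaB e1 J m s ts) (etaB' e1 J m s ts t) t := hok.der
  have hε0 : 0 ≤ ε := hok.cur.ε0
  have hM0 : 0 ≤ M := hok.cur.M0 hok.s0
  have hTL : Tb (Real.log m) = 3 / 8 * Real.log m := rfl
  have hT0 : 0 ≤ Tb (Real.log m) := by rw [hTL]; linarith
  have hb00 : 0 ≤ (1 - e1) * Tb (Real.log m) := by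
    have : 0 ≤ 1 - e1 := by linarith
    positivity
  have hbL' : (1 - e1) * Tb (Real.log m) ≤ Real.log m := by
    rw [hTL]
    nlinarith
  have hbL : (1 - e1) * Tb (Real.log m) + 1 ≤ 2 * Real.log m := by linarith
  obtain ⟨hsm, hMε1, hsmall⟩ := small_B (r := r) hC0 hm3 hN hε0 hM0 hε hM hb00 hbL hbL' hy hTL
    hs0.le hs2 hb0 (by linarith : b0 ≤ 2)
  have hinp : inpB e1 J m s ts b0 b' B1 = inB s.re (etaB e1 J m s ts) (etaB' e1 J m s ts) s.im b0
    (Tb (Real.log m)) (fun _ t => B1 t - (b' - b0) / 2) := rfl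
  have hok' := hok
  rw [hinp] at hok'
  have hEn := HE (T := Tb (Real.log m)) O rfl rfl hok' hsm hT0
  rw [← hinp] at hEn
  -- the sum of the one body exponents
  have t1 : (∑ i, (s.re * mfo (cons (par0 (MB m)) O i) +
      s.re * slkK (fun t => ∫ u, NUMF.P u * NUC43.slk (u - t)) (NUO.kd (O i)) (ht (O i)) -
      wcO (par0 (MB m)) O i (fun t => s.re * NUMF.P t * etaB e1 J m s ts t))) =
      ∑ i, (s.re * mfo (cons (par0 (MB m)) O i) +
        s.re * slkK NUSlk.slk (NUO.kd (O i)) (ht (O i)) - wB e1 J m s.im ts (par0 (MB m)) O i) := by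
    refine sum_congr rfl fun i _ => ?_
    rw [slk_int_eq, wcO_wB hs0]
  have t2 : NUAct.hd s.re (etaB e1 J m s ts) (etaB' e1 J m s ts) = deriv (jB e1 J m s.im ts) :=
    hd_jB hs0 hder
  have t5 := sea_B1 (by omega : 1 ≤ m) hB1 (c := b' - b0) hs2
  -- the densities of the objects against the remainder
  have h7 : A * |s.im| * ε ≤ 1 := by
    calc A * |s.im| * ε ≤ A * Real.log m * (m : ℝ) ^ (-κ) := by gcongr
      _ ≤ 1 := hN.a7
  have hW := wO_le hA HR hB1 hbd1 hok h7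
  have hwin0 : 0 ≤ win univ (fun i => ht (O i)) := win_nonneg _ _
  have hwin1 : win univ (fun i => ht (O i)) ≤ (r : ℝ) ^ 2 := by
    have := win_le_card_sq univ (fun i => ht (O i))
    rwa [card_univ, Fintype.card_fin] at this
  have hrr := sum_rr_le (by omega : 1 ≤ m) hD.par O
  have hdlw := dl_win (K1 := K1) (kap := kap) (by linarith) hwin0 hwin1 hdl hN.a8
  have t6 : (∑ a : Bool, ∫ t, NUC43.muC (par0 (MB m)).jL (par0 (MB m)).e O a t *
      phiO (inpB e1 J m s ts b0 b' B1) (par0 (MB m)) O a t) ≤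
      10 * K1 * r + K1 + kap * win univ (fun i => ht (O i)) := by
    have h1 : ∀ a : Bool, (∫ t, NUC43.muC (par0 (MB m)).jL (par0 (MB m)).e O a t *
        phiO (inpB e1 J m s ts b0 b' B1) (par0 (MB m)) O a t) ≤
        5 * K1 * r + K1 / 2 + kap / 2 * win univ (fun i => ht (O i)) := by
      intro a
      have h2 := (HM (O := O) rfl rfl hok a 3 (hW a)).2
      refine (le_abs_self _).trans (h2.trans ?_)
      rw [mul_add]
      have h4 : (r : ℝ) * (M * ε + (∑ i, rr (par0 (MB m)) O i) + 3) ≤ r * 5 :=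
        mul_le_mul_of_nonneg_left (by linarith) hr0
      have h3 : K1 * (r * (M * ε + (∑ i, rr (par0 (MB m)) O i) + 3)) ≤ K1 * (r * 5) :=
        mul_le_mul_of_nonneg_left h4 (by linarith)
      linarith
    rw [Fintype.sum_bool]
    have g1 := h1 true
    have g2 := h1 false
    linarith
  have t7 := plat_B1 hCB (by omega : 1 ≤ m) hB1 hC2 hTL (fun t => (HN _ hT0 t).1) hδ hb0
    (by linarith : b0 ≤ 2) hbd2'.2
  -- the tilt
  have t4 : b0 ^ 2 * Tb (Real.log m) / (2 * kap0) = c0 * b0 ^ 2 * Real.log m := by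
    unfold kap0 c0
    rw [hTL]
    have := Real.pi_pos
    field_simp
    ring
  have hc1 := chgO_le2 true O
  have hc2 := chgO_le2 false O
  have hc10 : (0 : ℝ) ≤ chgO O true := Nat.cast_nonneg _
  have hc20 : (0 : ℝ) ≤ chgO O false := Nat.cast_nonneg _
  have t0 : b' * (s.re - n) + b' / 2 * (((n : ℝ) - chgO O true) + ((n : ℝ) - chgO O false)) ≤
      b' * s.re + 2 * r := by
    have h1 : b' * (s.re - n) + b' / 2 * (((n : ℝ) - chgO O true) + ((n : ℝ) - chgO O false)) =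
        b' * s.re + -(b' / 2) * ((chgO O true : ℝ) + chgO O false) := by ring
    rw [h1]
    have h2 : -(b' / 2) ≤ 1 / 2 := by linarith
    have h3 : -(b' / 2) * ((chgO O true : ℝ) + chgO O false) ≤
        1 / 2 * ((chgO O true : ℝ) + chgO O false) := mul_le_mul_of_nonneg_right h2 (by linarith)
    linarith
  have hTW : TW ep e1 m = TWB ep e1 m := rfl
  rw [t1, t2, enQ_par0, t4] at hEn
  rw [confEB_eq, hTW]
  clear HE HM HN HR hm1 hok hok' hD hW
  linarith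

/-! ### from the gas integral to the bound of a configuration -/

theorem Z1g_bound {ep e1 J : ℝ} {m : ℕ} {s : ℂ} {ts b0 b' : ℝ} {B1 : ℝ → ℝ} {r : ℕ}
    {O : Fin r → Xo} (hη : ∀ t, |etaB e1 J m s ts t| < NUMF.l) (p q : ℕ) {X : ℝ} (hX : 0 ≤ X)
    {E : ℝ}
    (h : ∫⁻ x, ENNReal.ofReal (W0 (datO (inpB e1 J m s ts b0 b' B1) (par0 (MB m)) O) p q
      (aB e1 J m s ts b' O true) (aB e1 J m s ts b' O false) (cfB ep e1 J m s ts) x) ≤
      ENNReal.ofReal ((p.factorial : ℝ) * q.factorial *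
        (X * Real.exp (NUMFC.MFs s.re p q + E)))) :
    Z1g (RNB s (tB e1 m)) (MB m) (4 / 3 * (1 - ep)) (par0 (MB m)) (etaB e1 J m s ts)
      (etaB' e1 J m s ts) O p q ≤
      ENNReal.ofReal (X * Real.exp (NUMFC.MF s.re + E + b' / 2 * ((p : ℝ) + q))) := by
  set c : ℝ := Real.exp (-(b' / 2)) with hc
  have hc0 : 0 < c := Real.exp_pos _
  set aG : Bool → ℝ → ℝ := fun a => NUBR.aG (NUBR.fB s (etaB e1 J m s ts)) (MB m)
    (4 / 3 * (1 - ep)) (par0 (MB m)) (etaB e1 J m s ts) O a with haG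
  have hdat : (datO (inpB e1 J m s ts b0 b' B1) (par0 (MB m)) O).D true = dA (etaB e1 J m s ts) ∧
      (datO (inpB e1 J m s ts b0 b' B1) (par0 (MB m)) O).D1 true = dA (etaB' e1 J m s ts) ∧
      (datO (inpB e1 J m s ts b0 b' B1) (par0 (MB m)) O).D false = dA (etaB e1 J m s ts) ∧
      (datO (inpB e1 J m s ts b0 b' B1) (par0 (MB m)) O).D1 false = dA (etaB' e1 J m s ts) := by
    refine ⟨?_, ?_, ?_, ?_⟩
    · rw [datO_D]; rfl
    · rw [datO_D1]; rfl
    · rw [datO_D]; rfl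
    · rw [datO_D1]; rfl
  have hW : ∀ x : NUR2.Cfg p q, W0 (datO (inpB e1 J m s ts b0 b' B1) (par0 (MB m)) O) p q
      (aB e1 J m s ts b' O true) (aB e1 J m s ts b' O false) (cfB ep e1 J m s ts) x =
      c ^ (p + q) * NU42.WO (dA (etaB e1 J m s ts)) (dA (etaB' e1 J m s ts))
        (dA (etaB e1 J m s ts)) (dA (etaB' e1 J m s ts)) (aG true) (aG false) x.1 x.2 := by
    intro x
    unfold W0
    rw [hdat.1, hdat.2.1, hdat.2.2.1, hdat.2.2.2, ← NUBR.WO_smul]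
    congr 1
    · funext t
      exact aB_cfB ep e1 J m s ts b' O true t
    · funext t
      exact aB_cfB ep e1 J m s ts b' O false t
  simp_rw [hW, ENNReal.ofReal_mul (pow_nonneg hc0.le _)] at h
  rw [lintegral_const_mul' _ _ ENNReal.ofReal_ne_top] at h
  rw [NUBR.Z1B_eq s (tB e1 m) hη O p q]
  have hf : (0 : ℝ) < (p.factorial : ℝ) * q.factorial := by positivity
  have e1' : ((p.factorial : ℝ≥0∞) * q.factorial)⁻¹ =
      ENNReal.ofReal (((p.factorial : ℝ) * q.factorial)⁻¹) := by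
    rw [ENNReal.ofReal_inv_of_pos hf, ENNReal.ofReal_mul (by positivity), ENNReal.ofReal_natCast,
      ENNReal.ofReal_natCast]
  have hcp : 0 < c ^ (p + q) := pow_pos hc0 _
  set I : ℝ≥0∞ := ∫⁻ x : (Fin p → ℝ) × (Fin q → ℝ), ENNReal.ofReal (NU42.WO
    (dA (etaB e1 J m s ts)) (dA (etaB' e1 J m s ts)) (dA (etaB e1 J m s ts))
    (dA (etaB' e1 J m s ts)) (aG true) (aG false) x.1 x.2) with hI
  have hI2 : I ≤ ENNReal.ofReal ((c ^ (p + q))⁻¹ * ((p.factorial : ℝ) * q.factorial *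
      (X * Real.exp (NUMFC.MFs s.re p q + E)))) := by
    have h1 : ENNReal.ofReal ((c ^ (p + q))⁻¹) * (ENNReal.ofReal (c ^ (p + q)) * I) = I := by
      rw [← mul_assoc, ← ENNReal.ofReal_mul (inv_pos.2 hcp).le, inv_mul_cancel₀ hcp.ne',
        ENNReal.ofReal_one, one_mul]
    rw [← h1, ENNReal.ofReal_mul (inv_pos.2 hcp).le]
    exact mul_le_mul_right h _
  have hcinv : (c ^ (p + q))⁻¹ = Real.exp (b' / 2 * ((p : ℝ) + q)) := by
    rw [hc, ← Real.exp_nat_mul, ← Real.exp_neg]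
    congr 1
    push_cast
    ring
  calc ENNReal.ofReal (NUMFC.act ^ (p + q)) * (((p.factorial : ℝ≥0∞) * q.factorial)⁻¹ * I)
      ≤ ENNReal.ofReal (NUMFC.act ^ (p + q)) * (ENNReal.ofReal (((p.factorial : ℝ) *
        q.factorial)⁻¹) * ENNReal.ofReal ((c ^ (p + q))⁻¹ * ((p.factorial : ℝ) * q.factorial *
        (X * Real.exp (NUMFC.MFs s.re p q + E))))) := by
        rw [e1']
        gcongr
    _ = ENNReal.ofReal (X * Real.exp (NUMFC.MF s.re + E + b' / 2 * ((p : ℝ) + q))) := by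
        rw [← ENNReal.ofReal_mul (by positivity),
          ← ENNReal.ofReal_mul (pow_nonneg NUMFC.act_pos.le _)]
        congr 1
        rw [hcinv, Real.exp_add, Real.exp_add, Real.exp_add, ← NUMFC.act_MFs s.re p q]
        field_simp

/-- the far factor and the windows of `confG` -/
theorem confG_eq (ep e1 : ℝ) (m : ℕ) (I : Inp) (P : Par) (p n : ℕ) (K kap : ℝ) {r : ℕ}
    (O : Fin r → Xo) : confG ep e1 m I P p n K kap O = NUMFC.MFs I.s p n +
      ((datO I P O).En + 12 / 5 * excS (TW ep e1 m) O + (K * r +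
        kap * win univ (fun i => ht (O i)))) := by
  unfold confG
  ring

/-- **the bound of one configuration from the bound of the gas integral** -/
theorem conf_of {ep e1 J : ℝ} {m : ℕ} {s : ℂ} {n : ℕ} {ts b0 b' d : ℝ} {B1 : ℝ → ℝ} {r : ℕ}
    {O : Fin r → Xo} {K K0 kap pw δ Cst Cf : ℝ} (hm : 1 ≤ m)
    (hη : ∀ t, |etaB e1 J m s ts t| < NUMF.l) (hR : RgB e1 d m s n b0 b' ts r O)
    (hCst : 0 ≤ Cst)
    (hen : b' * (s.re - n) + b' / 2 * (((n : ℝ) - chgO O true) + ((n : ℝ) - chgO O false)) +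
        (datO (inpB e1 J m s ts b0 b' B1) (par0 (MB m)) O).En + 12 / 5 * excS (TW ep e1 m) O ≤
      Cf + c0 * b0 ^ 2 * Real.log m + δ * Real.log m +
        (confEB (par0 (MB m)) m s e1 J ts (TWB ep e1 m) K0 (kap / 2) O -
          1 / 10 * excS (TWB ep e1 m) O))
    (h : ∫⁻ x, ENNReal.ofReal (W0 (datO (inpB e1 J m s ts b0 b' B1) (par0 (MB m)) O)
      (n - chgO O true) (n - chgO O false)
      (aB e1 J m s ts b' O true) (aB e1 J m s ts b' O false) (cfB ep e1 J m s ts) x) ≤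
      ENNReal.ofReal (((n - chgO O true).factorial : ℝ) * (n - chgO O false).factorial *
        (Cst * (m : ℝ) ^ pw * Real.exp (confG ep e1 m (inpB e1 J m s ts b0 b' B1) (par0 (MB m))
          (n - chgO O true) (n - chgO O false) K (kap / 2) O)))) :
    ENNReal.ofReal (Real.exp (b' * (s.re - n))) *
      Z1g (RNB s (tB e1 m)) (MB m) (4 / 3 * (1 - ep)) (par0 (MB m)) (etaB e1 J m s ts)
        (etaB' e1 J m s ts) O (n - chgO O true) (n - chgO O false) ≤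
      ENNReal.ofReal (prefB m s.re b0 (Cst * Real.exp Cf) * (m : ℝ) ^ (pw + δ) *
        Real.exp (confEB (par0 (MB m)) m s e1 J ts (TWB ep e1 m) (K + K0) kap O -
          1 / 10 * excS (TWB ep e1 m) O)) := by
  have hmp : (0 : ℝ) < m := by exact_mod_cast hm
  have hpw : 0 ≤ (m : ℝ) ^ pw := Real.rpow_nonneg hmp.le _
  rw [confG_eq] at h
  have h1 := Z1g_bound (ep := ep) (b0 := b0) (B1 := B1) hη (n - chgO O true) (n - chgO O false)
    (X := Cst * (m : ℝ) ^ pw) (mul_nonneg hCst hpw) h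
  refine (mul_le_mul_right h1 _).trans ?_
  rw [← ENNReal.ofReal_mul (Real.exp_pos _).le]
  refine ENNReal.ofReal_le_ofReal ?_
  rw [Nat.cast_sub hR.hc1, Nat.cast_sub hR.hc2]
  have e1' : (m : ℝ) ^ (pw + δ) = (m : ℝ) ^ pw * Real.exp (δ * Real.log m) := by
    rw [Real.rpow_add hmp, Real.rpow_def_of_pos hmp δ, mul_comm (Real.log m) δ]
  have hMF : NUMFC.MF s.re = (∫ t, NUMF.P t * NUMF.v t) * s.re ^ 2 := by
    unfold NUMFC.MF
    ring
  have hconf : confEB (par0 (MB m)) m s e1 J ts (TWB ep e1 m) (K + K0) kap O =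
      confEB (par0 (MB m)) m s e1 J ts (TWB ep e1 m) K0 (kap / 2) O + (K * r +
        kap / 2 * win univ (fun i => ht (O i))) := by
    unfold confEB
    ring
  unfold prefB
  rw [e1', hconf, hMF]
  set E : ℝ := (datO (inpB e1 J m s ts b0 b' B1) (par0 (MB m)) O).En + 12 / 5 *
    excS (TW ep e1 m) O + (K * r + kap / 2 * win univ (fun i => ht (O i))) with hE
  set Y : ℝ := confEB (par0 (MB m)) m s e1 J ts (TWB ep e1 m) K0 (kap / 2) O with hY
  calc Real.exp (b' * (s.re - n)) * (Cst * (m : ℝ) ^ pw * Real.exp ((∫ t, NUMF.P t * NUMF.v t) *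
        s.re ^ 2 + E + b' / 2 * (((n : ℝ) - chgO O true) + ((n : ℝ) - chgO O false))))
      = Cst * (m : ℝ) ^ pw * Real.exp ((∫ t, NUMF.P t * NUMF.v t) * s.re ^ 2 +
        (b' * (s.re - n) + b' / 2 * (((n : ℝ) - chgO O true) + ((n : ℝ) - chgO O false)) +
          E)) := by
        rw [mul_left_comm, ← Real.exp_add]
        congr 2
        ring
    _ ≤ Cst * (m : ℝ) ^ pw * Real.exp ((∫ t, NUMF.P t * NUMF.v t) * s.re ^ 2 +
        (Cf + c0 * b0 ^ 2 * Real.log m + δ * Real.log m + (Y - 1 / 10 * excS (TWB ep e1 m) O) +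
          (K * r + kap / 2 * win univ (fun i => ht (O i))))) := by
        refine mul_le_mul_of_nonneg_left (Real.exp_le_exp.2 ?_) (mul_nonneg hCst hpw)
        rw [hE]
        linarith
    _ = _ := by
        rw [show (∫ t, NUMF.P t * NUMF.v t) * s.re ^ 2 + (Cf + c0 * b0 ^ 2 * Real.log m +
          δ * Real.log m + (Y - 1 / 10 * excS (TWB ep e1 m) O) +
          (K * r + kap / 2 * win univ (fun i => ht (O i)))) = (∫ t, NUMF.P t * NUMF.v t) *
          s.re ^ 2 + (Cf + (c0 * b0 ^ 2 * Real.log m + (δ * Real.log m +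
          (Y + (K * r + kap / 2 * win univ (fun i => ht (O i))) -
          1 / 10 * excS (TWB ep e1 m) O)))) by ring,
          Real.exp_add, Real.exp_add Cf, Real.exp_add (c0 * b0 ^ 2 * Real.log m),
          Real.exp_add (δ * Real.log m)]
        ring

/-- the curve stays in the strip -/
theorem eta_of_datG {ep e1 κ CB ϑ J : ℝ} {k m : ℕ} {s : ℂ} {ts b0 b' : ℝ} {B1 : ℝ → ℝ} {P : Par}
    {r : ℕ} {O : Fin r → Xo} {p q : ℕ} {aX aY cf B : ℝ → ℝ}
    (h : DatG ep e1 κ CB ϑ k m (inpB e1 J m s ts b0 b' B1) P O p q aX aY cf B) (t : ℝ) :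
    |etaB e1 J m s ts t| < NUMF.l := by
  obtain ⟨dl, ε, M, e, hok, -⟩ := h.ok
  have h1 : |etaB e1 J m s ts t| ≤ ε := hok.eta t
  have h2 := hok.εl
  have h3 := NUMF.l_pos
  linarith

/-- **the crude bound of TARGET-B** -/
theorem crudeB_of (hG : CrudeG) (hD : DatGB) : CrudeB := by
  obtain ⟨K, Ca, hK, hCa, hG⟩ := hG
  obtain ⟨K0, hK0, hE⟩ := en_inpB
  refine ⟨K + K0, Ca, by positivity, hCa, ?_⟩
  intro kap hkap ep hep hep' e1 he1 he1' J hJ δ hδ
  obtain ⟨k0, κ0, CB, hκ0, hCB, hD⟩ := hD ep hep hep' e1 he1 he1' J hJ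
  obtain ⟨ϑ, Cst, hϑ, hCst, m1, hG⟩ := hG (kap / 2) (by positivity) ep hep hep' e1 he1 he1' (δ / 2)
    (by positivity) k0 κ0 CB hκ0 hCB
  obtain ⟨d1, hd1, m2, hD⟩ := hD k0 le_rfl κ0 hκ0 le_rfl ϑ hϑ
  obtain ⟨d2, Cf, hd2, m3, hE⟩ := hE (kap / 2) (by positivity) ep e1 J (δ / 2) CB κ0 hep hep' he1
    he1' (by positivity) hCB hκ0 k0
  refine ⟨min d1 d2, Cst * Real.exp Cf, lt_min hd1 hd2, by positivity, max (max m1 m2) (max m3 1),
    ?_⟩
  intro m hm s hs n hn b0 hb0 hb1 b' hb' ts had r hr O hc1 hc2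
  have hm1 : m1 ≤ m := ((le_max_left _ _).trans (le_max_left _ _)).trans hm
  have hm2 : m2 ≤ m := ((le_max_right _ _).trans (le_max_left _ _)).trans hm
  have hm3 : m3 ≤ m := ((le_max_left _ _).trans (le_max_right _ _)).trans hm
  have hm4 : 1 ≤ m := ((le_max_right _ _).trans (le_max_right _ _)).trans hm
  obtain ⟨B1, hB1, hD⟩ := hD m hm2
  have hR1 : RgB e1 d1 m s n b0 b' ts r O :=
    ⟨hs, hn, hb0, hb1, hb'.trans (min_le_left _ _), had, hr, hc1, hc2⟩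
  have hR2 : RgB e1 d2 m s n b0 b' ts r O :=
    ⟨hs, hn, hb0, hb1, hb'.trans (min_le_right _ _), had, hr, hc1, hc2⟩
  have hdat := hD s n b0 b' ts r O hR1
  have h := hG m hm1 _ _ r O _ _ _ _ _ _ hdat
  have hen := hE m hm3 B1 hB1 s n b0 b' ts r O hR2 ϑ _ _ _ _ _ _ hdat
  have key := conf_of (kap := kap) (K := K) (K0 := K0) (Cf := Cf) (δ := δ / 2)
    (pw := 7 / 8 + Ca * (ep + e1) + δ / 2) (Cst := Cst) hm4 (eta_of_datG hdat) hR2 hCst hen h
  rwa [show 7 / 8 + Ca * (ep + e1) + δ / 2 + δ / 2 = 7 / 8 + Ca * (ep + e1) + δ by ring] at key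

/-- **the sharp bound of TARGET-B** -/
theorem sharpB_of (hG : SharpG) (hD : DatGB) (hGD : GDB) : SharpB := by
  obtain ⟨K, Ca, hK, hCa, hG⟩ := hG
  obtain ⟨K0, hK0, hE⟩ := en_inpB
  refine ⟨K + K0, Ca, by positivity, hCa, ?_⟩
  intro kap hkap ep hep hep' e1 he1 he1' J hJ δ hδ
  obtain ⟨k0, κ0, CB, hκ0, hCB, hD⟩ := hD ep hep hep' e1 he1 he1' J hJ
  obtain ⟨k1, κ1, w, hκ1, hw, hw1, hGD⟩ := hGD ep hep hep' e1 he1 he1' J hJ
  have hκ : 0 < min κ0 κ1 := lt_min hκ0 hκ1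
  obtain ⟨ϑ, Cst, hϑ, hCst, m1, hG⟩ := hG (kap / 2) (by positivity) ep hep hep' e1 he1 he1' (δ / 2)
    (by positivity) (max k0 k1) (min κ0 κ1) CB w hκ hCB hw hw1
  obtain ⟨d1, hd1, m2, hD⟩ := hD (max k0 k1) (le_max_left _ _) (min κ0 κ1) hκ (min_le_left _ _) ϑ hϑ
  obtain ⟨m5, hGD⟩ := hGD (max k0 k1) (le_max_right _ _) (min κ0 κ1) hκ (min_le_right _ _)
  obtain ⟨d2, Cf, hd2, m3, hE⟩ := hE (kap / 2) (by positivity) ep e1 J (δ / 2) CB (min κ0 κ1) hep
    hep' he1 he1' (by positivity) hCB hκ (max k0 k1)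
  refine ⟨min 1 (min d1 d2), Cst * Real.exp Cf, lt_min one_pos (lt_min hd1 hd2), by positivity,
    max (max m1 m2) (max m3 (max 1 m5)), ?_⟩
  intro m hm s hs n hn hsn b0 hb0 hb1 b' hb' ts had r hr hrL O hht hc1 hc2
  have hm1 : m1 ≤ m := ((le_max_left _ _).trans (le_max_left _ _)).trans hm
  have hm2 : m2 ≤ m := ((le_max_right _ _).trans (le_max_left _ _)).trans hm
  have hm3 : m3 ≤ m := ((le_max_left _ _).trans (le_max_right _ _)).trans hm
  have hm4 : 1 ≤ m :=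
    (((le_max_left _ _).trans (le_max_right _ _)).trans (le_max_right _ _)).trans hm
  have hm5 : m5 ≤ m :=
    (((le_max_right _ _).trans (le_max_right _ _)).trans (le_max_right _ _)).trans hm
  obtain ⟨B1, hB1, hD⟩ := hD m hm2
  have hR0 : RgB e1 1 m s n b0 b' ts r O :=
    ⟨hs, hn, hb0, hb1, hb'.trans (min_le_left _ _), had, hr, hc1, hc2⟩
  have hR1 : RgB e1 d1 m s n b0 b' ts r O :=
    ⟨hs, hn, hb0, hb1, hb'.trans ((min_le_right _ _).trans (min_le_left _ _)), had, hr, hc1, hc2⟩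
  have hR2 : RgB e1 d2 m s n b0 b' ts r O :=
    ⟨hs, hn, hb0, hb1, hb'.trans ((min_le_right _ _).trans (min_le_right _ _)), had, hr, hc1, hc2⟩
  have hdat := hD s n b0 b' ts r O hR1
  have hgd := hGD m hm5 s n b0 b' ts r O hR0 hsn hrL hht
  have h := hG m hm1 _ _ r O _ _ _ _ _ _ hdat hgd hrL hht
  have hen := hE m hm3 B1 hB1 s n b0 b' ts r O hR2 ϑ _ _ _ _ _ _ hdat
  have key := conf_of (kap := kap) (K := K) (K0 := K0) (Cf := Cf) (δ := δ / 2)
    (pw := 3 / 8 + Ca * (ep + e1) + δ / 2) (Cst := Cst) hm4 (eta_of_datG hdat) hR2 hCst hen h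
  rw [show 3 / 8 + Ca * (ep + e1) + δ / 2 + δ / 2 = 3 / 8 + Ca * (ep + e1) + δ by ring] at key
  refine key.trans (ENNReal.ofReal_le_ofReal ?_)
  have hmp : (0 : ℝ) ≤ m := Nat.cast_nonneg m
  have hexc := excS_nonneg (TWB ep e1 m) O
  refine mul_le_mul_of_nonneg_left (Real.exp_le_exp.2 (by linarith))
    (mul_nonneg (prefB_nonneg (by positivity)) (Real.rpow_nonneg hmp _))

/-- **section 4 of TARGET-B** -/
theorem s4B_proof (h1 : CrudeG) (h2 : SharpG) (hD : DatGB) (hGD : GDB) : S4B :=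
  s4B_of (crudeB_of h1 hD) (sharpB_of h2 hD hGD)

end NUCR

end
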