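import Pool.Agent.NUO.NumUpF
import Pool.Agent.NUCR.Fin
import Pool.Agent.NUCR.OneBBp
import Pool.Agent.NUCR.S4Bp
import Pool.Agent.NUCR.DatGB
import Pool.Agent.NUCR.GDB
import Pool.Agent.NUF.FINT
import Pool.Agent.MS.Stmt

/-!
# TARGET-B: `NUI.Target` is a theorem

`target : NUI.Target`; `twoSided`: the two-sided bounds of the size with the exponent `3 / 2`.
-/

set_option autoImplicit false

noncomputable section

namespace NUCR

theorem s4B : S4B := s4B_proof NUO.crudeG NUO.sharpG datGB gDB

/-- **TARGET-B** -/
theorem target : NUI.Target := target_of_SO s4B (oneBB 12)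

/-- the partition function of the sphere lattice from below -/
theorem zLow : Pool.Agent.NUF.ZLow := NUI.zLow_of_target target

/-- the gas of nested polygons of a strip from below -/
theorem nfLow : Pool.Agent.NUF.NFLow := NUI.nfLow_of_target Pool.Agent.NUNC.windUp target

/-- **the two-sided bounds of the size**, exponent `3 / 2` -/
theorem twoSided (p q : ℝ) (hp : p < 3 / 2) (hq : 3 / 2 < q) : MS.TwoSided p q :=
  Pool.Agent.NUF.size_three_halves_of_target target p q hp hq

end NUCR
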