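import Pool.Agent.NUO.Glue
import Pool.Agent.NUP1S.Zc
import Pool.Agent.NUI.Fin2

/-!
# TARGET-B: the statements R4B, PerB

Everything of `NUO/Obj`, `NUO/Glue` with a general row factor `R : ℂ → ℝ` of one quantum and a
cutoff with `M` points.  `RNB s tc` is the row factor for a complex number `s` of pairs of rows,
with the cut of the logarithm at the height `tc` on the lines with offset `> 1`.
`R4B`: the representation corollary, curve depending on the objects.  `PerB`: the bound of one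
configuration.  `GlueB` (helper29): R4B → PerB → `NUI.Target`.
-/

set_option autoImplicit false

noncomputable section

open MeasureTheory Finset
open scoped ENNReal

namespace NUCR

open NUO NUP1

/-- logarithm of the row factor `Fr`: `lgA` on the right of the rows, cut at the height `tc` on the
left -/
def lgu (tc : ℝ) (u : ℂ) : ℂ := if 0 < u.re then lgA u else NUP1S.lgc tc u

/-- row factor of a quantum (activity `2 cos l` included), complex number `s` of pairs of rows -/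
def RNB (s : ℂ) (tc : ℝ) (u : ℂ) : ℝ := 2 * Real.cos l * ‖Complex.exp (s * lgu tc u)‖

/-- modulus of the weight of the string of `S`, `Sv`, `Svv` -/
def oSg (R : ℂ → ℝ) (M : ℕ) (w : ℂ) : ℝ := aS * (R w * R (w - l)) * ‖ph M (4 / 3) w‖

/-- modulus of the one body weight of an object -/
def ob1g (R : ℂ → ℝ) (M : ℕ) (β jL e ρ : ℝ) (x : Xo) : ℝ :=
  match NUO.kd x with
  | .L => (2 * Real.pi)⁻¹ * (R (posL jL (ht x)) * ‖ph M β (posL jL (ht x))‖)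
  | .St => aS * (R (posT (ht x)) * R (posT (ht x) - l)) *
      ‖ph M β (posT (ht x)) * ph M β (posT (ht x) - l) - ph M (4 / 3) (posT (ht x))‖
  | .S => oSg R M (posS e (ht x))
  | .Sv => oSg R M (posS e (ht x)) * (ρ * (R (posV e ρ (ht x) (an x)) *
      ‖ph M β (posV e ρ (ht x) (an x))‖) *
      ‖Kn.cz false true (posV e ρ (ht x) (an x) - posS e (ht x))‖)
  | .Svv => oSg R M (posS e (ht x)) * (4 * Real.cos l ^ 2 *
      (R (posS e (ht x) + 2 * l) * ‖ph M β (posS e (ht x) + 2 * l)‖ /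
        Real.sin (5 * l) ^ 2) ^ 2)

theorem ob1_eq (m : ℕ) (β jL e ρ : ℝ) (x : Xo) : ob1 m β jL e ρ x = ob1g (RN m) m β jL e ρ x := rfl

/-- modulus of the weight of the configuration without the quanta on `A'` -/
def objWg (R : ℂ → ℝ) (M : ℕ) (β : ℝ) (P : Par) {r : ℕ} (O : Fin r → Xo) : ℝ :=
  (∏ i, ob1g R M β P.jL (ei P O i) (rr P O i) (O i)) *
    ∏ i, ∏ j, if i < j then pairN P O i j else 1

/-- one body factor of a quantum of species `s` on `A'`, with the potentials of the objects -/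
def qAg (R : ℂ → ℝ) (M : ℕ) (β : ℝ) (P : Par) (η : ℝ → ℝ) {r : ℕ} (O : Fin r → Xo) (s : Bool)
    (t : ℝ) : ℝ :=
  (2 * Real.pi)⁻¹ * (R (NUO.pA η t) * ‖ph M β (NUO.pA η t)‖) * ∏ i, potN P O i s (NUO.pA η t)

/-- the positive gas of `a` quanta X and `b` quanta Y on `A'` -/
def Z1g (R : ℂ → ℝ) (M : ℕ) (β : ℝ) (P : Par) (η η' : ℝ → ℝ) {r : ℕ} (O : Fin r → Xo)
    (a b : ℕ) : ℝ≥0∞ :=
  ((a.factorial : ℝ≥0∞) * b.factorial)⁻¹ * ∫⁻ x : (Fin a → ℝ) × (Fin b → ℝ),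
    ENNReal.ofReal (NU42.WO (dA η) (dA η') (dA η) (dA η') (qAg R M β P η O true)
      (qAg R M β P η O false) x.1 x.2)

/-- the term of the configuration `O` with `n` quanta of each species -/
def Fng (R : ℂ → ℝ) (M : ℕ) (β : ℝ) (P : Par) (η η' : ℝ → ℝ) (n : ℕ) {r : ℕ} (O : Fin r → Xo) :
    ℝ≥0∞ :=
  if chgO O true ≤ n ∧ chgO O false ≤ n then
    ENNReal.ofReal (objWg R M β P O) * Z1g R M β P η η' O (n - chgO O true) (n - chgO O false)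
  else 0

theorem Fn_eq (m : ℕ) (β : ℝ) (P : Par) (η η' : ℝ → ℝ) (n : ℕ) {r : ℕ} (O : Fin r → Xo) :
    Fn m β P η η' n O = Fng (RN m) m β P η η' n O := rfl

/-- conditions on the parameters -/
structure ParB (P : Par) : Prop where
  j1 : 21 / 10 ≤ P.jL
  j2 : P.jL ≤ 29 / 10
  e1 : 1 / 10 ≤ P.e
  d0 : ∀ r, 0 < P.d r
  e2 : ∀ r, P.e + P.d r ≤ 3 / 5
  rm : ∀ r, Measurable (P.rad r)
  r0 : ∀ r t, 0 < P.rad r t
  r1 : ∀ r t, P.rad r t ≤ NUP1.l * P.d r / (8 * (r + 1))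

/-- conditions on the curve (both signs); `β = (4 / 3) (1 - ep)` -/
structure CurB (ep : ℝ) (η η' : ℝ → ℝ) : Prop where
  hd : ∀ t, HasDerivAt η (η' t) t
  hc : Continuous η'
  h1 : ∀ t, |η t| ≤ ep * NUP1.l / 4
  hb : ∃ B, ∀ t, |η' t| ≤ B

/-- `c = 2 / (3 π ^ 2)` -/
def c0 : ℝ := 2 / (3 * Real.pi ^ 2)

/-- the strip of the complex numbers of rows around `m` -/
def InS (m : ℕ) (s : ℂ) : Prop :=
  |s.re - m| ≤ NUI.NN m + 1 / 2 ∧ -(Real.pi / 4 * NUI.XX c0 m) ≤ s.im ∧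
    s.im ≤ 17 / 10 * NUI.XX c0 m

/-- **R4B**: the representation corollary for a complex number of rows -/
def R4B : Prop := ∀ ep : ℝ, 0 < ep → ep ≤ 1 / 100 → ∀ (M : ℕ) (tc : ℝ) (P : Par), ParB P →
  ∃ (α β₀ s₀ s' bl bh sl sh tl th : ℝ) (lnX : NUP1S.Lns) (lnY : NUP1S.Lns'),
    NUP1S.Par α β₀ (4 / 3 * (1 - ep)) s₀ (4 / 3) s' bl bh sl sh tl th ∧ -(2 * NUP1.l) < sl ∧
    NUP1S.LnOk α bl bh sl sh tl th lnX lnY ∧
    ∀ (s : ℂ) (η η' : (r : ℕ) → (Fin r → Xo) → ℝ → ℝ),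
      (∀ (r : ℕ) (O : Fin r → Xo), CurB ep (η r O) (η' r O)) → ∀ n : ℕ,
      ‖NUP1S.Zc cc (4 / 3 * (1 - ep)) (4 / 3) M tc α lnX lnY n s‖ₑ ≤
        ∑ r ∈ range (2 * n + 1), ((r.factorial : ℝ≥0∞))⁻¹ *
          ∫⁻ O : Fin r → Xo, Fng (RNB s tc) M (4 / 3 * (1 - ep)) P (η r O) (η' r O) n O
            ∂(Measure.pi fun _ => nu)

/-- the bound of the mean field value at the complex number `s` of rows, tilt `b` -/
def MFB (m : ℕ) (s : ℂ) (b : ℝ) : ℝ :=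
  Real.exp ((∫ t, NUMF.P t * NUMF.v t) * s.re ^ 2) * Real.exp (c0 * b ^ 2 * Real.log m) *
    Real.exp (-(s.im ^ 2 * ((∫ t, NUMF.P t * NUMF.v t) - 1 / (2 * NUI.XX c0 m))))

/-- **PerB**: the tilted inequality for one configuration -/
def PerB : Prop := ∃ (C c b c1 c' Ca : ℝ) (k : ℕ), 0 < C ∧ 0 < c ∧ 0 < b ∧ 0 < c1 ∧ 0 ≤ c' ∧
  0 ≤ Ca ∧ ∀ ep : ℝ, 0 < ep → ep ≤ 1 / 100 → ∀ e1 : ℝ, 0 < e1 → e1 ≤ 1 / 100 → ∀ J : ℝ, 0 ≤ J →
    ∀ δ : ℝ, 0 < δ → ∃ d C' Cst : ℝ, 0 < d ∧ 0 ≤ C' ∧ 0 ≤ Cst ∧ ∃ m0 : ℕ, ∀ m ≥ m0,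
      ∃ (M : ℕ) (tc : ℝ) (P : Par), ParB P ∧ m + NUI.NN m ≤ M ∧
      ∀ s : ℂ, InS m s → ∀ n ≤ 2 * (m + NUI.NN m), ∀ b0 : ℝ, 0 ≤ b0 → b0 ≤ 17 / 10 →
      ∀ b' : ℝ, b' = b0 + d ∨ b' = b0 - d →
      ∀ r ≤ 2 * n, ∀ O : Fin r → Xo, ∃ η η' : ℝ → ℝ, CurB ep η η' ∧ ∀ W : Finset ℤ,
        ENNReal.ofReal (Real.exp (b' * (s.re - n))) *
            Fng (RNB s tc) M (4 / 3 * (1 - ep)) P η η' n O ≤
          ENNReal.ofReal (Cst * MFB m s b0 * (m : ℝ) ^ (3 / 8 + Ca * (ep + e1) + δ) *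
            (if (r : ℝ) ≤ Real.log m then 1 else Real.exp (c' * Real.log m)) *
            (∏ i, act C C' c b k (Real.log m) ep e1 J r (ht (O i))) *
            Real.exp (-(c1 * ∑ w ∈ W, (cO O w : ℝ) ^ 2)))

/-! ### the row factor -/

theorem RNB_nonneg (s : ℂ) (tc : ℝ) (u : ℂ) : 0 ≤ RNB s tc u := by
  have h : 0 ≤ Real.cos l := by
    refine Real.cos_nonneg_of_mem_Icc ⟨?_, ?_⟩ <;> unfold l <;> linarith [Real.pi_pos]
  unfold RNB
  positivity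

/-- row factor at a real number of rows -/
def RNr (σ : ℝ) (u : ℂ) : ℝ :=
  2 * Real.cos l * (‖Complex.sin (u + 3 * l)‖ ^ 2 / (‖Complex.sin u‖ * ‖Complex.sin (u - 2 * l)‖)) ^ σ

theorem RNr_nat (m : ℕ) (u : ℂ) : RNr m u = RN m u := by
  unfold RNr RN
  rw [Real.rpow_natCast]

end NUCR

end
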