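import Mathlib

/-!
# Profiles of the currents (target B of nu34): smooth piecewise linear functions

`Ps` is a smooth version of `max t 0`.  `jU D eta ts` is the smoothed piecewise linear function
which is `0` left of `-D`, `eta * (1 + p)` at `ts`, `p = (D - ts) / (2 D)`, and `eta` right of
`D`; `jL D eta` is `0` left of `D / 2` and `eta` right of `D`.
-/

open MeasureTheory Set

noncomputable section

namespace NUCR

/-! ### The smooth bump and its two primitives -/

def bb : ContDiffBump (0 : ℝ) := ⟨1 / 2, 1, by norm_num, by norm_num⟩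

/-- smooth nonnegative bump of mass one, supported in `[-1, 1]` -/
def bu (x : ℝ) : ℝ := bb.normed volume x

theorem bu_nonneg (x : ℝ) : 0 ≤ bu x := bb.nonneg_normed x

theorem bu_smooth {n : ℕ∞} : ContDiff ℝ n bu := bb.contDiff_normed

theorem bu_cont : Continuous bu := (bu_smooth (n := 0)).continuous

theorem bu_out {x : ℝ} (h : 1 ≤ |x|) : bu x = 0 := by
  have h1 : x ∉ Function.support (bb.normed volume) := by
    rw [bb.support_normed_eq]
    simp only [Metric.mem_ball, dist_zero_right, Real.norm_eq_abs, not_lt]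
    exact h
  simpa [bu] using h1

theorem bu_int : ∫ x, bu x = 1 := bb.integral_normed

theorem bu_intOn : ∫ x in (-1 : ℝ)..1, bu x = 1 := by
  rw [intervalIntegral.integral_of_le (by norm_num)]
  refine Eq.trans ?_ bu_int
  apply setIntegral_eq_integral_of_forall_compl_eq_zero
  intro x hx
  apply bu_out
  rw [mem_Ioc, not_and_or, not_lt, not_le] at hx
  rcases hx with h | h
  · rw [abs_of_nonpos (by linarith)]; linarith
  · rw [abs_of_pos (by linarith)]; linarith

/-- distribution function of the bump -/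
def Ph (t : ℝ) : ℝ := ∫ x in (-1 : ℝ)..t, bu x

/-- smooth positive part, up to a constant on the right -/
def Ps (t : ℝ) : ℝ := ∫ x in (-1 : ℝ)..t, Ph x

theorem Ph_deriv (t : ℝ) : HasDerivAt Ph (bu t) t :=
  intervalIntegral.integral_hasDerivAt_right (bu_cont.intervalIntegrable _ _)
    (bu_cont.stronglyMeasurableAtFilter _ _) bu_cont.continuousAt

theorem Ph_cont : Continuous Ph :=
  continuous_iff_continuousAt.2 fun t => (Ph_deriv t).continuousAt

theorem Ps_deriv (t : ℝ) : HasDerivAt Ps (Ph t) t :=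
  intervalIntegral.integral_hasDerivAt_right (Ph_cont.intervalIntegrable _ _)
    (Ph_cont.stronglyMeasurableAtFilter _ _) Ph_cont.continuousAt

theorem Ps_cont : Continuous Ps :=
  continuous_iff_continuousAt.2 fun t => (Ps_deriv t).continuousAt

theorem Ph_left {t : ℝ} (h : t ≤ -1) : Ph t = 0 := by
  unfold Ph
  rw [intervalIntegral.integral_symm, intervalIntegral.integral_of_le h]
  rw [setIntegral_eq_zero_of_forall_eq_zero, neg_zero]
  intro x hx
  apply bu_out
  have := hx.2
  rw [abs_of_nonpos (by linarith)]; linarith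

theorem Ph_mono : Monotone Ph := by
  apply monotone_of_deriv_nonneg (fun t => (Ph_deriv t).differentiableAt)
  intro t
  rw [(Ph_deriv t).deriv]
  exact bu_nonneg t

theorem Ph_right {t : ℝ} (h : 1 ≤ t) : Ph t = 1 := by
  unfold Ph
  rw [← intervalIntegral.integral_add_adjacent_intervals (bu_cont.intervalIntegrable (-1) 1)
    (bu_cont.intervalIntegrable 1 t), bu_intOn]
  rw [intervalIntegral.integral_of_le h, setIntegral_eq_zero_of_forall_eq_zero, add_zero]
  intro x hx
  apply bu_out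
  have := hx.1
  rw [abs_of_pos (by linarith)]; linarith

theorem Ph_nonneg (t : ℝ) : 0 ≤ Ph t := by
  rcases le_total t (-1) with h | h
  · rw [Ph_left h]
  · rw [← Ph_left (le_refl (-1 : ℝ))]
    exact Ph_mono h

theorem Ph_le_one (t : ℝ) : Ph t ≤ 1 := by
  rcases le_total 1 t with h | h
  · rw [Ph_right h]
  · rw [← Ph_right (le_refl (1 : ℝ))]
    exact Ph_mono h

theorem Ps_left {t : ℝ} (h : t ≤ -1) : Ps t = 0 := by
  unfold Ps
  rw [intervalIntegral.integral_symm, intervalIntegral.integral_of_le h]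
  rw [setIntegral_eq_zero_of_forall_eq_zero, neg_zero]
  intro x hx
  exact Ph_left hx.2

theorem Ps_mono : Monotone Ps := by
  apply monotone_of_deriv_nonneg (fun t => (Ps_deriv t).differentiableAt)
  intro t
  rw [(Ps_deriv t).deriv]
  exact Ph_nonneg t

theorem Ps_nonneg (t : ℝ) : 0 ≤ Ps t := by
  rcases le_total t (-1) with h | h
  · rw [Ps_left h]
  · rw [← Ps_left (le_refl (-1 : ℝ))]
    exact Ps_mono h

theorem Ps_right {t : ℝ} (h : 1 ≤ t) : Ps t = Ps 1 + (t - 1) := by
  unfold Ps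
  rw [← intervalIntegral.integral_add_adjacent_intervals (Ph_cont.intervalIntegrable (-1) 1)
    (Ph_cont.intervalIntegrable 1 t)]
  congr 1
  rw [intervalIntegral.integral_congr (g := fun _ => (1 : ℝ))]
  · simp
  · intro x hx
    rw [uIcc_of_le h] at hx
    exact Ph_right hx.1

theorem Ps_le {t : ℝ} (h : -1 ≤ t) : Ps t ≤ t + 1 := by
  have h1 : ∀ s, HasDerivAt (fun s => s + 1 - Ps s) (1 - Ph s) s := fun s =>
    ((hasDerivAt_id s).add_const 1).sub (Ps_deriv s)
  have h2 : Monotone (fun s => s + 1 - Ps s) := by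
    apply monotone_of_deriv_nonneg (fun s => (h1 s).differentiableAt)
    intro s
    rw [(h1 s).deriv]
    linarith [Ph_le_one s]
  have h3 := h2 h
  have h4 : Ps (-1) = 0 := Ps_left le_rfl
  simp only [h4] at h3
  linarith

/-- `Ps` is the positive part up to an error `1` on both sides -/
theorem Ps_sub (t : ℝ) : |Ps t - max t 0| ≤ 1 := by
  have h1 : 0 ≤ Ps 1 := Ps_nonneg 1
  rcases le_total t (-1) with h | h
  · rw [Ps_left h, max_eq_right (by linarith)]; simp
  · rcases le_total t 1 with h' | h'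
    · rw [abs_le]
      rcases le_total t 0 with h0 | h0
      · rw [max_eq_right h0]
        constructor
        · linarith [Ps_nonneg t]
        · linarith [Ps_le h]
      · rw [max_eq_left h0]
        constructor
        · linarith [Ps_nonneg t]
        · linarith [Ps_le h]
    · rw [Ps_right h', max_eq_left (by linarith), abs_le]
      constructor
      · linarith
      · linarith [Ps_le (show (-1 : ℝ) ≤ 1 by norm_num)]

/-- `Ps` is the convolution of the bump with the positive part -/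
theorem Ps_conv (t : ℝ) : Integrable (fun u => bu u * max (t - u) 0) ∧
    Ps t = ∫ u, bu u * max (t - u) 0 := by
  have hc : Continuous (fun u => bu u * max (t - u) 0) := by
    have := bu_cont
    fun_prop
  have hs : HasCompactSupport (fun u => bu u * max (t - u) 0) :=
    bb.hasCompactSupport_normed.mul_right
  refine ⟨hc.integrable_of_hasCompactSupport hs, ?_⟩
  rcases le_total t (-1) with h | h
  · rw [Ps_left h]
    symm
    apply integral_eq_zero_of_ae
    refine Filter.Eventually.of_forall fun u => ?_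
    simp only [Pi.zero_apply]
    rcases le_total t u with h1 | h1
    · rw [max_eq_right (by linarith), mul_zero]
    · rw [bu_out (by rw [abs_of_nonpos (by linarith)]; linarith), zero_mul]
  have e1 : ∫ u, bu u * max (t - u) 0 = ∫ u in (-1 : ℝ)..t, bu u * (t - u) := by
    rw [intervalIntegral.integral_of_le h]
    rw [← setIntegral_eq_integral_of_forall_compl_eq_zero (s := Ioc (-1) t)]
    · apply setIntegral_congr_fun measurableSet_Ioc
      intro u hu
      simp only
      rw [max_eq_left (by linarith [hu.2])]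
    · intro u hu
      rw [mem_Ioc, not_and_or, not_lt, not_le] at hu
      rcases hu with h1 | h1
      · rw [bu_out (by rw [abs_of_nonpos (by linarith)]; linarith), zero_mul]
      · rw [max_eq_right (by linarith), mul_zero]
  rw [e1]
  have hd : ∀ u ∈ uIcc (-1 : ℝ) t, HasDerivAt (fun u => Ph u * (t - u) + Ps u) (bu u * (t - u)) u := by
    intro u _
    have d1 := (Ph_deriv u).mul ((hasDerivAt_id u).const_sub t)
    have d2 := d1.add (Ps_deriv u)
    refine d2.congr_deriv ?_
    simp only [id]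
    ring
  rw [intervalIntegral.integral_eq_sub_of_hasDerivAt hd
    ((bu_cont.mul (continuous_const.sub continuous_id)).intervalIntegrable _ _)]
  rw [Ph_left le_rfl, Ps_left (le_refl (-1 : ℝ))]
  simp

theorem Ps_smooth {n : ℕ} : ContDiff ℝ n Ps := by
  have hp : deriv Ps = Ph := funext fun t => (Ps_deriv t).deriv
  have hh : deriv Ph = bu := funext fun t => (Ph_deriv t).deriv
  have h1 : ∀ k : ℕ, ContDiff ℝ k Ph := by
    intro k
    have h2 : ContDiff ℝ ((k : WithTop ℕ∞) + 1) Ph := by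
      rw [contDiff_succ_iff_deriv]
      refine ⟨fun t => (Ph_deriv t).differentiableAt, by simp, ?_⟩
      rw [hh]
      exact_mod_cast (bu_smooth (n := (k : ℕ∞)))
    exact h2.of_le le_self_add
  have h2 : ContDiff ℝ ((n : WithTop ℕ∞) + 1) Ps := by
    rw [contDiff_succ_iff_deriv]
    refine ⟨fun t => (Ps_deriv t).differentiableAt, by simp, ?_⟩
    rw [hp]
    exact h1 n
  exact h2.of_le le_self_add

theorem iter_one : iteratedDeriv 1 Ps = Ph := by
  rw [iteratedDeriv_one]
  exact funext fun t => (Ps_deriv t).deriv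

theorem iter_two (k : ℕ) : iteratedDeriv (k + 2) Ps = iteratedDeriv k bu := by
  have hp : deriv Ps = Ph := funext fun t => (Ps_deriv t).deriv
  have hh : deriv Ph = bu := funext fun t => (Ph_deriv t).deriv
  rw [iteratedDeriv_succ', hp, iteratedDeriv_succ', hh]

theorem bu_iter_bdd (k : ℕ) : ∃ C, ∀ t, |iteratedDeriv k bu t| ≤ C := by
  have hc : Continuous (iteratedDeriv k bu) :=
    (bu_smooth (n := (k : ℕ∞))).continuous_iteratedDeriv k (by exact_mod_cast le_rfl)
  have hs : HasCompactSupport (iteratedDeriv k bu) := by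
    have h0 : HasCompactSupport bu := bb.hasCompactSupport_normed
    have h1 : ∀ j : ℕ, HasCompactSupport (iteratedDeriv j bu) := by
      intro j
      induction j with
      | zero => rw [iteratedDeriv_zero]; exact h0
      | succ j ih => rw [iteratedDeriv_succ]; exact ih.deriv
    exact h1 k
  obtain ⟨C, hC⟩ := hc.bounded_above_of_compact_support hs
  exact ⟨C, fun t => by simpa [Real.norm_eq_abs] using hC t⟩

/-- all derivatives of order `1 .. n` of `Ps` are bounded -/
theorem Ps_iter_bdd (n : ℕ) : ∃ C, 1 ≤ C ∧ ∀ k, 1 ≤ k → k ≤ n → ∀ t, |iteratedDeriv k Ps t| ≤ C := by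
  induction n with
  | zero => exact ⟨1, le_rfl, fun k h1 h2 => absurd h1 (by omega)⟩
  | succ n ih =>
    obtain ⟨C, hC1, hC⟩ := ih
    rcases Nat.eq_zero_or_pos n with h0 | h0
    · subst h0
      refine ⟨1, le_rfl, fun k h1 h2 t => ?_⟩
      have : k = 1 := by omega
      subst this
      rw [iter_one, abs_of_nonneg (Ph_nonneg t)]
      exact Ph_le_one t
    · obtain ⟨C', hC'⟩ := bu_iter_bdd (n - 1)
      refine ⟨max C C', le_max_of_le_left hC1, fun k h1 h2 t => ?_⟩
      rcases Nat.lt_or_ge k (n + 1) with h3 | h3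
      · exact (hC k h1 (by omega) t).trans (le_max_left _ _)
      · have : k = (n - 1) + 2 := by omega
        subst this
        rw [iter_two]
        exact (hC' t).trans (le_max_right _ _)

/-! ### Three kinks -/

/-- smoothed piecewise linear function with slopes `0`, `a`, `-c`, `0` and kinks `-D`, `ts`, `D` -/
def j3 (D ts a c : ℝ) (t : ℝ) : ℝ := a * Ps (t + D) - (a + c) * Ps (t - ts) + c * Ps (t - D)

/-- the piecewise linear function itself -/
def l3 (D ts a c : ℝ) (t : ℝ) : ℝ :=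
  a * max (t + D) 0 - (a + c) * max (t - ts) 0 + c * max (t - D) 0

/-- derivative of `j3` -/
def d3 (D ts a c : ℝ) (t : ℝ) : ℝ := a * Ph (t + D) - (a + c) * Ph (t - ts) + c * Ph (t - D)

theorem Ps_shift (y t : ℝ) : HasDerivAt (fun t => Ps (t + y)) (Ph (t + y)) t :=
  HasDerivAt.comp_add_const t y (Ps_deriv (t + y))

theorem Ps_shift' (y t : ℝ) : HasDerivAt (fun t => Ps (t - y)) (Ph (t - y)) t :=
  HasDerivAt.comp_sub_const t y (Ps_deriv (t - y))

theorem j3_deriv (D ts a c t : ℝ) : HasDerivAt (j3 D ts a c) (d3 D ts a c t) t := by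
  exact (((Ps_shift D t).const_mul a).sub ((Ps_shift' ts t).const_mul (a + c))).add
    ((Ps_shift' D t).const_mul c)

theorem j3_smooth (D ts a c : ℝ) (n : ℕ) : ContDiff ℝ n (j3 D ts a c) := by
  unfold j3
  have h (y : ℝ) : ContDiff ℝ n (fun t => Ps (t - y)) :=
    Ps_smooth.comp (contDiff_id.sub contDiff_const)
  have h' (y : ℝ) : ContDiff ℝ n (fun t => Ps (t + y)) :=
    Ps_smooth.comp (contDiff_id.add contDiff_const)
  exact ((contDiff_const.mul (h' D)).sub (contDiff_const.mul (h ts))).add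
    (contDiff_const.mul (h D))

theorem j3_iter (D ts a c : ℝ) (k : ℕ) (t : ℝ) : iteratedDeriv k (j3 D ts a c) t =
    a * iteratedDeriv k Ps (t + D) - (a + c) * iteratedDeriv k Ps (t - ts)
      + c * iteratedDeriv k Ps (t - D) := by
  have h (y : ℝ) : ContDiff ℝ k (fun t => Ps (t - y)) :=
    Ps_smooth.comp (contDiff_id.sub contDiff_const)
  have h' (y : ℝ) : ContDiff ℝ k (fun t => Ps (t + y)) :=
    Ps_smooth.comp (contDiff_id.add contDiff_const)
  have e1 : j3 D ts a c = ((fun t => a * Ps (t + D)) - (fun t => (a + c) * Ps (t - ts)))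
      + (fun t => c * Ps (t - D)) := rfl
  have c1 : ContDiff ℝ k (fun t => a * Ps (t + D)) := contDiff_const.mul (h' D)
  have c2 : ContDiff ℝ k (fun t => (a + c) * Ps (t - ts)) := contDiff_const.mul (h ts)
  have c3 : ContDiff ℝ k (fun t => c * Ps (t - D)) := contDiff_const.mul (h D)
  have q1 : ContDiffAt ℝ k ((fun t => a * Ps (t + D)) - (fun t => (a + c) * Ps (t - ts))) t :=
    (c1.sub c2).contDiffAt
  rw [e1, iteratedDeriv_add q1 c3.contDiffAt, iteratedDeriv_sub c1.contDiffAt c2.contDiffAt]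
  rw [iteratedDeriv_const_mul a (h' D).contDiffAt, iteratedDeriv_const_mul (a + c) (h ts).contDiffAt,
    iteratedDeriv_const_mul c (h D).contDiffAt]
  rw [iteratedDeriv_comp_add_const, iteratedDeriv_comp_sub_const, iteratedDeriv_comp_sub_const]

theorem j3_iter_le (n : ℕ) : ∃ C, 1 ≤ C ∧ ∀ D ts a c : ℝ, ∀ k, 1 ≤ k → k ≤ n → ∀ t,
    |iteratedDeriv k (j3 D ts a c) t| ≤ C * (|a| + |c|) := by
  obtain ⟨C, hC1, hC⟩ := Ps_iter_bdd n
  refine ⟨2 * C, by linarith, fun D ts a c k h1 h2 t => ?_⟩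
  rw [j3_iter]
  have b1 := hC k h1 h2 (t + D)
  have b2 := hC k h1 h2 (t - ts)
  have b3 := hC k h1 h2 (t - D)
  have hac : |a + c| ≤ |a| + |c| := abs_add_le a c
  calc |a * iteratedDeriv k Ps (t + D) - (a + c) * iteratedDeriv k Ps (t - ts)
      + c * iteratedDeriv k Ps (t - D)|
      ≤ |a * iteratedDeriv k Ps (t + D)| + |(a + c) * iteratedDeriv k Ps (t - ts)|
        + |c * iteratedDeriv k Ps (t - D)| := by
        refine (abs_add_le _ _).trans ?_
        have := abs_sub (a * iteratedDeriv k Ps (t + D)) ((a + c) * iteratedDeriv k Ps (t - ts))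
        linarith
    _ = |a| * |iteratedDeriv k Ps (t + D)| + |a + c| * |iteratedDeriv k Ps (t - ts)|
        + |c| * |iteratedDeriv k Ps (t - D)| := by simp only [abs_mul]
    _ ≤ |a| * C + (|a| + |c|) * C + |c| * C := by
        gcongr
    _ = 2 * C * (|a| + |c|) := by ring

theorem j3_sub (D ts a c t : ℝ) : |j3 D ts a c t - l3 D ts a c t| ≤ 2 * (|a| + |c|) := by
  have b1 := Ps_sub (t + D)
  have b2 := Ps_sub (t - ts)
  have b3 := Ps_sub (t - D)
  have hac : |a + c| ≤ |a| + |c| := abs_add_le a c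
  have e : j3 D ts a c t - l3 D ts a c t = a * (Ps (t + D) - max (t + D) 0)
      - (a + c) * (Ps (t - ts) - max (t - ts) 0) + c * (Ps (t - D) - max (t - D) 0) := by
    unfold j3 l3; ring
  rw [e]
  calc _ ≤ |a * (Ps (t + D) - max (t + D) 0)| + |(a + c) * (Ps (t - ts) - max (t - ts) 0)|
        + |c * (Ps (t - D) - max (t - D) 0)| := by
        refine (abs_add_le _ _).trans ?_
        have := abs_sub (a * (Ps (t + D) - max (t + D) 0))
          ((a + c) * (Ps (t - ts) - max (t - ts) 0))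
        linarith
    _ = |a| * |Ps (t + D) - max (t + D) 0| + |a + c| * |Ps (t - ts) - max (t - ts) 0|
        + |c| * |Ps (t - D) - max (t - D) 0| := by simp only [abs_mul]
    _ ≤ |a| * 1 + (|a| + |c|) * 1 + |c| * 1 := by gcongr
    _ = _ := by ring

/-- the smooth function is the convolution of the piecewise linear one with the bump -/
theorem j3_conv (D ts a c t : ℝ) : Integrable (fun u => bu u * l3 D ts a c (t - u)) ∧
    j3 D ts a c t = ∫ u, bu u * l3 D ts a c (t - u) := by
  obtain ⟨i1, e1⟩ := Ps_conv (t + D)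
  obtain ⟨i2, e2⟩ := Ps_conv (t - ts)
  obtain ⟨i3, e3⟩ := Ps_conv (t - D)
  have e : (fun u => bu u * l3 D ts a c (t - u)) = fun u =>
      a * (bu u * max (t + D - u) 0) - (a + c) * (bu u * max (t - ts - u) 0)
        + c * (bu u * max (t - D - u) 0) := by
    funext u
    unfold l3
    rw [show t - u + D = t + D - u by ring, show t - u - ts = t - ts - u by ring,
      show t - u - D = t - D - u by ring]
    ring
  have j1 := i1.const_mul a
  have j2 := i2.const_mul (a + c)
  have j3' := i3.const_mul c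
  rw [e]
  refine ⟨(j1.sub j2).add j3', ?_⟩
  have j12 : Integrable (fun u => a * (bu u * max (t + D - u) 0)
      - (a + c) * (bu u * max (t - ts - u) 0)) := j1.sub j2
  have e4 : ∫ u, (a * (bu u * max (t + D - u) 0) - (a + c) * (bu u * max (t - ts - u) 0)
      + c * (bu u * max (t - D - u) 0)) = a * (∫ u, bu u * max (t + D - u) 0)
      - (a + c) * (∫ u, bu u * max (t - ts - u) 0) + c * ∫ u, bu u * max (t - D - u) 0 := by
    rw [integral_add j12 j3', integral_sub j1 j2, integral_const_mul, integral_const_mul,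
      integral_const_mul]
  rw [e4, ← e1, ← e2, ← e3]
  rfl

/-- bounds of the piecewise linear function are bounds of the smooth one -/
theorem j3_mem {D ts a c lo hi : ℝ} (h : ∀ t, lo ≤ l3 D ts a c t ∧ l3 D ts a c t ≤ hi) (t : ℝ) :
    lo ≤ j3 D ts a c t ∧ j3 D ts a c t ≤ hi := by
  obtain ⟨i, e⟩ := j3_conv D ts a c t
  have ib : Integrable bu := bb.integrable_normed
  rw [e]
  constructor
  · calc lo = ∫ u, bu u * lo := by rw [integral_mul_const, bu_int, one_mul]
      _ ≤ _ := integral_mono (ib.mul_const lo) i fun u =>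
          mul_le_mul_of_nonneg_left (h _).1 (bu_nonneg u)
  · calc ∫ u, bu u * l3 D ts a c (t - u) ≤ ∫ u, bu u * hi :=
          integral_mono i (ib.mul_const hi) fun u =>
          mul_le_mul_of_nonneg_left (h _).2 (bu_nonneg u)
      _ = hi := by rw [integral_mul_const, bu_int, one_mul]

theorem d3_abs (D ts a c t : ℝ) (h1 : -D ≤ ts) (h2 : ts ≤ D) : |d3 D ts a c t| ≤ |a| + |c| := by
  have m1 := Ph_mono (show t - ts ≤ t + D by linarith)
  have m2 := Ph_mono (show t - D ≤ t - ts by linarith)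
  have e : d3 D ts a c t = a * (Ph (t + D) - Ph (t - ts)) - c * (Ph (t - ts) - Ph (t - D)) := by
    unfold d3; ring
  have x1 : |Ph (t + D) - Ph (t - ts)| ≤ 1 := by
    rw [abs_of_nonneg (by linarith)]
    linarith [Ph_le_one (t + D), Ph_nonneg (t - ts)]
  have x2 : |Ph (t - ts) - Ph (t - D)| ≤ 1 := by
    rw [abs_of_nonneg (by linarith)]
    linarith [Ph_le_one (t - ts), Ph_nonneg (t - D)]
  rw [e]
  calc _ ≤ |a * (Ph (t + D) - Ph (t - ts))| + |c * (Ph (t - ts) - Ph (t - D))| := abs_sub _ _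
    _ = |a| * |Ph (t + D) - Ph (t - ts)| + |c| * |Ph (t - ts) - Ph (t - D)| := by
        simp only [abs_mul]
    _ ≤ |a| * 1 + |c| * 1 := by gcongr
    _ = _ := by ring

theorem d3_cont (D ts a c : ℝ) : Continuous (d3 D ts a c) := by
  unfold d3
  have := Ph_cont
  fun_prop

/-- pointwise Jensen: the square of the smoothed slope -/
theorem d3_sq (D ts a c t : ℝ) (h1 : -D ≤ ts) (h2 : ts ≤ D) : d3 D ts a c t ^ 2 ≤
    a ^ 2 * (Ph (t + D) - Ph (t - ts)) + c ^ 2 * (Ph (t - ts) - Ph (t - D)) := by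
  have m1 := Ph_mono (show t - ts ≤ t + D by linarith)
  have m2 := Ph_mono (show t - D ≤ t - ts by linarith)
  have m3 := Ph_le_one (t + D)
  have m4 := Ph_nonneg (t - D)
  set x := Ph (t + D) - Ph (t - ts) with hx
  set y := Ph (t - ts) - Ph (t - D) with hy
  have e : d3 D ts a c t = a * x - c * y := by rw [hx, hy]; unfold d3; ring
  have x0 : 0 ≤ x := by rw [hx]; linarith
  have y0 : 0 ≤ y := by rw [hy]; linarith
  have xy : x + y ≤ 1 := by rw [hx, hy]; linarith
  rw [e]
  have k1 : (a * x - c * y) ^ 2 = (a ^ 2 * x + c ^ 2 * y) * (x + y) - x * y * (a + c) ^ 2 := by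
    ring
  have k2 : 0 ≤ x * y * (a + c) ^ 2 := by positivity
  have k3 : 0 ≤ a ^ 2 * x + c ^ 2 * y := by positivity
  nlinarith

theorem j3_left {D ts a c t : ℝ} (h1 : -D ≤ ts) (h2 : ts ≤ D) (h : t ≤ -D - 1) :
    j3 D ts a c t = 0 := by
  unfold j3
  rw [Ps_left (by linarith), Ps_left (by linarith), Ps_left (by linarith)]
  ring

theorem j3_right {D ts a c t : ℝ} (h1 : -D ≤ ts) (h2 : ts ≤ D) (h : D + 1 ≤ t) :
    j3 D ts a c t = a * (D + ts) - c * (D - ts) := by
  unfold j3
  rw [Ps_right (show 1 ≤ t + D by linarith), Ps_right (show 1 ≤ t - ts by linarith),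
    Ps_right (show 1 ≤ t - D by linarith)]
  ring

theorem d3_left {D ts a c t : ℝ} (h1 : -D ≤ ts) (h2 : ts ≤ D) (h : t ≤ -D - 1) :
    d3 D ts a c t = 0 := by
  unfold d3
  rw [Ph_left (by linarith), Ph_left (by linarith), Ph_left (by linarith)]
  ring

theorem d3_right {D ts a c t : ℝ} (h1 : -D ≤ ts) (h2 : ts ≤ D) (h : D + 1 ≤ t) :
    d3 D ts a c t = 0 := by
  unfold d3
  rw [Ph_right (show 1 ≤ t + D by linarith), Ph_right (show 1 ≤ t - ts by linarith),
    Ph_right (show 1 ≤ t - D by linarith)]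
  ring

theorem d3_support {D ts a c : ℝ} (h1 : -D ≤ ts) (h2 : ts ≤ D) :
    HasCompactSupport (d3 D ts a c) := by
  apply HasCompactSupport.of_support_subset_isCompact (isCompact_Icc (a := -D - 1) (b := D + 1))
  intro t ht
  rw [Function.mem_support] at ht
  constructor
  · by_contra h
    exact ht (d3_left h1 h2 (by linarith))
  · by_contra h
    exact ht (d3_right h1 h2 (by linarith))

theorem Ph_int {y z R : ℝ} (hR : 1 ≤ R + y) (hR' : 1 ≤ R + z) (hL : -R + y ≤ -1)
    (hL' : -R + z ≤ -1) : ∫ t in (-R)..R, (Ph (t + y) - Ph (t + z)) = y - z := by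
  have hc : Continuous (fun t => Ph (t + y) - Ph (t + z)) := by
    have := Ph_cont
    fun_prop
  rw [intervalIntegral.integral_eq_sub_of_hasDerivAt
    (fun t _ => (Ps_shift y t).sub (Ps_shift z t)) (hc.intervalIntegrable _ _)]
  simp only [Pi.sub_apply]
  rw [Ps_right hR, Ps_right hR', Ps_left hL, Ps_left hL']
  ring

/-- the energy of the smoothed function is at most that of the piecewise linear one -/
theorem d3_energy {D ts a c : ℝ} (h1 : -D ≤ ts) (h2 : ts ≤ D) :
    ∫ t, d3 D ts a c t ^ 2 ≤ a ^ 2 * (D + ts) + c ^ 2 * (D - ts) := by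
  have hD : 0 ≤ D := by linarith
  set R := D + 1 with hR
  have e1 : ∫ t, d3 D ts a c t ^ 2 = ∫ t in (-R)..R, d3 D ts a c t ^ 2 := by
    rw [intervalIntegral.integral_of_le (by linarith)]
    symm
    apply setIntegral_eq_integral_of_forall_compl_eq_zero
    intro t ht
    rw [mem_Ioc, not_and_or, not_lt, not_le] at ht
    rcases ht with h | h
    · rw [d3_left h1 h2 (by linarith)]; norm_num
    · rw [d3_right h1 h2 (by linarith)]; norm_num
  rw [e1]
  have cP := Ph_cont
  have cd := d3_cont D ts a c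
  have c1 : Continuous (fun t => d3 D ts a c t ^ 2) := cd.pow 2
  have c2 : Continuous (fun t => a ^ 2 * (Ph (t + D) - Ph (t + -ts))) := by fun_prop
  have c3 : Continuous (fun t => c ^ 2 * (Ph (t + -ts) - Ph (t + -D))) := by fun_prop
  calc ∫ t in (-R)..R, d3 D ts a c t ^ 2
      ≤ ∫ t in (-R)..R, (a ^ 2 * (Ph (t + D) - Ph (t + -ts))
          + c ^ 2 * (Ph (t + -ts) - Ph (t + -D))) := by
        apply intervalIntegral.integral_mono_on (by linarith) (c1.intervalIntegrable _ _)
          ((c2.add c3).intervalIntegrable _ _)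
        intro t _
        have := d3_sq D ts a c t h1 h2
        simpa [sub_eq_add_neg] using this
    _ = a ^ 2 * (D + ts) + c ^ 2 * (D - ts) := by
        rw [intervalIntegral.integral_add (c2.intervalIntegrable _ _) (c3.intervalIntegrable _ _),
          intervalIntegral.integral_const_mul, intervalIntegral.integral_const_mul,
          Ph_int (by linarith) (by linarith) (by linarith) (by linarith),
          Ph_int (by linarith) (by linarith) (by linarith) (by linarith)]
        ring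

/-! ### Smearing by a probability density with a first moment -/

theorem smear {f kap : ℝ → ℝ} {K M : ℝ} (hf : ∀ x y, |f x - f y| ≤ K * |x - y|)
    (hi : Integrable kap) (h1 : ∫ u, kap u = 1)
    (hm : Integrable (fun u => |u| * |kap u|)) (hM : ∫ u, |u| * |kap u| ≤ M) (hK : 0 ≤ K)
    (t : ℝ) :
    Integrable (fun u => kap u * f (t - u)) ∧ |(∫ u, kap u * f (t - u)) - f t| ≤ K * M := by
  have hfc : Continuous f := by
    have : LipschitzWith (Real.toNNReal K) f := LipschitzWith.of_dist_le_mul fun x y => by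
      rw [Real.dist_eq, Real.dist_eq, Real.coe_toNNReal K hK]
      exact hf x y
    exact this.continuous
  have b : ∀ u, |kap u * f (t - u) - kap u * f t| ≤ K * (|u| * |kap u|) := by
    intro u
    have h2 := hf (t - u) t
    rw [show t - u - t = -u by ring, abs_neg] at h2
    rw [← mul_sub, abs_mul]
    calc |kap u| * |f (t - u) - f t| ≤ |kap u| * (K * |u|) :=
          mul_le_mul_of_nonneg_left h2 (abs_nonneg _)
      _ = _ := by ring
  have i1 : Integrable (fun u => kap u * f (t - u) - kap u * f t) := by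
    apply (hm.const_mul K).mono'
    · exact (hi.aestronglyMeasurable.mul (hfc.comp (continuous_const.sub
        continuous_id)).aestronglyMeasurable).sub (hi.aestronglyMeasurable.mul_const _)
    · exact Filter.Eventually.of_forall fun u => by rw [Real.norm_eq_abs]; exact b u
  have i2 : Integrable (fun u => kap u * f t) := hi.mul_const _
  have i3 : Integrable (fun u => kap u * f (t - u)) := by
    have := i1.add i2
    refine this.congr (Filter.Eventually.of_forall fun u => ?_)
    simp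
  refine ⟨i3, ?_⟩
  have e : (∫ u, kap u * f (t - u)) - f t = ∫ u, (kap u * f (t - u) - kap u * f t) := by
    rw [integral_sub i3 i2, integral_mul_const, h1, one_mul]
  rw [e]
  calc |∫ u, (kap u * f (t - u) - kap u * f t)| ≤ ∫ u, |kap u * f (t - u) - kap u * f t| :=
        abs_integral_le_integral_abs
    _ ≤ ∫ u, K * (|u| * |kap u|) := integral_mono i1.abs (hm.const_mul K) b
    _ = K * ∫ u, |u| * |kap u| := integral_const_mul _ _
    _ ≤ K * M := mul_le_mul_of_nonneg_left hM hK

theorem j3_lip {D ts a c : ℝ} (h1 : -D ≤ ts) (h2 : ts ≤ D) (x y : ℝ) :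
    |j3 D ts a c x - j3 D ts a c y| ≤ (|a| + |c|) * |x - y| := by
  have := Convex.norm_image_sub_le_of_norm_hasDerivWithin_le (f := j3 D ts a c)
    (f' := d3 D ts a c) (s := univ) (C := |a| + |c|) (x := y) (y := x)
    (fun t _ => (j3_deriv D ts a c t).hasDerivWithinAt)
    (fun t _ => by rw [Real.norm_eq_abs]; exact d3_abs D ts a c t h1 h2)
    convex_univ (mem_univ y) (mem_univ x)
  simpa [Real.norm_eq_abs] using this

/-- smeared value of the smooth function against the piecewise linear one -/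
theorem j3_smear {D ts a c : ℝ} {kap : ℝ → ℝ} {M : ℝ} (h1 : -D ≤ ts) (h2 : ts ≤ D)
    (hi : Integrable kap) (hk1 : ∫ u, kap u = 1)
    (hm : Integrable (fun u => |u| * |kap u|)) (hM : ∫ u, |u| * |kap u| ≤ M) (t : ℝ) :
    Integrable (fun u => kap u * j3 D ts a c (t - u)) ∧
    |(∫ u, kap u * j3 D ts a c (t - u)) - l3 D ts a c t| ≤ (|a| + |c|) * (M + 2) := by
  obtain ⟨i1, b1⟩ := smear (f := j3 D ts a c) (K := |a| + |c|) (j3_lip h1 h2) hi hk1 hm hM
    (by positivity) t
  refine ⟨i1, ?_⟩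
  have b2 := j3_sub D ts a c t
  have e : (∫ u, kap u * j3 D ts a c (t - u)) - l3 D ts a c t =
      ((∫ u, kap u * j3 D ts a c (t - u)) - j3 D ts a c t)
        + (j3 D ts a c t - l3 D ts a c t) := by ring
  rw [e]
  refine (abs_add_le _ _).trans ?_
  linarith

/-! ### The upper line -/

/-- relative position of the apex, `0` at the right end -/
def pU (D ts : ℝ) : ℝ := (D - ts) / (2 * D)

/-- left slope -/
def aU (D eta ts : ℝ) : ℝ := eta * (1 + pU D ts) / (D + ts)

/-- the current of the upper line: `0` left of `-D`, `eta (1 + p)` at `ts`, `eta` right of `D` -/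
def jU (D eta ts : ℝ) : ℝ → ℝ := j3 D ts (aU D eta ts) (eta / (2 * D))

/-- its piecewise linear version -/
def lU (D eta ts : ℝ) : ℝ → ℝ := l3 D ts (aU D eta ts) (eta / (2 * D))

section upper

variable {D eta ts : ℝ}

theorem pU_nonneg (hD : 1 ≤ D) (h2 : ts ≤ D) : 0 ≤ pU D ts :=
  div_nonneg (by linarith) (by linarith)

theorem pU_le (hD : 1 ≤ D) (h1 : -(D / 4) ≤ ts) : pU D ts ≤ 5 / 8 := by
  unfold pU
  rw [div_le_iff₀ (by linarith)]
  linarith

theorem one_sub_pU (hD : 1 ≤ D) : 1 - pU D ts = (D + ts) / (2 * D) := by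
  unfold pU
  field_simp
  ring

theorem aU_mul (hD : 1 ≤ D) (h1 : -(D / 4) ≤ ts) : aU D eta ts * (D + ts) = eta * (1 + pU D ts) := by
  unfold aU
  have : D + ts ≠ 0 := by linarith
  field_simp

theorem cU_mul (hD : 1 ≤ D) : eta / (2 * D) * (D - ts) = eta * pU D ts := by
  unfold pU
  field_simp

theorem aU_abs (hD : 1 ≤ D) (h1 : -(D / 4) ≤ ts) (h2 : ts ≤ D) :
    |aU D eta ts| + |eta / (2 * D)| ≤ 8 / 3 * (|eta| / D) := by
  have p0 := pU_nonneg hD h2
  have p1 := pU_le hD h1
  have e1 : |aU D eta ts| = |eta| * (1 + pU D ts) / (D + ts) := by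
    unfold aU
    rw [abs_div, abs_mul, abs_of_nonneg (show 0 ≤ 1 + pU D ts by linarith),
      abs_of_nonneg (show 0 ≤ D + ts by linarith)]
  have e2 : |eta / (2 * D)| = |eta| / (2 * D) := by
    rw [abs_div, abs_of_nonneg (show 0 ≤ 2 * D by linarith)]
  have b1 : |eta| * (1 + pU D ts) / (D + ts) ≤ |eta| * (13 / 8) / (3 * D / 4) := by
    have := abs_nonneg eta
    gcongr
    · linarith
    · linarith
  have e3 : |eta| * (13 / 8) / (3 * D / 4) = 13 / 6 * (|eta| / D) := by field_simp; ring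
  have e4 : |eta| / (2 * D) = 1 / 2 * (|eta| / D) := by field_simp
  rw [e1, e2]
  linarith [b1, e3.le, e4.le]

theorem jU_smooth (n : ℕ) : ContDiff ℝ n (jU D eta ts) := j3_smooth _ _ _ _ n

theorem jU_left (h1 : -D ≤ ts) (h2 : ts ≤ D) {t : ℝ} (h : t ≤ -D - 1) : jU D eta ts t = 0 :=
  j3_left h1 h2 h

theorem jU_right (hD : 1 ≤ D) (h1 : -(D / 4) ≤ ts) (h2 : ts ≤ D) {t : ℝ} (h : D + 1 ≤ t) :
    jU D eta ts t = eta := by
  unfold jU
  rw [j3_right (by linarith) h2 h, aU_mul hD h1, cU_mul hD]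
  ring

/-- derivatives of order `1 .. 4` (any fixed order) are `O(|eta| / D)`, uniformly -/
theorem jU_iter (n : ℕ) : ∃ C, 1 ≤ C ∧ ∀ D eta ts : ℝ, 1 ≤ D → -(D / 4) ≤ ts → ts ≤ D →
    ∀ k, 1 ≤ k → k ≤ n → ∀ t, |iteratedDeriv k (jU D eta ts) t| ≤ C * (|eta| / D) := by
  obtain ⟨C, hC1, hC⟩ := j3_iter_le n
  refine ⟨C * 3, by linarith, fun D eta ts hD h1 h2 k hk1 hk2 t => ?_⟩
  refine (hC D ts (aU D eta ts) (eta / (2 * D)) k hk1 hk2 t).trans ?_
  have := aU_abs (eta := eta) hD h1 h2
  have h0 : 0 ≤ |eta| / D := div_nonneg (abs_nonneg _) (by linarith)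
  nlinarith

theorem lU_of_le {t : ℝ} (h1 : -D ≤ t) (h : t ≤ ts) (h2 : ts ≤ D) :
    lU D eta ts t = aU D eta ts * (t + D) := by
  unfold lU l3
  rw [max_eq_left (by linarith), max_eq_right (by linarith), max_eq_right (by linarith)]
  ring

theorem lU_at (hD : 1 ≤ D) (h1 : -(D / 4) ≤ ts) (h2 : ts ≤ D) :
    lU D eta ts ts = eta * (1 + pU D ts) := by
  rw [lU_of_le (by linarith) le_rfl h2, add_comm ts D, aU_mul hD h1]

/-- in units of `eta`: the piecewise linear function is between `0` and `1 + p`, and at least `1`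
right of the apex -/
theorem lU_eta (hD : 1 ≤ D) (h1 : -(D / 4) ≤ ts) (h2 : ts ≤ D) (t : ℝ) :
    ∃ x, lU D eta ts t = eta * x ∧ 0 ≤ x ∧ x ≤ 1 + pU D ts ∧ (ts ≤ t → 1 ≤ x) := by
  have p0 := pU_nonneg hD h2
  have hp : 0 < D + ts := by linarith
  rcases le_total t (-D) with h | h
  · refine ⟨0, ?_, le_rfl, by linarith, fun h' => by linarith⟩
    unfold lU l3
    rw [max_eq_right (by linarith), max_eq_right (by linarith), max_eq_right (by linarith)]
    ring
  rcases le_total t ts with h' | h'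
  · refine ⟨(1 + pU D ts) * ((t + D) / (D + ts)), ?_, ?_, ?_, ?_⟩
    · rw [lU_of_le h h' h2]
      unfold aU
      field_simp
    · have : 0 ≤ (t + D) / (D + ts) := div_nonneg (by linarith) hp.le
      positivity
    · have : (t + D) / (D + ts) ≤ 1 := by rw [div_le_one hp]; linarith
      nlinarith
    · intro h3
      have : t = ts := le_antisymm h' h3
      subst this
      rw [add_comm t D, div_self hp.ne']
      linarith
  rcases le_total t D with h'' | h''
  · refine ⟨1 + pU D ts - (t - ts) / (2 * D), ?_, ?_, ?_, ?_⟩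
    · unfold lU l3
      rw [max_eq_left (by linarith), max_eq_left (by linarith), max_eq_right (by linarith)]
      have e := aU_mul (eta := eta) hD h1
      have : aU D eta ts * (t + D) - (aU D eta ts + eta / (2 * D)) * (t - ts)
          + eta / (2 * D) * 0 = aU D eta ts * (D + ts) - eta / (2 * D) * (t - ts) := by ring
      rw [this, e]
      field_simp
    · have : (t - ts) / (2 * D) ≤ pU D ts := by
        unfold pU
        gcongr
      linarith
    · have : 0 ≤ (t - ts) / (2 * D) := div_nonneg (by linarith) (by linarith)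
      linarith
    · intro _
      have : (t - ts) / (2 * D) ≤ pU D ts := by
        unfold pU
        gcongr
      linarith
  · refine ⟨1, ?_, by norm_num, by linarith, fun _ => le_rfl⟩
    unfold lU l3
    rw [max_eq_left (by linarith), max_eq_left (by linarith), max_eq_left (by linarith)]
    have e := aU_mul (eta := eta) hD h1
    have e2 := cU_mul (eta := eta) (ts := ts) hD
    have : aU D eta ts * (t + D) - (aU D eta ts + eta / (2 * D)) * (t - ts)
        + eta / (2 * D) * (t - D) = aU D eta ts * (D + ts) - eta / (2 * D) * (D - ts) := by ring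
    rw [this, e, e2]
    ring

/-- the smooth upper line is between `0` and `eta (1 + p)` (for `eta >= 0`) -/
theorem jU_mem (hD : 1 ≤ D) (h1 : -(D / 4) ≤ ts) (h2 : ts ≤ D) (h0 : 0 ≤ eta) (t : ℝ) :
    0 ≤ jU D eta ts t ∧ jU D eta ts t ≤ eta * (1 + pU D ts) := by
  refine j3_mem (fun t => ?_) t
  obtain ⟨x, hx, x0, x1, -⟩ := lU_eta (eta := eta) hD h1 h2 t
  change 0 ≤ lU D eta ts t ∧ lU D eta ts t ≤ eta * (1 + pU D ts)
  rw [hx]
  exact ⟨mul_nonneg h0 x0, mul_le_mul_of_nonneg_left x1 h0⟩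

theorem jU_le_two (hD : 1 ≤ D) (h1 : -(D / 4) ≤ ts) (h2 : ts ≤ D) (h0 : 0 ≤ eta) (t : ℝ) :
    jU D eta ts t ≤ 2 * eta := by
  have := (jU_mem hD h1 h2 h0 t).2
  have p1 := pU_le hD h1
  nlinarith

/-- the energy of the upper line -/
theorem jU_energy (hD : 1 ≤ D) (h1 : -(D / 4) ≤ ts) (h2 : ts ≤ D) :
    ∫ t, deriv (jU D eta ts) t ^ 2 ≤
      eta ^ 2 * (1 + pU D ts) ^ 2 / (2 * D * (1 - pU D ts)) + eta ^ 2 * pU D ts / (2 * D) := by
  have e0 : deriv (jU D eta ts) = d3 D ts (aU D eta ts) (eta / (2 * D)) :=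
    funext fun t => (j3_deriv _ _ _ _ t).deriv
  rw [e0]
  refine (d3_energy (by linarith) h2).trans (le_of_eq ?_)
  rw [one_sub_pU hD]
  have h3 : D + ts ≠ 0 := by linarith
  have e1 : aU D eta ts ^ 2 * (D + ts) = eta ^ 2 * (1 + pU D ts) ^ 2 / (D + ts) := by
    unfold aU
    field_simp
  have e2 : (eta / (2 * D)) ^ 2 * (D - ts) = eta ^ 2 * pU D ts / (2 * D) := by
    unfold pU
    field_simp
  have e3 : 2 * D * ((D + ts) / (2 * D)) = D + ts := by field_simp
  rw [e1, e2, e3]

/-- the energy of the upper line, short form -/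
theorem jU_energy' (hD : 1 ≤ D) (h1 : -(D / 4) ≤ ts) (h2 : ts ≤ D) :
    ∫ t, deriv (jU D eta ts) t ^ 2 ≤
      eta ^ 2 / (2 * D) * (1 + 4 * pU D ts / (1 - pU D ts)) := by
  refine (jU_energy hD h1 h2).trans (le_of_eq ?_)
  have p1 := pU_le hD h1
  have h3 : 1 - pU D ts ≠ 0 := by linarith
  have h4 : D ≠ 0 := by linarith
  field_simp
  ring

/-- the cost in units of `X = D / kap0` -/
theorem costU {X : ℝ} (hX : 0 < X) (hD : 1 ≤ D) {p : ℝ} (hp : p < 1) :
    D / X * (eta ^ 2 * (1 + p) ^ 2 / (2 * D * (1 - p)) + eta ^ 2 * p / (2 * D)) =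
      eta ^ 2 / (2 * X) + 2 * eta ^ 2 * p / ((1 - p) * X) := by
  have h1 : 1 - p ≠ 0 := by linarith
  have h2 : D ≠ 0 := by linarith
  field_simp
  ring

/-- the object at the apex pays for the apex -/
theorem netU {X p nu : ℝ} (hX : 0 < X) (h0 : 0 ≤ eta) (h1 : eta ≤ Real.pi * (1 - p) * X)
    (p0 : 0 ≤ p) (p1 : p < 1) (hnu : 1 ≤ nu) :
    2 * eta ^ 2 * p / ((1 - p) * X) ≤ 2 * Real.pi * nu * eta * p := by
  have hp : 0 < 1 - p := by linarith
  rw [div_le_iff₀ (by positivity)]
  have h4 : 2 * eta * p * eta ≤ 2 * eta * p * (Real.pi * (1 - p) * X) :=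
    mul_le_mul_of_nonneg_left h1 (by positivity)
  have h5 : 0 ≤ 2 * Real.pi * eta * p * ((1 - p) * X) := by
    have := Real.pi_pos
    positivity
  nlinarith

variable {kap : ℝ → ℝ} {M : ℝ}

/-- smeared upper line against the piecewise linear one -/
theorem jU_smear (hD : 1 ≤ D) (h1 : -(D / 4) ≤ ts) (h2 : ts ≤ D)
    (hi : Integrable kap) (hk1 : ∫ u, kap u = 1)
    (hm : Integrable (fun u => |u| * |kap u|)) (hM : ∫ u, |u| * |kap u| ≤ M) (hM0 : 0 ≤ M) (t : ℝ) :
    |(∫ u, kap u * jU D eta ts (t - u)) - lU D eta ts t| ≤ 8 / 3 * (|eta| / D) * (M + 2) := by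
  refine (j3_smear (by linarith) h2 hi hk1 hm hM t).2.trans ?_
  exact mul_le_mul_of_nonneg_right (aU_abs hD h1 h2) (by linarith)

/-- `Jt~ >= - C` everywhere, `Jt~ >= eta - C` right of the apex, `Jt~ >= eta (1 + p) - C` at it -/
theorem jU_smear_ge (hD : 1 ≤ D) (h1 : -(D / 4) ≤ ts) (h2 : ts ≤ D) (h0 : 0 ≤ eta)
    (hi : Integrable kap) (hk1 : ∫ u, kap u = 1)
    (hm : Integrable (fun u => |u| * |kap u|)) (hM : ∫ u, |u| * |kap u| ≤ M) (hM0 : 0 ≤ M) (t : ℝ) :
    -(8 / 3 * (eta / D) * (M + 2)) ≤ (∫ u, kap u * jU D eta ts (t - u)) ∧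
    (ts ≤ t → eta - 8 / 3 * (eta / D) * (M + 2) ≤ ∫ u, kap u * jU D eta ts (t - u)) ∧
    (t = ts → eta * (1 + pU D ts) - 8 / 3 * (eta / D) * (M + 2) ≤
      ∫ u, kap u * jU D eta ts (t - u)) := by
  have b := jU_smear (eta := eta) hD h1 h2 hi hk1 hm hM hM0 t
  rw [abs_of_nonneg h0, abs_le] at b
  obtain ⟨x, hx, x0, -, x2⟩ := lU_eta (eta := eta) hD h1 h2 t
  refine ⟨?_, fun ht => ?_, fun ht => ?_⟩
  · have : 0 ≤ eta * x := mul_nonneg h0 x0
    linarith
  · have : eta * 1 ≤ eta * x := mul_le_mul_of_nonneg_left (x2 ht) h0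
    linarith
  · subst ht
    have := lU_at (eta := eta) hD h1 h2
    linarith

end upper

/-! ### The mirror image (lower line) -/

/-- the current of the lower line (`eta <= 0`, apex at `ts <= D / 4`): `0` left of `-D`,
`|eta| (1 - p)` with `p = (D - ts) / (2 D)` at `ts`, `eta` right of `D` -/
def jD (D eta ts : ℝ) (t : ℝ) : ℝ := jU D (-eta) (-ts) (-t) + eta

/-- its piecewise linear version -/
def lD (D eta ts : ℝ) (t : ℝ) : ℝ := lU D (-eta) (-ts) (-t) + eta

section lower

variable {D eta ts : ℝ}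

theorem jD_smooth (n : ℕ) : ContDiff ℝ n (jD D eta ts) := by
  unfold jD
  exact ((jU_smooth n).comp contDiff_neg).add contDiff_const

theorem jD_left (hD : 1 ≤ D) (h1 : -D ≤ ts) (h2 : ts ≤ D / 4) {t : ℝ} (h : t ≤ -D - 1) :
    jD D eta ts t = 0 := by
  unfold jD
  rw [jU_right hD (by linarith) (by linarith) (by linarith)]
  ring

theorem jD_right (hD : 1 ≤ D) (h1 : -D ≤ ts) (h2 : ts ≤ D / 4) {t : ℝ} (h : D + 1 ≤ t) :
    jD D eta ts t = eta := by
  unfold jD
  rw [jU_left (by linarith) (by linarith) (by linarith)]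
  ring

theorem jD_deriv (t : ℝ) : deriv (jD D eta ts) t = -deriv (jU D (-eta) (-ts)) (-t) := by
  unfold jD
  rw [deriv_add_const, deriv_comp_neg]

theorem jD_iter (n : ℕ) : ∃ C, 1 ≤ C ∧ ∀ D eta ts : ℝ, 1 ≤ D → -D ≤ ts → ts ≤ D / 4 →
    ∀ k, 1 ≤ k → k ≤ n → ∀ t, |iteratedDeriv k (jD D eta ts) t| ≤ C * (|eta| / D) := by
  obtain ⟨C, hC1, hC⟩ := jU_iter n
  refine ⟨C, hC1, fun D eta ts hD h1 h2 k hk1 hk2 t => ?_⟩
  have h3 := hC D (-eta) (-ts) hD (by linarith) (by linarith) k hk1 hk2 (-t)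
  rw [abs_neg] at h3
  have e1 : jD D eta ts = (fun t => jU D (-eta) (-ts) (-t)) + fun _ => eta := rfl
  have c1 : ContDiff ℝ k (fun t => jU D (-eta) (-ts) (-t)) := (jU_smooth k).comp contDiff_neg
  have c2 : ContDiff ℝ k (fun _ : ℝ => eta) := contDiff_const
  have e2 : iteratedDeriv k (fun _ : ℝ => eta) t = 0 := by
    have : k ≠ 0 := by omega
    rw [iteratedDeriv_const]
    simp [this]
  rw [e1, iteratedDeriv_add c1.contDiffAt c2.contDiffAt, iteratedDeriv_comp_neg, e2, add_zero,
    smul_eq_mul, abs_mul, abs_pow, abs_neg, abs_one, one_pow, one_mul]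
  exact h3

/-- the energy of the lower line -/
theorem jD_energy (hD : 1 ≤ D) (h1 : -D ≤ ts) (h2 : ts ≤ D / 4) :
    ∫ t, deriv (jD D eta ts) t ^ 2 ≤
      eta ^ 2 / (2 * D) * (1 + 4 * pU D (-ts) / (1 - pU D (-ts))) := by
  have h3 := jU_energy' (eta := -eta) hD (ts := -ts) (by linarith) (by linarith)
  rw [neg_sq] at h3
  refine le_trans (le_of_eq ?_) h3
  rw [← integral_neg_eq_self (fun t => deriv (jU D (-eta) (-ts)) t ^ 2)]
  congr 1
  funext t
  rw [jD_deriv, neg_sq]

theorem jD_mem (hD : 1 ≤ D) (h1 : -D ≤ ts) (h2 : ts ≤ D / 4) (h0 : eta ≤ 0) (t : ℝ) :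
    eta ≤ jD D eta ts t ∧ jD D eta ts t ≤ 2 * |eta| := by
  have h3 := jU_mem (eta := -eta) hD (ts := -ts) (by linarith) (by linarith) (by linarith) (-t)
  have h4 := jU_le_two (eta := -eta) hD (ts := -ts) (by linarith) (by linarith) (by linarith) (-t)
  rw [abs_of_nonpos h0]
  unfold jD
  exact ⟨by linarith, by linarith⟩

theorem jD_lip (hD : 1 ≤ D) (h1 : -D ≤ ts) (h2 : ts ≤ D / 4) (x y : ℝ) :
    |jD D eta ts x - jD D eta ts y| ≤ 8 / 3 * (|eta| / D) * |x - y| := by
  have h3 := j3_lip (D := D) (ts := -ts) (a := aU D (-eta) (-ts)) (c := -eta / (2 * D))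
    (by linarith) (by linarith) (-x) (-y)
  have h4 := aU_abs (eta := -eta) hD (ts := -ts) (by linarith) (by linarith)
  rw [abs_neg] at h4
  have e : jD D eta ts x - jD D eta ts y = j3 D (-ts) (aU D (-eta) (-ts)) (-eta / (2 * D)) (-x)
      - j3 D (-ts) (aU D (-eta) (-ts)) (-eta / (2 * D)) (-y) := by
    unfold jD jU; ring
  have e2 : |(-x) - (-y)| = |x - y| := by rw [← abs_neg]; ring_nf
  rw [e]
  rw [e2] at h3
  exact h3.trans (mul_le_mul_of_nonneg_right h4 (abs_nonneg _))

theorem jD_sub (hD : 1 ≤ D) (h1 : -D ≤ ts) (h2 : ts ≤ D / 4) (t : ℝ) :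
    |jD D eta ts t - lD D eta ts t| ≤ 8 / 3 * (|eta| / D) * 2 := by
  have h3 := j3_sub D (-ts) (aU D (-eta) (-ts)) (-eta / (2 * D)) (-t)
  have h4 := aU_abs (eta := -eta) hD (ts := -ts) (by linarith) (by linarith)
  rw [abs_neg] at h4
  have e : jD D eta ts t - lD D eta ts t = j3 D (-ts) (aU D (-eta) (-ts)) (-eta / (2 * D)) (-t)
      - l3 D (-ts) (aU D (-eta) (-ts)) (-eta / (2 * D)) (-t) := by
    unfold jD jU lD lU; ring
  rw [e]
  linarith

/-- values of the piecewise linear lower line: `eta <= l` everywhere, `0 <= l` left of the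
apex, `|eta| p (-ts)` at the apex (for `eta <= 0`) -/
theorem lD_val (hD : 1 ≤ D) (h1 : -D ≤ ts) (h2 : ts ≤ D / 4) (h0 : eta ≤ 0) (t : ℝ) :
    eta ≤ lD D eta ts t ∧ (t ≤ ts → 0 ≤ lD D eta ts t) ∧
    lD D eta ts ts = |eta| * pU D (-ts) := by
  obtain ⟨x, hx, x0, -, x2⟩ := lU_eta (eta := -eta) hD (ts := -ts) (by linarith) (by linarith) (-t)
  refine ⟨?_, fun ht => ?_, ?_⟩
  · unfold lD
    rw [hx]
    have : 0 ≤ -eta * x := mul_nonneg (by linarith) x0
    linarith
  · unfold lD
    rw [hx]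
    have : -eta * 1 ≤ -eta * x := mul_le_mul_of_nonneg_left (x2 (by linarith)) (by linarith)
    linarith
  · unfold lD
    rw [lU_at hD (by linarith) (by linarith), abs_of_nonpos h0]
    ring

variable {kap : ℝ → ℝ} {M : ℝ}

theorem jD_smear (hD : 1 ≤ D) (h1 : -D ≤ ts) (h2 : ts ≤ D / 4)
    (hi : Integrable kap) (hk1 : ∫ u, kap u = 1)
    (hm : Integrable (fun u => |u| * |kap u|)) (hM : ∫ u, |u| * |kap u| ≤ M) (t : ℝ) :
    Integrable (fun u => kap u * jD D eta ts (t - u)) ∧
    |(∫ u, kap u * jD D eta ts (t - u)) - lD D eta ts t| ≤ 8 / 3 * (|eta| / D) * (M + 2) := by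
  have hK : 0 ≤ 8 / 3 * (|eta| / D) := by
    have : 0 ≤ |eta| / D := div_nonneg (abs_nonneg _) (by linarith)
    positivity
  obtain ⟨i1, b1⟩ := smear (f := jD D eta ts) (K := 8 / 3 * (|eta| / D)) (jD_lip hD h1 h2)
    hi hk1 hm hM hK t
  refine ⟨i1, ?_⟩
  have b2 := jD_sub (eta := eta) hD h1 h2 t
  have e : (∫ u, kap u * jD D eta ts (t - u)) - lD D eta ts t =
      ((∫ u, kap u * jD D eta ts (t - u)) - jD D eta ts t)
        + (jD D eta ts t - lD D eta ts t) := by ring
  rw [e]
  refine (abs_add_le _ _).trans ?_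
  linarith

/-- for `eta <= 0`: `Jt~ >= eta - c` everywhere, `Jt~ >= - c` left of the apex,
`Jt~ >= |eta| p (-ts) - c` at the apex -/
theorem jD_smear_ge (hD : 1 ≤ D) (h1 : -D ≤ ts) (h2 : ts ≤ D / 4) (h0 : eta ≤ 0)
    (hi : Integrable kap) (hk1 : ∫ u, kap u = 1)
    (hm : Integrable (fun u => |u| * |kap u|)) (hM : ∫ u, |u| * |kap u| ≤ M) (t : ℝ) :
    eta - 8 / 3 * (|eta| / D) * (M + 2) ≤ (∫ u, kap u * jD D eta ts (t - u)) ∧
    (t ≤ ts → -(8 / 3 * (|eta| / D) * (M + 2)) ≤ ∫ u, kap u * jD D eta ts (t - u)) ∧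
    (t = ts → |eta| * pU D (-ts) - 8 / 3 * (|eta| / D) * (M + 2) ≤
      ∫ u, kap u * jD D eta ts (t - u)) := by
  have b := (jD_smear (eta := eta) hD h1 h2 hi hk1 hm hM t).2
  rw [abs_le] at b
  obtain ⟨v1, v2, v3⟩ := lD_val hD h1 h2 h0 t
  refine ⟨by linarith, fun ht => ?_, fun ht => ?_⟩
  · have := v2 ht
    linarith
  · subst ht
    linarith

end lower

end NUCR
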