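import Pool.Agent.NUP.MF.Const

/-!
# The energy form of the mean field of the quanta

`bil a b = ∫∫ a(s) V(s - t) b(t)`, `V = U₊ ≥ 0`, `∫ V = 9 π² / 32 = kap0`.
* `bil_self_le`: `bil a a ≤ kap0 ∫ a²`
* `bil_P`: `bil a P = ∫ a v`
* `energy_eq`: the exact energy of the current `j` with `j' = a - η p`
-/

set_option autoImplicit false

open MeasureTheory Set Filter Topology

namespace NUCR

open NUMF

noncomputable section

/-- `U₊^(0)` -/
def kap0 : ℝ := 9 * Real.pi ^ 2 / 32

lemma kap0_pos : 0 < kap0 := by unfold kap0; positivity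

lemma V_even (x : ℝ) : V (-x) = V x := by
  unfold V w g
  rw [Real.sinh_neg, mul_neg, Real.cosh_neg, Real.cosh_neg, neg_sq]

lemma V_nonneg (x : ℝ) : 0 ≤ V x := by
  have hc : 1 ≤ Real.cosh (2 * x) := Real.one_le_cosh _
  have hr := r_pos
  have hr1 := r_lt_one
  have hr2 : r ^ 2 = 1 / 2 := by
    unfold r
    rw [div_pow, Real.sq_sqrt (by norm_num)]
    norm_num
  have h1 : Real.sinh x ^ 2 = (Real.cosh (2 * x) - 1) / 2 := by
    rw [cosh_two]
    ring
  have h2 : Real.cosh x ^ 2 = (Real.cosh (2 * x) + 1) / 2 := by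
    rw [Real.cosh_two_mul, Real.sinh_sq]
    ring
  unfold V w g
  rw [h1, h2]
  set c := Real.cosh (2 * x) with hcd
  have h3 : 0 < c - r := by linarith
  have h4 : 0 < c + r := by linarith
  have h5 : (c - 1) / 2 * c / (c - r) * (4 * ((c + 1) / 2) / (c + r) ^ 2) =
      (c - 1) * c * (c + 1) / ((c - r) * (c + r) ^ 2) := by
    field_simp
    ring
  rw [h5, neg_nonneg]
  refine Real.log_nonpos ?_ ?_
  · have : 0 ≤ c - 1 := by linarith
    positivity
  · rw [div_le_one (by positivity)]
    have h6 : (c - r) * (c + r) ^ 2 - (c - 1) * c * (c + 1) = r * c ^ 2 - r ^ 2 * c - r ^ 3 + c := by ring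
    have h7 : r ^ 3 = r / 2 := by
      rw [pow_succ, hr2]
      ring
    have h8 : 0 ≤ r * c ^ 2 - r ^ 2 * c - r ^ 3 + c := by
      rw [hr2, h7]
      nlinarith
    linarith

lemma V_int : Integrable V := V_integral.1

lemma V_meas : Measurable V := by
  unfold V w g
  fun_prop

lemma V_mass : ∫ t, V t = kap0 := V_integral.2

lemma V_int_sub (s : ℝ) : Integrable fun t => V (s - t) := V_int.comp_sub_left s

lemma V_mass_sub (s : ℝ) : ∫ t, V (s - t) = kap0 := by
  rw [← V_mass]
  exact integral_sub_left_eq_self V volume s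

/-- the potential of `b` -/
def cv (b : ℝ → ℝ) (s : ℝ) : ℝ := ∫ t, V (s - t) * b t

/-- the energy form -/
def bil (a b : ℝ → ℝ) : ℝ := ∫ s, a s * cv b s

variable {a b a' b' : ℝ → ℝ} {M : ℝ}

lemma cv_integrable (hb : AEStronglyMeasurable b) (hM : ∀ t, |b t| ≤ M) (s : ℝ) :
    Integrable fun t => V (s - t) * b t :=
  (V_int_sub s).mul_bdd (c := M) hb (Eventually.of_forall hM)

lemma cv_abs (hM : ∀ t, |b t| ≤ M) (s : ℝ) : |cv b s| ≤ kap0 * M := by
  unfold cv
  rw [← Real.norm_eq_abs]
  refine (norm_integral_le_of_norm_le ((V_int_sub s).mul_const M) (Eventually.of_forall fun t => ?_)).trans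
    (le_of_eq ?_)
  · rw [Real.norm_eq_abs, abs_mul, abs_of_nonneg (V_nonneg _)]
    exact mul_le_mul_of_nonneg_left (hM t) (V_nonneg _)
  · rw [integral_mul_const, V_mass_sub]

/-- joint integrability, `a` integrable, `b` bounded -/
lemma int2 (ha : Integrable a) (hb : AEStronglyMeasurable b) (hM : ∀ t, |b t| ≤ M) :
    Integrable (fun p : ℝ × ℝ => a p.1 * (V (p.1 - p.2) * b p.2)) (volume.prod volume) := by
  have h1 : Integrable (fun p : ℝ × ℝ => a p.2 * V (p.1 - p.2)) (volume.prod volume) :=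
    ha.convolution_integrand (ContinuousLinearMap.mul ℝ ℝ) V_int
  have h2 := h1.swap
  have h3 : Integrable (fun p : ℝ × ℝ => a p.1 * V (p.1 - p.2)) (volume.prod volume) := by
    refine h2.congr (Eventually.of_forall fun p => ?_)
    simp only [Function.comp, Prod.fst_swap, Prod.snd_swap]
    rw [← V_even (p.1 - p.2), neg_sub]
  have h4 : AEStronglyMeasurable (fun p : ℝ × ℝ => b p.2) (volume.prod volume) := hb.comp_snd
  have h5 := h3.mul_bdd (c := M) h4 (Eventually.of_forall fun p => hM p.2)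
  refine h5.congr (Eventually.of_forall fun p => ?_)
  simp only
  ring

lemma int2' (ha : AEStronglyMeasurable a) (hM : ∀ t, |a t| ≤ M) (hb : Integrable b) :
    Integrable (fun p : ℝ × ℝ => a p.1 * (V (p.1 - p.2) * b p.2)) (volume.prod volume) := by
  have h1 := (int2 hb ha hM).swap
  refine h1.congr (Eventually.of_forall fun p => ?_)
  simp only [Function.comp, Prod.fst_swap, Prod.snd_swap]
  rw [← V_even (p.1 - p.2), neg_sub]
  ring

lemma bil_prod (h : Integrable (fun p : ℝ × ℝ => a p.1 * (V (p.1 - p.2) * b p.2)) (volume.prod volume)) :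
    bil a b = ∫ p : ℝ × ℝ, a p.1 * (V (p.1 - p.2) * b p.2) ∂(volume.prod volume) := by
  rw [integral_prod _ h]
  unfold bil cv
  simp_rw [integral_const_mul]

lemma bil_symm (ha : Integrable a) (hb : AEStronglyMeasurable b) (hM : ∀ t, |b t| ≤ M) : bil a b = bil b a := by
  have h1 := int2 ha hb hM
  have h2 := int2' hb hM ha
  rw [bil_prod h1, bil_prod h2, ← integral_prod_swap]
  refine integral_congr_ae (Eventually.of_forall fun p => ?_)
  simp only [Prod.fst_swap, Prod.snd_swap]
  rw [← V_even (p.1 - p.2), neg_sub]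
  ring

lemma cv_meas (b : ℝ → ℝ) (hb : AEStronglyMeasurable b) : AEStronglyMeasurable (cv b) := by
  unfold cv
  have h1 : AEStronglyMeasurable (fun p : ℝ × ℝ => V (p.1 - p.2) * b p.2) (volume.prod volume) :=
    (V_meas.comp (measurable_fst.sub measurable_snd)).aestronglyMeasurable.mul hb.comp_snd
  exact h1.integral_prod_right'

lemma acv_integrable (ha : Integrable a) (hb : AEStronglyMeasurable b) (hM : ∀ t, |b t| ≤ M) :
    Integrable fun s => a s * cv b s :=
  ha.mul_bdd (c := kap0 * M) (cv_meas b hb) (Eventually.of_forall fun s => cv_abs hM s)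

lemma bil_abs (ha : Integrable a) (hM : ∀ t, |b t| ≤ M) : |bil a b| ≤ kap0 * M * ∫ t, |a t| := by
  unfold bil
  rw [← Real.norm_eq_abs]
  refine (norm_integral_le_of_norm_le (ha.abs.const_mul (kap0 * M)) (Eventually.of_forall fun t => ?_)).trans
    (le_of_eq ?_)
  · rw [Real.norm_eq_abs, abs_mul, mul_comm]
    exact mul_le_mul_of_nonneg_right (cv_abs hM t) (abs_nonneg _)
  · rw [integral_const_mul]

lemma cv_add (hb : AEStronglyMeasurable b) (hM : ∀ t, |b t| ≤ M) {M' : ℝ} (hb' : AEStronglyMeasurable b')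
    (hM' : ∀ t, |b' t| ≤ M') (s : ℝ) : cv (fun t => b t + b' t) s = cv b s + cv b' s := by
  unfold cv
  rw [← integral_add (cv_integrable hb hM s) (cv_integrable hb' hM' s)]
  refine integral_congr_ae (Eventually.of_forall fun t => ?_)
  simp only
  ring

lemma cv_smul (c : ℝ) (b : ℝ → ℝ) (s : ℝ) : cv (fun t => c * b t) s = c * cv b s := by
  unfold cv
  rw [← integral_const_mul]
  refine integral_congr_ae (Eventually.of_forall fun t => ?_)
  simp only
  ring

/-- bounded integrable functions -/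
structure BI (M : ℝ) (a : ℝ → ℝ) : Prop where
  int : Integrable a
  bd : ∀ t, |a t| ≤ M

lemma BI.meas (h : BI M a) : AEStronglyMeasurable a := h.int.aestronglyMeasurable

lemma BI.add {M' : ℝ} (h : BI M a) (h' : BI M' a') : BI (M + M') fun t => a t + a' t :=
  ⟨h.int.add h'.int, fun t => (abs_add_le _ _).trans (add_le_add (h.bd t) (h'.bd t))⟩

lemma BI.smul (c : ℝ) (h : BI M a) : BI (|c| * M) fun t => c * a t :=
  ⟨h.int.const_mul c, fun t => by rw [abs_mul]; exact mul_le_mul_of_nonneg_left (h.bd t) (abs_nonneg c)⟩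

lemma BI.nonneg (h : BI M a) : 0 ≤ M := (abs_nonneg (a 0)).trans (h.bd 0)

lemma BI.symm {M' : ℝ} (h : BI M a) (h' : BI M' b) : bil a b = bil b a := bil_symm h.int h'.meas h'.bd

lemma bil_add_right {M1 M2 M3 : ℝ} (ha : BI M1 a) (hb : BI M2 b) (hb' : BI M3 b') :
    bil a (fun t => b t + b' t) = bil a b + bil a b' := by
  unfold bil
  rw [← integral_add (acv_integrable ha.int hb.meas hb.bd) (acv_integrable ha.int hb'.meas hb'.bd)]
  refine integral_congr_ae (Eventually.of_forall fun t => ?_)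
  simp only
  rw [cv_add hb.meas hb.bd hb'.meas hb'.bd]
  ring

lemma bil_smul_right (c : ℝ) (a b : ℝ → ℝ) : bil a (fun t => c * b t) = c * bil a b := by
  unfold bil
  rw [← integral_const_mul]
  refine integral_congr_ae (Eventually.of_forall fun t => ?_)
  simp only
  rw [cv_smul]
  ring

lemma bil_add_left {M1 M2 M3 : ℝ} (ha : BI M1 a) (ha' : BI M2 a') (hb : BI M3 b) :
    bil (fun t => a t + a' t) b = bil a b + bil a' b := by
  rw [(ha.add ha').symm hb, bil_add_right hb ha ha', hb.symm ha, hb.symm ha']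

lemma bil_smul_left (c : ℝ) (a b : ℝ → ℝ) : bil (fun t => c * a t) b = c * bil a b := by
  unfold bil
  rw [← integral_const_mul]
  refine integral_congr_ae (Eventually.of_forall fun t => ?_)
  simp only
  ring

/-- Young's inequality for the energy form -/
theorem bil_self_le {M : ℝ} (ha : BI M a) : bil a a ≤ kap0 * ∫ t, a t ^ 2 := by
  have hsq : Integrable fun t => a t ^ 2 := by
    have h1 := ha.int.mul_bdd (c := M) ha.meas (Eventually.of_forall ha.bd)
    refine h1.congr (Eventually.of_forall fun t => ?_)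
    simp only
    ring
  have h1m : AEStronglyMeasurable (fun _ : ℝ => (1 : ℝ)) (volume : Measure ℝ) := aestronglyMeasurable_const
  have h1b : ∀ t : ℝ, |(1 : ℝ)| ≤ 1 := fun _ => by rw [abs_one]
  have i1 := int2 hsq h1m h1b
  have i2 := int2' h1m h1b hsq
  have i0 := int2 ha.int ha.meas ha.bd
  have e1 : bil (fun t => a t ^ 2) (fun _ => 1) = kap0 * ∫ t, a t ^ 2 := by
    unfold bil cv
    simp_rw [mul_one, V_mass_sub]
    rw [integral_mul_const, mul_comm]
  have e2 : bil (fun _ => (1 : ℝ)) (fun t => a t ^ 2) = kap0 * ∫ t, a t ^ 2 := by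
    rw [← e1, bil_symm hsq h1m h1b]
  have e3 : kap0 * ∫ t, a t ^ 2 = ∫ p : ℝ × ℝ, ((1 / 2) * (a p.1 ^ 2 * (V (p.1 - p.2) * 1)) +
      (1 / 2) * (1 * (V (p.1 - p.2) * a p.2 ^ 2))) ∂(volume.prod volume) := by
    have g1 := bil_prod (a := fun t => a t ^ 2) (b := fun _ => (1 : ℝ)) i1
    have g2 := bil_prod (a := fun _ => (1 : ℝ)) (b := fun t => a t ^ 2) i2
    rw [integral_add (i1.const_mul _) (i2.const_mul _), integral_const_mul, integral_const_mul, ← g1, ← g2, e1, e2]
    ring
  rw [bil_prod i0, e3]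
  refine integral_mono i0 ((i1.const_mul _).add (i2.const_mul _)) fun p => ?_
  simp only
  have h0 := V_nonneg (p.1 - p.2)
  have h2 : 0 ≤ V (p.1 - p.2) * (a p.1 - a p.2) ^ 2 := mul_nonneg h0 (sq_nonneg _)
  nlinarith

/-- `U₊ * P = v` -/
lemma cv_P (s : ℝ) : cv P s = v s := by
  rw [← (conv_V s).2]
  unfold cv
  exact integral_congr_ae (Eventually.of_forall fun t => mul_comm _ _)

lemma bil_P (a : ℝ → ℝ) : bil a P = ∫ t, a t * v t := by
  unfold bil
  simp_rw [cv_P]

lemma P_BI : BI (32 / (3 * √3 * Real.pi)) P := by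
  refine ⟨P_integrable, fun t => ?_⟩
  rw [abs_of_pos (P_pos t)]
  refine (P_le t).trans ?_
  have h1 : Real.exp (-(8 / 3) * |t|) ≤ 1 := Real.exp_le_one_iff.2 (by have := abs_nonneg t; linarith)
  have h2 := sq3_pos
  have h3 := Real.pi_pos
  have h4 : 0 ≤ 32 / (3 * √3 * Real.pi) := by positivity
  calc _ ≤ 32 / (3 * √3 * Real.pi) * 1 := mul_le_mul_of_nonneg_left h1 h4
    _ = _ := mul_one _

/-- **exact energy**: `j' = a - η p` -/
theorem energy_eq {M1 M2 : ℝ} {p : ℝ → ℝ} (ha : BI M1 a) (hp : BI M2 p) (η : ℝ) :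
    2 * η * (∫ t, v t * (a t - η * p t)) + bil (fun t => a t - η * p t) (fun t => a t - η * p t) =
      -η ^ 2 * (∫ t, P t * v t) + bil a a + 2 * η * bil a (fun t => P t - p t) +
        η ^ 2 * bil (fun t => P t - p t) (fun t => P t - p t) := by
  have hP := P_BI
  have hp1 := hp.smul (-1)
  have hpη := hp.smul (-η)
  have e0 : (∫ t, v t * (a t - η * p t)) = bil (fun t => a t - η * p t) P := by
    rw [bil_P]
    exact integral_congr_ae (Eventually.of_forall fun t => mul_comm _ _)
  have f1 : (fun t => a t - η * p t) = fun t => a t + -η * p t := by funext t; ring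
  have f2 : (fun t => P t - p t) = fun t => P t + -1 * p t := by funext t; ring
  have e1 : bil P P = ∫ t, P t * v t := bil_P P
  rw [e0, ← e1, f1, f2, bil_add_left ha hpη hP, bil_smul_left, bil_add_right (ha.add hpη) ha hpη, bil_smul_right,
    bil_add_left ha hpη ha, bil_add_left ha hpη hp, bil_smul_left, bil_smul_left, bil_add_right ha hP hp1,
    bil_smul_right, bil_add_right (hP.add hp1) hP hp1, bil_smul_right, bil_add_left hP hp1 hP, bil_add_left hP hp1 hp,
    bil_smul_left, bil_smul_left, hp.symm ha, hp.symm hP]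
  ring

end

end NUCR
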