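import Mathlib

/-!
# The sum over the number of quanta from two tilted bounds

If `exp (b' (s - n)) z n ≤ Q` for `b' = b + d` and `b' = b - d`, then the sum over `n` of
`exp (b (s - n)) z n` is at most `4 (1 + 1 / d) Q`.  No mass term is needed.
-/

set_option autoImplicit false

open Finset

namespace NUCR

theorem exp_neg_abs_le {b d z Q x : ℝ}
    (h1 : Real.exp ((b + d) * x) * z ≤ Q) (h2 : Real.exp ((b - d) * x) * z ≤ Q) :
    Real.exp (b * x) * z ≤ Q * Real.exp (-(d * |x|)) := by
  rcases le_total 0 x with hx | hx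
  · rw [abs_of_nonneg hx]
    have e : Real.exp (b * x) * z = Real.exp ((b + d) * x) * z * Real.exp (-(d * x)) := by
      rw [mul_right_comm, ← Real.exp_add]
      congr 2
      ring
    rw [e]
    exact mul_le_mul_of_nonneg_right h1 (Real.exp_pos _).le
  · rw [abs_of_nonpos hx]
    have e : Real.exp (b * x) * z = Real.exp ((b - d) * x) * z * Real.exp (-(d * -x)) := by
      rw [mul_right_comm, ← Real.exp_add]
      congr 2
      ring
    rw [e]
    exact mul_le_mul_of_nonneg_right h2 (Real.exp_pos _).le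

/-- a geometric sum centred at any real point -/
theorem sum_exp_abs_le {d : ℝ} (hd : 0 < d) (s : ℝ) (N : ℕ) :
    ∑ n ∈ range N, Real.exp (-(d * |s - n|)) ≤ 4 * (1 + 1 / d) := by
  set q : ℝ := Real.exp (-d) with hq
  have hq0 : 0 < q := Real.exp_pos _
  have hq1 : q < 1 := by rw [hq]; exact Real.exp_lt_one_iff.2 (by linarith)
  have hg : (1 - q)⁻¹ ≤ 1 + 1 / d := by
    have h1 : d / (1 + d) ≤ 1 - q := by
      have h3 : q ≤ 1 / (1 + d) := by
        rw [hq, Real.exp_neg, ← one_div]
        apply one_div_le_one_div_of_le (by linarith)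
        linarith [Real.add_one_le_exp d]
      have h4 : d / (1 + d) = 1 - 1 / (1 + d) := by field_simp; ring
      linarith
    have h2 : 0 < d / (1 + d) := by positivity
    calc (1 - q)⁻¹ ≤ (d / (1 + d))⁻¹ := inv_anti₀ h2 h1
      _ = 1 + 1 / d := by field_simp; ring
  have hone : ∀ M : ℕ, ∑ k ∈ range M, q ^ k ≤ 1 + 1 / d := fun M =>
    (Summable.sum_le_tsum _ (fun k _ => by positivity)
      (summable_geometric_of_lt_one hq0.le hq1)).trans
      ((tsum_geometric_of_lt_one hq0.le hq1).le.trans hg)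
  -- the floor of `s`
  set f : ℤ := ⌊s⌋ with hf
  have hterm : ∀ n : ℕ, Real.exp (-(d * |s - n|)) ≤
      (if (n : ℤ) ≤ f then q ^ (f - n).toNat else 0) +
        (if f < (n : ℤ) then q ^ ((n : ℤ) - f - 1).toNat else 0) := by
    intro n
    have hfl : (f : ℝ) ≤ s := Int.floor_le s
    have hfu : s < (f : ℝ) + 1 := Int.lt_floor_add_one s
    rcases le_or_gt (n : ℤ) f with h | h
    · rw [if_pos h, if_neg (by omega), add_zero, hq, ← Real.exp_nat_mul]
      apply Real.exp_le_exp.2
      have e : (((f - n).toNat : ℕ) : ℝ) = (f : ℝ) - n := by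
        have : (((f - n).toNat : ℕ) : ℤ) = f - n := Int.toNat_of_nonneg (by omega)
        exact_mod_cast this
      have hn : (n : ℝ) ≤ f := by exact_mod_cast h
      rw [e, abs_of_nonneg (by linarith)]
      nlinarith
    · rw [if_neg (by omega), if_pos h, zero_add, hq, ← Real.exp_nat_mul]
      apply Real.exp_le_exp.2
      have e : ((((n : ℤ) - f - 1).toNat : ℕ) : ℝ) = (n : ℝ) - f - 1 := by
        have : ((((n : ℤ) - f - 1).toNat : ℕ) : ℤ) = (n : ℤ) - f - 1 :=
          Int.toNat_of_nonneg (by omega)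
        exact_mod_cast this
      have hn : (f : ℝ) + 1 ≤ n := by exact_mod_cast h
      rw [e, abs_of_nonpos (by linarith)]
      nlinarith
  have hA : ∑ n ∈ range N, (if (n : ℤ) ≤ f then q ^ (f - n).toNat else 0) ≤ 1 + 1 / d := by
    rw [← sum_filter]
    have hinj : Set.InjOn (fun n : ℕ => (f - (n : ℤ)).toNat)
        ((range N).filter fun n : ℕ => (n : ℤ) ≤ f : Finset ℕ) := by
      intro a ha b hb hab
      simp only [coe_filter, mem_range, Set.mem_ofPred_eq] at ha hb
      have hab' : (f - (a : ℤ)).toNat = (f - (b : ℤ)).toNat := hab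
      omega
    rw [← sum_image (f := fun k => q ^ k) hinj]
    refine le_trans ?_ (hone (f.toNat + 1))
    refine sum_le_sum_of_subset_of_nonneg ?_ (fun _ _ _ => by positivity)
    intro k hk
    obtain ⟨n, hn, rfl⟩ := mem_image.1 hk
    rw [mem_filter] at hn
    rw [mem_range]
    have := hn.2
    omega
  have hB : ∑ n ∈ range N, (if f < (n : ℤ) then q ^ ((n : ℤ) - f - 1).toNat else 0)
      ≤ 1 + 1 / d := by
    rw [← sum_filter]
    have hinj : Set.InjOn (fun n : ℕ => ((n : ℤ) - f - 1).toNat)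
        ((range N).filter fun n : ℕ => f < (n : ℤ) : Finset ℕ) := by
      intro a ha b hb hab
      simp only [coe_filter, mem_range, Set.mem_ofPred_eq] at ha hb
      have hab' : ((a : ℤ) - f - 1).toNat = ((b : ℤ) - f - 1).toNat := hab
      omega
    rw [← sum_image (f := fun k => q ^ k) hinj]
    refine le_trans ?_ (hone (((N : ℤ) - f).toNat + 1))
    refine sum_le_sum_of_subset_of_nonneg ?_ (fun _ _ _ => by positivity)
    intro k hk
    obtain ⟨n, hn, rfl⟩ := mem_image.1 hk
    rw [mem_filter, mem_range] at hn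
    rw [mem_range]
    have := hn.2
    omega
  calc ∑ n ∈ range N, Real.exp (-(d * |s - n|)) ≤
      ∑ n ∈ range N, ((if (n : ℤ) ≤ f then q ^ (f - n).toNat else 0) +
        (if f < (n : ℤ) then q ^ ((n : ℤ) - f - 1).toNat else 0)) :=
        sum_le_sum fun n _ => hterm n
    _ ≤ (1 + 1 / d) + (1 + 1 / d) := by
        rw [sum_add_distrib]
        exact add_le_add hA hB
    _ ≤ 4 * (1 + 1 / d) := by
        have : 0 < 1 / d := by positivity
        linarith

/-- **The sum over the number of quanta from two tilted bounds.** -/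
theorem sum_n_le {b d s Q : ℝ} (hd : 0 < d) (hQ : 0 ≤ Q) (z : ℕ → ℝ) (N : ℕ)
    (h1 : ∀ n < N, Real.exp ((b + d) * (s - n)) * z n ≤ Q)
    (h2 : ∀ n < N, Real.exp ((b - d) * (s - n)) * z n ≤ Q) :
    ∑ n ∈ range N, Real.exp (b * (s - n)) * z n ≤ 4 * (1 + 1 / d) * Q := by
  calc ∑ n ∈ range N, Real.exp (b * (s - n)) * z n ≤
      ∑ n ∈ range N, Q * Real.exp (-(d * |s - n|)) := sum_le_sum fun n hn =>
        exp_neg_abs_le (h1 n (mem_range.1 hn)) (h2 n (mem_range.1 hn))
    _ = Q * ∑ n ∈ range N, Real.exp (-(d * |s - n|)) := by rw [mul_sum]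
    _ ≤ Q * (4 * (1 + 1 / d)) := mul_le_mul_of_nonneg_left (sum_exp_abs_le hd s N) hQ
    _ = _ := by ring

end NUCR
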