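import Pool.Agent.NUP.MF.StripD
import Pool.Agent.NUCR.Prof
import Pool.Agent.NUCR.Bil

/-!
# The cut distribution function of `P` (board/CR, B2)

`Nc R` is smooth, `= 0` for `t ≤ -R-1`, `= 1` for `1 + R ≤ t`, `= 1/2 + G` for `|t| ≤ R - 1`, all derivatives are
bounded uniformly in `R`, and `Nc' = P` up to `C exp (-(8/3) R)`.
-/

set_option autoImplicit false

open MeasureTheory Set Filter Topology

namespace NUCR

open NUMF

noncomputable section

/-! ### functions with bounded derivatives -/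

/-- derivatives up to the order `n` bounded by `C` -/
def DB (n : ℕ) (C : ℝ) (f : ℝ → ℝ) : Prop := ContDiff ℝ n f ∧ ∀ k ≤ n, ∀ t, |iteratedDeriv k f t| ≤ C

variable {n : ℕ} {C D : ℝ} {f g : ℝ → ℝ}

lemma DB.mono (h : DB n C f) (hC : C ≤ D) : DB n D f := ⟨h.1, fun k hk t => (h.2 k hk t).trans hC⟩

lemma DB.nonneg (h : DB n C f) : 0 ≤ C := (abs_nonneg _).trans (h.2 0 (Nat.zero_le _) 0)

lemma DB.mul (hf : DB n C f) (hg : DB n D g) : DB n (2 ^ n * C * D) fun t => f t * g t := by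
  refine ⟨hf.1.mul hg.1, fun k hk t => ?_⟩
  have h1 := norm_iteratedFDeriv_mul_le hf.1 hg.1 t (n := k) (by exact_mod_cast hk)
  rw [norm_iteratedFDeriv_eq_norm_iteratedDeriv, Real.norm_eq_abs] at h1
  refine h1.trans ?_
  have hC := hf.nonneg
  have hD := hg.nonneg
  calc _ ≤ ∑ i ∈ Finset.range (k + 1), (k.choose i : ℝ) * C * D := by
        refine Finset.sum_le_sum fun i hi => ?_
        rw [norm_iteratedFDeriv_eq_norm_iteratedDeriv, norm_iteratedFDeriv_eq_norm_iteratedDeriv, Real.norm_eq_abs,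
          Real.norm_eq_abs]
        have hi' : i ≤ k := by have := Finset.mem_range.1 hi; omega
        have a1 := hf.2 i (hi'.trans hk) t
        have a2 := hg.2 (k - i) ((Nat.sub_le _ _).trans hk) t
        have a3 : (0 : ℝ) ≤ k.choose i := Nat.cast_nonneg _
        exact mul_le_mul (mul_le_mul_of_nonneg_left a1 a3) a2 (abs_nonneg _) (mul_nonneg a3 hC)
    _ = 2 ^ k * C * D := by
        rw [← Finset.sum_mul, ← Finset.sum_mul]
        congr 2
        rw [← Nat.cast_sum, Nat.sum_range_choose]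
        push_cast
        rfl
    _ ≤ 2 ^ n * C * D := by
        have : (2 : ℝ) ^ k ≤ 2 ^ n := pow_le_pow_right₀ (by norm_num) hk
        gcongr

lemma DB.add (hf : DB n C f) (hg : DB n D g) : DB n (C + D) fun t => f t + g t := by
  refine ⟨hf.1.add hg.1, fun k hk t => ?_⟩
  have h1 : iteratedDeriv k (fun t => f t + g t) t = iteratedDeriv k f t + iteratedDeriv k g t :=
    iteratedDeriv_fun_add (hf.1.contDiffAt.of_le (by exact_mod_cast hk)) (hg.1.contDiffAt.of_le (by exact_mod_cast hk))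
  rw [h1]
  exact (abs_add_le _ _).trans (add_le_add (hf.2 k hk t) (hg.2 k hk t))

lemma DB.const (n : ℕ) (c : ℝ) : DB n |c| fun _ => c := by
  refine ⟨contDiff_const, fun k _ t => ?_⟩
  rw [iteratedDeriv_const]
  split_ifs
  · exact le_rfl
  · rw [abs_zero]; exact abs_nonneg c

lemma DB.smul (c : ℝ) (hf : DB n C f) : DB n (|c| * C) fun t => c * f t := by
  refine ⟨contDiff_const.mul hf.1, fun k hk t => ?_⟩
  have h1 : iteratedDeriv k (fun t => c * f t) t = c * iteratedDeriv k f t :=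
    iteratedDeriv_const_mul c (hf.1.contDiffAt.of_le (by exact_mod_cast hk))
  rw [h1, abs_mul]
  exact mul_le_mul_of_nonneg_left (hf.2 k hk t) (abs_nonneg c)

lemma DB.shift (c : ℝ) (hf : DB n C f) : DB n C fun t => f (t + c) := by
  refine ⟨hf.1.comp (contDiff_id.add contDiff_const), fun k hk t => ?_⟩
  rw [iteratedDeriv_comp_add_const]
  exact hf.2 k hk _

lemma DB.refl (c : ℝ) (hf : DB n C f) : DB n C fun t => f (c - t) := by
  refine ⟨hf.1.comp (contDiff_const.sub contDiff_id), fun k hk t => ?_⟩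
  rw [iteratedDeriv_comp_const_sub]
  simp only [smul_eq_mul, abs_mul, abs_pow, abs_neg, abs_one, one_pow, one_mul]
  exact hf.2 k hk _

/-- from the derivative -/
lemma DB.of_deriv {f' : ℝ → ℝ} (hd : ∀ t, HasDerivAt f (f' t) t) (h0 : ∀ t, |f t| ≤ D) (hf : DB n C f') :
    DB (n + 1) (max C D) f := by
  have e : deriv f = f' := funext fun t => (hd t).deriv
  refine ⟨?_, fun k hk t => ?_⟩
  · have h1 : ContDiff ℝ ((n : WithTop ℕ∞) + 1) f := by
      rw [contDiff_succ_iff_deriv]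
      refine ⟨fun t => (hd t).differentiableAt, fun h => ?_, ?_⟩
      · exact absurd h (by exact_mod_cast WithTop.coe_ne_top)
      · rw [e]
        exact hf.1
    exact_mod_cast h1
  · rcases k with _ | k
    · rw [iteratedDeriv_zero]
      exact (h0 t).trans (le_max_right _ _)
    · rw [iteratedDeriv_succ', e]
      exact (hf.2 k (by omega) t).trans (le_max_left _ _)

/-! ### the step and `G` -/

lemma DB_bu (n : ℕ) : ∃ C, DB n C bu := by
  have h : ∀ m : ℕ, ∃ C, ∀ k ≤ m, ∀ t, |iteratedDeriv k bu t| ≤ C := by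
    intro m
    induction m with
    | zero =>
      obtain ⟨C, hC⟩ := bu_iter_bdd 0
      exact ⟨C, fun k hk t => by rw [Nat.le_zero.1 hk]; exact hC t⟩
    | succ m ih =>
      obtain ⟨C, hC⟩ := ih
      obtain ⟨C', hC'⟩ := bu_iter_bdd (m + 1)
      refine ⟨max C C', fun k hk t => ?_⟩
      rcases Nat.lt_or_ge k (m + 1) with h1 | h1
      · exact (hC k (by omega) t).trans (le_max_left _ _)
      · rw [show k = m + 1 by omega]
        exact (hC' t).trans (le_max_right _ _)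
  obtain ⟨C, hC⟩ := h n
  exact ⟨C, (bu_smooth (n := (n : ℕ∞))), hC⟩

lemma abs_Ph_le (t : ℝ) : |Ph t| ≤ 1 := by
  rw [abs_of_nonneg (Ph_nonneg t)]
  exact Ph_le_one t

lemma DB_Ph (n : ℕ) : ∃ C, DB n C Ph := by
  rcases n with _ | n
  · exact ⟨1, contDiff_zero.2 Ph_cont, fun k hk t => by
      rw [Nat.le_zero.1 hk, iteratedDeriv_zero]
      exact abs_Ph_le t⟩
  · obtain ⟨C, hC⟩ := DB_bu n
    exact ⟨_, DB.of_deriv Ph_deriv abs_Ph_le hC⟩

lemma iter_P (n : ℕ) : iteratedDeriv n P = fun t : ℝ => (iteratedDeriv n Pc t).re := by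
  induction n with
  | zero =>
    funext t
    rw [iteratedDeriv_zero, iteratedDeriv_zero, Pc_ofReal, Complex.ofReal_re]
  | succ n ih =>
    funext t
    rw [iteratedDeriv_succ, ih, iteratedDeriv_succ]
    have h1 : AnalyticAt ℂ Pc (t : ℂ) := Pc_analyticAt (by rw [Complex.ofReal_im, abs_zero]; exact l_pos)
    have h2 : AnalyticAt ℂ (iteratedDeriv n Pc) (t : ℂ) := by
      rw [iteratedDeriv_eq_iterate]
      exact h1.iterated_deriv n
    exact (h2.differentiableAt.hasDerivAt.real_of_complex).deriv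

lemma DB_P (n : ℕ) : ∃ C, DB n C P := by
  have h : ∀ m : ℕ, ∃ C, ∀ k ≤ m, ∀ t, |iteratedDeriv k P t| ≤ C := by
    have h0 : ∀ k : ℕ, ∃ C, ∀ t, |iteratedDeriv k P t| ≤ C := by
      intro k
      obtain ⟨C, hC, hb⟩ := Pc_deriv_exp le_rfl l_pos k
      refine ⟨C, fun t => ?_⟩
      rw [iter_P]
      have h1 := hb t (by rw [Complex.ofReal_im, abs_zero])
      have h2 : Real.exp (-(8 / 3) * |(t : ℂ).re|) ≤ 1 :=
        Real.exp_le_one_iff.2 (by have := abs_nonneg (t : ℂ).re; linarith)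
      calc |(iteratedDeriv k Pc t).re| ≤ ‖iteratedDeriv k Pc t‖ := Complex.abs_re_le_norm _
        _ ≤ C * Real.exp (-(8 / 3) * |(t : ℂ).re|) := h1
        _ ≤ C * 1 := mul_le_mul_of_nonneg_left h2 hC
        _ = C := mul_one C
    intro m
    induction m with
    | zero =>
      obtain ⟨C, hC⟩ := h0 0
      exact ⟨C, fun k hk t => by rw [Nat.le_zero.1 hk]; exact hC t⟩
    | succ m ih =>
      obtain ⟨C, hC⟩ := ih
      obtain ⟨C', hC'⟩ := h0 (m + 1)
      refine ⟨max C C', fun k hk t => ?_⟩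
      rcases Nat.lt_or_ge k (m + 1) with h1 | h1
      · exact (hC k (by omega) t).trans (le_max_left _ _)
      · rw [show k = m + 1 by omega]
        exact (hC' t).trans (le_max_right _ _)
  obtain ⟨C, hC⟩ := h n
  refine ⟨C, ?_, hC⟩
  refine contDiff_of_differentiable_iteratedDeriv fun m _ => ?_
  intro t
  rw [iter_P]
  have h1 : AnalyticAt ℂ Pc (t : ℂ) := Pc_analyticAt (by rw [Complex.ofReal_im, abs_zero]; exact l_pos)
  have h2 : AnalyticAt ℂ (iteratedDeriv m Pc) (t : ℂ) := by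
    rw [iteratedDeriv_eq_iterate]
    exact h1.iterated_deriv m
  exact (h2.differentiableAt.hasDerivAt.real_of_complex).differentiableAt

lemma G_lt (t : ℝ) : G t < 1 / 2 := by
  have h1 := Real.arctan_lt_pi_div_two (2 / √3 * Real.sinh (8 / 3 * t))
  have hpi := Real.pi_pos
  unfold G
  rw [div_mul_eq_mul_div, one_mul, div_lt_iff₀ hpi]
  linarith

lemma lt_G (t : ℝ) : -(1 / 2) < G t := by
  have h := G_lt (-t)
  rw [G_neg] at h
  linarith

lemma abs_G_le (t : ℝ) : |G t| ≤ 1 / 2 := abs_le.2 ⟨(lt_G t).le, (G_lt t).le⟩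

lemma DB_G (n : ℕ) : ∃ C, DB n C G := by
  rcases n with _ | n
  · refine ⟨1 / 2, contDiff_zero.2 (continuous_iff_continuousAt.2 fun t => (hasDerivAt_G t).continuousAt),
      fun k hk t => ?_⟩
    rw [Nat.le_zero.1 hk, iteratedDeriv_zero]
    exact abs_G_le t
  · obtain ⟨C, hC⟩ := DB_P n
    exact ⟨_, DB.of_deriv hasDerivAt_G abs_G_le hC⟩

/-- tail of `P` -/
lemma G_tail {t : ℝ} (ht : 0 ≤ t) : 1 / 2 - G t ≤ 12 / (3 * √3 * Real.pi) * Real.exp (-(8 / 3) * t) := by
  have hs := sq3_pos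
  have hpi := Real.pi_pos
  set A := 12 / (3 * √3 * Real.pi) with hA
  have hA0 : 0 < A := by positivity
  -- the function 1/2 - G - A exp(-8t/3) is increasing, with the limit 0
  set F : ℝ → ℝ := fun t => 1 / 2 - G t - A * Real.exp (-(8 / 3) * t) with hF
  have hd : ∀ t, HasDerivAt F (-P t - A * (Real.exp (-(8 / 3) * t) * (-(8 / 3)))) t := by
    intro t
    have h1 := (hasDerivAt_G t).const_sub (1 / 2)
    have h2 : HasDerivAt (fun t : ℝ => Real.exp (-(8 / 3) * t)) (Real.exp (-(8 / 3) * t) * (-(8 / 3))) t := by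
      have h3 := ((hasDerivAt_id t).const_mul (-(8 / 3))).exp
      simpa using h3
    exact h1.sub (h2.const_mul A)
  have hm : MonotoneOn F (Ici 0) := by
    refine monotoneOn_of_deriv_nonneg (convex_Ici 0) (fun x _ => (hd x).continuousAt.continuousWithinAt)
      (fun x _ => (hd x).differentiableAt.differentiableWithinAt) fun x hx => ?_
    rw [interior_Ici, Set.mem_Ioi] at hx
    rw [(hd x).deriv]
    have h1 := P_le x
    rw [abs_of_pos hx] at h1
    have h2 : 32 / (3 * √3 * Real.pi) = A * (8 / 3) := by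
      rw [hA]
      ring
    rw [h2] at h1
    nlinarith
  have hl : Tendsto F atTop (𝓝 0) := by
    have h1 : Tendsto (fun t : ℝ => Real.exp (-(8 / 3) * t)) atTop (𝓝 0) := by
      refine Real.tendsto_exp_atBot.comp ?_
      exact tendsto_id.const_mul_atTop_of_neg (by norm_num)
    have h2 := (G_top.const_sub (1 / 2)).sub (h1.const_mul A)
    have e0 : (1 / 2 - 1 / 2 - A * 0 : ℝ) = 0 := by ring
    rw [e0] at h2
    exact h2
  have h3 : F t ≤ 0 := by
    refine ge_of_tendsto hl ?_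
    filter_upwards [eventually_ge_atTop t] with s hs
    exact hm ht (ht.trans hs) hs
  simp only [hF] at h3
  linarith

/-! ### the cut distribution function -/

/-- the distribution function of `P`, cut at `|t| = R` -/
def Nc (R t : ℝ) : ℝ := Ph (t + R) * (1 + -1 * ((1 / 2 + -1 * G t) * Ph (R - t)))

/-- its derivative -/
def Pcut (R t : ℝ) : ℝ := bu (t + R) * (1 - (1 / 2 - G t) * Ph (R - t)) +
  Ph (t + R) * (P t * Ph (R - t) + (1 / 2 - G t) * bu (R - t))

lemma Nc_eq (R t : ℝ) : Nc R t = Ph (t + R) * (1 - (1 / 2 - G t) * Ph (R - t)) := by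
  unfold Nc
  ring

/-- all derivatives bounded uniformly in `R` -/
theorem Nc_DB (n : ℕ) : ∃ C, ∀ R : ℝ, DB n C (Nc R) := by
  obtain ⟨C1, h1⟩ := DB_Ph n
  obtain ⟨C2, h2⟩ := DB_G n
  exact ⟨_, fun R => (h1.shift R).mul ((DB.const n (1 : ℝ)).add
    ((((DB.const n (1 / 2 : ℝ)).add (h2.smul (-1))).mul (h1.refl R)).smul (-1)))⟩

theorem Nc_smooth (n : ℕ) (R : ℝ) : ContDiff ℝ n (Nc R) := by
  obtain ⟨C, hC⟩ := Nc_DB n
  exact (hC R).1

theorem Nc_iter (n : ℕ) : ∃ C, 0 ≤ C ∧ ∀ R : ℝ, ∀ k ≤ n, ∀ t, |iteratedDeriv k (Nc R) t| ≤ C := by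
  obtain ⟨C, hC⟩ := Nc_DB n
  exact ⟨C, (hC 0).nonneg, fun R => (hC R).2⟩

theorem Nc_deriv (R t : ℝ) : HasDerivAt (Nc R) (Pcut R t) t := by
  have h1 : HasDerivAt (fun t => Ph (t + R)) (bu (t + R)) t := HasDerivAt.comp_add_const t R (Ph_deriv (t + R))
  have h2 : HasDerivAt (fun t => Ph (R - t)) (-bu (R - t)) t := HasDerivAt.comp_const_sub R t (Ph_deriv (R - t))
  have h3 : HasDerivAt (fun t => 1 / 2 + -1 * G t) (-1 * P t) t := ((hasDerivAt_G t).const_mul (-1)).const_add _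
  have h4 := ((h3.mul h2).const_mul (-1)).const_add 1
  refine (h1.mul h4).congr_deriv ?_
  unfold Pcut
  simp only [Pi.mul_apply]
  ring

theorem Nc_left {R t : ℝ} (h : t ≤ -R - 1) : Nc R t = 0 := by
  unfold Nc
  rw [Ph_left (by linarith), zero_mul]

theorem Nc_right {R t : ℝ} (hR : 0 ≤ R) (h : R + 1 ≤ t) : Nc R t = 1 := by
  unfold Nc
  rw [Ph_right (by linarith), Ph_left (by linarith)]
  ring

theorem Nc_mid {R t : ℝ} (h : |t| ≤ R - 1) : Nc R t = 1 / 2 + G t := by
  have h1 := abs_le.1 h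
  unfold Nc
  rw [Ph_right (by linarith), Ph_right (by linarith)]
  ring

theorem Nc_nonneg (R t : ℝ) : 0 ≤ Nc R t := by
  rw [Nc_eq]
  refine mul_nonneg (Ph_nonneg _) ?_
  have h1 := G_lt t
  have h2 := lt_G t
  have h3 := Ph_nonneg (R - t)
  have h4 := Ph_le_one (R - t)
  nlinarith

theorem Nc_le_one (R t : ℝ) : Nc R t ≤ 1 := by
  rw [Nc_eq]
  have h1 := G_lt t
  have h2 := lt_G t
  have h3 := Ph_nonneg (R - t)
  have h4 := Ph_le_one (R - t)
  have h5 := Ph_nonneg (t + R)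
  have h6 := Ph_le_one (t + R)
  have h7 : 0 ≤ 1 - (1 / 2 - G t) * Ph (R - t) := by nlinarith
  have h8 : 1 - (1 / 2 - G t) * Ph (R - t) ≤ 1 := by nlinarith
  calc _ ≤ 1 * 1 := mul_le_mul h6 h8 h7 zero_le_one
    _ = 1 := one_mul 1

/-! ### `Pcut` is close to `P` -/

lemma bu_bdd : ∃ B, 0 ≤ B ∧ ∀ t, bu t ≤ B := by
  obtain ⟨C, hC⟩ := DB_bu 0
  refine ⟨C, hC.nonneg, fun t => ?_⟩
  have h := hC.2 0 le_rfl t
  rw [iteratedDeriv_zero] at h
  exact (le_abs_self _).trans h

lemma Pcut_mid {R t : ℝ} (h : |t| ≤ R - 1) : Pcut R t = P t := by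
  have h1 := abs_le.1 h
  unfold Pcut
  rw [Ph_right (by linarith), Ph_right (by linarith), bu_out (x := t + R), bu_out (x := R - t)]
  · ring
  · rw [abs_of_nonneg] <;> linarith
  · rw [abs_of_nonneg] <;> linarith

theorem Pcut_near : ∃ A, 0 ≤ A ∧ ∀ R : ℝ, 1 ≤ R → ∀ t, |P t - Pcut R t| ≤ A * Real.exp (-(8 / 3) * |t|) := by
  obtain ⟨B, hB, hb⟩ := bu_bdd
  have hs := sq3_pos
  have hpi := Real.pi_pos
  refine ⟨32 / (3 * √3 * Real.pi) + B * (12 / (3 * √3 * Real.pi)), by positivity, fun R hR t => ?_⟩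
  have hP := P_le t
  have hP0 := P_pos t
  have key : ∀ u x q : ℝ, 0 ≤ u → u ≤ 1 → 0 ≤ x → x ≤ B → 0 ≤ q →
      q ≤ 12 / (3 * √3 * Real.pi) * Real.exp (-(8 / 3) * |t|) → |P t * (1 - u) - q * x| ≤
      (32 / (3 * √3 * Real.pi) + B * (12 / (3 * √3 * Real.pi))) * Real.exp (-(8 / 3) * |t|) := by
    intro u x q hu0 hu1 hx0 hx1 hq0 hq1
    have g1 : 0 ≤ P t * (1 - u) := mul_nonneg hP0.le (by linarith)
    have g2 : P t * (1 - u) ≤ P t * 1 := mul_le_mul_of_nonneg_left (by linarith) hP0.le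
    have g3 : 0 ≤ q * x := mul_nonneg hq0 hx0
    have g4 : q * x ≤ 12 / (3 * √3 * Real.pi) * Real.exp (-(8 / 3) * |t|) * B :=
      mul_le_mul hq1 hx1 hx0 (by positivity)
    rw [abs_le]
    constructor
    · nlinarith [Real.exp_pos (-(8 / 3) * |t|)]
    · nlinarith [Real.exp_pos (-(8 / 3) * |t|)]
  rcases le_total 0 t with ht | ht
  · have e : P t - Pcut R t = P t * (1 - Ph (R - t)) - (1 / 2 - G t) * bu (R - t) := by
      unfold Pcut
      rw [Ph_right (t := t + R) (by linarith), bu_out (x := t + R) (by rw [abs_of_nonneg] <;> linarith)]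
      ring
    rw [e]
    refine key _ _ _ (Ph_nonneg _) (Ph_le_one _) (bu_nonneg _) (hb _) (by linarith [G_lt t]) ?_
    rw [abs_of_nonneg ht]
    exact G_tail ht
  · have e : P t - Pcut R t = P t * (1 - Ph (t + R)) - (1 / 2 + G t) * bu (t + R) := by
      unfold Pcut
      rw [Ph_right (t := R - t) (by linarith), bu_out (x := R - t) (by rw [abs_of_nonneg] <;> linarith)]
      ring
    rw [e]
    refine key _ _ _ (Ph_nonneg _) (Ph_le_one _) (bu_nonneg _) (hb _) (by linarith [lt_G t]) ?_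
    have h1 := G_tail (t := -t) (by linarith)
    rw [G_neg] at h1
    rw [abs_of_nonpos ht]
    linarith

lemma Pcut_cont (R : ℝ) : Continuous (Pcut R) := by
  have e : Pcut R = deriv (Nc R) := funext fun t => (Nc_deriv R t).deriv.symm
  rw [e]
  exact (Nc_smooth 1 R).continuous_deriv (by norm_num)

/-- `Pcut` is close to `P` in sup norm and in mean -/
theorem Pcut_err : ∃ A, 0 ≤ A ∧ ∀ R : ℝ, 1 ≤ R → BI (A * Real.exp (-(4 / 3) * R)) (fun t => P t - Pcut R t) ∧
    ∫ t, |P t - Pcut R t| ≤ A * Real.exp (-(4 / 3) * R) := by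
  obtain ⟨A, hA, h⟩ := Pcut_near
  have hint : Integrable fun t : ℝ => Real.exp (-(4 / 3) * |t|) := int_exp_abs (by norm_num)
  have hI0 : 0 ≤ ∫ t : ℝ, Real.exp (-(4 / 3) * |t|) := integral_nonneg fun t => (Real.exp_pos _).le
  refine ⟨A * Real.exp (4 / 3) * (1 + ∫ t : ℝ, Real.exp (-(4 / 3) * |t|)), by positivity, fun R hR => ?_⟩
  have h2 : ∀ t, |P t - Pcut R t| ≤ A * Real.exp (4 / 3) * Real.exp (-(4 / 3) * R) * Real.exp (-(4 / 3) * |t|) := by
    intro t
    rcases le_or_gt |t| (R - 1) with h3 | h3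
    · rw [Pcut_mid h3, sub_self, abs_zero]
      positivity
    · refine (h R hR t).trans ?_
      rw [mul_assoc, mul_assoc, ← Real.exp_add, ← Real.exp_add]
      exact mul_le_mul_of_nonneg_left (Real.exp_le_exp.2 (by linarith)) hA
  have hm : AEStronglyMeasurable (fun t => P t - Pcut R t) :=
    (P_cont.sub (Pcut_cont R)).aestronglyMeasurable
  have hi : Integrable fun t => P t - Pcut R t :=
    (hint.const_mul (A * Real.exp (4 / 3) * Real.exp (-(4 / 3) * R))).mono' hm (Eventually.of_forall h2)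
  refine ⟨⟨hi, fun t => (h2 t).trans ?_⟩, ?_⟩
  · have h3 : Real.exp (-(4 / 3) * |t|) ≤ 1 := Real.exp_le_one_iff.2 (by have := abs_nonneg t; linarith)
    calc A * Real.exp (4 / 3) * Real.exp (-(4 / 3) * R) * Real.exp (-(4 / 3) * |t|)
        ≤ A * Real.exp (4 / 3) * Real.exp (-(4 / 3) * R) * 1 := mul_le_mul_of_nonneg_left h3 (by positivity)
      _ ≤ A * Real.exp (4 / 3) * Real.exp (-(4 / 3) * R) * (1 + ∫ t : ℝ, Real.exp (-(4 / 3) * |t|)) :=
          mul_le_mul_of_nonneg_left (by linarith) (by positivity)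
      _ = _ := by ring
  · calc ∫ t, |P t - Pcut R t| ≤ ∫ t, A * Real.exp (4 / 3) * Real.exp (-(4 / 3) * R) * Real.exp (-(4 / 3) * |t|) :=
          integral_mono hi.abs (hint.const_mul _) h2
      _ = A * Real.exp (4 / 3) * Real.exp (-(4 / 3) * R) * ∫ t : ℝ, Real.exp (-(4 / 3) * |t|) :=
          integral_const_mul _ _
      _ ≤ A * Real.exp (4 / 3) * Real.exp (-(4 / 3) * R) * (1 + ∫ t : ℝ, Real.exp (-(4 / 3) * |t|)) :=
          mul_le_mul_of_nonneg_left (by linarith) (by positivity)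
      _ = _ := by ring

/-- `Nc` is uniformly close to the distribution function -/
theorem Nc_err : ∃ A, 0 ≤ A ∧ ∀ R : ℝ, 1 ≤ R → ∀ t, |Nc R t - (1 / 2 + G t)| ≤ A * Real.exp (-(8 / 3) * R) := by
  have hs := sq3_pos
  have hpi := Real.pi_pos
  refine ⟨12 / (3 * √3 * Real.pi) * Real.exp (8 / 3), by positivity, fun R hR t => ?_⟩
  rcases le_or_gt |t| (R - 1) with h3 | h3
  · rw [Nc_mid h3, sub_self, abs_zero]
    positivity
  · have h4 : 12 / (3 * √3 * Real.pi) * Real.exp (-(8 / 3) * |t|) ≤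
        12 / (3 * √3 * Real.pi) * Real.exp (8 / 3) * Real.exp (-(8 / 3) * R) := by
      rw [mul_assoc _ (Real.exp (8 / 3)), ← Real.exp_add]
      exact mul_le_mul_of_nonneg_left (Real.exp_le_exp.2 (by linarith)) (by positivity)
    refine le_trans ?_ h4
    have key : ∀ u q : ℝ, 0 ≤ u → u ≤ 1 → 0 ≤ q →
        q ≤ 12 / (3 * √3 * Real.pi) * Real.exp (-(8 / 3) * |t|) → |q * (1 - u)| ≤
        12 / (3 * √3 * Real.pi) * Real.exp (-(8 / 3) * |t|) := by
      intro u q hu0 hu1 hq0 hq1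
      rw [abs_of_nonneg (mul_nonneg hq0 (by linarith))]
      nlinarith
    rcases le_total 0 t with ht | ht
    · have e : Nc R t - (1 / 2 + G t) = (1 / 2 - G t) * (1 - Ph (R - t)) := by
        rw [Nc_eq, Ph_right (t := t + R) (by linarith)]
        ring
      rw [e]
      refine key _ _ (Ph_nonneg _) (Ph_le_one _) (by linarith [G_lt t]) ?_
      rw [abs_of_nonneg ht]
      exact G_tail ht
    · have e : Nc R t - (1 / 2 + G t) = -((1 / 2 + G t) * (1 - Ph (t + R))) := by
        rw [Nc_eq, Ph_right (t := R - t) (by linarith)]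
        ring
      rw [e, abs_neg]
      refine key _ _ (Ph_nonneg _) (Ph_le_one _) (by linarith [lt_G t]) ?_
      have h1 := G_tail (t := -t) (by linarith)
      rw [G_neg] at h1
      rw [abs_of_nonpos ht]
      linarith

theorem Pcut_BI : ∃ A, 0 ≤ A ∧ ∀ R : ℝ, 1 ≤ R → BI A (Pcut R) := by
  obtain ⟨A, hA, h⟩ := Pcut_err
  refine ⟨32 / (3 * √3 * Real.pi) + A, by have := P_BI.nonneg; positivity, fun R hR => ?_⟩
  obtain ⟨h1, -⟩ := h R hR
  have e : Pcut R = fun t => P t + -1 * (P t - Pcut R t) := by funext t; ring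
  have h2 := P_BI.add (h1.smul (-1))
  rw [← e] at h2
  refine ⟨h2.int, fun t => (h2.bd t).trans ?_⟩
  rw [abs_neg, abs_one, one_mul]
  have h3 : Real.exp (-(4 / 3) * R) ≤ 1 := Real.exp_le_one_iff.2 (by linarith)
  nlinarith

/-! ### the energy of a current -/

/-- energy of the current `j` (derivative `j'`) at the imaginary part `η` of the number of rows -/
def En (η : ℝ) (j' : ℝ → ℝ) : ℝ := 2 * η * (∫ t, v t * j' t) + bil j' j'

/-- **energy of the current `a0 - η Nc`, `a0' = a`** -/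
theorem En_le : ∃ A, 0 ≤ A ∧ ∀ R : ℝ, 1 ≤ R → ∀ (η M : ℝ) (a : ℝ → ℝ), BI M a →
    En η (fun t => a t - η * Pcut R t) ≤ -η ^ 2 * (∫ t, P t * v t) + kap0 * (∫ t, a t ^ 2) +
      A * (|η| * M + η ^ 2) * Real.exp (-(4 / 3) * R) := by
  obtain ⟨A, hA, h⟩ := Pcut_err
  obtain ⟨B, hB, h'⟩ := Pcut_BI
  have hk := kap0_pos
  refine ⟨kap0 * (2 * A + A * A), by positivity, fun R hR η M a ha => ?_⟩
  obtain ⟨hd, hd1⟩ := h R hR
  have e := energy_eq ha (h' R hR) η
  unfold En
  rw [e]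
  have h1 := bil_self_le ha
  set ε := Real.exp (-(4 / 3) * R) with hε
  have hε0 : 0 < ε := Real.exp_pos _
  have hε1 : ε ≤ 1 := Real.exp_le_one_iff.2 (by linarith)
  have hM := ha.nonneg
  have h2 : |bil a (fun t => P t - Pcut R t)| ≤ kap0 * M * (A * ε) := by
    rw [ha.symm hd]
    exact (bil_abs hd.int ha.bd).trans (mul_le_mul_of_nonneg_left hd1 (by positivity))
  have h3 : bil (fun t => P t - Pcut R t) (fun t => P t - Pcut R t) ≤ kap0 * (A * ε) * (A * ε) := by
    refine (le_abs_self _).trans ((bil_abs hd.int hd.bd).trans (mul_le_mul_of_nonneg_left hd1 (by positivity)))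
  have h4 : 2 * η * bil a (fun t => P t - Pcut R t) ≤ 2 * |η| * (kap0 * M * (A * ε)) := by
    calc 2 * η * bil a (fun t => P t - Pcut R t) ≤ |2 * η * bil a (fun t => P t - Pcut R t)| := le_abs_self _
      _ = 2 * |η| * |bil a (fun t => P t - Pcut R t)| := by rw [abs_mul, abs_mul, abs_two]
      _ ≤ _ := mul_le_mul_of_nonneg_left h2 (by positivity)
  have h5 : η ^ 2 * bil (fun t => P t - Pcut R t) (fun t => P t - Pcut R t) ≤ η ^ 2 * (kap0 * (A * ε) * (A * ε)) :=
    mul_le_mul_of_nonneg_left h3 (sq_nonneg _)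
  have h6 : η ^ 2 * (kap0 * (A * ε) * (A * ε)) ≤ η ^ 2 * (kap0 * (A * A) * ε) := by
    refine mul_le_mul_of_nonneg_left ?_ (sq_nonneg _)
    have : kap0 * (A * ε) * (A * ε) = kap0 * (A * A) * ε * ε := by ring
    rw [this]
    exact mul_le_of_le_one_right (by positivity) hε1
  have h7 : 2 * |η| * (kap0 * M * (A * ε)) + η ^ 2 * (kap0 * (A * A) * ε) ≤
      kap0 * (2 * A + A * A) * (|η| * M + η ^ 2) * ε := by
    have g1 : 0 ≤ kap0 * (A * A) * (|η| * M) * ε := by positivity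
    have g2 : 0 ≤ kap0 * (2 * A) * η ^ 2 * ε := by positivity
    nlinarith
  linarith

/-! ### the constant current -/

/-- plateau of half length `D` -/
def chi (D t : ℝ) : ℝ := Ph (t + D) * Ph (D - t)

/-- its derivative -/
def chi' (D t : ℝ) : ℝ := bu (t + D) * Ph (D - t) - Ph (t + D) * bu (D - t)

theorem chi_DB (n : ℕ) : ∃ C, ∀ D : ℝ, DB n C (chi D) := by
  obtain ⟨C1, h1⟩ := DB_Ph n
  exact ⟨_, fun D => (h1.shift D).mul (h1.refl D)⟩

theorem chi_smooth (n : ℕ) (D : ℝ) : ContDiff ℝ n (chi D) := by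
  obtain ⟨C, hC⟩ := chi_DB n
  exact (hC D).1

theorem chi_iter (n : ℕ) : ∃ C, 0 ≤ C ∧ ∀ D : ℝ, ∀ k ≤ n, ∀ t, |iteratedDeriv k (chi D) t| ≤ C := by
  obtain ⟨C, hC⟩ := chi_DB n
  exact ⟨C, (hC 0).nonneg, fun D => (hC D).2⟩

theorem chi_deriv (D t : ℝ) : HasDerivAt (chi D) (chi' D t) t := by
  have h1 : HasDerivAt (fun t => Ph (t + D)) (bu (t + D)) t := HasDerivAt.comp_add_const t D (Ph_deriv (t + D))
  have h2 : HasDerivAt (fun t => Ph (D - t)) (-bu (D - t)) t := HasDerivAt.comp_const_sub D t (Ph_deriv (D - t))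
  refine (h1.mul h2).congr_deriv ?_
  unfold chi'
  ring

theorem chi_nonneg (D t : ℝ) : 0 ≤ chi D t := mul_nonneg (Ph_nonneg _) (Ph_nonneg _)

theorem chi_le_one (D t : ℝ) : chi D t ≤ 1 := by
  have := mul_le_mul (Ph_le_one (t + D)) (Ph_le_one (D - t)) (Ph_nonneg _) zero_le_one
  rw [one_mul] at this
  exact this

theorem chi_one {D t : ℝ} (h : |t| ≤ D - 1) : chi D t = 1 := by
  have h1 := abs_le.1 h
  unfold chi
  rw [Ph_right (by linarith), Ph_right (by linarith), one_mul]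

theorem chi_zero {D t : ℝ} (h : D + 1 ≤ |t|) : chi D t = 0 := by
  unfold chi
  rcases le_abs.1 h with h1 | h1
  · rw [Ph_left (t := D - t) (by linarith), mul_zero]
  · rw [Ph_left (t := t + D) (by linarith), zero_mul]

/-- the derivative of the plateau is small in mean -/
theorem chi'_BI : ∃ C, 0 ≤ C ∧ ∀ D : ℝ, BI C (chi' D) ∧ ∫ t, |chi' D t| ≤ C ∧ ∫ t, chi' D t ^ 2 ≤ C := by
  obtain ⟨B, hB, hb⟩ := bu_bdd
  have hbi : Integrable bu := by
    have h1 : HasCompactSupport bu := by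
      refine HasCompactSupport.intro (isCompact_Icc (a := (-1 : ℝ)) (b := 1)) fun x hx => bu_out ?_
      by_contra h
      exact hx (abs_le.1 (not_le.1 h).le)
    exact bu_cont.integrable_of_hasCompactSupport h1
  refine ⟨2 + 2 * B + 2 * B * 2, by positivity, fun D => ?_⟩
  have i1 : Integrable fun t => bu (t + D) := hbi.comp_add_right D
  have i2 : Integrable fun t => bu (D - t) := hbi.comp_sub_left D
  have e1 : ∫ t, bu (t + D) = 1 := by rw [integral_add_right_eq_self bu D]; exact bu_int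
  have e2 : ∫ t, bu (D - t) = 1 := by rw [integral_sub_left_eq_self bu volume D]; exact bu_int
  have hle : ∀ t, |chi' D t| ≤ bu (t + D) + bu (D - t) := by
    intro t
    unfold chi'
    have a1 := bu_nonneg (t + D)
    have a2 := bu_nonneg (D - t)
    have a3 := Ph_nonneg (t + D)
    have a4 := Ph_nonneg (D - t)
    have a5 := Ph_le_one (t + D)
    have a6 := Ph_le_one (D - t)
    rw [abs_le]
    constructor <;> nlinarith
  have hcont : Continuous (chi' D) := by
    have e : chi' D = deriv (chi D) := funext fun t => (chi_deriv D t).deriv.symm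
    rw [e]
    exact (chi_smooth 1 D).continuous_deriv (by norm_num)
  have hi : Integrable (chi' D) := (i1.add i2).mono' hcont.aestronglyMeasurable (Eventually.of_forall hle)
  have hbd : ∀ t, |chi' D t| ≤ 2 * B := fun t => (hle t).trans (by linarith [hb (t + D), hb (D - t)])
  have hm : ∫ t, |chi' D t| ≤ 2 := by
    calc ∫ t, |chi' D t| ≤ ∫ t, (bu (t + D) + bu (D - t)) := integral_mono hi.abs (i1.add i2) hle
      _ = 2 := by rw [integral_add i1 i2, e1, e2]; norm_num
  refine ⟨⟨hi, fun t => (hbd t).trans (by linarith)⟩, hm.trans (by linarith), ?_⟩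
  have h2 : ∀ t, chi' D t ^ 2 ≤ 2 * B * |chi' D t| := by
    intro t
    rw [← sq_abs, sq]
    exact mul_le_mul_of_nonneg_right (hbd t) (abs_nonneg _)
  have hsq : Integrable fun t => chi' D t ^ 2 :=
    (hi.abs.const_mul (2 * B)).mono' (hcont.pow 2).aestronglyMeasurable (Eventually.of_forall fun t => by
      rw [Real.norm_eq_abs, abs_of_nonneg (sq_nonneg _)]
      exact h2 t)
  calc ∫ t, chi' D t ^ 2 ≤ ∫ t, 2 * B * |chi' D t| := integral_mono hsq (hi.abs.const_mul _) h2
    _ = 2 * B * ∫ t, |chi' D t| := integral_const_mul _ _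
    _ ≤ 2 * B * 2 := mul_le_mul_of_nonneg_left hm (by positivity)
    _ ≤ _ := by linarith

/-- **energy of the total current `Jt + K chi - η Nc`** (board/CR, B2) -/
theorem En_total : ∃ A, 0 ≤ A ∧ ∀ R : ℝ, 1 ≤ R → ∀ (D η K M : ℝ) (a : ℝ → ℝ), BI M a →
    En η (fun t => (a t + K * chi' D t) - η * Pcut R t) ≤ -η ^ 2 * (∫ t, P t * v t) + kap0 * (∫ t, a t ^ 2) +
      A * (|K| * M + K ^ 2) + A * (|η| * (M + |K|) + η ^ 2) * Real.exp (-(4 / 3) * R) := by
  obtain ⟨A, hA, h⟩ := En_le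
  obtain ⟨B, hB, h'⟩ := chi'_BI
  have hk := kap0_pos
  refine ⟨A * (1 + B) + kap0 * (3 * B), by positivity, fun R hR D η K M a ha => ?_⟩
  obtain ⟨hc, hc1, hc2⟩ := h' D
  have hM := ha.nonneg
  have haK := ha.add (hc.smul K)
  have h1 := h R hR η _ _ haK
  refine h1.trans ?_
  have hsqa : Integrable fun t => a t ^ 2 := by
    refine (ha.int.mul_bdd (c := M) ha.meas (Eventually.of_forall ha.bd)).congr (Eventually.of_forall fun t => ?_)
    simp only
    ring
  have hsqc : Integrable fun t => chi' D t ^ 2 := by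
    refine (hc.int.mul_bdd (c := B) hc.meas (Eventually.of_forall hc.bd)).congr (Eventually.of_forall fun t => ?_)
    simp only
    ring
  have h2 : ∫ t, (a t + K * chi' D t) ^ 2 ≤ (∫ t, a t ^ 2) + (2 * |K| * M * B + K ^ 2 * B) := by
    have hle : ∀ t, (a t + K * chi' D t) ^ 2 ≤ a t ^ 2 + (2 * |K| * M * |chi' D t| + K ^ 2 * chi' D t ^ 2) := by
      intro t
      have g1 : 2 * (a t * (K * chi' D t)) ≤ 2 * (M * (|K| * |chi' D t|)) := by
        refine mul_le_mul_of_nonneg_left ((le_abs_self _).trans ?_) zero_le_two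
        rw [abs_mul, abs_mul]
        exact mul_le_mul_of_nonneg_right (ha.bd t) (by positivity)
      nlinarith
    have i3 : Integrable fun t => (a t + K * chi' D t) ^ 2 := by
      have g := haK.int.mul_bdd haK.meas (Eventually.of_forall haK.bd)
      refine g.congr (Eventually.of_forall fun t => ?_)
      simp only
      ring
    have i4 := (hc.int.abs.const_mul (2 * |K| * M)).add (hsqc.const_mul (K ^ 2))
    calc ∫ t, (a t + K * chi' D t) ^ 2
        ≤ ∫ t, (a t ^ 2 + (2 * |K| * M * |chi' D t| + K ^ 2 * chi' D t ^ 2)) := integral_mono i3 (hsqa.add i4) hle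
      _ = (∫ t, a t ^ 2) + (2 * |K| * M * (∫ t, |chi' D t|) + K ^ 2 * ∫ t, chi' D t ^ 2) := by
          have q1 := integral_add hsqa i4
          have q2 := integral_add (hc.int.abs.const_mul (2 * |K| * M)) (hsqc.const_mul (K ^ 2))
          simp only [Pi.add_apply] at q1
          rw [q1, q2, integral_const_mul, integral_const_mul]
      _ ≤ _ := by
          have g1 : 2 * |K| * M * (∫ t, |chi' D t|) ≤ 2 * |K| * M * B := mul_le_mul_of_nonneg_left hc1 (by positivity)
          have g2 : K ^ 2 * (∫ t, chi' D t ^ 2) ≤ K ^ 2 * B := mul_le_mul_of_nonneg_left hc2 (by positivity)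
          linarith
  have h3 := mul_le_mul_of_nonneg_left h2 hk.le
  set ε := Real.exp (-(4 / 3) * R) with hε
  have hε0 : 0 < ε := Real.exp_pos _
  have h4 : A * (|η| * (M + |K| * B) + η ^ 2) * ε ≤
      (A * (1 + B) + kap0 * (3 * B)) * (|η| * (M + |K|) + η ^ 2) * ε := by
    refine mul_le_mul_of_nonneg_right ?_ hε0.le
    have g0 : 0 ≤ |η| * M := by positivity
    have g1 : 0 ≤ |η| * |K| := by positivity
    have g2 : 0 ≤ kap0 * (3 * B) * (|η| * (M + |K|) + η ^ 2) := by positivity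
    have g3 : 0 ≤ A * (|η| * |K|) := by positivity
    have g4 : 0 ≤ A * B * (|η| * M) := by positivity
    have g5 : 0 ≤ A * B * η ^ 2 := by positivity
    nlinarith
  have h5 : kap0 * (2 * |K| * M * B + K ^ 2 * B) ≤ (A * (1 + B) + kap0 * (3 * B)) * (|K| * M + K ^ 2) := by
    have g0 : 0 ≤ |K| * M := by positivity
    have g1 : 0 ≤ A * (1 + B) * (|K| * M + K ^ 2) := by positivity
    have g2 : 0 ≤ kap0 * B * (|K| * M) := by positivity
    have g3 : 0 ≤ kap0 * B * K ^ 2 := by positivity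
    nlinarith
  have h6 : kap0 * ((∫ t, a t ^ 2) + (2 * |K| * M * B + K ^ 2 * B)) =
      kap0 * (∫ t, a t ^ 2) + kap0 * (2 * |K| * M * B + K ^ 2 * B) := by ring
  rw [h6] at h3
  linarith

end

end NUCR
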