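import Pool.Agent.NUCR.VcD
import Pool.Agent.NUCR.G0

/-!
# The response to a constant potential cut at `|t| = T`

`rz = (4 P - P'') / (4 kap0)`, `bz = (4 v - v'') / (4 kap0)`, `V * rz = bz`, `bz > 0`, `∫ bz = 1`,
`bz ≤ C exp (-4 |t|)` (the combination kills the tail `exp (-2 |t|)` of `v`).
`nu0 T t = ∫ u in t - T .. t + T, rz u`, `chi0 T t = ∫ u in t - T .. t + T, bz u`:
`V * nu0 T = chi0 T`, `0 ≤ chi0 ≤ 1`, `1 - chi0 ≤ C exp (-4 (T - |t|))`,
`∫ P (1 - chi0) ≤ C exp (-(8/3) T)`, `∫ nu0 (V * nu0) ≤ 2 T / kap0 + C`.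
-/

set_option autoImplicit false

open MeasureTheory Set Filter Topology

namespace NUCR

open NUMF NUKer

noncomputable section

/-! ### derivatives of `P` -/

/-- `P'` -/
def Pd (t : ℝ) : ℝ := iteratedDeriv 1 P t

/-- `P''` -/
def Pdd (t : ℝ) : ℝ := iteratedDeriv 2 P t

lemma P_smooth (n : ℕ) : ContDiff ℝ n P := by
  obtain ⟨C, hC⟩ := DB_P n
  exact hC.1

lemma hasDerivAt_P (t : ℝ) : HasDerivAt P (Pd t) t := by
  unfold Pd
  rw [iteratedDeriv_one]
  exact ((P_smooth 1).differentiable (by norm_num)).differentiableAt.hasDerivAt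

lemma hasDerivAt_Pd (t : ℝ) : HasDerivAt Pd (Pdd t) t := by
  have h1 : Differentiable ℝ (iteratedDeriv 1 P) :=
    (P_smooth 2).differentiable_iteratedDeriv 1 (by norm_num)
  have h2 := (h1 t).hasDerivAt
  have e : deriv (iteratedDeriv 1 P) t = Pdd t := by
    unfold Pdd
    rw [show (2 : ℕ) = 1 + 1 from rfl, iteratedDeriv_succ (n := 1)]
  rw [e] at h2
  exact h2

lemma Pd_cont : Continuous Pd := continuous_iff_continuousAt.2 fun t => (hasDerivAt_Pd t).continuousAt

lemma Pdd_cont : Continuous Pdd := (P_smooth 2).continuous_iteratedDeriv 2 le_rfl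

lemma exists_Pexp : ∃ C : ℝ, 0 ≤ C ∧ ∀ t : ℝ, P t ≤ C * Real.exp (-(8 / 3) * |t|) ∧
    |Pd t| ≤ C * Real.exp (-(8 / 3) * |t|) ∧ |Pdd t| ≤ C * Real.exp (-(8 / 3) * |t|) := by
  have h : ∀ k : ℕ, ∃ C : ℝ, 0 ≤ C ∧ ∀ t : ℝ, |iteratedDeriv k P t| ≤ C * Real.exp (-(8 / 3) * |t|) := by
    intro k
    obtain ⟨C, hC, hb⟩ := Pc_deriv_exp le_rfl l_pos k
    refine ⟨C, hC, fun t => ?_⟩
    rw [iter_P]
    have h1 := hb t (by rw [Complex.ofReal_im, abs_zero])
    rw [Complex.ofReal_re] at h1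
    exact (Complex.abs_re_le_norm _).trans h1
  obtain ⟨C0, h0, b0⟩ := h 0
  obtain ⟨C1, h1, b1⟩ := h 1
  obtain ⟨C2, h2, b2⟩ := h 2
  refine ⟨C0 + C1 + C2, by positivity, fun t => ?_⟩
  have he := Real.exp_pos (-(8 / 3) * |t|)
  have q0 := b0 t
  have q1 := b1 t
  have q2 := b2 t
  rw [iteratedDeriv_zero] at q0
  refine ⟨(le_abs_self _).trans (q0.trans ?_), q1.trans ?_, q2.trans ?_⟩ <;>
    exact mul_le_mul_of_nonneg_right (by linarith) he.le

/-! ### derivatives of `v` -/

/-- `v'` -/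
def v1 (t : ℝ) : ℝ := (vd t).re

/-- `v''` -/
def v2 (t : ℝ) : ℝ := (vdd t).re

lemma hasDerivAt_v (t : ℝ) : HasDerivAt v (v1 t) t := by
  have h1 : HasDerivAt (fun t : ℝ => NUMF.vc t) (vd t) t :=
    (hasDerivAt_vcN (z := (t : ℂ)) (by simpa using l_pos)).comp_ofReal
  have h2 : HasDerivAt (fun t : ℝ => (v t : ℂ)) (vd t) t := by
    refine h1.congr_of_eventuallyEq (Eventually.of_forall fun t => ?_)
    exact (NUMF.vc_ofReal t).symm
  exact Complex.reCLM.hasFDerivAt.comp_hasDerivAt t h2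

lemma hasDerivAt_v1 (t : ℝ) : HasDerivAt v1 (v2 t) t := by
  have h1 : HasDerivAt (fun t : ℝ => vd t) (vdd t) t :=
    (hasDerivAt_vd (z := (t : ℂ)) (by simpa using l_pos)).comp_ofReal
  exact Complex.reCLM.hasFDerivAt.comp_hasDerivAt t h1

lemma v_cont : Continuous v := continuous_iff_continuousAt.2 fun t => (hasDerivAt_v t).continuousAt

lemma v1_cont : Continuous v1 := continuous_iff_continuousAt.2 fun t => (hasDerivAt_v1 t).continuousAt

/-- explicit second derivative -/
lemma v2_eq (t : ℝ) : v2 t = 4 / (1 + Real.cosh (2 * t)) -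
    4 * (1 - r * Real.cosh (2 * t)) / (Real.cosh (2 * t) - r) ^ 2 := by
  have hr := NUMF.r_pos
  have hr1 := NUMF.r_lt_one
  have h1 := Real.one_le_cosh (2 * t)
  have hs := Real.cosh_sq (2 * t)
  obtain ⟨X, hX⟩ : ∃ X : ℝ, X = Real.cosh (2 * t) := ⟨_, rfl⟩
  obtain ⟨S, hS⟩ : ∃ S : ℝ, S = Real.sinh (2 * t) := ⟨_, rfl⟩
  have e1 : Complex.cosh (2 * (t : ℂ)) = (X : ℂ) := by
    rw [hX]
    push_cast
    rfl
  have e2 : Complex.sinh (2 * (t : ℂ)) = (S : ℂ) := by
    rw [hS]
    push_cast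
    rfl
  rw [← hX] at h1 hs ⊢
  rw [← hS] at hs
  have g1 : X + 1 ≠ 0 := by positivity
  have g2 : X - r ≠ 0 := by
    have : 0 < X - r := by linarith
    exact this.ne'
  have e3 : vdd t = ((-(2 * (1 + r)) * ((2 * X * ((X + 1) * (X - r)) - S * (2 * S * (X - r) +
      (X + 1) * (2 * S))) / ((X + 1) * (X - r)) ^ 2) : ℝ) : ℂ) := by
    unfold vdd
    rw [e1, e2]
    push_cast
    ring
  unfold v2
  rw [e3, Complex.ofReal_re]
  have hS2 : S ^ 2 = X ^ 2 - 1 := by linarith
  have g3 : (1 : ℝ) + X ≠ 0 := by rw [add_comm]; exact g1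
  field_simp
  have e4 : S ^ 2 = X ^ 2 - 1 := hS2
  ring_nf
  rw [e4]
  have hr2 : r ^ 2 = 1 / 2 := by
    unfold r
    rw [div_pow, Real.sq_sqrt (by norm_num)]
    norm_num
  ring_nf

lemma v2_cont : Continuous v2 := by
  have e : v2 = fun t => 4 / (1 + Real.cosh (2 * t)) -
      4 * (1 - r * Real.cosh (2 * t)) / (Real.cosh (2 * t) - r) ^ 2 := funext v2_eq
  rw [e]
  have hc : Continuous fun t : ℝ => Real.cosh (2 * t) :=
    Real.continuous_cosh.comp (continuous_const.mul continuous_id)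
  refine (continuous_const.div (continuous_const.add hc) fun t => ?_).sub
    ((continuous_const.mul (continuous_const.sub (continuous_const.mul hc))).div
      ((hc.sub continuous_const).pow 2) fun t => ?_)
  · have := Real.one_le_cosh (2 * t)
    have h2 : 0 < 1 + Real.cosh (2 * t) := by linarith
    exact h2.ne'
  · exact pow_ne_zero 2 (cm_r t).ne'

lemma exists_vexp : ∃ A : ℝ, 0 ≤ A ∧ ∀ t : ℝ, |v1 t| ≤ A * Real.exp (-2 * |t|) ∧
    |v2 t| ≤ A * Real.exp (-2 * |t|) := by
  obtain ⟨A, hA, hb⟩ := vd_bound le_rfl l_pos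
  refine ⟨A, hA, fun t => ?_⟩
  obtain ⟨h1, h2⟩ := hb t (by rw [Complex.ofReal_im, abs_zero])
  rw [Complex.ofReal_re] at h1 h2
  exact ⟨(Complex.abs_re_le_norm _).trans h1, (Complex.abs_re_le_norm _).trans h2⟩

/-! ### `V *` and derivatives -/

lemma cv_form (f : ℝ → ℝ) (t : ℝ) : cv f t = ∫ u, V u * f (t - u) := by
  unfold cv
  rw [← integral_sub_left_eq_self (fun u => V u * f (t - u)) volume t]
  simp

/-- `(V * f)' = V * f'` -/
lemma cv_hasDerivAt {f f1 : ℝ → ℝ} {M : ℝ} (hd : ∀ t, HasDerivAt f (f1 t) t) (hM : ∀ t, |f t| ≤ M)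
    (hM1 : ∀ t, |f1 t| ≤ M) (hc1 : Continuous f1) (t : ℝ) : HasDerivAt (cv f) (cv f1 t) t := by
  have hc : Continuous f := continuous_iff_continuousAt.2 fun t => (hd t).continuousAt
  have e1 : cv f = fun t => ∫ u, V u * f (t - u) := funext fun t => cv_form f t
  have hm : ∀ (g : ℝ → ℝ), Continuous g → ∀ x : ℝ, AEStronglyMeasurable (fun u => g (x - u)) volume :=
    fun g hg x => (hg.comp (continuous_const.sub continuous_id)).aestronglyMeasurable
  rw [e1, cv_form]
  refine (hasDerivAt_integral_of_dominated_loc_of_deriv_le (F := fun t u => V u * f (t - u))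
    (F' := fun t u => V u * f1 (t - u)) (bound := fun u => |V u| * M) (s := univ) univ_mem
    (Eventually.of_forall fun x => V_int.aestronglyMeasurable.mul (hm f hc x)) ?_
    (V_int.aestronglyMeasurable.mul (hm f1 hc1 t)) ?_ (V_int.abs.mul_const M) ?_).2
  · exact V_int.mul_bdd (c := M) (hm f hc t) (Eventually.of_forall fun u => hM _)
  · refine Eventually.of_forall fun u x _ => ?_
    rw [norm_mul, Real.norm_eq_abs, Real.norm_eq_abs]
    exact mul_le_mul_of_nonneg_left (hM1 _) (abs_nonneg _)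
  · refine Eventually.of_forall fun u x _ => ?_
    have h1 : HasDerivAt (fun x : ℝ => f (x - u)) (f1 (x - u)) x := by
      simpa using (hd (x - u)).comp_sub_const x u
    exact h1.const_mul (V u)

lemma cv_Pd (t : ℝ) : cv Pd t = v1 t := by
  obtain ⟨C, hC, hb⟩ := exists_Pexp
  have hle : ∀ x : ℝ, C * Real.exp (-(8 / 3) * |x|) ≤ C := fun x =>
    mul_le_of_le_one_right hC (Real.exp_le_one_iff.2 (by have := abs_nonneg x; linarith))
  have h1 := cv_hasDerivAt (M := C) hasDerivAt_P (fun t => by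
    rw [abs_of_pos (P_pos t)]; exact (hb t).1.trans (hle t)) (fun t => (hb t).2.1.trans (hle t)) Pd_cont t
  have e : cv P = v := funext cv_P
  rw [e] at h1
  exact h1.unique (hasDerivAt_v t)

lemma cv_Pdd (t : ℝ) : cv Pdd t = v2 t := by
  obtain ⟨C, hC, hb⟩ := exists_Pexp
  have hle : ∀ x : ℝ, C * Real.exp (-(8 / 3) * |x|) ≤ C := fun x =>
    mul_le_of_le_one_right hC (Real.exp_le_one_iff.2 (by have := abs_nonneg x; linarith))
  have h1 := cv_hasDerivAt (M := C) hasDerivAt_Pd (fun t => (hb t).2.1.trans (hle t))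
    (fun t => (hb t).2.2.trans (hle t)) Pdd_cont t
  have e : cv Pd = v1 := funext cv_Pd
  rw [e] at h1
  exact h1.unique (hasDerivAt_v1 t)

/-! ### the two profiles -/

/-- the density of a unit step -/
def rz (t : ℝ) : ℝ := (4 * P t - Pdd t) / (4 * kap0)

/-- its potential -/
def bz (t : ℝ) : ℝ := (4 * v t - v2 t) / (4 * kap0)

lemma rz_cont : Continuous rz :=
  ((continuous_const.mul P_cont).sub Pdd_cont).div_const _

lemma bz_cont : Continuous bz :=
  ((continuous_const.mul v_cont).sub v2_cont).div_const _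

lemma exists_rz : ∃ C : ℝ, 1 ≤ C ∧ ∀ t : ℝ, |rz t| ≤ C * Real.exp (-(8 / 3) * |t|) := by
  obtain ⟨C, hC, hb⟩ := exists_Pexp
  have hk := kap0_pos
  refine ⟨5 * C / (4 * kap0) + 1, by
    have : 0 ≤ 5 * C / (4 * kap0) := by positivity
    linarith, fun t => ?_⟩
  have he := Real.exp_pos (-(8 / 3) * |t|)
  obtain ⟨b0, -, b2⟩ := hb t
  have h1 : |4 * P t - Pdd t| ≤ 5 * C * Real.exp (-(8 / 3) * |t|) := by
    refine (abs_sub _ _).trans ?_
    rw [abs_mul, abs_of_pos (P_pos t), abs_of_pos (by norm_num : (0 : ℝ) < 4)]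
    linarith
  unfold rz
  rw [abs_div, abs_of_pos (by positivity : 0 < 4 * kap0), div_le_iff₀ (by positivity)]
  have e : (5 * C / (4 * kap0) + 1) * Real.exp (-(8 / 3) * |t|) * (4 * kap0) =
      5 * C * Real.exp (-(8 / 3) * |t|) + 4 * kap0 * Real.exp (-(8 / 3) * |t|) := by
    field_simp
  rw [e]
  have : 0 ≤ 4 * kap0 * Real.exp (-(8 / 3) * |t|) := by positivity
  linarith

lemma int_abs_exp {c : ℝ} (hc : 0 < c) : Integrable fun t : ℝ => Real.exp (-c * |t|) := NUMF.int_exp_abs hc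

/-- a continuous function with an exponential bound is integrable -/
lemma integrable_of_exp {f : ℝ → ℝ} {C c : ℝ} (hc : 0 < c) (hf : Continuous f)
    (hb : ∀ t, |f t| ≤ C * Real.exp (-c * |t|)) : Integrable f :=
  ((int_abs_exp hc).const_mul C).mono' hf.aestronglyMeasurable (Eventually.of_forall fun t => hb t)

lemma rz_int : Integrable rz := by
  obtain ⟨C, hC, hb⟩ := exists_rz
  exact integrable_of_exp (by norm_num) rz_cont hb

lemma rz_bdd : ∃ C : ℝ, 1 ≤ C ∧ ∀ t, |rz t| ≤ C := by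
  obtain ⟨C, hC, hb⟩ := exists_rz
  refine ⟨C, hC, fun t => (hb t).trans ?_⟩
  exact mul_le_of_le_one_right (by linarith)
    (Real.exp_le_one_iff.2 (by have := abs_nonneg t; linarith))

/-- `V * rz = bz` -/
lemma cv_rz (t : ℝ) : cv rz t = bz t := by
  obtain ⟨C, hC, hb⟩ := exists_Pexp
  have hle : ∀ x : ℝ, C * Real.exp (-(8 / 3) * |x|) ≤ C := fun x =>
    mul_le_of_le_one_right hC (Real.exp_le_one_iff.2 (by have := abs_nonneg x; linarith))
  have e : rz = fun t => (1 / kap0) * P t + (-(1 / (4 * kap0))) * Pdd t := by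
    funext t
    have := kap0_pos
    unfold rz
    field_simp
    ring
  have h1 : ∀ t, |(1 / kap0) * P t| ≤ |1 / kap0| * C := fun t => by
    rw [abs_mul, abs_of_pos (P_pos t)]
    exact mul_le_mul_of_nonneg_left ((hb t).1.trans (hle t)) (abs_nonneg _)
  have h2 : ∀ t, |(-(1 / (4 * kap0))) * Pdd t| ≤ |(-(1 / (4 * kap0)))| * C := fun t => by
    rw [abs_mul]
    exact mul_le_mul_of_nonneg_left ((hb t).2.2.trans (hle t)) (abs_nonneg _)
  have m1 : AEStronglyMeasurable (fun t => (1 / kap0) * P t) volume :=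
    (continuous_const.mul P_cont).aestronglyMeasurable
  have m2 : AEStronglyMeasurable (fun t => (-(1 / (4 * kap0))) * Pdd t) volume :=
    (continuous_const.mul Pdd_cont).aestronglyMeasurable
  rw [e, cv_add m1 h1 m2 h2, cv_smul, cv_smul, cv_P, cv_Pdd]
  have := kap0_pos
  unfold bz
  field_simp
  ring

/-! ### positivity and decay of `bz` -/

lemma r_sq : r ^ 2 = 1 / 2 := by
  unfold r
  rw [div_pow, Real.sq_sqrt (by norm_num)]
  norm_num

lemma r_lt : r < 3 / 4 := by
  have h1 := NUMF.r_pos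
  have h2 := r_sq
  nlinarith

/-- explicit form -/
lemma bz_eq (t : ℝ) : bz t = (Real.log (1 + (1 + r) / (Real.cosh (2 * t) - r)) -
    1 / (Real.cosh (2 * t) - r + (1 + r)) +
    (1 - r ^ 2 - r * (Real.cosh (2 * t) - r)) / (Real.cosh (2 * t) - r) ^ 2) / kap0 := by
  have hk := kap0_pos
  have hY := cm_r t
  have e1 : v t = Real.log (1 + (1 + r) / (Real.cosh (2 * t) - r)) := by
    unfold v
    congr 1
    field_simp
    ring
  unfold bz
  rw [v2_eq, ← e1]
  have h1 := Real.one_le_cosh (2 * t)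
  have e2 : Real.cosh (2 * t) - r + (1 + r) = 1 + Real.cosh (2 * t) := by ring
  have e3 : 1 - r ^ 2 - r * (Real.cosh (2 * t) - r) = 1 - r * Real.cosh (2 * t) := by ring
  rw [e2, e3]
  field_simp
  ring

lemma bz_pos (t : ℝ) : 0 < bz t := by
  rw [bz_eq]
  refine div_pos ?_ kap0_pos
  have hY := cm_r t
  obtain ⟨Y, hYd⟩ : ∃ Y : ℝ, Y = Real.cosh (2 * t) - r := ⟨_, rfl⟩
  rw [← hYd] at hY ⊢
  have hr := NUMF.r_pos
  have hr1 := NUMF.r_lt_one
  have hr2 := r_lt
  have h1 := Real.le_log_one_add_of_nonneg (x := (1 + r) / Y) (by positivity)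
  have e1 : 2 * ((1 + r) / Y) / ((1 + r) / Y + 2) = 2 * (1 + r) / (2 * Y + (1 + r)) := by
    field_simp
    ring
  rw [e1] at h1
  have h2 : 0 < 2 * (1 + r) / (2 * Y + (1 + r)) - 1 / (Y + (1 + r)) +
      (1 - r ^ 2 - r * Y) / Y ^ 2 := by
    have e2 : 2 * (1 + r) / (2 * Y + (1 + r)) - 1 / (Y + (1 + r)) + (1 - r ^ 2 - r * Y) / Y ^ 2 =
        (1 + r) * (3 * (1 - r) * Y ^ 2 + (1 + r) * (3 - 4 * r) * Y + (1 + r) ^ 2 * (1 - r)) /
          (Y ^ 2 * (Y + (1 + r)) * (2 * Y + (1 + r))) := by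
      field_simp
      ring
    rw [e2]
    have a1 : 0 < 1 - r := by linarith
    have a2 : 0 < 3 - 4 * r := by linarith
    positivity
  linarith

lemma exists_bz : ∃ C : ℝ, 1 ≤ C ∧ ∀ t : ℝ, bz t ≤ C * Real.exp (-4 * |t|) := by
  have hk := kap0_pos
  have hr := NUMF.r_pos
  have hr1 := NUMF.r_lt_one
  have a1 : 0 < 1 - r := by linarith
  refine ⟨(2 + r) / kap0 * (4 / (1 - r) ^ 2) + 1, by
    have : 0 ≤ (2 + r) / kap0 * (4 / (1 - r) ^ 2) := by positivity
    linarith, fun t => ?_⟩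
  rw [bz_eq]
  have hY := cm_r t
  have hX1 := Real.one_le_cosh (2 * t)
  have hXe := cosh_ge_exp (2 * t)
  rw [abs_mul, abs_two] at hXe
  obtain ⟨Y, hYd⟩ : ∃ Y : ℝ, Y = Real.cosh (2 * t) - r := ⟨_, rfl⟩
  rw [← hYd] at hY ⊢
  have h1 : Real.log (1 + (1 + r) / Y) ≤ (1 + r) / Y := by
    have := Real.log_le_sub_one_of_pos (x := 1 + (1 + r) / Y) (by positivity)
    linarith
  have h2 : (1 + r) / Y - 1 / (Y + (1 + r)) + (1 - r ^ 2 - r * Y) / Y ^ 2 ≤ (2 + r) / Y ^ 2 := by
    have e2 : (1 + r) / Y - 1 / (Y + (1 + r)) + (1 - r ^ 2 - r * Y) / Y ^ 2 =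
        (1 + r) / (Y * (Y + (1 + r))) + (1 - r ^ 2) / Y ^ 2 := by
      field_simp
      ring
    rw [e2]
    have h3 : (1 + r) / (Y * (Y + (1 + r))) ≤ (1 + r) / Y ^ 2 := by
      refine div_le_div_of_nonneg_left (by positivity) (by positivity) ?_
      nlinarith
    have h4 : (1 - r ^ 2) / Y ^ 2 ≤ 1 / Y ^ 2 :=
      div_le_div_of_nonneg_right (by nlinarith) (by positivity)
    have h5 : (1 + r) / Y ^ 2 + 1 / Y ^ 2 = (2 + r) / Y ^ 2 := by ring
    linarith
  have h3 : (1 - r) / 2 * Real.exp (2 * |t|) ≤ Y := by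
    have : (1 - r) * Real.cosh (2 * t) ≤ Y := by rw [hYd]; nlinarith
    nlinarith [mul_le_mul_of_nonneg_left hXe a1.le]
  have h4 : (2 + r) / Y ^ 2 ≤ (2 + r) * (4 / (1 - r) ^ 2) * Real.exp (-4 * |t|) := by
    have h5 : ((1 - r) / 2 * Real.exp (2 * |t|)) ^ 2 ≤ Y ^ 2 :=
      pow_le_pow_left₀ (by positivity) h3 2
    have e5 : ((1 - r) / 2 * Real.exp (2 * |t|)) ^ 2 = (1 - r) ^ 2 / 4 * Real.exp (4 * |t|) := by
      rw [mul_pow, div_pow, ← Real.exp_nat_mul]
      congr 1
      · norm_num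
      · congr 1
        push_cast
        ring
    rw [e5] at h5
    have h6 : (2 + r) / Y ^ 2 ≤ (2 + r) / ((1 - r) ^ 2 / 4 * Real.exp (4 * |t|)) :=
      div_le_div_of_nonneg_left (by positivity) (by positivity) h5
    refine h6.trans (le_of_eq ?_)
    rw [show -4 * |t| = -(4 * |t|) by ring, Real.exp_neg]
    field_simp
  rw [div_le_iff₀ hk]
  have he := Real.exp_pos (-4 * |t|)
  have e6 : ((2 + r) / kap0 * (4 / (1 - r) ^ 2) + 1) * Real.exp (-4 * |t|) * kap0 =
      (2 + r) * (4 / (1 - r) ^ 2) * Real.exp (-4 * |t|) + kap0 * Real.exp (-4 * |t|) := by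
    field_simp
  rw [e6]
  have : 0 ≤ kap0 * Real.exp (-4 * |t|) := by positivity
  linarith

lemma bz_int : Integrable bz := by
  obtain ⟨C, hC, hb⟩ := exists_bz
  exact integrable_of_exp (by norm_num : (0 : ℝ) < 4) bz_cont fun t => by
    rw [abs_of_pos (bz_pos t)]
    exact hb t

/-! ### masses -/

lemma tendsto_of_exp {f : ℝ → ℝ} {C c : ℝ} (hc : 0 < c) (hb : ∀ t, |f t| ≤ C * Real.exp (-c * |t|)) :
    Tendsto f atTop (𝓝 0) ∧ Tendsto f atBot (𝓝 0) := by
  have h1 : Tendsto (fun t : ℝ => C * Real.exp (-c * |t|)) atTop (𝓝 (C * 0)) := by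
    refine Tendsto.const_mul C (Real.tendsto_exp_atBot.comp ?_)
    exact Tendsto.const_mul_atTop_of_neg (by linarith) tendsto_abs_atTop_atTop
  have h2 : Tendsto (fun t : ℝ => C * Real.exp (-c * |t|)) atBot (𝓝 (C * 0)) := by
    refine Tendsto.const_mul C (Real.tendsto_exp_atBot.comp ?_)
    exact Tendsto.const_mul_atTop_of_neg (by linarith) tendsto_abs_atBot_atTop
  rw [mul_zero] at h1 h2
  exact ⟨squeeze_zero_norm hb h1, squeeze_zero_norm hb h2⟩

lemma integral_Pdd : ∫ t, Pdd t = 0 := by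
  obtain ⟨C, hC, hb⟩ := exists_Pexp
  have h := tendsto_of_exp (f := Pd) (by norm_num : (0 : ℝ) < 8 / 3) fun t => (hb t).2.1
  have hi : Integrable Pdd := integrable_of_exp (by norm_num : (0 : ℝ) < 8 / 3) Pdd_cont fun t => (hb t).2.2
  have := integral_of_hasDerivAt_of_tendsto (fun t => hasDerivAt_Pd t) hi h.2 h.1
  simpa using this

lemma integral_v2 : ∫ t, v2 t = 0 := by
  obtain ⟨A, hA, hb⟩ := exists_vexp
  have h := tendsto_of_exp (f := v1) (by norm_num : (0 : ℝ) < 2) fun t => (hb t).1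
  have hi : Integrable v2 := integrable_of_exp (by norm_num : (0 : ℝ) < 2) v2_cont fun t => (hb t).2
  have := integral_of_hasDerivAt_of_tendsto (fun t => hasDerivAt_v1 t) hi h.2 h.1
  simpa using this

lemma integral_rz : ∫ t, rz t = 1 / kap0 := by
  obtain ⟨C, hC, hb⟩ := exists_Pexp
  have hk := kap0_pos
  have hi : Integrable Pdd := integrable_of_exp (by norm_num : (0 : ℝ) < 8 / 3) Pdd_cont fun t => (hb t).2.2
  unfold rz
  rw [integral_div, integral_sub (P_integrable.const_mul 4) hi, integral_const_mul, integral_P,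
    integral_Pdd]
  field_simp
  ring

lemma integral_bz : ∫ t, bz t = 1 := by
  obtain ⟨A, hA, hb⟩ := exists_vexp
  have hk := kap0_pos
  have hi : Integrable v2 := integrable_of_exp (by norm_num : (0 : ℝ) < 2) v2_cont fun t => (hb t).2
  unfold bz
  rw [integral_div, integral_sub (v_integrable.const_mul 4) hi, integral_const_mul, integral_v,
    integral_v2]
  unfold kap0
  have := Real.pi_pos
  field_simp
  ring

/-! ### differences of the distribution functions -/

/-- the mass of `f` on `[t - T, t + T]` -/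
def win2 (f : ℝ → ℝ) (T t : ℝ) : ℝ := ∫ u in (t - T)..(t + T), f u

section win2

variable {f : ℝ → ℝ} {C c T : ℝ}

lemma win2_hasDerivAt (hf : Continuous f) (T t : ℝ) :
    HasDerivAt (win2 f T) (f (t + T) - f (t - T)) t := by
  have hi : ∀ a b : ℝ, IntervalIntegrable f volume a b := fun a b => hf.intervalIntegrable a b
  have e : win2 f T = fun t => (∫ u in (0 : ℝ)..(t + T), f u) - ∫ u in (0 : ℝ)..(t - T), f u := by
    funext x
    unfold win2
    rw [intervalIntegral.integral_interval_sub_left (hi _ _) (hi _ _)]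
  rw [e]
  have h1 : HasDerivAt (fun x => ∫ u in (0 : ℝ)..x, f u) (f (t + T)) (t + T) :=
    intervalIntegral.integral_hasDerivAt_right (hi _ _) (hf.stronglyMeasurableAtFilter _ _) hf.continuousAt
  have h2 : HasDerivAt (fun x => ∫ u in (0 : ℝ)..x, f u) (f (t - T)) (t - T) :=
    intervalIntegral.integral_hasDerivAt_right (hi _ _) (hf.stronglyMeasurableAtFilter _ _) hf.continuousAt
  exact (h1.comp_add_const t T).sub (h2.comp_sub_const t T)

lemma win2_cont (hf : Continuous f) (T : ℝ) : Continuous (win2 f T) :=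
  continuous_iff_continuousAt.2 fun t => (win2_hasDerivAt hf T t).continuousAt

lemma win2_shift (T t : ℝ) : win2 f T t = ∫ x in (-T)..T, f (t + x) := by
  unfold win2
  rw [intervalIntegral.integral_comp_add_left (fun x => f x) t]
  congr 1

lemma win2_abs_le (hT : 0 ≤ T) (hf : Integrable f) (t : ℝ) : |win2 f T t| ≤ ∫ u, |f u| := by
  unfold win2
  rw [intervalIntegral.integral_of_le (by linarith), ← Real.norm_eq_abs]
  refine (norm_integral_le_integral_norm _).trans ?_
  simp_rw [Real.norm_eq_abs]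
  exact setIntegral_le_integral hf.abs (Eventually.of_forall fun t => abs_nonneg _)

lemma exp_left {a : ℝ} (hc : 0 < c) (h0 : 0 ≤ C) (hf : Integrable f)
    (hb : ∀ t, |f t| ≤ C * Real.exp (-c * |t|)) : ∫ u in Iic a, |f u| ≤ C / c * Real.exp (c * a) := by
  have h1 : IntegrableOn (fun u : ℝ => C * Real.exp (c * u)) (Iic a) :=
    (integrableOn_exp_mul_Iic hc a).const_mul C
  calc ∫ u in Iic a, |f u| ≤ ∫ u in Iic a, C * Real.exp (c * u) := by
        refine setIntegral_mono_on hf.abs.integrableOn h1 measurableSet_Iic fun u _ => ?_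
        refine (hb u).trans (mul_le_mul_of_nonneg_left (Real.exp_le_exp.2 ?_) h0)
        have := neg_abs_le u
        nlinarith
    _ = C / c * Real.exp (c * a) := by
        rw [integral_const_mul, integral_exp_mul_Iic hc]
        ring

lemma exp_right {a : ℝ} (hc : 0 < c) (h0 : 0 ≤ C) (hf : Integrable f)
    (hb : ∀ t, |f t| ≤ C * Real.exp (-c * |t|)) : ∫ u in Ioi a, |f u| ≤ C / c * Real.exp (-c * a) := by
  have h1 : IntegrableOn (fun u : ℝ => C * Real.exp (-c * u)) (Ioi a) :=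
    (integrableOn_exp_mul_Ioi (by linarith : -c < 0) a).const_mul C
  calc ∫ u in Ioi a, |f u| ≤ ∫ u in Ioi a, C * Real.exp (-c * u) := by
        refine setIntegral_mono_on hf.abs.integrableOn h1 measurableSet_Ioi fun u _ => ?_
        refine (hb u).trans (mul_le_mul_of_nonneg_left (Real.exp_le_exp.2 ?_) h0)
        have := le_abs_self u
        nlinarith
    _ = C / c * Real.exp (-c * a) := by
        rw [integral_const_mul, integral_exp_mul_Ioi (by linarith : -c < 0)]
        field_simp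

lemma exp_add_le {x : ℝ} (hc : 0 < c) (t : ℝ) : Real.exp (c * (t - x)) + Real.exp (-c * (t + x)) ≤
    2 * Real.exp (-c * (x - |t|)) := by
  have h1 : Real.exp (c * (t - x)) ≤ Real.exp (-c * (x - |t|)) := by
    rw [Real.exp_le_exp]
    have := le_abs_self t
    nlinarith
  have h2 : Real.exp (-c * (t + x)) ≤ Real.exp (-c * (x - |t|)) := by
    rw [Real.exp_le_exp]
    have := neg_abs_le t
    nlinarith
  linarith

/-- inside: the whole mass -/
lemma win2_in (hT : 0 ≤ T) (hc : 0 < c) (h0 : 0 ≤ C) (hf : Integrable f)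
    (hb : ∀ t, |f t| ≤ C * Real.exp (-c * |t|)) (t : ℝ) :
    |(∫ u, f u) - win2 f T t| ≤ 2 * C / c * Real.exp (-c * (T - |t|)) := by
  have hle : t - T ≤ t + T := by linarith
  have e1 : ∫ u, f u = (∫ u in Iic (t - T), f u) + ((∫ u in Ioc (t - T) (t + T), f u) +
      ∫ u in Ioi (t + T), f u) := by
    rw [← setIntegral_union (Ioc_disjoint_Ioi le_rfl) measurableSet_Ioi hf.integrableOn hf.integrableOn,
      Ioc_union_Ioi_eq_Ioi hle, ← setIntegral_union (Iic_disjoint_Ioi le_rfl) measurableSet_Ioi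
      hf.integrableOn hf.integrableOn, Iic_union_Ioi, setIntegral_univ]
  have e2 : win2 f T t = ∫ u in Ioc (t - T) (t + T), f u := by
    unfold win2
    rw [intervalIntegral.integral_of_le hle]
  have e3 : (∫ u, f u) - win2 f T t = (∫ u in Iic (t - T), f u) + ∫ u in Ioi (t + T), f u := by
    rw [e1, e2]
    ring
  rw [e3]
  have h1 : |∫ u in Iic (t - T), f u| ≤ C / c * Real.exp (c * (t - T)) := by
    rw [← Real.norm_eq_abs]
    refine (norm_integral_le_integral_norm _).trans ?_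
    simp_rw [Real.norm_eq_abs]
    exact exp_left hc h0 hf hb
  have h2 : |∫ u in Ioi (t + T), f u| ≤ C / c * Real.exp (-c * (t + T)) := by
    rw [← Real.norm_eq_abs]
    refine (norm_integral_le_integral_norm _).trans ?_
    simp_rw [Real.norm_eq_abs]
    exact exp_right hc h0 hf hb
  have h3 := exp_add_le (x := T) hc t
  have h4 : 0 ≤ C / c := by positivity
  calc |(∫ u in Iic (t - T), f u) + ∫ u in Ioi (t + T), f u| ≤
      C / c * Real.exp (c * (t - T)) + C / c * Real.exp (-c * (t + T)) :=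
        (abs_add_le _ _).trans (add_le_add h1 h2)
    _ = C / c * (Real.exp (c * (t - T)) + Real.exp (-c * (t + T))) := by ring
    _ ≤ C / c * (2 * Real.exp (-c * (T - |t|))) := mul_le_mul_of_nonneg_left h3 h4
    _ = _ := by ring

/-- outside: exponential decay -/
lemma win2_out (hT : 0 ≤ T) (hc : 0 < c) (h0 : 0 ≤ C) (hf : Integrable f)
    (hb : ∀ t, |f t| ≤ C * Real.exp (-c * |t|)) (t : ℝ) :
    |win2 f T t| ≤ C / c * Real.exp (-c * (|t| - T)) := by
  have hle : t - T ≤ t + T := by linarith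
  unfold win2
  rw [intervalIntegral.integral_of_le hle, ← Real.norm_eq_abs]
  refine (norm_integral_le_integral_norm _).trans ?_
  simp_rw [Real.norm_eq_abs]
  rcases le_total 0 t with h | h
  · rw [abs_of_nonneg h]
    refine (setIntegral_mono_set hf.abs.integrableOn (Eventually.of_forall fun u => abs_nonneg _)
      (LE.le.eventuallyLE Ioc_subset_Ioi_self)).trans ?_
    exact exp_right hc h0 hf hb
  · rw [abs_of_nonpos h]
    refine (setIntegral_mono_set (t := Iic (t + T)) hf.abs.integrableOn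
      (Eventually.of_forall fun u => abs_nonneg _)
      (LE.le.eventuallyLE fun u hu => hu.2)).trans ?_
    refine (exp_left hc h0 hf hb).trans (le_of_eq ?_)
    congr 2
    ring

/-- the mass of `win2` -/
lemma win2_prod_int (T : ℝ) (hf : Integrable f) :
    Integrable (fun q : ℝ × ℝ => f (q.1 + q.2)) (volume.prod (volume.restrict (Ioc (-T) T))) := by
  have h1 : Integrable (fun q : ℝ × ℝ => f q.1 * (fun _ : ℝ => (1 : ℝ)) q.2)
      (volume.prod (volume.restrict (Ioc (-T) T))) := hf.mul_prod (integrable_const _)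
  have h4 : MeasurePreserving (fun q : ℝ × ℝ => (q.2, q.1 + q.2))
      ((volume : Measure ℝ).prod (volume.restrict (Ioc (-T) T)))
      ((volume.restrict (Ioc (-T) T)).prod volume) := by
    have h5 : MeasurePreserving (fun q : ℝ × ℝ => (q.1, q.2 + q.1))
        ((volume.restrict (Ioc (-T) T)).prod (volume : Measure ℝ))
        ((volume.restrict (Ioc (-T) T)).prod volume) := by
      refine MeasurePreserving.skew_product (f := id) (g := fun x y => y + x)
        (MeasurePreserving.id _) (by fun_prop) (ae_of_all _ fun x => ?_)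
      exact (measurePreserving_add_right volume x).map_eq
    exact h5.comp Measure.measurePreserving_swap
  have h2 := (h4.integrable_comp h1.swap.aestronglyMeasurable).2 h1.swap
  refine h2.congr (ae_of_all _ fun q => ?_)
  simp

lemma win2_mass (hT : 0 ≤ T) (hf : Integrable f) :
    Integrable (win2 f T) ∧ ∫ t, win2 f T t = 2 * T * ∫ t, f t := by
  have hle : -T ≤ T := by linarith
  have hp := win2_prod_int T hf
  have e1 : win2 f T = fun t => ∫ x in Ioc (-T) T, f (t + x) := by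
    funext t
    rw [win2_shift, intervalIntegral.integral_of_le hle]
  rw [e1]
  refine ⟨hp.integral_prod_left, ?_⟩
  rw [integral_integral_swap hp]
  have e2 : ∀ x : ℝ, ∫ t, f (t + x) = ∫ t, f t := fun x => integral_add_right_eq_self f x
  simp_rw [e2]
  rw [setIntegral_const, Real.volume_real_Ioc_of_le hle, smul_eq_mul]
  ring

/-- `V * win2 f = win2 (V * f)` -/
lemma cv_win2 (hT : 0 ≤ T) (hfc : Continuous f) {M : ℝ} (hM : ∀ t, |f t| ≤ M) (t : ℝ) :
    cv (win2 f T) t = win2 (cv f) T t := by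
  have hle : -T ≤ T := by linarith
  have h1 : Integrable (fun q : ℝ × ℝ => V (t - q.1) * f (q.1 + q.2))
      (volume.prod (volume.restrict (Ioc (-T) T))) := by
    have h2 : Integrable (fun q : ℝ × ℝ => V (t - q.1) * (fun _ : ℝ => (1 : ℝ)) q.2)
        (volume.prod (volume.restrict (Ioc (-T) T))) :=
      (V_int.comp_sub_left t).mul_prod (integrable_const _)
    have h3 := h2.mul_bdd (c := M) (g := fun q : ℝ × ℝ => f (q.1 + q.2))
      (hfc.comp (continuous_fst.add continuous_snd)).aestronglyMeasurable (ae_of_all _ fun q => hM _)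
    refine h3.congr (ae_of_all _ fun q => ?_)
    simp
  have e1 : cv (win2 f T) t = ∫ u, ∫ x in Ioc (-T) T, V (t - u) * f (u + x) := by
    unfold cv
    refine integral_congr_ae (ae_of_all _ fun u => ?_)
    simp only
    rw [win2_shift, intervalIntegral.integral_of_le hle, integral_const_mul]
  rw [e1, integral_integral_swap h1, win2_shift, intervalIntegral.integral_of_le hle]
  refine setIntegral_congr_fun measurableSet_Ioc fun x _ => ?_
  unfold cv
  rw [← integral_add_right_eq_self (fun u => V (t + x - u) * f u) x]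
  refine integral_congr_ae (ae_of_all _ fun u => ?_)
  simp only
  congr 2
  ring

end win2

/-! ### edge layers -/

lemma integral_exp_abs {c : ℝ} (hc : 0 < c) : ∫ t : ℝ, Real.exp (-c * |t|) = 2 / c := by
  rw [integral_comp_abs (f := fun x => Real.exp (-c * x)), integral_exp_mul_Ioi (by linarith : -c < 0)]
  rw [mul_zero, Real.exp_zero]
  field_simp

lemma edge_le {c : ℝ} (T t : ℝ) : Real.exp (-c * |(|t| - T)|) ≤
    Real.exp (-c * |t - T|) + Real.exp (-c * |t + T|) := by
  rcases le_total 0 t with h | h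
  · rw [abs_of_nonneg h]
    have := Real.exp_pos (-c * |t + T|)
    linarith
  · rw [abs_of_nonpos h, show -t - T = -(t + T) by ring, abs_neg]
    have := Real.exp_pos (-c * |t - T|)
    linarith

lemma edge_int {c : ℝ} (hc : 0 < c) (T : ℝ) : Integrable (fun t : ℝ => Real.exp (-c * |(|t| - T)|)) ∧
    ∫ t : ℝ, Real.exp (-c * |(|t| - T)|) ≤ 4 / c := by
  have i1 : Integrable fun t : ℝ => Real.exp (-c * |t - T|) := (int_abs_exp hc).comp_sub_right T
  have i2 : Integrable fun t : ℝ => Real.exp (-c * |t + T|) := (int_abs_exp hc).comp_add_right T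
  have h1 : Integrable (fun t : ℝ => Real.exp (-c * |(|t| - T)|)) := by
    refine (i1.add i2).mono' (by fun_prop) (ae_of_all _ fun t => ?_)
    rw [Real.norm_eq_abs, abs_of_pos (Real.exp_pos _)]
    exact edge_le T t
  refine ⟨h1, ?_⟩
  calc ∫ t : ℝ, Real.exp (-c * |(|t| - T)|) ≤
      ∫ t : ℝ, (Real.exp (-c * |t - T|) + Real.exp (-c * |t + T|)) :=
        integral_mono h1 (i1.add i2) (edge_le T)
    _ = 2 / c + 2 / c := by
        rw [integral_add i1 i2, integral_sub_right_eq_self (fun t => Real.exp (-c * |t|)) T,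
          integral_add_right_eq_self (fun t => Real.exp (-c * |t|)) T, integral_exp_abs hc]
    _ = 4 / c := by ring

/-- an integral with an edge bound -/
lemma edge_bound {f : ℝ → ℝ} {A c : ℝ} (hc : 0 < c) (T : ℝ) (hf : Continuous f)
    (hb : ∀ t, |f t| ≤ A * Real.exp (-c * |(|t| - T)|)) : Integrable f ∧ |∫ t, f t| ≤ A * (4 / c) := by
  obtain ⟨h1, h2⟩ := edge_int hc T
  have hA : 0 ≤ A := by
    have := (abs_nonneg _).trans (hb 0)
    exact nonneg_of_mul_nonneg_left this (Real.exp_pos _)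
  refine ⟨(h1.const_mul A).mono' hf.aestronglyMeasurable (ae_of_all _ hb), ?_⟩
  rw [← Real.norm_eq_abs]
  refine (norm_integral_le_of_norm_le (h1.const_mul A) (ae_of_all _ hb)).trans ?_
  rw [integral_const_mul]
  exact mul_le_mul_of_nonneg_left h2 hA

/-! ### the pair `nu0`, `chi0` -/

/-- density of the response to a constant potential cut at `T` -/
def nu0 (T t : ℝ) : ℝ := win2 rz T t

/-- its potential -/
def chi0 (T t : ℝ) : ℝ := win2 bz T t

lemma nu0_hasDerivAt (T t : ℝ) : HasDerivAt (nu0 T) (rz (t + T) - rz (t - T)) t :=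
  win2_hasDerivAt rz_cont T t

lemma chi0_hasDerivAt (T t : ℝ) : HasDerivAt (chi0 T) (bz (t + T) - bz (t - T)) t :=
  win2_hasDerivAt bz_cont T t

lemma nu0_cont (T : ℝ) : Continuous (nu0 T) := win2_cont rz_cont T

lemma chi0_cont (T : ℝ) : Continuous (chi0 T) := win2_cont bz_cont T

theorem cv_nu0 {T : ℝ} (hT : 0 ≤ T) (t : ℝ) : cv (nu0 T) t = chi0 T t := by
  obtain ⟨C, -, hC⟩ := rz_bdd
  have h := cv_win2 hT rz_cont hC t
  have e : cv rz = bz := funext cv_rz
  rw [e] at h
  exact h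

/-- `V * nu0 = chi0` -/
theorem nu0_V {T : ℝ} (hT : 0 ≤ T) (t : ℝ) : ∫ u, nu0 T u * V (t - u) = chi0 T t := by
  rw [← cv_nu0 hT]
  unfold cv
  exact integral_congr_ae (ae_of_all _ fun u => mul_comm _ _)

theorem nu0_mass {T : ℝ} (hT : 0 ≤ T) : Integrable (nu0 T) ∧ ∫ t, nu0 T t = 2 * T / kap0 := by
  obtain ⟨h1, h2⟩ := win2_mass hT rz_int
  refine ⟨h1, ?_⟩
  show ∫ t, win2 rz T t = _
  rw [h2, integral_rz]
  ring

theorem chi0_mem {T : ℝ} (hT : 0 ≤ T) (t : ℝ) : 0 ≤ chi0 T t ∧ chi0 T t ≤ 1 := by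
  have hle : t - T ≤ t + T := by linarith
  constructor
  · exact intervalIntegral.integral_nonneg hle fun u _ => (bz_pos u).le
  · have h := win2_abs_le hT bz_int t
    have e : ∫ u, |bz u| = 1 := by
      simp_rw [abs_of_pos (bz_pos _)]
      exact integral_bz
    rw [e] at h
    exact (le_abs_self _).trans h

/-- **pointwise bounds** -/
theorem exists_nuchi : ∃ C : ℝ, 1 ≤ C ∧ ∀ T : ℝ, 0 ≤ T → ∀ t : ℝ,
    |nu0 T t| ≤ C ∧ |nu0 T t| ≤ C * Real.exp (-(8 / 3) * (|t| - T)) ∧
    |1 / kap0 - nu0 T t| ≤ C * Real.exp (-(8 / 3) * (T - |t|)) ∧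
    1 - chi0 T t ≤ C * Real.exp (-4 * (T - |t|)) ∧ chi0 T t ≤ C * Real.exp (-4 * (|t| - T)) ∧
    |rz (t + T) - rz (t - T)| ≤ C * Real.exp (-(8 / 3) * |(|t| - T)|) ∧
    |bz (t + T) - bz (t - T)| ≤ C * Real.exp (-4 * |(|t| - T)|) := by
  obtain ⟨A, hA, ha⟩ := exists_rz
  obtain ⟨B, hB, hb⟩ := exists_bz
  have hb' : ∀ t, |bz t| ≤ B * Real.exp (-4 * |t|) := fun t => by
    rw [abs_of_pos (bz_pos t)]
    exact hb t
  have hI : 0 ≤ ∫ u, |rz u| := integral_nonneg fun u => abs_nonneg _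
  have hA0 : 0 ≤ A := by linarith
  have hB0 : 0 ≤ B := by linarith
  refine ⟨2 * A + 2 * B + ∫ u, |rz u|, by linarith, fun T hT t => ?_⟩
  have hge : ∀ (c : ℝ), 0 < c → Real.exp (-c * |t + T|) ≤ Real.exp (-c * |(|t| - T)|) ∧
      Real.exp (-c * |t - T|) ≤ Real.exp (-c * |(|t| - T)|) := by
    intro c hc
    have h1 : |(|t| - T)| ≤ |t + T| := by
      have := abs_abs_sub_abs_le_abs_sub t (-T)
      rwa [abs_neg, abs_of_nonneg hT, sub_neg_eq_add] at this
    have h2 : |(|t| - T)| ≤ |t - T| := by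
      have := abs_abs_sub_abs_le_abs_sub t T
      rwa [abs_of_nonneg hT] at this
    exact ⟨Real.exp_le_exp.2 (by nlinarith), Real.exp_le_exp.2 (by nlinarith)⟩
  have p1 := Real.exp_pos (-(8 / 3) * (|t| - T))
  have p2 := Real.exp_pos (-(8 / 3) * (T - |t|))
  have p3 := Real.exp_pos (-4 * (T - |t|))
  have p4 := Real.exp_pos (-4 * (|t| - T))
  have p5 := Real.exp_pos (-(8 / 3) * |(|t| - T)|)
  have p6 := Real.exp_pos (-4 * |(|t| - T)|)
  refine ⟨?_, ?_, ?_, ?_, ?_, ?_, ?_⟩
  · exact (win2_abs_le hT rz_int t).trans (by linarith)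
  · refine (win2_out hT (by norm_num) hA0 rz_int ha t).trans
      (mul_le_mul_of_nonneg_right ?_ p1.le)
    linarith
  · have h := win2_in hT (by norm_num : (0 : ℝ) < 8 / 3) hA0 rz_int ha t
    rw [integral_rz] at h
    refine h.trans (mul_le_mul_of_nonneg_right ?_ p2.le)
    linarith
  · have h := win2_in hT (by norm_num : (0 : ℝ) < 4) hB0 bz_int hb' t
    rw [integral_bz] at h
    refine (le_abs_self _).trans (h.trans (mul_le_mul_of_nonneg_right ?_ p3.le))
    linarith
  · refine (le_abs_self _).trans ((win2_out hT (by norm_num : (0 : ℝ) < 4) hB0 bz_int hb' t).trans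
      (mul_le_mul_of_nonneg_right ?_ p4.le))
    linarith
  · obtain ⟨g1, g2⟩ := hge (8 / 3) (by norm_num)
    have h1 := (ha (t + T)).trans (mul_le_mul_of_nonneg_left g1 hA0)
    have h2 := (ha (t - T)).trans (mul_le_mul_of_nonneg_left g2 hA0)
    have h3 := abs_sub (rz (t + T)) (rz (t - T))
    have h4 : 0 ≤ (2 * B + ∫ u, |rz u|) * Real.exp (-(8 / 3) * |(|t| - T)|) := by positivity
    nlinarith
  · obtain ⟨g1, g2⟩ := hge 4 (by norm_num)
    have h1 := (hb' (t + T)).trans (mul_le_mul_of_nonneg_left g1 hB0)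
    have h2 := (hb' (t - T)).trans (mul_le_mul_of_nonneg_left g2 hB0)
    have h3 := abs_sub (bz (t + T)) (bz (t - T))
    have h4 : 0 ≤ (2 * A + ∫ u, |rz u|) * Real.exp (-4 * |(|t| - T)|) := by positivity
    nlinarith

/-- the boundary term of the energy -/
theorem exists_bd : ∃ C : ℝ, 0 ≤ C ∧ ∀ T : ℝ, 0 ≤ T → Integrable (fun t => nu0 T t * (1 - chi0 T t)) ∧
    |∫ t, nu0 T t * (1 - chi0 T t)| ≤ C := by
  obtain ⟨C, hC, h⟩ := exists_nuchi
  have hC0 : 0 ≤ C := by linarith
  refine ⟨C ^ 2 * (4 / (8 / 3)), by positivity, fun T hT => ?_⟩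
  refine edge_bound (by norm_num : (0 : ℝ) < 8 / 3) T
    ((nu0_cont T).mul (continuous_const.sub (chi0_cont T))) fun t => ?_
  obtain ⟨h1, h2, -, h4, -, -, -⟩ := h T hT t
  obtain ⟨c0, c1⟩ := chi0_mem hT t
  rw [abs_mul, abs_of_nonneg (by linarith : 0 ≤ 1 - chi0 T t)]
  rcases le_total |t| T with hh | hh
  · rw [abs_of_nonpos (by linarith : |t| - T ≤ 0)]
    calc |nu0 T t| * (1 - chi0 T t) ≤ C * (C * Real.exp (-4 * (T - |t|))) :=
          mul_le_mul h1 h4 (by linarith) hC0
      _ ≤ C * (C * Real.exp (-(8 / 3) * -(|t| - T))) := by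
          refine mul_le_mul_of_nonneg_left (mul_le_mul_of_nonneg_left (Real.exp_le_exp.2 ?_) hC0) hC0
          linarith
      _ = _ := by ring
  · rw [abs_of_nonneg (by linarith : 0 ≤ |t| - T)]
    calc |nu0 T t| * (1 - chi0 T t) ≤ (C * Real.exp (-(8 / 3) * (|t| - T))) * 1 :=
          mul_le_mul h2 (by linarith) (by linarith) (by positivity)
      _ ≤ C ^ 2 * Real.exp (-(8 / 3) * (|t| - T)) := by
          rw [mul_one]
          refine mul_le_mul_of_nonneg_right ?_ (Real.exp_pos _).le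
          nlinarith

/-- **the energy of the response** -/
theorem nu0_energy : ∃ C : ℝ, 0 ≤ C ∧ ∀ T : ℝ, 0 ≤ T →
    Integrable (fun t => nu0 T t * chi0 T t) ∧
    |(∫ t, nu0 T t * chi0 T t) - 2 * T / kap0| ≤ C := by
  obtain ⟨C, hC, h⟩ := exists_bd
  refine ⟨C, hC, fun T hT => ?_⟩
  obtain ⟨h1, h2⟩ := h T hT
  obtain ⟨m1, m2⟩ := nu0_mass hT
  have e : (fun t => nu0 T t * chi0 T t) = fun t => nu0 T t - nu0 T t * (1 - chi0 T t) := by
    funext t
    ring
  rw [e]
  refine ⟨m1.sub h1, ?_⟩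
  rw [integral_sub m1 h1, m2]
  have e2 : 2 * T / kap0 - (∫ t, nu0 T t * (1 - chi0 T t)) - 2 * T / kap0 =
      -∫ t, nu0 T t * (1 - chi0 T t) := by ring
  rw [e2, abs_neg]
  exact h2

/-- **the sea in the cut potential** -/
theorem P_chi0 : ∃ C : ℝ, 0 ≤ C ∧ ∀ T : ℝ, 0 ≤ T →
    Integrable (fun t => P t * (1 - chi0 T t)) ∧ Integrable (fun t => P t * chi0 T t) ∧
    (∫ t, P t * chi0 T t) ≤ 1 ∧ 1 - C * Real.exp (-(8 / 3) * T) ≤ ∫ t, P t * chi0 T t := by
  obtain ⟨C, hC, h⟩ := exists_nuchi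
  obtain ⟨B, hB, hb⟩ := exists_Pexp
  have hC0 : 0 ≤ C := by linarith
  refine ⟨B * C * (4 / (4 / 3)), by positivity, fun T hT => ?_⟩
  have key : ∀ t, |P t * (1 - chi0 T t)| ≤
      (B * C * Real.exp (-(8 / 3) * T)) * Real.exp (-(4 / 3) * |(|t| - T)|) := by
    intro t
    obtain ⟨-, -, -, h4, -, -, -⟩ := h T hT t
    obtain ⟨c0, c1⟩ := chi0_mem hT t
    rw [abs_mul, abs_of_nonneg (by linarith : 0 ≤ 1 - chi0 T t), abs_of_pos (P_pos t)]
    have hP := (hb t).1
    rw [mul_assoc, ← Real.exp_add]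
    rcases le_total |t| T with hh | hh
    · rw [abs_of_nonpos (by linarith : |t| - T ≤ 0)]
      calc P t * (1 - chi0 T t) ≤ (B * Real.exp (-(8 / 3) * |t|)) * (C * Real.exp (-4 * (T - |t|))) :=
            mul_le_mul hP h4 (by linarith) (by positivity)
        _ = B * C * Real.exp (-(8 / 3) * T + -(4 / 3) * -(|t| - T)) := by
            rw [show (B * Real.exp (-(8 / 3) * |t|)) * (C * Real.exp (-4 * (T - |t|))) =
              B * C * (Real.exp (-(8 / 3) * |t|) * Real.exp (-4 * (T - |t|))) by ring, ← Real.exp_add]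
            congr 2
            ring
    · rw [abs_of_nonneg (by linarith : 0 ≤ |t| - T)]
      calc P t * (1 - chi0 T t) ≤ (B * Real.exp (-(8 / 3) * |t|)) * 1 :=
            mul_le_mul hP (by linarith) (by linarith) (by positivity)
        _ ≤ B * C * Real.exp (-(8 / 3) * |t|) := by
            rw [mul_one]
            refine mul_le_mul_of_nonneg_right ?_ (Real.exp_pos _).le
            nlinarith
        _ ≤ _ := by
            refine mul_le_mul_of_nonneg_left (Real.exp_le_exp.2 ?_) (by positivity)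
            linarith
  have hcont : Continuous fun t => P t * (1 - chi0 T t) :=
    P_cont.mul (continuous_const.sub (chi0_cont T))
  obtain ⟨k1, k2⟩ := edge_bound (by norm_num : (0 : ℝ) < 4 / 3) T hcont key
  have e : (fun t => P t * chi0 T t) = fun t => P t - P t * (1 - chi0 T t) := by
    funext t
    ring
  have i2 : Integrable (fun t => P t * chi0 T t) := by
    rw [e]
    exact P_integrable.sub k1
  refine ⟨k1, i2, ?_, ?_⟩
  · calc (∫ t, P t * chi0 T t) ≤ ∫ t, P t := by
          refine integral_mono i2 P_integrable fun t => ?_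
          exact mul_le_of_le_one_right (P_pos t).le (chi0_mem hT t).2
      _ = 1 := integral_P
  · rw [e, integral_sub P_integrable k1, integral_P]
    have := (abs_le.1 k2).2
    have e3 : B * C * (4 / (4 / 3)) * Real.exp (-(8 / 3) * T) =
        B * C * Real.exp (-(8 / 3) * T) * (4 / (4 / 3)) := by ring
    linarith

/-- the total variation of the response -/
theorem nu0_L1 : ∃ C : ℝ, 0 ≤ C ∧ ∀ T : ℝ, 0 ≤ T → ∫ t, |nu0 T t| ≤ C * (T + 1) := by
  have hI : 0 ≤ ∫ u, |rz u| := integral_nonneg fun u => abs_nonneg _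
  refine ⟨2 * ∫ u, |rz u|, by positivity, fun T hT => ?_⟩
  obtain ⟨h1, h2⟩ := win2_mass hT rz_int.abs
  have h3 : ∀ t, |nu0 T t| ≤ win2 (fun u => |rz u|) T t := fun t => by
    have hle : t - T ≤ t + T := by linarith
    exact intervalIntegral.abs_integral_le_integral_abs hle
  calc ∫ t, |nu0 T t| ≤ ∫ t, win2 (fun u => |rz u|) T t :=
        integral_mono (nu0_mass hT).1.abs h1 h3
    _ = 2 * T * ∫ u, |rz u| := h2
    _ ≤ _ := by nlinarith

end

end NUCR
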