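import Pool.Agent.NUCR.Prof

/-!
# The pointwise bound for a configuration of objects (B6 of board/CR)

A configuration is a finite family of objects with heights `t i`; the flat ones (winding `w i` in `[1, 2]`) have the
branch factors of `Br` (cut height `D / 4`), the others crude factors.  The apex of the profile of the current is put at
the lowest flat object on the right of the cut (`eta >= 0`), resp. at the highest flat object on the left of the cut
(`eta < 0`): this object pays for the apex, all other objects pay nothing.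
-/

set_option autoImplicit false

open MeasureTheory Set

noncomputable section

namespace NUCR

/-- `f` smeared by the density `kap`. -/
def sm (kap f : ℝ → ℝ) (t : ℝ) : ℝ := ∫ u, kap u * f (t - u)

/-- a (signed) smearing density with mass one and first absolute moment at most `M`. -/
structure SD (M : ℝ) (kap : ℝ → ℝ) : Prop where
  int : Integrable kap
  mass : ∫ u, kap u = 1
  int1 : Integrable (fun u => |u| * |kap u|)
  mom : ∫ u, |u| * |kap u| ≤ M

theorem SD.nonneg {M : ℝ} {kap : ℝ → ℝ} (h : SD M kap) : 0 ≤ M :=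
  le_trans (integral_nonneg fun u => by positivity) h.mom

/-- the profile of the current: upper line for `0 <= eta`, lower line for `eta < 0`. -/
def Jt (D eta ts : ℝ) : ℝ → ℝ := if 0 ≤ eta then jU D eta ts else jD D eta ts

/-- the relative position of the apex. -/
def pAx (D eta ts : ℝ) : ℝ := if 0 ≤ eta then pU D ts else pU D (-ts)

/-- admissible positions of the apex. -/
def Adm (D eta ts : ℝ) : Prop :=
  (0 ≤ eta ∧ D / 4 ≤ ts ∧ ts ≤ D) ∨ (eta < 0 ∧ -D ≤ ts ∧ ts ≤ D / 4)

section apex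

variable {ι : Type*}

/-- the lowest flat object right of the cut. -/
theorem exists_apexU (s : Finset ι) (fl : ι → Prop) (t : ι → ℝ) {D : ℝ} (hD : 1 ≤ D) :
    ∃ ts, D / 4 ≤ ts ∧ ts ≤ D ∧ (∀ i ∈ s, fl i → D / 4 < t i → ts ≤ t i) ∧
      (ts = D ∨ ∃ i ∈ s, fl i ∧ D / 4 < t i ∧ t i = ts) := by
  classical
  obtain ⟨A, hA⟩ : ∃ A : Finset ℝ, A = insert D ((s.filter fun i => fl i ∧ D / 4 < t i).image t) :=
    ⟨_, rfl⟩
  have hD' : D ∈ A := by rw [hA]; exact Finset.mem_insert_self _ _
  obtain ⟨m, hm⟩ : ∃ m, m = A.min' ⟨D, hD'⟩ := ⟨_, rfl⟩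
  have hm1 : m ∈ A := by rw [hm]; exact A.min'_mem _
  have hm2 : ∀ x ∈ A, m ≤ x := fun x hx => by rw [hm]; exact A.min'_le x hx
  have hm3 : m = D ∨ ∃ i ∈ s, fl i ∧ D / 4 < t i ∧ t i = m := by
    rw [hA, Finset.mem_insert, Finset.mem_image] at hm1
    rcases hm1 with h | ⟨i, hi, h⟩
    · exact Or.inl h
    · obtain ⟨h1, h2, h3⟩ := Finset.mem_filter.1 hi
      exact Or.inr ⟨i, h1, h2, h3, h⟩
  refine ⟨m, ?_, hm2 D hD', fun i hi h1 h2 => hm2 _ ?_, hm3⟩
  · rcases hm3 with h | ⟨i, -, -, h1, h⟩ <;> linarith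
  · rw [hA]
    exact Finset.mem_insert_of_mem (Finset.mem_image_of_mem t (Finset.mem_filter.2 ⟨hi, h1, h2⟩))

/-- the highest flat object left of the cut. -/
theorem exists_apexD (s : Finset ι) (fl : ι → Prop) (t : ι → ℝ) {D : ℝ} (hD : 1 ≤ D) :
    ∃ ts, -D ≤ ts ∧ ts ≤ D / 4 ∧ (∀ i ∈ s, fl i → t i ≤ D / 4 → t i ≤ ts) ∧
      (ts = -D ∨ ∃ i ∈ s, fl i ∧ t i ≤ D / 4 ∧ t i = ts) := by
  classical
  obtain ⟨A, hA⟩ : ∃ A : Finset ℝ, A = insert (-D) ((s.filter fun i => fl i ∧ t i ≤ D / 4).image t) :=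
    ⟨_, rfl⟩
  have hD' : -D ∈ A := by rw [hA]; exact Finset.mem_insert_self _ _
  obtain ⟨m, hm⟩ : ∃ m, m = A.max' ⟨-D, hD'⟩ := ⟨_, rfl⟩
  have hm1 : m ∈ A := by rw [hm]; exact A.max'_mem _
  have hm2 : ∀ x ∈ A, x ≤ m := fun x hx => by rw [hm]; exact A.le_max' x hx
  have hm3 : m = -D ∨ ∃ i ∈ s, fl i ∧ t i ≤ D / 4 ∧ t i = m := by
    rw [hA, Finset.mem_insert, Finset.mem_image] at hm1
    rcases hm1 with h | ⟨i, hi, h⟩
    · exact Or.inl h
    · obtain ⟨h1, h2, h3⟩ := Finset.mem_filter.1 hi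
      exact Or.inr ⟨i, h1, h2, h3, h⟩
  refine ⟨m, hm2 _ hD', ?_, fun i hi h1 h2 => hm2 _ ?_, hm3⟩
  · rcases hm3 with h | ⟨i, -, -, h1, h⟩ <;> linarith
  · rw [hA]
    exact Finset.mem_insert_of_mem (Finset.mem_image_of_mem t (Finset.mem_filter.2 ⟨hi, h1, h2⟩))

/-- one object pays the price `P`. -/
theorem sum_pay (s : Finset ι) (lf g : ι → ℝ) {P : ℝ} (h : ∀ i ∈ s, lf i ≤ g i)
    (hP : P ≤ 0 ∨ ∃ i ∈ s, lf i ≤ g i - P) : P + ∑ i ∈ s, lf i ≤ ∑ i ∈ s, g i := by
  classical
  rcases hP with hP | ⟨i, hi, hP⟩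
  · have := Finset.sum_le_sum h
    linarith
  · rw [← Finset.add_sum_erase s lf hi, ← Finset.add_sum_erase s g hi]
    have := Finset.sum_le_sum (s := s.erase i) fun j hj => h j (Finset.mem_of_mem_erase hj)
    linarith

end apex

/-- the smearing loss of the profile. -/
def cS (D eta M : ℝ) : ℝ := 8 / 3 * (|eta| / D) * (M + 2)

theorem cS_nonneg {D eta M : ℝ} (hD : 1 ≤ D) (hM : 0 ≤ M) : 0 ≤ cS D eta M := by
  unfold cS
  have : 0 ≤ |eta| / D := div_nonneg (abs_nonneg _) (by linarith)
  positivity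

theorem Jt_smooth {D eta ts : ℝ} (n : ℕ) : ContDiff ℝ n (Jt D eta ts) := by
  unfold Jt
  split_ifs
  · exact jU_smooth n
  · exact jD_smooth n

theorem Jt_left {D eta ts : ℝ} (hD : 1 ≤ D) (h : Adm D eta ts) {t : ℝ} (ht : t ≤ -D - 1) :
    Jt D eta ts t = 0 := by
  unfold Jt
  rcases h with ⟨h0, h1, h2⟩ | ⟨h0, h1, h2⟩
  · rw [if_pos h0]
    exact jU_left (by linarith) h2 ht
  · rw [if_neg (not_le.2 h0)]
    exact jD_left hD h1 h2 ht

theorem Jt_right {D eta ts : ℝ} (hD : 1 ≤ D) (h : Adm D eta ts) {t : ℝ} (ht : D + 1 ≤ t) :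
    Jt D eta ts t = eta := by
  unfold Jt
  rcases h with ⟨h0, h1, h2⟩ | ⟨h0, h1, h2⟩
  · rw [if_pos h0]
    exact jU_right hD (by linarith) h2 ht
  · rw [if_neg (not_le.2 h0)]
    exact jD_right hD h1 h2 ht

theorem Jt_abs {D eta ts : ℝ} (hD : 1 ≤ D) (h : Adm D eta ts) (t : ℝ) :
    |Jt D eta ts t| ≤ 2 * |eta| := by
  unfold Jt
  rcases h with ⟨h0, h1, h2⟩ | ⟨h0, h1, h2⟩
  · rw [if_pos h0, abs_of_nonneg h0, abs_of_nonneg (jU_mem hD (by linarith) h2 h0 t).1]
    exact jU_le_two hD (by linarith) h2 h0 t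
  · rw [if_neg (not_le.2 h0), abs_le]
    have := jD_mem hD h1 h2 h0.le t
    rw [abs_of_neg h0] at this ⊢
    exact ⟨by linarith, by linarith⟩

theorem Jt_iter (n : ℕ) : ∃ C, 1 ≤ C ∧ ∀ D eta ts : ℝ, 1 ≤ D → Adm D eta ts →
    ∀ k, 1 ≤ k → k ≤ n → ∀ t, |iteratedDeriv k (Jt D eta ts) t| ≤ C * (|eta| / D) := by
  obtain ⟨C1, h1, H1⟩ := jU_iter n
  obtain ⟨C2, h2, H2⟩ := jD_iter n
  refine ⟨max C1 C2, le_max_of_le_left h1, fun D eta ts hD h k hk1 hk2 t => ?_⟩
  have h0 : 0 ≤ |eta| / D := div_nonneg (abs_nonneg _) (by linarith)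
  unfold Jt
  rcases h with ⟨a0, a1, a2⟩ | ⟨a0, a1, a2⟩
  · rw [if_pos a0]
    exact (H1 D eta ts hD (by linarith) a2 k hk1 hk2 t).trans
      (mul_le_mul_of_nonneg_right (le_max_left _ _) h0)
  · rw [if_neg (not_le.2 a0)]
    exact (H2 D eta ts hD a1 a2 k hk1 hk2 t).trans
      (mul_le_mul_of_nonneg_right (le_max_right _ _) h0)

theorem Jt_energy {D eta ts : ℝ} (hD : 1 ≤ D) (h : Adm D eta ts) :
    ∫ t, deriv (Jt D eta ts) t ^ 2 ≤
      eta ^ 2 / (2 * D) * (1 + 4 * pAx D eta ts / (1 - pAx D eta ts)) := by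
  unfold Jt pAx
  rcases h with ⟨a0, a1, a2⟩ | ⟨a0, a1, a2⟩
  · rw [if_pos a0, if_pos a0]
    exact jU_energy' hD (by linarith) a2
  · rw [if_neg (not_le.2 a0), if_neg (not_le.2 a0)]
    exact jD_energy hD a1 a2

/-- the cost of the profile in units of `X = D / kap0`. -/
theorem Jt_cost {D eta ts X : ℝ} (hD : 1 ≤ D) (hX : 0 < X) (h : Adm D eta ts) :
    D / X * ∫ t, deriv (Jt D eta ts) t ^ 2 ≤ eta ^ 2 / (2 * X)
      + 2 * eta ^ 2 * pAx D eta ts / ((1 - pAx D eta ts) * X) := by
  have h1 := Jt_energy hD h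
  have hp : pAx D eta ts ≤ 5 / 8 := by
    unfold pAx
    rcases h with ⟨a0, a1, a2⟩ | ⟨a0, a1, a2⟩
    · rw [if_pos a0]
      exact pU_le hD (by linarith)
    · rw [if_neg (not_le.2 a0)]
      exact pU_le hD (by linarith)
  have h2 : 0 ≤ D / X := div_nonneg (by linarith) hX.le
  refine (mul_le_mul_of_nonneg_left h1 h2).trans (le_of_eq ?_)
  have h3 : 1 - pAx D eta ts ≠ 0 := by linarith
  have h4 : D ≠ 0 := by linarith
  field_simp
  ring

variable {ι : Type*}

/-- **The pointwise bound for a configuration.**  `En ts` is the energy and `lf ts i` the logarithm of the factor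
of the object `i` if the apex of the profile is at `ts`. -/
theorem conf (s : Finset ι) (fl : ι → Prop) (t w : ι → ℝ) (kap : ι → ℝ → ℝ) (Kt nf : ι → ℝ)
    (En : ℝ → ℝ) (lf : ℝ → ι → ℝ) {D X eta M c base : ℝ} (hD : 1 ≤ D) (hX : 0 < X)
    (hη1 : eta ≤ 5 / 8 * Real.pi * X) (hη2 : -(3 / 8 * Real.pi * X) ≤ eta) (hM : 0 ≤ M)
    (hw : ∀ i ∈ s, fl i → 1 ≤ w i ∧ w i ≤ 2) (hk : ∀ i ∈ s, fl i → SD M (kap i))
    (hEn : ∀ ts, Adm D eta ts →
      En ts ≤ base + 2 * eta ^ 2 * pAx D eta ts / ((1 - pAx D eta ts) * X))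
    (hL : ∀ ts, Adm D eta ts → ∀ i ∈ s, fl i → t i ≤ D / 4 →
      lf ts i ≤ c - 2 * Real.pi * w i * (sm (kap i) (Jt D eta ts) (t i) + Kt i))
    (hR : ∀ ts, Adm D eta ts → ∀ i ∈ s, fl i → D / 4 < t i →
      lf ts i ≤ c - 2 * Real.pi * w i * (sm (kap i) (Jt D eta ts) (t i) + Kt i - eta))
    (hN : ∀ ts, Adm D eta ts → ∀ i ∈ s, ¬ fl i → lf ts i ≤ nf i) (g : ι → ℝ)
    (hg1 : ∀ i ∈ s, fl i → c + 4 * Real.pi * cS D eta M - 2 * Real.pi * w i * Kt i ≤ g i)
    (hg2 : ∀ i ∈ s, ¬ fl i → nf i ≤ g i) :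
    ∃ ts, Adm D eta ts ∧ En ts + ∑ i ∈ s, lf ts i ≤ base + ∑ i ∈ s, g i := by
  have hpi := Real.pi_pos
  have hcS := cS_nonneg (eta := eta) hD hM
  rcases le_or_gt 0 eta with h0 | h0
  · -- the upper line
    obtain ⟨ts, t1, t2, t3, t4⟩ := exists_apexU s fl t hD
    have had : Adm D eta ts := Or.inl ⟨h0, t1, t2⟩
    have eJ : Jt D eta ts = jU D eta ts := if_pos h0
    have ep : pAx D eta ts = pU D ts := if_pos h0
    have hE := hEn ts had
    rw [ep] at hE
    have hp0 : 0 ≤ pU D ts := pU_nonneg hD t2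
    have hp1 : pU D ts ≤ 3 / 8 := by
      unfold pU
      rw [div_le_iff₀ (by linarith)]
      linarith
    have hsm : ∀ i ∈ s, fl i → -cS D eta M ≤ sm (kap i) (jU D eta ts) (t i) ∧
        (ts ≤ t i → eta - cS D eta M ≤ sm (kap i) (jU D eta ts) (t i)) ∧
        (t i = ts → eta * (1 + pU D ts) - cS D eta M ≤ sm (kap i) (jU D eta ts) (t i)) := by
      intro i hi hf
      have h := hk i hi hf
      have h2 := jU_smear_ge (eta := eta) hD (by linarith : -(D / 4) ≤ ts) t2 h0 h.int h.mass h.int1 h.mom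
        hM (t i)
      unfold cS
      rw [abs_of_nonneg h0]
      exact h2
    refine ⟨ts, had, ?_⟩
    set P := 2 * eta ^ 2 * pU D ts / ((1 - pU D ts) * X) with hP
    have key : P + ∑ i ∈ s, lf ts i ≤ ∑ i ∈ s, g i := by
      refine sum_pay s _ g (fun i hi => ?_) ?_
      · by_cases hf : fl i
        · obtain ⟨w1, w2⟩ := hw i hi hf
          obtain ⟨s1, s2, -⟩ := hsm i hi hf
          have hgi := hg1 i hi hf
          rcases le_or_gt (t i) (D / 4) with hc | hc
          · have h := hL ts had i hi hf hc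
            rw [eJ] at h
            have : 2 * Real.pi * w i * (-cS D eta M) ≤
                2 * Real.pi * w i * sm (kap i) (jU D eta ts) (t i) :=
              mul_le_mul_of_nonneg_left s1 (by positivity)
            have h5 : 2 * Real.pi * (w i * cS D eta M) ≤ 2 * Real.pi * (2 * cS D eta M) :=
              mul_le_mul_of_nonneg_left (mul_le_mul_of_nonneg_right w2 hcS) (by positivity)
            linarith
          · have h := hR ts had i hi hf hc
            rw [eJ] at h
            have s2' := s2 (t3 i hi hf hc)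
            have : 2 * Real.pi * w i * (eta - cS D eta M) ≤
                2 * Real.pi * w i * sm (kap i) (jU D eta ts) (t i) :=
              mul_le_mul_of_nonneg_left s2' (by positivity)
            have h5 : 2 * Real.pi * (w i * cS D eta M) ≤ 2 * Real.pi * (2 * cS D eta M) :=
              mul_le_mul_of_nonneg_left (mul_le_mul_of_nonneg_right w2 hcS) (by positivity)
            linarith
        · exact (hN ts had i hi hf).trans (hg2 i hi hf)
      · rcases t4 with h | ⟨i, hi, hf, hc, h⟩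
        · left
          have : pU D ts = 0 := by
            unfold pU
            rw [h, sub_self, zero_div]
          rw [hP, this]
          simp
        · right
          refine ⟨i, hi, ?_⟩
          obtain ⟨w1, w2⟩ := hw i hi hf
          obtain ⟨-, -, s3⟩ := hsm i hi hf
          have s3' := s3 h
          have hgi := hg1 i hi hf
          have h1 := hR ts had i hi hf hc
          rw [eJ] at h1
          have hnet : P ≤ 2 * Real.pi * w i * eta * pU D ts := by
            refine netU hX h0 ?_ hp0 (by linarith) w1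
            have : Real.pi * (5 / 8) * X ≤ Real.pi * (1 - pU D ts) * X :=
              mul_le_mul_of_nonneg_right (mul_le_mul_of_nonneg_left (by linarith) hpi.le) hX.le
            linarith
          have : 2 * Real.pi * w i * (eta * (1 + pU D ts) - cS D eta M) ≤
              2 * Real.pi * w i * sm (kap i) (jU D eta ts) (t i) :=
            mul_le_mul_of_nonneg_left s3' (by positivity)
          have h5 : 2 * Real.pi * (w i * cS D eta M) ≤ 2 * Real.pi * (2 * cS D eta M) :=
            mul_le_mul_of_nonneg_left (mul_le_mul_of_nonneg_right w2 hcS) (by positivity)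
          linarith
    linarith
  · -- the lower line
    obtain ⟨ts, t1, t2, t3, t4⟩ := exists_apexD s fl t hD
    have had : Adm D eta ts := Or.inr ⟨h0, t1, t2⟩
    have eJ : Jt D eta ts = jD D eta ts := if_neg (not_le.2 h0)
    have ep : pAx D eta ts = pU D (-ts) := if_neg (not_le.2 h0)
    have hE := hEn ts had
    rw [ep] at hE
    have hp0 : 0 ≤ pU D (-ts) := pU_nonneg hD (by linarith)
    have hp1 : pU D (-ts) ≤ 5 / 8 := pU_le hD (by linarith)
    have hsm : ∀ i ∈ s, fl i → eta - cS D eta M ≤ sm (kap i) (jD D eta ts) (t i) ∧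
        (t i ≤ ts → -cS D eta M ≤ sm (kap i) (jD D eta ts) (t i)) ∧
        (t i = ts → |eta| * pU D (-ts) - cS D eta M ≤ sm (kap i) (jD D eta ts) (t i)) := by
      intro i hi hf
      have h := hk i hi hf
      exact jD_smear_ge (eta := eta) hD t1 t2 h0.le h.int h.mass h.int1 h.mom (t i)
    refine ⟨ts, had, ?_⟩
    set P := 2 * eta ^ 2 * pU D (-ts) / ((1 - pU D (-ts)) * X) with hP
    have key : P + ∑ i ∈ s, lf ts i ≤ ∑ i ∈ s, g i := by
      refine sum_pay s _ g (fun i hi => ?_) ?_
      · by_cases hf : fl i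
        · obtain ⟨w1, w2⟩ := hw i hi hf
          obtain ⟨s1, s2, -⟩ := hsm i hi hf
          have hgi := hg1 i hi hf
          rcases le_or_gt (t i) (D / 4) with hc | hc
          · have h := hL ts had i hi hf hc
            rw [eJ] at h
            have s2' := s2 (t3 i hi hf hc)
            have : 2 * Real.pi * w i * (-cS D eta M) ≤
                2 * Real.pi * w i * sm (kap i) (jD D eta ts) (t i) :=
              mul_le_mul_of_nonneg_left s2' (by positivity)
            have h5 : 2 * Real.pi * (w i * cS D eta M) ≤ 2 * Real.pi * (2 * cS D eta M) :=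
              mul_le_mul_of_nonneg_left (mul_le_mul_of_nonneg_right w2 hcS) (by positivity)
            linarith
          · have h := hR ts had i hi hf hc
            rw [eJ] at h
            have : 2 * Real.pi * w i * (eta - cS D eta M) ≤
                2 * Real.pi * w i * sm (kap i) (jD D eta ts) (t i) :=
              mul_le_mul_of_nonneg_left s1 (by positivity)
            have h5 : 2 * Real.pi * (w i * cS D eta M) ≤ 2 * Real.pi * (2 * cS D eta M) :=
              mul_le_mul_of_nonneg_left (mul_le_mul_of_nonneg_right w2 hcS) (by positivity)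
            linarith
        · exact (hN ts had i hi hf).trans (hg2 i hi hf)
      · rcases t4 with h | ⟨i, hi, hf, hc, h⟩
        · left
          have : pU D (-ts) = 0 := by
            unfold pU
            rw [h, neg_neg, sub_self, zero_div]
          rw [hP, this]
          simp
        · right
          refine ⟨i, hi, ?_⟩
          obtain ⟨w1, w2⟩ := hw i hi hf
          obtain ⟨-, -, s3⟩ := hsm i hi hf
          have s3' := s3 h
          rw [abs_of_neg h0] at s3'
          have hgi := hg1 i hi hf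
          have h1 := hL ts had i hi hf hc
          rw [eJ] at h1
          have hnet : P ≤ 2 * Real.pi * w i * (-eta) * pU D (-ts) := by
            rw [hP, ← neg_sq eta]
            refine netU hX (by linarith) ?_ hp0 (by linarith) w1
            have : Real.pi * (3 / 8) * X ≤ Real.pi * (1 - pU D (-ts)) * X :=
              mul_le_mul_of_nonneg_right (mul_le_mul_of_nonneg_left (by linarith) hpi.le) hX.le
            linarith
          have : 2 * Real.pi * w i * (-eta * pU D (-ts) - cS D eta M) ≤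
              2 * Real.pi * w i * sm (kap i) (jD D eta ts) (t i) :=
            mul_le_mul_of_nonneg_left s3' (by positivity)
          have h5 : 2 * Real.pi * (w i * cS D eta M) ≤ 2 * Real.pi * (2 * cS D eta M) :=
            mul_le_mul_of_nonneg_left (mul_le_mul_of_nonneg_right w2 hcS) (by positivity)
          linarith
    linarith

end NUCR
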