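import Pool.Agent.NUCR.G0
import Pool.Agent.NUCR.Conf

/-!
# The pointwise bound for a configuration with the constant current (B6 of board/CR, continued)

`sm_chi*` : the smeared plateau `chi D` is `1 + O(1/r)` at distance `r` inside and `O(1/r)` at distance `r` outside.
`conf_total2` : the pointwise bound for the total current `Jt + K chi - eta Nc`, from `En_total` and `conf`.
-/

set_option autoImplicit false

open MeasureTheory Set

noncomputable section

namespace NUCR

open NUMF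

/-- tail bound: a function that is bounded by `1` and vanishes at distance `r`. -/
theorem sm_tail {M : ℝ} {kap f : ℝ → ℝ} (h : SD M kap) {t r c : ℝ} (hr : 0 < r) (hf : Continuous f)
    (h1 : ∀ x, |f x - c| ≤ 1) (h0 : ∀ x, |x - t| ≤ r → f x = c) : |sm kap f t - c| ≤ M / r := by
  have hb : ∀ u, |kap u * (f (t - u) - c)| ≤ r⁻¹ * (|u| * |kap u|) := by
    intro u
    rw [abs_mul]
    rcases le_or_gt |u| r with hu | hu
    · rw [h0 (t - u) (by rw [show t - u - t = -u by ring, abs_neg]; exact hu), sub_self, abs_zero, mul_zero]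
      positivity
    · have h2 : 1 ≤ r⁻¹ * |u| := by
        rw [inv_mul_eq_div, one_le_div hr]
        exact hu.le
      calc |kap u| * |f (t - u) - c| ≤ |kap u| * 1 := mul_le_mul_of_nonneg_left (h1 _) (abs_nonneg _)
        _ ≤ |kap u| * (r⁻¹ * |u|) := mul_le_mul_of_nonneg_left h2 (abs_nonneg _)
        _ = _ := by ring
  have hi : Integrable fun u => kap u * (f (t - u) - c) := by
    refine (h.int1.const_mul r⁻¹).mono' ?_ (Filter.Eventually.of_forall fun u => ?_)
    · exact h.int.aestronglyMeasurable.mul (by fun_prop : Continuous fun u => f (t - u) - c).aestronglyMeasurable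
    · rw [Real.norm_eq_abs]
      exact hb u
  have e : sm kap f t - c = ∫ u, kap u * (f (t - u) - c) := by
    have i2 : Integrable fun u => kap u * c := h.int.mul_const c
    have i3 : Integrable fun u => kap u * f (t - u) := by
      refine (hi.add i2).congr (Filter.Eventually.of_forall fun u => ?_)
      simp only [Pi.add_apply]
      ring
    unfold sm
    calc (∫ u, kap u * f (t - u)) - c = (∫ u, kap u * f (t - u)) - ∫ u, kap u * c := by
          rw [integral_mul_const, h.mass, one_mul]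
      _ = ∫ u, (kap u * f (t - u) - kap u * c) := (integral_sub i3 i2).symm
      _ = _ := by
          congr 1
          funext u
          ring
  rw [e]
  calc |∫ u, kap u * (f (t - u) - c)| ≤ ∫ u, |kap u * (f (t - u) - c)| := abs_integral_le_integral_abs
    _ ≤ ∫ u, r⁻¹ * (|u| * |kap u|) := integral_mono hi.abs (h.int1.const_mul _) hb
    _ = r⁻¹ * ∫ u, |u| * |kap u| := integral_const_mul _ _
    _ ≤ r⁻¹ * M := mul_le_mul_of_nonneg_left h.mom (by positivity)
    _ = M / r := by rw [div_eq_mul_inv, mul_comm]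

theorem chi_cont (D : ℝ) : Continuous (chi D) := (chi_smooth 0 D).continuous

/-- inside the plateau. -/
theorem sm_chi_in {M D : ℝ} {kap : ℝ → ℝ} (h : SD M kap) {t r : ℝ} (hr : 0 < r) (ht : |t| + r ≤ D - 1) :
    |sm kap (chi D) t - 1| ≤ M / r := by
  refine sm_tail h hr (chi_cont D) (fun x => ?_) fun x hx => chi_one ?_
  · rw [abs_le]
    exact ⟨by linarith [chi_nonneg D x], by linarith [chi_le_one D x]⟩
  · have : |x| ≤ |x - t| + |t| := by
      have := abs_add_le (x - t) t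
      rwa [sub_add_cancel] at this
    linarith

/-- outside the plateau. -/
theorem sm_chi_out {M D : ℝ} {kap : ℝ → ℝ} (h : SD M kap) {t r : ℝ} (hr : 0 < r) (ht : D + 1 + r ≤ |t|) :
    |sm kap (chi D) t| ≤ M / r := by
  have := sm_tail (c := 0) h hr (chi_cont D) (fun x => ?_) (t := t) fun x hx => chi_zero ?_
  · rwa [sub_zero] at this
  · rw [sub_zero, abs_le]
    exact ⟨by linarith [chi_nonneg D x], by linarith [chi_le_one D x]⟩
  · have : |t| ≤ |x - t| + |x| := by
      have := abs_sub_abs_le_abs_sub t x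
      rw [abs_sub_comm t x] at this
      linarith
    linarith

/-- anywhere. -/
theorem sm_chi_all : ∃ B : ℝ, 0 ≤ B ∧ ∀ (M D : ℝ) (kap : ℝ → ℝ), SD M kap → ∀ t, |sm kap (chi D) t| ≤ 1 + B * M := by
  obtain ⟨B, hB, h⟩ := chi'_BI
  refine ⟨B, hB, fun M D kap hk t => ?_⟩
  have hl : ∀ x y, |chi D x - chi D y| ≤ B * |x - y| := by
    intro x y
    have := Convex.norm_image_sub_le_of_norm_hasDerivWithin_le (f := chi D)
      (f' := chi' D) (s := univ) (C := B) (x := y) (y := x)
      (fun t _ => (chi_deriv D t).hasDerivWithinAt)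
      (fun t _ => by rw [Real.norm_eq_abs]; exact (h D).1.bd t)
      convex_univ (mem_univ y) (mem_univ x)
    simpa [Real.norm_eq_abs] using this
  have h2 := (smear hl hk.int hk.mass hk.int1 hk.mom hB t).2
  have h3 : |chi D t| ≤ 1 := by
    rw [abs_of_nonneg (chi_nonneg D t)]
    exact chi_le_one D t
  have h4 : |sm kap (chi D) t| ≤ |sm kap (chi D) t - chi D t| + |chi D t| := by
    have := abs_add_le (sm kap (chi D) t - chi D t) (chi D t)
    rwa [sub_add_cancel] at this
  have h5 : |sm kap (chi D) t - chi D t| ≤ B * M := h2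
  linarith

/-- the gain of a flat object with winding `w` at height `t`: `2 pi w (K - 1)` inside, nothing outside, a constant loss
near the ends of the plateau. -/
def gK (K D R L w t : ℝ) : ℝ :=
  if |t| ≤ D - R then 2 * Real.pi * w * (K - 1) else if |t| < D + R then -L else -(4 * Real.pi)

/-- **gain of the constant current**: for every `K`, `M` there are `R`, `L`. -/
theorem gain (K M : ℝ) (hK : 0 ≤ K) (hM : 0 ≤ M) : ∃ R L : ℝ, 1 ≤ R ∧ 0 ≤ L ∧ ∀ (D w t : ℝ) (kap : ℝ → ℝ),
    1 ≤ w → w ≤ 2 → SD M kap → gK K D R L w t ≤ 2 * Real.pi * w * (K * sm kap (chi D) t) := by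
  obtain ⟨B, hB, h⟩ := sm_chi_all
  have hpi := Real.pi_pos
  have hr : 0 < K * M + 1 := by positivity
  refine ⟨K * M + 2, 4 * Real.pi * (K * (1 + B * M)), by nlinarith [mul_nonneg hK hM], by positivity,
    fun D w t kap w1 w2 hk => ?_⟩
  have hw : 0 ≤ 2 * Real.pi * w := by positivity
  have hKM : K * (M / (K * M + 1)) ≤ 1 := by
    rw [← mul_div_assoc, div_le_one hr]
    linarith
  unfold gK
  split_ifs with c1 c2
  · have h1 := sm_chi_in (D := D) hk hr (t := t) (by linarith)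
    rw [abs_le] at h1
    have h2 : K - 1 ≤ K * sm kap (chi D) t := by nlinarith [h1.1]
    exact mul_le_mul_of_nonneg_left h2 hw
  · have h1 := h M D kap hk t
    rw [abs_le] at h1
    have h2 : -(K * (1 + B * M)) ≤ K * sm kap (chi D) t := by nlinarith [h1.1]
    have h3 : 2 * Real.pi * w * -(K * (1 + B * M)) ≤ 2 * Real.pi * w * (K * sm kap (chi D) t) :=
      mul_le_mul_of_nonneg_left h2 hw
    have h4 : 2 * Real.pi * (w * (K * (1 + B * M))) ≤ 2 * Real.pi * (2 * (K * (1 + B * M))) :=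
      mul_le_mul_of_nonneg_left (mul_le_mul_of_nonneg_right w2 (by positivity)) (by positivity)
    linarith
  · have h1 := sm_chi_out (D := D) hk hr (t := t) (by linarith)
    rw [abs_le] at h1
    have h2 : -1 ≤ K * sm kap (chi D) t := by nlinarith [h1.1]
    have h3 : 2 * Real.pi * w * -1 ≤ 2 * Real.pi * w * (K * sm kap (chi D) t) :=
      mul_le_mul_of_nonneg_left h2 hw
    have h4 : 2 * Real.pi * w ≤ 2 * Real.pi * 2 := mul_le_mul_of_nonneg_left w2 (by positivity)
    linarith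

/-- the derivative of the profile is bounded and integrable. -/
theorem dJt_BI : ∃ C : ℝ, 1 ≤ C ∧ ∀ D eta ts : ℝ, 1 ≤ D → Adm D eta ts →
    BI (C * (|eta| / D)) (deriv (Jt D eta ts)) := by
  obtain ⟨C, hC, h⟩ := Jt_iter 1
  refine ⟨C, hC, fun D eta ts hD had => ?_⟩
  have hcont : Continuous (deriv (Jt D eta ts)) := (Jt_smooth 1).continuous_deriv (by norm_num)
  have hz : ∀ t, D + 2 ≤ |t| → deriv (Jt D eta ts) t = 0 := by
    intro t ht
    rcases le_abs.1 ht with h1 | h1
    · have e : Jt D eta ts =ᶠ[nhds t] fun _ => eta := by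
        filter_upwards [Ioi_mem_nhds (show D + 1 < t by linarith)] with x hx
        exact Jt_right hD had (le_of_lt hx)
      rw [e.deriv_eq]
      simp
    · have e : Jt D eta ts =ᶠ[nhds t] fun _ => (0 : ℝ) := by
        filter_upwards [Iio_mem_nhds (show t < -D - 1 by linarith)] with x hx
        exact Jt_left hD had (le_of_lt hx)
      rw [e.deriv_eq]
      simp
  refine ⟨?_, fun t => ?_⟩
  · refine hcont.integrable_of_hasCompactSupport ?_
    refine HasCompactSupport.intro (isCompact_Icc (a := -(D + 2)) (b := D + 2)) fun x hx => hz x ?_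
    by_contra hc
    exact hx (abs_le.1 (not_le.1 hc).le)
  · have := h D eta ts hD had 1 le_rfl le_rfl t
    rwa [iteratedDeriv_one] at this

/-- bound for `|eta| / D`. -/
def Bη : ℝ := 5 / 8 * Real.pi / kap0

theorem Bη_pos : 0 < Bη := by
  unfold Bη
  have := kap0_pos
  positivity

theorem sq_exp_leK {D : ℝ} (hD : 0 ≤ D) : D ^ 2 * Real.exp (-(4 / 3) * (D / 2 - 1)) ≤ 9 / 2 * Real.exp (4 / 3) := by
  have h1 := Real.quadratic_le_exp_of_nonneg (show 0 ≤ 2 / 3 * D by positivity)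
  have h2 : D ^ 2 ≤ 9 / 2 * Real.exp (2 / 3 * D) := by nlinarith
  have h3 : Real.exp (-(4 / 3) * (D / 2 - 1)) = Real.exp (4 / 3) * (Real.exp (2 / 3 * D))⁻¹ := by
    rw [← Real.exp_neg, ← Real.exp_add]
    congr 1
    ring
  rw [h3]
  have h4 := Real.exp_pos (2 / 3 * D)
  have h5 := Real.exp_pos (4 / 3 : ℝ)
  calc D ^ 2 * (Real.exp (4 / 3) * (Real.exp (2 / 3 * D))⁻¹)
      ≤ (9 / 2 * Real.exp (2 / 3 * D)) * (Real.exp (4 / 3) * (Real.exp (2 / 3 * D))⁻¹) :=
        mul_le_mul_of_nonneg_right h2 (by positivity)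
    _ = 9 / 2 * Real.exp (4 / 3) * (Real.exp (2 / 3 * D) * (Real.exp (2 / 3 * D))⁻¹) := by ring
    _ = _ := by rw [mul_inv_cancel₀ h4.ne', mul_one]

/-- the range of `eta`: slightly more than `- (pi / 4) X <= eta <= 1.7 X`. -/
def Rng (D eta : ℝ) : Prop := eta ≤ 5 / 8 * Real.pi * (D / kap0) ∧ -(3 / 8 * Real.pi * (D / kap0)) ≤ eta

theorem Rng.abs {D eta : ℝ} (h : Rng D eta) (hD : 0 ≤ D) : |eta| ≤ Bη * D := by
  have hk := kap0_pos
  have hpi := Real.pi_pos
  have e : Bη * D = 5 / 8 * Real.pi * (D / kap0) := by unfold Bη; ring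
  have h0 : 0 ≤ Real.pi * (D / kap0) := by positivity
  rw [e, abs_le]
  exact ⟨by linarith [h.2], h.1⟩

/-- **energy of the total current with the profile `Jt`.** -/
theorem En_Jt (K : ℝ) : ∃ CK : ℝ, 0 ≤ CK ∧ ∀ D eta ts : ℝ, 4 ≤ D → Rng D eta → Adm D eta ts →
    En eta (fun t => (deriv (Jt D eta ts) t + K * chi' D t) - eta * Pcut (D / 2 - 1) t) ≤
      -eta ^ 2 * (∫ t, P t * v t) + eta ^ 2 / (2 * (D / kap0)) + CK
        + 2 * eta ^ 2 * pAx D eta ts / ((1 - pAx D eta ts) * (D / kap0)) := by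
  obtain ⟨A, hA, hE⟩ := En_total
  obtain ⟨C, hC, hB⟩ := dJt_BI
  have hk := kap0_pos
  have hb := Bη_pos
  refine ⟨A * (|K| * (C * Bη) + K ^ 2) + A * (Bη * (C * Bη + |K|) + Bη ^ 2) * (9 / 2 * Real.exp (4 / 3)),
    by positivity, fun D eta ts hD hr had => ?_⟩
  have hD0 : 0 < D := by linarith
  have he := hr.abs hD0.le
  have hM : C * (|eta| / D) ≤ C * Bη := by
    refine mul_le_mul_of_nonneg_left ?_ (by linarith)
    rw [div_le_iff₀ hD0]
    exact he
  have ha : BI (C * Bη) (deriv (Jt D eta ts)) :=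
    ⟨(hB D eta ts (by linarith) had).int, fun t => ((hB D eta ts (by linarith) had).bd t).trans hM⟩
  refine (hE (D / 2 - 1) (by linarith) D eta K (C * Bη) _ ha).trans ?_
  have hX : 0 < D / kap0 := by positivity
  have h1 := Jt_cost (by linarith : 1 ≤ D) hX had
  have e1 : D / (D / kap0) = kap0 := by field_simp
  rw [e1] at h1
  have h2 : A * (|eta| * (C * Bη + |K|) + eta ^ 2) * Real.exp (-(4 / 3) * (D / 2 - 1)) ≤
      A * (Bη * (C * Bη + |K|) + Bη ^ 2) * (9 / 2 * Real.exp (4 / 3)) := by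
    have h3 : |eta| * (C * Bη + |K|) + eta ^ 2 ≤ (Bη * (C * Bη + |K|) + Bη ^ 2) * D ^ 2 := by
      have h4 : |eta| * (C * Bη + |K|) ≤ Bη * D * (C * Bη + |K|) :=
        mul_le_mul_of_nonneg_right he (by positivity)
      have h5 : eta ^ 2 ≤ (Bη * D) ^ 2 := by
        rw [← sq_abs]
        exact pow_le_pow_left₀ (abs_nonneg _) he 2
      have h6 : Bη * D * (C * Bη + |K|) ≤ Bη * (C * Bη + |K|) * D ^ 2 := by
        have h7 : D ≤ D ^ 2 := by nlinarith
        have h8 : 0 ≤ Bη * (C * Bη + |K|) := by positivity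
        calc Bη * D * (C * Bη + |K|) = Bη * (C * Bη + |K|) * D := by ring
          _ ≤ _ := mul_le_mul_of_nonneg_left h7 h8
      have e2 : (Bη * D) ^ 2 = Bη ^ 2 * D ^ 2 := by ring
      linarith
    have h9 := sq_exp_leK hD0.le
    have h10 := Real.exp_pos (-(4 / 3) * (D / 2 - 1))
    calc A * (|eta| * (C * Bη + |K|) + eta ^ 2) * Real.exp (-(4 / 3) * (D / 2 - 1))
        ≤ A * ((Bη * (C * Bη + |K|) + Bη ^ 2) * D ^ 2) * Real.exp (-(4 / 3) * (D / 2 - 1)) :=
          mul_le_mul_of_nonneg_right (mul_le_mul_of_nonneg_left h3 hA) h10.le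
      _ = A * (Bη * (C * Bη + |K|) + Bη ^ 2) * (D ^ 2 * Real.exp (-(4 / 3) * (D / 2 - 1))) := by ring
      _ ≤ _ := mul_le_mul_of_nonneg_left h9 (by positivity)
  have h11 : A * (|K| * (C * Bη) + K ^ 2) + A * (|eta| * (C * Bη + |K|) + eta ^ 2) *
      Real.exp (-(4 / 3) * (D / 2 - 1)) ≤ A * (|K| * (C * Bη) + K ^ 2) +
        A * (Bη * (C * Bη + |K|) + Bη ^ 2) * (9 / 2 * Real.exp (4 / 3)) := by linarith
  linarith

/-- **B6: the pointwise bound for a configuration of objects.**  For every constant current `K`, every `M` (moments of the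
smearing densities) and every error `c` of the branch factors there are constants `CK`, `C`, `R`, `L` (`C` does not depend
on `K`): the energy and the factors of all flat objects together are bounded by `-eta^2 E_1 + eta^2 / (2 X) + CK`, and by
`C - gK` for every flat object. -/
theorem conf_total2 (M c : ℝ) (hM : 0 ≤ M) : ∃ C : ℝ, 0 ≤ C ∧ ∀ K : ℝ, 0 ≤ K → ∃ CK R L : ℝ, 0 ≤ CK ∧ 1 ≤ R ∧ 0 ≤ L ∧
    ∀ D eta : ℝ, 4 ≤ D → Rng D eta → ∀ (ι : Type) (s : Finset ι) (fl : ι → Prop) (t w : ι → ℝ) (kap : ι → ℝ → ℝ)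
      (nf : ι → ℝ) (lf : ℝ → ι → ℝ),
    (∀ i ∈ s, fl i → 1 ≤ w i ∧ w i ≤ 2) → (∀ i ∈ s, fl i → SD M (kap i)) →
    (∀ ts, Adm D eta ts → ∀ i ∈ s, fl i → t i ≤ D / 4 → lf ts i ≤
      c - 2 * Real.pi * w i * (sm (kap i) (Jt D eta ts) (t i) + K * sm (kap i) (chi D) (t i))) →
    (∀ ts, Adm D eta ts → ∀ i ∈ s, fl i → D / 4 < t i → lf ts i ≤
      c - 2 * Real.pi * w i * (sm (kap i) (Jt D eta ts) (t i) + K * sm (kap i) (chi D) (t i) - eta)) →
    (∀ ts, Adm D eta ts → ∀ i ∈ s, ¬ fl i → lf ts i ≤ nf i) → ∀ g : ι → ℝ,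
    (∀ i ∈ s, fl i → C - gK K D R L (w i) (t i) ≤ g i) → (∀ i ∈ s, ¬ fl i → nf i ≤ g i) →
    ∃ ts, Adm D eta ts ∧
      En eta (fun t => (deriv (Jt D eta ts) t + K * chi' D t) - eta * Pcut (D / 2 - 1) t) + ∑ i ∈ s, lf ts i ≤
        (-eta ^ 2 * (∫ t, P t * v t) + eta ^ 2 / (2 * (D / kap0)) + CK) + ∑ i ∈ s, g i := by
  have hk := kap0_pos
  have hb := Bη_pos
  have hpi := Real.pi_pos
  refine ⟨max 0 (c + 4 * Real.pi * (8 / 3 * Bη * (M + 2))), le_max_left _ _, fun K hK => ?_⟩
  obtain ⟨CK, hCK, hEn⟩ := En_Jt K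
  obtain ⟨R, L, hR, hL, hg⟩ := gain K M hK hM
  refine ⟨CK, R, L, hCK, hR, hL, fun D eta hD hr ι s fl t w kap nf lf hw hkap h1 h2 h3 g hg1 hg2 => ?_⟩
  have hX : 0 < D / kap0 := by positivity
  have hD0 : 0 < D := by linarith
  have hcS : cS D eta M ≤ 8 / 3 * Bη * (M + 2) := by
    unfold cS
    refine mul_le_mul_of_nonneg_right (mul_le_mul_of_nonneg_left ?_ (by norm_num)) (by linarith)
    rw [div_le_iff₀ hD0]
    exact hr.abs hD0.le
  exact conf s fl t w kap (fun i => K * sm (kap i) (chi D) (t i)) nf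
    (fun ts => En eta (fun t => (deriv (Jt D eta ts) t + K * chi' D t) - eta * Pcut (D / 2 - 1) t)) lf
    (by linarith) hX hr.1 hr.2 hM hw hkap (fun ts had => hEn D eta ts hD hr had) h1 h2 h3 g
    (fun i hi hf => by
      have h4 := hg1 i hi hf
      have h5 := hg D (w i) (t i) (kap i) (hw i hi hf).1 (hw i hi hf).2 (hkap i hi hf)
      have h6 := le_max_right 0 (c + 4 * Real.pi * (8 / 3 * Bη * (M + 2)))
      have h7 : 4 * Real.pi * cS D eta M ≤ 4 * Real.pi * (8 / 3 * Bη * (M + 2)) :=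
        mul_le_mul_of_nonneg_left hcS (by positivity)
      linarith) hg2

end NUCR
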