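import Pool.Agent.NUCR.PlatA
import Pool.Agent.NUO.KwClosed

/-!
# `kw j = kapd j`, and its integral
-/

set_option autoImplicit false

open MeasureTheory Set Filter Topology

namespace NUCR

open NUMF

lemma kb1_kd (y t : ℝ) : NUO.kb1 y t = -kd t y := by
  unfold NUO.kb1 kd
  ring

theorem kw_eq_kapd (j t : ℝ) : NUO.kw j t = kapd j t := by
  rw [NUO.kw_closed]
  simp only [kb1_kd]
  unfold kapd
  ring

/-- `∫ kapd j = 2 π ν j` -/
theorem kapd_integral {δ j : ℝ} (h : NUO.Off δ j) (hδ : 0 < δ) : Integrable (kapd j) ∧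
    ∫ t, kapd j t = 2 * Real.pi * NUO.wnu j := by
  have e : NUO.kw j = kapd j := funext fun t => kw_eq_kapd j t
  have h1 := NUO.kw_integral h hδ
  rwa [e] at h1

theorem kapd_bound_off {δ j : ℝ} (h : NUO.Off δ j) (hδ : 0 < δ) (t : ℝ) :
    |kapd j t| ≤ 24 / Real.sin (δ * l) * Real.exp (-2 * |t|) := by
  rw [← kw_eq_kapd]
  exact NUO.kw_bound h hδ t

end NUCR
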