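import Pool.Agent.NUCR.LgEq
import Pool.Agent.NUCR.ConfK
import Pool.Agent.NUCR.KwKapd
import Pool.Agent.NUO.Wind

/-!
# Flat objects in the total current, in the form of `conf_total2` (board/CR, B3 into B6, helper78)
-/

set_option autoImplicit false

open MeasureTheory Set Filter Topology

namespace NUCR

open NUMF

noncomputable section

/-- the total current of the B-layer -/
def jtot (D eta ts K t : ℝ) : ℝ := Jt D eta ts t + K * chi D t - eta * Nc (D / 2 - 1) t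

variable {w : ℝ} {a κ : ℝ → ℝ}

theorem Flat.sd (h : Flat w a κ) : SD (∫ u, |u| * |kn w κ u|) (kn w κ) :=
  ⟨h.kn_all.1, h.kn_all.2.1, h.kn_all.2.2, le_rfl⟩

lemma eta_tiny {D eta : ℝ} (hD : 4 ≤ D) (h : Rng D eta) :
    |eta| * Real.exp (-(8 / 3) * (D / 2 - 1)) ≤ Bη * Real.exp (8 / 3) := by
  have h1 := h.abs (by linarith)
  have hb := Bη_pos
  have e : Real.exp (-(8 / 3) * (D / 2 - 1)) = Real.exp (8 / 3) * Real.exp (-(4 / 3) * D) := by
    rw [← Real.exp_add]
    congr 1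
    ring
  have h2 : D * Real.exp (-(4 / 3) * D) ≤ 1 := by
    have h3 : D ≤ Real.exp (4 / 3 * D) := by
      have := Real.add_one_le_exp (4 / 3 * D)
      linarith
    have h4 : Real.exp (4 / 3 * D) * Real.exp (-(4 / 3) * D) = 1 := by
      rw [← Real.exp_add]
      simp
    have h5 := Real.exp_pos (-(4 / 3) * D)
    nlinarith
  have h5 := Real.exp_pos (-(4 / 3) * D)
  have h6 := Real.exp_pos (8 / 3)
  rw [e]
  calc |eta| * (Real.exp (8 / 3) * Real.exp (-(4 / 3) * D)) ≤ Bη * D * (Real.exp (8 / 3) * Real.exp (-(4 / 3) * D)) :=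
        mul_le_mul_of_nonneg_right h1 (by positivity)
    _ = Bη * Real.exp (8 / 3) * (D * Real.exp (-(4 / 3) * D)) := by ring
    _ ≤ Bη * Real.exp (8 / 3) * 1 := mul_le_mul_of_nonneg_left h2 (by positivity)
    _ = _ := mul_one _

/-- masses of the two exponentials -/
def cE : ℝ := (∫ x : ℝ, Real.exp (-2 * |x|)) + ∫ x : ℝ, Real.exp (-1 * |x|)

lemma cE_parts : 0 ≤ (∫ x : ℝ, Real.exp (-2 * |x|)) ∧ 0 ≤ ∫ x : ℝ, Real.exp (-1 * |x|) :=
  ⟨integral_nonneg fun _ => (Real.exp_pos _).le, integral_nonneg fun _ => (Real.exp_pos _).le⟩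

lemma cE_nonneg : 0 ≤ cE := add_nonneg cE_parts.1 cE_parts.2

lemma ker_mass {κ : ℝ → ℝ} {C : ℝ} (hk : Ker κ) (hC : ∀ x, |κ x| ≤ C * Real.exp (-2 * |x|)) : 0 ≤ C ∧
    (∫ x, |κ x|) ≤ cE * C ∧ (∫ x, |x| * |κ x|) ≤ cE * C := by
  have hC0 : 0 ≤ C := by
    have h := (abs_nonneg _).trans (hC 0)
    have e : Real.exp (-2 * |(0:ℝ)|) = 1 := by simp
    rw [e, mul_one] at h
    exact h
  obtain ⟨p1, p2⟩ := cE_parts
  refine ⟨hC0, ?_, ?_⟩
  · calc (∫ x, |κ x|) ≤ ∫ x, C * Real.exp (-2 * |x|) :=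
          integral_mono hk.int.abs ((int_exp_abs (b := 2) two_pos).const_mul C) hC
      _ = C * ∫ x, Real.exp (-2 * |x|) := integral_const_mul _ _
      _ ≤ cE * C := by
          unfold cE
          nlinarith
  · have hb : ∀ x, |x| * |κ x| ≤ C * Real.exp (-1 * |x|) := by
      intro x
      have h1 : |x| ≤ Real.exp |x| := by
        have := Real.add_one_le_exp |x|
        linarith
      have h2 : Real.exp |x| * Real.exp (-2 * |x|) = Real.exp (-1 * |x|) := by
        rw [← Real.exp_add]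
        congr 1
        ring
      calc |x| * |κ x| ≤ Real.exp |x| * (C * Real.exp (-2 * |x|)) :=
            mul_le_mul h1 (hC x) (abs_nonneg _) (Real.exp_pos _).le
        _ = C * Real.exp (-1 * |x|) := by
            rw [← h2]
            ring
    calc (∫ x, |x| * |κ x|) ≤ ∫ x, C * Real.exp (-1 * |x|) :=
          integral_mono hk.mom ((int_exp_abs (b := 1) one_pos).const_mul C) hb
      _ = C * ∫ x, Real.exp (-1 * |x|) := integral_const_mul _ _
      _ ≤ cE * C := by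
          unfold cE
          nlinarith

/-- the smearing density, uniformly -/
theorem Flat.sd_unif (h : Flat w a κ) (hw : 1 ≤ w) {C : ℝ} (hC : ∀ x, |κ x| ≤ C * Real.exp (-2 * |x|)) :
    SD (cE * C) (kn w κ) := by
  obtain ⟨h0, h1, h2⟩ := ker_mass h.ker hC
  refine ⟨h.kn_all.1, h.kn_all.2.1, h.kn_all.2.2, le_trans ?_ h2⟩
  refine integral_mono h.kn_all.2.2 h.ker.mom fun x => ?_
  have hpi := Real.pi_gt_three
  have h3 : |kn w κ x| ≤ |κ x| := by
    unfold kn
    rw [abs_div, abs_of_pos h.c0]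
    exact div_le_self (abs_nonneg _) (by nlinarith)
  exact mul_le_mul_of_nonneg_left h3 (abs_nonneg _)

/-- **a flat object in the total current**, uniformly: left branch and right branch -/
theorem conf_unif : ∃ A : ℝ, 0 ≤ A ∧ ∀ (w : ℝ) (a κ : ℝ → ℝ) (C : ℝ), Flat w a κ →
    (∀ x, |κ x| ≤ C * Real.exp (-2 * |x|)) → ∀ D eta ts K t : ℝ, 4 ≤ D → Rng D eta → Adm D eta ts →
    Integrable (fun x => κ x * jtot D eta ts K (t - x)) ∧
    (-eta * a t - ∫ x, κ x * jtot D eta ts K (t - x) ≤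
      A * C - 2 * Real.pi * w * (sm (kn w κ) (Jt D eta ts) t + K * sm (kn w κ) (chi D) t)) ∧
    (-eta * (a t - 2 * Real.pi * w) - ∫ x, κ x * jtot D eta ts K (t - x) ≤
      A * C - 2 * Real.pi * w * (sm (kn w κ) (Jt D eta ts) t + K * sm (kn w κ) (chi D) t - eta)) := by
  obtain ⟨A, hA, hF⟩ := factor_unif
  have hb := Bη_pos
  have hcE := cE_nonneg
  refine ⟨A * cE * (Bη * Real.exp (8 / 3)), by positivity, fun w a κ C h hC D eta ts K t hD hr had => ?_⟩
  obtain ⟨hC0, hm, -⟩ := ker_mass h.ker hC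
  have i1 : Integrable fun x => kn w κ x * Jt D eta ts (t - x) := by
    refine h.kn_ker.int.mul_bdd (c := 2 * |eta|) ?_ (Eventually.of_forall fun x => ?_)
    · exact (((Jt_smooth 0).continuous).comp (continuous_const.sub continuous_id)).aestronglyMeasurable
    · exact Jt_abs (by linarith) had _
  have i2 : Integrable fun x => kn w κ x * chi D (t - x) := by
    refine h.kn_ker.int.mul_bdd (c := 1) ?_ (Eventually.of_forall fun x => ?_)
    · exact ((chi_cont D).comp (continuous_const.sub continuous_id)).aestronglyMeasurable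
    · rw [Real.norm_eq_abs, abs_of_nonneg (chi_nonneg D _)]
      exact chi_le_one D _
  have e0 : (fun x => kn w κ x * (Jt D eta ts (t - x) + K * chi D (t - x))) =
      fun x => kn w κ x * Jt D eta ts (t - x) + K * (kn w κ x * chi D (t - x)) := by
    funext x
    ring
  have i3 : Integrable fun x => kn w κ x * (Jt D eta ts (t - x) + K * chi D (t - x)) := by
    rw [e0]
    exact i1.add (i2.const_mul K)
  have e1 : ∫ x, kn w κ x * (Jt D eta ts (t - x) + K * chi D (t - x)) =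
      sm (kn w κ) (Jt D eta ts) t + K * sm (kn w κ) (chi D) t := by
    rw [e0, integral_add i1 (i2.const_mul K), integral_const_mul]
    rfl
  obtain ⟨i4, b⟩ := hF w a κ h (D / 2 - 1) (by linarith) eta (fun y => Jt D eta ts y + K * chi D y) t i3
  rw [e1] at b
  have h1 : |eta| * (A * (∫ x, |κ x|) * Real.exp (-(8 / 3) * (D / 2 - 1))) ≤ A * cE * (Bη * Real.exp (8 / 3)) * C := by
    have h2 : A * (∫ x, |κ x|) ≤ A * (cE * C) := mul_le_mul_of_nonneg_left hm hA
    have h3 := eta_tiny hD hr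
    have h4 : 0 ≤ |eta| * Real.exp (-(8 / 3) * (D / 2 - 1)) := by positivity
    calc |eta| * (A * (∫ x, |κ x|) * Real.exp (-(8 / 3) * (D / 2 - 1))) =
          A * (∫ x, |κ x|) * (|eta| * Real.exp (-(8 / 3) * (D / 2 - 1))) := by ring
      _ ≤ A * (cE * C) * (Bη * Real.exp (8 / 3)) := mul_le_mul h2 h3 h4 (by positivity)
      _ = _ := by ring
  have b2 := (abs_le.1 (b.trans h1)).2
  have e2 : ∫ x, κ x * jtot D eta ts K (t - x) =
      ∫ x, κ x * (Jt D eta ts (t - x) + K * chi D (t - x) - eta * Nc (D / 2 - 1) (t - x)) := rfl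
  refine ⟨i4, ?_, ?_⟩
  · rw [e2]
    linarith
  · rw [e2]
    nlinarith

/-! ### kernels on compact sets of offsets -/

lemma kapd_unif {δ : ℝ} (hδ : 0 < δ) : ∃ C : ℝ, 0 ≤ C ∧ ∀ j : ℝ, NUO.Off δ j → ∀ x, |kapd j x| ≤ C * Real.exp (-2 * |x|) := by
  by_cases h : ∃ j, NUO.Off δ j
  · obtain ⟨j, hj⟩ := h
    refine ⟨24 / Real.sin (δ * l), ?_, fun j' hj' x => kapd_bound_off hj' hδ x⟩
    have h1 := (abs_nonneg _).trans (kapd_bound_off hj hδ 0)
    have e : Real.exp (-2 * |(0:ℝ)|) = 1 := by simp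
    rw [e, mul_one] at h1
    exact h1
  · exact ⟨0, le_rfl, fun j hj => absurd ⟨j, hj⟩ h⟩

/-- **the single at the offset `j` in `[2 + δ, 3 - δ]`** -/
theorem conf_L {δ : ℝ} (hδ : 0 < δ) : ∃ c M : ℝ, 0 ≤ c ∧ 0 ≤ M ∧ ∀ j : ℝ, 2 + δ ≤ j → j ≤ 3 - δ →
    SD M (kn 1 (kapd j)) ∧ ∀ D eta ts K t : ℝ, 4 ≤ D → Rng D eta → Adm D eta ts →
    Integrable (fun x => kapd j x * jtot D eta ts K (t - x)) ∧
    (t ≤ D / 4 → -eta * (NUP1S.lgc (D / 4) (pt j t)).im - ∫ x, kapd j x * jtot D eta ts K (t - x) ≤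
      c - 2 * Real.pi * 1 * (sm (kn 1 (kapd j)) (Jt D eta ts) t + K * sm (kn 1 (kapd j)) (chi D) t)) ∧
    (D / 4 < t → -eta * (NUP1S.lgc (D / 4) (pt j t)).im - ∫ x, kapd j x * jtot D eta ts K (t - x) ≤
      c - 2 * Real.pi * 1 * (sm (kn 1 (kapd j)) (Jt D eta ts) t + K * sm (kn 1 (kapd j)) (chi D) t - eta)) := by
  obtain ⟨A, hA, hc⟩ := conf_unif
  obtain ⟨C, hC, hk⟩ := kapd_unif hδ
  have hcE := cE_nonneg
  refine ⟨A * C, cE * C, by positivity, by positivity, fun j h2 h3 => ?_⟩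
  have hoff : NUO.Off δ j := NUO.off_of 2 (by push_cast; linarith) (by push_cast; linarith)
  have hf := flat_one (j := j) (by linarith) (by linarith)
  refine ⟨hf.sd_unif le_rfl (hk j hoff), fun D eta ts K t hD hr had => ?_⟩
  obtain ⟨i1, b1, b2⟩ := hc 1 _ _ C hf (hk j hoff) D eta ts K t hD hr had
  refine ⟨i1, fun ht => ?_, fun ht => ?_⟩
  · rw [lgc_im, if_pos ht]
    exact b1
  · rw [lgc_im, if_neg (not_le.2 ht)]
    rw [mul_one] at b2
    rw [mul_one]
    exact b2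

/-- **the string with satellites at the offsets `(2 + e, 3 + e, e, e)`, `e` in `[δ, 1 - δ]`** -/
theorem conf_S {δ : ℝ} (hδ : 0 < δ) : ∃ c M : ℝ, 0 ≤ c ∧ 0 ≤ M ∧ ∀ e : ℝ, δ ≤ e → e ≤ 1 - δ →
    SD M (kn 2 (kS e)) ∧ ∀ D eta ts K t : ℝ, 4 ≤ D → Rng D eta → Adm D eta ts →
    Integrable (fun x => kS e x * jtot D eta ts K (t - x)) ∧
    (t ≤ D / 4 → -eta * ((NUP1S.lgc (D / 4) (pt (2 + e) t)).im + (NUP1S.lgc (D / 4) (pt (3 + e) t)).im +
        2 * (lgA (pt e t)).im) - ∫ x, kS e x * jtot D eta ts K (t - x) ≤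
      c - 2 * Real.pi * 2 * (sm (kn 2 (kS e)) (Jt D eta ts) t + K * sm (kn 2 (kS e)) (chi D) t)) ∧
    (D / 4 < t → -eta * ((NUP1S.lgc (D / 4) (pt (2 + e) t)).im + (NUP1S.lgc (D / 4) (pt (3 + e) t)).im +
        2 * (lgA (pt e t)).im) - ∫ x, kS e x * jtot D eta ts K (t - x) ≤
      c - 2 * Real.pi * 2 * (sm (kn 2 (kS e)) (Jt D eta ts) t + K * sm (kn 2 (kS e)) (chi D) t - eta)) := by
  obtain ⟨A, hA, hc⟩ := conf_unif
  obtain ⟨C, hC, hk⟩ := kapd_unif hδ
  have hcE := cE_nonneg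
  refine ⟨A * (4 * C), cE * (4 * C), by positivity, by positivity, fun e h0 h1 => ?_⟩
  have o2 : NUO.Off δ (2 + e) := NUO.off_of 2 (by push_cast; linarith) (by push_cast; linarith)
  have o3 : NUO.Off δ (3 + e) := NUO.off_of 3 (by push_cast; linarith) (by push_cast; linarith)
  have o0 : NUO.Off δ e := NUO.off_of 0 (by push_cast; linarith) (by push_cast; linarith)
  have hf := flat_str (e := e) (by linarith) (by linarith)
  have hb : ∀ x, |kS e x| ≤ 4 * C * Real.exp (-2 * |x|) := by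
    intro x
    have q2 := abs_le.1 (hk _ o2 x)
    have q3 := abs_le.1 (hk _ o3 x)
    have q0 := abs_le.1 (hk _ o0 x)
    unfold kS
    rw [abs_le]
    constructor <;> linarith [q2.1, q2.2, q3.1, q3.2, q0.1, q0.2]
  refine ⟨hf.sd_unif one_le_two hb, fun D eta ts K t hD hr had => ?_⟩
  obtain ⟨i1, b1, b2⟩ := hc 2 _ _ (4 * C) hf hb D eta ts K t hD hr had
  refine ⟨i1, fun ht => ?_, fun ht => ?_⟩
  · rw [lgc_im, lgc_im, if_pos ht, if_pos ht]
    exact b1
  · rw [lgc_im, lgc_im, if_neg (not_le.2 ht), if_neg (not_le.2 ht)]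
    refine le_trans (le_of_eq ?_) b2
    unfold aS aA
    ring

end

end NUCR
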