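import Pool.Agent.NUCR.Crude

/-!
# The pointwise bound with a slow plateau (conf_total3, board/CR)

`Slow D D1 lam X`: a plateau `X` with `X = 1` for `|t| <= D1`, `X = 0` for `|t| >= D + 1` and `|X'| <= lam`.
The current is `jtX = Jt + K X - eta Nc`.
-/

set_option autoImplicit false

open MeasureTheory Set Filter Topology

namespace NUCR

open NUMF

noncomputable section

/-- a slow plateau. -/
structure Slow (D D1 lam : ℝ) (X : ℝ → ℝ) : Prop where
  c1 : ContDiff ℝ 1 X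
  nn : ∀ t, 0 ≤ X t
  le : ∀ t, X t ≤ 1
  one : ∀ t, |t| ≤ D1 → X t = 1
  zero : ∀ t, D + 1 ≤ |t| → X t = 0
  der : ∀ t, |deriv X t| ≤ lam

variable {D D1 lam : ℝ} {X : ℝ → ℝ}

theorem Slow.cont (h : Slow D D1 lam X) : Continuous X := h.c1.continuous

theorem Slow.hd (h : Slow D D1 lam X) (t : ℝ) : HasDerivAt X (deriv X t) t :=
  (h.c1.differentiable (by norm_num)).differentiableAt.hasDerivAt

theorem Slow.lam0 (h : Slow D D1 lam X) : 0 ≤ lam := (abs_nonneg _).trans (h.der 0)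

theorem Slow.lip (h : Slow D D1 lam X) (x y : ℝ) : |X x - X y| ≤ lam * |x - y| := by
  have := Convex.norm_image_sub_le_of_norm_hasDerivWithin_le (f := X)
    (f' := deriv X) (s := univ) (C := lam) (x := y) (y := x)
    (fun t _ => (h.hd t).hasDerivWithinAt)
    (fun t _ => by rw [Real.norm_eq_abs]; exact h.der t)
    convex_univ (mem_univ y) (mem_univ x)
  simpa [Real.norm_eq_abs] using this

/-- **the smeared slow plateau**. -/
theorem Slow.sm_ge (h : Slow D D1 lam X) {M K : ℝ} {kap : ℝ → ℝ} (hk : SD M kap) (hK : 0 ≤ K)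
    (hl : K * lam * M ≤ 1) (t : ℝ) : K * X t - 1 ≤ K * sm kap X t := by
  have h2 := (smear h.lip hk.int hk.mass hk.int1 hk.mom h.lam0 t).2
  have h3 : |sm kap X t - X t| ≤ lam * M := h2
  rw [abs_le] at h3
  have h4 : K * -(lam * M) ≤ K * (sm kap X t - X t) := mul_le_mul_of_nonneg_left h3.1 hK
  nlinarith

theorem Slow.dzero_in (h : Slow D D1 lam X) {t : ℝ} (ht : |t| < D1) : deriv X t = 0 := by
  have e : X =ᶠ[𝓝 t] fun _ => 1 := by
    have ho : IsOpen {s : ℝ | |s| < D1} := isOpen_lt continuous_abs continuous_const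
    filter_upwards [ho.mem_nhds ht] with s hs
    exact h.one s (le_of_lt hs)
  rw [e.deriv_eq]
  simp

theorem Slow.dzero_out (h : Slow D D1 lam X) {t : ℝ} (ht : D + 1 < |t|) : deriv X t = 0 := by
  have e : X =ᶠ[𝓝 t] fun _ => 0 := by
    have ho : IsOpen {s : ℝ | D + 1 < |s|} := isOpen_lt continuous_const continuous_abs
    filter_upwards [ho.mem_nhds ht] with s hs
    exact h.zero s (le_of_lt hs)
  rw [e.deriv_eq]
  simp

/-- the slope of the slow plateau. -/
theorem Slow.bi (h : Slow D D1 lam X) (h0 : 0 ≤ D1) (h1 : D1 ≤ D + 1) :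
    BI lam (deriv X) ∧ ∫ t, |deriv X t| ≤ 2 * (lam * (D + 1 - D1)) := by
  have hcont : Continuous (deriv X) := h.c1.continuous_deriv (by norm_num)
  have hi : Integrable (deriv X) := by
    refine hcont.integrable_of_hasCompactSupport ?_
    refine HasCompactSupport.intro (isCompact_Icc (a := -(D + 1)) (b := D + 1)) fun x hx => h.dzero_out ?_
    by_contra hc
    exact hx (abs_le.1 (not_lt.1 hc))
  refine ⟨⟨hi, h.der⟩, ?_⟩
  have hl := h.lam0
  set S : Set ℝ := Icc (-(D + 1)) (-D1) ∪ Icc D1 (D + 1) with hS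
  have hSm : MeasurableSet S := measurableSet_Icc.union measurableSet_Icc
  have hb : ∀ t, |deriv X t| ≤ S.indicator (fun _ => lam) t := by
    intro t
    by_cases ht : t ∈ S
    · rw [indicator_of_mem ht]
      exact h.der t
    · rw [indicator_of_notMem ht]
      rw [hS, mem_union, mem_Icc, mem_Icc, not_or] at ht
      have : deriv X t = 0 := by
        rcases lt_or_ge |t| D1 with c | c
        · exact h.dzero_in c
        · refine h.dzero_out ?_
          by_contra hc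
          have h2 := abs_le.1 (not_lt.1 hc)
          rcases le_abs.1 c with h3 | h3
          · exact ht.2 ⟨h3, h2.2⟩
          · exact ht.1 ⟨h2.1, by linarith⟩
      rw [this, abs_zero]
  have hSi : Integrable (S.indicator fun _ : ℝ => lam) := by
    refine (integrable_indicator_iff hSm).2 ?_
    refine integrableOn_const ?_
    refine ne_of_lt (lt_of_le_of_lt (measure_union_le _ _) ?_)
    rw [Real.volume_Icc, Real.volume_Icc]
    exact ENNReal.add_lt_top.2 ⟨ENNReal.ofReal_lt_top, ENNReal.ofReal_lt_top⟩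
  have hvol : (volume : Measure ℝ).real S ≤ 2 * (D + 1 - D1) := by
    have h2 : (volume : Measure ℝ).real S ≤ (volume : Measure ℝ).real (Icc (-(D + 1)) (-D1)) +
        (volume : Measure ℝ).real (Icc D1 (D + 1)) := measureReal_union_le _ _
    rw [Real.volume_real_Icc, Real.volume_real_Icc, max_eq_left (by linarith), max_eq_left (by linarith)] at h2
    linarith
  calc ∫ t, |deriv X t| ≤ ∫ t, S.indicator (fun _ => lam) t := integral_mono hi.abs hSi hb
    _ = (volume : Measure ℝ).real S * lam := by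
        rw [integral_indicator hSm, setIntegral_const, smul_eq_mul]
    _ ≤ (2 * (D + 1 - D1)) * lam := mul_le_mul_of_nonneg_right hvol hl
    _ = _ := by ring

/-- **energy of the total current with the slow plateau.** -/
theorem En_X (K C0 : ℝ) (hK : 0 ≤ K) (hC0 : 0 ≤ C0) : ∃ CK : ℝ, 0 ≤ CK ∧ ∀ (D D1 lam eta ts : ℝ) (X : ℝ → ℝ),
    4 ≤ D → 0 ≤ D1 → D1 ≤ D + 1 → Slow D D1 lam X → K * lam ≤ 1 → lam * (D + 1 - D1) ≤ C0 →
    Rng D eta → Adm D eta ts →
    En eta (fun t => (deriv (Jt D eta ts) t + K * deriv X t) - eta * Pcut (D / 2 - 1) t) ≤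
      -eta ^ 2 * (∫ t, P t * v t) + eta ^ 2 / (2 * (D / kap0)) + CK
        + 2 * eta ^ 2 * pAx D eta ts / ((1 - pAx D eta ts) * (D / kap0)) := by
  obtain ⟨A, hA, hE⟩ := En_le
  obtain ⟨C, hC, hB⟩ := dJt_BI
  have hk := kap0_pos
  have hb := Bη_pos
  refine ⟨kap0 * (K * (2 * (C * Bη) + 1) * (2 * C0)) +
    A * (Bη * (C * Bη + 1) + Bη ^ 2) * (9 / 2 * Real.exp (4 / 3)), by positivity, ?_⟩
  intro D D1 lam eta ts X hD hD1 hD2 hX hl hl2 hr had
  have hD0 : 0 < D := by linarith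
  have hlam := hX.lam0
  have he := hr.abs hD0.le
  have hM : C * (|eta| / D) ≤ C * Bη := by
    refine mul_le_mul_of_nonneg_left ?_ (by linarith)
    rw [div_le_iff₀ hD0]
    exact he
  have hJ : BI (C * Bη) (deriv (Jt D eta ts)) :=
    ⟨(hB D eta ts (by linarith) had).int, fun t => ((hB D eta ts (by linarith) had).bd t).trans hM⟩
  obtain ⟨hXb, hXi⟩ := hX.bi hD1 hD2
  have ha : BI (C * Bη + 1) (fun t => deriv (Jt D eta ts) t + K * deriv X t) := by
    have h1 := hJ.add (hXb.smul K)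
    refine ⟨h1.int, fun t => (h1.bd t).trans ?_⟩
    rw [abs_of_nonneg hK]
    linarith
  refine (hE (D / 2 - 1) (by linarith) eta _ _ ha).trans ?_
  -- the square
  have hCB : 0 ≤ C * Bη := by positivity
  have isq : ∀ {f : ℝ → ℝ} {M' : ℝ}, BI M' f → Integrable fun t => f t ^ 2 := by
    intro f M' hf
    refine (hf.int.mul_bdd (c := M') hf.meas (Eventually.of_forall hf.bd)).congr (Eventually.of_forall fun t => ?_)
    simp only
    ring
  have hle : ∀ t, (deriv (Jt D eta ts) t + K * deriv X t) ^ 2 ≤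
      deriv (Jt D eta ts) t ^ 2 + K * (2 * (C * Bη) + 1) * |deriv X t| := by
    intro t
    have g1 : 2 * (deriv (Jt D eta ts) t * (K * deriv X t)) ≤ 2 * ((C * Bη) * (K * |deriv X t|)) := by
      refine mul_le_mul_of_nonneg_left ((le_abs_self _).trans ?_) zero_le_two
      rw [abs_mul, abs_mul, abs_of_nonneg hK]
      exact mul_le_mul_of_nonneg_right (hJ.bd t) (by positivity)
    have g2 : (K * deriv X t) ^ 2 ≤ K * |deriv X t| := by
      have g3 : K * |deriv X t| ≤ 1 := (mul_le_mul_of_nonneg_left (hX.der t) hK).trans hl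
      have g4 : (K * deriv X t) ^ 2 = (K * |deriv X t|) * (K * |deriv X t|) := by
        rw [← sq_abs, abs_mul, abs_of_nonneg hK, sq]
      rw [g4]
      exact mul_le_of_le_one_right (by positivity) g3
    nlinarith
  have h2 : ∫ t, (deriv (Jt D eta ts) t + K * deriv X t) ^ 2 ≤
      (∫ t, deriv (Jt D eta ts) t ^ 2) + K * (2 * (C * Bη) + 1) * (2 * C0) := by
    calc ∫ t, (deriv (Jt D eta ts) t + K * deriv X t) ^ 2
        ≤ ∫ t, (deriv (Jt D eta ts) t ^ 2 + K * (2 * (C * Bη) + 1) * |deriv X t|) :=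
          integral_mono (isq ha) ((isq hJ).add (hXb.int.abs.const_mul _)) hle
      _ = (∫ t, deriv (Jt D eta ts) t ^ 2) + K * (2 * (C * Bη) + 1) * ∫ t, |deriv X t| := by
          rw [integral_add (isq hJ) (hXb.int.abs.const_mul _), integral_const_mul]
      _ ≤ _ := by
          have : ∫ t, |deriv X t| ≤ 2 * C0 := hXi.trans (by linarith)
          have := mul_le_mul_of_nonneg_left this (show 0 ≤ K * (2 * (C * Bη) + 1) by positivity)
          linarith
  have h3 := mul_le_mul_of_nonneg_left h2 hk.le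
  have hX0 : 0 < D / kap0 := by positivity
  have h1 := Jt_cost (by linarith : 1 ≤ D) hX0 had
  have e1 : D / (D / kap0) = kap0 := by field_simp
  rw [e1] at h1
  have h5 : A * (|eta| * (C * Bη + 1) + eta ^ 2) * Real.exp (-(4 / 3) * (D / 2 - 1)) ≤
      A * (Bη * (C * Bη + 1) + Bη ^ 2) * (9 / 2 * Real.exp (4 / 3)) := by
    have h3 : |eta| * (C * Bη + 1) + eta ^ 2 ≤ (Bη * (C * Bη + 1) + Bη ^ 2) * D ^ 2 := by
      have h4 : |eta| * (C * Bη + 1) ≤ Bη * D * (C * Bη + 1) :=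
        mul_le_mul_of_nonneg_right he (by positivity)
      have h5 : eta ^ 2 ≤ (Bη * D) ^ 2 := by
        rw [← sq_abs]
        exact pow_le_pow_left₀ (abs_nonneg _) he 2
      have h6 : Bη * D * (C * Bη + 1) ≤ Bη * (C * Bη + 1) * D ^ 2 := by
        have h7 : D ≤ D ^ 2 := by nlinarith
        have h8 : 0 ≤ Bη * (C * Bη + 1) := by positivity
        calc Bη * D * (C * Bη + 1) = Bη * (C * Bη + 1) * D := by ring
          _ ≤ _ := mul_le_mul_of_nonneg_left h7 h8
      have e2 : (Bη * D) ^ 2 = Bη ^ 2 * D ^ 2 := by ring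
      linarith
    have h9 := sq_exp_leK hD0.le
    have h10 := Real.exp_pos (-(4 / 3) * (D / 2 - 1))
    calc A * (|eta| * (C * Bη + 1) + eta ^ 2) * Real.exp (-(4 / 3) * (D / 2 - 1))
        ≤ A * ((Bη * (C * Bη + 1) + Bη ^ 2) * D ^ 2) * Real.exp (-(4 / 3) * (D / 2 - 1)) :=
          mul_le_mul_of_nonneg_right (mul_le_mul_of_nonneg_left h3 hA) h10.le
      _ = A * (Bη * (C * Bη + 1) + Bη ^ 2) * (D ^ 2 * Real.exp (-(4 / 3) * (D / 2 - 1))) := by ring
      _ ≤ _ := mul_le_mul_of_nonneg_left h9 (by positivity)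
  rw [mul_add] at h3
  linarith

/-- **conf_total3: the pointwise bound for a configuration with a slow plateau.**  For every `M` (moments of the smearing
densities) and every error `c` of the branch factors there is `C` (absolute: independent of `K` and of the plateau), and
for all `K`, `C0` a constant `CK`. -/
theorem conf_total3 (M c : ℝ) (hM : 0 ≤ M) : ∃ C : ℝ, 0 ≤ C ∧ ∀ K C0 : ℝ, 0 ≤ K → 0 ≤ C0 → ∃ CK : ℝ, 0 ≤ CK ∧
    ∀ (D D1 lam eta : ℝ) (X : ℝ → ℝ), 4 ≤ D → 0 ≤ D1 → D1 ≤ D + 1 → Slow D D1 lam X →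
      K * lam * M ≤ 1 → K * lam ≤ 1 → lam * (D + 1 - D1) ≤ C0 → Rng D eta →
    ∀ (ι : Type) (s : Finset ι) (fl : ι → Prop) (t w : ι → ℝ) (kap : ι → ℝ → ℝ)
      (nf : ι → ℝ) (lf : ℝ → ι → ℝ),
    (∀ i ∈ s, fl i → 1 ≤ w i ∧ w i ≤ 2) → (∀ i ∈ s, fl i → SD M (kap i)) →
    (∀ ts, Adm D eta ts → ∀ i ∈ s, fl i → t i ≤ D / 4 → lf ts i ≤
      c - 2 * Real.pi * w i * (sm (kap i) (Jt D eta ts) (t i) + K * sm (kap i) X (t i))) →
    (∀ ts, Adm D eta ts → ∀ i ∈ s, fl i → D / 4 < t i → lf ts i ≤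
      c - 2 * Real.pi * w i * (sm (kap i) (Jt D eta ts) (t i) + K * sm (kap i) X (t i) - eta)) →
    (∀ ts, Adm D eta ts → ∀ i ∈ s, ¬ fl i → lf ts i ≤ nf i) → ∀ g : ι → ℝ,
    (∀ i ∈ s, fl i → C - 2 * Real.pi * w i * (K * X (t i)) ≤ g i) → (∀ i ∈ s, ¬ fl i → nf i ≤ g i) →
    ∃ ts, Adm D eta ts ∧
      En eta (fun t => (deriv (Jt D eta ts) t + K * deriv X t) - eta * Pcut (D / 2 - 1) t) + ∑ i ∈ s, lf ts i ≤
        (-eta ^ 2 * (∫ t, P t * v t) + eta ^ 2 / (2 * (D / kap0)) + CK) + ∑ i ∈ s, g i := by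
  have hk := kap0_pos
  have hb := Bη_pos
  have hpi := Real.pi_pos
  refine ⟨max 0 (c + 4 * Real.pi * (8 / 3 * Bη * (M + 2)) + 4 * Real.pi), le_max_left _ _, fun K C0 hK hC0 => ?_⟩
  obtain ⟨CK, hCK, hEn⟩ := En_X K C0 hK hC0
  refine ⟨CK, hCK, fun D D1 lam eta X hD hD1 hD2 hX hl hl1 hl2 hr ι s fl t w kap nf lf hw hkap h1 h2 h3 g hg1 hg2 => ?_⟩
  have hX0 : 0 < D / kap0 := by positivity
  have hD0 : 0 < D := by linarith
  have hcS : cS D eta M ≤ 8 / 3 * Bη * (M + 2) := by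
    unfold cS
    refine mul_le_mul_of_nonneg_right (mul_le_mul_of_nonneg_left ?_ (by norm_num)) (by linarith)
    rw [div_le_iff₀ hD0]
    exact hr.abs hD0.le
  exact conf s fl t w kap (fun i => K * sm (kap i) X (t i)) nf
    (fun ts => En eta (fun t => (deriv (Jt D eta ts) t + K * deriv X t) - eta * Pcut (D / 2 - 1) t)) lf
    (by linarith) hX0 hr.1 hr.2 hM hw hkap
    (fun ts had => hEn D D1 lam eta ts X hD hD1 hD2 hX hl1 hl2 hr had) h1 h2 h3 g
    (fun i hi hf => by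
      have h4 := hg1 i hi hf
      obtain ⟨w1, w2⟩ := hw i hi hf
      have h5 := hX.sm_ge (hkap i hi hf) hK hl (t i)
      have h6 := le_max_right 0 (c + 4 * Real.pi * (8 / 3 * Bη * (M + 2)) + 4 * Real.pi)
      have h7 : 4 * Real.pi * cS D eta M ≤ 4 * Real.pi * (8 / 3 * Bη * (M + 2)) :=
        mul_le_mul_of_nonneg_left hcS (by positivity)
      have h8 : 2 * Real.pi * w i * (K * X (t i) - 1) ≤ 2 * Real.pi * w i * (K * sm (kap i) X (t i)) :=
        mul_le_mul_of_nonneg_left h5 (by positivity)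
      have h9 : 2 * Real.pi * w i ≤ 2 * Real.pi * 2 := mul_le_mul_of_nonneg_left w2 (by positivity)
      linarith) hg2

/-! ### the current with the slow plateau -/

/-- the total current of the B-layer with the plateau `X`. -/
def jtX (D eta ts K : ℝ) (X : ℝ → ℝ) (t : ℝ) : ℝ := Jt D eta ts t + K * X t - eta * Nc (D / 2 - 1) t

theorem jtX_hasDerivAt {eta ts K : ℝ} (h : Slow D D1 lam X) (t : ℝ) :
    HasDerivAt (jtX D eta ts K X) ((deriv (Jt D eta ts) t + K * deriv X t) - eta * Pcut (D / 2 - 1) t) t := by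
  have d1 : HasDerivAt (Jt D eta ts) (deriv (Jt D eta ts) t) t :=
    ((Jt_smooth 1).differentiable (by norm_num)).differentiableAt.hasDerivAt
  exact (d1.add ((h.hd t).const_mul K)).sub ((Nc_deriv (D / 2 - 1) t).const_mul eta)

theorem jtX_deriv {eta ts K : ℝ} (h : Slow D D1 lam X) : deriv (jtX D eta ts K X) =
    fun t => (deriv (Jt D eta ts) t + K * deriv X t) - eta * Pcut (D / 2 - 1) t :=
  funext fun t => (jtX_hasDerivAt h t).deriv

theorem jtX_zero {eta ts K : ℝ} (hD : 4 ≤ D) (h : Adm D eta ts) (hX : Slow D D1 lam X) {t : ℝ} (ht : D + 1 ≤ |t|) :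
    jtX D eta ts K X t = 0 := by
  unfold jtX
  rw [hX.zero t ht]
  rcases le_total 0 t with h0 | h0
  · rw [abs_of_nonneg h0] at ht
    rw [Jt_right (by linarith) h ht, Nc_right (by linarith) (by linarith)]
    ring
  · rw [abs_of_nonpos h0] at ht
    rw [Jt_left (by linarith) h (by linarith), Nc_left (by linarith)]
    ring

theorem jtX_abs {eta ts K : ℝ} (hD : 4 ≤ D) (h : Adm D eta ts) (hX : Slow D D1 lam X) (hK : 0 ≤ K) (t : ℝ) :
    |jtX D eta ts K X t| ≤ 3 * |eta| + K := by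
  have h1 := Jt_abs (by linarith : 1 ≤ D) h t
  have h2 : |K * X t| ≤ K := by
    rw [abs_mul, abs_of_nonneg hK, abs_of_nonneg (hX.nn t)]
    exact mul_le_of_le_one_right hK (hX.le t)
  have h3 : |eta * Nc (D / 2 - 1) t| ≤ |eta| := by
    rw [abs_mul, abs_of_nonneg (Nc_nonneg _ t)]
    exact mul_le_of_le_one_right (abs_nonneg _) (Nc_le_one _ t)
  unfold jtX
  have h4 := abs_sub (Jt D eta ts t + K * X t) (eta * Nc (D / 2 - 1) t)
  have h5 := abs_add_le (Jt D eta ts t) (K * X t)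
  linarith

/-- all derivatives of the profile and of the cut distribution function: the derivatives of `jtX` of order `k <= n` are
at most `C |eta| + K C'` if those of `X` are at most `C'`. -/
theorem jtX_DB (n : ℕ) : ∃ C, 0 ≤ C ∧ ∀ (D D1 lam eta ts K C' : ℝ) (X : ℝ → ℝ), 1 ≤ D → Adm D eta ts → 0 ≤ K →
    DB n C' X → DB n (C * |eta| + K * C') (jtX D eta ts K X) := by
  obtain ⟨A, hA1, hA⟩ := Jt_iter n
  obtain ⟨B, hB⟩ := Nc_DB n
  have hB0 : 0 ≤ B := (hB 0).nonneg
  refine ⟨2 + A + B, by positivity, fun D D1 lam eta ts K C' X hD had hK hX => ?_⟩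
  have hη := abs_nonneg eta
  have h1 : DB n ((2 + A) * |eta|) (Jt D eta ts) := by
    refine ⟨Jt_smooth n, fun k hk t => ?_⟩
    rcases Nat.eq_zero_or_pos k with h0 | h0
    · subst h0
      rw [iteratedDeriv_zero]
      have := Jt_abs hD had t
      nlinarith
    · refine (hA D eta ts hD had k h0 hk t).trans ?_
      have h3 : |eta| / D ≤ |eta| := div_le_self hη hD
      have h4 : 0 ≤ |eta| / D := div_nonneg hη (by linarith)
      nlinarith
  have h2 := hX.smul K
  have h3 := (hB (D / 2 - 1)).smul (-eta)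
  have h4 := (h1.add h2).add h3
  have e : jtX D eta ts K X = fun t => (Jt D eta ts t + K * X t) + -eta * Nc (D / 2 - 1) t := by
    funext t
    unfold jtX
    ring
  rw [e]
  refine h4.mono ?_
  rw [abs_neg, abs_of_nonneg hK]
  nlinarith

/-! ### flat objects in the current with the slow plateau -/

/-- **a flat object in the total current**, uniformly: left branch and right branch. -/
theorem conf_unifX : ∃ A : ℝ, 0 ≤ A ∧ ∀ (w : ℝ) (a κ : ℝ → ℝ) (C : ℝ), Flat w a κ →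
    (∀ x, |κ x| ≤ C * Real.exp (-2 * |x|)) → ∀ (D D1 lam eta ts K t : ℝ) (X : ℝ → ℝ), 4 ≤ D → Rng D eta →
    Adm D eta ts → Slow D D1 lam X →
    Integrable (fun x => κ x * jtX D eta ts K X (t - x)) ∧
    (-eta * a t - ∫ x, κ x * jtX D eta ts K X (t - x) ≤
      A * C - 2 * Real.pi * w * (sm (kn w κ) (Jt D eta ts) t + K * sm (kn w κ) X t)) ∧
    (-eta * (a t - 2 * Real.pi * w) - ∫ x, κ x * jtX D eta ts K X (t - x) ≤
      A * C - 2 * Real.pi * w * (sm (kn w κ) (Jt D eta ts) t + K * sm (kn w κ) X t - eta)) := by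
  obtain ⟨A, hA, hF⟩ := factor_unif
  have hb := Bη_pos
  have hcE := cE_nonneg
  refine ⟨A * cE * (Bη * Real.exp (8 / 3)), by positivity,
    fun w a κ C h hC D D1 lam eta ts K t X hD hr had hX => ?_⟩
  obtain ⟨hC0, hm, -⟩ := ker_mass h.ker hC
  have i1 : Integrable fun x => kn w κ x * Jt D eta ts (t - x) := by
    refine h.kn_ker.int.mul_bdd (c := 2 * |eta|) ?_ (Eventually.of_forall fun x => ?_)
    · exact (((Jt_smooth 0).continuous).comp (continuous_const.sub continuous_id)).aestronglyMeasurable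
    · exact Jt_abs (by linarith) had _
  have i2 : Integrable fun x => kn w κ x * X (t - x) := by
    refine h.kn_ker.int.mul_bdd (c := 1) ?_ (Eventually.of_forall fun x => ?_)
    · exact (hX.cont.comp (continuous_const.sub continuous_id)).aestronglyMeasurable
    · rw [Real.norm_eq_abs, abs_of_nonneg (hX.nn _)]
      exact hX.le _
  have e0 : (fun x => kn w κ x * (Jt D eta ts (t - x) + K * X (t - x))) =
      fun x => kn w κ x * Jt D eta ts (t - x) + K * (kn w κ x * X (t - x)) := by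
    funext x
    ring
  have i3 : Integrable fun x => kn w κ x * (Jt D eta ts (t - x) + K * X (t - x)) := by
    rw [e0]
    exact i1.add (i2.const_mul K)
  have e1 : ∫ x, kn w κ x * (Jt D eta ts (t - x) + K * X (t - x)) =
      sm (kn w κ) (Jt D eta ts) t + K * sm (kn w κ) X t := by
    rw [e0, integral_add i1 (i2.const_mul K), integral_const_mul]
    rfl
  obtain ⟨i4, b⟩ := hF w a κ h (D / 2 - 1) (by linarith) eta (fun y => Jt D eta ts y + K * X y) t i3
  rw [e1] at b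
  have h1 : |eta| * (A * (∫ x, |κ x|) * Real.exp (-(8 / 3) * (D / 2 - 1))) ≤ A * cE * (Bη * Real.exp (8 / 3)) * C := by
    have h2 : A * (∫ x, |κ x|) ≤ A * (cE * C) := mul_le_mul_of_nonneg_left hm hA
    have h3 := eta_tiny hD hr
    have h4 : 0 ≤ |eta| * Real.exp (-(8 / 3) * (D / 2 - 1)) := by positivity
    calc |eta| * (A * (∫ x, |κ x|) * Real.exp (-(8 / 3) * (D / 2 - 1))) =
          A * (∫ x, |κ x|) * (|eta| * Real.exp (-(8 / 3) * (D / 2 - 1))) := by ring
      _ ≤ A * (cE * C) * (Bη * Real.exp (8 / 3)) := mul_le_mul h2 h3 h4 (by positivity)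
      _ = _ := by ring
  have b2 := (abs_le.1 (b.trans h1)).2
  have e2 : ∫ x, κ x * jtX D eta ts K X (t - x) =
      ∫ x, κ x * (Jt D eta ts (t - x) + K * X (t - x) - eta * Nc (D / 2 - 1) (t - x)) := rfl
  refine ⟨i4, ?_, ?_⟩
  · rw [e2]
    linarith
  · rw [e2]
    nlinarith

/-- **the single at the offset `j` in `[2 + δ, 3 - δ]`** -/
theorem conf_LX {δ : ℝ} (hδ : 0 < δ) : ∃ c M : ℝ, 0 ≤ c ∧ 0 ≤ M ∧ ∀ j : ℝ, 2 + δ ≤ j → j ≤ 3 - δ →
    SD M (kn 1 (kapd j)) ∧ ∀ (D D1 lam eta ts K t : ℝ) (X : ℝ → ℝ), 4 ≤ D → Rng D eta → Adm D eta ts →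
    Slow D D1 lam X → Integrable (fun x => kapd j x * jtX D eta ts K X (t - x)) ∧
    (t ≤ D / 4 → -eta * (NUP1S.lgc (D / 4) (pt j t)).im - ∫ x, kapd j x * jtX D eta ts K X (t - x) ≤
      c - 2 * Real.pi * 1 * (sm (kn 1 (kapd j)) (Jt D eta ts) t + K * sm (kn 1 (kapd j)) X t)) ∧
    (D / 4 < t → -eta * (NUP1S.lgc (D / 4) (pt j t)).im - ∫ x, kapd j x * jtX D eta ts K X (t - x) ≤
      c - 2 * Real.pi * 1 * (sm (kn 1 (kapd j)) (Jt D eta ts) t + K * sm (kn 1 (kapd j)) X t - eta)) := by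
  obtain ⟨A, hA, hc⟩ := conf_unifX
  obtain ⟨C, hC, hk⟩ := kapd_unif hδ
  have hcE := cE_nonneg
  refine ⟨A * C, cE * C, by positivity, by positivity, fun j h2 h3 => ?_⟩
  have hoff : NUO.Off δ j := NUO.off_of 2 (by push_cast; linarith) (by push_cast; linarith)
  have hf := flat_one (j := j) (by linarith) (by linarith)
  refine ⟨hf.sd_unif le_rfl (hk j hoff), fun D D1 lam eta ts K t X hD hr had hX => ?_⟩
  obtain ⟨i1, b1, b2⟩ := hc 1 _ _ C hf (hk j hoff) D D1 lam eta ts K t X hD hr had hX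
  refine ⟨i1, fun ht => ?_, fun ht => ?_⟩
  · rw [lgc_im, if_pos ht]
    exact b1
  · rw [lgc_im, if_neg (not_le.2 ht)]
    rw [mul_one] at b2
    rw [mul_one]
    exact b2

/-- **the string with satellites at the offsets `(2 + e, 3 + e, e, e)`, `e` in `[δ, 1 - δ]`** -/
theorem conf_SX {δ : ℝ} (hδ : 0 < δ) : ∃ c M : ℝ, 0 ≤ c ∧ 0 ≤ M ∧ ∀ e : ℝ, δ ≤ e → e ≤ 1 - δ →
    SD M (kn 2 (kS e)) ∧ ∀ (D D1 lam eta ts K t : ℝ) (X : ℝ → ℝ), 4 ≤ D → Rng D eta → Adm D eta ts →
    Slow D D1 lam X → Integrable (fun x => kS e x * jtX D eta ts K X (t - x)) ∧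
    (t ≤ D / 4 → -eta * ((NUP1S.lgc (D / 4) (pt (2 + e) t)).im + (NUP1S.lgc (D / 4) (pt (3 + e) t)).im +
        2 * (lgA (pt e t)).im) - ∫ x, kS e x * jtX D eta ts K X (t - x) ≤
      c - 2 * Real.pi * 2 * (sm (kn 2 (kS e)) (Jt D eta ts) t + K * sm (kn 2 (kS e)) X t)) ∧
    (D / 4 < t → -eta * ((NUP1S.lgc (D / 4) (pt (2 + e) t)).im + (NUP1S.lgc (D / 4) (pt (3 + e) t)).im +
        2 * (lgA (pt e t)).im) - ∫ x, kS e x * jtX D eta ts K X (t - x) ≤
      c - 2 * Real.pi * 2 * (sm (kn 2 (kS e)) (Jt D eta ts) t + K * sm (kn 2 (kS e)) X t - eta)) := by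
  obtain ⟨A, hA, hc⟩ := conf_unifX
  obtain ⟨C, hC, hk⟩ := kapd_unif hδ
  have hcE := cE_nonneg
  refine ⟨A * (4 * C), cE * (4 * C), by positivity, by positivity, fun e h0 h1 => ?_⟩
  have o2 : NUO.Off δ (2 + e) := NUO.off_of 2 (by push_cast; linarith) (by push_cast; linarith)
  have o3 : NUO.Off δ (3 + e) := NUO.off_of 3 (by push_cast; linarith) (by push_cast; linarith)
  have o0 : NUO.Off δ e := NUO.off_of 0 (by push_cast; linarith) (by push_cast; linarith)
  have hf := flat_str (e := e) (by linarith) (by linarith)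
  have hb : ∀ x, |kS e x| ≤ 4 * C * Real.exp (-2 * |x|) := by
    intro x
    have q2 := abs_le.1 (hk _ o2 x)
    have q3 := abs_le.1 (hk _ o3 x)
    have q0 := abs_le.1 (hk _ o0 x)
    unfold kS
    rw [abs_le]
    constructor <;> linarith [q2.1, q2.2, q3.1, q3.2, q0.1, q0.2]
  refine ⟨hf.sd_unif one_le_two hb, fun D D1 lam eta ts K t X hD hr had hX => ?_⟩
  obtain ⟨i1, b1, b2⟩ := hc 2 _ _ (4 * C) hf hb D D1 lam eta ts K t X hD hr had hX
  refine ⟨i1, fun ht => ?_, fun ht => ?_⟩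
  · rw [lgc_im, lgc_im, if_pos ht, if_pos ht]
    exact b1
  · rw [lgc_im, lgc_im, if_neg (not_le.2 ht), if_neg (not_le.2 ht)]
    refine le_trans (le_of_eq ?_) b2
    unfold aS aA
    ring

/-! ### constituents of the objects that are not flat -/

/-- **one constituent, crude bound.** -/
theorem crudeX {C : ℝ} (hC : 0 ≤ C) {eta ts K a : ℝ} {κ : ℝ → ℝ} {t : ℝ} (hD : 4 ≤ D) (h : Adm D eta ts)
    (hX : Slow D D1 lam X) (hK : 0 ≤ K)
    (ha : |a| ≤ C * Real.exp (-bey D t)) (hκ : ∀ x, |κ x| ≤ C * Real.exp (-2 * |x|)) :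
    |-eta * a - ∫ x, κ x * jtX D eta ts K X (t - x)| ≤
      C * (|eta| + (3 * |eta| + K) * I1) * Real.exp (-bey D t) := by
  have h1 := conv_tail hC (by positivity : 0 ≤ 3 * |eta| + K) hκ (jtX_abs hD h hX hK)
    (fun s hs => jtX_zero hD h hX hs) t
  have h2 : |-eta * a| ≤ |eta| * (C * Real.exp (-bey D t)) := by
    rw [abs_mul, abs_neg]
    exact mul_le_mul_of_nonneg_left ha (abs_nonneg _)
  have h3 := abs_sub (-eta * a) (∫ x, κ x * jtX D eta ts K X (t - x))
  refine h3.trans ((add_le_add h2 h1).trans (le_of_eq ?_))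
  ring

lemma Cc_parts {δ : ℝ} (h0 : 0 < δ) (h4 : δ ≤ 4) : 0 ≤ Cc δ ∧ Ck δ + 2 * Real.pi ≤ Cc δ ∧
    24 / Real.sin (δ * l) ≤ Cc δ := by
  have hs : 0 < Real.sin (δ * l) := by
    have := l_pos
    refine Real.sin_pos_of_pos_of_lt_pi (by positivity) ?_
    have e8 := eight_l
    nlinarith
  have hpi := Real.pi_pos
  have hk := Ck_pos h0 h4
  have hs2 : 0 ≤ 24 / Real.sin (δ * l) := by positivity
  unfold Cc
  refine ⟨by positivity, by linarith, by linarith⟩

/-- **the constituents with winding** (offset in `(1, 4)`, at distance `δ` from the integers). -/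
theorem crude_LX {δ : ℝ} (h0 : 0 < δ) {j : ℝ} (h1 : 1 + δ ≤ j) (h4 : j ≤ 4 - δ) (ho : NUO.Off δ j)
    {eta ts K : ℝ} (hD : 4 ≤ D) (h : Adm D eta ts) (hX : Slow D D1 lam X) (hK : 0 ≤ K) (t : ℝ) :
    |-eta * argb j (D / 4) t - ∫ x, kapd j x * jtX D eta ts K X (t - x)| ≤
      Cc δ * (|eta| + (3 * |eta| + K) * I1) * Real.exp (-bey D t) := by
  obtain ⟨c0, c1, c2⟩ := Cc_parts h0 (by linarith)
  refine crudeX c0 hD h hX hK ?_ fun x => ?_
  · exact (argb_bound h0 h1 h4 (by linarith) t).trans (mul_le_mul_of_nonneg_right c1 (Real.exp_pos _).le)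
  · exact (kapd_bound_off ho h0 x).trans (mul_le_mul_of_nonneg_right c2 (Real.exp_pos _).le)

/-- **the constituents without winding** (offset in `(-1, 1)`, at distance `δ` from the integers). -/
theorem crude_AX {δ : ℝ} (h0 : 0 < δ) {j : ℝ} (h1 : -1 + δ ≤ j) (h4 : j ≤ 1 - δ) (ho : NUO.Off δ j)
    {eta ts K : ℝ} (hD : 4 ≤ D) (h : Adm D eta ts) (hX : Slow D D1 lam X) (hK : 0 ≤ K) (t : ℝ) :
    |-eta * aA j t - ∫ x, kapd j x * jtX D eta ts K X (t - x)| ≤
      Cc δ * (|eta| + (3 * |eta| + K) * I1) * Real.exp (-bey D t) := by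
  obtain ⟨c0, c1, c2⟩ := Cc_parts h0 (by linarith)
  refine crudeX c0 hD h hX hK ?_ fun x => ?_
  · exact (aA_bound h0 h1 h4 (by linarith) t).trans (mul_le_mul_of_nonneg_right c1 (Real.exp_pos _).le)
  · exact (kapd_bound_off ho h0 x).trans (mul_le_mul_of_nonneg_right c2 (Real.exp_pos _).le)

end

end NUCR
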