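import Pool.Agent.NUI.CR
import Pool.Agent.NUMFC.Const

/-!
# The functions `Z n s` of `NUI.CR` from the contour integrals with a complex number of rows

`Zc n s` = the joint contour integral with `n` quanta of each species and `s` pairs of rows.  The
prefactor of the disc function is `exp (preA s ^ 2 + preB s)`.
-/

set_option autoImplicit false

noncomputable section

open Complex Set Filter Topology Polynomial

namespace NUCR

open NUI (NN XX)

/-- coefficient of `s ^ 2` in the mean field value -/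
def qA : ℝ := 4 * Real.log (2 / 3 * (2 + √2))

/-- coefficient of `s` in the mean field value -/
def qB : ℝ := 2 * Real.log (2 / 3) - 2 * Real.log (2 / 3 * (2 + √2))

/-- coefficient of `s ^ 2` in the prefactor -/
def preA : ℝ := Real.log (4 + 2 * √2)

/-- coefficient of `s` in the prefactor -/
def preB : ℝ := Real.log (2 - √2) - Real.log (4 + 2 * √2)

/-- the energy of one pair of rows -/
def EPv : ℝ := ∫ t, NUMF.P t * NUMF.v t

theorem qA_eq : qA = preA + EPv := by
  have h := NUMFC.MF_one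
  unfold NUMFC.MF at h
  unfold qA preA EPv
  rw [one_pow, one_mul] at h
  rw [h]
  ring

theorem sq2_sq : √2 ^ 2 = 2 := Real.sq_sqrt (by norm_num)

theorem sq2_pos : 0 < √2 := Real.sqrt_pos.2 (by norm_num)

theorem sq2_lt : √2 < 2 := by nlinarith [sq2_sq, sq2_pos]

theorem qB_eq : qB = preB := by
  have h2 := sq2_sq
  have h0 := sq2_pos
  have h1 := sq2_lt
  have k1 : (0 : ℝ) < 2 + √2 := by linarith
  have k2 : (0 : ℝ) < 2 - √2 := by linarith
  have e1 : Real.log (2 / 3 * (2 + √2)) = Real.log (2 / 3) + Real.log (2 + √2) :=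
    Real.log_mul (by norm_num) k1.ne'
  have e2 : Real.log (2 - √2) = Real.log 2 - Real.log (2 + √2) := by
    rw [← Real.log_div (by norm_num) k1.ne']
    congr 1
    rw [eq_div_iff k1.ne']
    nlinarith
  have e3 : Real.log (4 + 2 * √2) = Real.log 2 + Real.log (2 + √2) := by
    rw [← Real.log_mul (by norm_num) k1.ne']
    congr 1
    ring
  unfold qB preB
  rw [e1, e2, e3]
  ring

/-- value of the prefactor at an integer -/
theorem pre_eq (J : ℕ) : exp (preA * (J : ℂ) ^ 2 + preB * J) =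
    (((2 - √2) ^ J * (4 + 2 * √2) ^ (J * (J - 1)) : ℝ) : ℂ) := by
  have h0 := sq2_pos
  have h1 := sq2_lt
  have k2 : (0 : ℝ) < 2 - √2 := by linarith
  have k4 : (0 : ℝ) < 4 + 2 * √2 := by linarith
  have e1 : (preA * (J : ℂ) ^ 2 + preB * J) = ((preA * (J : ℝ) ^ 2 + preB * J : ℝ) : ℂ) := by
    push_cast
    ring
  rw [e1, ← ofReal_exp]
  congr 1
  have e2 : preA * (J : ℝ) ^ 2 + preB * J = J * Real.log (2 - √2) +
      ((J * (J - 1) : ℕ) : ℝ) * Real.log (4 + 2 * √2) := by
    unfold preA preB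
    rcases J with _ | J
    · simp
    · push_cast [Nat.add_sub_cancel]
      ring
  rw [e2, Real.exp_add, mul_comm (J : ℝ), mul_comm ((J * (J - 1) : ℕ) : ℝ),
    Real.exp_mul, Real.exp_mul, Real.exp_log k2, Real.exp_log k4, Real.rpow_natCast,
    Real.rpow_natCast]

/-- **Clauses (1) and (2) of `NUI.CR`** from the closing formula. -/
theorem CR_core {a c R : ℝ} {W : ℕ → ℝ} {P : ℕ → ℝ[X]} {WW : ℂ → ℕ → ℂ}
    (hWP : ∀ (n' : ℂ) (J : ℕ), WW n' J = W J * aeval n' (P J))
    (H : ∀ ε > 0, ∀ᶠ m : ℕ in atTop, ∃ Zc : ℕ → ℂ → ℂ,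
      (∀ n ≤ 2 * (m + NN m), ∀ s : ℂ, |s.re - m| ≤ NN m + 1 / 2 →
        -(Real.pi / 4 * XX c m) ≤ s.im → s.im ≤ 17 / 10 * XX c m → DifferentiableAt ℂ (Zc n) s) ∧
      (∀ J : ℕ, m ≤ J + NN m → J ≤ m + NN m → ∀ b : ℂ,
        WW (2 * Complex.cosh b) J = (((2 - √2) ^ J * (4 + 2 * √2) ^ (J * (J - 1)) : ℝ) : ℂ) *
          ∑ n ∈ Finset.range (2 * (m + NN m) + 1), exp (b * ((J : ℂ) - n)) * Zc n J) ∧
      (∀ β : ℝ, 0 ≤ β → β ≤ R → ∀ s : ℂ, |s.re - m| ≤ NN m + 1 / 2 →
        -(Real.pi / 4 * XX c m) ≤ s.im → s.im ≤ 17 / 10 * XX c m →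
        ∑ n ∈ Finset.range (2 * (m + NN m) + 1), Real.exp (β * (s.re - n)) * ‖Zc n s‖
          ≤ Real.exp (EPv * s.re ^ 2) * Real.exp ((a + c * β ^ 2 + ε) * Real.log m)
            * Real.exp (-(s.im ^ 2 * (EPv - 1 / (2 * XX c m)))))) :
    NUI.CR a c R qA qB W P := by
  intro ε hε
  filter_upwards [H ε hε] with m hm
  obtain ⟨Zc, hd, he, hb⟩ := hm
  refine ⟨2 * (m + NN m) + 1, fun n s => exp (preA * s ^ 2 + preB * s) * Zc n s, ?_, ?_, ?_⟩
  · intro n hn s h1 h2 h3
    refine DifferentiableAt.mul (by fun_prop) (hd n ?_ s h1 h2 h3)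
    have := Finset.mem_range.1 hn
    omega
  · intro J hJ1 hJ2 b
    have h1 := he J hJ1 hJ2 b
    rw [hWP] at h1
    rw [h1, ← pre_eq, Finset.mul_sum]
    exact Finset.sum_congr rfl fun n _ => by ring
  · intro β hβ0' hβR s h1 h2 h3
    have h4 := hb β hβ0' hβR s h1 h2 h3
    have e1 : ∀ n, ‖exp (preA * s ^ 2 + preB * s) * Zc n s‖ =
        Real.exp (preA * (s.re ^ 2 - s.im ^ 2) + preB * s.re) * ‖Zc n s‖ := by
      intro n
      rw [norm_mul, norm_exp]
      congr 2
      simp [pow_two]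
    simp only [e1]
    calc ∑ n ∈ Finset.range (2 * (m + NN m) + 1), Real.exp (β * (s.re - n)) *
          (Real.exp (preA * (s.re ^ 2 - s.im ^ 2) + preB * s.re) * ‖Zc n s‖)
        = Real.exp (preA * (s.re ^ 2 - s.im ^ 2) + preB * s.re) *
          ∑ n ∈ Finset.range (2 * (m + NN m) + 1), Real.exp (β * (s.re - n)) * ‖Zc n s‖ := by
          rw [Finset.mul_sum]
          exact Finset.sum_congr rfl fun n _ => by ring
      _ ≤ Real.exp (preA * (s.re ^ 2 - s.im ^ 2) + preB * s.re) *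
          (Real.exp (EPv * s.re ^ 2) * Real.exp ((a + c * β ^ 2 + ε) * Real.log m)
            * Real.exp (-(s.im ^ 2 * (EPv - 1 / (2 * XX c m))))) :=
          mul_le_mul_of_nonneg_left h4 (Real.exp_pos _).le
      _ = _ := by
          rw [qA_eq, qB_eq, ← Real.exp_add, ← Real.exp_add, ← Real.exp_add, ← Real.exp_add,
            ← Real.exp_add]
          congr 1
          ring

end NUCR

end
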