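import Pool.Agent.NUCR.ConfB3
import Pool.Agent.NUCR.KwKapd

/-!
# The factors of the objects that are not flat (C6 of board/CR)

Uniform bounds: the kernels `kapd j`, the arguments `aL j`, `aA j` for offsets at distance `δ` from the integers; the
logarithm of the factor of one constituent in the presence of a current `J` that is bounded by `B` and vanishes for
`|t| >= D + 1` is at most `C (|eta| + B) e^(-(|t| - D - 1)_+)`.
-/

set_option autoImplicit false

open MeasureTheory Set Filter Topology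

namespace NUCR

open NUMF

noncomputable section

/-! ### uniform bounds of the kernels -/

/-- the distance to `4` modulo `8` is at least `δ`. -/
def Far4 (δ a : ℝ) : Prop := -4 + δ ≤ a ∧ a ≤ 12 - δ ∧ δ ≤ |a - 4|

lemma cos_unif {δ a : ℝ} (h0 : 0 < δ) (h : Far4 δ a) :
    -1 + (1 - Real.cos (δ * (Real.pi / 4))) ≤ Real.cos (2 * (a * l)) := by
  obtain ⟨h1, h2, h3⟩ := h
  have hpi := Real.pi_pos
  have e : 2 * (a * l) = (a - 4) * (Real.pi / 4) + Real.pi := by
    unfold l
    ring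
  rw [e, Real.cos_add_pi, ← Real.cos_abs ((a - 4) * (Real.pi / 4)), abs_mul,
    abs_of_pos (by positivity : 0 < Real.pi / 4)]
  have h4 : |a - 4| ≤ 8 - δ := by
    rw [abs_le]
    constructor <;> linarith
  suffices H : Real.cos (|a - 4| * (Real.pi / 4)) ≤ Real.cos (δ * (Real.pi / 4)) by linarith
  rcases le_or_gt |a - 4| 4 with h5 | h5
  · exact Real.cos_le_cos_of_nonneg_of_le_pi (by positivity) (by nlinarith) (by nlinarith)
  · have e2 : |a - 4| * (Real.pi / 4) = 2 * Real.pi - (8 - |a - 4|) * (Real.pi / 4) := by ring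
    rw [e2, Real.cos_two_pi_sub]
    exact Real.cos_le_cos_of_nonneg_of_le_pi (by positivity) (by nlinarith) (by nlinarith)

/-- the constant. -/
def Ck (δ : ℝ) : ℝ := 8 / (1 - Real.cos (δ * (Real.pi / 4)))

lemma one_sub_cos_pos {δ : ℝ} (h0 : 0 < δ) (h1 : δ ≤ 4) : 0 < 1 - Real.cos (δ * (Real.pi / 4)) := by
  have hpi := Real.pi_pos
  have : Real.cos (δ * (Real.pi / 4)) < Real.cos 0 :=
    Real.cos_lt_cos_of_nonneg_of_le_pi le_rfl (by nlinarith) (by positivity)
  rw [Real.cos_zero] at this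
  linarith

lemma Ck_pos {δ : ℝ} (h0 : 0 < δ) (h1 : δ ≤ 4) : 0 < Ck δ := div_pos (by norm_num) (one_sub_cos_pos h0 h1)

lemma kd_unif {δ a : ℝ} (h0 : 0 < δ) (h1 : δ ≤ 4) (h : Far4 δ a) (x : ℝ) :
    |kd x (a * l)| ≤ Ck δ * Real.exp (-2 * |x|) := by
  have h2 := one_sub_cos_pos h0 h1
  have h3 := Real.neg_one_le_cos (δ * (Real.pi / 4))
  exact kd_bound h2 (by linarith) (cos_unif h0 h)

lemma rowd_unif {δ j : ℝ} (h0 : 0 < δ) (h1 : δ ≤ 4) (ha : Far4 δ j) (hb : Far4 δ (3 - j)) (hc : Far4 δ (5 - j)) (t : ℝ) :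
    |rowd j t| ≤ 2 * Ck δ * Real.exp (-2 * |t|) := by
  have a1 := abs_le.1 (kd_unif h0 h1 ha t)
  have a2 := abs_le.1 (kd_unif h0 h1 hb t)
  have a3 := abs_le.1 (kd_unif h0 h1 hc t)
  unfold rowd
  rw [abs_le]
  constructor
  · linarith [a1.1, a2.1, a3.1]
  · linarith [a1.2, a2.2, a3.2]

lemma far_L {δ j : ℝ} (h0 : 0 < δ) (h1 : 1 + δ ≤ j) (h4 : j ≤ 4 - δ) :
    Far4 δ j ∧ Far4 δ (3 - j) ∧ Far4 δ (5 - j) := by
  refine ⟨⟨by linarith, by linarith, ?_⟩, ⟨by linarith, by linarith, ?_⟩, ⟨by linarith, by linarith, ?_⟩⟩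
  · rw [abs_of_nonpos (by linarith)]; linarith
  · rw [abs_of_nonpos (by linarith)]; linarith
  · rw [abs_of_nonpos (by linarith)]; linarith

lemma far_A {δ j : ℝ} (h0 : 0 < δ) (h1 : -1 + δ ≤ j) (h4 : j ≤ 1 - δ) :
    Far4 δ j ∧ Far4 δ (3 - j) ∧ Far4 δ (5 - j) := by
  refine ⟨⟨by linarith, by linarith, ?_⟩, ⟨by linarith, by linarith, ?_⟩, ⟨by linarith, by linarith, ?_⟩⟩
  · rw [abs_of_nonpos (by linarith)]; linarith
  · rw [abs_of_nonpos (by linarith)]; linarith
  · rw [abs_of_nonneg (by linarith)]; linarith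

/-! ### uniform bounds of the arguments -/

lemma nonneg_of_lim {f f' : ℝ → ℝ} (hd : ∀ s, HasDerivAt f (f' s) s) (h0 : ∀ s ≤ 0, 0 ≤ f' s)
    (hl : Tendsto f atBot (𝓝 0)) {t : ℝ} (ht : t ≤ 0) : 0 ≤ f t := by
  have hm : MonotoneOn f (Iic 0) := by
    refine monotoneOn_of_deriv_nonneg (convex_Iic 0) (fun s _ => (hd s).continuousAt.continuousWithinAt)
      (fun s _ => (hd s).differentiableAt.differentiableWithinAt) fun s hs => ?_
    rw [(hd s).deriv]
    rw [interior_Iic] at hs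
    exact h0 s (le_of_lt hs)
  refine le_of_tendsto hl ?_
  filter_upwards [eventually_le_atBot t] with s hs
  exact hm (mem_Iic.2 (hs.trans ht)) (mem_Iic.2 ht) hs

lemma exp2_lim (C : ℝ) : Tendsto (fun s : ℝ => C * Real.exp (2 * s)) atBot (𝓝 0) := by
  have h := (Real.tendsto_exp_atBot.comp (tendsto_id.const_mul_atBot (r := (2 : ℝ)) two_pos)).const_mul C
  rw [mul_zero] at h
  exact h

lemma exp2_deriv (C s : ℝ) : HasDerivAt (fun s : ℝ => C * Real.exp (2 * s)) (2 * C * Real.exp (2 * s)) s := by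
  have h1 : HasDerivAt (fun s : ℝ => 2 * s) 2 s := by simpa using (hasDerivAt_id s).const_mul 2
  have h2 := (h1.exp).const_mul C
  refine h2.congr_deriv ?_
  ring

/-- a function with an exponentially small derivative that vanishes at `-oo`. -/
lemma abs_le_of_lim {f r : ℝ → ℝ} {C : ℝ} (hd : ∀ s, HasDerivAt f (r s) s)
    (hr : ∀ s ≤ 0, |r s| ≤ 2 * C * Real.exp (-2 * |s|)) (hl : Tendsto f atBot (𝓝 0)) {t : ℝ} (ht : t ≤ 0) :
    |f t| ≤ C * Real.exp (-2 * |t|) := by
  have e : ∀ s ≤ (0 : ℝ), -2 * |s| = 2 * s := fun s hs => by rw [abs_of_nonpos hs]; ring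
  have h1 := nonneg_of_lim (f := fun s => C * Real.exp (2 * s) - f s)
    (f' := fun s => 2 * C * Real.exp (2 * s) - r s) (fun s => (exp2_deriv C s).sub (hd s))
    (fun s hs => by
      have := (abs_le.1 (hr s hs)).2
      rw [e s hs] at this
      linarith)
    (by simpa using (exp2_lim C).sub hl) ht
  have h2 := nonneg_of_lim (f := fun s => C * Real.exp (2 * s) + f s)
    (f' := fun s => 2 * C * Real.exp (2 * s) + r s) (fun s => (exp2_deriv C s).add (hd s))
    (fun s hs => by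
      have := (abs_le.1 (hr s hs)).1
      rw [e s hs] at this
      linarith)
    (by simpa using (exp2_lim C).add hl) ht
  rw [e t ht, abs_le]
  constructor <;> linarith

theorem aL_unif {δ j : ℝ} (h0 : 0 < δ) (h1 : 1 + δ ≤ j) (h4 : j ≤ 4 - δ) {t : ℝ} (ht : t ≤ 0) :
    |aL j t| ≤ Ck δ * Real.exp (-2 * |t|) := by
  obtain ⟨fa, fb, fc⟩ := far_L h0 h1 h4
  refine abs_le_of_lim (fun s => hasDerivAt_aL (by linarith) (by linarith) s) (fun s _ => ?_)
    (aL_bot (by linarith) (by linarith)) ht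
  rw [abs_neg]
  exact rowd_unif h0 (by linarith) fa fb fc s

theorem aL_unif_right {δ j : ℝ} (h0 : 0 < δ) (h1 : 1 + δ ≤ j) (h4 : j ≤ 4 - δ) {t : ℝ} (ht : 0 ≤ t) :
    |aL j t - 2 * Real.pi| ≤ Ck δ * Real.exp (-2 * |t|) := by
  have h2 := aL_unif h0 h1 h4 (t := -t) (by linarith)
  rw [aL_symm (by linarith) (by linarith), abs_neg] at h2
  rwa [abs_sub_comm]

theorem aA_unif {δ j : ℝ} (h0 : 0 < δ) (h1 : -1 + δ ≤ j) (h4 : j ≤ 1 - δ) (t : ℝ) :
    |aA j t| ≤ Ck δ * Real.exp (-2 * |t|) := by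
  obtain ⟨fa, fb, fc⟩ := far_A h0 h1 h4
  have hr : ∀ s, |-rowd j s| ≤ 2 * Ck δ * Real.exp (-2 * |s|) := fun s => by
    rw [abs_neg]
    exact rowd_unif h0 (by linarith) fa fb fc s
  obtain ⟨l1, l2⟩ := aA_lim (j := j) (by linarith) (by linarith)
  rcases le_total t 0 with ht | ht
  · exact abs_le_of_lim (fun s => hasDerivAt_aA (by linarith) (by linarith) s) (fun s _ => hr s) l1 ht
  · have h2 := abs_le_of_lim (f := fun s => aA j (-s)) (r := fun s => -rowd j (-s) * -1) (C := Ck δ)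
      (fun s => (hasDerivAt_aA (j := j) (by linarith) (by linarith) (-s)).comp s (hasDerivAt_neg s))
      (fun s _ => by
        have := hr (-s)
        rw [abs_neg] at this
        rw [mul_neg_one, abs_neg]
        rwa [abs_neg] at this ⊢)
      (l2.comp tendsto_neg_atBot_atTop) (t := -t) (by linarith)
    rw [neg_neg, abs_neg] at h2
    exact h2

/-- the argument with the cut at the height `tc`. -/
def argb (j tc t : ℝ) : ℝ := if t ≤ tc then aL j t else aL j t - 2 * Real.pi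

/-- the distance beyond the bulk. -/
def bey (D t : ℝ) : ℝ := max (|t| - D - 1) 0

lemma bey_nonneg (D t : ℝ) : 0 ≤ bey D t := le_max_right _ _

lemma exp_bey {D : ℝ} (hD : 0 ≤ D) (t : ℝ) : Real.exp (-2 * |t|) ≤ Real.exp (-bey D t) := by
  apply Real.exp_le_exp.2
  have h1 : bey D t ≤ |t| := max_le (by linarith) (abs_nonneg t)
  have := abs_nonneg t
  linarith

theorem argb_bound {δ j : ℝ} (h0 : 0 < δ) (h1 : 1 + δ ≤ j) (h4 : j ≤ 4 - δ) {D : ℝ} (hD : 0 ≤ D) (t : ℝ) :
    |argb j (D / 4) t| ≤ (Ck δ + 2 * Real.pi) * Real.exp (-bey D t) := by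
  have hpi := Real.pi_pos
  have hC := Ck_pos h0 (by linarith)
  have hE := exp_bey hD t
  have hE0 := Real.exp_pos (-bey D t)
  unfold argb
  split_ifs with c
  · rcases le_total t 0 with ht | ht
    · refine (aL_unif h0 h1 h4 ht).trans ?_
      nlinarith
    · have hb : bey D t = 0 := by
        unfold bey
        rw [abs_of_nonneg ht]
        exact max_eq_right (by linarith)
      have hm := aL_mem (j := j) (by linarith) (by linarith) t
      rw [hb, neg_zero, Real.exp_zero, mul_one, abs_of_pos hm.1]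
      linarith [hm.2]
  · refine (aL_unif_right h0 h1 h4 (by linarith)).trans ?_
    nlinarith

theorem aA_bound {δ j : ℝ} (h0 : 0 < δ) (h1 : -1 + δ ≤ j) (h4 : j ≤ 1 - δ) {D : ℝ} (hD : 0 ≤ D) (t : ℝ) :
    |aA j t| ≤ (Ck δ + 2 * Real.pi) * Real.exp (-bey D t) := by
  have hpi := Real.pi_pos
  have hC := Ck_pos h0 (by linarith)
  have hE := exp_bey hD t
  have hE0 := Real.exp_pos (-bey D t)
  refine (aA_unif h0 h1 h4 t).trans ?_
  nlinarith

/-! ### the current seen by a kernel -/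

/-- `∫ e^(-|x|)`. -/
def I1 : ℝ := ∫ x : ℝ, Real.exp (-1 * |x|)

lemma I1_nonneg : 0 ≤ I1 := integral_nonneg fun x => (Real.exp_pos _).le

theorem conv_tail {κ J : ℝ → ℝ} {C B D : ℝ} (hC : 0 ≤ C) (hB : 0 ≤ B) (hκ : ∀ x, |κ x| ≤ C * Real.exp (-2 * |x|))
    (hJ : ∀ t, |J t| ≤ B) (hz : ∀ t, D + 1 ≤ |t| → J t = 0) (t : ℝ) :
    |∫ x, κ x * J (t - x)| ≤ C * B * I1 * Real.exp (-bey D t) := by
  have hi := int_exp_abs (b := 1) one_pos
  have hb : ∀ x, ‖κ x * J (t - x)‖ ≤ C * B * Real.exp (-bey D t) * Real.exp (-1 * |x|) := by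
    intro x
    rw [Real.norm_eq_abs, abs_mul]
    rcases le_or_gt (D + 1) |t - x| with h | h
    · rw [hz _ h, abs_zero, mul_zero]
      positivity
    · have h1 : bey D t ≤ |x| := by
        refine max_le ?_ (abs_nonneg _)
        have := abs_sub_abs_le_abs_sub t (t - x)
        rw [show t - (t - x) = x by ring] at this
        linarith
      have h2 : Real.exp (-2 * |x|) ≤ Real.exp (-bey D t) * Real.exp (-1 * |x|) := by
        rw [← Real.exp_add]
        apply Real.exp_le_exp.2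
        linarith
      calc |κ x| * |J (t - x)| ≤ (C * Real.exp (-2 * |x|)) * B :=
            mul_le_mul (hκ x) (hJ _) (abs_nonneg _) (by positivity)
        _ ≤ (C * (Real.exp (-bey D t) * Real.exp (-1 * |x|))) * B :=
            mul_le_mul_of_nonneg_right (mul_le_mul_of_nonneg_left h2 hC) hB
        _ = _ := by ring
  have h3 := norm_integral_le_of_norm_le (hi.const_mul (C * B * Real.exp (-bey D t)))
    (Eventually.of_forall hb)
  rw [integral_const_mul, Real.norm_eq_abs] at h3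
  unfold I1
  refine h3.trans (le_of_eq ?_)
  ring

theorem jtot_zero {D eta ts K : ℝ} (hD : 4 ≤ D) (h : Adm D eta ts) {t : ℝ} (ht : D + 1 ≤ |t|) : jtot D eta ts K t = 0 := by
  unfold jtot
  rw [chi_zero ht]
  rcases le_total 0 t with h0 | h0
  · rw [abs_of_nonneg h0] at ht
    rw [Jt_right (by linarith) h ht, Nc_right (by linarith) (by linarith)]
    ring
  · rw [abs_of_nonpos h0] at ht
    rw [Jt_left (by linarith) h (by linarith), Nc_left (by linarith)]
    ring

theorem jtot_abs {D eta ts K : ℝ} (hD : 4 ≤ D) (h : Adm D eta ts) (hK : 0 ≤ K) (t : ℝ) :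
    |jtot D eta ts K t| ≤ 3 * |eta| + K := by
  have h1 := Jt_abs (by linarith : 1 ≤ D) h t
  have h2 : |K * chi D t| ≤ K := by
    rw [abs_mul, abs_of_nonneg hK, abs_of_nonneg (chi_nonneg D t)]
    exact mul_le_of_le_one_right hK (chi_le_one D t)
  have h3 : |eta * Nc (D / 2 - 1) t| ≤ |eta| := by
    rw [abs_mul, abs_of_nonneg (Nc_nonneg _ t)]
    exact mul_le_of_le_one_right (abs_nonneg _) (Nc_le_one _ t)
  unfold jtot
  have h4 := abs_sub (Jt D eta ts t + K * chi D t) (eta * Nc (D / 2 - 1) t)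
  have h5 := abs_add_le (Jt D eta ts t) (K * chi D t)
  linarith

/-- **one constituent, crude bound.** -/
theorem crude {C : ℝ} (hC : 0 ≤ C) {D eta ts K a : ℝ} {κ : ℝ → ℝ} {t : ℝ} (hD : 4 ≤ D) (h : Adm D eta ts) (hK : 0 ≤ K)
    (ha : |a| ≤ C * Real.exp (-bey D t)) (hκ : ∀ x, |κ x| ≤ C * Real.exp (-2 * |x|)) :
    |-eta * a - ∫ x, κ x * jtot D eta ts K (t - x)| ≤
      C * (|eta| + (3 * |eta| + K) * I1) * Real.exp (-bey D t) := by
  have h1 := conv_tail hC (by positivity : 0 ≤ 3 * |eta| + K) hκ (jtot_abs hD h hK) (fun s hs => jtot_zero hD h hs) t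
  have h2 : |-eta * a| ≤ |eta| * (C * Real.exp (-bey D t)) := by
    rw [abs_mul, abs_neg]
    exact mul_le_mul_of_nonneg_left ha (abs_nonneg _)
  have h3 := abs_sub (-eta * a) (∫ x, κ x * jtot D eta ts K (t - x))
  refine h3.trans ((add_le_add h2 h1).trans (le_of_eq ?_))
  ring

/-- the constant of the crude bounds. -/
def Cc (δ : ℝ) : ℝ := Ck δ + 2 * Real.pi + 24 / Real.sin (δ * l)

/-- **the constituents with winding** (offset in `(1, 4)`, at distance `δ` from the integers). -/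
theorem crude_L {δ : ℝ} (h0 : 0 < δ) {j : ℝ} (h1 : 1 + δ ≤ j) (h4 : j ≤ 4 - δ) (ho : NUO.Off δ j)
    {D eta ts K : ℝ} (hD : 4 ≤ D) (h : Adm D eta ts) (hK : 0 ≤ K) (t : ℝ) :
    |-eta * argb j (D / 4) t - ∫ x, kapd j x * jtot D eta ts K (t - x)| ≤
      Cc δ * (|eta| + (3 * |eta| + K) * I1) * Real.exp (-bey D t) := by
  have hs : 0 < Real.sin (δ * l) := by
    have := l_pos
    refine Real.sin_pos_of_pos_of_lt_pi (by positivity) ?_
    have e8 := eight_l
    nlinarith
  have hpi := Real.pi_pos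
  have hk := Ck_pos h0 (by linarith)
  have hs2 : 0 ≤ 24 / Real.sin (δ * l) := by positivity
  have hE := Real.exp_pos (-bey D t)
  have hC : 0 ≤ Cc δ := by unfold Cc; positivity
  refine crude hC hD h hK ?_ fun x => ?_
  · refine (argb_bound h0 h1 h4 (by linarith) t).trans (mul_le_mul_of_nonneg_right ?_ hE.le)
    unfold Cc
    linarith
  · refine (kapd_bound_off ho h0 x).trans (mul_le_mul_of_nonneg_right ?_ (Real.exp_pos _).le)
    unfold Cc
    linarith

/-- **the constituents without winding** (offset in `(-1, 1)`, at distance `δ` from the integers). -/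
theorem crude_A {δ : ℝ} (h0 : 0 < δ) {j : ℝ} (h1 : -1 + δ ≤ j) (h4 : j ≤ 1 - δ) (ho : NUO.Off δ j)
    {D eta ts K : ℝ} (hD : 4 ≤ D) (h : Adm D eta ts) (hK : 0 ≤ K) (t : ℝ) :
    |-eta * aA j t - ∫ x, kapd j x * jtot D eta ts K (t - x)| ≤
      Cc δ * (|eta| + (3 * |eta| + K) * I1) * Real.exp (-bey D t) := by
  have hs : 0 < Real.sin (δ * l) := by
    have := l_pos
    refine Real.sin_pos_of_pos_of_lt_pi (by positivity) ?_
    have e8 := eight_l
    nlinarith
  have hpi := Real.pi_pos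
  have hk := Ck_pos h0 (by linarith)
  have hs2 : 0 ≤ 24 / Real.sin (δ * l) := by positivity
  have hE := Real.exp_pos (-bey D t)
  have hC : 0 ≤ Cc δ := by unfold Cc; positivity
  refine crude hC hD h hK ?_ fun x => ?_
  · refine (aA_bound h0 h1 h4 (by linarith) t).trans (mul_le_mul_of_nonneg_right ?_ hE.le)
    unfold Cc
    linarith
  · refine (kapd_bound_off ho h0 x).trans (mul_le_mul_of_nonneg_right ?_ (Real.exp_pos _).le)
    unfold Cc
    linarith

/-- heights that differ by at most `r`. -/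
lemma exp_bey_shift {D t t' r : ℝ} (h : |t - t'| ≤ r) : Real.exp (-bey D t') ≤ Real.exp r * Real.exp (-bey D t) := by
  rw [← Real.exp_add]
  apply Real.exp_le_exp.2
  have h1 : bey D t ≤ bey D t' + r := by
    refine max_le ?_ ?_
    · have h2 : |t| ≤ |t'| + |t - t'| := by
        have := abs_add_le t' (t - t')
        rwa [add_sub_cancel] at this
      have h3 : |t'| - D - 1 ≤ bey D t' := le_max_left _ _
      linarith
    · have := bey_nonneg D t'
      have := abs_nonneg (t - t')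
      linarith
  linarith

end

end NUCR
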