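import Pool.Agent.NUCR.G0
import Pool.Agent.NUCR.Prof

/-!
# The total current of the B-layer and its energy (board/CR, C4)

`tot J D η K = J + K χ_D - η Nc (D / 2 - 1)`, `J` the profile of the upper line (`jU`) or of the lower line (`jD`).
* `IsProf`: the common properties of the two profiles; `isProf_jU`, `isProf_jD`
* `tot_DB`: all derivatives are at most `C (|η| + |K|)`; `tot_zero`: zero for `|t| ≥ D + 1`
* `En_tot`: for `|η| ≤ c D`: `En ≤ - η² E₁ + η² / (2 X) (1 + 4 p / (1 - p)) + A (1 + K²)`, `X = D / kap0`.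
-/

set_option autoImplicit false

open MeasureTheory Set Filter Topology

namespace NUCR

open NUMF

noncomputable section

/-- mean field energy of one row pair: `E₁ = ∫ P v` -/
def E1t : ℝ := ∫ t, P t * v t

/-- common properties of the profiles -/
structure IsProf (Cn : ℕ → ℝ) (D η p : ℝ) (J : ℝ → ℝ) : Prop where
  smooth : ∀ n : ℕ, ContDiff ℝ n J
  left : ∀ t, t ≤ -D - 1 → J t = 0
  right : ∀ t, D + 1 ≤ t → J t = η
  bd : ∀ t, |J t| ≤ 2 * |η|
  iter : ∀ k : ℕ, 1 ≤ k → ∀ t, |iteratedDeriv k J t| ≤ Cn k * (|η| / D)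
  energy : ∫ t, deriv J t ^ 2 ≤ η ^ 2 / (2 * D) * (1 + 4 * p / (1 - p))

lemma exists_Cn {Q : ℕ → ℝ → Prop} (hQ : ∀ n, ∃ C, 1 ≤ C ∧ Q n C) : ∃ Cn : ℕ → ℝ, ∀ n, 1 ≤ Cn n ∧ Q n (Cn n) :=
  ⟨fun n => (hQ n).choose, fun n => (hQ n).choose_spec⟩

theorem isProf_jU : ∃ Cn : ℕ → ℝ, (∀ n, 1 ≤ Cn n) ∧ ∀ D η ts : ℝ, 1 ≤ D → 0 ≤ η → -(D / 4) ≤ ts → ts ≤ D →
    IsProf Cn D η (pU D ts) (jU D η ts) := by
  obtain ⟨Cn, hCn⟩ := exists_Cn (Q := fun n C => ∀ D eta ts : ℝ, 1 ≤ D → -(D / 4) ≤ ts → ts ≤ D →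
    ∀ k, 1 ≤ k → k ≤ n → ∀ t, |iteratedDeriv k (jU D eta ts) t| ≤ C * (|eta| / D)) jU_iter
  refine ⟨Cn, fun n => (hCn n).1, fun D η ts hD h0 h1 h2 => ?_⟩
  refine ⟨fun n => jU_smooth n, fun t ht => jU_left (by linarith) h2 ht, fun t ht => jU_right hD h1 h2 ht,
    fun t => ?_, fun k hk t => (hCn k).2 D η ts hD h1 h2 k hk le_rfl t, jU_energy' hD h1 h2⟩
  have m := jU_mem hD h1 h2 h0 t
  have m2 := jU_le_two hD h1 h2 h0 t
  rw [abs_of_nonneg m.1, abs_of_nonneg h0]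
  exact m2

theorem isProf_jD : ∃ Cn : ℕ → ℝ, (∀ n, 1 ≤ Cn n) ∧ ∀ D η ts : ℝ, 1 ≤ D → η ≤ 0 → -D ≤ ts → ts ≤ D / 4 →
    IsProf Cn D η (pU D (-ts)) (jD D η ts) := by
  obtain ⟨Cn, hCn⟩ := exists_Cn (Q := fun n C => ∀ D eta ts : ℝ, 1 ≤ D → -D ≤ ts → ts ≤ D / 4 →
    ∀ k, 1 ≤ k → k ≤ n → ∀ t, |iteratedDeriv k (jD D eta ts) t| ≤ C * (|eta| / D)) jD_iter
  refine ⟨Cn, fun n => (hCn n).1, fun D η ts hD h0 h1 h2 => ?_⟩
  refine ⟨fun n => jD_smooth n, fun t ht => jD_left hD h1 h2 ht, fun t ht => jD_right hD h1 h2 ht,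
    fun t => ?_, fun k hk t => (hCn k).2 D η ts hD h1 h2 k hk le_rfl t, jD_energy hD h1 h2⟩
  have m := jD_mem hD h1 h2 h0 t
  rw [abs_le]
  refine ⟨?_, m.2⟩
  rw [abs_of_nonpos h0]
  linarith [m.1]

/-- the total current -/
def tot (J : ℝ → ℝ) (D η K : ℝ) (t : ℝ) : ℝ := J t + K * chi D t - η * Nc (D / 2 - 1) t

variable {Cn : ℕ → ℝ} {D η p K : ℝ} {J : ℝ → ℝ}

/-- the current vanishes outside of the bulk -/
theorem tot_zero (h : IsProf Cn D η p J) (hD : 2 ≤ D) {t : ℝ} (ht : D + 1 ≤ |t|) : tot J D η K t = 0 := by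
  unfold tot
  rw [chi_zero ht]
  rcases le_total 0 t with h0 | h0
  · rw [abs_of_nonneg h0] at ht
    rw [h.right t ht, Nc_right (by linarith) (by linarith)]
    ring
  · rw [abs_of_nonpos h0] at ht
    rw [h.left t (by linarith), Nc_left (by linarith)]
    ring

/-- all derivatives of the total current are `O(|η| + |K|)` -/
theorem tot_DB (Cn : ℕ → ℝ) (hCn : ∀ n, 1 ≤ Cn n) (n : ℕ) : ∃ C, 0 ≤ C ∧ ∀ (D η p K : ℝ) (J : ℝ → ℝ), 1 ≤ D →
    IsProf Cn D η p J → DB n (C * (|η| + |K|)) (tot J D η K) := by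
  obtain ⟨A, hA⟩ := chi_DB n
  obtain ⟨B, hB⟩ := Nc_DB n
  have hA0 : 0 ≤ A := (hA 0).nonneg
  have hB0 : 0 ≤ B := (hB 0).nonneg
  set S : ℝ := ∑ k ∈ Finset.range (n + 1), Cn k with hS
  have hS0 : 0 ≤ S := Finset.sum_nonneg fun k _ => by linarith [hCn k]
  refine ⟨2 + S + A + B, by positivity, fun D η p K J hD h => ?_⟩
  have hη := abs_nonneg η
  have hK := abs_nonneg K
  have h1 : DB n ((2 + S) * |η|) J := by
    refine ⟨h.smooth n, fun k hk t => ?_⟩
    rcases Nat.eq_zero_or_pos k with h0 | h0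
    · subst h0
      rw [iteratedDeriv_zero]
      have := h.bd t
      nlinarith [mul_nonneg hS0 hη]
    · refine (h.iter k h0 t).trans ?_
      have h2 : Cn k ≤ S := Finset.single_le_sum (f := fun k => Cn k) (fun i _ => by linarith [hCn i])
        (Finset.mem_range.2 (by omega))
      have h3 : |η| / D ≤ |η| := div_le_self hη hD
      have h4 : 0 ≤ |η| / D := div_nonneg hη (by linarith)
      have h5 := hCn k
      nlinarith
  have h2 := (hA D).smul K
  have h3 := (hB (D / 2 - 1)).smul (-η)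
  have h4 := (h1.add h2).add h3
  have e : tot J D η K = fun t => (J t + K * chi D t) + -η * Nc (D / 2 - 1) t := by
    funext t
    unfold tot
    ring
  rw [e]
  refine h4.mono ?_
  rw [abs_neg]
  nlinarith [mul_nonneg hS0 hK, mul_nonneg hA0 hη, mul_nonneg hB0 hK]

theorem tot_hasDerivAt (h : IsProf Cn D η p J) (t : ℝ) :
    HasDerivAt (tot J D η K) ((deriv J t + K * chi' D t) - η * Pcut (D / 2 - 1) t) t := by
  have d1 : HasDerivAt J (deriv J t) t :=
    ((h.smooth 1).differentiable (by norm_num)).differentiableAt.hasDerivAt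
  exact (d1.add ((chi_deriv D t).const_mul K)).sub ((Nc_deriv (D / 2 - 1) t).const_mul η)

theorem tot_deriv (h : IsProf Cn D η p J) :
    deriv (tot J D η K) = fun t => (deriv J t + K * chi' D t) - η * Pcut (D / 2 - 1) t :=
  funext fun t => (tot_hasDerivAt h t).deriv

/-- the slope of the profile is integrable and bounded -/
theorem IsProf.bi (h : IsProf Cn D η p J) (hD : 0 < D) : BI (Cn 1 * (|η| / D)) (deriv J) := by
  refine ⟨?_, fun t => ?_⟩
  · have hc : Continuous (deriv J) := (h.smooth 1).continuous_deriv (by norm_num)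
    have hs : HasCompactSupport (deriv J) := by
      apply HasCompactSupport.of_support_subset_isCompact (isCompact_Icc (a := -D - 1) (b := D + 1))
      intro t ht
      rw [Function.mem_support] at ht
      constructor
      · by_contra h1
        apply ht
        have e : J =ᶠ[𝓝 t] fun _ => 0 := by
          filter_upwards [Iio_mem_nhds (show t < -D - 1 by linarith)] with s hs
          exact h.left s (le_of_lt hs)
        rw [e.deriv_eq]
        simp
      · by_contra h1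
        apply ht
        have e : J =ᶠ[𝓝 t] fun _ => η := by
          filter_upwards [Ioi_mem_nhds (show D + 1 < t by linarith)] with s hs
          exact h.right s (le_of_lt hs)
        rw [e.deriv_eq]
        simp
    exact hc.integrable_of_hasCompactSupport hs
  · have := h.iter 1 le_rfl t
    rwa [iteratedDeriv_one] at this

lemma sq_exp_le {x : ℝ} (hx : 0 ≤ x) : x ^ 2 * Real.exp (-(2 / 3) * x) ≤ 9 := by
  have h1 := Real.quadratic_le_exp_of_nonneg (show 0 ≤ 2 / 3 * x by positivity)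
  have h2 : x ^ 2 ≤ 9 / 2 * Real.exp (2 / 3 * x) := by nlinarith
  have h3 : Real.exp (2 / 3 * x) * Real.exp (-(2 / 3) * x) = 1 := by
    rw [← Real.exp_add]
    simp
  have h4 := Real.exp_pos (-(2 / 3) * x)
  calc _ ≤ 9 / 2 * Real.exp (2 / 3 * x) * Real.exp (-(2 / 3) * x) := mul_le_mul_of_nonneg_right h2 h4.le
    _ = 9 / 2 := by rw [mul_assoc, h3, mul_one]
    _ ≤ 9 := by norm_num

/-- **energy of the total current** -/
theorem En_tot (Cn : ℕ → ℝ) (hCn : ∀ n, 1 ≤ Cn n) (c : ℝ) (hc : 0 ≤ c) : ∃ A, 0 ≤ A ∧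
    ∀ (D η p K : ℝ) (J : ℝ → ℝ), 4 ≤ D → |η| ≤ c * D → IsProf Cn D η p J →
      En η (deriv (tot J D η K)) ≤
        -η ^ 2 * E1t + η ^ 2 / (2 * (D / kap0)) * (1 + 4 * p / (1 - p)) + A * (1 + K ^ 2) := by
  obtain ⟨A, hA, hE⟩ := En_total
  have hk := kap0_pos
  set C1 := Cn 1 with hC1
  have hC10 : 1 ≤ C1 := hCn 1
  refine ⟨A * (C1 * c + 1) + 9 * (A * 4) * (c * (C1 * c + 1) + c ^ 2), by positivity,
    fun D η p K J hD hη h => ?_⟩
  have hD0 : 0 < D := by linarith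
  rw [tot_deriv h]
  set M := C1 * (|η| / D) with hM
  have hη0 := abs_nonneg η
  have hM0 : 0 ≤ M := by rw [hM]; positivity
  have hMc : M ≤ C1 * c := by
    rw [hM]
    refine mul_le_mul_of_nonneg_left ?_ (by linarith)
    rw [div_le_iff₀ hD0]
    exact hη
  refine (hE (D / 2 - 1) (by linarith) D η K M _ (h.bi hD0)).trans ?_
  have e1 : kap0 * (∫ t, deriv J t ^ 2) ≤ η ^ 2 / (2 * (D / kap0)) * (1 + 4 * p / (1 - p)) := by
    refine (mul_le_mul_of_nonneg_left h.energy hk.le).trans (le_of_eq ?_)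
    field_simp
  have hK0 := abs_nonneg K
  have hK1 : |K| ≤ 1 + K ^ 2 := by nlinarith [sq_nonneg (|K| - 1), sq_abs K]
  have hK2 : (1 : ℝ) ≤ 1 + K ^ 2 := by nlinarith [sq_nonneg K]
  have e2 : A * (|K| * M + K ^ 2) ≤ A * (C1 * c + 1) * (1 + K ^ 2) := by
    have h1 : |K| * M ≤ (1 + K ^ 2) * (C1 * c) := mul_le_mul hK1 hMc hM0 (by positivity)
    have h2 : |K| * M + K ^ 2 ≤ (C1 * c + 1) * (1 + K ^ 2) := by nlinarith
    calc _ ≤ A * ((C1 * c + 1) * (1 + K ^ 2)) := mul_le_mul_of_nonneg_left h2 hA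
      _ = _ := by ring
  have e3 : A * (|η| * (M + |K|) + η ^ 2) * Real.exp (-(4 / 3) * (D / 2 - 1)) ≤
      9 * (A * 4) * (c * (C1 * c + 1) + c ^ 2) * (1 + K ^ 2) := by
    have h1 : |η| * (M + |K|) + η ^ 2 ≤ D ^ 2 * ((c * (C1 * c + 1) + c ^ 2) * (1 + K ^ 2)) := by
      have g1 : M + |K| ≤ (C1 * c + 1) * (1 + K ^ 2) := by
        have : 0 ≤ C1 * c := by positivity
        nlinarith
      have g2 : |η| * (M + |K|) ≤ (c * D) * ((C1 * c + 1) * (1 + K ^ 2)) :=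
        mul_le_mul hη g1 (by positivity) (by positivity)
      have g3 : η ^ 2 ≤ (c * D) ^ 2 := by
        rw [← sq_abs]
        exact pow_le_pow_left₀ hη0 hη 2
      have g4 : (c * D) * ((C1 * c + 1) * (1 + K ^ 2)) ≤ D ^ 2 * (c * (C1 * c + 1) * (1 + K ^ 2)) := by
        have g5 : D ≤ D ^ 2 := by nlinarith
        have g6 : 0 ≤ c * (C1 * c + 1) * (1 + K ^ 2) := by positivity
        nlinarith [mul_le_mul_of_nonneg_right g5 g6]
      have g7 : (c * D) ^ 2 ≤ D ^ 2 * (c ^ 2 * (1 + K ^ 2)) := by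
        have : 0 ≤ D ^ 2 * c ^ 2 := by positivity
        nlinarith
      nlinarith
    have h2 : Real.exp (-(4 / 3) * (D / 2 - 1)) = Real.exp (4 / 3) * Real.exp (-(2 / 3) * D) := by
      rw [← Real.exp_add]
      congr 1
      ring
    have h3 : Real.exp (4 / 3) ≤ 4 := by
      have g := Real.exp_one_lt_d9
      have g1 : Real.exp (4 / 3) = Real.exp 1 * Real.exp (1 / 3) := by
        rw [← Real.exp_add]
        norm_num
      have g2 : Real.exp (1 / 3) ≤ 1.4 := by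
        have g3 : Real.exp (1 / 3) ^ 3 = Real.exp 1 := by
          rw [← Real.exp_nat_mul]
          norm_num
        by_contra hcon
        push Not at hcon
        have g4 : (1.4 : ℝ) ^ 3 < Real.exp (1 / 3) ^ 3 := pow_lt_pow_left₀ hcon (by norm_num) (by norm_num)
        rw [g3] at g4
        norm_num at g4
        linarith
      rw [g1]
      have := Real.exp_pos (1 / 3)
      nlinarith
    have h4 := sq_exp_le hD0.le
    have h5 := Real.exp_pos (-(2 / 3) * D)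
    set Q := (c * (C1 * c + 1) + c ^ 2) * (1 + K ^ 2) with hQ
    have hQ0 : 0 ≤ Q := by rw [hQ]; positivity
    have h6 : (|η| * (M + |K|) + η ^ 2) * Real.exp (-(4 / 3) * (D / 2 - 1)) ≤ 9 * 4 * Q := by
      rw [h2]
      calc _ ≤ D ^ 2 * Q * (4 * Real.exp (-(2 / 3) * D)) := by
            refine mul_le_mul h1 ?_ (by positivity) (by positivity)
            exact mul_le_mul_of_nonneg_right h3 h5.le
        _ = 4 * Q * (D ^ 2 * Real.exp (-(2 / 3) * D)) := by ring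
        _ ≤ 4 * Q * 9 := mul_le_mul_of_nonneg_left h4 (by positivity)
        _ = _ := by ring
    calc _ = A * ((|η| * (M + |K|) + η ^ 2) * Real.exp (-(4 / 3) * (D / 2 - 1))) := by ring
      _ ≤ A * (9 * 4 * Q) := mul_le_mul_of_nonneg_left h6 hA
      _ = _ := by rw [hQ]; ring
  have e4 : -η ^ 2 * (∫ t, P t * v t) = -η ^ 2 * E1t := rfl
  rw [e4]
  linarith

/-- upper line, any apex in `[-D/4, D]` -/
theorem En_upper (c : ℝ) (hc : 0 ≤ c) : ∃ A, 0 ≤ A ∧ ∀ D η K ts : ℝ, 4 ≤ D → 0 ≤ η → η ≤ c * D →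
    -(D / 4) ≤ ts → ts ≤ D →
      En η (deriv (tot (jU D η ts) D η K)) ≤
        -η ^ 2 * E1t + η ^ 2 / (2 * (D / kap0)) * (1 + 4 * pU D ts / (1 - pU D ts)) + A * (1 + K ^ 2) := by
  obtain ⟨Cn, hCn, h⟩ := isProf_jU
  obtain ⟨A, hA, hE⟩ := En_tot Cn hCn c hc
  refine ⟨A, hA, fun D η K ts hD h0 h1 h2 h3 => ?_⟩
  exact hE D η _ K _ hD (by rw [abs_of_nonneg h0]; exact h1) (h D η ts (by linarith) h0 h2 h3)

/-- lower line, any apex in `[-D, D/4]` -/
theorem En_lower (c : ℝ) (hc : 0 ≤ c) : ∃ A, 0 ≤ A ∧ ∀ D η K ts : ℝ, 4 ≤ D → η ≤ 0 → -η ≤ c * D →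
    -D ≤ ts → ts ≤ D / 4 →
      En η (deriv (tot (jD D η ts) D η K)) ≤
        -η ^ 2 * E1t + η ^ 2 / (2 * (D / kap0)) * (1 + 4 * pU D (-ts) / (1 - pU D (-ts))) + A * (1 + K ^ 2) := by
  obtain ⟨Cn, hCn, h⟩ := isProf_jD
  obtain ⟨A, hA, hE⟩ := En_tot Cn hCn c hc
  refine ⟨A, hA, fun D η K ts hD h0 h1 h2 h3 => ?_⟩
  exact hE D η _ K _ hD (by rw [abs_of_nonpos h0]; exact h1) (h D η ts (by linarith) h0 h2 h3)

end

end NUCR
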