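import Pool.Agent.NUCR.Br
import Pool.Agent.NUCR.G0

/-!
# The plateau identity for arguments (module B3 of board/CR, helper78)

Flat objects: `L` at the offset `2 < j < 3` and the string with satellites at `(2 + e, 3 + e, e, e)`, `0 < e < 1`.  The argument of
the row pair factor (left branch) is the convolution of the kernel `ker` of the pair functions with the distribution function
`1/2 + G` of `P`.  Hence the factor of the object in the presence of the current `F - eta Nc` is the factor for the current `F`,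
resp. `F - eta` for the right branch.
-/

set_option autoImplicit false

open MeasureTheory Set Filter Topology Complex

namespace NUCR

open NUMF

noncomputable section

/-! ### bounds of the kernels -/

lemma kd_off {a : ℝ} (h1 : -4 < a) (h2 : a < 8) (h4 : a ≠ 4) : ∃ C : ℝ, 0 < C ∧ ∀ x, |kd x (a * l)| ≤ C * Real.exp (-2 * |x|) := by
  have h := cos_gt h1 h2 h4
  have hc := Real.cos_le_one (2 * (a * l))
  have hδ : 0 < 1 + Real.cos (2 * (a * l)) := by linarith
  exact ⟨8 / (1 + Real.cos (2 * (a * l))), by positivity, fun x => kd_bound hδ (by linarith) (by linarith)⟩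

lemma kapd_meas (j : ℝ) : Measurable (kapd j) := by
  unfold kapd
  have h := kd_meas
  exact ((((((h _).neg.sub ((h _).div_const 2)).add ((h _).div_const 2)).add (((h _).add (h _)).div_const 2)).add
    (h _)).sub (h _)).sub (h _)

lemma kd_even (x y : ℝ) : kd (-x) y = kd x y := by
  unfold kd
  rw [show 2 * -x = -(2 * x) by ring, Real.cosh_neg]

lemma kapd_even (j x : ℝ) : kapd j (-x) = kapd j x := by
  unfold kapd
  simp only [kd_even]

lemma rowd_even (j x : ℝ) : rowd j (-x) = rowd j x := by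
  unfold rowd
  simp only [kd_even]

theorem kapd_bound {j : ℝ} (hj : Ns j) : ∃ C : ℝ, 0 < C ∧ ∀ x, |kapd j x| ≤ C * Real.exp (-2 * |x|) := by
  obtain ⟨j0, j4, j1, j2, j3⟩ := hj
  obtain ⟨C1, hC1, b1⟩ := kd_off (a := 4 - j) (by linarith) (by linarith) (by intro e; linarith)
  obtain ⟨C2, hC2, b2⟩ := kd_off (a := 2 - j) (by linarith) (by linarith) (by intro e; linarith)
  obtain ⟨C3, hC3, b3⟩ := kd_off (a := 2 + j) (by linarith) (by linarith) (by intro e; exact j2 (by linarith))
  obtain ⟨C4, hC4, b4⟩ := kd_off (a := 3 - j) (by linarith) (by linarith) (by intro e; linarith)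
  obtain ⟨C5, hC5, b5⟩ := kd_off (a := 5 - j) (by linarith) (by linarith) (by intro e; exact j1 (by linarith))
  obtain ⟨C6, hC6, b6⟩ := kd_off (a := j) (by linarith) (by linarith) (by intro e; linarith)
  obtain ⟨C7, hC7, b7⟩ := kd_off (a := j + 1) (by linarith) (by linarith) (by intro e; exact j3 (by linarith))
  obtain ⟨C8, hC8, b8⟩ := kd_off (a := j - 1) (by linarith) (by linarith) (by intro e; linarith)
  refine ⟨C1 + C2 + C3 + C4 + C5 + C6 + C7 + C8, by positivity, fun x => ?_⟩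
  have a1 := abs_le.1 (b1 x)
  have a2 := abs_le.1 (b2 x)
  have a3 := abs_le.1 (b3 x)
  have a4 := abs_le.1 (b4 x)
  have a5 := abs_le.1 (b5 x)
  have a6 := abs_le.1 (b6 x)
  have a7 := abs_le.1 (b7 x)
  have a8 := abs_le.1 (b8 x)
  have hE := Real.exp_pos (-2 * |x|)
  have n2 : 0 < C2 * Real.exp (-2 * |x|) := by positivity
  have n3 : 0 < C3 * Real.exp (-2 * |x|) := by positivity
  have n4 : 0 < C4 * Real.exp (-2 * |x|) := by positivity
  have n5 : 0 < C5 * Real.exp (-2 * |x|) := by positivity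
  unfold kapd
  rw [abs_le]
  constructor
  · linarith [a1.1, a1.2, a2.1, a2.2, a3.1, a3.2, a4.1, a4.2, a5.1, a5.2, a6.1, a6.2, a7.1, a7.2, a8.1, a8.2]
  · linarith [a1.1, a1.2, a2.1, a2.2, a3.1, a3.2, a4.1, a4.2, a5.1, a5.2, a6.1, a6.2, a7.1, a7.2, a8.1, a8.2]

/-- a kernel with exponential decay -/
structure Ker (κ : ℝ → ℝ) : Prop where
  meas : Measurable κ
  bd : ∃ C : ℝ, 0 < C ∧ ∀ x, |κ x| ≤ C * Real.exp (-2 * |x|)

lemma Ker.kapd {j : ℝ} (hj : Ns j) : Ker (kapd j) := ⟨kapd_meas j, kapd_bound hj⟩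

lemma Ker.add {κ κ' : ℝ → ℝ} (h : Ker κ) (h' : Ker κ') : Ker fun x => κ x + κ' x := by
  obtain ⟨C, hC, b⟩ := h.bd
  obtain ⟨C', hC', b'⟩ := h'.bd
  refine ⟨h.meas.add h'.meas, C + C', by positivity, fun x => ?_⟩
  refine (abs_add_le _ _).trans ?_
  have := b x
  have := b' x
  linarith

lemma Ker.smul {κ : ℝ → ℝ} (c : ℝ) (h : Ker κ) : Ker fun x => c * κ x := by
  obtain ⟨C, hC, b⟩ := h.bd
  refine ⟨h.meas.const_mul c, (|c| + 1) * C, by positivity, fun x => ?_⟩
  rw [abs_mul]
  have h1 := b x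
  have h2 := abs_nonneg c
  have h3 := abs_nonneg (κ x)
  nlinarith

lemma Ker.int {κ : ℝ → ℝ} (h : Ker κ) : Integrable κ := by
  obtain ⟨C, hC, b⟩ := h.bd
  exact ((int_exp_abs (b := 2) two_pos).const_mul C).mono' h.meas.aestronglyMeasurable (Eventually.of_forall b)

lemma Ker.mom {κ : ℝ → ℝ} (h : Ker κ) : Integrable fun x => |x| * |κ x| := by
  obtain ⟨C, hC, b⟩ := h.bd
  refine ((int_exp_abs (b := 1) one_pos).const_mul C).mono'
    ((measurable_id.abs).mul h.meas.abs).aestronglyMeasurable (Eventually.of_forall fun x => ?_)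
  have h1 : |x| ≤ Real.exp |x| := by
    have := Real.add_one_le_exp |x|
    linarith
  have h2 : Real.exp |x| * Real.exp (-2 * |x|) = Real.exp (-1 * |x|) := by
    rw [← Real.exp_add]
    congr 1
    ring
  rw [Real.norm_eq_abs, abs_mul, abs_abs, abs_abs]
  calc |x| * |κ x| ≤ Real.exp |x| * (C * Real.exp (-2 * |x|)) :=
        mul_le_mul h1 (b x) (abs_nonneg _) (Real.exp_pos _).le
    _ = C * Real.exp (-1 * |x|) := by
        rw [← h2]
        ring

/-! ### the convolution with the distribution function -/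

/-- the distribution function of `P` -/
def Nf (t : ℝ) : ℝ := 1 / 2 + G t

lemma Nf_le (t : ℝ) : |Nf t| ≤ 1 := by
  have h1 := G_lt t
  have h2 := lt_G t
  unfold Nf
  rw [abs_le]
  constructor <;> linarith

lemma Nf_deriv (t : ℝ) : HasDerivAt Nf (P t) t := (hasDerivAt_G t).const_add (1 / 2)

lemma Nf_cont : Continuous Nf := continuous_iff_continuousAt.2 fun t => (Nf_deriv t).continuousAt

lemma Nf_top : Tendsto Nf atTop (𝓝 1) := by
  have h := G_top.const_add (1 / 2)
  norm_num at h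
  exact h

lemma Nf_bot : Tendsto Nf atBot (𝓝 0) := by
  have h := G_bot.const_add (1 / 2)
  norm_num at h
  exact h

/-- convolution of the kernel with the distribution function -/
def kcv (κ : ℝ → ℝ) (t : ℝ) : ℝ := ∫ x, κ x * Nf (t - x)

lemma kcv_int {κ : ℝ → ℝ} (h : Integrable κ) (t : ℝ) : Integrable fun x => κ x * Nf (t - x) :=
  h.mul_bdd (c := 1) (Nf_cont.comp (continuous_const.sub continuous_id)).aestronglyMeasurable
    (Eventually.of_forall fun _ => Nf_le _)

lemma kcv_top {κ : ℝ → ℝ} (h : Integrable κ) : Tendsto (kcv κ) atTop (𝓝 (∫ x, κ x)) := by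
  have e : ∫ x, κ x = ∫ x, κ x * 1 := by simp
  rw [e]
  refine tendsto_integral_filter_of_dominated_convergence (fun x => |κ x|)
    (Eventually.of_forall fun t => (kcv_int h t).aestronglyMeasurable)
    (Eventually.of_forall fun t => Eventually.of_forall fun x => ?_) h.abs (Eventually.of_forall fun x => ?_)
  · rw [norm_mul, Real.norm_eq_abs, Real.norm_eq_abs]
    exact mul_le_of_le_one_right (abs_nonneg _) (Nf_le _)
  · exact (Nf_top.comp (tendsto_atTop_add_const_right atTop (-x) tendsto_id)).const_mul _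

lemma kcv_bot {κ : ℝ → ℝ} (h : Integrable κ) : Tendsto (kcv κ) atBot (𝓝 0) := by
  have e : (0:ℝ) = ∫ x, κ x * 0 := by simp
  rw [e]
  refine tendsto_integral_filter_of_dominated_convergence (fun x => |κ x|)
    (Eventually.of_forall fun t => (kcv_int h t).aestronglyMeasurable)
    (Eventually.of_forall fun t => Eventually.of_forall fun x => ?_) h.abs (Eventually.of_forall fun x => ?_)
  · rw [norm_mul, Real.norm_eq_abs, Real.norm_eq_abs]
    exact mul_le_of_le_one_right (abs_nonneg _) (Nf_le _)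
  · exact (Nf_bot.comp (tendsto_atBot_add_const_right atBot (-x) tendsto_id)).const_mul _

lemma P_bd (t : ℝ) : |P t| ≤ 32 / (3 * √3 * Real.pi) := by
  have h1 := P_le t
  have h2 := P_pos t
  rw [abs_of_pos h2]
  refine h1.trans ?_
  have h3 : Real.exp (-(8 / 3) * |t|) ≤ 1 := by
    rw [Real.exp_le_one_iff]
    have := abs_nonneg t
    linarith
  have h4 : 0 ≤ 32 / (3 * √3 * Real.pi) := by
    have := sq3_pos
    have := Real.pi_pos
    positivity
  exact mul_le_of_le_one_right h4 h3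

lemma kcv_deriv {κ : ℝ → ℝ} (h : Integrable κ) (t : ℝ) : HasDerivAt (kcv κ) (∫ x, κ x * P (t - x)) t := by
  have hm : ∀ t', AEStronglyMeasurable (fun x => κ x * Nf (t' - x)) volume := fun t' => (kcv_int h t').aestronglyMeasurable
  have key := hasDerivAt_integral_of_dominated_loc_of_deriv_le (μ := volume) (F := fun t x => κ x * Nf (t - x))
    (F' := fun t x => κ x * P (t - x)) (x₀ := t) (bound := fun x => |κ x| * (32 / (3 * √3 * Real.pi))) (s := univ)
    univ_mem (Eventually.of_forall hm) (kcv_int h t)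
    (h.aestronglyMeasurable.mul (P_cont.comp (continuous_const.sub continuous_id)).aestronglyMeasurable)
    (Eventually.of_forall fun x t' _ => ?_) (h.abs.mul_const _)
    (Eventually.of_forall fun x t' _ => ?_)
  · exact key.2
  · rw [norm_mul, Real.norm_eq_abs, Real.norm_eq_abs]
    exact mul_le_mul_of_nonneg_left (P_bd _) (abs_nonneg _)
  · exact (HasDerivAt.comp_sub_const t' x (Nf_deriv (t' - x))).const_mul (κ x)

lemma swap_conv (κ : ℝ → ℝ) (t : ℝ) : ∫ x, κ x * P (t - x) = ∫ s, P s * κ (t - s) := by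
  have h := integral_sub_left_eq_self (fun x => κ x * P (t - x)) volume t
  rw [← h]
  congr 1
  funext s
  rw [show t - (t - s) = s by ring, mul_comm]

/-! ### flat objects -/

/-- a flat object of winding `w`: `a` the argument of its row pair factor (left branch), `κ` its kernel -/
structure Flat (w : ℝ) (a κ : ℝ → ℝ) : Prop where
  ker : Ker κ
  eq : ∀ t, a t = kcv κ t
  tot : ∫ x, κ x = 2 * Real.pi * w
  pos : 0 < w

theorem Flat.of {w : ℝ} {a κ r : ℝ → ℝ} (hw : 0 < w) (hk : Ker κ) (hd : ∀ t, HasDerivAt a (-r t) t)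
    (hr : ∀ t, r t + ∫ s, P s * κ (t - s) = 0) (hbot : Tendsto a atBot (𝓝 0))
    (htop : Tendsto a atTop (𝓝 (2 * Real.pi * w))) : Flat w a κ := by
  have hD : ∀ t, HasDerivAt (fun t => a t - kcv κ t) 0 t := by
    intro t
    have h1 := (hd t).sub (kcv_deriv hk.int t)
    refine h1.congr_deriv ?_
    rw [swap_conv]
    have := hr t
    linarith
  have hc : ∀ t, a t - kcv κ t = a 0 - kcv κ 0 := fun t =>
    is_const_of_deriv_eq_zero (fun t => (hD t).differentiableAt) (fun t => (hD t).deriv) t 0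
  have hb : Tendsto (fun t => a t - kcv κ t) atBot (𝓝 (0 - 0)) := hbot.sub (kcv_bot hk.int)
  have h0 : a 0 - kcv κ 0 = 0 := by
    have h2 : Tendsto (fun _ : ℝ => a 0 - kcv κ 0) atBot (𝓝 (0 - 0)) := hb.congr hc
    rw [sub_zero] at h2
    exact tendsto_nhds_unique tendsto_const_nhds h2
  have heq : ∀ t, a t = kcv κ t := fun t => by
    have := hc t
    rw [h0] at this
    linarith
  refine ⟨hk, heq, ?_, hw⟩
  have h3 : Tendsto a atTop (𝓝 (∫ x, κ x)) := (kcv_top hk.int).congr fun t => (heq t).symm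
  exact tendsto_nhds_unique h3 htop

lemma exp_abs_bot : Tendsto (fun t : ℝ => Real.exp (-2 * |t|)) atBot (𝓝 0) := by
  have h := (Real.tendsto_exp_atBot.comp (tendsto_abs_atBot_atTop.const_mul_atTop_of_neg (r := (-2 : ℝ)) (by norm_num)))
  exact h

lemma exp_abs_top : Tendsto (fun t : ℝ => Real.exp (-2 * |t|)) atTop (𝓝 0) := by
  have h := (Real.tendsto_exp_atBot.comp (tendsto_abs_atTop_atTop.const_mul_atTop_of_neg (r := (-2 : ℝ)) (by norm_num)))
  exact h

lemma aL_bot {j : ℝ} (h1 : 1 < j) (h4 : j < 4) : Tendsto (aL j) atBot (𝓝 0) := by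
  obtain ⟨C, hC, b, -⟩ := lgL_bound h1 h4
  have h := exp_abs_bot.const_mul C
  rw [mul_zero] at h
  refine squeeze_zero_norm' ?_ h
  filter_upwards [eventually_le_atBot 0] with t ht
  exact (Complex.abs_im_le_norm _).trans (b t ht)

lemma aL_top {j : ℝ} (h1 : 1 < j) (h4 : j < 4) : Tendsto (aL j) atTop (𝓝 (2 * Real.pi)) := by
  obtain ⟨C, hC, -, b⟩ := lgL_bound h1 h4
  have h := exp_abs_top.const_mul C
  rw [mul_zero] at h
  have h5 : Tendsto (fun t => (lgR (pt j t)).im) atTop (𝓝 0) := by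
    refine squeeze_zero_norm' ?_ h
    filter_upwards [eventually_ge_atTop 0] with t ht
    exact (Complex.abs_im_le_norm _).trans (b t ht)
  have h6 := h5.add_const (2 * Real.pi)
  rw [zero_add] at h6
  refine h6.congr fun t => ?_
  rw [lgR_im]
  ring

lemma aA_lim {j : ℝ} (h1 : -1 < j) (h4 : j < 1) : Tendsto (aA j) atBot (𝓝 0) ∧ Tendsto (aA j) atTop (𝓝 0) := by
  obtain ⟨C, hC, b⟩ := lgA_bound h1 h4
  have h := exp_abs_bot.const_mul C
  have h' := exp_abs_top.const_mul C
  rw [mul_zero] at h h'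
  constructor
  · exact squeeze_zero_norm (fun t => (Complex.abs_im_le_norm _).trans (b t)) h
  · exact squeeze_zero_norm (fun t => (Complex.abs_im_le_norm _).trans (b t)) h'

/-- **the single `L`** -/
theorem flat_one {j : ℝ} (h2 : 2 < j) (h3 : j < 3) : Flat 1 (aL j) (kapd j) := by
  have hj : Ns j := ⟨by linarith, by linarith, by linarith, by linarith, by linarith⟩
  refine Flat.of one_pos (Ker.kapd hj) (fun t => hasDerivAt_aL (by linarith) (by linarith) t) (fun t => plat_L t h2 h3)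
    (aL_bot (by linarith) (by linarith)) ?_
  rw [mul_one]
  exact aL_top (by linarith) (by linarith)

/-- argument of the string with satellites -/
def aS (e t : ℝ) : ℝ := aL (2 + e) t + aL (3 + e) t + 2 * aA e t

/-- kernel of the string with satellites -/
def kS (e x : ℝ) : ℝ := kapd (2 + e) x + kapd (3 + e) x + 2 * kapd e x

/-- **the string with satellites** -/
theorem flat_str {e : ℝ} (h0 : 0 < e) (h1 : e < 1) : Flat 2 (aS e) (kS e) := by
  have n2 : Ns (2 + e) := ⟨by linarith, by linarith, by linarith, by linarith, by linarith⟩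
  have n3 : Ns (3 + e) := ⟨by linarith, by linarith, by linarith, by linarith, by linarith⟩
  have n0 : Ns e := ⟨by linarith, by linarith, by linarith, by linarith, by linarith⟩
  have hk : Ker (kS e) := ((Ker.kapd n2).add (Ker.kapd n3)).add ((Ker.kapd n0).smul 2)
  refine Flat.of (r := fun t => rowd (2 + e) t + rowd (3 + e) t + 2 * rowd e t) two_pos hk (fun t => ?_) (fun t => ?_) ?_ ?_
  · have d := ((hasDerivAt_aL (j := 2 + e) (by linarith) (by linarith) t).add
      (hasDerivAt_aL (j := 3 + e) (by linarith) (by linarith) t)).add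
      ((hasDerivAt_aA (j := e) (by linarith) h1 t).const_mul 2)
    refine d.congr_deriv ?_
    ring
  · have h := plat_F t h0 h1
    have i2 := (Pkapd t n2).1
    have i3 := (Pkapd t n3).1
    have i0 := (Pkapd t n0).1
    have e1 := integral_add (i2.add i3) (i0.const_mul 2)
    have e2 := integral_add i2 i3
    have e3 := integral_const_mul (μ := volume) 2 fun s => P s * kapd e (t - s)
    have e4 : ∫ s, P s * kS e (t - s) = ∫ s, (P s * kapd (2 + e) (t - s) + P s * kapd (3 + e) (t - s) +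
        2 * (P s * kapd e (t - s))) := by
      congr 1
      funext s
      unfold kS
      ring
    simp only [Pi.add_apply] at e1 e2
    rw [e4, e1, e2, e3]
    exact h
  · have l1 := aL_bot (j := 2 + e) (by linarith) (by linarith)
    have l2 := aL_bot (j := 3 + e) (by linarith) (by linarith)
    have l3 := (aA_lim (j := e) (by linarith) h1).1
    have h := (l1.add l2).add (l3.const_mul 2)
    rw [show (0:ℝ) + 0 + 2 * 0 = 0 by ring] at h
    exact h
  · have l1 := aL_top (j := 2 + e) (by linarith) (by linarith)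
    have l2 := aL_top (j := 3 + e) (by linarith) (by linarith)
    have l3 := (aA_lim (j := e) (by linarith) h1).2
    have h := (l1.add l2).add (l3.const_mul 2)
    rw [show 2 * Real.pi + 2 * Real.pi + 2 * 0 = 2 * Real.pi * 2 by ring] at h
    exact h

/-! ### the factor of a flat object in a current -/

/-- normalized kernel -/
def kn (w : ℝ) (κ : ℝ → ℝ) (x : ℝ) : ℝ := κ x / (2 * Real.pi * w)

variable {w : ℝ} {a κ : ℝ → ℝ}

lemma Flat.c0 (h : Flat w a κ) : 0 < 2 * Real.pi * w := by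
  have := Real.pi_pos
  have := h.pos
  positivity

lemma Flat.kn_ker (h : Flat w a κ) : Ker (kn w κ) := by
  have h1 := h.ker.smul (2 * Real.pi * w)⁻¹
  have e : kn w κ = fun x => (2 * Real.pi * w)⁻¹ * κ x := by
    funext x
    unfold kn
    rw [div_eq_inv_mul]
  rw [e]
  exact h1

lemma Flat.kn_one (h : Flat w a κ) : ∫ x, kn w κ x = 1 := by
  unfold kn
  rw [integral_div, h.tot, div_self h.c0.ne']

/-- the hypotheses of `j3_smear` on the normalized kernel -/
theorem Flat.kn_all (h : Flat w a κ) : Integrable (kn w κ) ∧ ∫ x, kn w κ x = 1 ∧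
    Integrable fun x => |x| * |kn w κ x| :=
  ⟨h.kn_ker.int, h.kn_one, h.kn_ker.mom⟩

/-- **the argument is the current `Nc` seen by the object**, up to a tiny error, uniformly -/
theorem arg_Nc_unif : ∃ A : ℝ, 0 ≤ A ∧ ∀ (w : ℝ) (a κ : ℝ → ℝ), Flat w a κ → ∀ R : ℝ, 1 ≤ R → ∀ t,
    Integrable (fun x => κ x * Nc R (t - x)) ∧
    |a t - ∫ x, κ x * Nc R (t - x)| ≤ A * (∫ x, |κ x|) * Real.exp (-(8 / 3) * R) := by
  obtain ⟨A, hA, hN⟩ := Nc_err
  refine ⟨A, hA, fun w a κ h R hR t => ?_⟩
  have hI := h.ker.int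
  have hc : Continuous (Nc R) := (Nc_smooth 0 R).continuous
  have i1 : Integrable fun x => κ x * Nc R (t - x) :=
    hI.mul_bdd (c := 1) (hc.comp (continuous_const.sub continuous_id)).aestronglyMeasurable
      (Eventually.of_forall fun x => by
        rw [Real.norm_eq_abs, abs_of_nonneg (Nc_nonneg R _)]
        exact Nc_le_one R _)
  refine ⟨i1, ?_⟩
  rw [h.eq t]
  unfold kcv
  rw [← integral_sub (kcv_int hI t) i1]
  have hb : ∀ x, |κ x * Nf (t - x) - κ x * Nc R (t - x)| ≤ A * Real.exp (-(8 / 3) * R) * |κ x| := by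
    intro x
    rw [← mul_sub, abs_mul, mul_comm]
    refine mul_le_mul_of_nonneg_right ?_ (abs_nonneg _)
    rw [abs_sub_comm]
    exact hN R hR (t - x)
  calc |∫ x, (κ x * Nf (t - x) - κ x * Nc R (t - x))| ≤ ∫ x, |κ x * Nf (t - x) - κ x * Nc R (t - x)| :=
        abs_integral_le_integral_abs
    _ ≤ ∫ x, A * Real.exp (-(8 / 3) * R) * |κ x| :=
        integral_mono ((kcv_int hI t).sub i1).abs (hI.abs.const_mul _) hb
    _ = A * (∫ x, |κ x|) * Real.exp (-(8 / 3) * R) := by
        rw [integral_const_mul]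
        ring

theorem Flat.arg_Nc (h : Flat w a κ) : ∃ A : ℝ, 0 ≤ A ∧ ∀ R : ℝ, 1 ≤ R → ∀ t, Integrable (fun x => κ x * Nc R (t - x)) ∧
    |a t - ∫ x, κ x * Nc R (t - x)| ≤ A * Real.exp (-(8 / 3) * R) := by
  obtain ⟨A, hA, hN⟩ := arg_Nc_unif
  have hI0 : 0 ≤ ∫ x, |κ x| := integral_nonneg fun x => abs_nonneg _
  exact ⟨A * ∫ x, |κ x|, by positivity, fun R hR t => hN w a κ h R hR t⟩

/-- **the factor of a flat object**: `- eta a - int kap (F - eta Nc) = - 2 pi w F~ (t)` up to a tiny error, uniformly -/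
theorem factor_unif : ∃ A : ℝ, 0 ≤ A ∧ ∀ (w : ℝ) (a κ : ℝ → ℝ), Flat w a κ → ∀ R : ℝ, 1 ≤ R →
    ∀ (η : ℝ) (F : ℝ → ℝ) (t : ℝ),
    Integrable (fun x => kn w κ x * F (t - x)) → Integrable (fun x => κ x * (F (t - x) - η * Nc R (t - x))) ∧
    |(-η * a t - ∫ x, κ x * (F (t - x) - η * Nc R (t - x))) - -(2 * Real.pi * w * ∫ x, kn w κ x * F (t - x))| ≤
      |η| * (A * (∫ x, |κ x|) * Real.exp (-(8 / 3) * R)) := by
  obtain ⟨A, hA, hN⟩ := arg_Nc_unif
  refine ⟨A, hA, fun w a κ h R hR η F t hF => ?_⟩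
  obtain ⟨i1, b1⟩ := hN w a κ h R hR t
  have hc := h.c0
  have e1 : (fun x => κ x * F (t - x)) = fun x => 2 * Real.pi * w * (kn w κ x * F (t - x)) := by
    funext x
    unfold kn
    rw [div_mul_eq_mul_div, mul_div_cancel₀ _ hc.ne']
  have i2 : Integrable fun x => κ x * F (t - x) := by
    rw [e1]
    exact hF.const_mul _
  have e2 : (fun x => κ x * (F (t - x) - η * Nc R (t - x))) = fun x => κ x * F (t - x) - η * (κ x * Nc R (t - x)) := by
    funext x
    ring
  have i3 := i2.sub (i1.const_mul η)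
  refine ⟨by rw [e2]; exact i3, ?_⟩
  have e3 : ∫ x, κ x * (F (t - x) - η * Nc R (t - x)) = (2 * Real.pi * w * ∫ x, kn w κ x * F (t - x)) -
      η * ∫ x, κ x * Nc R (t - x) := by
    rw [e2, integral_sub i2 (i1.const_mul η), integral_const_mul, e1, integral_const_mul]
  rw [e3]
  have e4 : (-η * a t - ((2 * Real.pi * w * ∫ x, kn w κ x * F (t - x)) - η * ∫ x, κ x * Nc R (t - x))) -
      -(2 * Real.pi * w * ∫ x, kn w κ x * F (t - x)) = -η * (a t - ∫ x, κ x * Nc R (t - x)) := by
    ring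
  rw [e4, abs_mul, abs_neg]
  exact mul_le_mul_of_nonneg_left b1 (abs_nonneg _)

theorem Flat.factor (h : Flat w a κ) : ∃ A : ℝ, 0 ≤ A ∧ ∀ R : ℝ, 1 ≤ R → ∀ (η : ℝ) (F : ℝ → ℝ) (t : ℝ),
    Integrable (fun x => kn w κ x * F (t - x)) → Integrable (fun x => κ x * (F (t - x) - η * Nc R (t - x))) ∧
    |(-η * a t - ∫ x, κ x * (F (t - x) - η * Nc R (t - x))) - -(2 * Real.pi * w * ∫ x, kn w κ x * F (t - x))| ≤
      |η| * (A * Real.exp (-(8 / 3) * R)) := by
  obtain ⟨A, hA, hN⟩ := factor_unif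
  have hI0 : 0 ≤ ∫ x, |κ x| := integral_nonneg fun x => abs_nonneg _
  exact ⟨A * ∫ x, |κ x|, by positivity, fun R hR η F t hF => hN w a κ h R hR η F t hF⟩

/-- the same for the right branch: the argument is `a - 2 pi w` -/
theorem Flat.factor_right (h : Flat w a κ) : ∃ A : ℝ, 0 ≤ A ∧ ∀ R : ℝ, 1 ≤ R → ∀ (η : ℝ) (F : ℝ → ℝ) (t : ℝ),
    Integrable (fun x => kn w κ x * F (t - x)) → Integrable (fun x => κ x * (F (t - x) - η * Nc R (t - x))) ∧
    |(-η * (a t - 2 * Real.pi * w) - ∫ x, κ x * (F (t - x) - η * Nc R (t - x))) -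
      -(2 * Real.pi * w * ((∫ x, kn w κ x * F (t - x)) - η))| ≤ |η| * (A * Real.exp (-(8 / 3) * R)) := by
  obtain ⟨A, hA, hN⟩ := h.factor
  refine ⟨A, hA, fun R hR η F t hF => ?_⟩
  obtain ⟨i1, b1⟩ := hN R hR η F t hF
  refine ⟨i1, ?_⟩
  refine le_trans (le_of_eq ?_) b1
  congr 1
  ring

/-! ### crude bounds of the arguments -/

/-- all arguments are bounded; on the proper side they decay -/
theorem arg_crude {j : ℝ} (h1 : 1 < j) (h4 : j < 4) : ∃ C : ℝ, 0 < C ∧ (∀ t, |aL j t| ≤ C ∧ |aL j t - 2 * Real.pi| ≤ C) ∧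
    (∀ t ≤ 0, |aL j t| ≤ C * Real.exp (-2 * |t|)) ∧ ∀ t, 0 ≤ t → |aL j t - 2 * Real.pi| ≤ C * Real.exp (-2 * |t|) := by
  obtain ⟨C, hC, b, b'⟩ := lgL_bound h1 h4
  have hpi := Real.pi_pos
  have q1 : ∀ t ≤ 0, |aL j t| ≤ C * Real.exp (-2 * |t|) := fun t ht => (Complex.abs_im_le_norm _).trans (b t ht)
  have q2 : ∀ t, 0 ≤ t → |aL j t - 2 * Real.pi| ≤ C * Real.exp (-2 * |t|) := fun t ht => by
    rw [← lgR_im]
    exact (Complex.abs_im_le_norm _).trans (b' t ht)
  refine ⟨C + 2 * Real.pi, by positivity, fun t => ?_, fun t ht => (q1 t ht).trans ?_, fun t ht => (q2 t ht).trans ?_⟩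
  · have hE : Real.exp (-2 * |t|) ≤ 1 := by
      rw [Real.exp_le_one_iff]
      have := abs_nonneg t
      linarith
    have hE2 : C * Real.exp (-2 * |t|) ≤ C := mul_le_of_le_one_right hC.le hE
    rcases le_total t 0 with ht | ht
    · have h5 := abs_le.1 ((q1 t ht).trans hE2)
      constructor <;> rw [abs_le] <;> constructor <;> linarith [h5.1, h5.2]
    · have h5 := abs_le.1 ((q2 t ht).trans hE2)
      constructor <;> rw [abs_le] <;> constructor <;> linarith [h5.1, h5.2]
  · have := Real.exp_pos (-2 * |t|)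
    nlinarith
  · have := Real.exp_pos (-2 * |t|)
    nlinarith

theorem arg_crudeA {j : ℝ} (h1 : -1 < j) (h4 : j < 1) : ∃ C : ℝ, 0 < C ∧ ∀ t, |aA j t| ≤ C * Real.exp (-2 * |t|) := by
  obtain ⟨C, hC, b⟩ := lgA_bound h1 h4
  exact ⟨C, hC, fun t => (Complex.abs_im_le_norm _).trans (b t)⟩

end

end NUCR
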