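import Pool.Agent.NUCR.Chi0
import Pool.Agent.NUCR.SEvalB
import Pool.Agent.NUCR.KwKapd
import Pool.Agent.NUCR.Plat
import Pool.Agent.NUH0.DatE

/-!
# The exponent `En` of a configuration for a complex number of rows

`F_a = FO + i y vc`, `E_a = slack + B_a - (β / 2) chi0`, `τ = tauC`, `μ_a = muC a - (β / 2) nu0`:

`En = ∑_i [s mfo + s slk - wcO] + En y h' + 1/2 ∑∑ ER + β² T / (2 kap0) - β s + ∑_a ∫ s P B_a
  + ∑_a ∫ μ_a φ_a + small`.
-/

set_option autoImplicit false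

open MeasureTheory Set Filter Topology Complex

namespace NUCR

noncomputable section

open NUO (Kind Xo ht Par PG Off offO fq fg FO fO mfo clo cons slkK wnu)
open NUMF (P)
open NUAct (Cur Ext hd zt zd)
open NUKer (iD)
open NUC43 (slk tauC muC sgX sgY sgT)
open Pool.Agent.NUM3 (ER)
open NUH0 (Dat slO slO_int slO_sum)

variable {r : ℕ}

/-- winding cost of the object `i` in the current `h` -/
def wcO (Q : Par) (O : Fin r → Xo) (i : Fin r) (h : ℝ → ℝ) : ℝ :=
  ((offO Q O i).map fun p => ∫ x, kapd p.1 x * h (p.2 - x)).sum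

lemma int_kw_eq (h : ℝ → ℝ) (j τ : ℝ) :
    ∫ t, h t * NUO.kw j (t - τ) = ∫ x, kapd j x * h (τ - x) := by
  rw [← integral_sub_left_eq_self (fun t => h t * NUO.kw j (t - τ)) volume τ]
  refine integral_congr_ae (ae_of_all _ fun x => ?_)
  simp only
  rw [show τ - x - τ = -x by ring, kw_eq_kapd, kapd_even, mul_comm]

lemma ext_row {w : ℝ} (hw : w ≤ NUMF.l / 4) (y : ℝ) {F : ℂ → ℂ} (hF : Ext w F) :
    Ext w fun z => F z + I * y * NUAct.vc z := by
  obtain ⟨A1, h1⟩ := hF.bd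
  have hv := NUAct.vc_ext hw
  obtain ⟨A2, h2⟩ := hv.bd
  refine ⟨fun z hz => (hF.diff z hz).add ((hv.diff z hz).const_mul _), A1 + |y| * A2, fun z hz => ?_⟩
  refine (norm_add_le _ _).trans ?_
  rw [norm_mul, norm_mul, Complex.norm_I, one_mul, Complex.norm_real, Real.norm_eq_abs, add_mul]
  refine add_le_add (h1 z hz) ?_
  rw [mul_assoc]
  exact mul_le_mul_of_nonneg_left (h2 z hz) (abs_nonneg _)

/-- **The constant of the action of a configuration, complex number of rows.** -/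
theorem S_cfgB {δ : ℝ} (hδ : 0 < δ) (hδ1 : δ ≤ 1 / 2) : ∃ C : ℝ, 1 ≤ C ∧
    ∀ (s ε M b y : ℝ) (e η η1 : ℝ → ℝ) (Q : Par) (r : ℕ) (O : Fin r → Xo), PG δ Q → 0 ≤ s →
      Cur s ε M b e η → (∀ t, HasDerivAt η (η1 t) t) → 0 ≤ b → C * (b + 1) ^ 7 * ε ≤ 1 →
      |(NUSEv.gs s η η1 (fun a z => FO Q O a z + I * y * NUAct.vc z)).S -
        ((∑ i, (s * mfo (cons Q O i) - wcO Q O i (fun t => s * P t * η t))) +
          En y (hd s η η1))| ≤
        C * ((r + |y|) * (M * ε)) + C * (b + 1) ^ 9 * M ^ 2 * ε := by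
  obtain ⟨C, hC, H⟩ := mainB hδ hδ1
  refine ⟨8 * C, by linarith, ?_⟩
  intro s ε M b y e η η1 Q r O hQ hs hcur h1 hb hsm
  have hl := NUMF.l_pos
  have hε0 := hcur.ε0
  have hM0 := hcur.M0 hs
  have hsm' : C * (b + 1) ^ 7 * ε ≤ 1 := by
    refine le_trans ?_ hsm
    have : 0 ≤ C * (b + 1) ^ 7 * ε := by positivity
    nlinarith
  have hdl : 0 < δ * NUMF.l := mul_pos hδ hl
  have hExt : ∀ a, Ext (δ * NUMF.l / 2) (fun z => FO Q O a z + I * y * NUAct.vc z) := fun a =>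
    ext_row (by nlinarith) y
      (NUO.ext_FO O (b := 3 / 4 * (δ * NUMF.l)) (by positivity) (by linarith) hQ a (by linarith))
  have h2 := H s ε M b y e η η1 (fun a z => FO Q O a z + I * y * NUAct.vc z) (fun _ => 0)
    (Σ i : Fin r, Fin (offO Q O i).length)
    (fun c => ((offO Q O c.1)[c.2.1]).1) (fun c => ((offO Q O c.1)[c.2.1]).2)
    hs hcur h1 hb hsm' hExt (fun c => (NUO.offO_off hQ O c.1 _ (List.getElem_mem c.2.2)).1)
    (fun z _ => by
      have e1 : FO Q O true z + FO Q O false z = ∑ c : (Σ i : Fin r, Fin (offO Q O i).length),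
          (fq ((offO Q O c.1)[c.2.1]).1 (z - ((offO Q O c.1)[c.2.1]).2) +
            fg ((offO Q O c.1)[c.2.1]).1 (z - ((offO Q O c.1)[c.2.1]).2)) := by
        unfold FO
        rw [← Finset.sum_add_distrib, Fintype.sum_sigma]
        refine Finset.sum_congr rfl fun i _ => ?_
        rw [NUO.fO_sum]
        exact (Fin.sum_univ_fun_getElem (offO Q O i)
          (fun p => fq p.1 (z - p.2) + fg p.1 (z - p.2))).symm
      rw [← e1]
      ring)
  have s1 : ∑ c : (Σ i : Fin r, Fin (offO Q O i).length),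
      clo ((offO Q O c.1)[c.2.1]).1 ((offO Q O c.1)[c.2.1]).2 = ∑ i, mfo (cons Q O i) := by
    rw [NUC43.sum_idx O (fun p => clo p.1 p.2)]
    exact Finset.sum_congr rfl fun i _ => (NUC43.mfo_eq hQ O i).symm
  have s2 : ∑ c : (Σ i : Fin r, Fin (offO Q O i).length),
      (∫ t, (s * P t * η t) * NUO.kw ((offO Q O c.1)[c.2.1]).1 (t - ((offO Q O c.1)[c.2.1]).2)) =
      ∑ i, wcO Q O i (fun t => s * P t * η t) := by
    rw [NUC43.sum_idx O (fun p => ∫ t, (s * P t * η t) * NUO.kw p.1 (t - p.2))]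
    refine Finset.sum_congr rfl fun i _ => ?_
    unfold wcO
    congr 1
    refine List.map_congr_left fun p _ => ?_
    exact int_kw_eq (fun t => s * P t * η t) p.1 p.2
  have s3 : (Fintype.card (Σ i : Fin r, Fin (offO Q O i).length) : ℝ) ≤ 8 * r := by
    have e1 : (Fintype.card (Σ i : Fin r, Fin (offO Q O i).length) : ℝ) =
        ∑ c : (Σ i : Fin r, Fin (offO Q O i).length), (1 : ℝ) := by
      rw [Finset.sum_const, Finset.card_univ, nsmul_eq_mul, mul_one]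
    rw [e1]
    calc ∑ c : (Σ i : Fin r, Fin (offO Q O i).length), (1 : ℝ) ≤
        ∑ c : (Σ i : Fin r, Fin (offO Q O i).length), (1 + |wnu ((offO Q O c.1)[c.2.1]).1|) :=
          Finset.sum_le_sum fun c _ => by
            have := abs_nonneg (wnu ((offO Q O c.1)[c.2.1]).1)
            linarith
      _ ≤ 8 * r := by
          rw [NUC43.sum_idx O (fun p => 1 + |wnu p.1|)]
          refine (Finset.sum_le_sum fun i _ => (NUC43.wnu_sum hQ O i).2).trans (le_of_eq ?_)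
          rw [Finset.sum_const, Finset.card_univ, Fintype.card_fin, nsmul_eq_mul]
          ring
  simp only [Complex.zero_re, mul_zero, integral_zero, add_zero, sub_zero] at h2
  rw [s1, s2] at h2
  rw [Finset.sum_sub_distrib, ← Finset.mul_sum]
  refine h2.trans ?_
  have hMε : 0 ≤ M * ε := mul_nonneg hM0 hε0
  have hr : (0:ℝ) ≤ r := Nat.cast_nonneg r
  have hy := abs_nonneg y
  have t1 : C * (((Fintype.card (Σ i : Fin r, Fin (offO Q O i).length) : ℝ) + |y|) * (M * ε)) ≤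
      8 * C * ((r + |y|) * (M * ε)) := by
    have : ((Fintype.card (Σ i : Fin r, Fin (offO Q O i).length) : ℝ) + |y|) * (M * ε) ≤
        (8 * (r + |y|)) * (M * ε) := by
      refine mul_le_mul_of_nonneg_right ?_ hMε
      linarith
    calc _ ≤ C * ((8 * (r + |y|)) * (M * ε)) := mul_le_mul_of_nonneg_left this (by linarith)
      _ = _ := by ring
  have t3 : C * (b + 1) ^ 9 * M ^ 2 * ε ≤ 8 * C * (b + 1) ^ 9 * M ^ 2 * ε := by
    have : 0 ≤ C * (b + 1) ^ 9 * M ^ 2 * ε := by positivity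
    nlinarith
  exact add_le_add t1 t3

/-! ### the cross terms with the response -/

/-- interaction of the densities -/
lemma energy_nu {μ : ℝ → ℝ} (hμ : NUC43.Dn μ) (β : ℝ) {T : ℝ} (hT : 0 ≤ T) :
    ∫ t, (μ t + -(β / 2) * nu0 T t) * ∫ u, (μ u + -(β / 2) * nu0 T u) * NUMF.V (t - u) =
      (∫ t, μ t * ∫ u, μ u * NUMF.V (t - u)) - β * (∫ t, μ t * chi0 T t) +
        β ^ 2 / 4 * ∫ t, nu0 T t * chi0 T t := by
  obtain ⟨C1, -, hC1⟩ := exists_nuchi
  obtain ⟨M, hM0, hM⟩ := hμ.bdd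
  have hn := (nu0_mass hT).1
  have hnb : ∀ t, |nu0 T t| ≤ C1 := fun t => (hC1 T hT t).1
  have hBμ : BI M μ := ⟨hμ.int, hM⟩
  have hBn : BI C1 (nu0 T) := ⟨hn, hnb⟩
  have hBn' : BI (|-(β / 2)| * C1) (fun t => -(β / 2) * nu0 T t) := hBn.smul _
  have e0 : ∀ (f : ℝ → ℝ) (t : ℝ), ∫ u, f u * NUMF.V (t - u) = cv f t := fun f t => by
    unfold cv
    exact integral_congr_ae (ae_of_all _ fun u => mul_comm _ _)
  have e1 : (∫ t, (μ t + -(β / 2) * nu0 T t) * ∫ u, (μ u + -(β / 2) * nu0 T u) * NUMF.V (t - u)) =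
      bil (fun t => μ t + -(β / 2) * nu0 T t) (fun t => μ t + -(β / 2) * nu0 T t) := by
    unfold bil
    simp_rw [e0 (fun u => μ u + -(β / 2) * nu0 T u)]
  have e2 : (∫ t, μ t * ∫ u, μ u * NUMF.V (t - u)) = bil μ μ := by
    unfold bil
    simp_rw [e0 μ]
  have e3 : bil μ (nu0 T) = ∫ t, μ t * chi0 T t := by
    unfold bil
    simp_rw [cv_nu0 hT]
  have e4 : bil (nu0 T) (nu0 T) = ∫ t, nu0 T t * chi0 T t := by
    unfold bil
    simp_rw [cv_nu0 hT]
  rw [e1, e2, bil_add_left hBμ hBn' (hBμ.add hBn'), bil_add_right hBμ hBμ hBn',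
    bil_add_right hBn' hBμ hBn', bil_smul_left, bil_smul_left, bil_smul_right, bil_smul_right,
    hBn.symm hBμ, e3, e4]
  ring

/-- **The exponent of a configuration, complex number of rows, tilt `β`.** -/
theorem En_cfgB {δ : ℝ} (hδ : 0 < δ) (hδ1 : δ ≤ 1 / 2) : ∃ C : ℝ, 1 ≤ C ∧
    ∀ (s ε M b y β T : ℝ) (e η η1 : ℝ → ℝ) (Q : Par) (r : ℕ) (O : Fin r → Xo) (B : Bool → ℝ → ℝ)
      (X : Dat), PG δ Q → NUC43.Adm Q.jL Q.e → 0 ≤ s → Cur s ε M b e η →
      (∀ t, HasDerivAt η (η1 t) t) → 0 ≤ b → C * (b + 1) ^ 7 * ε ≤ 1 → 0 ≤ T → X.s = s →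
      (∀ a, X.ζ a = zt (iD η)) → (∀ a, X.ζ' a = zd (iD η1)) →
      (∀ a, X.F a = fun z => FO Q O a z + I * y * NUAct.vc z) → X.τ = tauC Q.jL Q.e O →
      (∀ a, X.μ a = fun t => muC Q.jL Q.e O a t + -(β / 2) * nu0 T t) →
      (∀ a t, X.E a t = slO O a t + (B a t + -(β / 2) * chi0 T t)) →
      (∀ a, Integrable fun t => P t * B a t) →
      |X.En - ((∑ i, (s * mfo (cons Q O i) +
          s * slkK (fun t => ∫ u, P u * slk (u - t)) (NUO.kd (O i)) (ht (O i)) -
          wcO Q O i (fun t => s * P t * η t))) + En y (hd s η η1) +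
        1 / 2 * (∑ i, ∑ k, ER (sgX Q.jL Q.e) (sgY Q.jL Q.e) (sgT Q.jL Q.e) (NUO.sp (O i) == NUO.sp (O k))
          (NUO.kd (O i)) (NUO.kd (O k)) (ht (O i)) (ht (O k))) +
        β ^ 2 / 4 * (∫ t, nu0 T t * chi0 T t) - β * s * (∫ t, P t * chi0 T t) -
        β / 2 * (∑ a, ∫ t, muC Q.jL Q.e O a t * chi0 T t) +
        (∑ a, ∫ t, s * P t * B a t) + ∑ a, ∫ t, X.μ a t * X.φ a t)| ≤
        C * ((r + |y|) * (M * ε)) + C * (b + 1) ^ 9 * M ^ 2 * ε := by
  obtain ⟨C, hC, H⟩ := S_cfgB hδ hδ1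
  obtain ⟨Cp, hCp, HP⟩ := P_chi0
  refine ⟨C, hC, ?_⟩
  intro s ε M b y β T e η η1 Q r O B X hQ hA hs hcur h1 hb hsm hT xs xζ xζ' xF xτ xμ xE hB
  have h2 := H s ε M b y e η η1 Q r O hQ hs hcur h1 hb hsm
  have hS : X.gas.S = (NUSEv.gs s η η1 (fun a z => FO Q O a z + I * y * NUAct.vc z)).S := by
    unfold Dat.gas NUSEv.gs
    rw [xs, show X.ζ = fun _ => zt (iD η) from funext xζ,
      show X.ζ' = fun _ => zd (iD η1) from funext xζ',
      show X.F = fun a z => FO Q O a z + I * y * NUAct.vc z from funext xF]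
  have hE := NUC43.cfg_energy hA O
  have e1 : (∫ t, X.τ t * X.Gt t) = ∫ t, tauC Q.jL Q.e O t * NUC43.lgp (tauC Q.jL Q.e O) t := by
    unfold Dat.Gt NUC43.lgp
    rw [xτ]
  have e2 : ∀ a, (∫ t, X.μ a t * X.Vm a t) =
      (∫ t, muC Q.jL Q.e O a t * ∫ u, muC Q.jL Q.e O a u * NUMF.V (t - u)) -
        β * (∫ t, muC Q.jL Q.e O a t * chi0 T t) + β ^ 2 / 4 * ∫ t, nu0 T t * chi0 T t := by
    intro a
    unfold Dat.Vm
    rw [xμ]
    exact energy_nu (NUC43.dn_muC hA O a) β hT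
  have e3 : ∀ a, (∫ t, X.ρ t * X.E a t) = s * (∫ t, P t * slO O a t) + (∫ t, s * P t * B a t) -
      β / 2 * s * (∫ t, P t * chi0 T t) := by
    intro a
    have i1 := (slO_int O a).1.const_mul s
    have i2 : Integrable fun t => s * P t * B a t :=
      ((hB a).const_mul s).congr (Eventually.of_forall fun t => by simp only []; ring)
    have i3 : Integrable fun t => (-(β / 2 * s)) * (P t * chi0 T t) := (HP T hT).2.1.const_mul _
    have e : ∀ t, X.ρ t * X.E a t = (s * (P t * slO O a t) + s * P t * B a t) +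
        (-(β / 2 * s)) * (P t * chi0 T t) := by
      intro t
      unfold Dat.ρ
      rw [xE, xs]
      ring
    simp_rw [e]
    have i12 : Integrable fun t => s * (P t * slO O a t) + s * P t * B a t := i1.add i2
    rw [integral_add i12 i3, integral_add i1 i2, integral_const_mul, integral_const_mul]
    ring
  have e4 := slO_sum O
  have hEn : X.En = (NUSEv.gs s η η1 (fun a z => FO Q O a z + I * y * NUAct.vc z)).S +
      1 / 2 * (∑ i, ∑ k, ER (sgX Q.jL Q.e) (sgY Q.jL Q.e)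
      (sgT Q.jL Q.e) (NUO.sp (O i) == NUO.sp (O k)) (NUO.kd (O i)) (NUO.kd (O k)) (ht (O i)) (ht (O k))) +
      s * (∑ i, slkK (fun t => ∫ u, P u * slk (u - t)) (NUO.kd (O i)) (ht (O i))) +
      β ^ 2 / 4 * (∫ t, nu0 T t * chi0 T t) - β * s * (∫ t, P t * chi0 T t) -
        β / 2 * (∑ a, ∫ t, muC Q.jL Q.e O a t * chi0 T t) +
      (∑ a, ∫ t, s * P t * B a t) + ∑ a, ∫ t, X.μ a t * X.φ a t := by
    unfold Dat.En
    rw [hS, e1]
    simp_rw [e2, e3]
    rw [← hE, ← e4, Fintype.sum_bool, Fintype.sum_bool, Fintype.sum_bool, Fintype.sum_bool, Fintype.sum_bool,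
      Fintype.sum_bool]
    ring
  have e5 : (∑ i, (s * mfo (cons Q O i) +
      s * slkK (fun t => ∫ u, P u * slk (u - t)) (NUO.kd (O i)) (ht (O i)) -
      wcO Q O i (fun t => s * P t * η t))) =
      (∑ i, (s * mfo (cons Q O i) - wcO Q O i (fun t => s * P t * η t))) +
      s * (∑ i, slkK (fun t => ∫ u, P u * slk (u - t)) (NUO.kd (O i)) (ht (O i))) := by
    rw [Finset.mul_sum, ← Finset.sum_add_distrib]
    exact Finset.sum_congr rfl fun i _ => by ring
  rw [e5, hEn]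
  refine le_trans (le_of_eq ?_) h2
  congr 1
  ring

end

end NUCR
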