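import Pool.Agent.NUCR.Core
import Pool.Agent.NUP1S.Zc
import Pool.Agent.NUO.Top

/-!
# `NUI.CR` for the disc function at equal points: it remains to bound `NUP1S.Zc`
-/

set_option autoImplicit false

noncomputable section

open Complex Set Filter Topology Polynomial

namespace NUCR

open NUI (NN XX)
open NUP1 NUP1.Bd NUP1.ExM NUO NUP1S

theorem pre_rt (J : ℕ) : (2 - NUMv.rt) ^ J * (4 + 2 * NUMv.rt) ^ (J * (J - 1)) =
    (((2 - √2) ^ J * (4 + 2 * √2) ^ (J * (J - 1)) : ℝ) : ℂ) := by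
  unfold NUMv.rt
  push_cast
  rfl

/-- **The disc function at equal points from the entire functions**, real activity `cc`. -/
theorem Wd_Zc {α β₀ β s β' s' bl bh sl sh tl th : ℝ}
    (h : Par α β₀ β s β' s' bl bh sl sh tl th) (hsl : -(2 * NUP1.l) < sl) (b : ℂ) {J M : ℕ}
    (hM : J ≤ M) {K : ℕ} (hK : 2 * J < K) (tc : ℝ) {lnX : Lns} {lnY : Lns'}
    (hln : LnOk α bl bh sl sh tl th lnX lnY) :
    (Pool.Agent.NUF.near_WW (2 * Complex.cosh b)).Wd (List.replicate J 1) (List.replicate J 1) =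
      (((2 - √2) ^ J * (4 + 2 * √2) ^ (J * (J - 1)) : ℝ) : ℂ) *
        ∑ n ∈ Finset.range K, exp (b * ((J : ℂ) - n)) *
          Zc cc β β' M tc α lnX lnY n J := by
  have h1 := Wd_eq_Zc h hsl sg_sq b hM hK tc hln
  rw [A0_sq sg_sq, cc_eq, pre_rt] at h1
  exact h1

open Pool.Agent.NUF in
/-- **`NUI.CR` from the bound of `Zc`** (clause (3)). -/
theorem CR_of {a c R : ℝ} {W : ℕ → ℝ} {P : ℕ → ℝ[X]}
    (hW : ∀ J : ℕ, (near_WW 0).Wd (List.replicate J 1) (List.replicate J 1) = (W J : ℂ))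
    (hP : ∀ (n' : ℂ) (J : ℕ), ZZ n' J = aeval n' (P J))
    (H : ∀ ε > 0, ∀ᶠ m : ℕ in atTop,
      ∃ (α β₀ β s β' s' bl bh sl sh tl th : ℝ) (M : ℕ) (tc : ℝ) (lnX : Lns) (lnY : Lns'),
      Par α β₀ β s β' s' bl bh sl sh tl th ∧ -(2 * NUP1.l) < sl ∧ m + NN m ≤ M ∧
      LnOk α bl bh sl sh tl th lnX lnY ∧
      (∀ b : ℝ, 0 ≤ b → b ≤ R → ∀ s : ℂ, |s.re - m| ≤ NN m + 1 / 2 →
        -(Real.pi / 4 * XX c m) ≤ s.im → s.im ≤ 17 / 10 * XX c m →
        ∑ n ∈ Finset.range (2 * (m + NN m) + 1), Real.exp (b * (s.re - n)) *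
            ‖Zc cc β β' M tc α lnX lnY n s‖
          ≤ Real.exp (EPv * s.re ^ 2) * Real.exp ((a + c * b ^ 2 + ε) * Real.log m)
            * Real.exp (-(s.im ^ 2 * (EPv - 1 / (2 * XX c m)))))) :
    NUI.CR a c R qA qB W P := by
  refine CR_core (WW := fun n' J => (near_WW n').Wd (List.replicate J 1) (List.replicate J 1))
    ?_ fun ε hε => ?_
  · intro n' J
    show (near_WW n').Wd (List.replicate J 1) (List.replicate J 1) = _
    rw [← hP, ← hW]
    unfold ZZ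
    rw [mul_div_cancel₀ _ (Wd_ne J)]
  · filter_upwards [H ε hε] with m hm
    obtain ⟨α, β₀, β, s, β', s', bl, bh, sl, sh, tl, th, M, tc, lnX, lnY, h, hsl, hM, hln, hb⟩ := hm
    refine ⟨Zc cc β β' M tc α lnX lnY, ?_, ?_, hb⟩
    · intro n _ s _ _ _
      exact (Zc_entire h hsl cc M tc hln n).differentiableAt
    · intro J hJ1 hJ2 b
      exact Wd_Zc h hsl b (hJ2.trans hM) (by omega) tc hln

end NUCR

end
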