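import Pool.Agent.NUO.GasPot
import Pool.Agent.NUCR.DefB

/-!
# Step (II) of R4 and of R4B
-/

set_option autoImplicit false

noncomputable section

open Complex MeasureTheory Finset
open scoped ENNReal

namespace NUCR

open NUO NUP1 NUP1S NUP1S.Ab

theorem lposG : 0 < NUP1.l := NUP1.l_pos

theorem sinP {x : ℝ} (h1 : 0 < x) (h2 : x < 8 * NUP1.l) : Real.sin x ≠ 0 := by
  have hpi : Real.pi = 8 * NUP1.l := Bd.pi_eq
  exact (Real.sin_pos_of_pos_of_lt_pi h1 (by linarith)).ne'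

theorem sinN {x : ℝ} (h1 : -(8 * NUP1.l) < x) (h2 : x < 0) : Real.sin x ≠ 0 := by
  have := sinP (x := -x) (by linarith) (by linarith)
  rwa [Real.sin_neg, neg_ne_zero] at this

/-! ## the logarithm on a closed strip -/

theorem bdd_Fr {a b : ℝ} (h0 : 0 < a) (h2 : b < 2 * NUP1.l) : Bdd (Set.Icc a b) 0 Fr := by
  have hl := lposG
  have b1 := bdd_inv_sin (K := Set.Icc a b) isCompact_Icc 0 fun d hd =>
    (sinP (by linarith [hd.1]) (by linarith [hd.2]))
  have b2 := bdd_inv_sin (K := Set.Icc a b) isCompact_Icc (-(2 * NUP1.l)) fun d hd =>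
    (sinN (by linarith [hd.1]) (by linarith [hd.2]))
  have b3 := (bdd_sin (Set.Icc a b) (3 * NUP1.l)).pow 2
  have h4 := ((((Bdd.const (Set.Icc a b) (-1)).mul b3).mul b1).mul b2).rate (s' := 0)
    (by push_cast; ring)
  have e : (fun z : ℂ => -1 * sin (z + ((3 * NUP1.l : ℝ) : ℂ)) ^ 2 *
      (1 / sin (z + ((0 : ℝ) : ℂ))) * (1 / sin (z + ((-(2 * NUP1.l) : ℝ) : ℂ)))) = Fr := by
    funext z
    unfold Fr
    rw [l_eq]
    push_cast
    rw [add_zero, ← sub_eq_add_neg]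
    ring
  rw [e] at h4
  exact h4

theorem bdd_Fr_inv {a b : ℝ} (h0 : 0 < a) (h2 : b < 2 * NUP1.l) :
    Bdd (Set.Icc a b) 0 (fun z => (Fr z)⁻¹) := by
  have hl := lposG
  have b1 := bdd_sin (Set.Icc a b) 0
  have b2 := bdd_sin (Set.Icc a b) (-(2 * NUP1.l))
  have b3 := (bdd_inv_sin (K := Set.Icc a b) isCompact_Icc (3 * NUP1.l) fun d hd =>
    (sinP (by linarith [hd.1]) (by linarith [hd.2]))).pow 2
  have h4 := ((((Bdd.const (Set.Icc a b) (-1)).mul b3).mul b1).mul b2).rate (s' := 0)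
    (by push_cast; ring)
  have e : (fun z : ℂ => -1 * (1 / sin (z + ((3 * NUP1.l : ℝ) : ℂ))) ^ 2 *
      (sin (z + ((0 : ℝ) : ℂ))) * (sin (z + ((-(2 * NUP1.l) : ℝ) : ℂ)))) =
      fun z => (Fr z)⁻¹ := by
    funext z
    unfold Fr
    rw [l_eq]
    push_cast
    rw [add_zero, ← sub_eq_add_neg, inv_div, div_neg, one_div, inv_pow]
    ring
  rw [e] at h4
  exact h4

/-- the logarithm is bounded on a closed strip -/
theorem bdOn_lgA_K {a b : ℝ} (h0 : 0 < a) (h2 : b < 2 * NUP1.l) : BdOn (Set.Icc a b) lgA := by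
  obtain ⟨C, hC, h⟩ := bdd_Fr h0 h2
  obtain ⟨D, hD, h'⟩ := bdd_Fr_inv h0 h2
  have hpi := Real.pi_pos
  refine ⟨C + D + 4 * Real.pi, fun z hz => ?_⟩
  have e1 : Complex.exp (lgA z) = Fr z :=
    NUCR.exp_lgA (by linarith [hz.1]) (by rw [l_eq]; linarith [hz.2])
  have n1 : Real.exp (lgA z).re = ‖Fr z‖ := by rw [← Complex.norm_exp, e1]
  have k1 := h z hz
  have k2 := h' z hz
  rw [zero_mul, Real.exp_zero, mul_one] at k1 k2
  rw [norm_inv, ← n1, ← Real.exp_neg] at k2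
  rw [← n1] at k1
  have r1 : (lgA z).re ≤ C := by
    have := Real.add_one_le_exp (lgA z).re
    linarith
  have r2 : -(lgA z).re ≤ D := by
    have := Real.add_one_le_exp (-(lgA z).re)
    linarith
  have r3 : |(lgA z).re| ≤ C + D := by
    rw [abs_le]
    constructor <;> linarith
  have i1 : ∀ w : ℂ, |(ls w).im| ≤ Real.pi := fun w => by
    unfold ls
    rw [Complex.log_im]
    exact Complex.abs_arg_le_pi _
  have i2 : |(lgA z).im| ≤ 4 * Real.pi := by
    have a1 := abs_le.1 (i1 (z + 3 * NUMF.l))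
    have a2 := abs_le.1 (i1 z)
    have a3 := abs_le.1 (i1 (2 * NUMF.l - z))
    have e2 : (lgA z).im = 2 * (ls (z + 3 * NUMF.l)).im - (ls z).im - (ls (2 * NUMF.l - z)).im := by
      unfold lgA
      simp
    rw [e2, abs_le]
    constructor <;> linarith [a1.1, a1.2, a2.1, a2.2, a3.1, a3.2]
  have := Complex.norm_le_abs_re_add_abs_im (lgA z)
  linarith

/-! ## the cutoff -/

theorem adm_ep {ep : ℝ} (h0 : 0 < ep) (h1 : ep ≤ 1 / 100) :
    Adm (4 / 3 * (1 - ep)) (3 / 2 * NUP1.l + ep * NUP1.l / 4) := by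
  have hl := lposG
  have hpi : Real.pi = 8 * NUP1.l := Bd.pi_eq
  refine ⟨by linarith, by positivity, ?_, ?_⟩
  · rw [hpi]
    nlinarith [mul_pos h0 hl, mul_pos (mul_pos h0 h0) hl]
  · rw [hpi]
    nlinarith [mul_pos h0 hl]

/-! ## the row factor -/

theorem norm_ccB : ‖NUO.cc‖ = 2 * Real.cos NUP1.l := by
  have hc : 0 ≤ Real.cos NUP1.l := by
    refine Real.cos_nonneg_of_mem_Icc ⟨?_, ?_⟩ <;> unfold NUP1.l <;> linarith [Real.pi_pos]
  have e : NUO.cc = ((-(2 * Real.cos NUP1.l) : ℝ) : ℂ) := by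
    unfold NUO.cc
    push_cast
    ring
  rw [e, Complex.norm_real, Real.norm_eq_abs, abs_neg, abs_of_nonneg (by linarith)]

/-- the one body function of the quanta on `A'` for a complex number of rows -/
theorem norm_XA (s : ℂ) (tc β β' : ℝ) (M : ℕ) {u : ℂ} (hu : 0 < u.re) :
    ‖Xp (XR NUO.cc β β' 0 M) (lgk tc) s none u‖ = RNB s tc u * ‖NUO.ph M β u‖ := by
  unfold Xp XR lgk R0 RNB lgu
  rw [if_pos hu]
  simp only [pow_zero, mul_one, norm_mul, norm_ccB]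
  unfold NUP1S.ph NUO.ph
  ring

theorem ParB.goodP {P : NUO.Par} (h : ParB P) : GoodP P :=
  ⟨by linarith [h.j1], by linarith [h.j2], h.e1, h.d0, h.e2, h.r0, h.r1⟩

theorem CurB.crvR {ep : ℝ} {η η' : ℝ → ℝ} (h : CurB ep η η') (h1 : ep ≤ 1 / 100) :
    CrvR (ep / 4) η η' := by
  have hl := lposG
  refine ⟨h.hd, h.hc, fun t => ?_, fun t => ?_, h.hb⟩
  · have := (abs_le.1 (h.h1 t)).1
    linarith
  · have := (abs_le.1 (h.h1 t)).2
    nlinarith

/-- facts on the strip -/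
theorem strip_B {ep : ℝ} (h0 : 0 < ep) (h1 : ep ≤ 1 / 100) {x : ℝ} (hx : x ∈ Ks (ep / 4)) :
    NP x ∧ |x + NUP1.l / 2| ≤ 3 / 2 * NUP1.l + ep * NUP1.l / 4 := by
  have hl := lposG
  obtain ⟨x1, x2⟩ := hx
  have hel : 0 < ep * NUP1.l := mul_pos h0 hl
  have hel2 : ep * NUP1.l ≤ NUP1.l / 100 := by nlinarith
  refine ⟨NP_pos (by linarith) (by nlinarith), ?_⟩
  rw [abs_le]
  constructor <;> nlinarith

/-- **Step (II) of R4B.** -/
theorem gasB_le {ep : ℝ} (h0 : 0 < ep) (h1 : ep ≤ 1 / 100) (M : ℕ) (tc : ℝ) {P : NUO.Par}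
    (hP : ParB P) (s : ℂ) {η η' : ℝ → ℝ} (hη : CurB ep η η') {r : ℕ} (O : Fin r → Xo) {p n : ℕ}
    (hch : p + chgO O true = n + chgO O false) :
    ‖gas p n NUP1.l
      (fun z => Xp (XR NUO.cc (4 / 3 * (1 - ep)) (4 / 3) 0 M) (lgk tc) s none z * potC P O true z)
      (fun z => Xp (XR NUO.cc (4 / 3 * (1 - ep)) (4 / 3) 0 M) (lgk tc) s none z *
        potC P O false z)‖ₑ ≤
      Z1g (RNB s tc) M (4 / 3 * (1 - ep)) P η η' O p n := by
  have hl := lposG
  have hel : 0 < ep * NUP1.l := mul_pos h0 hl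
  have hel2 : ep * NUP1.l ≤ NUP1.l / 100 := by nlinarith
  set G := Xp (XR NUO.cc (4 / 3 * (1 - ep)) (4 / 3) 0 M) (lgk tc) s none with hG
  have mG : Measurable G := (measurable_XR _ _ _ _ _ none).mul
    ((measurable_lgk tc none).const_mul s).cexp
  have bG : Bdd (Ks (ep / 4)) (-(2 * (4 / 3 * (1 - ep)))) G := by
    have b1 := bdd_R0 NUO.cc 0 (K := Ks (ep / 4)) isCompact_Icc fun x hx => (strip_B h0 h1 hx).1
    have b2 := bdd_ph (adm_ep h0 h1) M (K := Ks (ep / 4)) fun x hx => (strip_B h0 h1 hx).2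
    obtain ⟨B, hB⟩ := bdOn_lgA_K (a := 19 / 20 * NUP1.l) (b := (1 + ep / 4) * NUP1.l)
      (by linarith) (by nlinarith)
    have b3 : Bdd (Ks (ep / 4)) 0 (fun u => Complex.exp (s * lgA u)) := by
      refine ⟨Real.exp (‖s‖ * B), (Real.exp_pos _).le, fun z hz => ?_⟩
      rw [zero_mul, Real.exp_zero, mul_one, Complex.norm_exp]
      refine Real.exp_le_exp.2 ((re_le_norm _).trans ?_)
      rw [norm_mul]
      exact mul_le_mul_of_nonneg_left (hB z hz) (norm_nonneg _)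
    exact ((b1.mul b2).mul b3).rate (by ring)
  have dG : ∀ u : ℂ, u.re ∈ Ks (ep / 4) → DifferentiableAt ℂ G u := by
    intro u hu
    have d1 := diffAt_R0 NUO.cc 0 (strip_B h0 h1 hu).1
    have d2 := diffAt_ph (adm_ep h0 h1) M (strip_B h0 h1 hu).2
    have d3 := lgA_diff (u := u) (by linarith [hu.1]) (by nlinarith [hu.2])
    exact (d1.mul d2).mul (d3.const_mul s).cexp
  have key := gas_pot_le hP.goodP (δ := ep / 4) (by linarith) (by linarith)
    (by linarith [hP.j2]) (hη.crvR h1) (hη.crvR h1) O (κ := 2 * (4 / 3 * (1 - ep)))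
    (by linarith) mG mG dG dG bG bG hch
  refine key.trans (le_of_eq ?_)
  have e1 : ∀ t, ‖G (NUO.pA η t)‖ = RNB s tc (NUO.pA η t) * ‖NUO.ph M (4 / 3 * (1 - ep))
      (NUO.pA η t)‖ := fun t => by
    refine norm_XA s tc _ _ M ?_
    have e2 : (NUO.pA η t).re = NUP1.l - η t := by simp [NUO.pA, vl]
    rw [e2]
    have := (abs_le.1 (hη.h1 t)).2
    linarith
  have e3 : ∀ st, qG G P η O st = qAg (RNB s tc) M (4 / 3 * (1 - ep)) P η O st := fun st => by
    funext t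
    unfold qAg qG
    rw [e1]
  unfold ZG Z1g
  rw [e3 true, e3 false]

end NUCR

end
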