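import Pool.Agent.NUCR.DefB
import Pool.Agent.NUCR.Exact
import Pool.Agent.NUCR.SumN
import Pool.Agent.NUO.ActInt
import Pool.Agent.NUF.FINT

/-!
# The final glue of TARGET-B: `R4B` and `PerB` give `NUI.Target`
-/

set_option autoImplicit false

noncomputable section

open MeasureTheory Finset Filter
open scoped ENNReal

namespace NUCR

open NUO NUP1

open Pool.Agent.NUF in
/-- the disc function at loop weight zero is its modulus -/
theorem Wd0_eq (J : ℕ) :
    (near_WW 0).Wd (List.replicate J 1) (List.replicate J 1) = (NUI.W0 J : ℂ) := by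
  have h := Pool.Agent.NUQ.Wd0_val J
  unfold NUI.W0
  rw [h, Complex.norm_real, Real.norm_of_nonneg (by positivity)]

theorem curB_zero {ep : ℝ} (hep : 0 ≤ ep) : CurB ep (fun _ => 0) (fun _ => 0) where
  hd _ := hasDerivAt_const _ _
  hc := continuous_const
  h1 _ := by
    have := NUP1.l_pos
    rw [abs_zero]
    positivity
  hb := ⟨0, fun _ => by simp⟩

theorem MFB_pos (m : ℕ) (s : ℂ) (b : ℝ) : 0 < MFB m s b := by
  unfold MFB
  positivity

theorem alg_exp (ε L p q c b : ℝ) :
    Real.exp (ε / 4 * L) * Real.exp ((3 / 8 + ε / 2) * L) * Real.exp (ε / 4 * L) *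
      (Real.exp p * Real.exp (c * b ^ 2 * L) * Real.exp q) =
    Real.exp p * Real.exp ((3 / 8 + c * b ^ 2 + ε) * L) * Real.exp q := by
  simp only [← Real.exp_add]
  congr 1
  ring

/-- **The final glue of TARGET-B.** -/
theorem target_of (hR : R4B) (hP : PerB) : NUI.Target := by
  show NUI.CR (3 / 8) c0 (17 / 10) qA qB NUI.W0 NUI.ZP
  refine CR_of Wd0_eq NUI.ZP_eq fun ε hε => ?_
  obtain ⟨C, c, b, c1, c', Ca, k, hC, hc, hb, hc1, hc', hCa, hP⟩ := hP
  obtain ⟨a, ha, hcore⟩ := sum_core (c' := c') (δ := ε / 4) hc' (by positivity)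
  -- the parameters
  set κ : ℝ := min (a / 2 / (10 * C)) 1 with hκ
  have hκ0 : 0 < κ := lt_min (by positivity) one_pos
  have hκ1 : 10 * C * κ ≤ a / 2 := by
    have : κ ≤ a / 2 / (10 * C) := min_le_left _ _
    rw [le_div_iff₀ (by positivity)] at this
    linarith
  set ep : ℝ := min (κ / 12) (min (1 / 100) (ε / (8 * (Ca + 1)))) with hep
  have hep0 : 0 < ep := lt_min (by positivity) (lt_min (by norm_num) (by positivity))
  have hep1 : ep ≤ κ / 12 := min_le_left _ _
  have hep2' : ep ≤ 1 / 100 := (min_le_right _ _).trans (min_le_left _ _)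
  have hep2 : ep ≤ 1 / 4 := hep2'.trans (by norm_num)
  have hep3 : ep ≤ ε / (8 * (Ca + 1)) := (min_le_right _ _).trans (min_le_right _ _)
  have hCe : Ca * ep ≤ ε / 8 := by
    rw [le_div_iff₀ (by positivity)] at hep3
    nlinarith
  obtain ⟨J, hJ0, hJ⟩ : ∃ J : ℝ, 0 ≤ J ∧ Real.exp (-(2 * Real.pi * J)) ≤ κ / 2 := by
    refine ⟨max 0 (-Real.log (κ / 2)), le_max_left _ _, ?_⟩
    have hpi := Real.pi_gt_three
    have h1 : -Real.log (κ / 2) ≤ 2 * Real.pi * max 0 (-Real.log (κ / 2)) := by
      have h2 := le_max_right 0 (-Real.log (κ / 2))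
      have h3 := le_max_left 0 (-Real.log (κ / 2))
      nlinarith
    calc Real.exp (-(2 * Real.pi * max 0 (-Real.log (κ / 2)))) ≤ Real.exp (Real.log (κ / 2)) :=
          Real.exp_le_exp.2 (by linarith)
      _ = κ / 2 := Real.exp_log (by positivity)
  obtain ⟨d, C', Cst, hd, hC', hCst, m0, hm0⟩ :=
    hP ep hep0 hep2' ep hep0 hep2' J hJ0 (ε / 4) (by positivity)
  obtain ⟨D, k', C3, LA, hD, hC3, hA⟩ := act_sum (c1 := c1) hC hC' hc1 ha
    (show 0 < ε / 4 / 2 by positivity) 10 (actInt hC.le hC' hc hb k)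
  obtain ⟨LS, hS⟩ := hcore C3 hC3
  set Q : ℝ := 4 * (1 + 1 / d) with hQ
  have hQ0 : 0 < Q := by positivity
  have hlog := Real.tendsto_log_atTop.comp (tendsto_natCast_atTop_atTop (R := ℝ))
  filter_upwards [eventually_ge_atTop m0, eventually_ge_atTop 8, NUI.NN_lt_self,
    hlog.eventually_ge_atTop (max (max LA LS) (max 2 (Real.log (Q * Cst + 1) / (ε / 4))))]
    with m g0 g8 gN g1
  simp only [Function.comp] at g1
  set L : ℝ := Real.log m with hL
  have gA : LA ≤ L := ((le_max_left _ _).trans (le_max_left _ _)).trans g1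
  have gS : LS ≤ L := ((le_max_right _ _).trans (le_max_left _ _)).trans g1
  have gL : 2 ≤ L := ((le_max_left _ _).trans (le_max_right _ _)).trans g1
  have gQ : Real.log (Q * Cst + 1) / (ε / 4) ≤ L :=
    ((le_max_right _ _).trans (le_max_right _ _)).trans g1
  have hL0 : 0 ≤ L := by linarith
  have h8 : (8 : ℝ) ≤ m := by exact_mod_cast g8
  have hmpos : (0 : ℝ) < m := by linarith
  have hmL : (m : ℝ) = Real.exp L := (Real.exp_log hmpos).symm
  obtain ⟨M, tc, P, hPB, hM, hPer⟩ := hm0 m g0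
  obtain ⟨α, β₀, s₀, s', bl, bh, sl, sh, tl, th, lnX, lnY, hPar, hsl, hln, hrep⟩ :=
    hR ep hep0 hep2' M tc P hPB
  refine ⟨α, β₀, 4 / 3 * (1 - ep), s₀, 4 / 3, s', bl, bh, sl, sh, tl, th, M, tc, lnX, lnY, hPar,
    hsl, hM, hln, ?_⟩
  intro b0 hb0 hb1 s hs1 hs2 hs3
  have hs : InS m s := ⟨hs1, hs2, hs3⟩
  set Mv : ℝ := Cst * MFB m s b0 * (m : ℝ) ^ (3 / 8 + Ca * (ep + ep) + ε / 4) with hMv
  have hMFB := MFB_pos m s b0
  have hM0 : 0 ≤ Mv := by positivity
  have hsm : (10 : ℕ) * C * (Real.exp (-(2 * Real.pi * J)) + 3 * ep + 3 * ep) ≤ a / 2 := by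
    refine le_trans ?_ hκ1
    push_cast
    refine mul_le_mul_of_nonneg_left ?_ (by positivity)
    linarith
  have hAr := hA L gA ep hep0.le hep2 ep hep0 hep2 J hJ0 hsm
  -- the chain
  set A : ℕ → ℝ := fun r => 10 * ∫ t, act C C' c b k L ep ep J r t *
    Real.exp (-tilt (WZ D L r) (lamZ k' L r) t) with hAdef
  set Bf : ℕ → ℝ := fun r => if (r : ℝ) ≤ L then Mv else Mv * Real.exp (c' * L) with hBf
  have hBf0 : ∀ r, 0 ≤ Bf r := fun r => by
    simp only [hBf]
    split_ifs
    · exact hM0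
    · positivity
  have hact0 : ∀ r t, 0 ≤ act C C' c b k L ep ep J r t := fun r t => act_nonneg hC.le hC' hL0
  set F : ℕ → ℂ := fun n => NUP1S.Zc cc (4 / 3 * (1 - ep)) (4 / 3) M tc α lnX lnY n s with hF
  have hone : ∀ n ≤ 2 * (m + NUI.NN m), ∀ b' : ℝ, b' = b0 + d ∨ b' = b0 - d →
      Real.exp (b' * (s.re - n)) * ‖F n‖ ≤ Mv * Real.exp (ε / 4 * L) := by
    intro n hn b' hb'
    have hrR : ∀ r < 2 * n + 1, (r : ℝ) ≤ Real.exp (2 * L) := by
      intro r hr
      have h1 : (r : ℝ) ≤ 8 * m := by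
        have : r ≤ 8 * m := by omega
        exact_mod_cast this
      have h5 : Real.exp (2 * L) = m * m := by rw [two_mul, Real.exp_add, ← hmL]
      rw [h5]
      nlinarith
    have hcur : ∀ (r : ℕ) (O : Fin r → Xo), ∃ η η' : ℝ → ℝ, CurB ep η η' ∧ (r ≤ 2 * n →
        ∀ W : Finset ℤ, ENNReal.ofReal (Real.exp (b' * (s.re - n))) *
            Fng (RNB s tc) M (4 / 3 * (1 - ep)) P η η' n O ≤
          ENNReal.ofReal (Mv *
            (if (r : ℝ) ≤ Real.log m then 1 else Real.exp (c' * Real.log m)) *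
            (∏ i, act C C' c b k (Real.log m) ep ep J r (ht (O i))) *
            Real.exp (-(c1 * ∑ w ∈ W, (cO O w : ℝ) ^ 2)))) := by
      intro r O
      by_cases h : r ≤ 2 * n
      · obtain ⟨η, η', h1, h2⟩ := hPer s hs n hn b0 hb0 hb1 b' hb' r h O
        exact ⟨η, η', h1, fun _ => h2⟩
      · exact ⟨_, _, curB_zero hep0.le, fun h' => absurd h' h⟩
    choose η η' hcv hpc using hcur
    have key : ENNReal.ofReal (Real.exp (b' * (s.re - n))) * ‖F n‖ₑ ≤
        ENNReal.ofReal (∑ r ∈ range (2 * n + 1),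
          Bf r * Real.exp (cost D k' c1 L r) * (A r ^ r / (r.factorial : ℝ))) := by
      calc _ ≤ ENNReal.ofReal (Real.exp (b' * (s.re - n))) *
            ∑ r ∈ range (2 * n + 1), ((r.factorial : ℝ≥0∞))⁻¹ *
            ∫⁻ O : Fin r → Xo, Fng (RNB s tc) M (4 / 3 * (1 - ep)) P (η r O) (η' r O) n O
              ∂(Measure.pi fun _ => nu) :=
            mul_le_mul_right (hrep s η η' hcv n) _
        _ = ∑ r ∈ range (2 * n + 1), ((r.factorial : ℝ≥0∞))⁻¹ *
            ∫⁻ O : Fin r → Xo, ENNReal.ofReal (Real.exp (b' * (s.re - n))) *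
              Fng (RNB s tc) M (4 / 3 * (1 - ep)) P (η r O) (η' r O) n O
              ∂(Measure.pi fun _ => nu) := by
            rw [Finset.mul_sum]
            refine Finset.sum_congr rfl fun r _ => ?_
            rw [lintegral_const_mul' _ _ ENNReal.ofReal_ne_top]
            ring
        _ ≤ ∑ r ∈ range (2 * n + 1), ((r.factorial : ℝ≥0∞))⁻¹ *
            ENNReal.ofReal (Bf r * Real.exp (cost D k' c1 L r) * A r ^ r) := by
            refine Finset.sum_le_sum fun r hr => ?_
            refine mul_le_mul_right ?_ _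
            have hr4 : r ≤ 2 * n := Nat.lt_succ_iff.1 (Finset.mem_range.1 hr)
            obtain ⟨hi, -, -, -, -⟩ := hAr r (hrR r (Finset.mem_range.1 hr))
            refine le_trans (lintegral_mono fun O => hpc r O hr4 (WZ D L r)) ?_
            have h1 := lint_conf_le (r := r) (act C C' c b k L ep ep J r) (hact0 r) (WZ D L r)
              (lamZ k' L r) hc1 (hBf0 r) hi
            refine le_trans (le_of_eq ?_) h1
            refine lintegral_congr fun O => ?_
            congr 1
            simp only [hBf, cO]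
            split_ifs
            · rw [mul_one]
            · rfl
        _ = ENNReal.ofReal (∑ r ∈ range (2 * n + 1),
          Bf r * Real.exp (cost D k' c1 L r) * (A r ^ r / (r.factorial : ℝ))) := by
            rw [ENNReal.ofReal_sum_of_nonneg]
            · refine Finset.sum_congr rfl fun r hr => ?_
              have hfac : (0 : ℝ) < (r.factorial : ℝ) := by positivity
              have e1 : ((r.factorial : ℝ≥0∞))⁻¹ = ENNReal.ofReal ((r.factorial : ℝ)⁻¹) := by
                rw [ENNReal.ofReal_inv_of_pos hfac, ENNReal.ofReal_natCast]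
              rw [e1, ← ENNReal.ofReal_mul (by positivity)]
              congr 1
              field_simp
            · intro r hr
              have hI := (hAr r (hrR r (Finset.mem_range.1 hr))).2.1
              have h2 := hBf0 r
              have h3 : 0 ≤ A r := by simp only [hAdef]; positivity
              positivity
    have hsum : ∑ r ∈ range (2 * n + 1),
        Bf r * Real.exp (cost D k' c1 L r) * (A r ^ r / (r.factorial : ℝ)) ≤
          Mv * Real.exp (ε / 4 * L) := by
      refine hS L gS Mv hM0 (2 * n + 1) A (cost D k' c1 L) _ ?_ ?_ ?_ ?_ ?_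
      · intro r hr
        have hI := (hAr r (hrR r hr)).2.1
        simp only [hAdef]
        positivity
      · intro r hr
        have hI := (hAr r (hrR r hr)).2.2.1
        simpa [hAdef] using hI
      · intro r hr h
        have := (hAr r (hrR r hr)).2.2.2.1 h
        linarith
      · intro r hr h
        exact (hAr r (hrR r hr)).2.2.2.2 h
      · intro r hr
        exact le_rfl
    have h1 := key.trans (ENNReal.ofReal_le_ofReal hsum)
    rw [← ofReal_norm, ← ENNReal.ofReal_mul (Real.exp_pos _).le] at h1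
    exact (ENNReal.ofReal_le_ofReal_iff (by positivity)).1 h1
  have hfin : ∑ n ∈ range (2 * (m + NUI.NN m) + 1), Real.exp (b0 * (s.re - n)) * ‖F n‖ ≤
      Q * (Mv * Real.exp (ε / 4 * L)) := by
    have h1 := NUCR.sum_n_le (b := b0) (d := d) (s := s.re) (Q := Mv * Real.exp (ε / 4 * L)) hd
      (by positivity) (fun n => ‖F n‖) (2 * (m + NUI.NN m) + 1)
      (fun n hn => hone n (by omega) (b0 + d) (Or.inl rfl))
      (fun n hn => hone n (by omega) (b0 - d) (Or.inr rfl))
    rw [hQ]
    exact h1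
  refine hfin.trans ?_
  have hCL : Q * Cst ≤ Real.exp (ε / 4 * L) := by
    have h1 : 0 < Q * Cst + 1 := by positivity
    rw [div_le_iff₀ (by positivity)] at gQ
    calc Q * Cst ≤ Q * Cst + 1 := by linarith
      _ = Real.exp (Real.log (Q * Cst + 1)) := (Real.exp_log h1).symm
      _ ≤ _ := Real.exp_le_exp.2 (by linarith)
  have hpw : (m : ℝ) ^ (3 / 8 + Ca * (ep + ep) + ε / 4) ≤ Real.exp ((3 / 8 + ε / 2) * L) := by
    rw [Real.rpow_def_of_pos hmpos, ← hL]
    refine Real.exp_le_exp.2 ?_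
    rw [mul_comm]
    refine mul_le_mul_of_nonneg_right ?_ hL0
    linarith [hCe]
  calc Q * (Mv * Real.exp (ε / 4 * L))
      = (Q * Cst) * (m : ℝ) ^ (3 / 8 + Ca * (ep + ep) + ε / 4) * Real.exp (ε / 4 * L) *
          MFB m s b0 := by rw [hMv]; ring
    _ ≤ Real.exp (ε / 4 * L) * Real.exp ((3 / 8 + ε / 2) * L) * Real.exp (ε / 4 * L) *
          MFB m s b0 := by
        refine mul_le_mul_of_nonneg_right (mul_le_mul_of_nonneg_right ?_ (Real.exp_pos _).le)
          hMFB.le
        exact mul_le_mul hCL hpw (by positivity) (Real.exp_pos _).le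
    _ = _ := alg_exp ε L _ _ c0 b0

end NUCR

end
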