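import Mathlib

/-!
# The sum over the number of quanta (B7)
-/

set_option autoImplicit false

namespace NUCR

open Finset

/-- sum of a Gaussian over the integers on the right of its centre -/
lemma gauss_half {X : ℝ} (hX : 0 < X) (N : ℕ) :
    ∑ k ∈ range N, Real.exp (-((k : ℝ) ^ 2 / (2 * X))) ≤ 1 + 2 * X := by
  have hx0 : (0 : ℝ) < 1 / (2 * X) := by positivity
  obtain ⟨r, hr⟩ : ∃ r : ℝ, r = Real.exp (-(1 / (2 * X))) := ⟨_, rfl⟩
  have hr0 : 0 < r := by rw [hr]; exact Real.exp_pos _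
  have hr1 : r < 1 := by
    have h0 : Real.exp (-(1 / (2 * X))) < Real.exp 0 := Real.exp_lt_exp.2 (by linarith)
    rwa [Real.exp_zero, ← hr] at h0
  have h1 : ∀ k : ℕ, Real.exp (-((k : ℝ) ^ 2 / (2 * X))) ≤ r ^ k := by
    intro k
    rw [hr, ← Real.exp_nat_mul]
    apply Real.exp_le_exp.2
    have h2 : (k : ℝ) ≤ (k : ℝ) ^ 2 := by exact_mod_cast Nat.le_self_pow (by norm_num) k
    have h3 : (k : ℝ) / (2 * X) ≤ (k : ℝ) ^ 2 / (2 * X) := div_le_div_of_nonneg_right h2 (by positivity)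
    have h4 : (k : ℝ) * -(1 / (2 * X)) = -((k : ℝ) / (2 * X)) := by ring
    linarith
  have h5 : ∑ k ∈ range N, r ^ k ≤ (1 - r)⁻¹ := by
    rw [← tsum_geometric_of_lt_one hr0.le hr1]
    exact (summable_geometric_of_lt_one hr0.le hr1).sum_le_tsum _ fun _ _ => pow_nonneg hr0.le _
  have h6 : (1 - r)⁻¹ ≤ 1 + 2 * X := by
    have h7 : 1 + 1 / (2 * X) ≤ Real.exp (1 / (2 * X)) := by
      have := Real.add_one_le_exp (1 / (2 * X))
      linarith
    have h8 : r ≤ (1 + 1 / (2 * X))⁻¹ := by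
      rw [hr, Real.exp_neg]
      exact inv_anti₀ (by positivity) h7
    have h10 : (1 + 1 / (2 * X))⁻¹ = 1 - 1 / (1 + 2 * X) := by
      field_simp
      ring
    have h9 : 1 / (1 + 2 * X) ≤ 1 - r := by linarith
    have h11 : (0 : ℝ) < 1 / (1 + 2 * X) := by positivity
    calc (1 - r)⁻¹ ≤ (1 / (1 + 2 * X))⁻¹ := inv_anti₀ h11 h9
      _ = 1 + 2 * X := by rw [one_div, inv_inv]
  exact (sum_le_sum fun k _ => h1 k).trans (h5.trans h6)

lemma sum_le_inj {s : Finset ℕ} {f : ℕ → ℝ} {g : ℕ → ℝ} (hg : ∀ k, 0 ≤ g k) (φ : ℕ → ℕ) (N : ℕ)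
    (hφ : ∀ x ∈ s, ∀ y ∈ s, φ x = φ y → x = y) (hN : ∀ x ∈ s, φ x < N) (hf : ∀ x ∈ s, f x ≤ g (φ x)) :
    ∑ x ∈ s, f x ≤ ∑ k ∈ range N, g k := by
  refine (sum_le_sum hf).trans ?_
  rw [← sum_image (f := g) hφ]
  refine sum_le_sum_of_subset_of_nonneg ?_ fun k _ _ => hg k
  intro k hk
  obtain ⟨x, hx, rfl⟩ := mem_image.1 hk
  exact mem_range.2 (hN x hx)

/-- sum of a Gaussian over the natural numbers, any centre -/
lemma gauss_all {X : ℝ} (hX : 0 < X) (a : ℝ) (N : ℕ) :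
    ∑ n ∈ range N, Real.exp (-(((n : ℝ) - a) ^ 2 / (2 * X))) ≤ 2 * (1 + 2 * X) := by
  classical
  obtain ⟨c, hc⟩ : ∃ c : ℤ, c = ⌊a⌋ := ⟨_, rfl⟩
  have hc1 : (c : ℝ) ≤ a := by rw [hc]; exact Int.floor_le a
  have hc2 : a < c + 1 := by rw [hc]; exact Int.lt_floor_add_one a
  rw [← sum_filter_add_sum_filter_not (range N) (fun n : ℕ => (n : ℤ) ≤ c)]
  have key : ∀ (d e : ℝ), 0 ≤ d → d ≤ |e| → Real.exp (-(e ^ 2 / (2 * X))) ≤ Real.exp (-(d ^ 2 / (2 * X))) := by
    intro d e hd hde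
    apply Real.exp_le_exp.2
    have h1 : d ^ 2 ≤ e ^ 2 := by
      rw [← sq_abs e]
      exact pow_le_pow_left₀ hd hde 2
    have h2 : d ^ 2 / (2 * X) ≤ e ^ 2 / (2 * X) := div_le_div_of_nonneg_right h1 (by positivity)
    linarith
  have h1 : ∑ n ∈ (range N).filter (fun n : ℕ => (n : ℤ) ≤ c), Real.exp (-(((n : ℝ) - a) ^ 2 / (2 * X))) ≤
      1 + 2 * X := by
    refine le_trans (sum_le_inj (g := fun k : ℕ => Real.exp (-((k : ℝ) ^ 2 / (2 * X)))) (fun _ => (Real.exp_pos _).le)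
      (fun n => (c - n).toNat) (c.toNat + 1) ?_ ?_ ?_) (gauss_half hX (c.toNat + 1))
    · intro x hx y hy hxy
      rw [mem_filter] at hx hy
      have := hx.2
      have := hy.2
      omega
    · intro x hx
      rw [mem_filter] at hx
      have := hx.2
      omega
    · intro x hx
      rw [mem_filter] at hx
      have h3 := hx.2
      apply key _ _ (Nat.cast_nonneg _)
      have h4 : (((c - x).toNat : ℕ) : ℤ) = c - x := Int.toNat_of_nonneg (by omega)
      have h5 : (((c - x).toNat : ℕ) : ℝ) = (c : ℝ) - x := by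
        have : ((((c - x).toNat : ℕ) : ℤ) : ℝ) = (((c - x : ℤ)) : ℝ) := by rw [h4]
        push_cast at this
        exact_mod_cast this
      show (((c - x).toNat : ℕ) : ℝ) ≤ _
      rw [h5, abs_sub_comm]
      exact le_trans (by linarith) (le_abs_self _)
  have h2 : ∑ n ∈ (range N).filter (fun n : ℕ => ¬ (n : ℤ) ≤ c), Real.exp (-(((n : ℝ) - a) ^ 2 / (2 * X))) ≤
      1 + 2 * X := by
    refine le_trans (sum_le_inj (g := fun k : ℕ => Real.exp (-((k : ℝ) ^ 2 / (2 * X)))) (fun _ => (Real.exp_pos _).le)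
      (fun n => ((n : ℤ) - c - 1).toNat) ((N : ℤ) - c).toNat ?_ ?_ ?_) (gauss_half hX ((N : ℤ) - c).toNat)
    · intro x hx y hy hxy
      rw [mem_filter] at hx hy
      have := hx.2
      have := hy.2
      omega
    · intro x hx
      rw [mem_filter, mem_range] at hx
      have := hx.2
      have := hx.1
      omega
    · intro x hx
      rw [mem_filter] at hx
      have h3 := hx.2
      apply key _ _ (Nat.cast_nonneg _)
      have h4 : ((((x : ℤ) - c - 1).toNat : ℕ) : ℤ) = (x : ℤ) - c - 1 := Int.toNat_of_nonneg (by omega)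
      have h5 : ((((x : ℤ) - c - 1).toNat : ℕ) : ℝ) = (x : ℝ) - c - 1 := by
        have : (((((x : ℤ) - c - 1).toNat : ℕ) : ℤ) : ℝ) = ((((x : ℤ) - c - 1 : ℤ)) : ℝ) := by rw [h4]
        push_cast at this
        exact_mod_cast this
      show ((((x : ℤ) - c - 1).toNat : ℕ) : ℝ) ≤ _
      rw [h5]
      exact le_trans (by linarith) (le_abs_self _)
  linarith

/-- **The sum over the number of quanta**: mass term with the stiffness `X`, fugacity `exp (-β)`. -/
theorem gauss_sum {X : ℝ} (hX : 0 < X) (s β : ℝ) (N : ℕ) :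
    ∑ n ∈ range N, Real.exp (β * (s - n)) * Real.exp (-(((n : ℝ) - s) ^ 2 / (2 * X))) ≤
      2 * (1 + 2 * X) * Real.exp (β ^ 2 * X / 2) := by
  have h1 : ∀ n : ℕ, Real.exp (β * (s - n)) * Real.exp (-(((n : ℝ) - s) ^ 2 / (2 * X))) =
      Real.exp (-(((n : ℝ) - (s - β * X)) ^ 2 / (2 * X))) * Real.exp (β ^ 2 * X / 2) := by
    intro n
    rw [← Real.exp_add, ← Real.exp_add]
    congr 1
    field_simp
    ring
  rw [sum_congr rfl fun n _ => h1 n, ← sum_mul]
  exact mul_le_mul_of_nonneg_right (gauss_all hX _ N) (Real.exp_pos _).le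

end NUCR
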