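import Mathlib

/-!
NUCR, module C2 (B5/B6 of board/CR): the factors of the objects in a configuration against the price of the current.
The profile Jt~ with the apex at t0 enters through its lower bounds only. A flat object of the winding w at the height t
has the factor exp (-2 pi w F), F = Jt~ t + K chi~ t on the near side (left branch), F = Jt~ t - eta + K chi~ t on the far
side (right branch). For eta < 0 everything is used for the reflected configuration.
-/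

set_option autoImplicit false

namespace NUCR

open Finset

/-- the lower bounds of the smeared profile with the apex at t0 -/
structure ProfLB (J : ℝ → ℝ) (η p0 t0 C : ℝ) : Prop where
  lo : ∀ t, -C ≤ J t
  right : ∀ t, t0 ≤ t → η - C ≤ J t
  apex : η * (1 + p0) - C ≤ J t0

/-- the place of the apex: the smallest height in (tc, D] of the objects of the family, D if there is none -/
theorem exists_apex {ι : Type*} (s : Finset ι) (t : ι → ℝ) {tc D : ℝ} (h : tc ≤ D) :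
    ∃ t0, tc ≤ t0 ∧ t0 ≤ D ∧ (∀ i ∈ s, tc < t i → t0 ≤ t i) ∧ (t0 = D ∨ ∃ i ∈ s, tc < t i ∧ t i = t0) := by
  classical
  by_cases hne : (s.filter fun i => tc < t i ∧ t i ≤ D).Nonempty
  · obtain ⟨i, hi, hmin⟩ := Finset.exists_min_image _ t hne
    obtain ⟨h1, h2, h3⟩ := Finset.mem_filter.1 hi
    refine ⟨t i, h2.le, h3, fun k hk hk2 => ?_, Or.inr ⟨i, h1, h2, rfl⟩⟩
    by_cases h4 : t k ≤ D
    · exact hmin k (Finset.mem_filter.2 ⟨hk, hk2, h4⟩)
    · exact h3.trans (not_le.1 h4).le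
  · rw [Finset.not_nonempty_iff_eq_empty, Finset.filter_eq_empty_iff] at hne
    refine ⟨D, h, le_rfl, fun k hk hk2 => ?_, Or.inl rfl⟩
    have h4 := hne hk
    push Not at h4
    exact (h4 hk2).le

/-- one flat object on the near side -/
theorem flat_near {J : ℝ → ℝ} {η p0 t0 C : ℝ} (hJ : ProfLB J η p0 t0 C) {w t F G : ℝ} (hw : 0 ≤ w)
    (hF : J t + G ≤ F) : -(2 * Real.pi * w * F) ≤ 2 * Real.pi * w * C - 2 * Real.pi * w * G := by
  have h1 := hJ.lo t
  have h2 : 0 ≤ 2 * Real.pi * w := by positivity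
  nlinarith

/-- one flat object on the far side -/
theorem flat_far {J : ℝ → ℝ} {η p0 t0 C : ℝ} (hJ : ProfLB J η p0 t0 C) {w t F G : ℝ} (hw : 0 ≤ w) (ht : t0 ≤ t)
    (hF : J t - η + G ≤ F) : -(2 * Real.pi * w * F) ≤ 2 * Real.pi * w * C - 2 * Real.pi * w * G := by
  have h1 := hJ.right t ht
  have h2 : 0 ≤ 2 * Real.pi * w := by positivity
  nlinarith

/-- the flat object at the apex -/
theorem flat_apex {J : ℝ → ℝ} {η p0 t0 C : ℝ} (hJ : ProfLB J η p0 t0 C) {w F G : ℝ} (hw : 1 ≤ w) (hη : 0 ≤ η)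
    (hp : 0 ≤ p0) (hF : J t0 - η + G ≤ F) :
    -(2 * Real.pi * w * F) ≤ 2 * Real.pi * w * C - 2 * Real.pi * w * G - 2 * Real.pi * η * p0 := by
  have h1 := hJ.apex
  have h2 : 0 ≤ 2 * Real.pi * w := by positivity
  have h3 : 0 ≤ 2 * Real.pi * (η * p0) * (w - 1) := by
    have := Real.pi_pos
    have h4 : 0 ≤ w - 1 := by linarith
    positivity
  have h5 : 2 * Real.pi * w * (η * p0 + G - C) ≤ 2 * Real.pi * w * F :=
    mul_le_mul_of_nonneg_left (by linarith) h2
  nlinarith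

/-- all the flat objects of a configuration: G i is the part of the constant current, b i = 1 where it acts -/
theorem flat_sum_le {ι : Type*} (s : Finset ι) {J : ℝ → ℝ} {η p0 t0 C C2 K : ℝ} (hJ : ProfLB J η p0 t0 C)
    (hη : 0 ≤ η) (hp : 0 ≤ p0) {t w F G b : ι → ℝ} {far : ι → Prop} (hw : ∀ i ∈ s, 1 ≤ w i)
    (hnear : ∀ i ∈ s, ¬ far i → J (t i) + G i ≤ F i) (hfar : ∀ i ∈ s, far i → t0 ≤ t i ∧ J (t i) - η + G i ≤ F i)
    (hG : ∀ i ∈ s, K * b i - C2 ≤ G i) (h0 : p0 = 0 ∨ ∃ i ∈ s, far i ∧ t i = t0) :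
    ∑ i ∈ s, -(2 * Real.pi * w i * F i) ≤
      ∑ i ∈ s, (2 * Real.pi * w i * (C + C2) - 2 * Real.pi * w i * (K * b i)) - 2 * Real.pi * η * p0 := by
  classical
  have hpi := Real.pi_pos
  have key : ∀ i ∈ s, -(2 * Real.pi * w i * F i) ≤
      2 * Real.pi * w i * (C + C2) - 2 * Real.pi * w i * (K * b i) := by
    intro i hi
    have h1 : 0 ≤ w i := zero_le_one.trans (hw i hi)
    have h2 : 0 ≤ 2 * Real.pi * w i := by positivity
    have h3 := mul_le_mul_of_nonneg_left (hG i hi) h2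
    by_cases hf : far i
    · have h4 := flat_far hJ h1 (hfar i hi hf).1 (hfar i hi hf).2
      nlinarith
    · have h4 := flat_near hJ h1 (hnear i hi hf)
      nlinarith
  rcases h0 with h0 | ⟨k, hk, hkf, hkt⟩
  · rw [h0, mul_zero, sub_zero]
    exact Finset.sum_le_sum key
  · rw [← Finset.add_sum_erase s _ hk,
      ← Finset.add_sum_erase s (fun i => 2 * Real.pi * w i * (C + C2) - 2 * Real.pi * w i * (K * b i)) hk]
    have h1 := Finset.sum_le_sum (s := s.erase k) fun i hi => key i (Finset.mem_of_mem_erase hi)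
    have h2 := (hfar k hk hkf).2
    rw [hkt] at h2
    have h3 := flat_apex hJ (hw k hk) hη hp h2
    have h5 : 0 ≤ 2 * Real.pi * w k := by
      have := hw k hk
      positivity
    have h4 := mul_le_mul_of_nonneg_left (hG k hk) h5
    linarith

/-- the price of the apex is paid by one object -/
theorem price_le {η X p0 : ℝ} (hη : 0 ≤ η) (hX : 0 < X) (hp : 0 ≤ p0) (hp1 : p0 < 1)
    (h : η ≤ Real.pi * (1 - p0) * X) :
    η ^ 2 / (2 * X) * (1 + 4 * p0 / (1 - p0)) - 2 * Real.pi * η * p0 ≤ η ^ 2 / (2 * X) := by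
  have h1 : 0 < 1 - p0 := by linarith
  have e : η ^ 2 / (2 * X) * (1 + 4 * p0 / (1 - p0)) = η ^ 2 / (2 * X) + 2 * η * p0 * (η / ((1 - p0) * X)) := by
    field_simp
    ring
  have h2 : η / ((1 - p0) * X) ≤ Real.pi := by
    rw [div_le_iff₀ (by positivity)]
    nlinarith
  have h3 : 2 * η * p0 * (η / ((1 - p0) * X)) ≤ 2 * η * p0 * Real.pi :=
    mul_le_mul_of_nonneg_left h2 (by positivity)
  rw [e]
  nlinarith

/-- all flat objects and the price of the current: nothing is left of the apex -/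
theorem flat_total {ι : Type*} (s : Finset ι) {J : ℝ → ℝ} {η p0 t0 C C2 K X Q : ℝ} (hJ : ProfLB J η p0 t0 C)
    (hη : 0 ≤ η) (hX : 0 < X) (hp : 0 ≤ p0) (hp1 : p0 < 1) (h : η ≤ Real.pi * (1 - p0) * X)
    (hQ : Q ≤ η ^ 2 / (2 * X) * (1 + 4 * p0 / (1 - p0))) {t w F G b : ι → ℝ} {far : ι → Prop}
    (hw : ∀ i ∈ s, 1 ≤ w i)
    (hnear : ∀ i ∈ s, ¬ far i → J (t i) + G i ≤ F i) (hfar : ∀ i ∈ s, far i → t0 ≤ t i ∧ J (t i) - η + G i ≤ F i)
    (hG : ∀ i ∈ s, K * b i - C2 ≤ G i) (h0 : p0 = 0 ∨ ∃ i ∈ s, far i ∧ t i = t0) :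
    Q + ∑ i ∈ s, -(2 * Real.pi * w i * F i) ≤
      η ^ 2 / (2 * X) + ∑ i ∈ s, (2 * Real.pi * w i * (C + C2) - 2 * Real.pi * w i * (K * b i)) := by
  have h1 := flat_sum_le s hJ hη hp hw hnear hfar hG h0
  have h2 := price_le hη hX hp hp1 h
  linarith

/-- a suppressed object in the bulk: its weight beats the row factor -/
theorem nonflat_bulk {W L η c ρ A : ℝ} (hL : L ≤ A * |η|) (hW : c * ρ ≤ W) (h : 2 * (A * |η|) ≤ c * ρ) :
    L - W ≤ -(W / 2) := by
  linarith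

/-- an object beyond the bulk: the row factor is bounded -/
theorem nonflat_far {W L η A t D : ℝ} (hA : 0 ≤ A) (hL : L ≤ |η| * (A * Real.exp (-(2 * |t|))))
    (ht : D ≤ |t|) (h : |η| * A ≤ Real.exp (2 * D)) : L - W ≤ 1 - W := by
  have h1 : Real.exp (-(2 * |t|)) ≤ Real.exp (-(2 * D)) := Real.exp_le_exp.2 (by linarith)
  have h2 : |η| * (A * Real.exp (-(2 * |t|))) ≤ |η| * A * Real.exp (-(2 * D)) := by
    rw [← mul_assoc]
    exact mul_le_mul_of_nonneg_left h1 (by positivity)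
  have h3 : |η| * A * Real.exp (-(2 * D)) ≤ Real.exp (2 * D) * Real.exp (-(2 * D)) :=
    mul_le_mul_of_nonneg_right h (Real.exp_pos _).le
  rw [← Real.exp_add, show 2 * D + -(2 * D) = 0 by ring, Real.exp_zero] at h3
  linarith

/-- a configuration: flat objects (the finite set s) and the others (r): log factors Ls, weights W. The sum with the price
Q of the current is at most eta ^ 2 / (2 X) plus the object part of the case eta = 0 with the weights W / 2 and the constant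
current reduced by a constant -/
theorem conf_total {ι : Type*} (s r : Finset ι) {J : ℝ → ℝ} {η p0 t0 C C2 K X Q : ℝ} (hJ : ProfLB J η p0 t0 C)
    (hη : 0 ≤ η) (hX : 0 < X) (hp : 0 ≤ p0) (hp1 : p0 < 1) (h : η ≤ Real.pi * (1 - p0) * X)
    (hQ : Q ≤ η ^ 2 / (2 * X) * (1 + 4 * p0 / (1 - p0))) {t w F G b L W : ι → ℝ} {far : ι → Prop}
    (hw : ∀ i ∈ s, 1 ≤ w i)
    (hnear : ∀ i ∈ s, ¬ far i → J (t i) + G i ≤ F i) (hfar : ∀ i ∈ s, far i → t0 ≤ t i ∧ J (t i) - η + G i ≤ F i)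
    (hG : ∀ i ∈ s, K * b i - C2 ≤ G i) (h0 : p0 = 0 ∨ ∃ i ∈ s, far i ∧ t i = t0)
    (hs : ∀ i ∈ s, L i ≤ -(2 * Real.pi * w i * F i)) (hW : ∀ i ∈ r, 0 ≤ W i)
    (hr : ∀ i ∈ r, L i - W i ≤ -(W i / 2) ∨ L i - W i ≤ 1 - W i) :
    Q + ∑ i ∈ s, L i + ∑ i ∈ r, (L i - W i) ≤
      η ^ 2 / (2 * X) + ∑ i ∈ s, (2 * Real.pi * w i * (C + C2) - 2 * Real.pi * w i * (K * b i)) +
        ∑ i ∈ r, (1 - W i / 2) := by
  have h1 := flat_total s hJ hη hX hp hp1 h hQ hw hnear hfar hG h0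
  have h2 : ∑ i ∈ s, L i ≤ ∑ i ∈ s, -(2 * Real.pi * w i * F i) := Finset.sum_le_sum hs
  have h3 : ∑ i ∈ r, (L i - W i) ≤ ∑ i ∈ r, (1 - W i / 2) := by
    refine Finset.sum_le_sum fun i hi => ?_
    have := hW i hi
    rcases hr i hi with h4 | h4 <;> linarith
  linarith

end NUCR
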