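import Pool.Agent.NUCR.ZK
import Pool.Agent.NUO.OneAct

/-!
# One body factors and branch factors jointly (board/CR, helper78, part (4))

`OneRP`: the statement of the real part (`OneR`); `oneB_gen`: energy times the product of the one body factors is at most
`exp (- y² E₁ + y² / (2 X)) ∏ act`.
-/

set_option autoImplicit false

noncomputable section

open MeasureTheory Set Filter Topology

namespace NUCR

open NUO

/-- the statement of the real part -/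
def OneRP (κ : ℝ) (k0 : ℕ) : Prop := ∀ K0 K1 : ℝ, 0 ≤ K1 → ∃ C c : ℝ, 0 < C ∧ 0 < c ∧ ∀ m : ℕ, 3 ≤ m →
  ∀ P : Par, ParOK P m K1 → ∀ slk : ℝ → ℝ, (∀ t, slk t + κ * NUMF.P t ≤ 2 * NUMF.Ag (1 / 4) t) →
  ∀ ep : ℝ, 0 < ep → ep ≤ 1 / 100 → ∀ M : ℕ, m ≤ M → M ≤ 2 * m → ∀ σ : ℝ, (M : ℝ) / 2 ≤ σ → σ ≤ M + 1 →
  ∀ T' : ℝ, Tb (Real.log m) / (1 - ep) ≤ T' → ∀ (r : ℕ) (O : Fin r → Xo) (i : Fin r),
    ob1g (RNr σ) M (4 / 3 * (1 - ep)) P.jL (ei P O i) (rr P O i) (O i) *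
      Real.exp (σ * mfo (cons P O i) + σ * slkK slk (NUO.kd (O i)) (ht (O i)) + exc T' (ht (O i)) + K0) *
        colK (((r : ℝ) + 1) ^ k0) (NUO.kd (O i)) ≤
      zK C c (k0 + 6) (Real.log m) ep M r (NUO.kd (O i)) (ht (O i))

lemma ob1g_nn {R : ℂ → ℝ} (hR : ∀ u, 0 ≤ R u) (M : ℕ) (β jL e : ℝ) {ρ : ℝ} (hρ : 0 ≤ ρ) (x : Xo) :
    0 ≤ ob1g R M β jL e ρ x := by
  have ha := aS_pos
  have hpi := Real.pi_pos
  have hS : ∀ w, 0 ≤ oSg R M w := fun w => by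
    have h1 := hR w
    have h2 := hR (w - NUP1.l)
    unfold oSg
    positivity
  unfold ob1g
  generalize NUO.kd x = kk
  cases kk with
  | L =>
    have := hR (posL jL (ht x))
    simp only
    positivity
  | St =>
    have h1 := hR (posT (ht x))
    have h2 := hR (posT (ht x) - NUP1.l)
    simp only
    positivity
  | S => exact hS _
  | Sv =>
    have h1 := hR (posV e ρ (ht x) (an x))
    simp only
    exact mul_nonneg (hS _) (by positivity)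
  | Svv =>
    have h1 := hR (posS e (ht x) + 2 * NUP1.l)
    simp only
    exact mul_nonneg (hS _) (by positivity)

lemma RNr_nn (σ : ℝ) (u : ℂ) : 0 ≤ RNr σ u := by
  have := cos_l_pos
  unfold RNr
  positivity

lemma colK_nn {x : ℝ} (hx : 0 ≤ x) (k : Kind) : 0 ≤ colK x k := by
  unfold colK
  cases k <;> simp only <;> first | exact hx | exact zero_le_one

lemma offOK_of {δ : ℝ} {P : Par} (h : PG δ P) {r : ℕ} (O : Fin r → Xo) (i : Fin r) :
    OffOK P.jL (ei P O i) (rr P O i) := by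
  have hl := NUP1.l_pos
  have hδ := h.δ0
  obtain ⟨q1, q2⟩ := ei_mem (P := P) (O := O) (i := i) h.d0
  have h1 := h.e1
  have h2 := h.e2 r
  have h3 := h.r1 r (ht (O i))
  rw [l_eq] at h3
  have hδ4 := h.δ4
  refine ⟨by linarith [h.j1], by linarith [h.j2], by linarith, by linarith, h.r0 _ _, ?_⟩
  have h4 : rr P O i ≤ δ * NUP1.l := h3
  nlinarith

/-- **energy, branch factors and one body factors jointly** -/
theorem oneB_gen {κ : ℝ} {k0 : ℕ} (hR : OneRP κ k0) {δ : ℝ} (hδ : 0 < δ) (hδ1 : δ ≤ 1) (K0 K1 : ℝ) (hK1 : 0 ≤ K1) :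
    ∃ C c : ℝ, 0 < C ∧ 0 < c ∧ ∀ ep : ℝ, 0 < ep → ep ≤ 1 / 100 → ∀ e1 : ℝ, 0 < e1 → e1 ≤ 1 / 100 →
      ∀ K : ℝ, 0 ≤ K → ∃ CK : ℝ, 0 ≤ CK ∧ ∃ m0 : ℕ, ∀ m ≥ m0, ∀ M : ℕ, m ≤ M → M ≤ 2 * m →
      ∀ s : ℂ, InS m s → (M : ℝ) / 2 ≤ s.re → s.re ≤ M + 1 → ∀ P : Par, ParOK P m K1 → PG δ P →
      ∀ slk : ℝ → ℝ, (∀ t, slk t + κ * NUMF.P t ≤ 2 * NUMF.Ag (1 / 4) t) →
      ∀ T' : ℝ, Tb (Real.log m) / (1 - ep) ≤ T' → ∀ (r : ℕ) (O : Fin r → Xo),
      ∃ ts, Adm (DD e1 m) s.im ts ∧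
        Real.exp (En s.im (deriv (jB e1 K m s.im ts))) *
          ∏ i, (ob1g (RNB s (DD e1 m / 4)) M (4 / 3 * (1 - ep)) P.jL (ei P O i) (rr P O i) (O i) *
            Real.exp (s.re * mfo (cons P O i) + s.re * slkK slk (NUO.kd (O i)) (ht (O i)) -
              wOg (jB e1 K m s.im ts) P O i + exc T' (ht (O i)) + K0) *
            colK (((r : ℝ) + 1) ^ k0) (NUO.kd (O i))) ≤
        Real.exp (-(s.im ^ 2 * ∫ t, NUMF.P t * NUMF.v t) + s.im ^ 2 / (2 * (DD e1 m / kap0)) + CK) *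
          ∏ i, act C 1 c (1 / 10) (k0 + 6) (Real.log m) ep e1 K r (ht (O i)) := by
  obtain ⟨C0, c0', hC0, hc0, hreal⟩ := hR K0 K1 hK1
  obtain ⟨C1, A, M', hC1, hA, hM', hconf⟩ := confO hδ hδ1
  refine ⟨C0 * Real.exp (C1 + 1), c0' / 2, by positivity, by positivity, fun ep hep hep1 e1 he he1 K hK => ?_⟩
  obtain ⟨m1, hz⟩ := zK_act hC0.le hc0 hC1 hA ep hep e1 he he1 K hK
  obtain ⟨C00, hC00, hs⟩ := slow_ok he he1
  obtain ⟨m2, hm2⟩ := hs K M' hK hM'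
  obtain ⟨CK, hCK, hconf2⟩ := hconf K C00 hK hC00
  obtain ⟨m3, hm3⟩ := exists_log (160 / 3)
  refine ⟨CK, hCK, m1 + m2 + m3 + 3, fun m hm M hM1 hM2 s hsS hs1 hs2 P hP hPG slk hslk T' hT' r O => ?_⟩
  have hT20 : 20 ≤ TB m := by
    have := hm3 m (by omega)
    unfold TB
    linarith
  obtain ⟨lam, hX, b1, b2, b3, b4, b5, b6⟩ := hm2 m (by omega)
  have hrng : Rng (DD e1 m) s.im := rng_of_InS he1 hT20 hsS.2.1 hsS.2.2
  obtain ⟨ts, had, hbr⟩ := hconf2 (DD e1 m) _ lam s.im (XB e1 m) b6 b4 b5 hX b1 b2 b3 hrng P hPG r O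
  refine ⟨ts, had, ?_⟩
  have hyD := hrng.abs (by linarith)
  -- the real part
  obtain ⟨R, hRd⟩ : ∃ R : Fin r → ℝ, ∀ i, R i = ob1g (RNr s.re) M (4 / 3 * (1 - ep)) P.jL (ei P O i) (rr P O i) (O i) *
      Real.exp (s.re * mfo (cons P O i) + s.re * slkK slk (NUO.kd (O i)) (ht (O i)) + exc T' (ht (O i)) + K0) *
        colK (((r : ℝ) + 1) ^ k0) (NUO.kd (O i)) := ⟨_, fun _ => rfl⟩
  have hR0 : ∀ i, 0 ≤ R i := fun i => by
    have h2 := colK_nn (x := ((r : ℝ) + 1) ^ k0) (by positivity) (NUO.kd (O i))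
    have h3 : 0 ≤ ob1g (RNr s.re) M (4 / 3 * (1 - ep)) P.jL (ei P O i) (rr P O i) (O i) :=
      ob1g_nn (RNr_nn s.re) M (4 / 3 * (1 - ep)) P.jL (ei P O i) (hP.r0 r (ht (O i))).le (O i)
    rw [hRd]
    exact mul_nonneg (mul_nonneg h3 (Real.exp_pos _).le) h2
  have hterm : ∀ i, ob1g (RNB s (DD e1 m / 4)) M (4 / 3 * (1 - ep)) P.jL (ei P O i) (rr P O i) (O i) *
            Real.exp (s.re * mfo (cons P O i) + s.re * slkK slk (NUO.kd (O i)) (ht (O i)) -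
              wOg (jB e1 K m s.im ts) P O i + exc T' (ht (O i)) + K0) *
            colK (((r : ℝ) + 1) ^ k0) (NUO.kd (O i)) =
      R i * Real.exp (brO s.im (DD e1 m / 4) (jB e1 K m s.im ts) P O i) := fun i => by
    rw [ob1g_RNB (offOK_of hPG O i), hRd]
    have ee1 : Real.exp (brO s.im (DD e1 m / 4) (jB e1 K m s.im ts) P O i) =
        Real.exp (-(s.im * ar (DD e1 m / 4) P.jL (ei P O i) (rr P O i) (O i))) *
          Real.exp (-wOg (jB e1 K m s.im ts) P O i) := by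
      unfold brO
      rw [sub_eq_add_neg, Real.exp_add]
    have ee2 : Real.exp (s.re * mfo (cons P O i) + s.re * slkK slk (NUO.kd (O i)) (ht (O i)) -
        wOg (jB e1 K m s.im ts) P O i + exc T' (ht (O i)) + K0) =
        Real.exp (s.re * mfo (cons P O i) + s.re * slkK slk (NUO.kd (O i)) (ht (O i)) + exc T' (ht (O i)) + K0) *
          Real.exp (-wOg (jB e1 K m s.im ts) P O i) := by
      rw [← Real.exp_add]
      congr 1
      ring
    rw [ee1, ee2]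
    ring
  rw [Finset.prod_congr rfl fun i _ => hterm i, Finset.prod_mul_distrib, ← Real.exp_sum]
  have hPR : 0 ≤ ∏ i, R i := Finset.prod_nonneg fun i _ => hR0 i
  calc Real.exp (En s.im (deriv (jB e1 K m s.im ts))) * ((∏ i, R i) *
        Real.exp (∑ i, brO s.im (DD e1 m / 4) (jB e1 K m s.im ts) P O i)) =
      (∏ i, R i) * Real.exp (En s.im (deriv (jB e1 K m s.im ts)) +
        ∑ i, brO s.im (DD e1 m / 4) (jB e1 K m s.im ts) P O i) := by
        rw [Real.exp_add]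
        ring
    _ ≤ (∏ i, R i) * Real.exp ((-s.im ^ 2 * (∫ t, NUMF.P t * NUMF.v t) + s.im ^ 2 / (2 * (DD e1 m / kap0)) + CK) +
          ∑ i, gO C1 A s.im K (DD e1 m) (XB e1 m) (NUO.kd (O i)) (ht (O i))) :=
        mul_le_mul_of_nonneg_left (Real.exp_le_exp.2 hbr) hPR
    _ = Real.exp (-(s.im ^ 2 * ∫ t, NUMF.P t * NUMF.v t) + s.im ^ 2 / (2 * (DD e1 m / kap0)) + CK) *
          ∏ i, (R i * Real.exp (gO C1 A s.im K (DD e1 m) (XB e1 m) (NUO.kd (O i)) (ht (O i)))) := by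
        rw [Finset.prod_mul_distrib, ← Real.exp_sum, Real.exp_add, show
          -s.im ^ 2 * (∫ t, NUMF.P t * NUMF.v t) = -(s.im ^ 2 * ∫ t, NUMF.P t * NUMF.v t) by ring]
        ring
    _ ≤ _ := by
        refine mul_le_mul_of_nonneg_left (Finset.prod_le_prod (fun i _ => ?_) fun i _ => ?_) (Real.exp_pos _).le
        · exact mul_nonneg (hR0 i) (Real.exp_pos _).le
        · refine le_trans (mul_le_mul_of_nonneg_right ?_ (Real.exp_pos _).le)
            (hz m (by omega) s.im hyD M hM1 (k0 + 6) r (NUO.kd (O i)) (ht (O i)))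
          rw [hRd]
          exact hreal m (by omega) P hP slk hslk ep hep hep1 M hM1 hM2 s.re hs1 hs2 T' hT' r O i

end NUCR

end
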