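import Pool.Agent.NUCR.OneC
import Pool.Agent.NUCR.ConfX
import Pool.Agent.NUO.PotG

/-!
# Branch factors of the objects (board/CR, helper78, part (3))

The exponent of an object for the imaginary part `y` of the number of rows and the current `h`: `-(y ar) - (windings)`.
`brO_*`: in terms of the constituents; `confO`: the pointwise bound for a configuration of objects.
-/

set_option autoImplicit false

noncomputable section

open Complex MeasureTheory Set

namespace NUCR

open NUP1 NUO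

/-- windings of the quanta of the object `i` with the current `h` -/
def wOg (h : ℝ → ℝ) (P : Par) {r : ℕ} (O : Fin r → Xo) (i : Fin r) : ℝ :=
  ((offO P O i).map fun p => ∫ x, kapd p.1 x * h (p.2 - x)).sum

/-- one quantum -/
def wq (h : ℝ → ℝ) (j t : ℝ) : ℝ := ∫ x, kapd j x * h (t - x)

lemma off_vl (j t : ℝ) : off (vl ((1 - j) * l) t) = j := by
  have hl := l_pos
  unfold off
  rw [NUO.vl_re, l_eq, mul_div_assoc, div_self hl.ne', mul_one]
  ring

lemma offs_q (s : Bool) (j t : ℝ) : offs (s, false, vl ((1 - j) * l) t) = [(j, t)] := by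
  unfold offs
  simp only [off_vl, NUO.vl_im, Bool.false_eq_true, if_false]

lemma offs_s (s : Bool) (j t : ℝ) : offs (s, true, vl ((1 - j) * l) t) = [(j, t), (j + 1, t)] := by
  unfold offs
  simp only [off_vl, NUO.vl_im, if_true]

variable {P : Par} {r : ℕ} {O : Fin r → Xo} {i : Fin r}

lemma wOg_L (h : ℝ → ℝ) (hk : NUO.kd (O i) = .L) : wOg h P O i = wq h P.jL (ht (O i)) := by
  unfold wOg offO cons parts
  rw [hk]
  simp only [List.flatMap_cons, List.flatMap_nil, List.append_nil, posL_eq, offs_q, List.map_cons, List.map_nil,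
    List.sum_cons, List.sum_nil, add_zero]
  rfl

lemma wOg_St (h : ℝ → ℝ) (hk : NUO.kd (O i) = .St) :
    wOg h P O i = wq h (3 / 2) (ht (O i)) + wq h (3 / 2 + 1) (ht (O i)) := by
  unfold wOg offO cons parts
  rw [hk]
  simp only [List.flatMap_cons, List.flatMap_nil, List.append_nil, posT_eq, offs_s, List.map_cons, List.map_nil,
    List.sum_cons, List.sum_nil, add_zero]
  rfl

lemma wOg_S (h : ℝ → ℝ) (hk : NUO.kd (O i) = .S) :
    wOg h P O i = wq h (2 + ei P O i) (ht (O i)) + wq h (2 + ei P O i + 1) (ht (O i)) := by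
  unfold wOg offO cons parts
  rw [hk]
  simp only [List.flatMap_cons, List.flatMap_nil, List.append_nil, posS_eq, offs_s, List.map_cons, List.map_nil,
    List.sum_cons, List.sum_nil, add_zero]
  rfl

lemma wOg_Sv (h : ℝ → ℝ) (hk : NUO.kd (O i) = .Sv) :
    wOg h P O i = wq h (2 + ei P O i) (ht (O i)) + wq h (2 + ei P O i + 1) (ht (O i)) +
      wq h (jV (ei P O i) (rr P O i) (an (O i))) (tV (rr P O i) (ht (O i)) (an (O i))) := by
  unfold wOg offO cons parts
  rw [hk]
  simp only [List.flatMap_cons, List.flatMap_nil, List.append_nil, posV_eq', posS_eq, offs_s, offs_q, List.map_cons,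
    List.map_nil, List.sum_cons, List.sum_nil, add_zero, List.cons_append, List.nil_append]
  unfold wq
  ring

lemma wOg_Svv (h : ℝ → ℝ) (hk : NUO.kd (O i) = .Svv) :
    wOg h P O i = wq h (2 + ei P O i) (ht (O i)) + wq h (2 + ei P O i + 1) (ht (O i)) +
      2 * wq h (ei P O i) (ht (O i)) := by
  unfold wOg offO cons parts
  rw [hk]
  simp only [List.flatMap_cons, List.flatMap_nil, List.append_nil, posP_eq]
  simp only [posS_eq, offs_s, offs_q, List.map_cons,
    List.map_nil, List.sum_cons, List.sum_nil, add_zero, List.cons_append, List.nil_append]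
  unfold wq
  ring

/-! ### the arguments -/

lemma pt_vl (j t : ℝ) : pt j t = vl ((1 - j) * l) t := rfl

lemma lgu_left {j : ℝ} (h : 1 < j) (tc t : ℝ) : (lgu tc (vl ((1 - j) * l) t)).im = argb j tc t := by
  have hl := l_pos
  unfold lgu
  rw [if_neg, ← pt_vl, lgc_im]
  · rfl
  · rw [NUO.vl_re]
    nlinarith

lemma lgu_right {j : ℝ} (h : j < 1) (tc t : ℝ) : (lgu tc (vl ((1 - j) * l) t)).im = aA j t := by
  have hl := l_pos
  unfold lgu
  rw [if_pos, ← pt_vl, lgA_im]
  rw [NUO.vl_re]
  nlinarith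

/-- exponent of the branch factor -/
def brO (y tc : ℝ) (h : ℝ → ℝ) (P : Par) {r : ℕ} (O : Fin r → Xo) (i : Fin r) : ℝ :=
  -(y * ar tc P.jL (ei P O i) (rr P O i) (O i)) - wOg h P O i

/-- exponent of one constituent on the left of the rows -/
def bL (y tc : ℝ) (h : ℝ → ℝ) (j t : ℝ) : ℝ := -y * argb j tc t - wq h j t

/-- exponent of one constituent on the right of the rows -/
def bA (y : ℝ) (h : ℝ → ℝ) (j t : ℝ) : ℝ := -y * aA j t - wq h j t

lemma brO_L {y tc : ℝ} {h : ℝ → ℝ} (hj : 1 < P.jL) (hk : NUO.kd (O i) = .L) :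
    brO y tc h P O i = bL y tc h P.jL (ht (O i)) := by
  unfold brO ar bL
  rw [wOg_L h hk, hk]
  simp only
  rw [posL_eq, lgu_left hj]
  ring

lemma brO_St {y tc : ℝ} {h : ℝ → ℝ} (hk : NUO.kd (O i) = .St) :
    brO y tc h P O i = bL y tc h (3 / 2) (ht (O i)) + bL y tc h (3 / 2 + 1) (ht (O i)) := by
  unfold brO ar bL
  rw [wOg_St h hk, hk]
  simp only
  rw [posT_eq, vl_sub_l, lgu_left (by norm_num), lgu_left (by norm_num)]
  ring

lemma brO_S {y tc : ℝ} {h : ℝ → ℝ} (he : 0 < ei P O i) (hk : NUO.kd (O i) = .S) :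
    brO y tc h P O i = bL y tc h (2 + ei P O i) (ht (O i)) + bL y tc h (2 + ei P O i + 1) (ht (O i)) := by
  unfold brO ar bL
  rw [wOg_S h hk, hk]
  simp only
  rw [posS_eq, vl_sub_l, lgu_left (by linarith), lgu_left (by linarith)]
  ring

lemma brO_Sv {y tc : ℝ} {h : ℝ → ℝ} (he : 0 < ei P O i) (hj : jV (ei P O i) (rr P O i) (an (O i)) < 1)
    (hk : NUO.kd (O i) = .Sv) :
    brO y tc h P O i = bL y tc h (2 + ei P O i) (ht (O i)) + bL y tc h (2 + ei P O i + 1) (ht (O i)) +
      bA y h (jV (ei P O i) (rr P O i) (an (O i))) (tV (rr P O i) (ht (O i)) (an (O i))) := by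
  unfold brO ar bL bA
  rw [wOg_Sv h hk, hk]
  simp only
  rw [posV_eq', posS_eq, vl_sub_l, lgu_left (by linarith), lgu_left (by linarith), lgu_right hj]
  ring

lemma brO_Svv {y tc : ℝ} {h : ℝ → ℝ} (he : 0 < ei P O i) (he1 : ei P O i < 1) (hk : NUO.kd (O i) = .Svv) :
    brO y tc h P O i = -y * (argb (2 + ei P O i) tc (ht (O i)) + argb (3 + ei P O i) tc (ht (O i)) +
      2 * aA (ei P O i) (ht (O i))) - (wq h (2 + ei P O i) (ht (O i)) + wq h (3 + ei P O i) (ht (O i)) +
      2 * wq h (ei P O i) (ht (O i))) := by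
  unfold brO ar
  rw [wOg_Svv h hk, hk]
  simp only
  rw [posP_eq, posS_eq, vl_sub_l, lgu_left (by linarith), lgu_left (by linarith), lgu_right he1,
    show 2 + ei P O i + 1 = 3 + ei P O i by ring]
  ring

/-! ### the bounds of the constituents -/

theorem SD.mono {M M' : ℝ} {kap : ℝ → ℝ} (h : SD M kap) (hM : M ≤ M') : SD M' kap :=
  ⟨h.int, h.mass, h.int1, h.mom.trans hM⟩

/-- a flat object -/
def flO (P : Par) {r : ℕ} (O : Fin r → Xo) (i : Fin r) : Prop := NUO.kd (O i) = .L ∨ NUO.kd (O i) = .Svv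

/-- smearing density of a flat object -/
def kapF (P : Par) {r : ℕ} (O : Fin r → Xo) (i : Fin r) : ℝ → ℝ :=
  match NUO.kd (O i) with
  | .Svv => kn 2 (kS (ei P O i))
  | _ => kn 1 (kapd P.jL)

/-- bound of the exponent of the branch factor, by kinds -/
def gO (C A y K : ℝ) (D : ℝ) (X : ℝ → ℝ) : Kind → ℝ → ℝ
  | .L, t => C - 2 * Real.pi * (K * X t)
  | .Svv, t => C - 2 * Real.pi * (K * X t)
  | _, t => A * (|y| + K) * Real.exp (-bey D t)

lemma ei_mem (hP : ∀ r, 0 ≤ P.d r) : P.e ≤ ei P O i ∧ ei P O i ≤ P.e + P.d r := by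
  have h2 := hP r
  have hr : (rk O i : ℝ) / r ≤ 1 := by
    refine div_le_one_of_le₀ ?_ (Nat.cast_nonneg r)
    have : rk O i ≤ r := by
      unfold rk
      exact (Finset.card_le_univ _).trans (by rw [Fintype.card_fin])
    exact_mod_cast this
  have hr0 : 0 ≤ (rk O i : ℝ) / r := by positivity
  unfold ei
  constructor
  · nlinarith
  · nlinarith

variable {D D1 lam K y ts δ : ℝ} {X : ℝ → ℝ}

lemma bL_le (h0 : 0 < δ) {j : ℝ} (h1 : 1 + δ ≤ j) (h4 : j ≤ 4 - δ) (ho : Off δ j) (hD : 4 ≤ D)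
    (h : Adm D y ts) (hX : Slow D D1 lam X) (hK : 0 ≤ K) (t : ℝ) :
    bL y (D / 4) (jtX D y ts K X) j t ≤ Cc δ * (|y| + (3 * |y| + K) * I1) * Real.exp (-bey D t) :=
  (le_abs_self _).trans (crude_LX h0 h1 h4 ho hD h hX hK t)

lemma bA_le (h0 : 0 < δ) {j : ℝ} (h1 : -1 + δ ≤ j) (h4 : j ≤ 1 - δ) (ho : Off δ j) (hD : 4 ≤ D)
    (h : Adm D y ts) (hX : Slow D D1 lam X) (hK : 0 ≤ K) (t : ℝ) :
    bA y (jtX D y ts K X) j t ≤ Cc δ * (|y| + (3 * |y| + K) * I1) * Real.exp (-bey D t) :=
  (le_abs_self _).trans (crude_AX h0 h1 h4 ho hD h hX hK t)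

lemma jtX_cont {D D1 lam y ts K : ℝ} {X : ℝ → ℝ} (hX : Slow D D1 lam X) : Continuous (jtX D y ts K X) :=
  continuous_iff_continuousAt.2 fun t => (jtX_hasDerivAt hX t).continuousAt

lemma wq_int (h0 : 0 < δ) {j : ℝ} (ho : Off δ j) (hD : 4 ≤ D) (h : Adm D y ts) (hX : Slow D D1 lam X) (hK : 0 ≤ K)
    (t : ℝ) : Integrable fun x => kapd j x * jtX D y ts K X (t - x) := by
  refine (kapd_integral ho h0).1.mul_bdd (c := 3 * |y| + K) ?_ (Filter.Eventually.of_forall fun x => ?_)
  · exact ((jtX_cont hX).comp (continuous_const.sub continuous_id)).aestronglyMeasurable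
  · exact jtX_abs hD h hX hK _

lemma kS_int (h0 : 0 < δ) {e : ℝ} (o2 : Off δ (2 + e)) (o3 : Off δ (3 + e)) (oe : Off δ e) (hD : 4 ≤ D)
    (h : Adm D y ts) (hX : Slow D D1 lam X) (hK : 0 ≤ K) (t : ℝ) :
    ∫ x, kS e x * jtX D y ts K X (t - x) = wq (jtX D y ts K X) (2 + e) t + wq (jtX D y ts K X) (3 + e) t +
      2 * wq (jtX D y ts K X) e t := by
  have i2 := wq_int h0 o2 hD h hX hK t
  have i3 := wq_int h0 o3 hD h hX hK t
  have ie := wq_int h0 oe hD h hX hK t
  have e1 : (fun x => kS e x * jtX D y ts K X (t - x)) = fun x => (kapd (2 + e) x * jtX D y ts K X (t - x) +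
      kapd (3 + e) x * jtX D y ts K X (t - x)) + 2 * (kapd e x * jtX D y ts K X (t - x)) := by
    funext x
    unfold kS
    ring
  have i23 : Integrable fun x => kapd (2 + e) x * jtX D y ts K X (t - x) + kapd (3 + e) x * jtX D y ts K X (t - x) :=
    i2.add i3
  unfold wq
  rw [e1, integral_add i23 (ie.const_mul 2), integral_add i2 i3, integral_const_mul]

lemma off2 {e : ℝ} (n : ℤ) (h1 : n + δ ≤ e) (h2 : e ≤ n + 1 - δ) : Off δ e := NUO.off_of n h1 h2

/-- **the pointwise bound for a configuration of objects** -/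
theorem confO (hδ : 0 < δ) (hδ1 : δ ≤ 1) : ∃ C A M' : ℝ, 0 ≤ C ∧ 0 ≤ A ∧ 0 ≤ M' ∧ ∀ K C0 : ℝ, 0 ≤ K → 0 ≤ C0 →
    ∃ CK : ℝ, 0 ≤ CK ∧ ∀ (D D1 lam y : ℝ) (X : ℝ → ℝ), 4 ≤ D → 0 ≤ D1 → D1 ≤ D + 1 → Slow D D1 lam X →
      K * lam * M' ≤ 1 → K * lam ≤ 1 → lam * (D + 1 - D1) ≤ C0 → Rng D y →
    ∀ P : Par, PG δ P → ∀ (r : ℕ) (O : Fin r → Xo), ∃ ts, Adm D y ts ∧
      En y (deriv (jtX D y ts K X)) + ∑ i, brO y (D / 4) (jtX D y ts K X) P O i ≤
        (-y ^ 2 * (∫ t, NUMF.P t * NUMF.v t) + y ^ 2 / (2 * (D / kap0)) + CK) +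
          ∑ i, gO C A y K D X (NUO.kd (O i)) (ht (O i)) := by
  obtain ⟨cL, ML, hcL, hML, HL⟩ := conf_LX hδ
  obtain ⟨cS, MS, hcS, hMS, HS⟩ := conf_SX hδ
  obtain ⟨C, hC, H⟩ := conf_total3 (ML + MS) (cL + cS) (by positivity)
  have hCc := (Cc_parts hδ (by linarith)).1
  have hI := I1_nonneg
  have hE1 := Real.exp_pos (1 : ℝ)
  refine ⟨C, (2 + Real.exp 1) * (Cc δ * (1 + 3 * I1)), ML + MS, hC, by positivity, by positivity, fun K C0 hK hC0 => ?_⟩
  obtain ⟨CK, hCK, H2⟩ := H K C0 hK hC0
  refine ⟨CK, hCK, fun D D1 lam y X hD hD1 hD2 hX hl hl1 hl2 hr P hP r O => ?_⟩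
  have hpi := Real.pi_pos
  have hll := l_pos
  have hei : ∀ i, 2 * δ ≤ ei P O i ∧ ei P O i ≤ 1 - 2 * δ := fun i => by
    obtain ⟨q1, q2⟩ := ei_mem (P := P) (O := O) (i := i) hP.d0
    exact ⟨hP.e1.trans q1, q2.trans (hP.e2 r)⟩
  have oe : ∀ i, Off δ (ei P O i) := fun i => off2 0 (by push_cast; linarith [(hei i).1]) (by push_cast; linarith [(hei i).2])
  have o2 : ∀ i, Off δ (2 + ei P O i) := fun i =>
    off2 2 (by push_cast; linarith [(hei i).1]) (by push_cast; linarith [(hei i).2])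
  have o3 : ∀ i, Off δ (3 + ei P O i) := fun i =>
    off2 3 (by push_cast; linarith [(hei i).1]) (by push_cast; linarith [(hei i).2])
  have hj1 := hP.j1
  have hj2 := hP.j2
  have hδ4 := hP.δ4
  -- the amount
  obtain ⟨Q, hQ⟩ : ∃ Q : ℝ, Q = Cc δ * (|y| + (3 * |y| + K) * I1) := ⟨_, rfl⟩
  have hy := abs_nonneg y
  have hQ0 : 0 ≤ Q := by rw [hQ]; positivity
  have hQ1 : (2 + Real.exp 1) * Q ≤ (2 + Real.exp 1) * (Cc δ * (1 + 3 * I1)) * (|y| + K) := by
    have h1 : |y| + (3 * |y| + K) * I1 ≤ (1 + 3 * I1) * (|y| + K) := by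
      have : 0 ≤ I1 * K := by positivity
      nlinarith
    have h2 := mul_le_mul_of_nonneg_left h1 hCc
    rw [hQ, mul_assoc (2 + Real.exp 1) (Cc δ * (1 + 3 * I1)), mul_assoc (Cc δ) (1 + 3 * I1)]
    exact mul_le_mul_of_nonneg_left h2 (by positivity)
  obtain ⟨ts, had, hres⟩ := H2 D D1 lam y X hD hD1 hD2 hX hl hl1 hl2 hr (Fin r) Finset.univ (flO P O)
    (fun i => ht (O i)) (fun i => wK (NUO.kd (O i))) (kapF P O)
    (fun i => gO C ((2 + Real.exp 1) * (Cc δ * (1 + 3 * I1))) y K D X (NUO.kd (O i)) (ht (O i)))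
    (fun ts i => brO y (D / 4) (jtX D y ts K X) P O i)
    (fun i _ hf => by
      rcases hf with hf | hf
      · rw [hf]
        exact ⟨le_rfl, one_le_two⟩
      · rw [hf]
        exact ⟨one_le_two, le_rfl⟩)
    (fun i _ hf => by
      unfold kapF
      rcases hf with hf | hf
      · rw [hf]
        exact (HL P.jL hj1 hj2).1.mono (by linarith)
      · rw [hf]
        exact (HS (ei P O i) (by linarith [(hei i).1]) (by linarith [(hei i).2])).1.mono (by linarith))
    (fun ts had i _ hf hti => by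
      unfold kapF
      rcases hf with hf | hf
      · rw [brO_L (by linarith) hf, hf]
        obtain ⟨-, b1, -⟩ := (HL P.jL hj1 hj2).2 D D1 lam y ts K (ht (O i)) X hD hr had hX
        have := b1 hti
        rw [lgc_im] at this
        unfold bL argb wq wK
        simp only
        linarith
      · rw [brO_Svv (by linarith [(hei i).1]) (by linarith [(hei i).2]) hf, hf]
        obtain ⟨-, b1, -⟩ := (HS (ei P O i) (by linarith [(hei i).1]) (by linarith [(hei i).2])).2
          D D1 lam y ts K (ht (O i)) X hD hr had hX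
        have := b1 hti
        rw [lgc_im, lgc_im, lgA_im, kS_int hδ (o2 i) (o3 i) (oe i) hD had hX hK] at this
        unfold argb wK
        simp only
        linarith)
    (fun ts had i _ hf hti => by
      unfold kapF
      rcases hf with hf | hf
      · rw [brO_L (by linarith) hf, hf]
        obtain ⟨-, -, b1⟩ := (HL P.jL hj1 hj2).2 D D1 lam y ts K (ht (O i)) X hD hr had hX
        have := b1 hti
        rw [lgc_im] at this
        unfold bL argb wq wK
        simp only
        linarith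
      · rw [brO_Svv (by linarith [(hei i).1]) (by linarith [(hei i).2]) hf, hf]
        obtain ⟨-, -, b1⟩ := (HS (ei P O i) (by linarith [(hei i).1]) (by linarith [(hei i).2])).2
          D D1 lam y ts K (ht (O i)) X hD hr had hX
        have := b1 hti
        rw [lgc_im, lgc_im, lgA_im, kS_int hδ (o2 i) (o3 i) (oe i) hD had hX hK] at this
        unfold argb wK
        simp only
        linarith)
    (fun ts had i _ hf => by
      have hE := Real.exp_pos (-bey D (ht (O i)))
      have hfin : ∀ x : ℝ, x ≤ (2 + Real.exp 1) * Q * Real.exp (-bey D (ht (O i))) →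
          x ≤ (2 + Real.exp 1) * (Cc δ * (1 + 3 * I1)) * (|y| + K) * Real.exp (-bey D (ht (O i))) :=
        fun x hx => hx.trans (mul_le_mul_of_nonneg_right hQ1 hE.le)
      have hQE : 0 ≤ Q * Real.exp (-bey D (ht (O i))) := by positivity
      have lefts : ∀ j : ℝ, 1 + δ ≤ j → j ≤ 4 - δ → Off δ j →
          bL y (D / 4) (jtX D y ts K X) j (ht (O i)) ≤ Q * Real.exp (-bey D (ht (O i))) := fun j q1 q2 q3 => by
        rw [hQ]
        exact bL_le hδ q1 q2 q3 hD had hX hK _
      have s2 := lefts (2 + ei P O i) (by linarith [(hei i).1]) (by linarith [(hei i).2]) (o2 i)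
      have s3 := lefts (2 + ei P O i + 1) (by linarith [(hei i).1]) (by linarith [(hei i).2])
        (by rw [show 2 + ei P O i + 1 = 3 + ei P O i by ring]; exact o3 i)
      have hx1 : 0 ≤ Real.exp 1 * (Q * Real.exp (-bey D (ht (O i)))) := by positivity
      rcases hk : NUO.kd (O i) with _ | _ | _ | _ | _
      · exact absurd (Or.inl hk) hf
      · rw [brO_St hk]
        unfold gO
        refine hfin _ ?_
        have a1 := lefts (3 / 2) (by linarith) (by linarith) (off2 1 (by push_cast; linarith) (by push_cast; linarith))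
        have a2 := lefts (3 / 2 + 1) (by linarith) (by linarith)
          (off2 2 (by push_cast; linarith) (by push_cast; linarith))
        linarith
      · rw [brO_S (by linarith [(hei i).1]) hk]
        unfold gO
        refine hfin _ ?_
        linarith
      · have hr0 := hP.r0 r (ht (O i))
        have hr1 := hP.r1 r (ht (O i))
        rw [l_eq] at hr1
        have hr2 : rr P O i ≤ δ * l := hr1
        have hr0' : 0 ≤ rr P O i := hr0
        have hjc : |jV (ei P O i) (rr P O i) (an (O i)) - ei P O i| ≤ δ := by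
          unfold jV
          rw [sub_sub_cancel_left, abs_neg, abs_div, abs_of_pos hll, div_le_iff₀ hll, abs_mul, abs_of_nonneg hr0']
          exact (mul_le_of_le_one_right hr0' (Real.abs_cos_le_one _)).trans hr2
        obtain ⟨c1, c2⟩ := abs_le.1 hjc
        have htV : |ht (O i) - tV (rr P O i) (ht (O i)) (an (O i))| ≤ 1 := by
          unfold tV
          rw [sub_add_cancel_left, abs_neg, abs_mul, abs_of_nonneg hr0']
          have q1 := mul_le_of_le_one_right hr0' (Real.abs_sin_le_one (2 * Real.pi * an (O i)))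
          have q2 : l ≤ 1 := by
            have := Real.pi_lt_d2
            unfold l
            linarith
          have q3 : δ * l ≤ 1 * 1 := mul_le_mul hδ1 q2 hll.le zero_le_one
          linarith
        rw [brO_Sv (by linarith [(hei i).1]) (by linarith [(hei i).2]) hk]
        unfold gO
        refine hfin _ ?_
        have a3 : bA y (jtX D y ts K X) (jV (ei P O i) (rr P O i) (an (O i)))
            (tV (rr P O i) (ht (O i)) (an (O i))) ≤ Q * Real.exp (-bey D (tV (rr P O i) (ht (O i)) (an (O i)))) := by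
          rw [hQ]
          exact bA_le hδ (by linarith [(hei i).1]) (by linarith [(hei i).2])
            (off2 0 (by push_cast; linarith [(hei i).1]) (by push_cast; linarith [(hei i).2])) hD had hX hK _
        have a4 := mul_le_mul_of_nonneg_left (exp_bey_shift (D := D) htV) hQ0
        linarith
      · exact absurd (Or.inr hk) hf)
    (fun i => gO C ((2 + Real.exp 1) * (Cc δ * (1 + 3 * I1))) y K D X (NUO.kd (O i)) (ht (O i)))
    (fun i _ hf => by
      have hX0 : 0 ≤ 2 * Real.pi * (K * X (ht (O i))) := by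
        have := hX.nn (ht (O i))
        positivity
      rcases hf with hf | hf
      · rw [hf]
        unfold gO wK
        simp only
        linarith
      · rw [hf]
        unfold gO wK
        simp only
        linarith)
    (fun i _ hf => le_rfl)
  refine ⟨ts, had, ?_⟩
  rw [jtX_deriv hX]
  exact hres

end NUCR

end
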