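import Pool.Agent.NUP.MF.StrPsi

/-!
# The plateau identity for arguments, part A: derivatives in the offset (module B3 of board/CR, helper78)

`kd x y` is the derivative of `h x y` in `y`, `rowd j t`, `kapd j x` are the derivatives in the offset `j` (over `l`) of the
logarithms of the moduli of the row pair factor and of the two pair functions.  Since `NUMF.mf` vanishes for the flat objects,
`rowd + P * kapd = 0` for them.
-/

set_option autoImplicit false

open MeasureTheory Set Filter Topology

namespace NUCR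

open NUMF

noncomputable section

/-- derivative of `h` in the second variable -/
def kd (x y : ℝ) : ℝ := -2 * Real.sin (2 * y) / (Real.cosh (2 * x) + Real.cos (2 * y))

lemma kd_den {x y δ : ℝ} (hδ : 0 < δ) (hδ2 : δ ≤ 2) (h : -1 + δ ≤ Real.cos (2 * y)) :
    δ / 4 * Real.exp (2 * |x|) ≤ Real.cosh (2 * x) + Real.cos (2 * y) := by
  have h1 : Real.exp (2 * |x|) ≤ 2 * Real.cosh (2 * x) := by
    rw [← Real.cosh_abs (2 * x), abs_mul, abs_two, Real.cosh_eq]
    have := Real.exp_pos (-(2 * |x|))
    linarith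
  have h2 := Real.one_le_cosh (2 * x)
  nlinarith

lemma kd_bound {x y δ : ℝ} (hδ : 0 < δ) (hδ2 : δ ≤ 2) (h : -1 + δ ≤ Real.cos (2 * y)) :
    |kd x y| ≤ 8 / δ * Real.exp (-2 * |x|) := by
  have h1 := kd_den (x := x) hδ hδ2 h
  have h2 : 0 < δ / 4 * Real.exp (2 * |x|) := by positivity
  have h3 := Real.abs_sin_le_one (2 * y)
  unfold kd
  rw [abs_div, abs_mul, abs_neg, abs_two, abs_of_pos (h2.trans_le h1), div_le_iff₀ (h2.trans_le h1)]
  have h4 : 8 / δ * Real.exp (-2 * |x|) * (δ / 4 * Real.exp (2 * |x|)) = 2 := by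
    have e : Real.exp (-2 * |x|) * Real.exp (2 * |x|) = 1 := by
      rw [← Real.exp_add]
      simp
    calc 8 / δ * Real.exp (-2 * |x|) * (δ / 4 * Real.exp (2 * |x|)) =
        8 / δ * (δ / 4) * (Real.exp (-2 * |x|) * Real.exp (2 * |x|)) := by ring
      _ = 2 := by
        rw [e]
        field_simp
        norm_num
  have h5 : 8 / δ * Real.exp (-2 * |x|) * (δ / 4 * Real.exp (2 * |x|)) ≤
      8 / δ * Real.exp (-2 * |x|) * (Real.cosh (2 * x) + Real.cos (2 * y)) :=
    mul_le_mul_of_nonneg_left h1 (by positivity)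
  linarith

lemma kd_cont {y : ℝ} (hy : -1 < Real.cos (2 * y)) : Continuous fun x => kd x y := by
  unfold kd
  refine continuous_const.div (by fun_prop) fun x => ?_
  have := Real.one_le_cosh (2 * x)
  linarith

lemma kd_meas (y : ℝ) : Measurable fun x => kd x y := by
  unfold kd
  fun_prop

lemma hasDerivAt_h {x y : ℝ} (hy : 0 < Real.cosh (2 * x) + Real.cos (2 * y)) :
    HasDerivAt (fun y => h x y) (kd x y) y := by
  have h0 : HasDerivAt (fun y : ℝ => 2 * y) 2 y := by
    simpa using (hasDerivAt_id y).const_mul 2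
  have h1 : HasDerivAt (fun y => Real.cosh (2 * x) + Real.cos (2 * y)) (-Real.sin (2 * y) * 2) y :=
    (h0.cos).const_add _
  have h2 := h1.log hy.ne'
  have e : kd x y = -Real.sin (2 * y) * 2 / (Real.cosh (2 * x) + Real.cos (2 * y)) := by
    unfold kd
    ring
  rw [e]
  exact h2

/-- the average of `kd` -/
def Kd (x y : ℝ) : ℝ := ∫ s, P s * kd (x - s) y

lemma Pkd_integrable (x : ℝ) {y : ℝ} (hy : -1 < Real.cos (2 * y)) : Integrable fun s => P s * kd (x - s) y := by
  have hδ : 0 < 1 + Real.cos (2 * y) := by linarith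
  have hc := Real.cos_le_one (2 * y)
  refine P_integrable.mul_bdd (c := 8 / (1 + Real.cos (2 * y))) ?_ (Eventually.of_forall fun s => ?_)
  · exact ((kd_meas y).comp (measurable_const.sub measurable_id)).aestronglyMeasurable
  · rw [Real.norm_eq_abs]
    refine (kd_bound hδ (by linarith) (by linarith)).trans ?_
    have : Real.exp (-2 * |x - s|) ≤ 1 := by
      rw [Real.exp_le_one_iff]
      have := abs_nonneg (x - s)
      linarith
    have h8 : 0 < 8 / (1 + Real.cos (2 * y)) := by positivity
    nlinarith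

lemma hasDerivAt_H (x : ℝ) {y : ℝ} (hy : -1 < Real.cos (2 * y)) : HasDerivAt (fun y => H x y) (Kd x y) y := by
  have hc := Real.cos_le_one (2 * y)
  obtain ⟨δ, hδ⟩ : ∃ δ, δ = (1 + Real.cos (2 * y)) / 2 := ⟨_, rfl⟩
  have hδ0 : 0 < δ := by linarith
  have hopen : {y' : ℝ | -1 + δ < Real.cos (2 * y')} ∈ 𝓝 y := by
    refine IsOpen.mem_nhds ?_ ?_
    · exact isOpen_lt continuous_const (by fun_prop)
    · show -1 + δ < Real.cos (2 * y)
      linarith
  have hm : ∀ y', AEStronglyMeasurable (fun s => P s * h (x - s) y') volume := fun y' =>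
    (Ph_integrable x y').aestronglyMeasurable
  have key := hasDerivAt_integral_of_dominated_loc_of_deriv_le (μ := volume) (F := fun y s => P s * h (x - s) y)
    (F' := fun y s => P s * kd (x - s) y) (x₀ := y) (bound := fun s => P s * (8 / δ)) hopen
    (Eventually.of_forall hm) (Ph_integrable x y)
    (P_cont.measurable.mul ((kd_meas y).comp (measurable_const.sub measurable_id))).aestronglyMeasurable
    (Eventually.of_forall fun s y' hy' => ?_) (P_integrable.mul_const _)
    (Eventually.of_forall fun s y' hy' => ?_)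
  · exact key.2
  · have hy'' : -1 + δ < Real.cos (2 * y') := hy'
    have hP := P_pos s
    rw [norm_mul, Real.norm_eq_abs, Real.norm_eq_abs, abs_of_pos hP]
    refine mul_le_mul_of_nonneg_left ?_ hP.le
    refine (kd_bound (x := x - s) hδ0 (by linarith) hy''.le).trans ?_
    have : Real.exp (-2 * |x - s|) ≤ 1 := by
      rw [Real.exp_le_one_iff]
      have := abs_nonneg (x - s)
      linarith
    have h8 : 0 < 8 / δ := by positivity
    nlinarith
  · have hy'' : -1 + δ < Real.cos (2 * y') := hy'
    have h1 := Real.one_le_cosh (2 * (x - s))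
    exact (hasDerivAt_h (x := x - s) (by linarith)).const_mul (P s)

/-- the row pair, derivative in the offset over `l` -/
def rowd (j t : ℝ) : ℝ := kd t (j * l) + (kd t ((3 - j) * l) + kd t ((5 - j) * l)) / 2

/-- the two pair functions, derivative in the offset over `l` -/
def kapd (j x : ℝ) : ℝ := -kd x ((4 - j) * l) - kd x ((2 - j) * l) / 2 + kd x ((2 + j) * l) / 2 +
  (kd x ((3 - j) * l) + kd x ((5 - j) * l)) / 2 + kd x (j * l) - kd x ((j + 1) * l) - kd x ((j - 1) * l)

lemma cos_gt {a : ℝ} (h1 : -4 < a) (h2 : a < 8) (h4 : a ≠ 4) : -1 < Real.cos (2 * (a * l)) := by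
  have hl := l_pos
  have e8 : 8 * l = Real.pi := by unfold l; ring
  have key : ∀ b : ℝ, |b| < 4 → -1 < Real.cos (2 * (b * l)) := by
    intro b hb
    rw [← Real.cos_abs, ← Real.cos_pi]
    have h5 : |2 * (b * l)| < Real.pi := by
      rw [abs_mul, abs_two, abs_mul, abs_of_pos hl]
      nlinarith
    exact Real.cos_lt_cos_of_nonneg_of_le_pi (abs_nonneg _) le_rfl h5
  rcases lt_or_gt_of_ne h4 with h | h
  · exact key a (abs_lt.2 ⟨h1, h⟩)
  · have h5 := key (8 - a) (by rw [abs_lt]; constructor <;> linarith)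
    rw [show 2 * ((8 - a) * l) = 2 * Real.pi - 2 * (a * l) by rw [← e8]; ring, Real.cos_two_pi_sub] at h5
    exact h5

lemma hasDerivAt_hj (t : ℝ) {f : ℝ → ℝ} {c j : ℝ} (hf : HasDerivAt f c j) (hc : -1 < Real.cos (2 * (f j * l))) :
    HasDerivAt (fun j => h t (f j * l)) (l * (c * kd t (f j * l))) j := by
  have h1 := Real.one_le_cosh (2 * t)
  have h2 := (hasDerivAt_h (x := t) (y := f j * l) (by linarith)).comp j (hf.mul_const l)
  refine h2.congr_deriv ?_
  ring

lemma hasDerivAt_Hj (t : ℝ) {f : ℝ → ℝ} {c j : ℝ} (hf : HasDerivAt f c j) (hc : -1 < Real.cos (2 * (f j * l))) :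
    HasDerivAt (fun j => H t (f j * l)) (l * (c * Kd t (f j * l))) j := by
  have h2 := (hasDerivAt_H t hc).comp j (hf.mul_const l)
  refine h2.congr_deriv ?_
  ring

/-- the points where nothing is singular -/
def Ns (j : ℝ) : Prop := 0 < j ∧ j < 4 ∧ j ≠ 1 ∧ j ≠ 2 ∧ j ≠ 3

lemma Pkapd (t : ℝ) {j : ℝ} (hj : Ns j) : Integrable (fun s => P s * kapd j (t - s)) ∧
    ∫ s, P s * kapd j (t - s) = -Kd t ((4 - j) * l) - Kd t ((2 - j) * l) / 2 + Kd t ((2 + j) * l) / 2 +
      (Kd t ((3 - j) * l) + Kd t ((5 - j) * l)) / 2 + Kd t (j * l) - Kd t ((j + 1) * l) - Kd t ((j - 1) * l) := by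
  obtain ⟨j0, j4, j1, j2, j3⟩ := hj
  have i1 := Pkd_integrable t (cos_gt (a := 4 - j) (by linarith) (by linarith) (by intro e; linarith))
  have i2 := Pkd_integrable t (cos_gt (a := 2 - j) (by linarith) (by linarith) (by intro e; linarith))
  have i3 := Pkd_integrable t (cos_gt (a := 2 + j) (by linarith) (by linarith) (by intro e; exact j2 (by linarith)))
  have i4 := Pkd_integrable t (cos_gt (a := 3 - j) (by linarith) (by linarith) (by intro e; linarith))
  have i5 := Pkd_integrable t (cos_gt (a := 5 - j) (by linarith) (by linarith) (by intro e; exact j1 (by linarith)))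
  have i6 := Pkd_integrable t (cos_gt (a := j) (by linarith) (by linarith) (by intro e; linarith))
  have i7 := Pkd_integrable t (cos_gt (a := j + 1) (by linarith) (by linarith) (by intro e; exact j3 (by linarith)))
  have i8 := Pkd_integrable t (cos_gt (a := j - 1) (by linarith) (by linarith) (by intro e; linarith))
  have hae : ∀ s, P s * kapd j (t - s) = -(P s * kd (t - s) ((4 - j) * l)) - (1 / 2) * (P s * kd (t - s) ((2 - j) * l)) +
      (1 / 2) * (P s * kd (t - s) ((2 + j) * l)) + (1 / 2) * (P s * kd (t - s) ((3 - j) * l)) +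
      (1 / 2) * (P s * kd (t - s) ((5 - j) * l)) + P s * kd (t - s) (j * l) - P s * kd (t - s) ((j + 1) * l) -
      P s * kd (t - s) ((j - 1) * l) := by
    intro s
    unfold kapd
    ring
  have k1 := i1.neg.sub (i2.const_mul (1 / 2))
  have k2 := k1.add (i3.const_mul (1 / 2))
  have k3 := k2.add (i4.const_mul (1 / 2))
  have k4 := k3.add (i5.const_mul (1 / 2))
  have k5 := k4.add i6
  have k6 := k5.sub i7
  refine ⟨(k6.sub i8).congr (Eventually.of_forall fun s => (hae s).symm), ?_⟩
  have b0 := integral_neg (f := fun s => P s * kd (t - s) ((4 - j) * l)) (μ := volume)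
  have b1 := integral_sub i1.neg (i2.const_mul (1 / 2))
  have b2 := integral_add k1 (i3.const_mul (1 / 2))
  have b3 := integral_add k2 (i4.const_mul (1 / 2))
  have b4 := integral_add k3 (i5.const_mul (1 / 2))
  have b5 := integral_add k4 i6
  have b6 := integral_sub k5 i7
  have b7 := integral_sub k6 i8
  simp only [Pi.add_apply, Pi.sub_apply, Pi.neg_apply] at b1 b2 b3 b4 b5 b6 b7
  simp_rw [hae]
  rw [b7, b6, b5, b4, b3, b2, b1, b0, integral_const_mul, integral_const_mul, integral_const_mul,
    integral_const_mul]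
  unfold Kd
  ring

/-- the derivative of the mean field weight in the offset -/
theorem hasDerivAt_mf (t : ℝ) {j : ℝ} (hj : Ns j) :
    HasDerivAt (fun j => mf j t) (l * (rowd j t + ∫ s, P s * kapd j (t - s))) j := by
  rw [(Pkapd t hj).2]
  obtain ⟨j0, j4, j1, j2, j3⟩ := hj
  have d0 : HasDerivAt (fun j : ℝ => j) 1 j := hasDerivAt_id j
  have dm : ∀ a : ℝ, HasDerivAt (fun j : ℝ => a - j) (-1) j := fun a => d0.const_sub a
  have dp : ∀ a : ℝ, HasDerivAt (fun j : ℝ => a + j) 1 j := fun a => d0.const_add a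
  have dq : ∀ a : ℝ, HasDerivAt (fun j : ℝ => j + a) 1 j := fun a => d0.add_const a
  have dr : ∀ a : ℝ, HasDerivAt (fun j : ℝ => j - a) 1 j := fun a => d0.sub_const a
  have c4 := cos_gt (a := 4 - j) (by linarith) (by linarith) (by intro e; linarith)
  have c2 := cos_gt (a := 2 - j) (by linarith) (by linarith) (by intro e; linarith)
  have c2' := cos_gt (a := 2 + j) (by linarith) (by linarith) (by intro e; exact j2 (by linarith))
  have c3 := cos_gt (a := 3 - j) (by linarith) (by linarith) (by intro e; linarith)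
  have c5 := cos_gt (a := 5 - j) (by linarith) (by linarith) (by intro e; exact j1 (by linarith))
  have c0 := cos_gt (a := j) (by linarith) (by linarith) (by intro e; linarith)
  have c1 := cos_gt (a := j + 1) (by linarith) (by linarith) (by intro e; exact j3 (by linarith))
  have c1' := cos_gt (a := j - 1) (by linarith) (by linarith) (by intro e; linarith)
  have r1 := hasDerivAt_hj t d0 c0
  have r2 := hasDerivAt_hj t (dm 3) c3
  have r3 := hasDerivAt_hj t (dm 5) c5
  have s1 := hasDerivAt_Hj t (dm 4) c4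
  have s2 := hasDerivAt_Hj t (dm 2) c2
  have s3 := hasDerivAt_Hj t (dp 2) c2'
  have s4 := hasDerivAt_Hj t (dm 3) c3
  have s5 := hasDerivAt_Hj t (dm 5) c5
  have s6 := hasDerivAt_Hj t d0 c0
  have s7 := hasDerivAt_Hj t (dq 1) c1
  have s8 := hasDerivAt_Hj t (dr 1) c1'
  have key := ((((((r1.sub ((r2.add r3).div_const 2)).add s1).add ((s2.add s3).div_const 2)).sub
    ((s4.add s5).div_const 2)).add s6).sub (s7.add s8))
  have e : (fun j => mf j t) = fun j => h t (j * l) - (h t ((3 - j) * l) + h t ((5 - j) * l)) / 2 +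
    H t ((4 - j) * l) + (H t ((2 - j) * l) + H t ((2 + j) * l)) / 2 -
      (H t ((3 - j) * l) + H t ((5 - j) * l)) / 2 + H t (j * l) - (H t ((j + 1) * l) + H t ((j - 1) * l)) :=
    funext fun j => mf_eq j t
  rw [e]
  refine key.congr_deriv ?_
  unfold rowd
  ring

/-- **the plateau identity for arguments, single at offset 2 < j < 3, differentiated** -/
theorem plat_L (t : ℝ) {j : ℝ} (h2 : 2 < j) (h3 : j < 3) : rowd j t + ∫ s, P s * kapd j (t - s) = 0 := by
  have hj : Ns j := ⟨by linarith, by linarith, by linarith, by linarith, by linarith⟩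
  have h1 := hasDerivAt_mf t hj
  have h0 : HasDerivAt (fun j => mf j t) 0 j := by
    refine (hasDerivAt_const j (0:ℝ)).congr_of_eventuallyEq ?_
    filter_upwards [Ioo_mem_nhds h2 h3] with j' hj'
    exact mf_neutral hj'.1.le hj'.2.le t
  have h4 := h1.unique h0
  exact (mul_eq_zero.1 h4).resolve_left l_pos.ne'

/-- **the same for the string at (2 + e, 3 + e) with two satellites at e** -/
theorem plat_F (t : ℝ) {e : ℝ} (h0 : 0 < e) (h1 : e < 1) :
    (rowd (2 + e) t + rowd (3 + e) t + 2 * rowd e t) +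
      ((∫ s, P s * kapd (2 + e) (t - s)) + (∫ s, P s * kapd (3 + e) (t - s)) + 2 * ∫ s, P s * kapd e (t - s)) = 0 := by
  have n2 : Ns (2 + e) := ⟨by linarith, by linarith, by linarith, by linarith, by linarith⟩
  have n3 : Ns (3 + e) := ⟨by linarith, by linarith, by linarith, by linarith, by linarith⟩
  have n0 : Ns e := ⟨by linarith, by linarith, by linarith, by linarith, by linarith⟩
  have d2 : HasDerivAt (fun e => mf (2 + e) t) (l * (rowd (2 + e) t + ∫ s, P s * kapd (2 + e) (t - s))) e :=
    (hasDerivAt_mf t n2).comp_const_add 2 e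
  have d3 : HasDerivAt (fun e => mf (3 + e) t) (l * (rowd (3 + e) t + ∫ s, P s * kapd (3 + e) (t - s))) e :=
    (hasDerivAt_mf t n3).comp_const_add 3 e
  have d0 := hasDerivAt_mf t n0
  have hs := (d2.add d3).add (d0.const_mul 2)
  have hz : HasDerivAt ((fun e => mf (2 + e) t) + (fun e => mf (3 + e) t) + fun e => 2 * mf e t) 0 e := by
    refine (hasDerivAt_const e (0:ℝ)).congr_of_eventuallyEq ?_
    filter_upwards [Ioo_mem_nhds h0 h1] with e' he'
    simp only [Pi.add_apply]
    rw [mf_neutral (by linarith [he'.1]) (by linarith [he'.2]), mf_high (by linarith [he'.1]) (by linarith [he'.2]),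
      mf_low he'.1.le he'.2]
    rw [show 3 + e' - 3 = e' by ring]
    ring
  have h4 := hs.unique hz
  have h5 : l * ((rowd (2 + e) t + rowd (3 + e) t + 2 * rowd e t) +
      ((∫ s, P s * kapd (2 + e) (t - s)) + (∫ s, P s * kapd (3 + e) (t - s)) + 2 * ∫ s, P s * kapd e (t - s))) = 0 := by
    rw [← h4]
    ring
  exact (mul_eq_zero.1 h5).resolve_left l_pos.ne'

end

end NUCR
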