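import Pool.Agent.NUCR.GasB
import Pool.Agent.NUP1S.ConfP

/-!
# R4B: weights, lines, one body functions
-/

set_option autoImplicit false

noncomputable section

open Complex MeasureTheory Finset
open scoped ENNReal

namespace NUCR

open NUO NUP1 NUP1S NUP1S.Ab

/-- the one body functions for a complex number of rows -/
def XBw (ep : ℝ) (M : ℕ) (tc : ℝ) (s : ℂ) : Option O3 → ℂ → ℂ :=
  Xp (XR NUO.cc (4 / 3 * (1 - ep)) (4 / 3) 0 M) (lgk tc) s

theorem measurable_XBw (ep : ℝ) (M : ℕ) (tc : ℝ) (s : ℂ) (k : Option O3) :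
    Measurable (XBw ep M tc s k) :=
  (measurable_XR _ _ _ _ _ k).mul ((measurable_lgk tc k).const_mul s).cexp

theorem norm_XBw_L (ep : ℝ) (M : ℕ) (tc : ℝ) (s : ℂ) {u : ℂ} (hu : u.re < 0) :
    ‖XBw ep M tc s (some .L) u‖ = RNB s tc u * ‖NUO.ph M (4 / 3 * (1 - ep)) u‖ := by
  unfold XBw Xp XR lgk R0 RNB lgu
  rw [if_neg (not_lt.2 hu.le)]
  simp only [pow_zero, mul_one, norm_mul, norm_ccB]
  unfold NUP1S.ph NUO.ph
  ring

theorem norm_XBw_S (ep : ℝ) (M : ℕ) (tc : ℝ) (s : ℂ) {u : ℂ} (hu : u.re < 0) :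
    ‖XBw ep M tc s (some .S) u‖ = RNB s tc u * RNB s tc (u - NUP1.l) * ‖NUO.ph M (4 / 3) u‖ := by
  have hl := lposG
  have hu' : (u - (NUP1.l : ℂ)).re < 0 := by
    simp only [sub_re, ofReal_re]
    linarith
  unfold XBw Xp XR lgk R0 RNB lgu
  rw [if_neg (not_lt.2 hu.le), if_neg (not_lt.2 hu'.le)]
  simp only [pow_zero, mul_one, mul_add, Complex.exp_add, norm_mul, norm_ccB]
  unfold NUP1S.ph NUO.ph
  ring

theorem norm_XBw_T (ep : ℝ) (M : ℕ) (tc : ℝ) (s : ℂ) {u : ℂ} (hu : u.re < 0) :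
    ‖XBw ep M tc s (some .T) u‖ = RNB s tc u * RNB s tc (u - NUP1.l) *
      ‖NUO.ph M (4 / 3 * (1 - ep)) u * NUO.ph M (4 / 3 * (1 - ep)) (u - NUP1.l) -
        NUO.ph M (4 / 3) u‖ := by
  have hl := lposG
  have hu' : (u - (NUP1.l : ℂ)).re < 0 := by
    simp only [sub_re, ofReal_re]
    linarith
  unfold XBw Xp XR lgk R0 RNB lgu
  rw [if_neg (not_lt.2 hu.le), if_neg (not_lt.2 hu'.le)]
  simp only [pow_zero, mul_one, mul_add, Complex.exp_add, norm_mul, norm_ccB]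
  unfold NUP1S.ph NUO.ph
  ring

theorem posL_reB (jL t : ℝ) : (posL jL t).re = (1 - jL) * NUP1.l := by
  unfold posL vl
  simp

theorem posT_reB (t : ℝ) : (posT t).re = -(1 / 2 * NUP1.l) := by
  unfold posT vl
  simp

theorem posS_reB (e t : ℝ) : (posS e t).re = -((1 + e) * NUP1.l) := by
  unfold posS vl
  simp

theorem posV_reB (e ρ t a : ℝ) : (posV e ρ t a).re = (1 - e) * NUP1.l +
    ρ * Real.cos (2 * Real.pi * a) := by
  unfold posV
  have h1 : Complex.exp (2 * Real.pi * a * I) = Complex.exp (((2 * Real.pi * a : ℝ) : ℂ) * I) := by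
    push_cast
    ring_nf
  rw [h1]
  simp only [add_re, posS_reB, mul_re, ofReal_re, ofReal_im, I_re, I_im,
    Complex.exp_ofReal_mul_I_re, Complex.exp_ofReal_mul_I_im, re_ofNat, im_ofNat]
  ring

theorem rk_leB {r : ℕ} (O : Fin r → Xo) (i : Fin r) : rk O i ≤ r := by
  unfold rk
  exact (Finset.card_le_univ _).trans (by simp)

theorem ei_memB {P : NUO.Par} (hP : ParB P) {r : ℕ} (O : Fin r → Xo) (i : Fin r) :
    1 / 10 ≤ ei P O i ∧ ei P O i ≤ 3 / 5 := by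
  have hr : (0 : ℝ) < r := by exact_mod_cast i.pos
  have h1 : (0 : ℝ) ≤ rk O i / r := by positivity
  have h3 : (rk O i : ℝ) / r ≤ 1 := by
    rw [div_le_one hr]
    exact_mod_cast rk_leB O i
  have h4 := hP.d0 r
  have h5 := hP.e2 r
  have h6 := hP.e1
  unfold ei
  constructor <;> nlinarith

theorem rr_memB {P : NUO.Par} (hP : ParB P) {r : ℕ} (O : Fin r → Xo) (i : Fin r) :
    0 < rr P O i ∧ rr P O i ≤ NUP1.l / 32 := by
  have hl := lposG
  refine ⟨hP.r0 _ _, (hP.r1 _ _).trans ?_⟩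
  have hr : (1 : ℝ) ≤ r := by exact_mod_cast i.pos
  have h2 := hP.e2 r
  have h3 := hP.e1
  rw [div_le_iff₀ (by linarith)]
  have h4 : P.d r ≤ 1 / 2 := by linarith
  nlinarith

/-- **The moduli of the one body functions are the weights of R4B.** -/
theorem obX_XBw (ep : ℝ) (M : ℕ) (tc : ℝ) (s : ℂ) {jL e ρ : ℝ} (hj : 1 < jL) (he : 0 ≤ e)
    (hρ : 0 ≤ ρ) (heρ : ρ < (1 - e) * NUP1.l) (x : Xo) :
    obX (XBw ep M tc s) jL e ρ x = ob1g (RNB s tc) M (4 / 3 * (1 - ep)) jL e ρ x := by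
  have hl := lposG
  have hS : (posS e (ht x)).re < 0 := by
    rw [posS_reB]
    nlinarith
  have hV : 0 < (posV e ρ (ht x) (an x)).re := by
    rw [posV_reB]
    have c1 := Real.neg_one_le_cos (2 * Real.pi * an x)
    nlinarith
  have hV0 : 0 < (posS e (ht x) + 2 * NUP1.l).re := by
    have : (posS e (ht x) + 2 * (NUP1.l : ℂ)).re = (1 - e) * NUP1.l := by
      simp only [add_re, posS_reB, mul_re, ofReal_re, ofReal_im, re_ofNat, im_ofNat, mul_zero,
        sub_zero]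
      ring
    rw [this]
    linarith
  have nS := norm_XBw_S ep M tc s hS
  have nV : ‖XBw ep M tc s none (posV e ρ (ht x) (an x))‖ = _ :=
    norm_XA s tc (4 / 3 * (1 - ep)) (4 / 3) M hV
  have nV0 : ‖XBw ep M tc s none (posS e (ht x) + 2 * NUP1.l)‖ = _ :=
    norm_XA s tc (4 / 3 * (1 - ep)) (4 / 3) M hV0
  unfold obX ob1g
  rcases hk : NUO.kd x with _ | _ | _ | _ | _ <;> simp only []
  · rw [norm_XBw_L ep M tc s (by rw [posL_reB]; nlinarith)]
  · rw [norm_XBw_T ep M tc s (by rw [posT_reB]; linarith)]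
    ring
  · rw [nS]
    unfold oSg
    ring
  · rw [nS, nV]
    unfold oSg
    ring
  · rw [nS, nV0]
    unfold oSg
    ring

/-- the weight of a configuration -/
theorem WW_XBw {ep : ℝ} (M : ℕ) (tc : ℝ) (s : ℂ) {P : NUO.Par} (hP : ParB P) {r : ℕ}
    (O : Fin r → Xo) :
    WW (fun i => obX (XBw ep M tc s) P.jL (ei P O i) (rr P O i) (O i)) (cons P O) =
      objWg (RNB s tc) M (4 / 3 * (1 - ep)) P O := by
  have hl := lposG
  unfold WW objWg
  rw [norm_P _ fun a b => ppC_symm _ _]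
  simp_rw [norm_ppC]
  congr 1
  refine Finset.prod_congr rfl fun i _ => ?_
  obtain ⟨e1, e2⟩ := ei_memB hP O i
  obtain ⟨r1, r2⟩ := rr_memB hP O i
  have := hP.j1
  exact obX_XBw ep M tc s (by linarith) (by linarith) r1.le (by nlinarith) (O i)

/-- the function of the quanta on `A` between the lines `l / 4` and `l` -/
theorem diff_XA {ep : ℝ} (h0 : 0 < ep) (h1 : ep ≤ 1 / 100) (M : ℕ) (tc : ℝ) (s : ℂ) (u : ℂ)
    (hu1 : NUP1.l / 4 ≤ u.re) (hu2 : u.re ≤ NUP1.l) :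
    DifferentiableAt ℂ (XBw ep M tc s none) u := by
  have hl := lposG
  have hel : 0 < ep * NUP1.l := mul_pos h0 hl
  have d1 := diffAt_R0 NUO.cc 0 (z := u) (NP_pos (by linarith) (by linarith))
  have d2 := diffAt_ph (adm_ep h0 h1) M (z := u) (by
    rw [abs_le]
    constructor <;> linarith)
  have d3 := lgA_diff (u := u) (by linarith) (by linarith)
  exact (d1.mul d2).mul (d3.const_mul s).cexp

theorem dec_XA {ep : ℝ} (h0 : 0 < ep) (h1 : ep ≤ 1 / 100) (M : ℕ) (tc : ℝ) (s : ℂ) :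
    DecOn (2 * (4 / 3 * (1 - ep))) (Set.Icc (NUP1.l / 4) NUP1.l) (XBw ep M tc s none) := by
  have hl := lposG
  have hel : 0 < ep * NUP1.l := mul_pos h0 hl
  have b1 := bdd_R0 NUO.cc 0 (K := Set.Icc (NUP1.l / 4) NUP1.l) isCompact_Icc fun x hx =>
    NP_pos (by linarith [hx.1]) (by linarith [hx.2])
  have b2 := bdd_ph (adm_ep h0 h1) M (K := Set.Icc (NUP1.l / 4) NUP1.l) fun x hx => by
    rw [abs_le]
    constructor <;> linarith [hx.1, hx.2]
  have b3 : DecOn (2 * (4 / 3 * (1 - ep))) (Set.Icc (NUP1.l / 4) NUP1.l)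
      (fun u => R0 NUO.cc 0 u * NUP1S.ph (4 / 3 * (1 - ep)) M u) :=
    DecOn_of_Bdd (b1.mul b2) (by linarith)
  exact b3.exp (bdOn_lgA_K (by linarith) (by linarith)) s

/-- the lines of the parameters are in the standard strips -/
theorem lnO_mem {P : NUO.Par} (hP : ParB P) {r i : ℕ} (hi : i < r) (k : O3) :
    lnO P r i k ∈ Set.Icc
      (lo4 (NUP1.l / 4) (-(19 / 10 * NUP1.l)) (-(33 / 20 * NUP1.l)) (-(9 / 10 * NUP1.l)) (some k))
      (lo4 (NUP1.l / 4) (-(11 / 10 * NUP1.l)) (-(NUP1.l / 2)) (-(NUP1.l / 2)) (some k)) := by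
  have hl := lposG
  obtain ⟨g1, g2⟩ := hP.goodP.shift hi
  have j1 := hP.j1
  have j2 := hP.j2
  cases k <;> simp only [lo4, lnO] <;> constructor <;> nlinarith

theorem lnOk_B {P : NUO.Par} (hP : ParB P) :
    LnOk (NUP1.l / 4) (-(19 / 10 * NUP1.l)) (-(11 / 10 * NUP1.l)) (-(33 / 20 * NUP1.l))
      (-(NUP1.l / 2)) (-(9 / 10 * NUP1.l)) (-(NUP1.l / 2)) (lX P) (lY P) where
  X p p' k k' i := lnO_mem hP (by have := i.2; omega) (k i)
  Y p p' k k' i := lnO_mem hP (by have := i.2; omega) (k' i)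

end NUCR

end
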