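import Pool.Agent.NUCR.S4B
import Pool.Agent.NUO.Ranges

/-!
# TARGET-B: the ranges of section 4

`CrudeB`: the crude bound, for every configuration, with a slightly smaller far factor and for all
tilts near `b0`; `SharpB`: the sharp bound for few objects, not too far, and `n` near `s.re`.
`s4B_of : CrudeB → SharpB → S4B`.
-/

set_option autoImplicit false

noncomputable section

open MeasureTheory Finset
open scoped ENNReal

namespace NUCR

open NUO NUStabP NUDispW

/-- the prefactor: mean field value and tilt -/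
def prefB (m : ℕ) (σ b0 Cst : ℝ) : ℝ :=
  Cst * Real.exp ((∫ t, NUMF.P t * NUMF.v t) * σ ^ 2) * Real.exp (c0 * b0 ^ 2 * Real.log m)

/-- **the crude bound**: every number of objects, every height, every `n`, every tilt near `b0` -/
def CrudeB : Prop :=
  ∃ K Ca : ℝ, 0 ≤ K ∧ 0 ≤ Ca ∧ ∀ kap : ℝ, 0 < kap →
    ∀ ep : ℝ, 0 < ep → ep ≤ 1 / 100 → ∀ e1 : ℝ, 0 < e1 → e1 ≤ 1 / 100 → ∀ J : ℝ, 0 ≤ J →
    ∀ δ : ℝ, 0 < δ → ∃ d Cst : ℝ, 0 < d ∧ 0 ≤ Cst ∧ ∃ m0 : ℕ, ∀ m ≥ m0,
      ∀ s : ℂ, InS m s → ∀ n ≤ 2 * (m + NUI.NN m), ∀ b0 : ℝ, 0 ≤ b0 → b0 ≤ 17 / 10 →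
      ∀ b' : ℝ, |b' - b0| ≤ d → ∀ ts, Adm (DD e1 m) s.im ts →
      ∀ r ≤ 2 * n, ∀ O : Fin r → Xo, chgO O true ≤ n → chgO O false ≤ n →
        ENNReal.ofReal (Real.exp (b' * (s.re - n))) *
          Z1g (RNB s (tB e1 m)) (MB m) (4 / 3 * (1 - ep)) (par0 (MB m)) (etaB e1 J m s ts)
            (etaB' e1 J m s ts) O (n - chgO O true) (n - chgO O false) ≤
          ENNReal.ofReal (prefB m s.re b0 Cst * (m : ℝ) ^ (7 / 8 + Ca * (ep + e1) + δ) *
            Real.exp (confEB (par0 (MB m)) m s e1 J ts (TWB ep e1 m) K kap O -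
              1 / 10 * excS (TWB ep e1 m) O))

/-- **the sharp bound**: at most `log m` objects, at heights at most `(log m)^2`, `n` near `s.re` -/
def SharpB : Prop :=
  ∃ K Ca : ℝ, 0 ≤ K ∧ 0 ≤ Ca ∧ ∀ kap : ℝ, 0 < kap →
    ∀ ep : ℝ, 0 < ep → ep ≤ 1 / 100 → ∀ e1 : ℝ, 0 < e1 → e1 ≤ 1 / 100 → ∀ J : ℝ, 0 ≤ J →
    ∀ δ : ℝ, 0 < δ → ∃ d Cst : ℝ, 0 < d ∧ 0 ≤ Cst ∧ ∃ m0 : ℕ, ∀ m ≥ m0,
      ∀ s : ℂ, InS m s → ∀ n ≤ 2 * (m + NUI.NN m), |s.re - n| ≤ Real.log m ^ 3 →
      ∀ b0 : ℝ, 0 ≤ b0 → b0 ≤ 17 / 10 → ∀ b' : ℝ, |b' - b0| ≤ d →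
      ∀ ts, Adm (DD e1 m) s.im ts → ∀ r ≤ 2 * n, (r : ℝ) ≤ Real.log m →
      ∀ O : Fin r → Xo, (∀ i, |ht (O i)| ≤ Real.log m ^ 2) →
      chgO O true ≤ n → chgO O false ≤ n →
        ENNReal.ofReal (Real.exp (b' * (s.re - n))) *
          Z1g (RNB s (tB e1 m)) (MB m) (4 / 3 * (1 - ep)) (par0 (MB m)) (etaB e1 J m s ts)
            (etaB' e1 J m s ts) O (n - chgO O true) (n - chgO O false) ≤
          ENNReal.ofReal (prefB m s.re b0 Cst * (m : ℝ) ^ (3 / 8 + Ca * (ep + e1) + δ) *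
            Real.exp (confEB (par0 (MB m)) m s e1 J ts (TWB ep e1 m) K kap O))

theorem confEB_mono {P : Par} {m : ℕ} {s : ℂ} {e1 J ts T' K K' kap : ℝ} (hK : K ≤ K') {r : ℕ}
    (O : Fin r → Xo) : confEB P m s e1 J ts T' K kap O ≤ confEB P m s e1 J ts T' K' kap O := by
  unfold confEB
  have : K * (r : ℝ) ≤ K' * r := mul_le_mul_of_nonneg_right hK (Nat.cast_nonneg r)
  linarith

theorem prefB_nonneg {m : ℕ} {σ b0 Cst : ℝ} (h : 0 ≤ Cst) : 0 ≤ prefB m σ b0 Cst := by
  unfold prefB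
  positivity

theorem prefB_mono {m : ℕ} {σ b0 Cst Cst' : ℝ} (h : Cst ≤ Cst') :
    prefB m σ b0 Cst ≤ prefB m σ b0 Cst' := by
  unfold prefB
  gcongr

/-- **section 4 from the crude and the sharp bound** -/
theorem s4B_of (hC : CrudeB) (hS : SharpB) : S4B := by
  obtain ⟨K1, Ca1, hK1, hCa1, hC⟩ := hC
  obtain ⟨K2, Ca2, hK2, hCa2, hS⟩ := hS
  refine ⟨max K1 K2, max Ca1 Ca2, 1 / 2, hK1.trans (le_max_left _ _), hCa1.trans (le_max_left _ _),
    by norm_num, ?_⟩
  intro kap hkap ep hep hep' e1 he1 he1' J hJ δ hδ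
  obtain ⟨d1, Cst1, hd1, hCst1, m1, hC⟩ := hC kap hkap ep hep hep' e1 he1 he1' J hJ δ hδ
  obtain ⟨d2, Cst2, hd2, hCst2, m2, hS⟩ := hS kap hkap ep hep hep' e1 he1 he1' J hJ δ hδ
  set d : ℝ := min (d1 / 2) d2 with hd
  have hd0 : 0 < d := lt_min (by positivity) hd2
  have hdd1 : d ≤ d1 / 2 := min_le_left _ _
  have hdd2 : d ≤ d2 := min_le_right _ _
  obtain ⟨m3, hm3⟩ := log_large (max 20 (1 / d))
  refine ⟨d, max Cst1 Cst2, hd0, hCst1.trans (le_max_left _ _), max (max m1 m2) (max m3 3), ?_⟩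
  intro m hm s hs n hn b0 hb0 hb1 b' hb' ts had r hr O hct hcf
  have hm1 : m1 ≤ m := ((le_max_left _ _).trans (le_max_left _ _)).trans hm
  have hm2 : m2 ≤ m := ((le_max_right _ _).trans (le_max_left _ _)).trans hm
  have hm3' : m3 ≤ m := ((le_max_left _ _).trans (le_max_right _ _)).trans hm
  have hm4 : 3 ≤ m := ((le_max_right _ _).trans (le_max_right _ _)).trans hm
  set L : ℝ := Real.log m with hL
  have hL20 : 20 ≤ L := (le_max_left _ _).trans (hm3 m hm3')
  have hLd : 1 ≤ d * L := by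
    have h := (le_max_right _ _).trans (hm3 m hm3')
    rw [div_le_iff₀ hd0] at h
    linarith
  have hmR : (1 : ℝ) ≤ m := by
    have : 1 ≤ m := by omega
    exact_mod_cast this
  have hmpos : (0 : ℝ) < m := by linarith
  have hbabs : |b' - b0| ≤ d := by
    rcases hb' with h | h
    · rw [h, add_sub_cancel_left, abs_of_pos hd0]
    · rw [h, sub_sub_cancel_left, abs_neg, abs_of_pos hd0]
  set X : ℝ := confEB (par0 (MB m)) m s e1 J ts (TWB ep e1 m) (max K1 K2) kap O with hX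
  set p : ℝ := 3 / 8 + max Ca1 Ca2 * (ep + e1) + δ with hp
  have epre : Real.exp ((∫ t, NUMF.P t * NUMF.v t) * s.re ^ 2) * Real.exp (c0 * b0 ^ 2 * L) =
      prefB m s.re b0 1 := by
    unfold prefB
    rw [one_mul]
  have hpre0 : 0 ≤ prefB m s.re b0 (max Cst1 Cst2) := prefB_nonneg (hCst1.trans (le_max_left _ _))
  -- the crude bound with a gain
  have crude : ∀ b'' : ℝ, |b'' - b0| ≤ 2 * d → ∀ g : ℝ,
      b' * (s.re - n) + (1 / 2) * L + g ≤ b'' * (s.re - n) + 1 / 10 * excS (TWB ep e1 m) O →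
      ENNReal.ofReal (Real.exp (b' * (s.re - n))) *
          Z1g (RNB s (tB e1 m)) (MB m) (4 / 3 * (1 - ep)) (par0 (MB m)) (etaB e1 J m s ts)
            (etaB' e1 J m s ts) O (n - chgO O true) (n - chgO O false) ≤
        ENNReal.ofReal (prefB m s.re b0 (max Cst1 Cst2) * (m : ℝ) ^ p * Real.exp (X - g)) := by
    intro b'' hb'' g hg
    have h := hC m hm1 s hs n hn b0 hb0 hb1 b'' (by linarith) ts had r hr O hct hcf
    have e1' : Real.exp (b' * (s.re - n)) = Real.exp (b' * (s.re - n) - b'' * (s.re - n)) *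
        Real.exp (b'' * (s.re - n)) := by
      rw [← Real.exp_add]
      ring_nf
    rw [e1', ENNReal.ofReal_mul (Real.exp_pos _).le, mul_assoc]
    refine (mul_le_mul_right h _).trans ?_
    rw [← ENNReal.ofReal_mul (Real.exp_pos _).le]
    refine ENNReal.ofReal_le_ofReal ?_
    have h1 : (m : ℝ) ^ (7 / 8 + Ca1 * (ep + e1) + δ) ≤ (m : ℝ) ^ p * Real.exp ((1 / 2) * L) := by
      have h2 : Real.exp ((1 / 2) * L) = (m : ℝ) ^ (1 / 2 : ℝ) := by
        rw [Real.rpow_def_of_pos hmpos, ← hL, mul_comm]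
      rw [h2, ← Real.rpow_add hmpos]
      refine Real.rpow_le_rpow_of_exponent_le hmR ?_
      have : Ca1 * (ep + e1) ≤ max Ca1 Ca2 * (ep + e1) :=
        mul_le_mul_of_nonneg_right (le_max_left _ _) (by linarith)
      rw [hp]
      linarith
    have h3 : confEB (par0 (MB m)) m s e1 J ts (TWB ep e1 m) K1 kap O ≤ X :=
      confEB_mono (le_max_left _ _) O
    have h4 : (0 : ℝ) ≤ (m : ℝ) ^ p := Real.rpow_nonneg hmpos.le _
    calc Real.exp (b' * (s.re - n) - b'' * (s.re - n)) *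
          (prefB m s.re b0 Cst1 * (m : ℝ) ^ (7 / 8 + Ca1 * (ep + e1) + δ) *
            Real.exp (confEB (par0 (MB m)) m s e1 J ts (TWB ep e1 m) K1 kap O -
              1 / 10 * excS (TWB ep e1 m) O))
        ≤ Real.exp (b' * (s.re - n) - b'' * (s.re - n)) *
          (prefB m s.re b0 (max Cst1 Cst2) * ((m : ℝ) ^ p * Real.exp ((1 / 2) * L)) *
            Real.exp (X - 1 / 10 * excS (TWB ep e1 m) O)) := by
          refine mul_le_mul_of_nonneg_left ?_ (Real.exp_pos _).le
          refine mul_le_mul (mul_le_mul (prefB_mono (le_max_left _ _)) h1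
            (Real.rpow_nonneg hmpos.le _) hpre0)
            (Real.exp_le_exp.2 (by linarith)) (Real.exp_pos _).le ?_
          exact mul_nonneg hpre0 (mul_nonneg h4 (Real.exp_pos _).le)
      _ = prefB m s.re b0 (max Cst1 Cst2) * (m : ℝ) ^ p *
            Real.exp (b' * (s.re - n) - b'' * (s.re - n) +
            (1 / 2) * L + (X - 1 / 10 * excS (TWB ep e1 m) O)) := by
          rw [Real.exp_add, Real.exp_add]
          ring
      _ ≤ _ := by
          refine mul_le_mul_of_nonneg_left (Real.exp_le_exp.2 (by linarith)) ?_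
          exact mul_nonneg hpre0 h4
  have hexc := excS_nonneg (TWB ep e1 m) O
  have efin : ∀ Y : ℝ, max Cst1 Cst2 * Real.exp ((∫ t, NUMF.P t * NUMF.v t) * s.re ^ 2) *
      Real.exp (c0 * b0 ^ 2 * L) * (m : ℝ) ^ p * Y =
      prefB m s.re b0 (max Cst1 Cst2) * (m : ℝ) ^ p * Y := fun Y => rfl
  rw [efin]
  by_cases hrL : (r : ℝ) ≤ L
  · rw [if_pos hrL, mul_one]
    by_cases hnm : |s.re - n| ≤ L ^ 3
    · by_cases hht : ∀ i, |ht (O i)| ≤ L ^ 2
      · -- the sharp bound
        refine (hS m hm2 s hs n hn hnm b0 hb0 hb1 b' (by linarith) ts had r hr hrL O hht hct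
          hcf).trans ?_
        refine ENNReal.ofReal_le_ofReal ?_
        have h1 : (m : ℝ) ^ (3 / 8 + Ca2 * (ep + e1) + δ) ≤ (m : ℝ) ^ p := by
          refine Real.rpow_le_rpow_of_exponent_le hmR ?_
          have : Ca2 * (ep + e1) ≤ max Ca1 Ca2 * (ep + e1) :=
            mul_le_mul_of_nonneg_right (le_max_right _ _) (by linarith)
          rw [hp]
          linarith
        have h3 : confEB (par0 (MB m)) m s e1 J ts (TWB ep e1 m) K2 kap O ≤ X :=
          confEB_mono (le_max_right _ _) O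
        exact mul_le_mul (mul_le_mul (prefB_mono (le_max_right _ _)) h1
            (Real.rpow_nonneg hmpos.le _) hpre0)
            (Real.exp_le_exp.2 h3) (Real.exp_pos _).le
            (mul_nonneg hpre0 (Real.rpow_nonneg hmpos.le _))
      · -- a far object
        push Not at hht
        obtain ⟨i, hi⟩ := hht
        have h1 := excS_ge (TWB ep e1 m) O i
        have h2 : TWB ep e1 m ≤ L := by
          unfold TWB Tb
          rw [← hL]
          have : (1 + 2 * e1 + 2 * ep) ≤ 2 := by linarith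
          nlinarith
        have h3 := crude b' (by linarith) 0 (by nlinarith)
        rwa [sub_zero] at h3
    · -- `n` far from `s.re`
      push Not at hnm
      rcases le_total 0 (s.re - n) with h0 | h0
      · rw [abs_of_nonneg h0] at hnm
        have h3 := crude (b' + d) (by
          have := abs_add_le (b' - b0) d
          rw [abs_of_pos hd0] at this
          have e : b' + d - b0 = b' - b0 + d := by ring
          rw [e]
          linarith) 0
          (by nlinarith [mul_le_mul_of_nonneg_left hnm.le hd0.le, sq_nonneg L, sq_nonneg (L - 1)])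
        rwa [sub_zero] at h3
      · rw [abs_of_nonpos h0] at hnm
        have h3 := crude (b' - d) (by
          have := abs_sub (b' - b0) d
          rw [abs_of_pos hd0] at this
          have e : b' - d - b0 = b' - b0 - d := by ring
          rw [e]
          linarith) 0
          (by nlinarith [mul_le_mul_of_nonneg_left hnm.le hd0.le, sq_nonneg L, sq_nonneg (L - 1)])
        rwa [sub_zero] at h3
  · -- many objects
    rw [if_neg hrL]
    have h3 := crude b' (by linarith) (-(1 / 2 * L)) (by linarith)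
    refine h3.trans (le_of_eq ?_)
    congr 1
    rw [sub_neg_eq_add, Real.exp_add]
    ring

end NUCR

end
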