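import Pool.Agent.NUP.MF.Profile

/-!
The symbol of the symmetric mode is at most its value 9 pi ^ 2 / 32 at the origin.
-/

set_option autoImplicit false

namespace NUMF

/-- sinh y <= y cosh y -/
lemma sinh_le_mul_cosh {y : ℝ} (hy : 0 ≤ y) : Real.sinh y ≤ y * Real.cosh y := by
  have h : ∀ x : ℝ, HasDerivAt (fun x => x * Real.cosh x - Real.sinh x) (x * Real.sinh x) x := by
    intro x
    have h1 := ((hasDerivAt_id x).mul (Real.hasDerivAt_cosh x)).sub (Real.hasDerivAt_sinh x)
    have e : 1 * Real.cosh x + id x * Real.sinh x - Real.cosh x = x * Real.sinh x := by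
      rw [id]
      ring
    rw [e] at h1
    exact h1
  have hm : MonotoneOn (fun x => x * Real.cosh x - Real.sinh x) (Set.Ici 0) := by
    apply monotoneOn_of_deriv_nonneg (convex_Ici 0)
    · exact fun x _ => (h x).continuousAt.continuousWithinAt
    · exact fun x _ => (h x).differentiableAt.differentiableWithinAt
    · intro x hx
      rw [interior_Ici, Set.mem_Ioi] at hx
      rw [(h x).deriv]
      exact mul_nonneg hx.le (Real.sinh_nonneg_iff.2 hx.le)
  have h1 := hm (Set.mem_Ici.2 le_rfl) (Set.mem_Ici.2 hy) hy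
  simp only [zero_mul, Real.sinh_zero, sub_zero] at h1
  linarith

/-- the polynomial inequality behind Uh_le -/
lemma poly_c {c : ℝ} (hc : 1 ≤ c) : 2 * (2 * c - 1) * (2 * c + 1) ^ 2 ≤ 9 * (2 * c ^ 2 - 1) * (c + 1) := by
  nlinarith [mul_nonneg (sub_nonneg.2 hc) (sub_nonneg.2 hc), mul_nonneg (mul_nonneg (sub_nonneg.2 hc) (sub_nonneg.2 hc)) (sub_nonneg.2 hc)]

lemma Uh_key {y : ℝ} (hy : 0 < y) :
    8 * ((Real.cosh y - 1) * (2 * Real.cosh y - 1) * (2 * Real.cosh y + 1) ^ 2) ≤ 9 * (y * Real.sinh (4 * y)) := by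
  have hc : 1 ≤ Real.cosh y := Real.one_le_cosh y
  have hs : 0 < Real.sinh y := Real.sinh_pos_iff.2 hy
  have h1 := sinh_le_mul_cosh hy.le
  have h2 := poly_c hc
  have e : Real.cosh y ^ 2 = 1 + Real.sinh y ^ 2 := by
    have := Real.cosh_sq y
    linarith
  have e4 : Real.sinh (4 * y) = 4 * Real.sinh y * Real.cosh y * (2 * Real.cosh y ^ 2 - 1) := by
    have h3 : Real.sinh (4 * y) = 2 * Real.sinh (2 * y) * Real.cosh (2 * y) := by
      rw [show 4 * y = 2 * (2 * y) by ring, Real.sinh_two_mul]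
    rw [h3, Real.sinh_two_mul, Real.cosh_two_mul]
    have : Real.sinh y ^ 2 = Real.cosh y ^ 2 - 1 := by linarith
    rw [this]
    ring
  rw [e4]
  have hc1 : 0 < Real.cosh y + 1 := by linarith
  have h4 : (Real.cosh y - 1) * (Real.cosh y + 1) = Real.sinh y ^ 2 := by nlinarith
  -- multiply by cosh + 1
  have h5 : 8 * ((Real.cosh y - 1) * (2 * Real.cosh y - 1) * (2 * Real.cosh y + 1) ^ 2) * (Real.cosh y + 1) ≤
      9 * (y * (4 * Real.sinh y * Real.cosh y * (2 * Real.cosh y ^ 2 - 1))) * (Real.cosh y + 1) := by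
    have h6 : 8 * ((Real.cosh y - 1) * (2 * Real.cosh y - 1) * (2 * Real.cosh y + 1) ^ 2) * (Real.cosh y + 1) =
        4 * Real.sinh y ^ 2 * (2 * (2 * Real.cosh y - 1) * (2 * Real.cosh y + 1) ^ 2) := by
      rw [← h4]
      ring
    rw [h6]
    have h7 : 4 * Real.sinh y ^ 2 * (2 * (2 * Real.cosh y - 1) * (2 * Real.cosh y + 1) ^ 2) ≤
        4 * Real.sinh y ^ 2 * (9 * (2 * Real.cosh y ^ 2 - 1) * (Real.cosh y + 1)) :=
      mul_le_mul_of_nonneg_left h2 (by positivity)
    have h8 : 0 ≤ 4 * Real.sinh y * (9 * (2 * Real.cosh y ^ 2 - 1) * (Real.cosh y + 1)) := by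
      have : 0 ≤ 2 * Real.cosh y ^ 2 - 1 := by nlinarith
      positivity
    have h9 := mul_le_mul_of_nonneg_right h1 h8
    calc _ ≤ _ := h7
      _ = Real.sinh y * (4 * Real.sinh y * (9 * (2 * Real.cosh y ^ 2 - 1) * (Real.cosh y + 1))) := by ring
      _ ≤ _ := h9
      _ = _ := by ring
  exact le_of_mul_le_mul_right h5 hc1

/-- **the symbol is at most its value at the origin** -/
theorem Uh_le (k : ℝ) : Uh k ≤ 9 * Real.pi ^ 2 / 32 := by
  have hpi := Real.pi_pos
  have key : ∀ k : ℝ, 0 < k → Uh k ≤ 9 * Real.pi ^ 2 / 32 := by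
    intro k hk
    have hl : l = Real.pi / 8 := rfl
    have hy : 0 < l * k := by rw [hl]; positivity
    have h1 := Uh_key hy
    have e1 : Real.sinh (4 * (l * k)) = sk k := by
      unfold sk
      rw [hl]
      congr 1
      ring
    have e2 : Real.cosh (l * k) = ck1 k := rfl
    rw [e1, e2] at h1
    have hs := ksk_pos hk.ne'
    unfold Uh
    rw [← mul_div_assoc, div_le_iff₀ hs]
    rw [hl] at h1
    nlinarith
  rcases lt_trichotomy k 0 with h | h | h
  · rw [← Uh_neg]
    exact key _ (by linarith)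
  · subst h
    unfold Uh
    simp
    positivity
  · exact key k h

end NUMF
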