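import Pool.Agent.NUCR.XiB0
import Pool.Agent.NUO.GasG
import Pool.Agent.NUCR.S4B

/-!
# The extra potential of TARGET-B: the fields `xi`, `ν0`, `ν1` of `DatG`

`xiB`: for the inputs `inB s.re (etaB ..) (etaB' ..) s.im b0 (Tb (log m)) (B1 - (b' - b0) / 2)`;
`nuB`: the densities.
-/

set_option autoImplicit false

open MeasureTheory Filter Topology

namespace NUCR

noncomputable section

open NUAct (zt)
open NUKer (iD)
open NUH0 (Inp Vn)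

/-- the extra potential of the inputs of TARGET-B -/
lemma xiO_inB {s y β T : ℝ} {η η1 : ℝ → ℝ} {B : Bool → ℝ → ℝ} (hT : 0 ≤ T) (a : Bool) (t : ℝ) :
    NUO.xiO (inB s η η1 y β T B) a t =
      (Complex.I * y * NUAct.vc (zt (iD η) t)).re + B a t := by
  unfold NUO.xiO
  rw [Vn_inB hT]
  unfold inB
  simp only
  ring

lemma int_le_full {f : ℝ → ℝ} (h0 : ∀ t, 0 ≤ f t) (hf : Integrable f) {C : ℝ} (hC : ∫ t, f t ≤ C)
    (T : ℝ) (hT : 0 ≤ T) : ∫ t in (-(T + 1))..(T + 1), f t ≤ C := by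
  rw [intervalIntegral.integral_of_le (by linarith)]
  exact (setIntegral_le_integral hf (ae_of_all _ h0)).trans hC

/-- **the field `xi` of `DatG` for TARGET-B** -/
theorem xiB {e1 J : ℝ} (he : 0 < e1) (he1 : e1 ≤ 1 / 100) (hJ : 0 ≤ J) {ϑ : ℝ} (hϑ : 0 < ϑ) :
    ∃ d : ℝ, 0 < d ∧ d ≤ 1 ∧ ∃ m0 : ℕ, ∀ m ≥ m0, ∀ s : ℂ, InS m s →
      ∀ ts, Adm (DD e1 m) s.im ts → ∀ b0 b' : ℝ, |b' - b0| ≤ d →
      ∀ (CB CI : ℝ) (B1 B1' : ℝ → ℝ), (∀ t, HasDerivAt B1 (B1' t) t) → Continuous B1' →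
        (∀ t, |B1 t| ≤ CB) → Integrable (fun t => B1 t ^ 2 + B1' t ^ 2) →
        (∫ t, B1 t ^ 2 + B1' t ^ 2) ≤ CI → ∀ a, ∃ xi1 : ℝ → ℝ,
          (∀ t, HasDerivAt (NUO.xiO (inB s.re (etaB e1 J m s ts) (etaB' e1 J m s ts) s.im b0
            (NUO.Tb (Real.log m)) (fun _ t => B1 t - (b' - b0) / 2)) a) (xi1 t) t) ∧
          Continuous xi1 ∧
          (∀ t, |NUO.xiO (inB s.re (etaB e1 J m s ts) (etaB' e1 J m s ts) s.im b0
            (NUO.Tb (Real.log m)) (fun _ t => B1 t - (b' - b0) / 2)) a t| ≤ CB + 2) ∧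
          ∀ T, 0 ≤ T → ∫ t in (-(T + 1))..(T + 1),
            (NUO.xiO (inB s.re (etaB e1 J m s ts) (etaB' e1 J m s ts) s.im b0
              (NUO.Tb (Real.log m)) (fun _ t => B1 t - (b' - b0) / 2)) a t ^ 2 + xi1 t ^ 2) ≤
            3 * CI + ϑ * (T + 1) := by
  obtain ⟨d, hd, hd1, m0, H⟩ := xi_curB he he1 hJ hϑ
  refine ⟨d, hd, hd1, max m0 1, ?_⟩
  intro m hm s hs ts had b0 b' hb CB CI B1 B1' hB cB bB i1 i2 a
  have hm1 : 1 ≤ m := le_trans (le_max_right _ _) hm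
  have hT0 : 0 ≤ NUO.Tb (Real.log m) := by
    unfold NUO.Tb
    have : 0 ≤ Real.log (m : ℝ) := Real.log_nonneg (by exact_mod_cast hm1)
    positivity
  have hc : |(b' - b0) / 2| ≤ d := by
    rw [abs_div, abs_two]
    linarith [abs_nonneg (b' - b0)]
  obtain ⟨xi1, x1, x2, x3, x4⟩ := H m (le_trans (le_max_left _ _) hm) s hs.1 hs.2.1 hs.2.2 ts had
    ((b' - b0) / 2) hc CB CI B1 B1' hB cB bB
    (int_le_full (fun t => by positivity) i1 i2)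
  have e : NUO.xiO (inB s.re (etaB e1 J m s ts) (etaB' e1 J m s ts) s.im b0
      (NUO.Tb (Real.log m)) (fun _ t => B1 t - (b' - b0) / 2)) a =
      fun t => (Complex.I * s.im * NUAct.vc (zt (iD (etaB e1 J m s ts)) t)).re +
        (B1 t - (b' - b0) / 2) := by
    funext t
    exact xiO_inB hT0 a t
  rw [e]
  exact ⟨xi1, x1, x2, x3, x4⟩

/-- **the fields `ν0`, `ν1` of `DatG` for TARGET-B** -/
theorem nuB : ∃ C : ℝ, 0 ≤ C ∧ ∀ {ep e1 b0 : ℝ} {m : ℕ} {s y : ℝ} {η η1 : ℝ → ℝ}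
    {B : Bool → ℝ → ℝ}, 0 ≤ ep → 0 ≤ e1 → 1 ≤ m → |b0| ≤ 2 → ∀ a t,
      |(inB s η η1 y b0 (NUO.Tb (Real.log m)) B).ν a t| ≤ C ∧ (NUO.TW ep e1 m ≤ |t| →
        |(inB s η η1 y b0 (NUO.Tb (Real.log m)) B).ν a t| ≤
          C * Real.exp (-(5 / 2 * (|t| - NUO.TW ep e1 m)))) := by
  obtain ⟨C, hC, H⟩ := nu_inB
  refine ⟨C, hC, ?_⟩
  intro ep e1 b0 m s y η η1 B hep he1 hm hb a t
  have hT0 : 0 ≤ NUO.Tb (Real.log m) := by
    unfold NUO.Tb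
    have : 0 ≤ Real.log (m : ℝ) := Real.log_nonneg (by exact_mod_cast hm)
    positivity
  refine H hT0 ?_ hb a t
  unfold NUO.TW
  nlinarith

end

end NUCR
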