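import Pool.Agent.NUCR.EnB2
import Pool.Agent.NUCR.CurB0

/-!
# The extra potential of TARGET-B on the curve

* `rowP_path`: the row potential `Re (i y vc)` on the path and its derivative;
* `xi_abs`: the extra potential `Re (i y vc (zeta t)) + B1 t - c`, abstract curve;
* `xi_curB`: on the curve `etaB`;
* `nu_inB`: the extra densities.
-/

set_option autoImplicit false

open MeasureTheory Filter Topology

namespace NUCR

noncomputable section

open NUAct (zt)
open NUKer (iD)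
open NUH0 (Inp Vn)

lemma vd_ofReal_im (t : ℝ) : (vd (t : ℂ)).im = 0 := by
  have e : vd (t : ℂ) = ((-(2 * (1 + NUMF.r)) * (Real.sinh (2 * t) /
      ((Real.cosh (2 * t) + 1) * (Real.cosh (2 * t) - NUMF.r))) : ℝ) : ℂ) := by
    unfold vd
    push_cast
    ring
  rw [e, Complex.ofReal_im]

/-- **the row potential on the path** -/
theorem rowP_path : ∃ A : ℝ, 0 ≤ A ∧ ∀ (y : ℝ) (η η1 : ℝ → ℝ), (∀ t, |η t| ≤ NUMF.l / 2) →
    (∀ t, HasDerivAt η (η1 t) t) → Continuous η1 → ∃ w1 : ℝ → ℝ, Continuous w1 ∧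
      (∀ t, HasDerivAt (fun t => (Complex.I * y * NUAct.vc (zt (iD η) t)).re) (w1 t) t) ∧
      ∀ t, |(Complex.I * y * NUAct.vc (zt (iD η) t)).re| ≤ A * |y| * |η t| * Real.exp (-2 * |t|) ∧
        |w1 t| ≤ A * |y| * (|η t| + |η1 t|) * Real.exp (-2 * |t|) := by
  have hl := NUMF.l_pos
  obtain ⟨A1, hA1, hv⟩ := vd_bound (b := NUMF.l / 2) (by positivity) (by linarith)
  obtain ⟨A2, hA2, hrow⟩ := row_re
  refine ⟨A1 + A2, by positivity, fun y η η1 hη h1 c1 => ?_⟩
  have him : ∀ t, (zt (iD η) t).im = η t := fun t => (zt_im' η t).1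
  have hre : ∀ t, (zt (iD η) t).re = t := fun t => (zt_im' η t).2
  have hz : ∀ t, zt (iD η) t = (t : ℂ) + (η t : ℂ) * Complex.I := fun t => rfl
  have hzd : ∀ t, HasDerivAt (fun t : ℝ => zt (iD η) t) (1 + (η1 t : ℂ) * Complex.I) t := by
    intro t
    have a1 : HasDerivAt (fun t : ℝ => (t : ℂ)) 1 t := Complex.ofRealCLM.hasDerivAt
    have a2 : HasDerivAt (fun t : ℝ => (η t : ℂ)) (η1 t : ℂ) t := (h1 t).ofReal_comp
    exact a1.add (a2.mul_const Complex.I)
  have hlt : ∀ t, |(zt (iD η) t).im| < NUMF.l := fun t => by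
    rw [him]
    linarith [hη t]
  have hcz : Continuous fun t : ℝ => zt (iD η) t :=
    continuous_iff_continuousAt.2 fun t => (hzd t).continuousAt
  have hcv : Continuous fun t : ℝ => vd (zt (iD η) t) := by
    refine continuous_iff_continuousAt.2 fun t => ?_
    exact ContinuousAt.comp (g := vd) (hasDerivAt_vd (hlt t)).continuousAt hcz.continuousAt
  refine ⟨fun t => (Complex.I * y * (vd (zt (iD η) t) * (1 + (η1 t : ℂ) * Complex.I))).re, ?_, ?_, ?_⟩
  · refine Complex.continuous_re.comp ?_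
    refine continuous_const.mul (hcv.mul ?_)
    exact continuous_const.add ((Complex.continuous_ofReal.comp c1).mul continuous_const)
  · intro t
    have h2 : HasDerivAt (fun t : ℝ => NUAct.vc (zt (iD η) t))
        (vd (zt (iD η) t) * (1 + (η1 t : ℂ) * Complex.I)) t :=
      HasDerivAt.comp t (hasDerivAt_vcA (hlt t)) (hzd t)
    have h3 := h2.const_mul (Complex.I * (y : ℂ))
    exact Complex.reCLM.hasFDerivAt.comp_hasDerivAt t h3
  · intro t
    have he := Real.exp_pos (-2 * |t|)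
    have hy := abs_nonneg y
    constructor
    · have h4 := hrow y (η t) t (hη t)
      rw [hz]
      refine h4.trans ?_
      have : 0 ≤ A1 * |y| * |η t| * Real.exp (-2 * |t|) := by positivity
      nlinarith
    · -- the derivative at the real point is real
      have hd : ‖vd (zt (iD η) t) - vd (t : ℂ)‖ ≤ A1 * Real.exp (-2 * |t|) * |η t| := by
        have hf : ∀ u ∈ Set.uIcc (0 : ℝ) (η t), HasDerivWithinAt (fun u : ℝ => vd (t + u * Complex.I))
            (vdd (t + u * Complex.I) * Complex.I) (Set.uIcc (0 : ℝ) (η t)) u := by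
          intro u hu
          have hu' : |((t : ℂ) + u * Complex.I).im| < NUMF.l := by
            have e : ((t : ℂ) + u * Complex.I).im = u := by simp
            rw [e]
            refine lt_of_le_of_lt ?_ (by linarith : NUMF.l / 2 < NUMF.l)
            refine le_trans ?_ (hη t)
            rcases le_total 0 (η t) with h | h
            · rw [Set.uIcc_of_le h] at hu
              rw [abs_of_nonneg hu.1, abs_of_nonneg h]
              exact hu.2
            · rw [Set.uIcc_of_ge h] at hu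
              rw [abs_of_nonpos hu.2, abs_of_nonpos h]
              linarith [hu.1]
          have h2 := hasDerivAt_vd (z := (t : ℂ) + u * Complex.I) hu'
          have h3 : HasDerivAt (fun u : ℝ => (t : ℂ) + (u : ℂ) * Complex.I) Complex.I u := by
            have h4 : HasDerivAt (fun u : ℝ => (u : ℂ)) 1 u := Complex.ofRealCLM.hasDerivAt
            simpa using (h4.mul_const Complex.I).const_add (t : ℂ)
          exact (HasDerivAt.comp u h2 h3).hasDerivWithinAt
        have hb : ∀ u ∈ Set.uIcc (0 : ℝ) (η t), ‖vdd (t + u * Complex.I) * Complex.I‖ ≤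
            A1 * Real.exp (-2 * |t|) := by
          intro u hu
          have hu' : |((t : ℂ) + u * Complex.I).im| ≤ NUMF.l / 2 := by
            have e : ((t : ℂ) + u * Complex.I).im = u := by simp
            rw [e]
            refine le_trans ?_ (hη t)
            rcases le_total 0 (η t) with h | h
            · rw [Set.uIcc_of_le h] at hu
              rw [abs_of_nonneg hu.1, abs_of_nonneg h]
              exact hu.2
            · rw [Set.uIcc_of_ge h] at hu
              rw [abs_of_nonpos hu.2, abs_of_nonpos h]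
              linarith [hu.1]
          have h5 := (hv _ hu').2
          have e : ((t : ℂ) + u * Complex.I).re = t := by simp
          rw [e] at h5
          rw [norm_mul, Complex.norm_I, mul_one]
          exact h5
        have h6 := (convex_uIcc (0 : ℝ) (η t)).norm_image_sub_le_of_norm_hasDerivWithin_le hf hb
          Set.left_mem_uIcc Set.right_mem_uIcc
        rw [hz]
        simpa using h6
      have hv1 : ‖vd (zt (iD η) t)‖ ≤ A1 * Real.exp (-2 * |t|) := by
        have := (hv (zt (iD η) t) (by rw [him]; exact hη t)).1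
        rwa [hre] at this
      have e0 : (Complex.I * (y : ℂ) * vd (t : ℂ)).re = 0 := by
        have := vd_ofReal_im t
        simp [this]
      have e1 : (Complex.I * y * (vd (zt (iD η) t) * (1 + (η1 t : ℂ) * Complex.I))).re =
          (Complex.I * y * (vd (zt (iD η) t) - vd (t : ℂ))).re +
            (Complex.I * y * (vd (zt (iD η) t) * ((η1 t : ℂ) * Complex.I))).re := by
        rw [mul_sub, Complex.sub_re, e0, sub_zero, ← Complex.add_re]
        congr 1
        ring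
      show |(Complex.I * y * (vd (zt (iD η) t) * (1 + (η1 t : ℂ) * Complex.I))).re| ≤ _
      rw [e1]
      refine (abs_add_le _ _).trans ?_
      have g1 : |(Complex.I * y * (vd (zt (iD η) t) - vd (t : ℂ))).re| ≤
          |y| * (A1 * Real.exp (-2 * |t|) * |η t|) := by
        refine (Complex.abs_re_le_norm _).trans ?_
        rw [norm_mul, norm_mul, Complex.norm_I, one_mul, Complex.norm_real, Real.norm_eq_abs]
        exact mul_le_mul_of_nonneg_left hd hy
      have g2 : |(Complex.I * y * (vd (zt (iD η) t) * ((η1 t : ℂ) * Complex.I))).re| ≤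
          |y| * (A1 * Real.exp (-2 * |t|) * |η1 t|) := by
        refine (Complex.abs_re_le_norm _).trans ?_
        rw [norm_mul, norm_mul, norm_mul, norm_mul, Complex.norm_I, one_mul, mul_one,
          Complex.norm_real, Complex.norm_real, Real.norm_eq_abs, Real.norm_eq_abs]
        exact mul_le_mul_of_nonneg_left (mul_le_mul_of_nonneg_right hv1 (abs_nonneg _)) hy
      have g3 : 0 ≤ A2 * |y| * (|η t| + |η1 t|) * Real.exp (-2 * |t|) := by positivity
      calc _ ≤ |y| * (A1 * Real.exp (-2 * |t|) * |η t|) + |y| * (A1 * Real.exp (-2 * |t|) * |η1 t|) :=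
            add_le_add g1 g2
        _ ≤ |y| * (A1 * Real.exp (-2 * |t|) * |η t|) + |y| * (A1 * Real.exp (-2 * |t|) * |η1 t|) +
            A2 * |y| * (|η t| + |η1 t|) * Real.exp (-2 * |t|) := by linarith
        _ = _ := by ring

/-- **the extra potential**, abstract curve -/
theorem xi_abs : ∃ A : ℝ, 1 ≤ A ∧ ∀ {y ε c CB CI : ℝ} {η η1 B1 B1' : ℝ → ℝ},
    ε ≤ NUMF.l / 2 → (∀ t, |η t| ≤ ε) → (∀ t, |η1 t| ≤ ε) → (∀ t, HasDerivAt η (η1 t) t) →
    Continuous η1 → (∀ t, HasDerivAt B1 (B1' t) t) → Continuous B1' → (∀ t, |B1 t| ≤ CB) →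
    (∀ T, 0 ≤ T → ∫ t in (-(T + 1))..(T + 1), (B1 t ^ 2 + B1' t ^ 2) ≤ CI) →
    ∃ xi1 : ℝ → ℝ,
      (∀ t, HasDerivAt (fun t => (Complex.I * y * NUAct.vc (zt (iD η) t)).re + (B1 t - c)) (xi1 t) t) ∧
      Continuous xi1 ∧
      (∀ t, |(Complex.I * y * NUAct.vc (zt (iD η) t)).re + (B1 t - c)| ≤ A * (|y| * ε) + CB + |c|) ∧
      ∀ T, 0 ≤ T → ∫ t in (-(T + 1))..(T + 1),
        (((Complex.I * y * NUAct.vc (zt (iD η) t)).re + (B1 t - c)) ^ 2 + xi1 t ^ 2) ≤
          3 * CI + (A * (|y| * ε) ^ 2 + 6 * c ^ 2) * (T + 1) := by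
  obtain ⟨A0, hA0, H⟩ := rowP_path
  refine ⟨1 + A0 + 30 * A0 ^ 2, by nlinarith [sq_nonneg A0], ?_⟩
  intro y ε c CB CI η η1 B1 B1' hε hη hη1 hd c1 hB cB bB iB
  have hy := abs_nonneg y
  have hε0 : 0 ≤ ε := (abs_nonneg _).trans (hη 0)
  obtain ⟨w1, cw, dw, bw⟩ := H y η η1 (fun t => (hη t).trans hε) hd c1
  obtain ⟨W, hW⟩ : ∃ W : ℝ → ℝ, W = fun t => (Complex.I * y * NUAct.vc (zt (iD η) t)).re := ⟨_, rfl⟩
  have dw' : ∀ t, HasDerivAt W (w1 t) t := by
    intro t
    rw [hW]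
    exact dw t
  have cW : Continuous W := continuous_iff_continuousAt.2 fun t => (dw' t).continuousAt
  have cB1 : Continuous B1 := continuous_iff_continuousAt.2 fun t => (hB t).continuousAt
  have hy0 : 0 ≤ |y| * ε := by positivity
  have b0 : ∀ t, |W t| ≤ A0 * (|y| * ε) := by
    intro t
    have h1 := (bw t).1
    rw [hW]
    refine h1.trans ?_
    have h2 : Real.exp (-2 * |t|) ≤ 1 := by
      rw [Real.exp_le_one_iff]
      have := abs_nonneg t
      linarith
    calc A0 * |y| * |η t| * Real.exp (-2 * |t|) ≤ A0 * |y| * |η t| * 1 :=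
          mul_le_mul_of_nonneg_left h2 (by positivity)
      _ ≤ A0 * |y| * ε := by
          rw [mul_one]
          exact mul_le_mul_of_nonneg_left (hη t) (by positivity)
      _ = _ := by ring
  have b1 : ∀ t, |w1 t| ≤ 2 * A0 * (|y| * ε) := by
    intro t
    refine ((bw t).2).trans ?_
    have h2 : Real.exp (-2 * |t|) ≤ 1 := by
      rw [Real.exp_le_one_iff]
      have := abs_nonneg t
      linarith
    calc A0 * |y| * (|η t| + |η1 t|) * Real.exp (-2 * |t|) ≤ A0 * |y| * (|η t| + |η1 t|) * 1 :=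
          mul_le_mul_of_nonneg_left h2 (by positivity)
      _ ≤ A0 * |y| * (ε + ε) := by
          rw [mul_one]
          exact mul_le_mul_of_nonneg_left (add_le_add (hη t) (hη1 t)) (by positivity)
      _ = _ := by ring
  refine ⟨fun t => w1 t + B1' t, ?_, cw.add cB, ?_, ?_⟩
  · intro t
    have h3 := (dw t).add ((hB t).sub_const c)
    exact h3
  · intro t
    have h3 : |W t + (B1 t - c)| ≤ |W t| + (|B1 t| + |c|) :=
      (abs_add_le _ _).trans (add_le_add le_rfl (abs_sub _ _))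
    rw [hW] at h3
    have h4 := b0 t
    rw [hW] at h4
    have h5 : 0 ≤ (1 + 30 * A0 ^ 2) * (|y| * ε) := by positivity
    have h6 := bB t
    simp only at h3 h4
    nlinarith
  · intro T hT
    have hle : -(T + 1) ≤ T + 1 := by linarith
    have e1 : ∀ t, ((Complex.I * y * NUAct.vc (zt (iD η) t)).re + (B1 t - c)) ^ 2 +
        (w1 t + B1' t) ^ 2 ≤ 3 * (B1 t ^ 2 + B1' t ^ 2) + (15 * A0 ^ 2 * (|y| * ε) ^ 2 + 3 * c ^ 2) := by
      intro t
      have h4 := b0 t
      rw [hW] at h4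
      simp only at h4
      obtain ⟨w, hw⟩ : ∃ w, w = (Complex.I * y * NUAct.vc (zt (iD η) t)).re := ⟨_, rfl⟩
      rw [← hw] at h4 ⊢
      have q1 : w ^ 2 ≤ (A0 * (|y| * ε)) ^ 2 := sq_le_sq.2 (by
        rw [abs_of_nonneg (by positivity : 0 ≤ A0 * (|y| * ε))]
        exact h4)
      have q2 : w1 t ^ 2 ≤ (2 * A0 * (|y| * ε)) ^ 2 := sq_le_sq.2 (by
        rw [abs_of_nonneg (by positivity : 0 ≤ 2 * A0 * (|y| * ε))]
        exact b1 t)
      nlinarith [sq_nonneg (w - B1 t), sq_nonneg (w + c), sq_nonneg (B1 t + c),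
        sq_nonneg (w1 t - B1' t), sq_nonneg (B1' t)]
    have i1 : IntervalIntegrable (fun t => ((Complex.I * y * NUAct.vc (zt (iD η) t)).re +
        (B1 t - c)) ^ 2 + (w1 t + B1' t) ^ 2) volume (-(T + 1)) (T + 1) := by
      refine Continuous.intervalIntegrable ?_ _ _
      have := cW
      rw [hW] at this
      exact ((this.add (cB1.sub continuous_const)).pow 2).add ((cw.add cB).pow 2)
    have i2 : IntervalIntegrable (fun t => 3 * (B1 t ^ 2 + B1' t ^ 2)) volume (-(T + 1)) (T + 1) :=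
      (((cB1.pow 2).add (cB.pow 2)).const_mul 3).intervalIntegrable _ _
    have i3 : IntervalIntegrable (fun _ : ℝ => 15 * A0 ^ 2 * (|y| * ε) ^ 2 + 3 * c ^ 2) volume
        (-(T + 1)) (T + 1) := continuous_const.intervalIntegrable _ _
    calc ∫ t in (-(T + 1))..(T + 1), (((Complex.I * y * NUAct.vc (zt (iD η) t)).re +
          (B1 t - c)) ^ 2 + (w1 t + B1' t) ^ 2) ≤
        ∫ t in (-(T + 1))..(T + 1), (3 * (B1 t ^ 2 + B1' t ^ 2) +
          (15 * A0 ^ 2 * (|y| * ε) ^ 2 + 3 * c ^ 2)) :=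
          intervalIntegral.integral_mono_on hle i1 (i2.add i3) fun t _ => e1 t
      _ = 3 * (∫ t in (-(T + 1))..(T + 1), (B1 t ^ 2 + B1' t ^ 2)) +
          (15 * A0 ^ 2 * (|y| * ε) ^ 2 + 3 * c ^ 2) * (2 * (T + 1)) := by
          rw [intervalIntegral.integral_add i2 i3, intervalIntegral.integral_const_mul,
            intervalIntegral.integral_const, smul_eq_mul]
          ring
      _ ≤ 3 * CI + ((1 + A0 + 30 * A0 ^ 2) * (|y| * ε) ^ 2 + 6 * c ^ 2) * (T + 1) := by
          have h7 := iB T hT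
          have h8 : 0 ≤ (1 + A0) * (|y| * ε) ^ 2 * (T + 1) := by positivity
          nlinarith

/-- `x` small, `x = log m * m ^ (-e1 / 2)` -/
lemma log_sq_small {e1 : ℝ} {m : ℕ} (hm : 1 ≤ m) :
    Real.log m * (Real.log m * (m : ℝ) ^ (-e1)) = (Real.log m * (m : ℝ) ^ (-(e1 / 2))) ^ 2 := by
  have hmp : (0 : ℝ) < m := by exact_mod_cast hm
  have e : (m : ℝ) ^ (-e1) = (m : ℝ) ^ (-(e1 / 2)) * (m : ℝ) ^ (-(e1 / 2)) := by
    rw [← Real.rpow_add hmp]
    congr 1
    ring
  rw [e]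
  ring

/-- **the extra potential on the curve of TARGET-B** -/
theorem xi_curB {e1 J : ℝ} (he : 0 < e1) (he1 : e1 ≤ 1 / 100) (hJ : 0 ≤ J) {ϑ : ℝ} (hϑ : 0 < ϑ) :
    ∃ d : ℝ, 0 < d ∧ d ≤ 1 ∧ ∃ m0 : ℕ, ∀ m ≥ m0, ∀ s : ℂ, |s.re - m| ≤ NUI.NN m + 1 / 2 →
      -(Real.pi / 4 * NUI.XX (2 / (3 * Real.pi ^ 2)) m) ≤ s.im →
      s.im ≤ 17 / 10 * NUI.XX (2 / (3 * Real.pi ^ 2)) m → ∀ ts, Adm (DD e1 m) s.im ts →
      ∀ c : ℝ, |c| ≤ d → ∀ (CB CI : ℝ) (B1 B1' : ℝ → ℝ), (∀ t, HasDerivAt B1 (B1' t) t) →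
        Continuous B1' → (∀ t, |B1 t| ≤ CB) →
        (∀ T, 0 ≤ T → ∫ t in (-(T + 1))..(T + 1), (B1 t ^ 2 + B1' t ^ 2) ≤ CI) →
        ∃ xi1 : ℝ → ℝ, (∀ t, HasDerivAt (fun t => (Complex.I * s.im *
            NUAct.vc (zt (iD (etaB e1 J m s ts)) t)).re + (B1 t - c)) (xi1 t) t) ∧
          Continuous xi1 ∧
          (∀ t, |(Complex.I * s.im * NUAct.vc (zt (iD (etaB e1 J m s ts)) t)).re + (B1 t - c)| ≤
            CB + 2) ∧
          ∀ T, 0 ≤ T → ∫ t in (-(T + 1))..(T + 1),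
            (((Complex.I * s.im * NUAct.vc (zt (iD (etaB e1 J m s ts)) t)).re + (B1 t - c)) ^ 2 +
              xi1 t ^ 2) ≤ 3 * CI + ϑ * (T + 1) := by
  have hl := NUMF.l_pos
  have hB := Bη_pos
  obtain ⟨A, hA, HA⟩ := xi_abs
  obtain ⟨C, hC, m1, H1⟩ := exists_CurB0 he he1 (ep := NUMF.l / 2) (by positivity) hJ
  obtain ⟨κ, hκ⟩ : ∃ κ : ℝ, κ = min 1 (ϑ / (2 * A)) := ⟨_, rfl⟩
  have hκ0 : 0 < κ := by rw [hκ]; positivity
  have hκ1 : κ ≤ 1 := by rw [hκ]; exact min_le_left _ _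
  have hκ2 : A * κ ≤ ϑ / 2 := by
    have : κ ≤ ϑ / (2 * A) := by rw [hκ]; exact min_le_right _ _
    calc A * κ ≤ A * (ϑ / (2 * A)) := mul_le_mul_of_nonneg_left this (by linarith)
      _ = ϑ / 2 := by field_simp
  -- `|y| ε` is small
  obtain ⟨m2, H2⟩ := large_m (e1 := e1 / 2) (by positivity) (A * (Bη * C) + 1) κ (by positivity) hκ0
  refine ⟨min 1 (ϑ / 12), by positivity, min_le_left _ _, max m1 m2, ?_⟩
  intro m hm s h1 h2 h3 ts had c hc CB CI B1 B1' hB1 cB1 bB1 iB1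
  obtain ⟨g1, g2, g3⟩ := H1 m (le_trans (le_max_left _ _) hm)
  obtain ⟨f1, f2, f3, f4⟩ := H2 m (le_trans (le_max_right _ _) hm)
  obtain ⟨-, -, hr, g4⟩ := g3 s h1 h2 h3
  obtain ⟨e, η', hcur, hd, cη, -, -⟩ := g4 ts had
  obtain ⟨ε, hε⟩ : ∃ ε : ℝ, ε = C * (Real.log m * (m : ℝ) ^ (-e1)) := ⟨_, rfl⟩
  rw [← hε] at hcur g2
  obtain ⟨q0, f', hf, q3⟩ := hcur.O4
  obtain rfl : f' = η' := funext fun x => (hf x).unique (hd x)
  have hT0 : 0 ≤ TB m := by linarith
  have hL : TB m ≤ Real.log m := by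
    unfold TB at g1 ⊢
    linarith
  have hDT : DD e1 m ≤ Real.log m := by
    unfold DD
    nlinarith
  have hy := hr.abs (by unfold DD; nlinarith : 0 ≤ DD e1 m)
  have hy' : |s.im| ≤ Bη * Real.log m := hy.trans (mul_le_mul_of_nonneg_left hDT hB.le)
  obtain ⟨x, hx⟩ : ∃ x : ℝ, x = Real.log m * (m : ℝ) ^ (-(e1 / 2)) := ⟨_, rfl⟩
  rw [← hx] at f4
  have hx0 : 0 ≤ x := by
    rw [hx]
    have : 0 ≤ Real.log m := by linarith
    positivity
  have hx1 : x ≤ κ := by
    have : 0 ≤ A * (Bη * C) * x := by positivity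
    linarith
  have hε0 : 0 ≤ ε := hcur.ε0
  have hyε : |s.im| * ε ≤ Bη * C * x ^ 2 := by
    rw [hx, ← log_sq_small f1]
    calc |s.im| * ε ≤ Bη * Real.log m * ε := mul_le_mul_of_nonneg_right hy' hε0
      _ = _ := by rw [hε]; ring
  have hyA : A * (|s.im| * ε) ≤ κ := by
    calc A * (|s.im| * ε) ≤ A * (Bη * C * x ^ 2) := mul_le_mul_of_nonneg_left hyε (by linarith)
      _ = (A * (Bη * C) * x) * x := by ring
      _ ≤ κ * 1 := by
        refine mul_le_mul (by linarith) (hx1.trans hκ1) hx0 hκ0.le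
      _ = κ := mul_one _
  have hd2 : ∀ t, HasDerivAt (etaB e1 J m s ts) (f' t) t := hd
  obtain ⟨xi1, x1, x2, x3, x4⟩ := HA (y := s.im) (c := c) (CB := CB) (CI := CI) g2 q0
    (fun t => q3.le t) hd cη hB1 cB1 bB1 iB1
  refine ⟨xi1, x1, x2, fun t => ?_, fun T hT => ?_⟩
  · have h5 := x3 t
    have h6 : |c| ≤ 1 := hc.trans (min_le_left _ _)
    linarith
  · have h5 := x4 T hT
    refine h5.trans ?_
    have hys : 0 ≤ |s.im| * ε := by positivity
    have h6 : A * (|s.im| * ε) ^ 2 ≤ A * κ := by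
      have h7 : (|s.im| * ε) ^ 2 ≤ κ := by
        have h8 : |s.im| * ε ≤ κ := by nlinarith
        calc (|s.im| * ε) ^ 2 ≤ κ ^ 2 := pow_le_pow_left₀ hys h8 2
          _ ≤ κ * 1 := by rw [sq]; exact mul_le_mul_of_nonneg_left hκ1 hκ0.le
          _ = κ := mul_one _
      exact mul_le_mul_of_nonneg_left h7 (by linarith)
    have h7 : 6 * c ^ 2 ≤ ϑ / 2 := by
      have h8 : |c| ≤ ϑ / 12 := hc.trans (min_le_right _ _)
      have h9 : |c| ≤ 1 := hc.trans (min_le_left _ _)
      rw [← sq_abs]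
      nlinarith [abs_nonneg c]
    have h8 : (A * (|s.im| * ε) ^ 2 + 6 * c ^ 2) * (T + 1) ≤ ϑ * (T + 1) :=
      mul_le_mul_of_nonneg_right (by linarith) (by linarith)
    linarith

/-- **the extra densities** -/
theorem nu_inB : ∃ C : ℝ, 0 ≤ C ∧ ∀ {s y β T T' : ℝ} {η η1 : ℝ → ℝ} {B : Bool → ℝ → ℝ}, 0 ≤ T →
    T ≤ T' → |β| ≤ 2 → ∀ a t, |(inB s η η1 y β T B).ν a t| ≤ C ∧
      (T' ≤ |t| → |(inB s η η1 y β T B).ν a t| ≤ C * Real.exp (-(5 / 2 * (|t| - T')))) := by
  obtain ⟨C, hC, H⟩ := exists_nuchi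
  refine ⟨C, by linarith, ?_⟩
  intro s y β T T' η η1 B hT hTT hβ a t
  have h := H T hT t
  have e : |(inB s η η1 y β T B).ν a t| = |β / 2| * |nu0 T t| := by
    unfold inB
    simp only
    rw [abs_mul, abs_neg]
  have hβ2 : |β / 2| ≤ 1 := by
    rw [abs_div, abs_two]
    linarith
  rw [e]
  refine ⟨?_, fun ht => ?_⟩
  · calc |β / 2| * |nu0 T t| ≤ 1 * C := mul_le_mul hβ2 h.1 (abs_nonneg _) zero_le_one
      _ = C := one_mul _
  · calc |β / 2| * |nu0 T t| ≤ 1 * (C * Real.exp (-(8 / 3) * (|t| - T))) :=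
          mul_le_mul hβ2 h.2.1 (abs_nonneg _) zero_le_one
      _ = C * Real.exp (-(8 / 3) * (|t| - T)) := one_mul _
      _ ≤ _ := by
          refine mul_le_mul_of_nonneg_left (Real.exp_le_exp.2 ?_) (by linarith)
          linarith

end

end NUCR
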