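import Pool.Agent.NUCR.OneF
import Pool.Agent.NUCR.CurB0
import Pool.Agent.NUO.Act

/-!
# Real part times branch factor is at most the activity (board/CR, helper78)

`zK`: the bound of the real part of the one body factor, by kinds (`OneR`); `zK_act`: `zK * exp (gO) ≤ act`.
-/

set_option autoImplicit false

noncomputable section

open MeasureTheory Set Filter Topology

namespace NUCR

open NUO

/-- bound of the real part of the one body factor, by kinds -/
def zK (C c : ℝ) (k : ℕ) (L ep : ℝ) (M r : ℕ) : Kind → ℝ → ℝ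
  | .L, t => C * Phi 1 (1 / 10) (Tb L / (1 - ep)) t
  | .Svv, t => C * Phi 1 (1 / 10) (Tb L / (1 - ep)) t
  | .St, t => C * Phi 1 (1 / 10) (Tb L / (1 - ep)) t *
      Real.exp (-(cT * (4 / 3 * ep) * (M * Real.exp (-(8 / 3) * |t|))))
  | .S, t => C * (((r : ℝ) + L) ^ k * Phi 1 (1 / 10) (Tb L) t *
      Real.exp (-(c * Real.exp (8 / 3 * (Tb L - |t|)))))
  | .Sv, t => C * (((r : ℝ) + L) ^ k * Phi 1 (1 / 10) (Tb L) t *
      Real.exp (-(c * Real.exp (8 / 3 * (Tb L - |t|)))))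

lemma lin_le_exp {a A B L : ℝ} (ha : 0 < a) (hA : 0 ≤ A) (hB : 0 ≤ B) (h1 : 1 ≤ L)
    (h : 2 * (A + B) / a ^ 2 ≤ L) : A * L + B ≤ Real.exp (a * L) := by
  have h2 := Real.quadratic_le_exp_of_nonneg (show 0 ≤ a * L by positivity)
  rw [div_le_iff₀ (by positivity)] at h
  have h3 : 0 ≤ a * L := by positivity
  have h4 : B ≤ B * L := le_mul_of_one_le_right hB h1
  have h5 : 2 * (A + B) * L ≤ L * a ^ 2 * L := mul_le_mul_of_nonneg_right h (by linarith)
  nlinarith

lemma exists_log (X : ℝ) : ∃ m0 : ℕ, ∀ m ≥ m0, X ≤ Real.log (m : ℝ) := by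
  have h1 : Tendsto (fun m : ℕ => Real.log (m : ℝ)) atTop atTop :=
    Real.tendsto_log_atTop.comp tendsto_natCast_atTop_atTop
  exact eventually_atTop.1 (h1.eventually_ge_atTop X)

/-- **the zones** -/
lemma zones {c e1 W K T D t : ℝ} (hc : 0 < c) (he : 0 < e1) (hW : 0 ≤ W) (hK : 0 ≤ K) (hT : 0 ≤ T)
    (hD : D + 1 = (1 - e1) * T) (h1 : W + 2 * Real.pi * K ≤ c * Real.exp (8 / 3 * (e1 / 2 * T)))
    (h2 : W ≤ Real.exp (e1 / 2 * T)) :
    W * Real.exp (-bey D t) ≤ c * Real.exp (8 / 3 * (T - |t|)) + 1 ∧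
    (|t| ≤ (1 - 3 * e1) * T → W * Real.exp (-bey D t) + 2 * Real.pi * K ≤ c * Real.exp (8 / 3 * (T - |t|))) := by
  have hpi := Real.pi_pos
  have hE0 := Real.exp_pos (-bey D t)
  have hE1 : Real.exp (-bey D t) ≤ 1 := Real.exp_le_one_iff.2 (neg_nonpos.2 (bey_nonneg D t))
  have hWE : W * Real.exp (-bey D t) ≤ W := mul_le_of_le_one_right hW hE1
  have hPK : 0 ≤ 2 * Real.pi * K := by positivity
  have hcE : 0 ≤ c * Real.exp (8 / 3 * (T - |t|)) := by positivity
  have key : |t| ≤ (1 - e1 / 2) * T → W * Real.exp (-bey D t) + 2 * Real.pi * K ≤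
      c * Real.exp (8 / 3 * (T - |t|)) := by
    intro ht
    have h3 : Real.exp (8 / 3 * (e1 / 2 * T)) ≤ Real.exp (8 / 3 * (T - |t|)) :=
      Real.exp_le_exp.2 (by linarith)
    have h4 := mul_le_mul_of_nonneg_left h3 hc.le
    linarith
  refine ⟨?_, fun ht => key (ht.trans (mul_le_mul_of_nonneg_right (by linarith) hT))⟩
  rcases le_or_gt |t| ((1 - e1 / 2) * T) with ht | ht
  · linarith [key ht]
  · have h3 : e1 / 2 * T ≤ bey D t := by
      refine le_trans ?_ (le_max_left _ _)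
      nlinarith
    have h4 : Real.exp (-bey D t) ≤ Real.exp (-(e1 / 2 * T)) := Real.exp_le_exp.2 (by linarith)
    have h5 : W * Real.exp (-bey D t) ≤ Real.exp (e1 / 2 * T) * Real.exp (-(e1 / 2 * T)) :=
      mul_le_mul h2 h4 hE0.le (Real.exp_pos _).le
    rw [← Real.exp_add, add_neg_cancel, Real.exp_zero] at h5
    linarith

lemma act_left {C C0 c b J : ℝ} {k r : ℕ} {L ep e1 t x : ℝ} (hC0 : 0 ≤ C0) (hC : C0 ≤ C) (hL : 0 ≤ L)
    (hx : x ≤ C0 * (Phi 1 b (Tb L / (1 - ep)) t *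
      (if |t| ≤ (1 - 3 * e1) * Tb L then Real.exp (-(2 * Real.pi * J)) else 1))) :
    x ≤ act C 1 c b k L ep e1 J r t := by
  have hPh := Phi_nonneg (C' := 1) (b := b) (T := Tb L / (1 - ep)) (t := t) zero_le_one
  have hPh2 := Phi_nonneg (C' := 1) (b := b) (T := Tb L) (t := t) zero_le_one
  have hI : 0 ≤ (if |t| ≤ (1 - 3 * e1) * Tb L then Real.exp (-(2 * Real.pi * J)) else 1) := by
    split_ifs
    · exact (Real.exp_pos _).le
    · exact zero_le_one
  refine hx.trans ?_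
  unfold act
  refine mul_le_mul hC (le_add_of_nonneg_right (by positivity)) (by positivity) (hC0.trans hC)

lemma act_right {C C0 c b J : ℝ} {k r : ℕ} {L ep e1 t x : ℝ} (hC0 : 0 ≤ C0) (hC : C0 ≤ C) (hL : 0 ≤ L)
    (hx : x ≤ C0 * (((r : ℝ) + L) ^ k * Phi 1 b (Tb L) t * Real.exp (-(c * Real.exp (8 / 3 * (Tb L - |t|)))))) :
    x ≤ act C 1 c b k L ep e1 J r t := by
  have hPh := Phi_nonneg (C' := 1) (b := b) (T := Tb L / (1 - ep)) (t := t) zero_le_one
  have hPh2 := Phi_nonneg (C' := 1) (b := b) (T := Tb L) (t := t) zero_le_one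
  have hI : 0 ≤ (if |t| ≤ (1 - 3 * e1) * Tb L then Real.exp (-(2 * Real.pi * J)) else 1) := by
    split_ifs
    · exact (Real.exp_pos _).le
    · exact zero_le_one
  refine hx.trans ?_
  unfold act
  refine mul_le_mul hC (le_add_of_nonneg_left (by positivity)) (by positivity) (hC0.trans hC)

/-- **real part times branch factor** -/
theorem zK_act {C c C1 A : ℝ} (hC : 0 ≤ C) (hc : 0 < c) (hC1 : 0 ≤ C1) (hA : 0 ≤ A) :
    ∀ ep : ℝ, 0 < ep → ∀ e1 : ℝ, 0 < e1 → e1 ≤ 1 / 100 → ∀ K : ℝ, 0 ≤ K → ∃ m0 : ℕ, ∀ m ≥ m0,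
      ∀ y : ℝ, |y| ≤ Bη * DD e1 m → ∀ M : ℕ, m ≤ M → ∀ (k r : ℕ) (kk : Kind) (t : ℝ),
        zK C c k (Real.log m) ep M r kk t * Real.exp (gO C1 A y K (DD e1 m) (XB e1 m) kk t) ≤
          act (C * Real.exp (C1 + 1)) 1 (c / 2) (1 / 10) k (Real.log m) ep e1 K r t := by
  intro ep hep e1 he he1 K hK
  have hpi := Real.pi_pos
  have hB := Bη_pos
  have hcT := cT_pos
  -- two constants
  obtain ⟨c0, hc0⟩ : ∃ c0 : ℝ, c0 = min (c / 2) (cT * (4 / 3 * ep)) := ⟨_, rfl⟩
  have hc00 : 0 < c0 := by rw [hc0]; positivity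
  have hc01 : c0 ≤ c / 2 := by rw [hc0]; exact min_le_left _ _
  have hc02 : c0 ≤ cT * (4 / 3 * ep) := by rw [hc0]; exact min_le_right _ _
  obtain ⟨m0, hm0⟩ := exists_log (1 + 2 * (A * Bη / c0 + (A * K + 2 * Real.pi * K) / c0) / (e1 / 2) ^ 2 +
    2 * (A * Bη + A * K) / (3 * e1 / 16) ^ 2)
  refine ⟨m0 + 1, fun m hm y hy M hM k r kk t => ?_⟩
  have hL := hm0 m (by omega)
  have hm1 : 1 ≤ m := by omega
  set L := Real.log (m : ℝ) with hLd
  have p1 : 0 ≤ 2 * (A * Bη / c0 + (A * K + 2 * Real.pi * K) / c0) / (e1 / 2) ^ 2 := by positivity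
  have p2 : 0 ≤ 2 * (A * Bη + A * K) / (3 * e1 / 16) ^ 2 := by positivity
  have hL1 : 1 ≤ L := by linarith
  have hT : TB m = Tb L := rfl
  have hTb : Tb L = 3 / 8 * L := rfl
  have hDD : DD e1 m + 1 = (1 - e1) * Tb L := by
    unfold DD
    rw [hT]
    ring
  have q1 := lin_le_exp (a := e1 / 2) (A := A * Bη / c0) (B := (A * K + 2 * Real.pi * K) / c0) (L := L)
    (by positivity) (by positivity) (by positivity) hL1 (by linarith)
  have q2 := lin_le_exp (a := 3 * e1 / 16) (A := A * Bη) (B := A * K) (L := L)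
    (by positivity) (by positivity) (by positivity) hL1 (by linarith)
  have hyL : |y| ≤ Bη * L := by
    refine hy.trans (mul_le_mul_of_nonneg_left ?_ hB.le)
    nlinarith
  have hW0 : 0 ≤ A * (|y| + K) := by positivity
  have hW : A * (|y| + K) ≤ A * Bη * L + A * K := by
    have := mul_le_mul_of_nonneg_left hyL hA
    nlinarith
  have h1 : A * (|y| + K) + 2 * Real.pi * K ≤ c0 * Real.exp (8 / 3 * (e1 / 2 * Tb L)) := by
    have e : 8 / 3 * (e1 / 2 * Tb L) = e1 / 2 * L := by rw [hTb]; ring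
    rw [e]
    have q3 := mul_le_mul_of_nonneg_left q1 hc00.le
    have e2 : c0 * (A * Bη / c0 * L + (A * K + 2 * Real.pi * K) / c0) = A * Bη * L + (A * K + 2 * Real.pi * K) := by
      field_simp
    linarith
  have h2 : A * (|y| + K) ≤ Real.exp (e1 / 2 * Tb L) := by
    have e : e1 / 2 * Tb L = 3 * e1 / 16 * L := by rw [hTb]; ring
    rw [e]
    linarith
  have hT0 : 0 ≤ Tb L := by rw [hTb]; linarith
  obtain ⟨z1, z2⟩ := zones (t := t) hc00 he hW0 hK hT0 hDD h1 h2
  have hm0 : (0 : ℝ) < m := by exact_mod_cast hm1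
  have hME : Real.exp (8 / 3 * (Tb L - |t|)) ≤ M * Real.exp (-(8 / 3) * |t|) := by
    have e : Real.exp (8 / 3 * (Tb L - |t|)) = m * Real.exp (-(8 / 3) * |t|) := by
      rw [hTb, show 8 / 3 * (3 / 8 * L - |t|) = L + -(8 / 3) * |t| by ring, Real.exp_add, hLd,
        Real.exp_log hm0]
    rw [e]
    refine mul_le_mul_of_nonneg_right ?_ (Real.exp_pos _).le
    exact_mod_cast hM
  have hρ := Real.exp_pos (8 / 3 * (Tb L - |t|))
  have hCe : C ≤ C * Real.exp (C1 + 1) := le_mul_of_one_le_right hC (Real.one_le_exp (by linarith))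
  have hPh := Phi_nonneg (C' := 1) (b := 1 / 10) (T := Tb L / (1 - ep)) (t := t) zero_le_one
  have hPh2 := Phi_nonneg (C' := 1) (b := 1 / 10) (T := Tb L) (t := t) zero_le_one
  -- flat kinds
  have flat : C * Phi 1 (1 / 10) (Tb L / (1 - ep)) t * Real.exp (C1 - 2 * Real.pi * (K * XB e1 m t)) ≤
      act (C * Real.exp (C1 + 1)) 1 (c / 2) (1 / 10) k L ep e1 K r t := by
    refine act_left (C0 := C * Real.exp (C1 + 1)) (by positivity) le_rfl (by linarith) ?_
    have h3 : Real.exp (C1 - 2 * Real.pi * (K * XB e1 m t)) ≤ Real.exp (C1 + 1) *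
        (if |t| ≤ (1 - 3 * e1) * Tb L then Real.exp (-(2 * Real.pi * K)) else 1) := by
      split_ifs with h
      · have h4 : XB e1 m t = 1 := by
          refine NUCUR.cur_eq he (by rw [hT, hTb]; linarith) (h.trans ?_)
          rw [hT]
          exact mul_le_mul_of_nonneg_right (by linarith) hT0
        rw [h4, ← Real.exp_add]
        exact Real.exp_le_exp.2 (by linarith)
      · have h4 : 0 ≤ XB e1 m t := NUCUR.cur_nonneg zero_le_one t
        have h5 : 0 ≤ 2 * Real.pi * (K * XB e1 m t) := by positivity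
        rw [mul_one]
        exact Real.exp_le_exp.2 (by linarith)
    calc C * Phi 1 (1 / 10) (Tb L / (1 - ep)) t * Real.exp (C1 - 2 * Real.pi * (K * XB e1 m t)) ≤
        C * Phi 1 (1 / 10) (Tb L / (1 - ep)) t * (Real.exp (C1 + 1) *
          (if |t| ≤ (1 - 3 * e1) * Tb L then Real.exp (-(2 * Real.pi * K)) else 1)) :=
          mul_le_mul_of_nonneg_left h3 (by positivity)
      _ = _ := by ring
  -- suppressed kinds
  have supp : C * (((r : ℝ) + L) ^ k * Phi 1 (1 / 10) (Tb L) t *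
      Real.exp (-(c * Real.exp (8 / 3 * (Tb L - |t|))))) *
      Real.exp (A * (|y| + K) * Real.exp (-bey (DD e1 m) t)) ≤
      act (C * Real.exp (C1 + 1)) 1 (c / 2) (1 / 10) k L ep e1 K r t := by
    refine act_right (C0 := C * Real.exp (C1 + 1)) (by positivity) le_rfl (by linarith) ?_
    have h3 : Real.exp (-(c * Real.exp (8 / 3 * (Tb L - |t|)))) *
        Real.exp (A * (|y| + K) * Real.exp (-bey (DD e1 m) t)) ≤
        Real.exp (C1 + 1) * Real.exp (-(c / 2 * Real.exp (8 / 3 * (Tb L - |t|)))) := by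
      rw [← Real.exp_add, ← Real.exp_add]
      refine Real.exp_le_exp.2 ?_
      have h4 := mul_le_mul_of_nonneg_right hc01 hρ.le
      linarith
    have hrL : 0 ≤ (r : ℝ) + L := by positivity
    calc C * (((r : ℝ) + L) ^ k * Phi 1 (1 / 10) (Tb L) t *
          Real.exp (-(c * Real.exp (8 / 3 * (Tb L - |t|))))) *
          Real.exp (A * (|y| + K) * Real.exp (-bey (DD e1 m) t)) =
        C * (((r : ℝ) + L) ^ k * Phi 1 (1 / 10) (Tb L) t) * (Real.exp (-(c * Real.exp (8 / 3 * (Tb L - |t|)))) *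
          Real.exp (A * (|y| + K) * Real.exp (-bey (DD e1 m) t))) := by ring
      _ ≤ C * (((r : ℝ) + L) ^ k * Phi 1 (1 / 10) (Tb L) t) *
          (Real.exp (C1 + 1) * Real.exp (-(c / 2 * Real.exp (8 / 3 * (Tb L - |t|))))) :=
          mul_le_mul_of_nonneg_left h3 (by positivity)
      _ = _ := by ring
  -- the thin string
  have thin : C * Phi 1 (1 / 10) (Tb L / (1 - ep)) t *
      Real.exp (-(cT * (4 / 3 * ep) * (M * Real.exp (-(8 / 3) * |t|)))) *
      Real.exp (A * (|y| + K) * Real.exp (-bey (DD e1 m) t)) ≤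
      act (C * Real.exp (C1 + 1)) 1 (c / 2) (1 / 10) k L ep e1 K r t := by
    refine act_left (C0 := C * Real.exp (C1 + 1)) (by positivity) le_rfl (by linarith) ?_
    have h3 : Real.exp (-(cT * (4 / 3 * ep) * (M * Real.exp (-(8 / 3) * |t|)))) *
        Real.exp (A * (|y| + K) * Real.exp (-bey (DD e1 m) t)) ≤ Real.exp (C1 + 1) *
        (if |t| ≤ (1 - 3 * e1) * Tb L then Real.exp (-(2 * Real.pi * K)) else 1) := by
      have h4 : c0 * Real.exp (8 / 3 * (Tb L - |t|)) ≤ cT * (4 / 3 * ep) * (M * Real.exp (-(8 / 3) * |t|)) :=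
        mul_le_mul hc02 hME hρ.le (by positivity)
      rw [← Real.exp_add]
      split_ifs with h
      · rw [← Real.exp_add]
        refine Real.exp_le_exp.2 ?_
        have h5 := z2 h
        linarith
      · rw [mul_one]
        refine Real.exp_le_exp.2 ?_
        linarith
    calc C * Phi 1 (1 / 10) (Tb L / (1 - ep)) t *
          Real.exp (-(cT * (4 / 3 * ep) * (M * Real.exp (-(8 / 3) * |t|)))) *
          Real.exp (A * (|y| + K) * Real.exp (-bey (DD e1 m) t)) =
        C * Phi 1 (1 / 10) (Tb L / (1 - ep)) t *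
          (Real.exp (-(cT * (4 / 3 * ep) * (M * Real.exp (-(8 / 3) * |t|)))) *
          Real.exp (A * (|y| + K) * Real.exp (-bey (DD e1 m) t))) := by ring
      _ ≤ C * Phi 1 (1 / 10) (Tb L / (1 - ep)) t * (Real.exp (C1 + 1) *
          (if |t| ≤ (1 - 3 * e1) * Tb L then Real.exp (-(2 * Real.pi * K)) else 1)) :=
          mul_le_mul_of_nonneg_left h3 (by positivity)
      _ = _ := by ring
  cases kk with
  | L => exact flat
  | Svv => exact flat
  | St => exact thin
  | S => exact supp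
  | Sv => exact supp

end NUCR

end
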